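import Pool.Agent.P.MP_133cc4_co.GLink

/-! Hindrances without local finiteness. -/

namespace Pool.Agent.P.MP_133cc4_co

open Set Function Relation

variable {V E : Type*} {t h : E → V} {r : V} {G : Set E} {B Y : Set V} {U : Set E}
  {M : E → E → Prop}

/-- `Y` carries a wave. -/
def WS (t h : E → V) (r : V) (G : Set E) (B Y : Set V) : Prop := ∃ U M, Wave t h r G B Y U M

/-- A wave leaving some edge into the sinks unused. -/
def Hd (t h : E → V) (r : V) (G : Set E) (B : Set V) : Prop :=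
  ∃ Y U M, Wave t h r G B Y U M ∧ ∃ z ∈ G, h z ∈ B ∧ t z ∈ Y ∧ z ∉ U

theorem Wave.regraph {G' : Set E} (H : Wave t h r G B Y U M) (h1 : U ⊆ G')
    (h2 : ∀ a ∈ G', h a ∈ Y → t a ∉ Y → t a ∉ B → a ∈ G) : Wave t h r G' B Y U M :=
  ⟨H.ff, h1, H.rY, H.dis, H.tB, H.hYB, fun a ha k1 k2 k3 => H.ent (h2 a ha k1 k2 k3) k1 k2 k3⟩

theorem Hd.congr {G' : Set E} (H : Hd t h r G B) (hG : ∀ a, t a ∉ B → (a ∈ G ↔ a ∈ G')) :
    Hd t h r G' B := by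
  obtain ⟨Y, U, M, h1, z, h3, h4, h5, h6⟩ := H
  exact ⟨Y, U, M, h1.regraph (fun a ha => (hG a (h1.tB ha)).1 (h1.sub ha))
    fun a ha _ _ h9 => (hG a h9).2 ha, z, (hG z (h1.dis h5)).1 h3, h4, h5, h6⟩

/-- The largest wave. -/
theorem exists_max_ws (t h : E → V) (r : V) (G : Set E) (B : Set V) :
    ∃ Y U M, Wave t h r G B Y U M ∧ Link t h Y U M ∧ (∀ Y', WS t h r G B Y' → Y' ⊆ Y) ∧
      ∀ Y', WS t h r G (B ∪ Y) Y' → Y' = ∅ := by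
  obtain ⟨Y, U, M, h1, -, h2, h3⟩ := exists_max_wave t h r G B (fun _ => True)
    fun _ _ _ _ => trivial
  obtain ⟨U', M', h4, h5, -⟩ := h1.link
  exact ⟨Y, U', M', h4, h5, fun Y' ⟨_, _, h6⟩ => h2 _ _ _ h6 fun _ _ => trivial,
    fun Y' ⟨_, _, h6⟩ => h3 _ _ _ h6 fun _ _ => trivial⟩

theorem Wave.compose' {Y1 : Set V} {U1 : Set E} {M1 : E → E → Prop} (H : Wave t h r G B Y U M)
    (H1 : Wave t h r G (B ∪ Y) Y1 U1 M1) :
    Wave t h r G B (Y ∪ Y1) (U ∪ U1) fun a b => M a b ∨ M1 a b := by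
  have ha : ∀ a ∈ U1, h a ∈ Y → a ∈ U := fun a ha hY =>
    H.ent (H1.sub ha) hY (fun h1 => H1.tB ha (Or.inr h1)) (fun h1 => H1.tB ha (Or.inl h1))
  have hc : ∀ a ∈ U, h a ∉ Y1 := fun a ha hY => H1.dis hY (H.hYB ha).symm
  refine ⟨H.ff.compose H1.ff (disjoint_left.2 fun y hy h1 => H1.dis h1 (Or.inr hy))
    ha hc, union_subset H.sub H1.sub, fun h1 => h1.elim H.rY H1.rY, ?_, ?_, ?_, ?_⟩
  · rintro y (hy | hy)
    · exact H.dis hy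
    · exact fun h1 => H1.dis hy (Or.inl h1)
  · rintro a (h1 | h1)
    · exact H.tB h1
    · exact fun h2 => H1.tB h1 (Or.inl h2)
  · rintro a (h1 | h1)
    · exact (H.hYB h1).imp_left Or.inl
    · rcases H1.hYB h1 with h2 | h2 | h2
      · exact Or.inl (Or.inr h2)
      · exact Or.inr h2
      · exact Or.inl (Or.inl h2)
  · rintro a haG (hY | hY) h1 h2
    · exact Or.inl (H.ent haG hY (fun h3 => h1 (Or.inl h3)) h2)
    · exact Or.inr (H1.ent haG hY (fun h3 => h1 (Or.inr h3))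
        (fun h3 => h3.elim h2 fun h4 => h1 (Or.inl h4)))

/-- Two waves: the first one has priority. -/
theorem Wave.join {Y1 : Set V} {U1 : Set E} {M1 : E → E → Prop} {G1 : Set E}
    (H : Wave t h r G B Y U M) (H1 : Wave t h r G1 B Y1 U1 M1) (h1 : G1 ⊆ G)
    (h2 : ∀ a ∈ G, a ∉ G1 → h a ∈ Y) :
    ∃ U' M', Wave t h r G B (Y ∪ Y1) U' M' ∧ ∀ a ∈ U', a ∈ U ∨ (a ∈ U1 ∧ t a ∉ Y) := by
  obtain ⟨U2, M2, H2, h3⟩ := H1.enlarge (B' := B ∪ Y) subset_union_left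
  have H3 : Wave t h r G (B ∪ Y) (Y1 \ (B ∪ Y)) U2 M2 := H2.regraph (H2.sub.trans h1)
    fun a ha k1 _ _ => by_contra fun k2 => k1.2 (Or.inr (h2 a ha k2))
  have e : Y ∪ Y1 \ (B ∪ Y) = Y ∪ Y1 := by
    ext y
    have := @H1.dis y
    simp only [mem_union, mem_sdiff]
    tauto
  have H4 := H.compose' H3
  rw [e] at H4
  exact ⟨_, _, H4, fun a ha => ha.imp_right fun k => ⟨h3 k, fun k1 => H2.tB k (Or.inr k1)⟩⟩

/-- Deleting an edge that does not end in a sink keeps a wave or creates a hindrance. -/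
theorem WS.del {f : E} (hf : h f ∉ B) (H : WS t h r G B Y) :
    WS t h r (G \ {f}) B Y ∨ Hd t h r (G \ {f}) B := by
  obtain ⟨U0, M0, hw0⟩ := H
  obtain ⟨U, M, hw, hL, -⟩ := hw0.link
  by_cases hfU : f ∈ U
  swap
  · exact Or.inl ⟨U, M, hw.regraph
      (fun a ha => ⟨hw.sub ha, fun h1 => hfU ((mem_singleton_iff.1 h1) ▸ ha)⟩)
      fun a ha _ _ _ => ha.1⟩
  obtain ⟨C, c, z, hfC, hCU, -, hcl, hcC, hcY, hc, hzC, hzY, hz⟩ := hL.comp hfU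
  have hL1 := hL.sub (C := U \ C) sdiff_subset (fun a b hab => by
    simp only [mem_sdiff, hL.meml hab, hL.memr hab, true_and, hcl a b hab])
  have hsub : U \ C ⊆ G \ {f} := fun a ha =>
    ⟨hw.sub ha.1, fun h1 => ha.2 ((mem_singleton_iff.1 h1) ▸ hfC)⟩
  have hent : ∀ a ∈ G, h a ∈ Y → t a ∉ Y → t a ∉ B → a ≠ c → a ∈ U \ C :=
    fun a ha h1 h2 h3 h4 => ⟨hw.ent ha h1 h2 h3, fun h5 => h4 (hc a h5 h2)⟩
  by_cases hcf : c = f
  · exact Or.inl ⟨U \ C, _, hL1.toFF, hsub, hw.rY, hw.dis, fun a ha => hw.tB ha.1,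
      fun a ha => hw.hYB ha.1, fun a ha h1 h2 h3 => hent a ha.1 h1 h2 h3 (hcf ▸ ha.2)⟩
  have hzB : h z ∈ B := (hw.hYB (hCU hzC)).resolve_left hzY
  have hzf : z ∈ G \ {f} := ⟨hw.sub (hCU hzC), fun h1 => hf ((mem_singleton_iff.1 h1) ▸ hzB)⟩
  have hzt : t z ∈ Y := by
    by_contra h1
    have h2 : z = c := hc z hzC h1
    have h4 : ∀ a ∈ C, a = c := by
      intro a
      induction a using hL.wf'.induction with
      | _ a ih =>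
        intro ha
        by_contra h5
        obtain ⟨b, hb⟩ := hL.tot' (hCU ha) (by_contra fun h6 => h5 (hc a ha h6))
        have h6 := ih b hb ((hcl b a hb).2 ha)
        exact hzY (h2 ▸ h6 ▸ hL.int hb)
    exact hcf (h4 f hfC).symm
  rcases hL1.augment (G := {a | a ∈ G \ {f} ∧ t a ∉ B ∧ (h a ∈ Y ∨ h a ∈ B)})
    (fun a ha => ⟨hsub ha, hw.tB ha.1, hw.hYB ha.1⟩) (c := c)
    ⟨⟨hw.sub (hCU hcC), hcf⟩, hw.tB (hCU hcC), hw.hYB (hCU hcC)⟩ (fun h1 => h1.2 hcC) hcY with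
    ⟨U', M', e, h1, h2, -, h4, -⟩ | ⟨W, hW, h1, h2, h3, -⟩
  · refine Or.inl ⟨U', M', h1.toFF, fun a ha => (h2 ha).1, hw.rY, hw.dis, fun a ha => (h2 ha).2.1,
      fun a ha => (h2 ha).2.2, fun a ha h6 h7 h8 => ?_⟩
    rw [h4 a h7]
    by_cases hac : a = c
    · exact Or.inr hac
    · exact Or.inl (hent a ha.1 h6 h7 h8 hac)
  · have hw1 : Wave t h r (U \ C) B Y (U \ C) _ := ⟨hL1.toFF, Subset.rfl, hw.rY, hw.dis,
      fun a ha => hw.tB ha.1, fun a ha => hw.hYB ha.1, fun a ha _ _ _ => ha⟩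
    obtain ⟨U', M', h4, h5⟩ := hw1.remove (G := G \ {f}) (W := W) hsub
      (fun a ha h4 h5 h6 h7 => hent a ha.1 h4 h6 h7 fun h8 => h5 (h8 ▸ h1))
      (fun a ha h4 h5 h6 => h2 a ⟨ha, hw.dis (hW h6), Or.inl h4⟩ h5 h6) h3
    refine Or.inr ⟨_, U', M', h4, z, hzf, hzB, ⟨hzt, fun h6 => ?_⟩, fun h6 => (h5 h6).2 hzC⟩
    exact hw.dis (hW (h2 z ⟨hzf, hw.dis hzt, Or.inr hzB⟩ (fun h7 => h7.2 hzC) h6)) hzB

theorem Hd.add {G' : Set E} (H : Hd t h r G B) (h1 : G ⊆ G') (h2 : ∀ a ∈ G', a ∉ G → h a ∈ B) :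
    Hd t h r G' B := by
  obtain ⟨Y, U, M, hw, z, h3, h4⟩ := H
  exact ⟨Y, U, M, hw.regraph (hw.sub.trans h1)
    fun a ha k1 _ _ => by_contra fun k2 => hw.dis k1 (h2 a ha k2), z, h1 h3, h4⟩

theorem Hd.delete {f : E} (hf : h f ∉ B) (H : Hd t h r G B) : Hd t h r (G \ {f}) B := by
  obtain ⟨Y, U, M, hw, z, hzG, hzB, hzY, hzU⟩ := H
  have h1 : WS t h r (G \ {z}) B Y := ⟨U, M, hw.regraph
    (fun a ha => ⟨hw.sub ha, fun h1 => hzU ((mem_singleton_iff.1 h1) ▸ ha)⟩) fun a ha _ _ _ => ha.1⟩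
  have h2 : ∀ a ∈ G \ {f}, a ∉ (G \ {z}) \ {f} → h a ∈ B := fun a ha k => by
    by_contra k1
    exact k ⟨⟨ha.1, fun k2 => k1 ((mem_singleton_iff.1 k2).symm ▸ hzB)⟩, ha.2⟩
  rcases h1.del hf with ⟨U', M', h3⟩ | h3
  · exact ⟨Y, U', M', h3.regraph (fun a ha => ⟨(h3.sub ha).1.1, (h3.sub ha).2⟩)
      fun a ha k1 _ _ => by_contra fun k2 => h3.dis k1 (h2 a ha k2), z,
      ⟨hzG, fun k => hf ((mem_singleton_iff.1 k) ▸ hzB)⟩, hzB, hzY, fun k => (h3.sub k).1.2 rfl⟩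
  · exact h3.add (fun a ha => ⟨ha.1.1, ha.2⟩) h2

theorem diff_insert_eq (G F : Set E) (f : E) : G \ insert f F = (G \ F) \ {f} := by
  ext a
  simp only [mem_sdiff, mem_insert_iff, mem_singleton_iff]
  tauto

theorem Hd.delete_finite {F : Set E} (hF : F.Finite) (hf : ∀ f ∈ F, h f ∉ B)
    (H : Hd t h r G B) : Hd t h r (G \ F) B := by
  induction F, hF using Set.Finite.induction_on with
  | empty => simpa using H
  | @insert f F _ _ ih =>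
    rw [diff_insert_eq]
    exact (ih fun a ha => hf a (Or.inr ha)).delete (hf f (Or.inl rfl))

theorem WS.del_finite {F : Set E} (hF : F.Finite) (hf : ∀ f ∈ F, h f ∉ B) (H : WS t h r G B Y) :
    WS t h r (G \ F) B Y ∨ Hd t h r (G \ F) B := by
  induction F, hF using Set.Finite.induction_on with
  | empty => exact Or.inl (by simpa using H)
  | @insert f F _ _ ih =>
    rw [diff_insert_eq]
    rcases ih fun a ha => hf a (Or.inr ha) with h1 | h1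
    · exact h1.del (hf f (Or.inl rfl))
    · exact Or.inr (h1.delete (hf f (Or.inl rfl)))

/-- A reduced hindrance absorbs any one new edge. -/
theorem Hd.reduce (H : Hd t h r G B) :
    ∃ Y, (∃ U M, Wave t h r G B Y U M ∧ ∃ z ∈ G, h z ∈ B ∧ t z ∈ Y ∧ z ∉ U) ∧
      ∀ a, h a ∈ Y → t a ∉ B → WS t h r (insert a G) B Y := by
  obtain ⟨Y, U0, M0, hw0, z, hzG, hzB, hzY, hzU0⟩ := H
  obtain ⟨U, M, hw, hL, hU⟩ := hw0.link
  have hzU : z ∉ U := fun h1 => hzU0 (hU h1)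
  let Cl : Set V → Prop := fun W => W ⊆ Y ∧
    (∀ a ∈ G, (h a ∈ Y ∨ h a ∈ B) → a ∉ U → t a ∈ W → h a ∈ W) ∧
    ∀ a ∈ U, h a ∈ W → t a ∈ Y → t a ∈ W
  let W : Set V := ⋃₀ {W | Cl W}
  have hW : Cl W := ⟨sUnion_subset fun W' h1 => h1.1,
    fun a ha k1 k2 ⟨W', k3, k4⟩ => ⟨W', k3, k3.2.1 a ha k1 k2 k4⟩,
    fun a ha ⟨W', k3, k4⟩ k1 => ⟨W', k3, k3.2.2 a ha k4 k1⟩⟩
  let U' : Set E := {a | a ∈ U ∧ h a ∉ W}
  have hff : FF t h (Y \ W) U' (fun a b => M a b ∧ a ∈ U' ∧ h a ∈ Y \ W) :=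
    hw.ff.restrict (fun a ha hY => ⟨ha.1, hY.1⟩) fun a b hab _ hY =>
      ⟨hw.ff.memr hab, fun h3 => hY.2 (by
        rw [hw.ff.adj hab]
        exact hW.2.2 b (hw.ff.memr hab) h3 (hw.ff.toMat.int' hab))⟩
  have hL' : Link t h (Y \ W) U' (fun a b => M a b ∧ a ∈ U' ∧ h a ∈ Y \ W) :=
    ⟨hff, fun b hb hY => by
      obtain ⟨a, ha⟩ := hL.tot' hb.1 hY.1
      have k : h a ∈ Y \ W := hL.adj ha ▸ hY
      exact ⟨a, ha, ⟨hL.meml ha, k.2⟩, k⟩, Subrelation.wf (fun h1 => h1.1) hL.wf'⟩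
  have hB : ∀ a ∈ U', h a ∈ Y \ W ∨ h a ∈ B := fun a ha =>
    (hw.hYB ha.1).imp_left fun h3 => ⟨h3, ha.2⟩
  have hw' : Wave t h r G B (Y \ W) U' _ := ⟨hff, fun a ha => hw.sub ha.1, fun h3 => hw.rY h3.1,
    fun y hy => hw.dis hy.1, fun a ha => hw.tB ha.1, hB, fun a haG hY h3 h4 => ⟨by
      by_cases h5 : t a ∈ Y
      · by_contra h6
        exact hY.2 (hW.2.1 a haG (Or.inl hY.1) h6 (by_contra fun h7 => h3 ⟨h5, h7⟩))
      · exact hw.ent haG hY.1 h5 h4, hY.2⟩⟩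
  refine ⟨Y \ W, ⟨U', _, hw', z, hzG, hzB,
    ⟨hzY, fun k => hw.dis (hW.1 (hW.2.1 z hzG (Or.inr hzB) hzU k)) hzB⟩, fun k => hzU k.1⟩,
    fun c hc hcB => ?_⟩
  by_cases h0 : c ∈ G ∨ t c ∈ Y \ W
  · refine ⟨U', _, hw'.regraph (hw'.sub.trans (subset_insert _ _)) ?_⟩
    rintro a (rfl | ha) _ k _
    · exact h0.resolve_right k
    · exact ha
  rw [not_or] at h0
  rcases hL'.augment (G := {a | a ∈ insert c G ∧ t a ∉ B ∧ (h a ∈ Y \ W ∨ h a ∈ B)})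
    (fun a ha => ⟨Or.inr (hw'.sub ha), hw'.tB ha, hB a ha⟩) (c := c) ⟨Or.inl rfl, hcB, Or.inl hc⟩
    (fun k => h0.1 (hw'.sub k)) h0.2 with ⟨U2, M2, e, h1, h2, -, h4, -⟩ | ⟨W', k0, k1, k2, k3, -⟩
  · refine ⟨U2, M2, h1.toFF, fun a ha => (h2 ha).1, hw'.rY, hw'.dis, fun a ha => (h2 ha).2.1,
      fun a ha => (h2 ha).2.2, fun a ha h6 h7 h8 => ?_⟩
    rw [h4 a h7]
    exact ha.symm.imp_left fun k => hw'.ent k h6 h7 h8
  · refine (hc.2 ⟨W' ∪ W, ⟨union_subset (k0.trans sdiff_subset) hW.1, ?_, ?_⟩, Or.inl k1⟩).elim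
    · rintro a ha h5 h6 (h7 | h7)
      · by_cases h8 : h a ∈ W
        · exact Or.inr h8
        · exact Or.inl (k2 a ⟨Or.inr ha, hw'.dis (k0 h7), h5.imp_left fun k => ⟨k, h8⟩⟩
            (fun k => h6 k.1) h7)
      · exact Or.inr (hW.2.1 a ha h5 h6 h7)
    · rintro a ha (h5 | h5) h6
      · by_cases h8 : t a ∈ W
        · exact Or.inr h8
        · exact Or.inl (k3 a ⟨ha, (k0 h5).2⟩ h5 ⟨h6, h8⟩)
      · exact Or.inr (hW.2.2 a ha h5 h6)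

theorem Hd.of_delete {f : E} (hf : f ∈ G) (H : Hd t h r (G \ {f}) B) :
    Hd t h r G B ∨ ∃ Y, WS t h r G B Y ∧ h f ∈ Y := by
  obtain ⟨Y, ⟨U, M, hw, z, h1, h2⟩, h3⟩ := H.reduce
  by_cases hc : h f ∈ Y ∧ t f ∉ B
  · have := h3 f hc.1 hc.2
    rw [insert_sdiff_singleton, insert_eq_of_mem hf] at this
    exact Or.inr ⟨Y, this, hc.1⟩
  · refine Or.inl ⟨Y, U, M, hw.regraph (fun a ha => (hw.sub ha).1) fun a ha k1 _ k2 => ⟨ha, ?_⟩,
      z, h1.1, h2⟩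
    rintro rfl
    exact hc ⟨k1, k2⟩

/-- Removing a set of edges that respects a wave. -/
theorem not_hd_transfer (hG : ¬ Hd t h r G B) (H : Wave t h r G B Y U M) {N : Set E}
    (hN : ∀ a b, M a b → (a ∈ N ↔ b ∈ N)) (hun : ¬ Hd t h r (G \ N) (B ∪ Y)) :
    ¬ Hd t h r (G \ N) B := by
  rintro ⟨Y0, U0, M0, hw0, z, hzG, hzB, hzY, hzU0⟩
  have part : ∀ C : Set E, (∀ a b, M a b → a ∈ C → b ∈ C) →
      FF t h Y (U ∩ C) fun a b => M a b ∧ a ∈ U ∩ C ∧ h a ∈ Y := fun C hC =>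
    H.ff.restrict (fun a ha k => ⟨ha.1, k⟩) fun a b hab ha _ => ⟨H.ff.memr hab, hC a b hab ha.2⟩
  have hA : Wave t h r (G \ N) B Y (U ∩ Nᶜ) _ :=
    ⟨part Nᶜ fun a b hab ha hb => ha ((hN a b hab).2 hb), fun a ha => ⟨H.sub ha.1, ha.2⟩, H.rY,
      H.dis, fun a ha => H.tB ha.1, fun a ha => H.hYB ha.1,
      fun a ha k1 k2 k3 => ⟨H.ent ha.1 k1 k2 k3, ha.2⟩⟩
  obtain ⟨U1, M1, hw, hU1⟩ := hw0.join hA Subset.rfl fun a ha k => (k ha).elim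
  have hzU : z ∉ U1 := fun k => (hU1 z k).elim hzU0 fun k1 => k1.2 hzY
  have h1 : ∀ a ∈ G \ N, h a ∈ B ∪ Y → t a ∈ (Y0 ∪ Y) \ (B ∪ Y) → a ∈ U1 := by
    intro a ha k1 k2
    obtain ⟨U2, M2, k3, k4⟩ := hw.enlarge (B' := B ∪ Y) subset_union_left
    by_contra k5
    exact hun ⟨_, U2, M2, k3, a, ha, k1, k2, fun k => k5 (k4 k)⟩
  have h2 : ∀ b ∈ U1, t b ∈ Y → h b ∉ (Y0 ∪ Y) \ (B ∪ Y) := by
    intro b hb k1 k2
    set Z := (Y0 ∪ Y) \ (B ∪ Y) with hZ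
    have hbt : t b ∉ Z := fun k => k.2 (Or.inr k1)
    have hent : ∀ a ∈ G \ N, h a ∈ Z → t a ∉ Z → t a ∉ B ∪ Y → a ∈ U1 := fun a ha j1 j2 j3 =>
      hw.ent ha j1.1 (fun j => j2 ⟨j, j3⟩) fun j => j3 (Or.inl j)
    obtain ⟨U2, M2, hL, hS, hsub, hsrc, -⟩ := (hw.ff.restrict (Y' := Z) (C := U1)
      (fun a ha k => ⟨ha, k.1⟩) fun a c hac _ _ => hw.ff.memr hac).normalize
      (S := insert b {a | a ∈ G \ N ∧ h a ∈ Z ∧ t a ∉ Z ∧ t a ∉ B ∪ Y})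
      (insert_subset hb fun a ha => hent a ha.1 ha.2.1 ha.2.2.1 ha.2.2.2) (by
        rintro a (rfl | ha)
        · exact hbt
        · exact ha.2.2.1)
    obtain ⟨C, c, e, hbC, hCU, -, hcl, -, -, hc, heC, heZ, -⟩ := hL.comp (hS (Or.inl rfl))
    have hbc : b = c := hc b hbC hbt
    have hL1 := hL.sub (C := U2 \ C) sdiff_subset (fun a d hab => by
      simp only [mem_sdiff, hL.meml hab, hL.memr hab, true_and, hcl a d hab])
    have hhd : ∀ a ∈ U1, h a ∈ Z ∨ h a ∈ B ∪ Y := fun a ha => by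
      by_cases k : h a ∈ B ∪ Y
      · exact Or.inr k
      · exact Or.inl ⟨(hw.hYB ha).resolve_right fun j => k (Or.inl j), k⟩
    refine hun ⟨Z, U2 \ C, _, ⟨hL1.toFF, fun a ha => hw.sub (hsub ha.1), fun k => hw.rY k.1,
      fun y hy => hy.2, fun a ha k => ?_, fun a ha => hhd a (hsub ha.1), fun a ha j1 j2 j3 =>
        ⟨hS (Or.inr ⟨ha, j1, j2, j3⟩), fun j => j3 (Or.inr ((hc a j j2).trans hbc.symm ▸ k1))⟩⟩,
      e, hw.sub (hsub (hCU heC)), (hhd e (hsub (hCU heC))).resolve_left heZ, ?_, fun k => k.2 heC⟩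
    · rcases hsrc a ha.1 fun j => j.2 k with j | j
      · exact ha.2 (j ▸ hbC)
      · exact j.2.2.2 k
    · by_contra k
      exact heZ ((hc e heC k).trans hbc.symm ▸ k2)
  have hzt : t z ∈ Y := by
    by_contra k
    exact hzU (h1 z hzG (Or.inl hzB) ⟨Or.inl hzY, fun j => j.elim (hw0.dis hzY) k⟩)
  have hF1 := hw.ff.restrict (Y' := Y) (C := {a | a ∈ U1 ∧ (h a ∈ Y ∨ t a ∈ Y)})
    (fun a ha k => ⟨ha.1, Or.inr k⟩)
    fun a b hab _ k => ⟨hw.ff.memr hab, Or.inr (hw.ff.adj hab ▸ k)⟩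
  refine hG ⟨Y, _, _, ⟨hF1.union (part N fun a b hab => (hN a b hab).1)
    (disjoint_left.2 fun a ha k => (hw.sub ha.1).2 k.2), ?_, H.rY, H.dis, ?_, ?_, ?_⟩, z, hzG.1,
    hzB, hzt, ?_⟩
  · exact union_subset (fun a ha => (hw.sub ha.1).1) fun a ha => H.sub ha.1
  · exact fun a ha => ha.elim (fun k => hw.tB k.1) fun k => H.tB k.1
  · rintro a (⟨k, j | j⟩ | k)
    · exact Or.inl j
    · by_contra j1
      rw [not_or] at j1
      exact h2 a k j ⟨(hw.hYB k).resolve_right j1.2, fun j2 => j2.elim j1.2 j1.1⟩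
    · exact H.hYB k.1
  · intro a ha k1 k2 k3
    by_cases k4 : a ∈ N
    · exact Or.inr ⟨H.ent ha k1 k2 k3, k4⟩
    · refine Or.inl ⟨?_, Or.inl k1⟩
      by_cases k5 : t a ∈ Y0 ∪ Y
      · exact h1 a ⟨ha, k4⟩ (Or.inr k1) ⟨k5, fun j => j.elim k3 k2⟩
      · exact hw.ent ⟨ha, k4⟩ (Or.inr k1) k5 k3
  · rintro (k | k)
    · exact hzU k.1
    · exact hzG.2 k.2

end Pool.Agent.P.MP_133cc4_co
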