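import Pool.Agent.P.MP_133cc4_co.ATail

/-! The theorem of Aharoni and Berger in edge form: unhindered webs are linkable. -/

namespace Pool.Agent.P.MP_133cc4_co

open Set Function Relation Cardinal

universe u

variable {V : Type*} {E : Type u} {t h : E → V} {r : V} {G : Set E} {B : Set V}

theorem part_chain {ι : Type*} [LinearOrder ι] [WellFoundedLT ι] (hG : ¬ Hd t h r G B)
    (ok : ι → Set E → Prop) (dem : ∀ η : ι, (Iio η → Set E) → Set E)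
    (h1 : ∀ η (M : Iio η → Set E), (∀ ξ : Iio η, ok ξ (M ξ)) → ∀ G', ¬ Hd t h r G' B →
      ∃ N, (⋃ ξ, M ξ) ∪ dem η M ⊆ N ∧ ok η N ∧ Part t h r G' B N)
    (h2 : ∀ η (M : ι → Set E),
      (∀ ξ < η, ok ξ (M ξ) ∧ (∀ ζ < ξ, M ζ ⊆ M ξ) ∧ dem ξ (fun x => M x) ⊆ M ξ) →
      (Iio η).Nonempty → (∀ ξ < η, ∃ ζ < η, ξ < ζ) → ¬ Hd t h r (G \ ⋃ ξ ∈ Iio η, M ξ) B) :
    ∃ M : ι → Set E, (∀ η, ok η (M η) ∧ (∀ ζ < η, M ζ ⊆ M η) ∧ dem η (fun x => M x) ⊆ M η) ∧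
      Lk t h r (G ∩ ⋃ η, M η) B (Del t h (G ∩ ⋃ η, M η) B) := by
  have unf : ∀ η (f : ι → Set E), (⋃ ξ : Iio η, f ξ) ∪ dem η (fun x => f x) ⊆ f η →
      (∀ ζ < η, f ζ ⊆ f η) ∧ dem η (fun x => f x) ⊆ f η := fun η f k =>
    ⟨fun ζ j => (subset_iUnion (fun ξ : Iio η => f ξ) ⟨ζ, j⟩).trans (subset_union_left.trans k),
      subset_union_right.trans k⟩
  obtain ⟨f, hf⟩ := trec_inv (ι := ι) (S := Set E) (fun η g N =>
    (⋃ ξ, g ξ) ∪ dem η g ⊆ N ∧ ok η N ∧ Part t h r (G \ ⋃ ξ, g ξ) B N) (by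
      intro η f ih
      refine h1 η _ (fun ξ => (ih ξ ξ.2).2.1) _ ?_
      by_cases k0 : (Iio η).Nonempty
      swap
      · have : IsEmpty (Iio η) := ⟨fun ξ => k0 ⟨ξ, ξ.2⟩⟩
        simpa using hG
      by_cases k1 : ∀ ξ < η, ∃ ζ < η, ξ < ζ
      · rw [iUnion_coe_set]
        exact h2 η f (fun ξ k => ⟨(ih ξ k).2.1, unf ξ f (ih ξ k).1⟩) k0 k1
      push Not at k1
      obtain ⟨ξ, k2, k3⟩ := k1
      have e : G \ (⋃ ζ : Iio η, f ζ) = (G \ ⋃ ζ : Iio ξ, f ζ) \ f ξ := by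
        rw [Set.sdiff_sdiff, union_eq_self_of_subset_left (subset_union_left.trans (ih ξ k2).1)]
        refine congrArg _ (Subset.antisymm (iUnion_subset fun ζ => ?_)
          (subset_iUnion (fun ζ : Iio η => f ζ) ⟨ξ, k2⟩))
        exact (k3 ζ ζ.2).lt_or_eq.elim ((unf ξ f (ih ξ k2).1).1 ζ) fun j => j ▸ Subset.rfl
      rw [e]
      exact (ih ξ k2).2.2.2)
  refine ⟨f, fun η => ⟨(hf η).2.1, unf η f (hf η).1⟩, ?_⟩
  choose U N k1 k2 k3 k4 using fun η => (hf η).2.2.1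
  refine ⟨_, _, FF.iUnion k1 ?_, iUnion_subset fun η a ha =>
    ⟨(k2 η ha).1.1, mem_iUnion.2 ⟨η, (k2 η ha).2⟩⟩, fun a ha => ?_, fun a ha => ?_⟩
  · intro η ζ a j1 j2
    rcases lt_trichotomy η ζ with j | j | j
    · exact ((k2 ζ j2).1.2 (mem_iUnion.2 ⟨⟨η, j⟩, (k2 η j1).2⟩)).elim
    · exact j
    · exact ((k2 η j1).1.2 (mem_iUnion.2 ⟨⟨ζ, j⟩, (k2 ζ j2).2⟩)).elim
  · obtain ⟨η, j⟩ := mem_iUnion.1 ha
    exact k3 η a j
  · obtain ⟨η, j1, j2⟩ := WellFounded.has_min (wellFounded_lt (α := ι)) {η | a ∈ f η}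
      (mem_iUnion.1 ha.1.2)
    refine mem_iUnion.2 ⟨η, k4 η ⟨⟨⟨ha.1.1, fun j => ?_⟩, j1⟩, ha.2⟩⟩
    obtain ⟨ξ, j3⟩ := mem_iUnion.1 j
    exact j2 ξ j3 ξ.2

/-- Every set of size below `θ` lies in a part of size below `θ`. -/
def SM (t h : E → V) (r : V) (B : Set V) (θ : Cardinal.{u}) : Prop :=
  ∀ G, ¬ Hd t h r G B → ∀ S : Set E, #S < θ → ∃ N : Set E, #N < θ ∧ S ⊆ N ∧ Part t h r G B N

theorem sm_regular {ν : Cardinal.{u}} (hν : ν.IsRegular) (ih : SM t h r B ν) :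
    SM t h r B (Order.succ ν) := by
  intro G hG S hS
  obtain ⟨ι, _, _, hι, hlt⟩ := exists_index ν
  have : Nonempty ι := mk_ne_zero_iff.1 (hι ▸ hν.ne_zero)
  obtain ⟨φ, hφ⟩ := exists_book (hι ▸ hν.aleph0_le) (hι ▸ hlt)
  obtain ⟨idx, hidx⟩ := exists_idx (E := E) (ι := ι)
  obtain ⟨g, g1, g2⟩ := tail_club (isRegular_succ hν.aleph0_le) hG
  obtain ⟨s0, s1, s2⟩ : ∃ s0 : Set E → Set E, (∀ X : Set E, #X < ν → #(s0 X) < ν) ∧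
      ∀ (η : ι) (M : ι → Set E), (∀ ξ < η, #(M ξ) < ν ∧ ∀ ζ < ξ, M ζ ⊆ M ξ ∧ s0 (M ζ) ⊆ M ξ) →
        (Iio η).Nonempty → (∀ ξ < η, ∃ ζ < η, ξ < ζ) → ¬ Hd t h r (G \ ⋃ ξ ∈ Iio η, M ξ) B := by
    rcases hν.aleph0_le.eq_or_lt with k | k
    · refine ⟨fun _ => ∅, fun _ _ => by simpa using hν.pos, fun η M _ k1 k2 _ => ?_⟩
      obtain ⟨ξ, k3, k4⟩ := Set.exists_max_image _ id (lt_aleph0_iff_set_finite.1 (k ▸ hlt η)) k1
      obtain ⟨ζ, k5, k6⟩ := k2 ξ k3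
      exact k6.not_ge (k4 ζ k5)
    · obtain ⟨g0, k1, k2⟩ := tail_club hν hG
      refine ⟨Stp g0, fun X => stp_lt hν k k1, fun η M k3 k4 k5 => k2 _ (clo_union k4
        (fun ξ j ζ i => ((k3 ξ j).2 ζ i).1) fun ξ j a ha => ?_)
        ((card_biUnion_lt_iff_forall_of_isRegular hν (hlt η)).2 fun ξ j => (k3 ξ j).1)⟩
      obtain ⟨ζ, j1, j2⟩ := k5 ξ j
      exact ⟨ζ, j1, ((k3 ζ j1).2 ξ j2).2 ha⟩
  let pc : Set E → ι → Set E := fun W η => {a | a ∈ W ∧ idx W a < η}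
  have hpc : ∀ (W : Set E) η, #W ≤ ν → #(pc W η) < ν := fun W η k =>
    (mk_le_of_injective (f := fun a : pc W η => (⟨idx W a, a.2.2⟩ : Iio η)) fun a b j =>
      Subtype.ext (hidx W (hι ▸ k) a.2.1 b.2.1 (congrArg Subtype.val j))).trans_lt (hlt η)
  have hg : ∀ X : Set E, #X < ν → #(Stp g X) ≤ ν := fun X k =>
    stp_le hν.aleph0_le (fun l => Order.lt_succ_iff.1 (g1 l)) k.le
  obtain ⟨M, k1, k2⟩ := part_chain hG (fun _ N => #N < ν)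
    (fun η M => pc S η ∪ ⋃ ξ, (pc (Stp g (M ξ)) η ∪ s0 (M ξ))) (by
      intro η M k G' hG'
      obtain ⟨N, j1, j2, j3⟩ := ih G' hG' _ (mk_union_lt hν.aleph0_le
        ((card_iUnion_lt_iff_forall_of_isRegular hν (hlt η)).2 k) (mk_union_lt hν.aleph0_le
          (hpc S η (Order.lt_succ_iff.1 hS)) ((card_iUnion_lt_iff_forall_of_isRegular hν (hlt η)).2
            fun ξ => mk_union_lt hν.aleph0_le (hpc _ η (hg _ (k ξ))) (s1 _ (k ξ)))))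
      exact ⟨N, j2, j1, j3⟩)
    fun η M k => s2 η M fun ξ j => ⟨(k ξ j).1, fun ζ i => ⟨(k ξ j).2.1 ζ i, fun a ha =>
      (k ξ j).2.2 (Or.inr (mem_iUnion.2 ⟨⟨ζ, i⟩, Or.inr ha⟩))⟩⟩
  have hN : #(⋃ η, M η) < Order.succ ν :=
    Order.lt_succ_iff.2 (mk_iUnion_le' hν.aleph0_le hι.le fun η => (k1 η).1.le)
  refine ⟨_, hN, fun a ha => ?_, k2, g2 _ ?_ hN⟩
  · obtain ⟨η, j, -⟩ := hφ (idx S a) (idx S a)
    exact mem_iUnion.2 ⟨η, (k1 η).2.2 (Or.inl ⟨ha, j⟩)⟩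
  · rw [← biUnion_univ]
    refine clo_union univ_nonempty (fun ξ _ => (k1 ξ).2.1) fun ξ _ a ha => ?_
    obtain ⟨η, j, -⟩ := hφ (max ξ (idx (Stp g (M ξ)) a)) ξ
    exact ⟨η, trivial, (k1 η).2.2 (Or.inr (mem_iUnion.2 ⟨⟨ξ, (le_max_left _ _).trans_lt j⟩,
      Or.inl ⟨ha, (le_max_right _ _).trans_lt j⟩⟩))⟩

theorem sm_singular {ν : Cardinal.{u}} (hν : ν.IsSingular)
    (ih : ∀ μ < ν, ℵ₀ ≤ μ → SM t h r B (Order.succ μ)) : SM t h r B (Order.succ ν) := by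
  intro G hG S hS
  obtain ⟨ι, _, _, b, hb, b1, b2⟩ := exists_cofseq hν
  obtain ⟨rk, hrk⟩ := exists_rk (E := E)
  let s : Option ι → Cardinal.{u} := fun j => j.elim ν fun η => max ℵ₀ (⨆ ξ : Iio η, b ξ)
  have hs : ∀ j, ℵ₀ ≤ s j := by
    rintro (_ | η)
    · exact hν.aleph0_le
    · exact le_max_left _ _
  choose g g1 g2 using fun j => tail_club (isRegular_succ (hs j)) hG
  let pc : Set E → ι → Set E := fun W η => {a | a ∈ W ∧ rk W a < b η}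
  let dem : ∀ η : ι, (Iio η → Set E) → Set E :=
    fun η M => pc S η ∪ ⋃ j, ⋃ ξ, pc (Stp (g j) (M ξ)) η
  have key : ∀ (j) (I : Set ι) (M : ι → Set E), I.Nonempty →
      (∀ ξ ∈ I, #(M ξ) ≤ b ξ ∧ (∀ ζ < ξ, M ζ ⊆ M ξ) ∧ dem ξ (fun x => M x) ⊆ M ξ) →
      (∀ ξ ∈ I, ∃ ζ ∈ I, ξ < ζ) → (∀ ξ ∈ I, b ξ ≤ s j) → (∀ μ < s j, ∃ ξ ∈ I, μ < b ξ) →
      #(⋃ ξ ∈ I, M ξ) < Order.succ (s j) ∧ ¬ Hd t h r (G \ ⋃ ξ ∈ I, M ξ) B := by
    intro j I M k0 k1 k2 k3 k4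
    have hN : #(⋃ ξ ∈ I, M ξ) < Order.succ (s j) := by
      obtain ⟨ξ0, k5⟩ := k0
      rw [biUnion_eq_iUnion]
      exact Order.lt_succ_iff.2 (mk_iUnion_le' (hs j)
        ((mk_set_le I).trans ((b1 ξ0).2.1.trans (k3 ξ0 k5))) fun ξ => (k1 ξ ξ.2).1.trans (k3 ξ ξ.2))
    refine ⟨hN, g2 j _ (clo_union k0 (fun ξ i => (k1 ξ i).2.1) fun ξ i a ha => ?_) hN⟩
    obtain ⟨ζ, j1, j2⟩ := k4 _ (((hrk _).1 a ha).trans_le (stp_le (hs j)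
      (fun l => Order.lt_succ_iff.1 (g1 j l)) ((k1 ξ i).1.trans (k3 ξ i))))
    obtain ⟨η, j3, j4⟩ := k2 (max ξ ζ) (by rcases max_choice ξ ζ with l | l <;> rwa [l])
    exact ⟨η, j3, (k1 η j3).2.2 (Or.inr (mem_iUnion.2 ⟨j, mem_iUnion.2
      ⟨⟨ξ, (le_max_left _ _).trans_lt j4⟩, ha,
        j2.trans_le (hb ((le_max_right _ _).trans j4.le))⟩⟩))⟩
  obtain ⟨M, k1, k2⟩ := part_chain hG (fun η N => #N ≤ b η) dem (by
      intro η M k G' hG'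
      have j0 : #(Iio η) ≤ b η := (mk_set_le _).trans (b1 η).2.1
      obtain ⟨N, j1, j2, j3⟩ := ih _ (b1 η).2.2 (b1 η).1 G' hG' ((⋃ ξ, M ξ) ∪ dem η M)
        (Order.lt_succ_iff.2 (mk_union_le' (b1 η).1
          (mk_iUnion_le' (b1 η).1 j0 fun ξ => (k ξ).trans (hb ξ.2.le))
          (mk_union_le' (b1 η).1 ((hrk S).2 _) (mk_iUnion_le' (b1 η).1
            (by simpa using add_le_of_le (b1 η).1 (b1 η).2.1 (one_le_aleph0.trans (b1 η).1))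
            fun j => mk_iUnion_le' (b1 η).1 j0 fun ξ => (hrk _).2 _))))
      exact ⟨N, j2, Order.lt_succ_iff.1 j1, j3⟩) (by
      intro η M k k0 k2
      have j1 : ∀ ξ ∈ Iio η, b ξ ≤ ⨆ ξ : Iio η, b ξ := fun ξ i =>
        le_ciSup (f := fun ξ : Iio η => b ξ) bddAbove_of_small ⟨ξ, i⟩
      refine (key (some η) _ M k0 k k2 (fun ξ i => (j1 ξ i).trans (le_max_right _ _))
        fun μ i => ?_).2
      obtain ⟨ξ0, j2⟩ := k0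
      obtain ⟨ξ, j3⟩ := (lt_ciSup_iff' bddAbove_of_small).1
        (i.trans_le (max_le ((b1 ξ0).1.trans (j1 ξ0 j2)) le_rfl))
      exact ⟨ξ, ξ.2, j3⟩)
  obtain ⟨ξ0, -⟩ := b2 0 hν.pos
  have k3 := key none univ M ⟨ξ0, trivial⟩ (fun ξ _ => k1 ξ) (fun ξ _ => by
    obtain ⟨ζ, j⟩ := b2 _ (b1 ξ).2.2
    exact ⟨ζ, trivial, not_le.1 fun i => j.not_ge (hb i)⟩) (fun ξ _ => (b1 ξ).2.2.le)
    fun μ i => (b2 μ i).imp fun ξ j => ⟨trivial, j⟩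
  rw [biUnion_univ] at k3
  refine ⟨_, k3.1, fun a ha => ?_, k2, k3.2⟩
  obtain ⟨η, j⟩ := b2 _ (((hrk S).1 a ha).trans_le (Order.lt_succ_iff.1 hS))
  exact mem_iUnion.2 ⟨η, (k1 η).2.2 (Or.inl ⟨ha, j⟩)⟩

theorem sm_all (hr : r ∉ B) (ν : Cardinal.{u}) (hν : ℵ₀ ≤ ν) : SM t h r B (Order.succ ν) := by
  induction ν using WellFoundedLT.induction with
  | _ ν ih =>
    rcases isRegular_or_isSingular hν with k | k
    swap
    · exact sm_singular k ih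
    refine sm_regular k fun G hG S hS => ?_
    rcases hν.eq_or_lt with j | j
    · obtain ⟨N, j1, j2⟩ := part_finite hr hG (lt_aleph0_iff_set_finite.1 (j ▸ hS))
      exact ⟨N, j ▸ j1.lt_aleph0, j2⟩
    · obtain ⟨N, j1, j2⟩ := ih _ (max_lt j hS) (le_max_left _ _) G hG S
        (Order.lt_succ_iff.2 (le_max_right _ _))
      exact ⟨N, (Order.lt_succ_iff.1 j1).trans_lt (max_lt j hS), j2⟩

/-- The linkability theorem. -/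
theorem lk_of_not_hd (hr : r ∉ B) (hG : ¬ Hd t h r G B) : Lk t h r G B (Del t h G B) := by
  obtain ⟨N, -, h1, h2, -⟩ := sm_all hr _ (le_max_left ℵ₀ #G) G hG G
    (Order.lt_succ_iff.2 (le_max_right _ _))
  rwa [inter_eq_self_of_subset_left h1] at h2

end Pool.Agent.P.MP_133cc4_co
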