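import Mathlib

/-! Transfinite recursion, bookkeeping and closed unbounded families of sets. -/

namespace Pool.Agent.P.MP_133cc4_co

open Set Function Cardinal

universe u

theorem trec_inv {ι S : Type*} [LinearOrder ι] [WellFoundedLT ι] [Nonempty S]
    (P : ∀ η : ι, (Iio η → S) → S → Prop)
    (step : ∀ η (f : ι → S), (∀ ξ < η, P ξ (fun x => f x) (f ξ)) → ∃ s, P η (fun x => f x) s) :
    ∃ f : ι → S, ∀ η, P η (fun x => f x) (f η) := by
  let G : ∀ η : ι, (∀ ξ, ξ < η → S) → S := fun η g => Classical.epsilon (P η fun x => g x x.2)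
  let F : ι → S := (wellFounded_lt (α := ι)).fix G
  have hF : ∀ η, F η = Classical.epsilon (P η fun x => F x) := fun η => WellFounded.fix_eq _ _ _
  refine ⟨F, fun η => ?_⟩
  induction η using WellFoundedLT.induction with
  | _ η ih =>
    rw [hF η]
    exact Classical.epsilon_spec (step η F ih)

theorem exists_index (κ : Cardinal.{u}) : ∃ (ι : Type u) (_ : LinearOrder ι) (_ : WellFoundedLT ι),
    #ι = κ ∧ ∀ η : ι, #(Iio η) < κ :=
  ⟨κ.ord.ToType, inferInstance, inferInstance, mk_ord_toType κ, fun η => by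
    simpa using mk_Iio_lt η⟩

theorem mk_Iic_lt {ι : Type u} [LinearOrder ι] {κ : Cardinal.{u}} (hκ : ℵ₀ ≤ κ) {η : ι}
    (h : #(Iio η) < κ) : #(Iic η) < κ := by
  rw [← Iio_insert]
  exact mk_insert_le.trans_lt (add_lt_of_lt hκ h (one_lt_aleph0.trans_le hκ))

theorem exists_book {ι : Type u} [LinearOrder ι] (hκ : ℵ₀ ≤ #ι) (h : ∀ η : ι, #(Iio η) < #ι) :
    ∃ φ : ι → ι × ι, ∀ ξ j, ∃ η, ξ < η ∧ φ η = (ξ, j) := by
  obtain ⟨e⟩ : Nonempty (ι ≃ (ι × ι) × ι) := Cardinal.eq.1 (by simp [mul_eq_self hκ])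
  refine ⟨fun η => (e η).1, fun ξ j => ?_⟩
  by_contra hn
  push Not at hn
  refine (mk_Iic_lt hκ (h ξ)).not_ge (mk_le_of_injective
    (f := fun k => (⟨e.symm ((ξ, j), k), ?_⟩ : Iic ξ)) ?_)
  · exact not_lt.1 fun h1 => hn _ h1 (by simp)
  · intro a b hab
    simpa using hab

theorem exists_idx {E ι : Type u} [Nonempty ι] :
    ∃ idx : Set E → E → ι, ∀ W : Set E, #W ≤ #ι → InjOn (idx W) W := by
  have : ∀ W : Set E, ∃ f : E → ι, #W ≤ #ι → InjOn f W := by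
    intro W
    by_cases h : #W ≤ #ι
    · obtain ⟨f⟩ := (Cardinal.le_def _ _).1 h
      refine ⟨Function.extend Subtype.val f fun _ => Classical.arbitrary ι, fun _ a ha b hb hab => ?_⟩
      have k : ∀ c (hc : c ∈ W), Function.extend Subtype.val f (fun _ => Classical.arbitrary ι) c =
          f ⟨c, hc⟩ := fun c hc => Subtype.val_injective.extend_apply _ _ (⟨c, hc⟩ : W)
      rw [k a ha, k b hb] at hab
      exact congrArg Subtype.val (f.injective hab)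
    · exact ⟨fun _ => Classical.arbitrary ι, fun h1 => (h h1).elim⟩
  choose idx h using this
  exact ⟨idx, h⟩

theorem exists_rk {E : Type u} : ∃ rk : Set E → E → Cardinal.{u}, ∀ W : Set E,
    (∀ a ∈ W, rk W a < #W) ∧ ∀ β, #{a | a ∈ W ∧ rk W a < β} ≤ β := by
  have : ∀ W : Set E, ∃ f : E → Cardinal.{u},
      (∀ a ∈ W, f a < #W) ∧ ∀ β, #{a | a ∈ W ∧ f a < β} ≤ β := by
    intro W
    obtain ⟨e⟩ : Nonempty (W ≃ (#W).ord.ToType) := Cardinal.eq.1 (by simp)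
    let g : W → Ordinal.{u} := fun a => Ordinal.typein (α := (#W).ord.ToType) (· < ·) (e a)
    let f : E → Ordinal.{u} := Function.extend Subtype.val g fun _ => 0
    have k : ∀ c (hc : c ∈ W), f c = g ⟨c, hc⟩ := fun c hc =>
      Subtype.val_injective.extend_apply _ _ (⟨c, hc⟩ : W)
    refine ⟨fun a => (f a).card, fun a ha => ?_, fun β => ?_⟩
    · rw [← lt_ord, k a ha]
      simpa using Ordinal.typein_lt_type (α := (#W).ord.ToType) (· < ·) (e ⟨a, ha⟩)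
    · have h1 := lift_mk_le_lift_mk_of_injective
        (f := fun a : {a | a ∈ W ∧ (f a).card < β} => (⟨f a, lt_ord.2 a.2.2⟩ : Iio β.ord)) (by
          intro a b hab
          have h2 : f a = f b := congrArg Subtype.val hab
          rw [k _ a.2.1, k _ b.2.1] at h2
          exact Subtype.ext (Subtype.mk.inj (e.injective (Ordinal.typein_injective _ h2))))
      rw [mk_Iio_ordinal, card_ord, lift_lift] at h1
      exact lift_le.1 h1
  choose rk h using this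
  exact ⟨rk, h⟩

theorem exists_cofseq {ν : Cardinal.{u}} (hν : ν.IsSingular) :
    ∃ (ι : Type u) (_ : LinearOrder ι) (_ : WellFoundedLT ι) (b : ι → Cardinal.{u}), Monotone b ∧
      (∀ η, ℵ₀ ≤ b η ∧ #ι ≤ b η ∧ b η < ν) ∧ ∀ μ < ν, ∃ η, μ < b η := by
  obtain ⟨ι, _, _, h1, h2⟩ := exists_index ν.ord.cof
  obtain ⟨s, hs, hs'⟩ := Order.exists_cof_eq ν.ord.ToType
  rw [Ordinal.cof_toType] at hs'
  obtain ⟨e⟩ : Nonempty (ι ≃ s) := Cardinal.eq.1 (h1.trans hs'.symm)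
  have h0 : ℵ₀ < ν := hν.aleph0_le.lt_of_ne fun h => not_isSingular_aleph0 (h ▸ hν)
  have hc : ℵ₀ ≤ ν.ord.cof := (isRegular_cof (isSuccLimit_ord hν.aleph0_le)).aleph0_le
  refine ⟨ι, inferInstance, inferInstance,
    fun η => max (max ℵ₀ #ι) (⨆ ξ : Iic η, #(Iio (e ξ).1)), fun η ζ h => max_le_max le_rfl ?_,
    fun η => ⟨(le_max_left _ _).trans (le_max_left _ _), (le_max_right _ _).trans (le_max_left _ _),
      max_lt (max_lt h0 (h1 ▸ hν.cof_ord_lt))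
        (iSup_lt_of_lt_cof_ord (mk_Iic_lt hc (h2 η)) fun ξ => by simpa using mk_Iio_lt (e ξ).1)⟩,
    fun μ hμ => ?_⟩
  · exact ciSup_le' fun ξ => le_ciSup (f := fun ξ : Iic ζ => #(Iio (e ξ).1)) bddAbove_of_small
      ⟨ξ, ξ.2.trans h⟩
  · obtain ⟨x, hx⟩ := Ordinal.typein_surj (α := ν.ord.ToType) (· < ·)
      (o := (Order.succ μ).ord) (by simpa using hν.isSuccLimit.succ_lt hμ)
    obtain ⟨y, hy, hxy⟩ := hs x
    refine ⟨e.symm ⟨y, hy⟩, lt_max_of_lt_right ((Order.lt_succ μ).trans_le ?_)⟩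
    refine le_trans ?_ (le_ciSup (f := fun ξ : Iic (e.symm ⟨y, hy⟩) => #(Iio (e ξ).1))
      bddAbove_of_small ⟨_, le_rfl⟩)
    have h3 : #(Iio x) = Order.succ μ := by
      have := Ordinal.card_typein (r := (· < · : ν.ord.ToType → _ → Prop)) x
      rw [hx, card_ord] at this
      exact this.symm
    rw [← h3]
    simp only [Equiv.apply_symm_apply]
    exact mk_le_mk_of_subset (Iio_subset_Iio hxy)

variable {E : Type u} {θ : Cardinal.{u}}

/-- `M` is closed under the finitary set-valued function `g`. -/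
def Clo (g : List E → Set E) (M : Set E) : Prop := ∀ l : List E, (∀ a ∈ l, a ∈ M) → g l ⊆ M

/-- `C` holds for all sets closed under some small finitary function. -/
def Club (θ : Cardinal.{u}) (C : Set E → Prop) : Prop :=
  ∃ g : List E → Set E, (∀ l, #(g l) < θ) ∧ ∀ M, Clo g M → C M

theorem Club.mono {C C' : Set E → Prop} (H : Club θ C) (h : ∀ M, C M → C' M) : Club θ C' :=
  H.imp fun _ k => ⟨k.1, fun M hM => h M (k.2 M hM)⟩

theorem Club.and (hθ : ℵ₀ ≤ θ) {C C' : Set E → Prop} (H : Club θ C) (H' : Club θ C') :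
    Club θ fun M => C M ∧ C' M := by
  obtain ⟨g, h1, h2⟩ := H
  obtain ⟨g', h3, h4⟩ := H'
  exact ⟨fun l => g l ∪ g' l, fun l => (mk_union_le _ _).trans_lt (add_lt_of_lt hθ (h1 l) (h3 l)),
    fun M hM => ⟨h2 M fun l hl => subset_union_left.trans (hM l hl),
      h4 M fun l hl => subset_union_right.trans (hM l hl)⟩⟩

theorem club_sup {X : Set E} (hX : #X < θ) : Club θ fun M => X ⊆ M :=
  ⟨fun _ => X, fun _ => hX, fun _ hM => hM [] (by simp)⟩

theorem Club.diag (hθ : ℵ₀ ≤ θ) {C : E → Set E → Prop} (H : ∀ e, Club θ (C e)) :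
    Club θ fun M => ∀ e ∈ M, C e M := by
  choose g h1 h2 using H
  refine ⟨fun l => match l with
    | [] => ∅
    | e :: l => g e l, ?_, fun M hM e he => h2 e M fun l hl => hM (e :: l) ?_⟩
  · rintro (_ | ⟨e, l⟩)
    · simpa using aleph0_pos.trans_le hθ
    · exact h1 e l
  · simpa using ⟨he, hl⟩

/-- One step of closing a set. -/
def Stp (g : List E → Set E) (X : Set E) : Set E := ⋃ l : {l : List E // ∀ a ∈ l, a ∈ X}, g l

theorem mk_lists (X : Set E) : #{l : List E // ∀ a ∈ l, a ∈ X} ≤ max ℵ₀ #X := by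
  refine le_trans (mk_le_of_surjective (f := fun l : List X =>
    (⟨l.map Subtype.val, by simp +contextual⟩ : {l : List E // ∀ a ∈ l, a ∈ X})) ?_) (mk_list_le_max _)
  rintro ⟨l, hl⟩
  exact ⟨l.attachWith _ hl, by simp⟩

theorem mk_iUnion_le' {ι : Type u} {f : ι → Set E} {μ : Cardinal.{u}} (hμ : ℵ₀ ≤ μ) (hι : #ι ≤ μ)
    (h : ∀ i, #(f i) ≤ μ) : #(⋃ i, f i) ≤ μ :=
  (mk_iUnion_le f).trans ((mul_le_mul' hι (ciSup_le' h)).trans (mul_eq_self hμ).le)

theorem mk_union_le' {A B : Set E} {μ : Cardinal.{u}} (hμ : ℵ₀ ≤ μ) (hA : #A ≤ μ) (hB : #B ≤ μ) :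
    #(A ∪ B : Set E) ≤ μ :=
  (mk_union_le _ _).trans (add_le_of_le hμ hA hB)

theorem mk_union_lt {A B : Set E} (hθ : ℵ₀ ≤ θ) (hA : #A < θ) (hB : #B < θ) :
    #(A ∪ B : Set E) < θ :=
  (mk_union_le _ _).trans_lt (add_lt_of_lt hθ hA hB)

theorem stp_le {g : List E → Set E} {X : Set E} {μ : Cardinal.{u}} (hμ : ℵ₀ ≤ μ)
    (hg : ∀ l, #(g l) ≤ μ) (hX : #X ≤ μ) : #(Stp g X) ≤ μ :=
  mk_iUnion_le' hμ ((mk_lists X).trans (max_le hμ hX)) fun _ => hg _

theorem stp_lt (hθ : θ.IsRegular) (h0 : ℵ₀ < θ) {g : List E → Set E} {X : Set E}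
    (hg : ∀ l, #(g l) < θ) (hX : #X < θ) : #(Stp g X) < θ :=
  (card_iUnion_lt_iff_forall_of_isRegular hθ ((mk_lists X).trans_lt (max_lt h0 hX))).2
    fun _ => hg _

theorem clo_union {ι : Type*} [LinearOrder ι] {I : Set ι} (hI : I.Nonempty) {M : ι → Set E}
    (hM : ∀ ξ ∈ I, ∀ ζ < ξ, M ζ ⊆ M ξ) {g : List E → Set E}
    (h : ∀ ξ ∈ I, ∀ a ∈ Stp g (M ξ), ∃ ζ ∈ I, a ∈ M ζ) : Clo g (⋃ ξ ∈ I, M ξ) := by
  have hM' : ∀ ξ ∈ I, ∀ ζ ≤ ξ, M ζ ⊆ M ξ := fun ξ hξ ζ h1 =>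
    h1.lt_or_eq.elim (hM ξ hξ ζ) fun h2 => h2 ▸ Subset.rfl
  have key : ∀ l : List E, (∀ a ∈ l, a ∈ ⋃ ξ ∈ I, M ξ) → ∃ ξ ∈ I, ∀ a ∈ l, a ∈ M ξ := by
    intro l
    induction l with
    | nil => exact fun _ => hI.imp fun ξ hξ => ⟨hξ, by simp⟩
    | cons b l ih =>
      intro hl
      obtain ⟨ξ, hξ, h1⟩ := ih fun a ha => hl a (List.mem_cons_of_mem _ ha)
      obtain ⟨ζ, hζ, h2⟩ := mem_iUnion₂.1 (hl b List.mem_cons_self)
      have h3 : max ξ ζ ∈ I := by rcases max_choice ξ ζ with h4 | h4 <;> rwa [h4]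
      refine ⟨max ξ ζ, h3, fun a ha => ?_⟩
      rcases List.mem_cons.1 ha with rfl | h4
      · exact hM' _ h3 _ (le_max_right _ _) h2
      · exact hM' _ h3 _ (le_max_left _ _) (h1 a h4)
  intro l hl a ha
  obtain ⟨ξ, hξ, h1⟩ := key l hl
  obtain ⟨ζ, hζ, h2⟩ := h ξ hξ a (mem_iUnion.2 ⟨⟨l, h1⟩, ha⟩)
  exact mem_biUnion hζ h2

end Pool.Agent.P.MP_133cc4_co
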