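import Pool.Agent.P.MP_133cc4_co.AHd

/-! Safe paths in webs of arbitrary size. -/

namespace Pool.Agent.P.MP_133cc4_co

open Set Function Relation

variable {V E : Type*} {t h : E → V} {r : V} {G : Set E} {B : Set V}

theorem wave_of_levels {ι : Type*} {G : ι → Set E} {Y : ι → Set V} {U : ι → Set E}
    {M : ι → E → E → Prop} (H : ∀ i, Wave t h r (G i) B (Y i) (U i) (M i)) {U' G' : Set E}
    {M' : E → E → Prop} (h1 : FF t h (⋃ i, Y i) U' M') (h2 : U' ⊆ ⋃ i, U i) (h3 : U' ⊆ G')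
    (h4 : ∀ a ∈ G', h a ∈ ⋃ i, Y i → t a ∉ ⋃ i, Y i → t a ∉ B → a ∈ U') :
    Wave t h r G' B (⋃ i, Y i) U' M' := by
  refine ⟨h1, h3, fun h5 => ?_, fun y hy => ?_, fun a ha => ?_, fun a ha => ?_, h4⟩
  · obtain ⟨i, hi⟩ := mem_iUnion.1 h5
    exact (H i).rY hi
  · obtain ⟨i, hi⟩ := mem_iUnion.1 hy
    exact (H i).dis hi
  · obtain ⟨i, hi⟩ := mem_iUnion.1 (h2 ha)
    exact (H i).tB hi
  · obtain ⟨i, hi⟩ := mem_iUnion.1 (h2 ha)
    exact ((H i).hYB hi).imp_left fun h5 => mem_iUnion.2 ⟨i, h5⟩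

theorem wave_union {ι : Type*} {Y : ι → Set V} {U : ι → Set E} {M : ι → E → E → Prop}
    (H : ∀ i, Wave t h r G B (Y i) (U i) (M i)) :
    ∃ U' M', Wave t h r G B (⋃ i, Y i) U' M' ∧ U' ⊆ ⋃ i, U i := by
  obtain ⟨_, _⟩ := exists_wellFoundedLT (α := ι)
  obtain ⟨U', M', h1, h2, h3, -⟩ := wave_levels (G := fun _ : ι => G) H fun _ _ _ => le_rfl
  exact ⟨U', M', wave_of_levels (G := fun _ : ι => G) H h1 h2
    (h2.trans (iUnion_subset fun i => (H i).sub)) fun a ha => h3 a fun _ => ha, h2⟩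

/-- The heart of the safe path lemma. -/
theorem tree_wave {T : Set E} {c : E} (hT : ∀ a ∈ T, h a ∉ B)
    (hT2 : ∀ F ⊆ T, F.Finite → ¬ Hd t h r (G \ insert c F) B) :
    ∃ (Q : Set V), ∃ Y U M, Wave t h r (G \ insert c {a | a ∈ T ∧ t a ∉ Q}) B Y U M ∧
      ∀ F ⊆ T, F.Finite → ∀ Y', WS t h r (G \ insert c F) B Y' → Y' ⊆ Y := by
  choose W UW MW hW _ hmax _ using fun F : Set E => exists_max_ws t h r (G \ insert c F) B
  have mono : ∀ F F', F ⊆ F' → F' ⊆ T → F'.Finite → W F ⊆ W F' := by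
    intro F F' h1 h2 h3
    have e : (G \ insert c F) \ F' = G \ insert c F' := by
      ext a
      have := @h1 a
      simp only [mem_sdiff, mem_insert_iff]
      tauto
    have h4 := WS.del_finite h3 (fun f hf => hT f (h2 hf)) ⟨_, _, hW F⟩
    rw [e] at h4
    exact hmax F' _ (h4.resolve_right (hT2 F' h2 h3))
  let Q : Set V := {q | ∃ F ⊆ T, F.Finite ∧ q ∈ W F}
  obtain ⟨Y, U, M, h1, -, h2, -⟩ := exists_max_ws t h r (G \ insert c {a | a ∈ T ∧ t a ∉ Q}) B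
  refine ⟨Q, Y, U, M, h1, fun F0 hF0 hfin0 Y' hY' => (hmax F0 Y' hY').trans ?_⟩
  have hq : ∀ q, ∃ F ⊆ T, F.Finite ∧ (q ∈ Q → q ∈ W F) := fun q => by
    by_cases h3 : q ∈ Q
    · exact h3.imp fun F h4 => ⟨h4.1, h4.2.1, fun _ => h4.2.2⟩
    · exact ⟨∅, empty_subset _, finite_empty, fun h4 => (h3 h4).elim⟩
  choose Fq hq1 hq2 hq3 using hq
  obtain ⟨f, hf0, hf⟩ := exists_seq (fun F : Set E => F ⊆ T ∧ F.Finite)
    (fun _ F F' => F ⊆ F' ∧ ∀ a ∈ F, t a ∈ Q → t a ∈ W F') F0 ⟨hF0, hfin0⟩ (by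
      intro _ F hF
      have k1 : F ∪ ⋃ a ∈ F, Fq (t a) ⊆ T :=
        union_subset hF.1 (iUnion₂_subset fun a _ => hq1 _)
      have k2 : (F ∪ ⋃ a ∈ F, Fq (t a)).Finite := hF.2.union (hF.2.biUnion fun a _ => hq2 _)
      exact ⟨_, ⟨k1, k2⟩, subset_union_left, fun a ha h3 => mono _ _
        ((subset_biUnion_of_mem (u := fun a => Fq (t a)) ha).trans subset_union_right) k1 k2
        (hq3 _ h3)⟩)
  have hm : Monotone f := monotone_nat_of_le_succ fun n => (hf n).2.1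
  obtain ⟨U', M', k1, k2, k3, -⟩ := wave_levels (fun n => hW (f n))
    fun m n hmn => sdiff_subset_sdiff_right (insert_subset_insert (hm hmn))
  have k4 : ∀ a ∈ U', a ∈ G \ {c} := fun a ha => by
    obtain ⟨n, hn⟩ := mem_iUnion.1 (k2 ha)
    exact ⟨((hW _).sub hn).1, fun h3 => ((hW _).sub hn).2 (Or.inl h3)⟩
  have k5 : ∀ y ∈ ⋃ n, W (f n), y ∈ Q := fun y hy => by
    obtain ⟨n, hn⟩ := mem_iUnion.1 hy
    exact ⟨f n, (hf n).1.1, (hf n).1.2, hn⟩
  have k6 := wave_of_levels (fun n => hW (f n)) (G' := G \ insert c {a | a ∈ T ∧ t a ∉ Q})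
    (k1.restrict (C := U' ∩ (G \ insert c {a | a ∈ T ∧ t a ∉ Q})) (fun a ha h3 => ⟨ha.1, h3⟩)
      fun a b hab _ h3 => ⟨k1.memr hab, (k4 b (k1.memr hab)).1, fun h4 => h4.elim
        (k4 b (k1.memr hab)).2 fun h5 => h5.2 (k5 _ (k1.adj hab ▸ h3))⟩)
    (inter_subset_left.trans k2) inter_subset_right fun a ha h3 h4 h5 =>
      ⟨k3 a (fun n => ⟨ha.1, fun h6 => h6.elim (fun h7 => ha.2 (Or.inl h7)) fun h7 =>
        h4 (mem_iUnion.2 ⟨n + 1, (hf n).2.2 a h7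
          (by_contra fun h8 => ha.2 (Or.inr ⟨(hf n).1.1 h7, h8⟩))⟩)⟩) h3 h4 h5, ha⟩
  exact (hf0 ▸ subset_iUnion (fun n => W (f n)) 0).trans (h2 _ ⟨_, _, k6⟩)

/-- In a loose web every edge into the sinks lies on a safe path. -/
theorem safe_path' (hloose : ∀ Y, WS t h r G B Y → Y = ∅)
    {c : E} (hcG : c ∈ G) (hcB : h c ∈ B) (hct : t c ∉ B) :
    ∃ P N, FF h t (Out r B) P N ∧ P ⊆ G ∧ P.Finite ∧ c ∈ P ∧ (∀ a ∈ P, t a ∉ B) ∧
      (∀ a ∈ P, h a ∈ B → a = c) ∧ ¬ Hd t h r (G \ P) B := by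
  let Conn : Set E → Set V := fun T =>
    {v | ReflTransGen (fun u v => ∃ e ∈ T, h e = u ∧ t e = v) (t c) v}
  have Cmono : ∀ T T', T ⊆ T' → Conn T ⊆ Conn T' := by
    intro T T' hT v hv
    induction hv with
    | refl => exact ReflTransGen.refl
    | tail _ h1 ih =>
      obtain ⟨e, he, h2⟩ := h1
      exact ReflTransGen.tail ih ⟨e, hT he, h2⟩
  let S : Set (Set E) := {T | T ⊆ G ∧ (∀ a ∈ T, t a ∉ B ∧ h a ∉ B ∧ h a ∈ Conn T) ∧
    ∀ F ⊆ T, F.Finite → ¬ Hd t h r (G \ insert c F) B}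
  obtain ⟨T, -, hT, hTmax⟩ := zorn_subset_nonempty S (by
    intro C hC hch hne
    refine ⟨⋃₀ C, ⟨sUnion_subset fun T hT => (hC hT).1, ?_, ?_⟩, fun s hs => subset_sUnion_of_mem hs⟩
    · rintro a ⟨T, hT, ha⟩
      obtain ⟨h1, h2, h3⟩ := (hC hT).2.1 a ha
      exact ⟨h1, h2, Cmono _ _ (subset_sUnion_of_mem hT) h3⟩
    · intro F hF hfin
      obtain ⟨T, hT, h1⟩ := hch.directedOn.exists_mem_subset_of_finite_of_subset_sUnion hne hfin hF
      exact (hC hT).2.2 F h1 hfin) ∅ (by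
    refine ⟨empty_subset _, fun _ h1 => h1.elim, ?_⟩
    intro F hF _
    obtain rfl := subset_empty_iff.1 hF
    rintro ⟨Y, U, M, h1, z, -, -, h3, -⟩
    have := hloose Y ⟨U, M, h1.regraph (fun a ha => (h1.sub ha).1) fun a ha h4 _ _ => ⟨ha, ?_⟩⟩
    · rw [this] at h3
      exact h3
    · rintro (rfl | h7)
      · exact h1.dis h4 hcB
      · exact h7)
  obtain ⟨hTG, hT1, hT2⟩ := hT
  have hSB : ∀ v ∈ Conn T, v ∉ B := by
    intro v hv
    rcases ReflTransGen.cases_tail hv with h1 | ⟨u, _, e, he, _, h1⟩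
    · exact h1 ▸ hct
    · exact h1 ▸ (hT1 e he).1
  by_cases hrS : r ∈ Conn T
  · rcases (link_empty h t {v | v ≠ r ∧ v ∉ B}).augment (G := insert c T) (empty_subset _)
      (c := c) (Or.inl rfl) (fun h1 => h1) (fun h1 => h1.2 hcB) with
      ⟨P, N, e, h1, h2, h3, h4, -⟩ | ⟨W, hW, h1, h2, -⟩
    · have hPfin : P.Finite := by simpa using h3
      refine ⟨P, N, h1.toFF, h2.trans (insert_subset hcG hTG), hPfin,
        (h4 c fun h5 => h5.2 hcB).2 (Or.inr rfl), ?_, ?_, ?_⟩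
      · intro a ha
        rcases h2 ha with rfl | h5
        · exact hct
        · exact (hT1 a h5).1
      · intro a ha h5
        exact (h2 ha).resolve_right fun h6 => (hT1 a h6).2.1 h5
      · have := hT2 (P \ {c}) (fun a ha => (h2 ha.1).resolve_left ha.2) (hPfin.subset sdiff_subset)
        rwa [insert_sdiff_singleton,
          insert_eq_of_mem ((h4 c fun h5 => h5.2 hcB).2 (Or.inr rfl))] at this
    · exfalso
      have : ∀ v ∈ Conn T, v ∈ W := by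
        intro v hv
        induction hv with
        | refl => exact h1
        | tail _ h3 ih =>
          obtain ⟨e, he, h4, h5⟩ := h3
          exact h5 ▸ h2 e (Or.inr he) (fun h6 => h6) (h4 ▸ ih)
      exact (hW (this r hrS)).1 rfl
  exfalso
  obtain ⟨Q, Y, U, M, hw, hY⟩ := tree_wave (fun a ha => (hT1 a ha).2.1) hT2
  have bad : ∀ f ∈ G, f ∉ T → t f ∉ B → h f ∈ Conn T → h f ∈ Y := by
    intro f f1 f2 f3 f4
    have h1 : insert f T ∉ S := fun h1 => f2 (hTmax h1 (subset_insert f T) (Or.inl rfl))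
    have h2 : ¬ ∀ F ⊆ insert f T, F.Finite → ¬ Hd t h r (G \ insert c F) B := by
      intro h2
      refine h1 ⟨insert_subset f1 hTG, ?_, h2⟩
      rintro a (rfl | ha)
      · exact ⟨f3, hSB _ f4, Cmono _ _ (subset_insert _ _) f4⟩
      · obtain ⟨h3, h4, h5⟩ := hT1 a ha
        exact ⟨h3, h4, Cmono _ _ (subset_insert _ _) h5⟩
    push Not at h2
    obtain ⟨F, hF, hfin, h3⟩ := h2
    have h4 := h3.delete (f := f) (hSB _ f4)
    have e : (G \ insert c F) \ {f} = (G \ insert c (F \ {f})) \ {f} := by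
      ext a
      simp only [mem_sdiff, mem_insert_iff, mem_singleton_iff]
      tauto
    rw [e] at h4
    have h5 : F \ {f} ⊆ T := fun a ha => (hF ha.1).resolve_left ha.2
    have h6 : f ∈ G \ insert c (F \ {f}) := by
      refine ⟨f1, ?_⟩
      rintro (rfl | h9)
      · exact hSB _ f4 hcB
      · exact h9.2 rfl
    rcases h4.of_delete h6 with h9 | ⟨Y', h9, h10⟩
    · exact (hT2 _ h5 (hfin.subset sdiff_subset) h9).elim
    · exact hY _ h5 (hfin.subset sdiff_subset) Y' h9 h10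
  have hdis : ∀ y ∈ Y ∪ Conn T, y ∉ B := fun y hy => hy.elim (fun k => hw.dis k) (hSB y)
  have := hloose (Y ∪ Conn T) ⟨U, _,
    hw.ff.restrict (fun a ha h5 => ⟨ha, (hw.hYB ha).resolve_right (hdis _ h5)⟩)
      (fun a b hab _ _ => hw.ff.memr hab), fun a ha => (hw.sub ha).1,
      fun h5 => h5.elim hw.rY hrS, hdis, hw.tB, fun a ha => (hw.hYB ha).imp_left Or.inl, ?_⟩
  · exact (this ▸ (Or.inr ReflTransGen.refl : t c ∈ Y ∪ Conn T) : t c ∈ (∅ : Set V))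
  · intro a haG h5 h6 h7
    have haT : a ∉ T := fun h8 =>
      h6 (Or.inr (ReflTransGen.tail (hT1 a h8).2.2 ⟨a, h8, rfl, rfl⟩))
    refine hw.ent ⟨haG, ?_⟩ (h5.elim id (bad a haG haT h7)) (fun h8 => h6 (Or.inl h8)) h7
    rintro (rfl | h8)
    · exact hdis _ h5 hcB
    · exact haT h8.1

/-- A part of the web that is linked and leaves an unhindered rest. -/
def Part (t h : E → V) (r : V) (G : Set E) (B : Set V) (N : Set E) : Prop :=
  Lk t h r (G ∩ N) B (Del t h (G ∩ N) B) ∧ ¬ Hd t h r (G \ N) B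

theorem not_hd_of_loose (hloose : ∀ Y, WS t h r G B Y → Y = ∅) : ¬ Hd t h r G B := by
  rintro ⟨Y, U, M, h1, z, -, -, h3, -⟩
  rw [hloose Y ⟨U, M, h1⟩] at h3
  exact h3

theorem part_single (hr : r ∉ B) (hG : ¬ Hd t h r G B) (f : E) :
    ∃ N : Set E, N.Finite ∧ f ∈ N ∧ Part t h r G B N := by
  by_cases h0 : f ∉ Del t h G B ∧ ¬ Hd t h r (G \ {f}) B
  · exact ⟨{f}, finite_singleton f, rfl, lk_empty.mono Subset.rfl fun a ha =>
      h0.1 ((mem_singleton_iff.1 ha.1.2) ▸ ⟨ha.1.1, ha.2⟩), h0.2⟩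
  obtain ⟨Y, U, M, hw, hL, -, hloose⟩ := exists_max_ws t h r G B
  have hrY : r ∉ B ∪ Y := fun k => k.elim hr hw.rY
  by_cases hfU : f ∈ U
  · obtain ⟨C, c, z, hfC, hCU, hCfin, hcl, hcC, hcY, hc, -⟩ := hL.comp hfU
    have hcB : t c ∉ B ∪ Y := fun k => k.elim (hw.tB (hCU hcC)) hcY
    obtain ⟨P, N, h1, h2, h3, h4, h5, h6, h7⟩ := safe_path' hloose (hw.sub (hCU hcC))
      (hw.hYB (hCU hcC)).symm hcB
    have hPU : ∀ a ∈ P, a ∈ U → a ∈ C := fun a ha k => h6 a ha (hw.hYB k).symm ▸ hcC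
    have h8 := h1.compose (hL.sub hCU hcl).bf (disjoint_left.2 fun y hy k => hy.2 (Or.inr k))
      (fun a ha k => hc a ha (fun j => k.2 (Or.inr j)) ▸ h4) fun a ha k => h5 a ha (Or.inr k)
    have e : Out r (B ∪ Y) ∪ Y = Out r B := by
      ext y
      have := @hw.dis y
      have : y = r → y ∉ Y := fun k => k ▸ hw.rY
      simp only [mem_union, mem_ofPred_eq]
      tauto
    rw [e] at h8
    refine ⟨P ∪ C, h3.union hCfin, Or.inr hfC, ⟨_, _, h8, fun a ha =>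
      ⟨ha.elim (fun k => h2 k) fun k => hw.sub (hCU k), ha⟩, fun a ha => ha.elim
        (fun k j => h5 a k (Or.inl j)) fun k => hw.tB (hCU k), fun a ha => ha.1.2⟩,
      not_hd_transfer hG hw (fun a b hab => ?_) fun k => h7 (k.congr fun a ha => ?_)⟩
    · exact ⟨fun k => Or.inr ((hcl a b hab).1 (k.elim (fun j => hPU a j (hL.meml hab)) id)),
        fun k => Or.inr ((hcl a b hab).2 (k.elim (fun j => hPU b j (hL.memr hab)) id))⟩
    · exact ⟨fun k => ⟨k.1, fun j => k.2 (Or.inl j)⟩, fun k => ⟨k.1, fun j => j.elim k.2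
        fun i => k.2 (hc a i (fun l => ha (Or.inr l)) ▸ h4)⟩⟩
  by_cases hf : f ∈ Del t h G B
  · have hcB : t f ∉ B ∪ Y := fun k => k.elim hf.2.2 fun j =>
      hG ⟨Y, U, M, hw, f, hf.1, hf.2.1, j, hfU⟩
    obtain ⟨P, N, h1, h2, h3, h4, h5, h6, h7⟩ := safe_path' hloose hf.1 (Or.inl hf.2.1) hcB
    have hPU : ∀ a ∈ P, a ∉ U := fun a ha k => hfU (h6 a ha (hw.hYB k).symm ▸ k)
    refine ⟨P, h3, h4, ⟨P, _, h1.restrict (fun a ha k => ⟨ha, k.1, h5 a ha⟩)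
      fun a b hab _ _ => h1.memr hab, fun a ha => ⟨h2 ha, ha⟩, fun a ha k => h5 a ha (Or.inl k),
      fun a ha => ha.1.2⟩, not_hd_transfer hG hw (fun a b hab => ?_) h7⟩
    exact ⟨fun k => (hPU a k (hL.meml hab)).elim, fun k => (hPU b k (hL.memr hab)).elim⟩
  exfalso
  refine h0 ⟨hf, not_hd_transfer hG hw (fun a b hab => ?_) fun k => ?_⟩
  · exact ⟨fun k => (hfU ((mem_singleton_iff.1 k) ▸ hL.meml hab)).elim,
      fun k => (hfU ((mem_singleton_iff.1 k) ▸ hL.memr hab)).elim⟩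
  · by_cases hfG : f ∈ G
    · rcases k.of_delete hfG with j | ⟨Y', j, i⟩
      · exact not_hd_of_loose hloose j
      · rw [hloose Y' j] at i
        exact i
    · rw [sdiff_singleton_eq_self hfG] at k
      exact not_hd_of_loose hloose k

theorem Part.trans {N N' : Set E} (H : Part t h r G B N) (H' : Part t h r (G \ N) B N') :
    Part t h r G B (N ∪ N') := by
  obtain ⟨⟨U, M, h1, h2, h3, h4⟩, -⟩ := H
  obtain ⟨⟨U', M', k1, k2, k3, k4⟩, k5⟩ := H'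
  refine ⟨⟨_, _, h1.union k1 (disjoint_left.2 fun a ha k => (k2 k).1.2 (h2 ha).2),
    union_subset (fun a ha => ⟨(h2 ha).1, Or.inl (h2 ha).2⟩)
      fun a ha => ⟨(k2 ha).1.1, Or.inr (k2 ha).2⟩, fun a ha => ha.elim (h3 a) (k3 a),
    fun a ha => ?_⟩, by rwa [← Set.sdiff_sdiff]⟩
  by_cases k : a ∈ N
  · exact Or.inl (h4 ⟨⟨ha.1.1, k⟩, ha.2⟩)
  · exact Or.inr (k4 ⟨⟨⟨ha.1.1, k⟩, ha.1.2.resolve_left k⟩, ha.2⟩)

theorem part_finite (hr : r ∉ B) (hG : ¬ Hd t h r G B) {S : Set E} (hS : S.Finite) :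
    ∃ N : Set E, N.Finite ∧ S ⊆ N ∧ Part t h r G B N := by
  induction S, hS using Set.Finite.induction_on with
  | empty => exact ⟨∅, finite_empty, Subset.rfl, lk_empty.mono Subset.rfl fun a ha => ha.1.2,
      by simpa using hG⟩
  | @insert f S _ _ ih =>
    obtain ⟨N, h1, h2, h3⟩ := ih
    obtain ⟨N', h4, h5, h6⟩ := part_single hr h3.2 f
    exact ⟨N ∪ N', h1.union h4, insert_subset (Or.inr h5) (h2.trans subset_union_left),
      h3.trans h6⟩

end Pool.Agent.P.MP_133cc4_co
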