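import Pool.Agent.P.MP_133cc4_co.ASafe
import Pool.Agent.P.MP_133cc4_co.ARec

/-! Deleting a small closed set of edges keeps a web unhindered. -/

namespace Pool.Agent.P.MP_133cc4_co

open Set Function Relation Cardinal

universe u

variable {V : Type*} {E : Type u} {t h : E → V} {r : V} {G : Set E} {B : Set V}
  {θ : Cardinal.{u}}

theorem club_rel (hθ : θ.IsRegular) {ι : Type u} (hι : #ι < θ) {Y : ι → Set V} {U : ι → Set E}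
    {R : ι → E → E → Prop} (H : ∀ i, Mat t h (Y i) (U i) (R i)) :
    Club θ fun M => ∀ i a b, R i a b → (a ∈ M ↔ b ∈ M) := by
  have h1 : ∀ a, #(⋃ i, {b | R i a b} ∪ {b | R i b a} : Set E) < θ := fun a =>
    (card_iUnion_lt_iff_forall_of_isRegular hθ hι).2 fun i => mk_union_lt hθ.aleph0_le
      ((Set.Subsingleton.finite fun _ k1 _ k2 => (H i).fn k1 k2).lt_aleph0.trans_le hθ.aleph0_le)
      ((Set.Subsingleton.finite fun _ k1 _ k2 => (H i).inj k1 k2).lt_aleph0.trans_le hθ.aleph0_le)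
  exact (Club.diag hθ.aleph0_le fun a => club_sup (h1 a)).mono fun M hM i a b hab =>
    ⟨fun k => hM a k (mem_iUnion.2 ⟨i, Or.inl hab⟩), fun k => hM b k (mem_iUnion.2 ⟨i, Or.inr hab⟩)⟩

theorem Club.meet {S C : Set E → Prop} (H : Club θ C) (hS : ¬ Club θ fun M => ¬ S M) :
    ∃ M, S M ∧ C M := by
  by_contra hn
  exact hS (H.mono fun M k1 k2 => hn ⟨M, k2, k1⟩)

/-- Gluing a chain of waves with debts. -/
theorem layers {ι : Type*} [LinearOrder ι] {M U D : ι → Set E} {Y : ι → Set V}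
    {R : ι → E → E → Prop} (hM : ∀ ξ η, ξ < η → M ξ ⊆ M η)
    (hR : ∀ ξ η, ξ < η → ∀ a b, R ξ a b → (a ∈ M η ↔ b ∈ M η))
    (hw : ∀ η, Wave t h r (D η ∪ G \ M η) B (Y η) (U η) (R η))
    (hD : ∀ η, ∀ d ∈ D η, d ∈ G ∧ d ∈ M η ∧ h d ∈ Y η ∧ t d ∉ Y η ∧
      ∀ ξ < η, (d ∉ M ξ → h d ∉ Y ξ) ∧ d ∉ D ξ)
    (hpay : ∀ e ∈ G, h e ∈ ⋃ η, Y η → t e ∉ ⋃ η, Y η → t e ∉ B → (∀ η, e ∉ M η → h e ∉ Y η) →
      ∃ η, e ∈ D η) : WS t h r G B (⋃ η, Y η) := by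
  have hM' : ∀ ξ η, ξ ≤ η → M ξ ⊆ M η := fun ξ η k =>
    k.lt_or_eq.elim (hM ξ η) fun j => j ▸ Subset.rfl
  let lv : E → Set ι := fun e => {η | e ∉ M η}
  let G0 : Set ι → Set E := fun I => {e | e ∈ G ∧ lv e = I}
  let DI : Set ι → Set E := fun I => {d | ∃ η, I = Iic η ∧ d ∈ D η}
  have succ : ∀ η a b, R η a b → b ∉ M η := fun η a b hab =>
    (((hw η).sub ((hw η).ff.memr hab)).resolve_left
      fun k => (hD η b k).2.2.2.1 ((hw η).ff.toMat.int' hab)).2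
  have same : ∀ η a b, R η a b → a ∉ M η → lv b = lv a := fun η a b hab ha => by
    ext ξ
    rcases le_or_gt ξ η with k | k
    · exact ⟨fun _ j => ha (hM' _ _ k j), fun _ j => succ η a b hab (hM' _ _ k j)⟩
    · exact not_congr (hR η ξ k a b hab).symm
  have top : ∀ η a b, R η a b → a ∈ D η → lv b = Iic η := fun η a b hab ha => by
    ext ξ
    rcases le_or_gt ξ η with k | k
    · exact ⟨fun _ => k, fun _ j => succ η a b hab (hM' _ _ k j)⟩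
    · exact ⟨fun j => (j ((hR η ξ k a b hab).1 (hM _ _ k (hD η a ha).2.1))).elim,
        fun j => (k.not_ge j).elim⟩
  have part : ∀ η (C G' : Set E), (∀ a b, R η a b → a ∈ C → b ∈ C) → U η ∩ C ⊆ G' →
      (∀ a ∈ G', a ∈ C ∧ a ∈ D η ∪ G \ M η) → ∃ R', Wave t h r G' B (Y η) (U η ∩ C) R' :=
    fun η C G' k1 k2 k3 => ⟨_, (hw η).ff.restrict (fun a ha k => ⟨ha.1, k⟩)
      fun a b hab ha _ => ⟨(hw η).ff.memr hab, k1 a b hab ha.2⟩, k2, (hw η).rY, (hw η).dis,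
      fun a ha => (hw η).tB ha.1, fun a ha => (hw η).hYB ha.1,
      fun a ha j1 j2 j3 => ⟨(hw η).ent (k3 a ha).2 j1 j2 j3, (k3 a ha).1⟩⟩
  have lay : ∀ I : Set ι, ∃ U' R', Wave t h r (DI I ∪ G0 I) B (⋃ η : I, Y η) U' R' ∧
      ∀ a ∈ U', a ∈ DI I ∨ (lv a = I ∧ ∃ η ∈ I, a ∈ U η) := by
    intro I
    have k1 : ∀ η : I, ∃ R', Wave t h r (G0 I) B (Y η) (U η ∩ {a | lv a = I}) R' := fun η => by
      have k : ∀ a, lv a = I → a ∉ M η := fun a ha => show η.1 ∈ lv a from ha ▸ η.2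
      exact part η _ _ (fun a b hab ha => (same η a b hab (k a ha)).trans ha)
        (fun a ha => ⟨(((hw η).sub ha.1).resolve_left fun j => k a ha.2 (hD _ a j).2.1).1, ha.2⟩)
        fun a ha => ⟨ha.2, Or.inr ⟨ha.1, k a ha.2⟩⟩
    choose R1 k1 using k1
    obtain ⟨U1, R2, k2, k3⟩ := wave_union k1
    have k4 : ∀ a ∈ U1, lv a = I ∧ ∃ η ∈ I, a ∈ U η := fun a ha => by
      obtain ⟨η, k⟩ := mem_iUnion.1 (k3 ha)
      exact ⟨k.2, η, η.2, k.1⟩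
    by_cases hI : ∃ η, I = Iic η
    swap
    · exact ⟨U1, R2, k2.regraph (k2.sub.trans subset_union_right)
        fun a ha _ _ _ => ha.resolve_left fun ⟨η, k, _⟩ => hI ⟨η, k⟩, fun a ha => Or.inr (k4 a ha)⟩
    obtain ⟨η, rfl⟩ := hI
    have k5 : ∀ d ∈ DI (Iic η), d ∈ D η := fun d ⟨ζ, k, j⟩ => (Iic_injective k).symm ▸ j
    have k : ∀ a, lv a = Iic η → a ∉ M η := fun a ha => show η ∈ lv a from ha ▸ le_rfl
    obtain ⟨R3, k6⟩ := part η (D η ∪ {a | lv a = Iic η}) (DI (Iic η) ∪ G0 (Iic η))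
      (fun a b hab ha => Or.inr (ha.elim (top η a b hab) fun j => (same η a b hab (k a j)).trans j))
      (fun a ha => by
        by_cases j : a ∈ D η
        · exact Or.inl ⟨η, rfl, j⟩
        · exact Or.inr ⟨(((hw η).sub ha.1).resolve_left j).1, ha.2.resolve_left j⟩)
      fun a ha => ⟨ha.imp (k5 a) fun j => j.2, ha.imp (k5 a) fun j => ⟨j.1, k a j.2⟩⟩
    obtain ⟨U2, R4, k7, k8⟩ := k6.join k2 subset_union_right
      fun a ha j => (hD η a (k5 a (ha.resolve_right j))).2.2.1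
    rw [union_eq_self_of_subset_left (subset_iUnion (fun ζ : Iic η => Y ζ) ⟨η, le_rfl⟩)] at k7
    refine ⟨U2, R4, k7, fun a ha => (k8 a ha).elim (fun j => ?_) fun j => Or.inr (k4 a j.1)⟩
    exact j.2.imp (fun i => ⟨η, rfl, i⟩) fun i => ⟨i, η, le_rfl, j.1⟩
  choose U' R' hl hl' using lay
  have hdis : ∀ y ∈ ⋃ η, Y η, y ∉ B := fun y hy => by
    obtain ⟨η, k⟩ := mem_iUnion.1 hy
    exact (hw η).dis k
  have hsub : ∀ I : Set ι, (⋃ η : I, Y η) ⊆ ⋃ η, Y η := fun I =>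
    iUnion_subset fun η => subset_iUnion Y η
  have mix : ∀ I J a, a ∈ DI I → ¬ (lv a = J ∧ ∃ η ∈ J, a ∈ U η) := by
    rintro I J a ⟨ζ, -, k⟩ ⟨rfl, η, k1, k2⟩
    obtain ⟨-, j1, j2, -, j3⟩ := hD ζ a k
    exact (hw ζ).dis j2 (((hw η).hYB k2).resolve_left
      ((j3 η (not_le.1 fun i => k1 (hM' _ _ i j1))).1 k1))
  refine ⟨_, _, FF.iUnion (fun I => (hl I).ff.restrict (Y' := ⋃ η, Y η) (C := U' I)
    (fun a ha k => ⟨ha, ((hl I).hYB ha).resolve_right (hdis _ k)⟩)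
    fun a b hab _ _ => (hl I).ff.memr hab) ?_, iUnion_subset fun I a ha => ?_, fun k => ?_, hdis,
    fun a ha => ?_, fun a ha => ?_, fun e he k1 k2 k3 => ?_⟩
  · intro I J a k1 k2
    rcases hl' I a k1 with j1 | j1 <;> rcases hl' J a k2 with j2 | j2
    · obtain ⟨η, rfl, i1⟩ := j1
      obtain ⟨ζ, rfl, i2⟩ := j2
      rcases lt_trichotomy η ζ with i | rfl | i
      · exact (((hD ζ a i2).2.2.2.2 η i).2 i1).elim
      · rfl
      · exact (((hD η a i1).2.2.2.2 ζ i).2 i2).elim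
    · exact (mix I J a j1 j2).elim
    · exact (mix J I a j2 j1).elim
    · exact j1.1.symm.trans j2.1
  · exact ((hl I).sub ha).elim (fun ⟨η, _, k⟩ => (hD η a k).1) fun k => k.1
  · obtain ⟨η, j⟩ := mem_iUnion.1 k
    exact (hw η).rY j
  · obtain ⟨I, k⟩ := mem_iUnion.1 ha
    exact (hl I).tB k
  · obtain ⟨I, k⟩ := mem_iUnion.1 ha
    exact ((hl I).hYB k).imp_left fun j => hsub I j
  · by_cases hc : ∀ η, e ∉ M η → h e ∉ Y η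
    · obtain ⟨η, k⟩ := hpay e he k1 k2 k3 hc
      exact mem_iUnion.2 ⟨Iic η, (hl _).ent (Or.inl ⟨η, rfl, k⟩)
        (mem_iUnion.2 ⟨⟨η, le_rfl⟩, (hD η e k).2.2.1⟩) (fun j => k2 (hsub _ j)) k3⟩
    · push Not at hc
      obtain ⟨η, j1, j2⟩ := hc
      exact mem_iUnion.2 ⟨lv e, (hl _).ent (Or.inr ⟨he, rfl⟩)
        (mem_iUnion.2 ⟨⟨η, j1⟩, j2⟩) (fun j => k2 (hsub _ j)) k3⟩

theorem tail_loose (hθ : θ.IsRegular) (hloose : ∀ Y, WS t h r G B Y → Y = ∅) :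
    Club θ fun M => #M < θ → ¬ Hd t h r (G \ M) B := by
  by_contra hn
  have red : ∀ M : Set E, ∃ Y : Set V, Hd t h r (G \ M) B → Y.Nonempty ∧ WS t h r (G \ M) B Y ∧
      ∀ a, h a ∈ Y → t a ∉ B → WS t h r (insert a (G \ M)) B Y := fun M => by
    by_cases k : Hd t h r (G \ M) B
    · obtain ⟨Y, ⟨U, R, k1, z, -, -, k2, -⟩, k3⟩ := k.reduce
      exact ⟨Y, fun _ => ⟨⟨_, k2⟩, ⟨U, R, k1⟩, k3⟩⟩
    · exact ⟨∅, fun j => (k j).elim⟩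
  choose Yf hYf using red
  let S : Set E → Prop := fun M => #M < θ ∧ Hd t h r (G \ M) B
  let En : E → Set E → Prop := fun e M =>
    S M ∧ e ∈ G ∧ e ∈ M ∧ h e ∈ Yf M ∧ t e ∉ Yf M ∧ t e ∉ B
  let Pop : E → Prop := fun e => ¬ Club θ fun M => ¬ En e M
  have hS : ¬ Club θ fun M => ¬ S M := fun k => hn (k.mono fun M k1 k2 k3 => k1 ⟨k2, k3⟩)
  have star : Club θ fun M => ∀ e ∈ M, En e M → Pop e := Club.diag hθ.aleph0_le fun e => by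
    by_cases k : Pop e
    · exact (club_sup (X := ∅) (by simpa using hθ.pos)).mono fun _ _ _ => k
    · exact (not_not.1 k).mono fun M k1 k2 => (k1 k2).elim
  obtain ⟨ι, _, _, hι, hlt⟩ := exists_index θ
  have : Nonempty ι := mk_ne_zero_iff.1 (hι ▸ hθ.ne_zero)
  obtain ⟨φ, hφ⟩ := exists_book (hι ▸ hθ.aleph0_le) (hι ▸ hlt)
  obtain ⟨idx, hidx⟩ := exists_idx (E := E) (ι := ι)
  obtain ⟨f, hf⟩ := trec_inv (ι := ι) (S := Set E × Set E × Set E × Set V × (E → E → Prop))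
    (fun η g s => #s.1 < θ ∧ (∀ ξ, (g ξ).1 ⊆ s.1) ∧
      (∀ ξ a b, (g ξ).2.2.2.2 a b → (a ∈ s.1 ↔ b ∈ s.1)) ∧
      Wave t h r (s.2.2.1 ∪ G \ s.1) B s.2.2.2.1 s.2.1 s.2.2.2.2 ∧ s.2.2.2.1.Nonempty ∧
      (∀ e ∈ s.1, e ∈ G → h e ∈ s.2.2.2.1 → t e ∉ s.2.2.2.1 → t e ∉ B → Pop e) ∧
      (∀ d ∈ s.2.2.1, d ∈ G ∧ d ∈ s.1 ∧ h d ∈ s.2.2.2.1 ∧ t d ∉ s.2.2.2.1 ∧
        ∀ ξ, (d ∉ (g ξ).1 → h d ∉ (g ξ).2.2.2.1) ∧ d ∉ (g ξ).2.2.1) ∧
      ∀ ξ, ∀ e ∈ (g ξ).1, φ η = (ξ.1, idx (g ξ).1 e) → Pop e →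
        (∀ ζ, (e ∉ (g ζ).1 → h e ∉ (g ζ).2.2.2.1) ∧ e ∉ (g ζ).2.2.1) → e ∈ s.2.2.1) (by
      intro η f ih
      have hC := ((club_sup ((card_iUnion_lt_iff_forall_of_isRegular
        (t := fun ξ : Iio η => (f ξ).1) hθ (hlt η)).2 fun ξ => (ih ξ ξ.2).1)).and hθ.aleph0_le
        (club_rel hθ (hlt η) fun ξ : Iio η => (ih ξ ξ.2).2.2.2.1.ff.toMat)).and hθ.aleph0_le star
      by_cases hc : ∃ ξ : Iio η, ∃ e ∈ (f ξ).1, φ η = (ξ.1, idx (f ξ).1 e) ∧ Pop e ∧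
        ∀ ζ : Iio η, (e ∉ (f ζ).1 → h e ∉ (f ζ).2.2.2.1) ∧ e ∉ (f ζ).2.2.1
      · obtain ⟨ξ, e, k1, k2, k3, k4⟩ := hc
        obtain ⟨M, j1, ⟨j2, j3⟩, j4⟩ := hC.meet k3
        obtain ⟨i1, -, i2⟩ := hYf M j1.1.2
        obtain ⟨U, R, i3⟩ := i2 e j1.2.2.2.1 j1.2.2.2.2.2
        refine ⟨(M, U, {e}, Yf M, R), j1.1.1, fun ζ => (subset_iUnion _ ζ).trans j2, j3, i3, i1,
          fun a ha l1 l2 l3 l4 => j4 a ha ⟨j1.1, l1, ha, l2, l3, l4⟩, ?_, ?_⟩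
        · rintro d rfl
          exact ⟨j1.2.1, j1.2.2.1, j1.2.2.2.1, j1.2.2.2.2.1, k4⟩
        · intro ξ' e' l1 l2 _ _
          rw [k2, Prod.mk.injEq] at l2
          obtain rfl : ξ = ξ' := Subtype.ext l2.1
          exact (hidx _ (hι ▸ (ih ξ ξ.2).1.le) k1 l1 l2.2).symm
      · obtain ⟨M, j1, ⟨j2, j3⟩, j4⟩ := hC.meet hS
        obtain ⟨i1, ⟨U, R, i3⟩, -⟩ := hYf M j1.2
        exact ⟨(M, U, ∅, Yf M, R), j1.1, fun ζ => (subset_iUnion _ ζ).trans j2, j3,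
          by rwa [empty_union], i1, fun a ha l1 l2 l3 l4 => j4 a ha ⟨j1, l1, ha, l2, l3, l4⟩,
          fun _ k => k.elim, fun ξ e l1 l2 l3 l4 => hc ⟨ξ, e, l1, l2, l3, l4⟩⟩)
  have key := hloose _ (layers (M := fun η => (f η).1) (fun ξ η k => (hf η).2.1 ⟨ξ, k⟩)
    (fun ξ η k => (hf η).2.2.1 ⟨ξ, k⟩) (fun η => (hf η).2.2.2.1) (fun η d hd => by
      obtain ⟨k1, k2, k3, k4, k5⟩ := (hf η).2.2.2.2.2.2.1 d hd
      exact ⟨k1, k2, k3, k4, fun ξ k => k5 ⟨ξ, k⟩⟩) (by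
      intro e he k1 k2 k3 k4
      obtain ⟨η, j1⟩ := mem_iUnion.1 k1
      have j2 : e ∈ (f η).1 := by_contra fun k => k4 η k j1
      obtain ⟨ζ, j3, j4⟩ := hφ η (idx (f η).1 e)
      by_contra j5
      exact j5 ⟨ζ, (hf ζ).2.2.2.2.2.2.2 ⟨η, j3⟩ e j2 j4
        ((hf η).2.2.2.2.2.1 e j2 he j1 (fun k => k2 (mem_iUnion.2 ⟨η, k⟩)) k3)
        fun ξ => ⟨k4 ξ, fun k => j5 ⟨ξ, k⟩⟩⟩))
  obtain ⟨y, hy⟩ := (hf (Classical.arbitrary ι)).2.2.2.2.1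
  exact (eq_empty_iff_forall_notMem.1 key) y (mem_iUnion.2 ⟨_, hy⟩)

theorem tail_club (hθ : θ.IsRegular) (hG : ¬ Hd t h r G B) :
    Club θ fun M => #M < θ → ¬ Hd t h r (G \ M) B := by
  obtain ⟨Y, U, R, hw, -, -, hloose⟩ := exists_max_ws t h r G B
  exact ((tail_loose hθ hloose).and hθ.aleph0_le (club_rel (ι := PUnit) hθ
    (by simpa using one_lt_aleph0.trans_le hθ.aleph0_le) fun _ => hw.ff.toMat)).mono
    fun M k j => not_hd_transfer hG hw (k.2 PUnit.unit) (k.1 j)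

end Pool.Agent.P.MP_133cc4_co
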