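import Pool.Agent.P.MP_133cc4_co.Basic

/-! The augmenting path lemma. -/

namespace Pool.Agent.P.MP_133cc4_co

open Set Function Relation

variable {V E : Type*} {t h : E → V} {Y : Set V} {U : Set E} {M : E → E → Prop}

/-- A matching with one dangling edge `d`. -/
structure Pre (t h : E → V) (Y : Set V) (M : E → E → Prop) (U' : Set E) (M' : E → E → Prop)
    (d : E) : Prop where
  mat : Mat t h Y U' M'
  finM : {a | ∃ b, M' a b ∧ ¬ M a b}.Finite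
  dmem : d ∈ U'
  dfree : ∀ b, ¬ M' d b
  tot : ∀ ⦃a⦄, a ∈ U' → h a ∈ Y → a ≠ d → ∃ b, M' a b
  tot' : ∀ ⦃b⦄, b ∈ U' → t b ∈ Y → ∃ a, M' a b

variable {U' : Set E} {M' : E → E → Prop} {d : E}

theorem Pre.opSwap (H : Pre t h Y M U' M' d) {e : E} (he : e ∈ U') (hh : h e = h d)
    (hY : h d ∈ Y) : ∃ M'', Pre t h Y M U' M'' e := by
  by_cases hed : e = d
  · exact ⟨M', hed ▸ H⟩
  obtain ⟨f, hf⟩ := H.tot he (hh ▸ hY) hed
  refine ⟨fun a b => (M' a b ∧ a ≠ e) ∨ (a = d ∧ b = f), ⟨?_, ?_, ?_, ?_, ?_, ?_⟩, ?_, he, ?_, ?_, ?_⟩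
  · rintro a b (h1 | ⟨rfl, rfl⟩)
    · exact H.mat.meml h1.1
    · exact H.dmem
  · rintro a b (h1 | ⟨rfl, rfl⟩)
    · exact H.mat.memr h1.1
    · exact H.mat.memr hf
  · rintro a b (h1 | ⟨rfl, rfl⟩)
    · exact H.mat.adj h1.1
    · exact hh ▸ H.mat.adj hf
  · rintro a b (h1 | ⟨rfl, rfl⟩)
    · exact H.mat.int h1.1
    · exact hY
  · rintro a b c (h1 | ⟨rfl, rfl⟩) (h2 | ⟨h2, rfl⟩)
    · exact H.mat.fn h1.1 h2.1
    · exact (H.dfree b (h2 ▸ h1.1)).elim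
    · exact (H.dfree c h2.1).elim
    · rfl
  · rintro a b c (h1 | ⟨rfl, rfl⟩) (h2 | ⟨rfl, h2⟩)
    · exact H.mat.inj h1.1 h2.1
    · exact (h1.2 (H.mat.inj (h2 ▸ h1.1) hf)).elim
    · exact (h2.2 (H.mat.inj h2.1 hf)).elim
    · rfl
  · refine (H.finM.insert d).subset ?_
    rintro a ⟨b, h1 | ⟨rfl, rfl⟩, h2⟩
    · exact Or.inr ⟨b, h1.1, h2⟩
    · exact Or.inl rfl
  · rintro b (h1 | ⟨h1, _⟩)
    · exact h1.2 rfl
    · exact hed h1
  · intro a ha haY hae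
    by_cases had : a = d
    · exact ⟨f, Or.inr ⟨had, rfl⟩⟩
    · obtain ⟨b, hb⟩ := H.tot ha haY had
      exact ⟨b, Or.inl ⟨hb, hae⟩⟩
  · intro b hb hbY
    obtain ⟨a, ha⟩ := H.tot' hb hbY
    by_cases hae : a = e
    · exact ⟨d, Or.inr ⟨rfl, H.mat.fn (hae ▸ ha) hf⟩⟩
    · exact ⟨a, Or.inl ⟨ha, hae⟩⟩

theorem Pre.opFwd (H : Pre t h Y M U' M' d) {e : E} (he : e ∉ U') (hh : t e = h d)
    (hY : h d ∈ Y) : ∃ M'', Pre t h Y M (insert e U') M'' e := by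
  have hed : e ≠ d := fun h1 => he (h1 ▸ H.dmem)
  refine ⟨fun a b => M' a b ∨ (a = d ∧ b = e), ⟨?_, ?_, ?_, ?_, ?_, ?_⟩, ?_, Or.inl rfl, ?_, ?_, ?_⟩
  · rintro a b (h1 | ⟨rfl, rfl⟩)
    · exact Or.inr (H.mat.meml h1)
    · exact Or.inr H.dmem
  · rintro a b (h1 | ⟨rfl, rfl⟩)
    · exact Or.inr (H.mat.memr h1)
    · exact Or.inl rfl
  · rintro a b (h1 | ⟨rfl, rfl⟩)
    · exact H.mat.adj h1
    · exact hh.symm
  · rintro a b (h1 | ⟨rfl, rfl⟩)
    · exact H.mat.int h1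
    · exact hY
  · rintro a b c (h1 | ⟨rfl, rfl⟩) (h2 | ⟨h2, rfl⟩)
    · exact H.mat.fn h1 h2
    · exact (H.dfree b (h2 ▸ h1)).elim
    · exact (H.dfree c h2).elim
    · rfl
  · rintro a b c (h1 | ⟨rfl, rfl⟩) (h2 | ⟨rfl, h2⟩)
    · exact H.mat.inj h1 h2
    · exact (he (h2 ▸ H.mat.memr h1)).elim
    · exact (he (H.mat.memr h2)).elim
    · rfl
  · refine (H.finM.insert d).subset ?_
    rintro a ⟨b, h1 | ⟨rfl, rfl⟩, h2⟩
    · exact Or.inr ⟨b, h1, h2⟩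
    · exact Or.inl rfl
  · rintro b (h1 | ⟨h1, _⟩)
    · exact he (H.mat.meml h1)
    · exact hed h1
  · rintro a (rfl | ha) haY hae
    · exact (hae rfl).elim
    by_cases had : a = d
    · exact ⟨e, Or.inr ⟨had, rfl⟩⟩
    · obtain ⟨b, hb⟩ := H.tot ha haY had
      exact ⟨b, Or.inl hb⟩
  · rintro b (rfl | hb) hbY
    · exact ⟨d, Or.inr ⟨rfl, rfl⟩⟩
    · obtain ⟨a, ha⟩ := H.tot' hb hbY
      exact ⟨a, Or.inl ha⟩

theorem Pre.mat_rem (H : Pre t h Y M U' M' d) :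
    Mat t h Y (U' \ {d}) (fun a b => M' a b ∧ b ≠ d) :=
  H.mat.mono_rel (fun _ _ h1 => h1.1)
    (fun _ b h1 => ⟨H.mat.meml h1.1, fun h2 => H.dfree b ((mem_singleton_iff.1 h2) ▸ h1.1)⟩)
    (fun _ _ h1 => ⟨H.mat.memr h1.1, h1.2⟩) (fun _ _ h1 => H.mat.int h1.1)

theorem Pre.opRem (H : Pre t h Y M U' M' d) (hY : t d ∈ Y) :
    ∃ M'' d', Pre t h Y M (U' \ {d}) M'' d' ∧ h d' = t d := by
  obtain ⟨d', hd'⟩ := H.tot' H.dmem hY
  refine ⟨fun a b => M' a b ∧ b ≠ d, d', ⟨H.mat_rem, ?_, ⟨H.mat.meml hd', ?_⟩, ?_, ?_, ?_⟩,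
    H.mat.adj hd'⟩
  · refine H.finM.subset ?_
    rintro a ⟨b, h1, h2⟩
    exact ⟨b, h1.1, h2⟩
  · intro h1
    exact H.dfree d ((mem_singleton_iff.1 h1) ▸ hd')
  · rintro b ⟨h1, h2⟩
    exact h2 (H.mat.fn h1 hd')
  · intro a ha haY had
    obtain ⟨b, hb⟩ := H.tot ha.1 haY ha.2
    exact ⟨b, hb, fun h1 => had (H.mat.inj (h1 ▸ hb) hd')⟩
  · intro b hb hbY
    obtain ⟨a, ha⟩ := H.tot' hb.1 hbY
    exact ⟨a, ha, hb.2⟩

theorem Pre.finishA (H : Pre t h Y M U' M' d) (HL : Link t h Y U M) (hY : h d ∉ Y) :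
    ∃ U'' M'', Link t h Y U'' M'' ∧ U'' ⊆ U' ∧ (∀ a ∈ U', t a ∉ Y → a ∈ U'') ∧
      (∀ a ∈ U', h a ∉ Y → a ∈ U'') :=
  HL.finish H.mat (fun _ ha haY => H.tot ha haY fun h1 => hY (h1 ▸ haY)) H.tot' H.finM

theorem Pre.finishB (H : Pre t h Y M U' M' d) (HL : Link t h Y U M) (hY : t d ∉ Y) :
    ∃ U'' M'', Link t h Y U'' M'' ∧ U'' ⊆ U' \ {d} ∧ (∀ a ∈ U' \ {d}, t a ∉ Y → a ∈ U'') ∧
      (∀ a ∈ U' \ {d}, h a ∉ Y → a ∈ U'') := by
  refine HL.finish H.mat_rem ?_ ?_ ?_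
  · intro a ha haY
    obtain ⟨b, hb⟩ := H.tot ha.1 haY ha.2
    exact ⟨b, hb, fun h1 => hY (h1 ▸ H.mat.int' hb)⟩
  · intro b hb hbY
    obtain ⟨a, ha⟩ := H.tot' hb.1 hbY
    exact ⟨a, ha, hb.2⟩
  · refine H.finM.subset ?_
    rintro a ⟨b, h1, h2⟩
    exact ⟨b, h1.1, h2⟩

/-- Vertices reached by residual walks of bounded length. -/
def resid (t h : E → V) (G : Set E) (Y : Set V) (U : Set E) (c : E) : ℕ → Set V
  | 0 => ∅
  | n + 1 => {y | y = h c ∨ y ∈ resid t h G Y U c n ∨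
      (∃ a ∈ G, a ∉ U ∧ t a ∈ resid t h G Y U c n ∧ h a ∈ Y ∧ h a = y) ∨
      (∃ a ∈ U, h a ∈ resid t h G Y U c n ∧ t a ∈ Y ∧ t a = y)}

/-- The bookkeeping of a state. -/
structure Book (t h : E → V) (G : Set E) (Y : Set V) (U : Set E) (c : E) (R : Set V)
    (U' : Set E) : Prop where
  sub : U' ⊆ G
  fin : (U' \ U).Finite
  cmem : c ∈ U'
  new : ∀ a ∈ U', a ∉ U → a = c ∨ (t a ∈ R ∧ t a ∈ Y)
  newh : ∀ a ∈ U', a ∉ U → h a ∈ Y
  old : ∀ a ∈ U, a ∉ U' → h a ∈ R ∧ h a ∈ Y ∧ t a ∈ Y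

theorem resid_state (HL : Link t h Y U M) {G : Set E} (hG : U ⊆ G) {c : E} (hcG : c ∈ G)
    (hcU : c ∉ U) (hc : t c ∉ Y) (hc' : h c ∈ Y) (n : ℕ) :
    ∀ y ∈ resid t h G Y U c (n + 1), y ∈ Y ∧ ∃ U' M' d, Pre t h Y M U' M' d ∧ h d = y ∧
      Book t h G Y U c (resid t h G Y U c n) U' := by
  have init : ∀ R, ∃ U' M' d, Pre t h Y M U' M' d ∧ h d = h c ∧ Book t h G Y U c R U' := by
    intro R
    refine ⟨insert c U, M, c, ⟨HL.toMat.mono_rel (fun _ _ h1 => h1)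
      (fun _ _ h1 => Or.inr (HL.meml h1)) (fun _ _ h1 => Or.inr (HL.memr h1)) HL.int, ?_,
      Or.inl rfl, fun b hb => hcU (HL.meml hb), ?_, ?_⟩, rfl, ?_, ?_, Or.inl rfl, ?_, ?_, ?_⟩
    · simp
    · rintro a (rfl | ha) haY hac
      · exact (hac rfl).elim
      · exact HL.tot ha haY
    · rintro b (rfl | hb) hbY
      · exact (hc hbY).elim
      · exact HL.tot' hb hbY
    · exact insert_subset hcG hG
    · refine (finite_singleton c).subset ?_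
      rintro a ⟨rfl | ha, h2⟩
      · rfl
      · exact (h2 ha).elim
    · rintro a (rfl | ha) h2
      · exact Or.inl rfl
      · exact (h2 ha).elim
    · rintro a (rfl | ha) h2
      · exact hc'
      · exact (h2 ha).elim
    · intro a ha h2
      exact (h2 (Or.inr ha)).elim
  induction n with
  | zero =>
    rintro y (rfl | h1 | ⟨a, _, _, h1, _⟩ | ⟨a, _, h1, _⟩)
    · exact ⟨hc', init _⟩
    · exact h1.elim
    · exact h1.elim
    · exact h1.elim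
  | succ n ih =>
    have mono : resid t h G Y U c n ⊆ resid t h G Y U c (n + 1) := fun y hy => Or.inr (Or.inl hy)
    have up : ∀ y ∈ resid t h G Y U c (n + 1), y ∈ Y ∧ ∃ U' M' d, Pre t h Y M U' M' d ∧ h d = y ∧
        Book t h G Y U c (resid t h G Y U c (n + 1)) U' := by
      intro y hy
      obtain ⟨h0, U', M', d, h1, h2, h3⟩ := ih y hy
      exact ⟨h0, U', M', d, h1, h2, h3.sub, h3.fin, h3.cmem,
        fun a ha h4 => (h3.new a ha h4).imp_right fun h5 => ⟨mono h5.1, h5.2⟩, h3.newh,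
        fun a ha h4 => ⟨mono (h3.old a ha h4).1, (h3.old a ha h4).2⟩⟩
    rintro y (rfl | h1 | ⟨e, heG, heU, h1, hY, rfl⟩ | ⟨e, heU, h1, hY, rfl⟩)
    · exact ⟨hc', init _⟩
    · exact up y h1
    · by_cases h2 : t e ∈ resid t h G Y U c n
      · exact up _ (Or.inr (Or.inr (Or.inl ⟨e, heG, heU, h2, hY, rfl⟩)))
      obtain ⟨h0, U', M', d, h3, h4, h5⟩ := ih _ h1
      have heU' : e ∉ U' := by
        intro h6
        rcases h5.new e h6 heU with h7 | h7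
        · exact hc (h7 ▸ h0)
        · exact h2 h7.1
      obtain ⟨M'', h6⟩ := h3.opFwd heU' h4.symm (h4 ▸ h0)
      refine ⟨hY, insert e U', M'', e, h6, rfl, insert_subset heG h5.sub, ?_, Or.inr h5.cmem,
        ?_, ?_, ?_⟩
      · refine (h5.fin.insert e).subset ?_
        rintro a ⟨rfl | ha, h7⟩
        · exact Or.inl rfl
        · exact Or.inr ⟨ha, h7⟩
      · rintro a (rfl | ha) h7
        · exact Or.inr ⟨h1, h0⟩
        · exact (h5.new a ha h7).imp_right fun h8 => ⟨mono h8.1, h8.2⟩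
      · rintro a (rfl | ha) h7
        · exact hY
        · exact h5.newh a ha h7
      · intro a ha h7
        have := h5.old a ha fun h8 => h7 (Or.inr h8)
        exact ⟨mono this.1, this.2⟩
    · by_cases h2 : h e ∈ resid t h G Y U c n
      · exact up _ (Or.inr (Or.inr (Or.inr ⟨e, heU, h2, hY, rfl⟩)))
      obtain ⟨h0, U', M', d, h3, h4, h5⟩ := ih _ h1
      have heU' : e ∈ U' := by
        by_contra h6
        exact h2 (h5.old e heU h6).1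
      obtain ⟨M1, h6⟩ := h3.opSwap heU' h4.symm (h4 ▸ h0)
      obtain ⟨M'', d', h7, h8⟩ := h6.opRem hY
      refine ⟨hY, U' \ {e}, M'', d', h7, h8, fun a ha => h5.sub ha.1,
        h5.fin.subset fun a ha => ⟨ha.1.1, ha.2⟩, ⟨h5.cmem, fun h9 => hcU ?_⟩, ?_, ?_, ?_⟩
      · exact (mem_singleton_iff.1 h9) ▸ heU
      · intro a ha h9
        exact (h5.new a ha.1 h9).imp_right fun h8 => ⟨mono h8.1, h8.2⟩
      · intro a ha h9
        exact h5.newh a ha.1 h9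
      · intro a ha h9
        by_cases hae : a = e
        · subst hae
          exact ⟨h1, h0, hY⟩
        · have := h5.old a ha fun h10 => h9 ⟨h10, hae⟩
          exact ⟨mono this.1, this.2⟩

/-- The augmenting path lemma. -/
theorem Link.augment (HL : Link t h Y U M) {G : Set E} (hG : U ⊆ G) {c : E} (hcG : c ∈ G)
    (hcU : c ∉ U) (hc : t c ∉ Y) :
    (∃ U' M' e, Link t h Y U' M' ∧ U' ⊆ G ∧ (U' \ U).Finite ∧
      (∀ a, t a ∉ Y → (a ∈ U' ↔ a ∈ U ∨ a = c)) ∧ e ∉ U ∧ h e ∉ Y ∧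
      (∀ a, h a ∉ Y → (a ∈ U' ↔ a ∈ U ∨ a = e))) ∨
    (∃ W ⊆ Y, h c ∈ W ∧ (∀ a ∈ G, a ∉ U → t a ∈ W → h a ∈ W) ∧
      (∀ a ∈ U, h a ∈ W → t a ∈ Y → t a ∈ W) ∧
      ∀ w ∈ U, h w ∈ W → t w ∉ Y → ∃ U' M', Link t h Y U' M' ∧ U' ⊆ G ∧ (U' \ U).Finite ∧
        (∀ a, t a ∉ Y → (a ∈ U' ↔ (a ∈ U ∧ a ≠ w) ∨ a = c)) ∧
        (∀ a, h a ∉ Y → (a ∈ U' ↔ a ∈ U))) := by
  by_cases hc' : h c ∈ Y
  swap
  · left
    refine ⟨U ∪ {c}, _, c, HL.union (link_trivial ?_ ?_) ?_, union_subset hG (by simpa), ?_, ?_,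
      hcU, hc', ?_⟩
    · simpa
    · simpa
    · simpa
    · exact (finite_singleton c).subset fun a ha => ha.1.resolve_left ha.2
    · intro a _
      simp [or_comm]
    · intro a _
      simp [or_comm]
  let W : Set V := ⋃ n, resid t h G Y U c (n + 1)
  have hW : ∀ y ∈ W, y ∈ Y ∧ ∃ R U' M' d, Pre t h Y M U' M' d ∧ h d = y ∧
      Book t h G Y U c R U' := by
    intro y hy
    obtain ⟨n, hn⟩ := mem_iUnion.1 hy
    obtain ⟨h0, h1⟩ := resid_state HL hG hcG hcU hc hc' n y hn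
    exact ⟨h0, _, h1⟩
  by_cases hA : ∃ e ∈ G, e ∉ U ∧ t e ∈ W ∧ h e ∉ Y
  · left
    obtain ⟨e, heG, heU, heW, heY⟩ := hA
    obtain ⟨h0, R, U', M', d, h1, h2, h3⟩ := hW _ heW
    have heU' : e ∉ U' := fun h4 => heY (h3.newh e h4 heU)
    obtain ⟨M1, h4⟩ := h1.opFwd heU' h2.symm (h2 ▸ h0)
    obtain ⟨U'', M'', h5, h6, h7, h8⟩ := h4.finishA HL heY
    refine ⟨U'', M'', e, h5, h6.trans (insert_subset heG h3.sub), ?_, ?_, heU, heY, ?_⟩
    · refine (h3.fin.insert e).subset ?_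
      rintro a ⟨ha, h9⟩
      exact (h6 ha).imp_right fun h10 => ⟨h10, h9⟩
    · intro a haY
      constructor
      · intro ha
        by_cases haU : a ∈ U
        · exact Or.inl haU
        rcases h6 ha with rfl | h9
        · exact (haY h0).elim
        · exact Or.inr ((h3.new a h9 haU).resolve_right fun h10 => haY h10.2)
      · rintro (ha | rfl)
        · refine h7 a (Or.inr ?_) haY
          by_contra h9
          exact haY (h3.old a ha h9).2.2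
        · exact h7 a (Or.inr h3.cmem) haY
    · intro a haY
      constructor
      · intro ha
        by_cases haU : a ∈ U
        · exact Or.inl haU
        rcases h6 ha with rfl | h9
        · exact Or.inr rfl
        · exact (haY (h3.newh a h9 haU)).elim
      · rintro (ha | rfl)
        · refine h8 a (Or.inr ?_) haY
          by_contra h9
          exact haY (h3.old a ha h9).2.1
        · exact h8 a (Or.inl rfl) haY
  right
  refine ⟨W, fun y hy => (hW y hy).1, mem_iUnion.2 ⟨0, Or.inl rfl⟩, ?_, ?_, ?_⟩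
  · intro a haG haU haW
    have haY : h a ∈ Y := by
      by_contra h1
      exact hA ⟨a, haG, haU, haW, h1⟩
    obtain ⟨n, hn⟩ := mem_iUnion.1 haW
    exact mem_iUnion.2 ⟨n + 1, Or.inr (Or.inr (Or.inl ⟨a, haG, haU, hn, haY, rfl⟩))⟩
  · intro a haU haW haY
    obtain ⟨n, hn⟩ := mem_iUnion.1 haW
    exact mem_iUnion.2 ⟨n + 1, Or.inr (Or.inr (Or.inr ⟨a, haU, hn, haY, rfl⟩))⟩
  · intro w hwU hwW hwY
    obtain ⟨h0, R, U', M', d, h1, h2, h3⟩ := hW _ hwW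
    have hwU' : w ∈ U' := by
      by_contra h4
      exact hwY (h3.old w hwU h4).2.2
    obtain ⟨M1, h4⟩ := h1.opSwap hwU' h2.symm (h2 ▸ h0)
    obtain ⟨U'', M'', h5, h6, h7, h8⟩ := h4.finishB HL hwY
    refine ⟨U'', M'', h5, fun a ha => h3.sub (h6 ha).1,
      h3.fin.subset fun a ha => ⟨(h6 ha.1).1, ha.2⟩, ?_, ?_⟩
    · intro a haY
      constructor
      · intro ha
        by_cases haU : a ∈ U
        · exact Or.inl ⟨haU, (h6 ha).2⟩
        exact Or.inr ((h3.new a (h6 ha).1 haU).resolve_right fun h10 => haY h10.2)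
      · rintro (ha | rfl)
        · refine h7 a ⟨?_, ha.2⟩ haY
          by_contra h9
          exact haY (h3.old a ha.1 h9).2.2
        · exact h7 a ⟨h3.cmem, fun h9 => hcU ((mem_singleton_iff.1 h9) ▸ hwU)⟩ haY
    · intro a haY
      constructor
      · intro ha
        by_contra haU
        exact haY (h3.newh a (h6 ha).1 haU)
      · intro ha
        refine h8 a ⟨?_, fun h9 => haY ((mem_singleton_iff.1 h9) ▸ h0)⟩ haY
        by_contra h9
        exact haY (h3.old a ha h9).2.1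

end Pool.Agent.P.MP_133cc4_co
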