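import Pool.Agent.P.MP_133cc4_co.BLight

/-! Tools for the construction in layers. -/

namespace Pool.Agent.P.MP_133cc4_co

open Set Function Relation Cardinal

universe u

variable {V : Type*} {E : Type u} {t h : E → V} {r x : V} {G A Q J L T U : Set E} {Y I : Set V}
  {R M : E → E → Prop} {θ : Cardinal.{u}}

theorem Core.regraph {G' : Set E} (H : Core t h univ G x Y A R) (h1 : A ⊆ G')
    (h2 : ∀ a ∈ G', (h a ∈ Y ∨ h a = x) → t a ∉ Y → t a ≠ x → a ∈ G) : Core t h univ G' x Y A R :=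
  ⟨H.lk, h1, H.tx, H.hY, fun a ha k1 k2 k3 => H.ent (h2 a ha k1 k2 k3) k1 k2 k3, ls_univ _ _ _⟩

theorem Core.part (H : Core t h univ G x Y A R) {C : Set E} (hC : ∀ a b, R a b → (a ∈ C ↔ b ∈ C)) :
    ∃ R', Core t h univ (G ∩ C) x Y (A ∩ C) R' :=
  ⟨_, H.lk.sub inter_subset_left fun a b k => ⟨fun j => ⟨H.lk.memr k, (hC a b k).1 j.2⟩,
    fun j => ⟨H.lk.meml k, (hC a b k).2 j.2⟩⟩, fun _ ha => ⟨H.sub ha.1, ha.2⟩,
    fun _ ha => H.tx ha.1, fun _ ha => H.hY ha.1,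
    fun _ ha k1 k2 k3 => ⟨H.ent ha.1 k1 k2 k3, ha.2⟩, ls_univ _ _ _⟩

theorem Core.pym (H : Core t h univ G x Y A R) (hr : r ∉ Y) (hx : x ∉ Y) (hQ : Q ⊆ G)
    (HJ : LL t h univ Q Y {x} J) (hJ : ∀ a ∈ J, h a = x) :
    ∃ T R', Core t h univ G x Y T R' ∧ T ⊆ A ∪ Q ∧ J ⊆ T := by
  obtain ⟨T, R', k1, k2⟩ := ((H.wave hr hx).regraph (G' := A ∪ Q) subset_union_left
    fun a ha _ _ _ => union_subset H.sub hQ ha).core (ls_univ _ _ _)
    (HJ.mono subset_union_right Subset.rfl) hJ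
  exact ⟨T, R', k1.regraph (k1.sub.trans (union_subset H.sub hQ))
    fun a ha j1 j2 j3 => Or.inl (H.ent ha j1 j2 j3), k1.sub, k2⟩

theorem Wave.core' (H : Wave t h r G {x} Y U M) :
    ∃ A R, Core t h univ G x Y A R ∧ ∀ a ∈ A, a ∈ U ∨ h a = x := by
  obtain ⟨A, R, k1, -⟩ := (H.regraph (G' := U ∪ {a | a ∈ G ∧ h a = x}) subset_union_left
    fun a ha _ _ _ => ha.elim (fun k => H.sub k) fun k => k.1).core (ls_univ _ _ _) ll_empty
    fun _ k => k.elim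
  exact ⟨A, R, k1.regraph (k1.sub.trans (union_subset H.sub fun _ k => k.1))
    fun a ha j1 j2 j3 => j1.elim (fun j => Or.inl (H.ent ha j j2 j3)) fun j => Or.inr ⟨ha, j⟩,
    fun a ha => (k1.sub ha).imp_right fun k => k.2⟩

theorem core_iUnion {ι : Type*} {D T : ι → Set E} (H : ∀ i, ∃ R, Core t h univ (G ∩ D i) x Y (T i) R)
    (hd : ∀ i j a, a ∈ D i → a ∈ D j → i = j) (hc : ∀ a, ∃ i, a ∈ D i) :
    ∃ R, Core t h univ G x Y (⋃ i, T i) R := by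
  choose R H using H
  have hd' : ∀ i j a, a ∈ T i → a ∈ T j → i = j := fun i j a k1 k2 =>
    hd i j a ((H i).sub k1).2 ((H j).sub k2).2
  refine ⟨_, Link.of_ff (FF.iUnion (fun i => (H i).lk.toFF) hd')
    (FF.iUnion (fun i => (H i).lk.bf) hd'), iUnion_subset fun i a ha => ((H i).sub ha).1,
    fun a ha => ?_, fun a ha => ?_, fun a ha k1 k2 k3 => ?_, ls_univ _ _ _⟩
  · obtain ⟨i, k⟩ := mem_iUnion.1 ha
    exact (H i).tx k
  · obtain ⟨i, k⟩ := mem_iUnion.1 ha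
    exact (H i).hY k
  · obtain ⟨i, k⟩ := hc a
    exact mem_iUnion.2 ⟨i, (H i).ent ⟨ha, k⟩ k1 k2 k3⟩

theorem core_glue {ι : Type*} {D T : ι → Set E} (H0 : Core t h univ G x Y A R)
    (H : ∀ i, ∃ R, Core t h univ (G ∩ D i) x Y (T i) R)
    (hd : ∀ i j a, a ∈ D i → a ∈ D j → i = j)
    (hc : ∀ a b, R a b → (a ∈ ⋃ i, D i ↔ b ∈ ⋃ i, D i)) :
    ∃ R, Core t h univ G x Y ((⋃ i, T i) ∪ (A \ ⋃ i, D i)) R := by
  have := core_iUnion (t := t) (h := h) (G := G) (x := x) (Y := Y)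
    (D := fun o : Option ι => o.elim (⋃ i, D i)ᶜ D)
    (T := fun o : Option ι => o.elim (A ∩ (⋃ i, D i)ᶜ) T) (by
      rintro (_ | i)
      · exact H0.part fun a b k => not_congr (hc a b k)
      · exact H i) (by
      rintro (_ | i) (_ | j) a k1 k2
      · rfl
      · exact (k1 (mem_iUnion.2 ⟨j, k2⟩)).elim
      · exact (k2 (mem_iUnion.2 ⟨i, k1⟩)).elim
      · exact congrArg some (hd i j a k1 k2)) (fun a => by
      by_cases k : a ∈ ⋃ i, D i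
      · obtain ⟨i, j⟩ := mem_iUnion.1 k
        exact ⟨some i, j⟩
      · exact ⟨none, k⟩)
  rwa [iUnion_option, union_comm] at this

/-- Prolonging a system back to the root along given disjoint routes. -/
theorem lk_pre (hx : x ≠ r) (hxI : x ∉ I) (H : LL t h univ G I {x} T) (hT : ∀ a ∈ T, h a = x)
    (hG : G ⊆ L) {P : E → Set E}
    (hP : ∀ d ∈ G, t d ∉ I → t d ≠ x → P d ⊆ L \ G ∧ Rch t h {e | e ∈ P d ∧ h e ≠ x} r (t d))
    (hd : ∀ d ∈ G, ∀ d' ∈ G, ∀ a ∈ P d, a ∈ P d' → d = d') : Lk t h r L {x} T := by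
  obtain ⟨U, M, h1, h2⟩ := H
  choose z k1 k2 k3 using fun a : T => h1.ff.exists_end (h2 a.2)
  let C : T → Set E := fun a => {b | ReflTransGen M a b}
  have k4 := fun a => hP _ (h1.sub (k2 a)) (k3 a) (h1.tB (k2 a))
  have k5 : ∀ a : T, C a ⊆ G := fun a e j => h1.sub (h1.ff.toMat.rtg_mem j (h2 a.2))
  have k6 : ∀ (a b : T) e, e ∈ C a → e ∈ C b → a = b := fun a b e j1 j2 =>
    Subtype.ext (h1.ff.toMat.sep (hT a a.2 ▸ hxI) (hT b b.2 ▸ hxI) j1 j2)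
  have back : ∀ (a : T) b, ReflTransGen M a b →
      Rch t h {e | e ∈ P (z a) ∪ C a ∧ h e ≠ x} (t b) (t a) := by
    intro a b hab
    induction hab with
    | refl => exact ReflTransGen.refl
    | tail j1 j2 ih =>
      exact ReflTransGen.head ⟨_, ⟨Or.inr (j1.tail j2),
        fun k => hxI (k ▸ h1.ff.toMat.int' j2)⟩, rfl, (h1.ff.adj j2).symm⟩ ih
  refine (lk_iUnion (S := fun a => P (z a) ∪ C a) (T := fun a : T => {a.1})
    (fun a => lk_single hx (Or.inr ReflTransGen.refl) (hT a a.2) (ReflTransGen.trans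
      (Rch.mono (k4 a).2 fun e j => And.intro (Or.inl j.1) j.2) (back a _ (k1 a)))) ?_).mono
    (iUnion_subset fun a => union_subset (fun e j => ((k4 a).1 j).1) ((k5 a).trans hG))
    fun a ha => mem_iUnion.2 ⟨⟨a, ha⟩, rfl⟩
  rintro a b e (j1 | j1) (j2 | j2)
  · exact k6 a b _ (k1 a) (hd _ (h1.sub (k2 a)) _ (h1.sub (k2 b)) e j1 j2 ▸ k1 b)
  · exact (((k4 a).1 j1).2 (k5 b j2)).elim
  · exact (((k4 b).1 j2).2 (k5 a j1)).elim
  · exact k6 a b e j1 j2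

theorem Walk.start {u v : V} {p : List E} (H : Walk t h u p v) (hn : (u :: p.map h).Nodup) :
    ∀ a ∈ p, Rch t h {e | e ∈ p ∧ h e ≠ h a} u (t a) := by
  induction H with
  | nil => exact fun _ k => by simp at k
  | cons e p v _ ih =>
    intro a ha
    rcases List.mem_cons.1 ha with rfl | k
    · exact ReflTransGen.refl
    · have j := (List.nodup_cons.1 hn).2
      exact ReflTransGen.head ⟨e, ⟨List.mem_cons_self, fun i => (List.nodup_cons.1 j).1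
        (i ▸ List.mem_map_of_mem k)⟩, rfl, rfl⟩
        (Rch.mono (ih j a k) fun b i => ⟨List.mem_cons_of_mem _ i.1, i.2⟩)

theorem path_lk {v : V} {S : Set E} (H : Rch t h S r v) :
    ∃ P ⊆ S, Rch t h P r v ∧ ∀ y, y ≠ r → Lk t h r P {y} {a | a ∈ P ∧ h a = y} := by
  obtain ⟨p, k1, k2, k3⟩ := exists_path H
  refine ⟨{e | e ∈ p}, k3, k1.rch, fun y hy => ?_⟩
  by_cases k : ∃ a ∈ p, h a = y
  · obtain ⟨a, j1, rfl⟩ := k
    refine (lk_single (G := {e | e ∈ p}) (a := a) hy j1 rfl (k1.start k2 a j1)).mono Subset.rfl ?_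
    rintro b ⟨j2, j3⟩
    exact List.inj_on_of_nodup_map (List.nodup_cons.1 k2).2 j2 j1 j3
  · exact lk_empty.mono Subset.rfl fun a j => k ⟨a, j⟩

/-- No small set of edges together with `z` blocks the way from the root to `s`. -/
def Rich (t h : E → V) (r : V) (θ : Cardinal.{u}) (G : Set E) (z s : V) : Prop :=
  ∀ Z : Set E, #Z < θ → Rch t h {e | e ∈ G \ Z ∧ h e ≠ z} r s

theorem Rich.keep (h0 : ℵ₀ < θ) {ι : Type*} {z s : V} (H : Rich t h r θ G z s)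
    (hι : ∀ X : ι → Set E, (∀ j, #(X j) < θ) → #(⋃ j, X j) < θ) {y : ι → V} {W : ι → Set V}
    (hw : ∀ j, ∃ U R, Wave t h r G {y j} (W j) U R ∧ U ⊆ L ∧ #{a | a ∈ U ∧ h a = z} < θ)
    (hd : ∀ e ∈ G, e ∉ L → h e ≠ z → ∃ j, h e = y j ∧ t e ∈ W j) : Rich t h r θ L z s := by
  intro Z hZ
  have hw' : ∀ j, ∃ U R, Wave t h r G {y j} (W j) U R ∧ Link t h (W j) U R ∧ U ⊆ L ∧
      #{a | a ∈ U ∧ h a = z} < θ := fun j => by
    obtain ⟨U, R, k1, k2, k3⟩ := hw j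
    obtain ⟨U', R', k4, k5, k6⟩ := k1.link
    exact ⟨U', R', k4, k5, k6.trans k2,
      (mk_le_mk_of_subset fun a ha => And.intro (k6 ha.1) ha.2).trans_lt k3⟩
  choose U R k1 k2 k3 k4 using hw'
  let X : ι → Set E := fun j => {a | ∃ b ∈ Z ∪ {a | a ∈ U j ∧ h a = z}, ReflTransGen (R j) a b}
  have k5 : ∀ j, #(X j) < θ := fun j =>
    ((k2 j).card_le fun a ha => ha).trans_lt (max_lt h0 (mk_union_lt h0.le hZ (k4 j)))
  have key : ∀ v, Rch t h {e | e ∈ G \ (Z ∪ ⋃ j, X j) ∧ h e ≠ z} r v →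
      Rch t h {e | e ∈ L \ Z ∧ h e ≠ z} r v ∧
        ∀ j, v ∈ W j → Rch t h {e | e ∈ L \ Z ∧ h e ≠ z} r (y j) := by
    intro v hv
    induction hv with
    | refl => exact ⟨ReflTransGen.refl, fun j k => ((k1 j).rY k).elim⟩
    | tail _ j ih =>
      obtain ⟨e, he, rfl, rfl⟩ := j
      have j1 : Rch t h {e | e ∈ L \ Z ∧ h e ≠ z} r (h e) := by
        by_cases k : e ∈ L
        · exact ih.1.tail ⟨e, ⟨⟨k, fun i => he.1.2 (Or.inl i)⟩, he.2⟩, rfl, rfl⟩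
        · obtain ⟨j, i1, i2⟩ := hd e he.1.1 k he.2
          exact i1 ▸ ih.2 j i2
      refine ⟨j1, fun j k => ?_⟩
      by_cases i1 : t e ∈ W j
      · exact ih.2 j i1
      by_cases i2 : t e = y j
      · exact i2 ▸ ih.1
      have i3 := (k1 j).ent he.1.1 k i1 i2
      obtain ⟨c, l1, l2, l3⟩ := (k1 j).ff.exists_end i3
      have l4 : h c = y j := ((k1 j).hYB l2).resolve_left l3
      refine j1.trans (l4 ▸ (k1 j).ff.toMat.reach l1 fun b l => ?_)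
      have l5 := (k1 j).ff.toMat.rtg_mem l i3
      have l6 : b ∉ Z ∪ {a | a ∈ U j ∧ h a = z} := fun m =>
        he.1.2 (Or.inr (mem_iUnion.2 ⟨j, b, m, l⟩))
      exact ⟨⟨k3 j l5, fun m => l6 (Or.inl m)⟩, fun m => l6 (Or.inr ⟨l5, m⟩)⟩
  exact (key s (H _ (mk_union_lt h0.le hZ (hι X k5)))).1

theorem LL.few (h0 : ℵ₀ < θ) (H : LL t h univ G I {x} T) (hx : x ∉ I) (hT : ∀ a ∈ T, h a = x)
    (hc : #T < θ) : ∃ Q ⊆ G, #Q < θ ∧ LL t h univ Q I {x} T := by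
  obtain ⟨U, M, k1, k2, k3, k4⟩ := H.link (disjoint_singleton_right.2 hx) hT
  refine ⟨U, k1.sub, (k2.symm.card_le fun a ha => ?_).trans_lt (max_lt h0 hc),
    U, M, k1.mono Subset.rfl, k3⟩
  obtain ⟨z, j1, j2, j3⟩ := k2.symm.toFF.exists_end ha
  exact ⟨z, k4 z j2 j3, j1⟩

end Pool.Agent.P.MP_133cc4_co
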