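import Pool.Agent.P.MP_133cc4_co.CLayer

/-! Digraphs with connectivities at most `ℵ₁`. -/

namespace Pool.Agent.P.MP_133cc4_co

open Set Function Relation Cardinal

universe u

theorem wf_inv {ι S : Type*} {R : ι → ι → Prop} (wf : WellFounded R) [Nonempty S]
    (P : ∀ η : ι, ({ξ // R ξ η} → S) → S → Prop)
    (step : ∀ η (f : ι → S), (∀ ξ, R ξ η → P ξ (fun x => f x) (f ξ)) → ∃ s, P η (fun x => f x) s) :
    ∃ f : ι → S, ∀ η, P η (fun x => f x) (f η) := by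
  let G : ∀ η : ι, (∀ ξ, R ξ η → S) → S := fun η g => Classical.epsilon (P η fun x => g x x.2)
  let F : ι → S := wf.fix G
  have hF : ∀ η, F η = Classical.epsilon (P η fun x => F x) := fun η => WellFounded.fix_eq _ _ _
  refine ⟨F, fun η => ?_⟩
  induction η using wf.induction with
  | _ η ih =>
    rw [hF η]
    exact Classical.epsilon_spec (step η F ih)

variable {V : Type*} {E : Type u}

/-- The vertices behind `w`. -/
def Beh (t h : E → V) (r : V) (G : Set E) (w : V) : Set V := {s | s ≠ w ∧ ¬ Rich t h r ℵ₁ G w s}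

/-- The data for the vertex `w`: a solution `L` behind `w`, needed edges `J`, a system `K`. -/
structure Pw (t h : E → V) (r : V) (G F : Set E) (w : V) (L J K : Set E) : Prop where
  LG : L ⊆ G
  Lh : ∀ a ∈ L, h a ∈ Beh t h r G w
  FL : ∀ a ∈ F, h a ∈ Beh t h r G w → a ∈ L
  ll : ∀ x ∈ Beh t h r G w, LL t h Set.univ L (Beh t h r G w \ {x}) {x} {a | a ∈ L ∧ h a = x} ∧
    #{a | a ∈ L ∧ h a = x} < ℵ₁
  JK : J ⊆ K
  Jc : #J < ℵ₁
  FJ : ∀ a ∈ F, h a = w → a ∈ J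
  KG : K ⊆ G
  KL : ∀ a ∈ K, h a ≠ w → a ∈ L
  lk : LL t h Set.univ K (Beh t h r G w) {w} {a | a ∈ K ∧ h a = w}
  wv : ∃ Y U M, Wave t h r G {w} Y U M ∧ U ⊆ K ∧ ∀ e ∈ G, h e = w → e ∉ K → t e ∈ Y

variable {t h : E → V} {r w : V} {F F' G : Set E} {H : Set V}

theorem pw_step (hr : ∀ e, h e ≠ r) (hloop : ∀ e, t e ≠ h e) (hwr : w ≠ r)
    (hw : ∀ Z : Set E, #Z < ℵ₁ → Rch t h (G \ Z) r w) (hG : F' ⊆ G)
    (h1 : ∀ x ∈ insert w (Beh t h r G w),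
      LL t h Set.univ F' (Beh t h r G w \ {x}) {x} {a | a ∈ F' ∧ h a = x} ∧
        #{a | a ∈ F' ∧ h a = x} < ℵ₁)
    (h2 : ∀ a ∈ F, h a ∈ insert w (Beh t h r G w) → a ∈ F') :
    ∃ L J K, Pw t h r G F w L J K ∧ ∀ a ∈ F', (h a ∈ Beh t h r G w → a ∈ L) ∧ (h a = w → a ∈ J) := by
  have hinf : {a | h a = w}.Infinite := fun k => by
    rcases (hw _ ((ctbl_iff _).1 k.countable)).cases_tail with j | ⟨_, -, e, j1, -, j2⟩
    · exact hwr j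
    · exact j1.2 j2
  have hrΩ : r ∉ Beh t h r G w := fun k => k.2 fun _ _ => ReflTransGen.refl
  have hwΩ : w ∉ Beh t h r G w := fun k => k.1 rfl
  obtain ⟨L, k1, k2, k3, k4, k5⟩ := world hr hloop hrΩ hwΩ
    (Subtype.val_injective.comp hinf.natEmbedding.injective) (fun n => (hinf.natEmbedding _ n).2)
    (fun y hy => hy.2) (fun y j i => by_contra fun l => j ⟨i, l⟩) hG fun x hx => h1 x (Or.inr hx)
  have e : insert w (Beh t h r G w) \ {w} = Beh t h r G w := insert_sdiff_self_of_notMem hwΩ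
  have sub : {a | a ∈ L ∧ t a ≠ w} ∪ {a | a ∈ G ∧ h a = w} ⊆ {a | a ∈ G ∧ t a ≠ w} :=
    union_subset (fun a ha => ⟨k1 ha.1, ha.2⟩) fun a ha => ⟨ha.1, ha.2 ▸ hloop a⟩
  obtain ⟨K, j1, j2, -, j3, j4, -⟩ := proc (G := {a | a ∈ L ∧ t a ≠ w} ∪ {a | a ∈ G ∧ h a = w})
    (Ω := insert w (Beh t h r G w)) (J := {a | a ∈ F' ∧ h a = w}) (r := r) hloop
    (fun k => k.elim (fun j => hwr j.symm) hrΩ) (Or.inl rfl) (fun a ha => ha.2) (by
      obtain ⟨U, M, i1, i2⟩ := (h1 w (Or.inl rfl)).1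
      rw [e, ← sdiff_singleton_eq_self hwΩ]
      exact ⟨U, M, i1.mono fun a ha => (i1.hIB ha).imp
        (fun l => ⟨k3 a (i1.sub ha) l.1, i1.tB ha⟩) fun l => ⟨hG (i1.sub ha), l⟩, i2⟩)
    sub (fun a ha _ => sub ha) fun e i1 i2 i3 =>
      (k5 e i1.1 (i3.resolve_left fun l => i2 (Or.inr ⟨i1.1, l⟩)) i1.2
        fun l => i2 (Or.inl ⟨l, i1.2⟩)).mono subset_union_left (subset_insert _ _)
  obtain ⟨Y, U, M, i1, i2, i3⟩ := one_wave (j1.trans sub) j4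
  exact ⟨L, _, K, ⟨k1, k2, fun a l m => k3 a (h2 a l (Or.inr m)) m, k4, j2, (h1 w (Or.inl rfl)).2,
    fun a l m => ⟨h2 a l (Or.inl m), m⟩, fun a ha => (sub (j1 ha)).1,
    fun a ha l => ((j1 ha).resolve_right fun m => l m.2).1, e ▸ j3, Y, U, M,
    i1.regraph (fun a ha => (i1.sub ha).1) fun a ha _ _ l => ⟨ha, l⟩, i2,
    fun e l m => i3 e ⟨l, m ▸ hloop e⟩ m⟩, fun a ha => ⟨k3 a ha, fun l => ⟨ha, l⟩⟩⟩

theorem exists_pw (hr : ∀ e, h e ≠ r) (hloop : ∀ e, t e ≠ h e) (hH : r ∉ H)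
    (h1 : ∀ w ∈ H, ∀ Z : Set E, #Z < ℵ₁ → Rch t h (G \ Z) r w)
    (h2 : ∀ w ∈ H, ∀ u, w ∈ Beh t h r G u → u ∈ H) (hG : F ⊆ G)
    (hF : ∀ x, x ≠ r → Lk t h r F {x} {a | a ∈ F ∧ h a = x})
    (hc : ∀ x, #{a | a ∈ F ∧ h a = x} < ℵ₁) :
    ∃ L J K : V → Set E, ∀ w ∈ H, Pw t h r G F w (L w) (J w) (K w) ∧
      ∀ u, w ∈ Beh t h r G u → ∀ a ∈ L u, h a = w → a ∈ J w := by
  have h0 : ℵ₀ ≤ (ℵ₁ : Cardinal.{u}) := aleph0_lt_aleph_one.le
  have fin : ∀ w, {u | w ∈ H ∧ w ∈ Beh t h r G u}.Finite := fun w => by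
    by_cases k : w ∈ H
    · exact (dom_fin (h1 w k)).subset fun u hu => hu.2.2
    · exact finite_empty.subset fun u hu => k hu.1
  have tr : ∀ w u, w ∈ H → w ∈ Beh t h r G u → insert w (Beh t h r G w) ⊆ Beh t h r G u :=
    fun w u k1 k2 => insert_subset k2 fun s hs =>
      ⟨fun j => dom_asym h0 (h1 w k1) k2.1.symm k2.2 (j ▸ hs.2), dom_trans h0 k2.2 hs.2⟩
  have lt : ∀ u w, w ∈ H ∧ w ∈ Beh t h r G u →
      {v | u ∈ H ∧ u ∈ Beh t h r G v}.ncard < {v | w ∈ H ∧ w ∈ Beh t h r G v}.ncard :=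
    fun u w k => ncard_lt_ncard ⟨fun v hv => ⟨k.1, tr u v hv.1 hv.2 (Or.inr k.2)⟩,
      fun j => (j k).2.1 rfl⟩ (fin w)
  obtain ⟨f, hf⟩ := wf_inv (R := fun u w => w ∈ H ∧ w ∈ Beh t h r G u)
    (S := Set E × Set E × Set E) ((InvImage.wf _ wellFounded_lt).mono lt)
    (fun w c s => w ∈ H → Pw t h r G F w s.1 s.2.1 s.2.2 ∧
      ∀ u, ∀ a ∈ (c u).1, (h a ∈ Beh t h r G w → a ∈ s.1) ∧ (h a = w → a ∈ s.2.1)) (by
      intro w f ih
      by_cases hw : w ∈ H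
      swap
      · exact ⟨(∅, ∅, ∅), fun k => (hw k).elim⟩
      have hwr : w ≠ r := fun k => hH (k ▸ hw)
      rcases {u | w ∈ H ∧ w ∈ Beh t h r G u}.eq_empty_or_nonempty with k | k
      · obtain ⟨L, J, K, j1, -⟩ := pw_step (F := F) hr hloop hwr (h1 w hw) hG (fun x hx => by
          have hx' : ∀ y ∈ Beh t h r G w, y ≠ r := fun y i l =>
            i.2 (l ▸ fun _ _ => ReflTransGen.refl)
          exact ⟨((hF x (hx.elim (fun i => i ▸ hwr) (hx' x))).ll fun a ha => ha.2).shrink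
            (fun y hy => ⟨hx' y hy.1, hy.2⟩) Subset.rfl fun a ha => ⟨ha, ha.2⟩, hc x⟩)
          fun a ha _ => ha
        exact ⟨(L, J, K), fun _ => ⟨j1, fun u => ((eq_empty_iff_forall_notMem.1 k) u u.2).elim⟩⟩
      obtain ⟨p, hp, hmax⟩ := exists_max_image _
        (fun u => {v | u ∈ H ∧ u ∈ Beh t h r G v}.ncard) (fin w) k
      have pH := h2 w hw p hp.2
      obtain ⟨i1, i2⟩ := ih p hp pH
      have i3 := tr w p hw hp.2
      obtain ⟨L, J, K, j1, j2⟩ := pw_step (F := F) hr hloop hwr (h1 w hw) i1.LG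
        (fun x hx => ⟨(i1.ll x (i3 hx)).1.shrink (fun y hy => ⟨i3 (Or.inr hy.1), hy.2⟩) Subset.rfl
          fun a ha => ⟨ha, ha.2⟩, (i1.ll x (i3 hx)).2⟩) fun a ha l => i1.FL a ha (i3 l)
      refine ⟨(L, J, K), fun _ => ⟨j1, fun u a ha => ?_⟩⟩
      have key : h a ∈ insert w (Beh t h r G w) → a ∈ (f p).1 := fun l => by
        by_cases m : p = u.1
        · exact m ▸ ha
        refine (i2 ⟨u, pH, m, fun n => dom_lin h0 (h1 w hw) u.2.2.2 hp.2.2 n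
          (by_contra fun o => ?_)⟩ a ha).1 (i3 l)
        exact (hmax u u.2).not_gt (lt p u ⟨h2 w hw u u.2.2, Ne.symm m, o⟩)
      exact ⟨fun l => (j2 a (key (Or.inr l))).1 l, fun l => (j2 a (key (Or.inl l))).2 l⟩)
  exact ⟨fun w => (f w).1, fun w => (f w).2.1, fun w => (f w).2.2, fun w hw =>
    ⟨(hf w hw).1, fun u k a ha => ((hf w hw).2 ⟨u, hw, k⟩ a ha).2⟩⟩

theorem aleph_core (hr : ∀ e, h e ≠ r) (hloop : ∀ e, t e ≠ h e)
    (hE : ∀ x, x ≠ r → lam t h r x ≤ ℵ₁)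
    (hF : ∀ x, x ≠ r → Lk t h r F {x} {a | a ∈ F ∧ h a = x})
    (hc : ∀ x, #{a | a ∈ F ∧ h a = x} ≤ ℵ₀) :
    ∃ L, F ⊆ L ∧ (∀ x, x ≠ r → Lk t h r L {x} {a | a ∈ L ∧ h a = x}) ∧
      ∀ e, e ∉ L → Just t h r L e := by
  have h0 : ℵ₀ < (ℵ₁ : Cardinal.{u}) := aleph0_lt_aleph_one
  obtain ⟨Φ, p1, p2, p3, p4⟩ := light hr hloop hF
  let H : Set V := {s | s ≠ r ∧ ℵ₀ < lam t h r s}
  let G0 : Set E := {a | h a ∉ H → a ∈ Φ}
  have low : ∀ a, h a ∉ H → lam t h r (h a) ≤ ℵ₀ := fun a k => not_lt.1 fun j => k ⟨hr a, j⟩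
  have jus : ∀ L, Φ ⊆ L → ∀ e, e ∉ G0 → Just t h r L e := fun L k e j =>
    ((p4 e (low e fun i => j fun l => (l i).elim) fun i => j fun _ => i).mono k Subset.rfl).just
  have g0 : IsLarge t h r G0 := isLarge_of_just' (jus G0 fun a k _ => k)
  have h1 : ∀ w ∈ H, ∀ Z : Set E, #Z < ℵ₁ → Rch t h (G0 \ Z) r w := fun w k Z j =>
    g0.conn k.1 ((lt_aleph_one_iff.1 j).trans_lt k.2)
  have h2 : ∀ w ∈ H, ∀ u, w ∈ Beh t h r G0 u → u ∈ H := fun w k u j => by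
    by_contra hn
    refine j.2 fun Z hZ => ?_
    by_cases i : u = r
    · exact (h1 w k Z hZ).mono fun e he => ⟨he, i ▸ hr e⟩
    · exact g0.avoid' (κ := ℵ₀) ⟨i, max_le le_rfl (not_lt.1 fun l => hn ⟨i, l⟩)⟩
        (fun l => k.2.not_ge ((le_max_right _ _).trans l.2)) (lt_aleph_one_iff.1 hZ)
  obtain ⟨L, J, K, hp⟩ := exists_pw hr hloop (fun k => k.1 rfl) h1 h2
    (fun a ha k => p2 a ha (low a k)) hF fun x => lt_aleph_one_iff.2 (hc x)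
  let G : Set E := {a | a ∈ G0 ∧ (h a ∈ H → a ∈ K (h a))}
  let K0 : Set E := {a | a ∈ G0 ∧ (h a ∈ H → a ∈ J (h a))}
  have k1 : K0 ⊆ G := fun a ha => ⟨ha.1, fun k => (hp _ k).1.JK (ha.2 k)⟩
  have k2 : ∀ s ∈ H, ∀ a ∈ K s, h a ≠ s → a ∈ K0 ∧ h a ∈ Beh t h r G0 s := fun s k a ha j =>
    have i := (hp s k).1.KL a ha j
    ⟨⟨(hp s k).1.KG ha, fun l => (hp _ l).2 s ((hp s k).1.Lh a i) a i rfl⟩, (hp s k).1.Lh a i⟩
  have k3 : ∀ s ∈ H, K s ⊆ K0 ∪ {a | a ∈ G ∧ h a = s} := fun s k a ha =>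
    (Classical.em (h a = s)).elim (fun j => Or.inr ⟨⟨(hp s k).1.KG ha, fun _ => j ▸ ha⟩, j⟩)
      fun j => Or.inl (k2 s k a ha j).1
  have k4 : ∀ s ∈ H, K s ⊆ G := fun s k => (k3 s k).trans (union_subset k1 fun a ha => ha.1)
  have k5 : ∀ w ∈ H, #{a | a ∈ K0 ∧ h a = w} < ℵ₁ := fun w k =>
    lt_of_le_of_lt (mk_le_mk_of_subset fun a ha => ha.2 ▸ ha.1.2 (ha.2 ▸ k)) (hp w k).1.Jc
  have wv : ∀ s, ∃ Y U M, s ∈ H → Wave t h r G0 {s} Y U M ∧ U ⊆ K s ∧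
      ∀ e ∈ G0, h e = s → e ∉ K s → t e ∈ Y := fun s => by
    by_cases k : s ∈ H
    · obtain ⟨Y, U, M, j⟩ := (hp s k).1.wv
      exact ⟨Y, U, M, fun _ => j⟩
    · exact ⟨∅, ∅, fun _ _ => False, fun j => (k j).elim⟩
  choose Y U M wv using wv
  obtain ⟨L0, l1, l2, l3, l4⟩ := layered_all (H := H) (D := G0) isRegular_aleph_one h0 hr hloop hE
    (fun k => k.1 rfl) k1 (fun a ha => ha.1) k5 (fun x => by
      by_cases k : x ∈ H
      · exact (k5 x k).le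
      by_cases hx : x = r
      · exact (mk_le_mk_of_subset (t := ∅) fun a ha => hr a (ha.2.trans hx)).trans (by simp)
      have j : lam t h r x ≤ ℵ₀ := not_lt.1 fun j => k ⟨hx, j⟩
      exact le_trans (mk_le_mk_of_subset fun a ha => And.intro (ha.1.1 (ha.2 ▸ k)) ha.2)
        ((om_cnt (p3 x hx j) ⟨hx, le_rfl⟩ fun a ha => ha.2).trans (max_le h0.le (j.trans h0.le))))
    (fun a ha k => ⟨ha, fun j => (k j).elim⟩) (fun w hw => ⟨Beh t h r G0 w, fun k => k.1 rfl,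
      (hp w hw).1.lk.mono (k3 w hw) fun a ha => ⟨ha.2 ▸ ha.1.2 (ha.2 ▸ hw), ha.2⟩, by
      intro y j1 j2
      have fin : Finite {u // w ∈ Beh t h r G0 u} :=
        ((dom_fin (h1 w hw)).subset fun u (hu : w ∈ Beh t h r G0 u) => hu.2).to_subtype
      have r1 : Rich t h r ℵ₁ {a | a ∈ G0 ∧ (w ∈ Beh t h r G0 (h a) → a ∈ K (h a))} w y := by
        refine Rich.keep (G := G0) h0 (ι := {u // w ∈ Beh t h r G0 u}) (by_contra fun k => j1 ⟨j2, k⟩)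
          (fun X k => (ctbl_iff _).1 (countable_iUnion fun j => (ctbl_iff _).2 (k j)))
          (y := fun u => u) (W := fun u => Y u) (fun u => ?_) fun e i1 i2 _ => ?_
        · have i := h2 w hw u u.2
          refine ⟨U u, M u, (wv u i).1, fun a ha => ?_, lt_of_le_of_lt (mk_le_mk_of_subset
            fun a ha => And.intro (k2 u i a ((wv u i).2.1 ha.1) (ha.2 ▸ u.2.1)).1 ha.2) (k5 w hw)⟩
          have l := k4 u i ((wv u i).2.1 ha)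
          exact ⟨l.1, fun m => l.2 (h2 w hw _ m)⟩
        · have l : w ∈ Beh t h r G0 (h e) := by_contra fun l => i2 ⟨i1, fun m => (l m).elim⟩
          exact ⟨⟨_, l⟩, rfl, (wv _ (h2 w hw _ l)).2.2 e i1 rfl fun m => i2 ⟨i1, fun _ => m⟩⟩
      intro Z hZ
      refine (rich_of_just (L := {e | e ∈ G ∧ h e ≠ w}) (D := {e | e ∈ {a | a ∈ G0 ∧
        (w ∈ Beh t h r G0 (h a) → a ∈ K (h a))} ∧ h e ≠ w}) (fun e i1 i2 => ?_)
        (fun Z k => (r1 Z k).mono fun e i => ⟨⟨i.1.1, i.2⟩, i.1.2⟩) Z hZ).mono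
        fun e i => ⟨⟨i.1.1, i.2⟩, i.1.2⟩
      have m1 : h e ∈ H := by_contra fun l => i2 ⟨⟨i1.1.1, fun m => (l m).elim⟩, i1.2⟩
      have m2 : e ∉ K (h e) := fun l => i2 ⟨⟨i1.1.1, fun _ => l⟩, i1.2⟩
      obtain ⟨m3, m4, m5⟩ := wv _ m1
      refine ⟨_, _, _, m3.regraph (fun a ha => ⟨k4 _ m1 (m4 ha), fun l => ?_⟩)
        fun a ha _ _ _ => ha.1.1, m5 e i1.1.1 rfl m2⟩
      exact m2 (i1.1.2 (l ▸ (k2 _ m1 a (m4 ha) (l ▸ i1.2.symm)).2))⟩)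
    fun w hw => ⟨_, _, _, (wv w hw).1.regraph ((wv w hw).2.1.trans (k4 _ hw))
      fun a ha _ _ _ => ha.1, (wv w hw).2.1.trans (k3 _ hw),
      fun e i1 i2 i3 => (wv w hw).2.2 e i1 i2 fun l => i3 ⟨i1, fun _ => i2 ▸ l⟩⟩
  have l6 : Φ ⊆ L0 := fun a ha => l1 ⟨fun _ => ha, fun k => (k.2.not_ge (p1 a ha)).elim⟩
  have hJ : ∀ e, e ∉ L0 → Just t h r L0 e := fun e he =>
    (Classical.em (e ∈ G0)).elim (fun i => l4 e i he) (jus L0 l6 e)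
  have hL : IsLarge t h r L0 := isLarge_of_just' hJ
  refine ⟨L0, fun a ha => l1 ⟨fun k => p2 a ha (low a k), fun k => (hp _ k).1.FJ a ha rfl⟩,
    fun x hx => ?_, hJ⟩
  by_cases k : x ∈ H
  · exact l3 x k
  have hxΩ : x ∈ Om t h r (lev t h r x) := ⟨hx, le_rfl⟩
  have j : LL t h Set.univ L0 (Om t h r (lev t h r x) \ {x}) {x} {a | a ∈ L0 ∧ h a = x} :=
    (p3 x hx (not_lt.1 fun j => k ⟨hx, j⟩)).mono l6
      fun a ha => ⟨(l2 ha.1).1 (ha.2 ▸ k), ha.2⟩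
  exact lk_ext (θ := Order.succ (lev t h r x)) (Order.lt_succ_iff.2 (le_max_left _ _)) hx
    (fun k => k.2 rfl) j (fun a ha => ha.2) (Order.lt_succ_iff.2 (om_cnt j hxΩ fun a ha => ha.2))
    fun y k1 k2 Z k3 => hL.avoid' hxΩ (fun k => k1 ⟨k, k2⟩) (Order.lt_succ_iff.1 k3)

end Pool.Agent.P.MP_133cc4_co
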