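import Pool.Agent.P.MP_133cc4_co.LProc

/-! Light linkages in loose webs. -/

namespace Pool.Agent.P.MP_133cc4_co

open Set Function Relation Cardinal

universe u

variable {V : Type*} {E : Type u}

/-- The inner vertices met by `M`. -/
def Old (t h : E → V) (r : V) (B : Set V) (M : Set E) : Set V :=
  {v | v ≠ r ∧ v ∉ B ∧ ∃ a ∈ M, t a = v ∨ h a = v}

/-- The edges of `G` outside `M` that avoid the inner vertices met by `M`. -/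
def Frs (t h : E → V) (r : V) (G : Set E) (B : Set V) (M : Set E) : Set E :=
  {e | e ∈ G ∧ e ∉ M ∧ t e ∉ Old t h r B M ∧ h e ∉ Old t h r B M}

variable {t h : E → V} {r : V} {G : Set E} {B : Set V} {θ : Cardinal.{u}}

theorem vlayer {ι : Type*} [LinearOrder ι] {M U D : ι → Set E} {Y : ι → Set V}
    {R : ι → E → E → Prop} {Z : Set V} (hM : ∀ ξ η, ξ < η → M ξ ∪ D ξ ⊆ M η)
    (hR : ∀ ξ η, ξ < η → ∀ a b, R ξ a b → (a ∈ M η ↔ b ∈ M η))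
    (hw : ∀ η, Wave t h r (D η ∪ Frs t h r G B (M η)) B (Y η) (U η) (R η))
    (hY : ∀ η, ∀ y ∈ Y η, y ∉ Old t h r B (M η))
    (hD : ∀ η, ∀ d ∈ D η, d ∈ G ∧ d ∉ M η ∧ t d ∉ Y η ∧ t d ∈ Z ∧ d ∈ U η)
    (hZ : ∀ η, ∀ e ∈ G, h e ∈ Y η → t e ∈ Old t h r B (M η) → t e ∈ Z) (I : Set ι) :
    ∃ Yi Ui Ri, FF t h Yi Ui Ri ∧ Yi ⊆ ⋃ η, Y η ∧
      (∀ a ∈ Ui, a ∈ G ∧ {η | a ∉ M η} = I ∧ t a ∉ B ∧ (h a ∈ Yi ∨ h a ∈ B ∨ h a ∈ Z)) ∧
      (∀ e ∈ G, {η | e ∉ M η} = I → (∃ η ∈ I, h e ∈ Y η) → h e ∉ Z → t e ∉ ⋃ η, Y η → t e ∉ Z →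
        t e ∉ B → e ∈ Ui) ∧
      ∀ η, I = Iic η → ∀ d ∈ D η, d ∈ Ui ∧ t d ∉ Yi ∧
        ∀ c, ReflTransGen Ri d c → h c ∈ Yi ∨ h c ∈ B := by
  have hM' : ∀ ξ η, ξ ≤ η → M ξ ⊆ M η := fun ξ η k =>
    k.lt_or_eq.elim (fun j => subset_union_left.trans (hM ξ η j)) fun j => j ▸ Subset.rfl
  let lv : E → Set ι := fun e => {η | e ∉ M η}
  let G0 : Set E := {e | e ∈ G ∧ lv e = I}
  have mem : ∀ η, ∀ a ∈ U η, a ∈ G ∧ a ∉ M η := fun η a ha =>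
    ((hw η).sub ha).elim (fun k => ⟨(hD η a k).1, (hD η a k).2.1⟩) fun k => ⟨k.1, k.2.1⟩
  have same : ∀ η a b, R η a b → lv b = lv a := fun η a b hab => by
    ext ξ
    rcases le_or_gt ξ η with k | k
    · exact ⟨fun _ j => (mem η a ((hw η).ff.meml hab)).2 (hM' _ _ k j),
        fun _ j => (mem η b ((hw η).ff.memr hab)).2 (hM' _ _ k j)⟩
    · exact not_congr (hR η ξ k a b hab).symm
  have part : ∀ η, ∃ R', Wave t h r ((D η ∪ Frs t h r G B (M η)) ∩ G0) B (Y η) (U η ∩ G0) R' :=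
    fun η => ⟨_, (hw η).ff.restrict (fun a ha k => ⟨ha.1, k⟩)
      fun a b hab ha _ => ⟨(hw η).ff.memr hab, (mem η b ((hw η).ff.memr hab)).1,
        (same η a b hab).trans ha.2.2⟩, fun a ha => ⟨(hw η).sub ha.1, ha.2⟩, (hw η).rY, (hw η).dis,
      fun a ha => (hw η).tB ha.1, fun a ha => (hw η).hYB ha.1,
      fun a ha j1 j2 j3 => ⟨(hw η).ent ha.1 j1 j2 j3, ha.2⟩⟩
  have frs : ∀ η ∈ I, ∀ e ∈ G0, h e ∈ Y η → t e ∉ Z →
      e ∈ (D η ∪ Frs t h r G B (M η)) ∩ G0 := fun η k e he j1 j2 =>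
    ⟨Or.inr ⟨he.1, show η ∈ lv e from he.2 ▸ k, fun j => j2 (hZ η e he.1 j1 j), hY η _ j1⟩, he⟩
  obtain ⟨Y0, U0, R0, a1, a2, a3, a4, a5⟩ : ∃ Y0 U0 R0, FF t h Y0 U0 R0 ∧ Y0 ⊆ ⋃ η, Y η ∧
      (∀ a ∈ U0, a ∈ G0 ∧ t a ∉ B ∧ (h a ∈ Y0 ∨ h a ∈ B)) ∧
      (∀ e ∈ G0, h e ∈ Y0 → t e ∉ Y0 → t e ∉ Z → t e ∉ B → e ∈ U0) ∧
      ∀ η, I = Iic η → ∀ d ∈ D η, d ∈ U0 ∧ t d ∉ Y0 := by
    by_cases hI : ∃ η, I = Iic η
    · obtain ⟨η, hI⟩ := hI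
      obtain ⟨R', k⟩ := part η
      refine ⟨_, _, _, k.ff, subset_iUnion Y η, fun a ha => ⟨ha.2, k.tB ha, k.hYB ha⟩,
        fun e he j1 j2 j3 j4 => k.ent (frs η (hI ▸ le_rfl) e he j1 j3) j1 j2 j4, fun ζ j d hd => ?_⟩
      obtain rfl : η = ζ := Iic_injective (hI.symm.trans j)
      obtain ⟨j1, j2, j3, -, j4⟩ := hD η d hd
      refine ⟨⟨j4, j1, hI ▸ ?_⟩, j3⟩
      ext ξ
      exact ⟨fun i => not_lt.1 fun l => i (hM _ _ l (Or.inr hd)), fun i l => j2 (hM' _ _ i l)⟩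
    · exact ⟨∅, ∅, _, (link_empty t h ∅).toFF, empty_subset _, fun _ k => k.elim,
        fun _ _ k => k.elim, fun η k => (hI ⟨η, k⟩).elim⟩
  have k1 : ∀ η : I, ∃ U' R', Wave t h r G0 (B ∪ Z ∪ Y0) (Y η \ (B ∪ Z ∪ Y0)) U' R' ∧
      ∀ a ∈ U', t a ∉ B := fun η => by
    obtain ⟨R', k⟩ := part η
    obtain ⟨U', R'', j1, j2⟩ := k.enlarge (B' := B ∪ Z ∪ Y0)
      (subset_union_left.trans subset_union_left)
    exact ⟨U', R'', j1.regraph (fun a ha => (j2 ha).2) fun a ha i1 _ i3 =>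
      frs η η.2 a ha i1.1 fun l => i3 (Or.inl (Or.inr l)), fun a ha => k.tB (j2 ha)⟩
  choose U1 R1 k1 k2 using k1
  obtain ⟨U2, R2, k3, -⟩ := wave_union k1
  have dj : ∀ y ∈ ⋃ η : I, Y η \ (B ∪ Z ∪ Y0), y ∉ B ∪ Z ∪ Y0 := fun y hy => k3.dis hy
  have out : ∀ a ∈ U0, h a ∉ ⋃ η : I, Y η \ (B ∪ Z ∪ Y0) := fun a ha k =>
    dj _ k ((a3 a ha).2.2.elim Or.inr fun j => Or.inl (Or.inl j))
  refine ⟨_, _, _, a1.compose k3.ff (disjoint_left.2 fun y k j => dj y j (Or.inr k))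
    (fun a ha k => a4 a (k3.sub ha) k (fun j => k3.tB ha (Or.inr j))
      (fun j => k3.tB ha (Or.inl (Or.inr j))) fun j => k3.tB ha (Or.inl (Or.inl j))) out,
    union_subset a2 (iUnion_subset fun η => sdiff_subset.trans (subset_iUnion Y η)), ?_, ?_, ?_⟩
  · rintro a (ha | ha)
    · exact ⟨(a3 a ha).1.1, (a3 a ha).1.2, (a3 a ha).2.1,
        (a3 a ha).2.2.imp Or.inl Or.inl⟩
    · refine ⟨(k3.sub ha).1, (k3.sub ha).2, fun j => k3.tB ha (Or.inl (Or.inl j)), ?_⟩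
      rcases k3.hYB ha with j | (j | j) | j
      · exact Or.inl (Or.inr j)
      · exact Or.inr (Or.inl j)
      · exact Or.inr (Or.inr j)
      · exact Or.inl (Or.inl j)
  · rintro e j1 j2 ⟨η, j3, j4⟩ j5 j6 j7 j8
    by_cases k : h e ∈ Y0
    · exact Or.inl (a4 e ⟨j1, j2⟩ k (fun i => j6 (a2 i)) j7 j8)
    · refine Or.inr (k3.ent ⟨j1, j2⟩ (mem_iUnion.2 ⟨⟨η, j3⟩, j4, ?_⟩) (fun i => ?_) ?_)
      · rintro ((i | i) | i)
        · exact (hw η).dis j4 i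
        · exact j5 i
        · exact k i
      · obtain ⟨ζ, l⟩ := mem_iUnion.1 i
        exact j6 (mem_iUnion.2 ⟨ζ, l.1⟩)
      · rintro ((i | i) | i)
        · exact j8 i
        · exact j7 i
        · exact j6 (a2 i)
  · intro η k d hd
    refine ⟨Or.inl (a5 η k d hd).1, fun j => j.elim (a5 η k d hd).2
      fun i => dj _ i (Or.inl (Or.inr (hD η d hd).2.2.2.1)), fun c hc => ?_⟩
    have : c ∈ U0 := by
      induction hc with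
      | refl => exact (a5 η k d hd).1
      | tail _ j ih => exact j.elim (fun i => a1.memr i) fun i => (out _ ih (k3.ff.int i)).elim
    exact (a3 c this).2.2.imp_left Or.inl

theorem vlayers {ι : Type*} [LinearOrder ι] {M U D : ι → Set E} {Y : ι → Set V}
    {R : ι → E → E → Prop} {Z : Set V} (hM : ∀ ξ η, ξ < η → M ξ ∪ D ξ ⊆ M η)
    (hR : ∀ ξ η, ξ < η → ∀ a b, R ξ a b → (a ∈ M η ↔ b ∈ M η))
    (hw : ∀ η, Wave t h r (D η ∪ Frs t h r G B (M η)) B (Y η) (U η) (R η))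
    (hY : ∀ η, ∀ y ∈ Y η, y ∉ Old t h r B (M η))
    (hD : ∀ η, ∀ d ∈ D η, d ∈ G ∧ d ∉ M η ∧ t d ∉ Y η ∧ t d ∈ Z ∧ d ∈ U η)
    (hZ : ∀ η, ∀ e ∈ G, h e ∈ Y η → t e ∈ Old t h r B (M η) → t e ∈ Z)
    (hZ' : ∀ z ∈ Z, z ≠ r ∧ z ∉ B) {p : E → ι} {q : E → E}
    (hq : ∀ a ∈ G, h a ∈ Z → q a ∈ D (p a) ∧ t (q a) = h a)
    (hi : ∀ a ∈ G, ∀ b ∈ G, h a ∈ Z → q a = q b → h b ∈ Z → a = b) :
    WS t h r G B (Z ∪ ⋃ η, Y η) := by
  choose Yi Ui Ri k1 k2 k3 k4 k5 using vlayer hM hR hw hY hD hZ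
  let Arr : E → Prop := fun a => a ∈ G ∧ h a ∈ Z ∧ t a ∉ B ∧ ∀ I b, ¬ Ri I a b
  let RR : E → E → Prop := fun a b => (∃ I, Ri I a b) ∨ (Arr a ∧ b = q a)
  have one : ∀ I J a, a ∈ Ui I → a ∈ Ui J → I = J := fun I J a j1 j2 =>
    (k3 I a j1).2.1.symm.trans (k3 J a j2).2.1
  have hq' := fun a (j : Arr a) => k5 _ _ rfl _ (hq a j.1 j.2.1).1
  have hdis : ∀ y ∈ Z ∪ ⋃ η, Y η, y ∉ B := by
    rintro y (hy | hy)
    · exact (hZ' y hy).2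
    · obtain ⟨η, k⟩ := mem_iUnion.1 hy
      exact (hw η).dis k
  have acc1 : ∀ a, Arr a → Acc (swap RR) (q a) := by
    intro a j
    obtain ⟨j1, -, j3⟩ := hq' a j
    have : ∀ c, ReflTransGen (Ri (Iic (p a))) (q a) c → Acc (swap RR) c := by
      intro c
      induction c using (k1 (Iic (p a))).wf.induction with
      | _ c ih =>
        intro hc
        have hcU := (k1 _).toMat.rtg_mem hc j1
        refine ⟨_, fun b hb => ?_⟩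
        rcases hb with ⟨J, i⟩ | ⟨i, -⟩
        · obtain rfl := one _ _ c hcU ((k1 J).meml i)
          exact ih b i (hc.tail i)
        · rcases j3 c hc with l | l
          · obtain ⟨b, l⟩ := (k1 _).tot hcU l
            exact (i.2.2.2 _ b l).elim
          · exact ((hZ' _ i.2.1).2 l).elim
    exact this _ ReflTransGen.refl
  have acc2 : ∀ I a, a ∈ Ui I → Acc (swap RR) a := by
    intro I a
    induction a using (k1 I).wf.induction with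
    | _ a ih =>
      intro ha
      refine ⟨_, fun b hb => ?_⟩
      rcases hb with ⟨J, i⟩ | ⟨i, rfl⟩
      · obtain rfl := one _ _ a ha ((k1 J).meml i)
        exact ih b i ((k1 _).memr i)
      · exact acc1 a i
  refine ⟨(⋃ I, Ui I) ∪ {a | a ∈ G ∧ h a ∈ Z ∧ t a ∉ B}, RR,
    ⟨⟨?_, ?_, ?_, ?_, ?_, ?_⟩, ?_, ⟨fun a => ⟨_, fun b hb => ?_⟩⟩⟩, ?_, ?_, hdis, ?_, ?_, ?_⟩
  · rintro a b (⟨I, j⟩ | ⟨j, -⟩)
    · exact Or.inl (mem_iUnion.2 ⟨I, (k1 I).meml j⟩)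
    · exact Or.inr ⟨j.1, j.2.1, j.2.2.1⟩
  · rintro a b (⟨I, j⟩ | ⟨j, rfl⟩)
    · exact Or.inl (mem_iUnion.2 ⟨I, (k1 I).memr j⟩)
    · exact Or.inl (mem_iUnion.2 ⟨_, (hq' a j).1⟩)
  · rintro a b (⟨I, j⟩ | ⟨j, rfl⟩)
    · exact (k1 I).adj j
    · exact (hq a j.1 j.2.1).2.symm
  · rintro a b (⟨I, j⟩ | ⟨j, -⟩)
    · exact Or.inr (k2 I ((k1 I).int j))
    · exact Or.inl j.2.1
  · rintro a b c (⟨I, j⟩ | ⟨j, rfl⟩) (⟨J, i⟩ | ⟨i, rfl⟩)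
    · obtain rfl := one _ _ a ((k1 I).meml j) ((k1 J).meml i)
      exact (k1 I).fn j i
    · exact (i.2.2.2 _ _ j).elim
    · exact (j.2.2.2 _ _ i).elim
    · rfl
  · rintro a b c (⟨I, j⟩ | ⟨j, e1⟩) (⟨J, i⟩ | ⟨i, e2⟩)
    · obtain rfl := one _ _ c ((k1 I).memr j) ((k1 J).memr i)
      exact (k1 I).inj j i
    · subst e2
      obtain rfl := one _ _ _ ((k1 I).memr j) (hq' b i).1
      exact ((hq' b i).2.1 ((k1 _).toMat.int' j)).elim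
    · subst e1
      obtain rfl := one _ _ _ ((k1 J).memr i) (hq' a j).1
      exact ((hq' a j).2.1 ((k1 _).toMat.int' i)).elim
    · exact hi a j.1 b i.1 j.2.1 (e1.symm.trans e2) i.2.1
  · intro a ha hY
    by_cases k : ∃ I b, Ri I a b
    · obtain ⟨I, b, k⟩ := k
      exact ⟨b, Or.inl ⟨I, k⟩⟩
    have k' : ∀ I b, ¬ Ri I a b := fun I b j => k ⟨I, b, j⟩
    rcases ha with ha | ha
    · obtain ⟨I, j⟩ := mem_iUnion.1 ha
      obtain ⟨j1, -, j2, j3 | j3 | j3⟩ := k3 I a j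
      · obtain ⟨b, i⟩ := (k1 I).tot j j3
        exact (k' I b i).elim
      · exact (hdis _ hY j3).elim
      · exact ⟨_, Or.inr ⟨⟨j1, j3, j2, k'⟩, rfl⟩⟩
    · exact ⟨_, Or.inr ⟨⟨ha.1, ha.2.1, ha.2.2, k'⟩, rfl⟩⟩
  · rcases hb with ⟨I, j⟩ | ⟨j, rfl⟩
    · exact acc2 I b ((k1 I).memr j)
    · exact acc1 a j
  · exact union_subset (iUnion_subset fun I a ha => (k3 I a ha).1) fun a ha => ha.1
  · rintro (k | k)
    · exact (hZ' r k).1 rfl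
    · obtain ⟨η, j⟩ := mem_iUnion.1 k
      exact (hw η).rY j
  · rintro a (ha | ha)
    · obtain ⟨I, j⟩ := mem_iUnion.1 ha
      exact (k3 I a j).2.2.1
    · exact ha.2.2
  · rintro a (ha | ha)
    · obtain ⟨I, j⟩ := mem_iUnion.1 ha
      rcases (k3 I a j).2.2.2 with i | i | i
      · exact Or.inl (Or.inr (k2 I i))
      · exact Or.inr i
      · exact Or.inl (Or.inl i)
    · exact Or.inl (Or.inl ha.2.1)
  · intro e he j1 j2 j3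
    by_cases k : h e ∈ Z
    · exact Or.inr ⟨he, k, j3⟩
    obtain ⟨η, j⟩ := mem_iUnion.1 (j1.resolve_left k)
    exact Or.inl (mem_iUnion.2 ⟨_, k4 _ e he rfl ⟨η, fun i => hY η _ j
      ⟨fun l => (hw η).rY (l ▸ j), (hw η).dis j, e, i, Or.inr rfl⟩, j⟩ k
      (fun i => j2 (Or.inr i)) (fun i => j2 (Or.inl i)) j3⟩)

theorem Hd.fresh (hr : r ∉ B) {M : Set E} (H : Hd t h r (Frs t h r G B M) B) :
    ∃ Y : Set V, Y.Nonempty ∧ (∀ y ∈ Y, y ∉ Old t h r B M) ∧ WS t h r (Frs t h r G B M) B Y ∧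
      ∀ a, h a ∈ Y → t a ∈ Old t h r B M →
        ∃ U R, Wave t h r ({a} ∪ Frs t h r G B M) B Y U R ∧ a ∈ U := by
  let tt := bubT t r (Old t h r B M)ᶜ
  have e : ∀ a ∈ Frs t h r G B M, tt a = t a := fun a ha => bub_eq ha.2.2.1
  have conv : ∀ G' Y U R, Wave tt h r G' B Y U R → (∀ a ∈ G', h a ∉ Old t h r B M) →
      Wave t h r G' B (Y \ Old t h r B M) U R := fun G' Y U R k1 k2 =>
    ⟨k1.ff.pull (fun a ha => ⟨fun j => ⟨j, k2 a (k1.sub ha)⟩, fun j => j.1⟩) fun a b hab =>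
      (k1.ff.adj hab).trans (bub_eq (bub_mem k1.rY (k1.ff.toMat.int' hab)).1), k1.sub,
      fun j => k1.rY j.1, fun y j => k1.dis j.1,
      fun a ha j => k1.tB ha ((show tt a = t a from bub_eq fun i => i.2.1 j).symm ▸ j),
      fun a ha => (k1.hYB ha).imp_left fun j => ⟨j, k2 a (k1.sub ha)⟩,
      fun a ha j1 j2 j3 => k1.ent ha j1.1 (fun j => j2 (bub_mem k1.rY j).symm)
        fun j => j3 (bub_mem hr j).2⟩
  obtain ⟨Y, U, R, k1, z, k2, k3, k4, k5⟩ := H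
  obtain ⟨Y0, ⟨U0, R0, j1, z0, j2, -, j3, -⟩, j4⟩ := Hd.reduce (t := tt) ⟨Y, U, R,
    ⟨k1.ff.pull (fun _ _ => Iff.rfl) fun a b hab =>
      (k1.ff.adj hab).trans (e b (k1.sub (k1.ff.memr hab))).symm, k1.sub, k1.rY, k1.dis,
      fun a ha => e a (k1.sub ha) ▸ k1.tB ha, k1.hYB,
      fun a ha i1 i2 i3 => k1.ent ha i1 (e a ha ▸ i2) (e a ha ▸ i3)⟩, z, k2, k3,
    (e z k2).symm ▸ k4, k5⟩
  refine ⟨Y0 \ Old t h r B M, ⟨t z0, e z0 j2 ▸ j3, j2.2.2.1⟩, fun y hy => hy.2,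
    ⟨_, _, conv _ _ _ _ j1 fun a ha => ha.2.2.2⟩, fun a i1 i2 => ?_⟩
  have i3 : tt a = r := if_neg fun l => l i2
  obtain ⟨U1, R1, i4⟩ := j4 a i1.1 (i3 ▸ hr)
  exact ⟨U1, R1, conv _ _ _ _ i4 fun b hb => hb.elim (fun l => l ▸ i1.2) fun l => l.2.2.2,
    i4.ent (Or.inl rfl) i1.1 (i3 ▸ i4.rY) (i3 ▸ hr)⟩

theorem tail_vert (hθ : θ.IsRegular) (hG : #G ≤ θ) (hr : r ∉ B)
    (hloose : ∀ Y, WS t h r G B Y → Y = ∅) :
    Club θ fun M => #M < θ → ¬ Hd t h r (Frs t h r G B M) B := by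
  by_contra hn
  have red : ∀ M : Set E, ∃ Y : Set V, Hd t h r (Frs t h r G B M) B → Y.Nonempty ∧
      (∀ y ∈ Y, y ∉ Old t h r B M) ∧ WS t h r (Frs t h r G B M) B Y ∧
      ∀ a, h a ∈ Y → t a ∈ Old t h r B M →
        ∃ U R, Wave t h r ({a} ∪ Frs t h r G B M) B Y U R ∧ a ∈ U := fun M => by
    by_cases k : Hd t h r (Frs t h r G B M) B
    · exact (k.fresh hr).imp fun _ j _ => j
    · exact ⟨∅, fun j => (k j).elim⟩
  choose Yf hYf using red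
  let S : Set E → Prop := fun M => #M < θ ∧ Hd t h r (Frs t h r G B M) B
  let En : V → Set E → Prop := fun o M =>
    S M ∧ o ∈ Old t h r B M ∧ ∃ f ∈ G, t f = o ∧ h f ∈ Yf M
  let Z : Set V := {o | ¬ Club θ fun M => ¬ En o M}
  have hS : ¬ Club θ fun M => ¬ S M := fun k => hn (k.mono fun M k1 k2 k3 => k1 ⟨k2, k3⟩)
  have c0 : Club θ fun M : Set E => ∅ ⊆ M := club_sup (by simpa using hθ.pos)
  have st : ∀ o, Club θ fun M => En o M → o ∈ Z := fun o => by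
    by_cases k : o ∈ Z
    · exact c0.mono fun _ _ _ => k
    · exact (not_not.1 k).mono fun M k1 k2 => (k1 k2).elim
  have star : Club θ fun M => ∀ o, En o M → o ∈ Z :=
    (Club.diag hθ.aleph0_le fun e => (st (t e)).and hθ.aleph0_le (st (h e))).mono
      fun M k o j => by
        obtain ⟨-, -, a, i1, rfl | rfl⟩ := j.2.1
        · exact (k a i1).1 j
        · exact (k a i1).2 j
  obtain ⟨ι, _, _, hι, hlt⟩ := exists_index θ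
  have : Nonempty ι := mk_ne_zero_iff.1 (hι ▸ hθ.ne_zero)
  obtain ⟨idx, hidx⟩ := exists_idx (E := E) (ι := ι)
  obtain ⟨f, hf⟩ := trec_inv (ι := ι) (S := Set E × Set E × Set E × Set V × (E → E → Prop))
    (fun η g s => #(s.1 ∪ s.2.2.1 : Set E) < θ ∧ (∀ ξ, (g ξ).1 ∪ (g ξ).2.2.1 ⊆ s.1) ∧
      (∀ ξ a b, (g ξ).2.2.2.2 a b → (a ∈ s.1 ↔ b ∈ s.1)) ∧
      Wave t h r (s.2.2.1 ∪ Frs t h r G B s.1) B s.2.2.2.1 s.2.1 s.2.2.2.2 ∧ s.2.2.2.1.Nonempty ∧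
      (∀ y ∈ s.2.2.2.1, y ∉ Old t h r B s.1) ∧
      (∀ d ∈ s.2.2.1, d ∈ G ∧ d ∉ s.1 ∧ t d ∉ s.2.2.2.1 ∧ t d ∈ Z ∧ d ∈ s.2.1) ∧
      (∀ e ∈ G, h e ∈ s.2.2.2.1 → t e ∈ Old t h r B s.1 → t e ∈ Z) ∧
      ∀ a ∈ G, idx G a = η → h a ∈ Z → ∃ d ∈ s.2.2.1, t d = h a) (by
      intro η f ih
      have hC := ((club_sup ((card_iUnion_lt_iff_forall_of_isRegular
        (t := fun ξ : Iio η => (f ξ).1 ∪ (f ξ).2.2.1) hθ (hlt η)).2 fun ξ => (ih ξ ξ.2).1)).and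
        hθ.aleph0_le (club_rel hθ (hlt η) fun ξ : Iio η => (ih ξ ξ.2).2.2.2.1.ff.toMat)).and
        hθ.aleph0_le star
      by_cases hc : ∃ a ∈ G, idx G a = η ∧ h a ∈ Z
      · obtain ⟨a, k1, k2, k3⟩ := hc
        obtain ⟨M, ⟨j0, j1, d, l1, l2, l3⟩, ⟨j2, j3⟩, j4⟩ := hC.meet k3
        obtain ⟨i1, i2, ⟨_, _, i0⟩, i3⟩ := hYf M j0.2
        obtain ⟨U, R, i4, i5⟩ := i3 d l3 (l2 ▸ j1)
        refine ⟨(M, U, {d}, Yf M, R), mk_union_lt hθ.aleph0_le j0.1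
          ((finite_singleton d).lt_aleph0.trans_le hθ.aleph0_le),
          fun ζ => (subset_iUnion (fun ξ : Iio η => (f ξ).1 ∪ (f ξ).2.2.1) ζ).trans j2, j3, i4, i1,
          i2, ?_, fun e he m1 m2 => j4 _ ⟨j0, m2, e, he, rfl, m1⟩, fun b m1 m2 _ => ⟨d, rfl, ?_⟩⟩
        · rintro d rfl
          exact ⟨l1, fun m => i2 _ l3 ⟨fun n => i0.rY (n ▸ l3), i0.dis l3, d, m, Or.inr rfl⟩,
            fun m => i2 _ m (l2 ▸ j1), l2 ▸ k3, i5⟩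
        · rw [l2, hidx G (hι ▸ hG) k1 m1 (k2.trans m2.symm)]
      · obtain ⟨M, j0, ⟨j2, j3⟩, j4⟩ := hC.meet hS
        obtain ⟨i1, i2, ⟨U, R, i0⟩, -⟩ := hYf M j0.2
        exact ⟨(M, U, ∅, Yf M, R), by simpa using j0.1,
          fun ζ => (subset_iUnion (fun ξ : Iio η => (f ξ).1 ∪ (f ξ).2.2.1) ζ).trans j2, j3,
          by rwa [empty_union], i1, i2, fun _ k => k.elim,
          fun e he m1 m2 => j4 _ ⟨j0, m2, e, he, rfl, m1⟩,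
          fun a m1 m2 m3 => (hc ⟨a, m1, m2, m3⟩).elim⟩)
  have hq : ∀ a, ∃ d, a ∈ G → h a ∈ Z → d ∈ (f (idx G a)).2.2.1 ∧ t d = h a := fun a => by
    by_cases k : a ∈ G ∧ h a ∈ Z
    · exact ((hf _).2.2.2.2.2.2.2.2 a k.1 rfl k.2).imp fun _ j _ _ => j
    · exact ⟨a, fun j i => (k ⟨j, i⟩).elim⟩
  choose q hq using hq
  have key := hloose _ (vlayers (M := fun η => (f η).1) (Z := Z) (p := idx G) (q := q)
    (fun ξ η k => (hf η).2.1 ⟨ξ, k⟩) (fun ξ η k => (hf η).2.2.1 ⟨ξ, k⟩) (fun η => (hf η).2.2.2.1)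
    (fun η => (hf η).2.2.2.2.2.1) (fun η => (hf η).2.2.2.2.2.2.1)
    (fun η => (hf η).2.2.2.2.2.2.2.1) (fun z hz => by
      obtain ⟨M, k, -⟩ := c0.meet hz
      exact ⟨k.2.1.1, k.2.1.2.1⟩) hq (by
      intro a k1 b k2 k3 k4 k5
      have j1 := (hq a k1 k3).1
      have j2 := k4 ▸ (hq b k2 k5).1
      refine hidx G (hι ▸ hG) k1 k2 ?_
      rcases lt_trichotomy (idx G a) (idx G b) with k | k | k
      · exact (((hf _).2.2.2.2.2.2.1 _ j2).2.1 ((hf _).2.1 ⟨_, k⟩ (Or.inr j1))).elim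
      · exact k
      · exact (((hf _).2.2.2.2.2.2.1 _ j1).2.1 ((hf _).2.1 ⟨_, k⟩ (Or.inr j2))).elim))
  obtain ⟨y, hy⟩ := (hf (Classical.arbitrary ι)).2.2.2.2.1
  exact (eq_empty_iff_forall_notMem.1 key) y (Or.inr (mem_iUnion.2 ⟨_, hy⟩))

theorem Club.exists_lt (hθ : θ.IsRegular) (h0 : ℵ₀ < θ) {C : Set E → Prop} (H : Club θ C)
    {X : Set E} (hX : #X < θ) : ∃ M, X ⊆ M ∧ #M < θ ∧ C M := by
  obtain ⟨g, g1, g2⟩ := H
  let M : ℕ → Set E := fun n => (fun S => S ∪ Stp g S)^[n] X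
  have e : ∀ n, M (n + 1) = M n ∪ Stp g (M n) := fun n => Function.iterate_succ_apply' _ _ _
  have k1 : ∀ n, #(M n) < θ := fun n => by
    induction n with
    | zero => exact hX
    | succ n ih => exact e n ▸ mk_union_lt h0.le ih (stp_lt hθ h0 g1 ih)
  have k2 : Monotone M := monotone_nat_of_le_succ fun n => e n ▸ subset_union_left
  refine ⟨⋃ n ∈ (univ : Set ℕ), M n, subset_biUnion_of_mem (u := M) (mem_univ 0), ?_,
    g2 _ (clo_union univ_nonempty (fun n _ m k => k2 k.le)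
      fun n _ a ha => ⟨n + 1, trivial, e n ▸ Or.inr ha⟩)⟩
  refine (mk_le_mk_of_subset fun a ha => ?_).trans_lt ((card_iUnion_lt_iff_forall_of_isRegular
    (t := fun n : ULift.{u} ℕ => M n.down) hθ (by simpa using h0)).2 fun n => k1 _)
  obtain ⟨n, -, k⟩ := mem_iUnion₂.1 ha
  exact mem_iUnion.2 ⟨⟨n⟩, k⟩

theorem few_exits (hG : #G ≤ θ) (hloose : ∀ Y, WS t h r G B Y → Y = ∅) {v : V} (h1 : v ≠ r)
    (h2 : v ∉ B) : #{a | a ∈ G ∧ t a = v ∧ h a ∈ B} < θ := by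
  by_contra hn
  obtain ⟨f⟩ := (Cardinal.le_def _ _).1 (hG.trans (not_lt.1 hn))
  let M : E → E → Prop := fun a b => ∃ k : a ∈ G, h a = v ∧ t a ∉ B ∧ b = f ⟨a, k⟩
  have key : ∀ a b, M a b → b ∈ G ∧ t b = v ∧ h b ∈ B := by
    rintro a b ⟨k, -, -, rfl⟩
    exact (f ⟨a, k⟩).2
  refine (singleton_ne_empty v) (hloose {v} ⟨{a | a ∈ G ∧ t a ∉ B ∧ (h a = v ∨ h a ∈ B)}, M,
    ⟨⟨fun a b k => ⟨k.1, k.2.2.1, Or.inl k.2.1⟩, fun a b k => ⟨(key a b k).1, (key a b k).2.1 ▸ h2,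
      Or.inr (key a b k).2.2⟩, fun a b k => k.2.1.trans (key a b k).2.1.symm, fun a b k => k.2.1,
      ?_, ?_⟩, fun a ha k => ⟨_, ha.1, k, ha.2.1, rfl⟩, ⟨fun a => ⟨_, fun b k => ⟨_, fun c j =>
        (h2 (j.2.1 ▸ (key a b k).2.2)).elim⟩⟩⟩⟩, fun a ha => ha.1, fun k => h1 k.symm,
    fun y k => k ▸ h2, fun a ha => ha.2.1, fun a ha => ha.2.2,
    fun a ha k1 _ k2 => ⟨ha, k2, Or.inl k1⟩⟩)
  · rintro a b c ⟨_, -, -, rfl⟩ ⟨_, -, -, rfl⟩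
    rfl
  · rintro a b c ⟨k, -, -, rfl⟩ ⟨j, -, -, i⟩
    exact Subtype.mk.inj (f.injective (Subtype.ext i))

theorem light_link (hθ : θ.IsRegular) (h0 : ℵ₀ < θ) (hG : #G ≤ θ) (hr : r ∉ B)
    (hloose : ∀ Y, WS t h r G B Y → Y = ∅) :
    ∃ U M, FF h t (Out r B) U M ∧ U ⊆ G ∧ (∀ a ∈ U, t a ∉ B) ∧ Del t h G B ⊆ U ∧
      ∀ v, v ≠ r → v ∉ B → #{a | a ∈ U ∧ t a = v} < θ := by
  have ex : ∀ v, Club θ fun M => v ≠ r → v ∉ B → {a | a ∈ G ∧ t a = v ∧ h a ∈ B} ⊆ M := fun v => by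
    by_cases k : v ≠ r ∧ v ∉ B
    · exact (club_sup (few_exits hG hloose k.1 k.2)).mono fun _ j _ _ => j
    · exact (club_sup (X := ∅) (by simpa using hθ.pos)).mono fun _ _ j i => (k ⟨j, i⟩).elim
  obtain ⟨g, g1, g2⟩ := (tail_vert hθ hG hr hloose).and h0.le
    (Club.diag h0.le fun e => (ex (t e)).and h0.le (ex (h e)))
  obtain ⟨ι, _, _, hι, hlt⟩ := exists_index θ
  have : Nonempty ι := mk_ne_zero_iff.1 (hι ▸ hθ.ne_zero)
  obtain ⟨idx, hidx⟩ := exists_idx (E := E) (ι := ι)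
  obtain ⟨f, hf⟩ := trec_inv (ι := ι) (S := Set E × Set E × (E → E → Prop))
    (fun η c s => #s.1 < θ ∧ (∀ ξ, (c ξ).1 ⊆ s.1) ∧ Clo g s.1 ∧ (∀ a ∈ G, idx G a = η → a ∈ s.1) ∧
      FF h t (Out r B) s.2.1 s.2.2 ∧
      (∀ a ∈ s.2.1, a ∈ s.1 ∧ a ∈ Frs t h r G B (⋃ ξ, (c ξ).1) ∧ t a ∉ B) ∧
      ∀ a ∈ Del t h G B, a ∈ s.1 → a ∉ ⋃ ξ, (c ξ).1 → a ∈ s.2.1) (by
      intro η f ih
      have k1 : #(⋃ ξ : Iio η, (f ξ).1) < θ :=
        (card_iUnion_lt_iff_forall_of_isRegular hθ (hlt η)).2 fun ξ => (ih ξ ξ.2).1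
      have k2 : ¬ Hd t h r (Frs t h r G B (⋃ ξ : Iio η, (f ξ).1)) B ∧
          ∀ a ∈ Del t h G B, t a ∈ Old t h r B (⋃ ξ : Iio η, (f ξ).1) →
            a ∈ ⋃ ξ : Iio η, (f ξ).1 := by
        rcases (Iio η).eq_empty_or_nonempty with k | k
        · have : IsEmpty (Iio η) := k ▸ inferInstanceAs (IsEmpty (∅ : Set ι))
          simp only [iUnion_of_empty]
          exact ⟨fun j => not_hd_of_loose hloose (j.congr fun a _ => by simp [Frs, Old]),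
            fun a _ j => by simp [Old] at j⟩
        · have j := g2 _ (clo_union (M := fun ξ => (f ξ).1) k (fun ξ j ζ i => (ih ξ j).2.1 ⟨ζ, i⟩)
            fun ξ j a ha => by
              obtain ⟨l, i⟩ := mem_iUnion.1 ha
              exact ⟨ξ, j, (ih ξ j).2.2.1 l l.2 i⟩)
          rw [biUnion_eq_iUnion] at j
          refine ⟨j.1 k1, fun a ha ⟨i1, i2, b, i3, i4⟩ => ?_⟩
          exact i4.elim (fun l => (j.2 b i3).1 (l ▸ i1) (l ▸ i2) ⟨ha.1, l.symm, ha.2.1⟩)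
            fun l => (j.2 b i3).2 (l ▸ i1) (l ▸ i2) ⟨ha.1, l.symm, ha.2.1⟩
      obtain ⟨U, R, j1, j2, j3, j4⟩ := lk_of_not_hd hr k2.1
      obtain ⟨M, j5, j6, j7, j8⟩ := (Club.and (C := Clo g) h0.le ⟨g, g1, fun _ k => k⟩
        (club_rel (ι := PUnit) hθ (by simpa using one_lt_aleph0.trans h0)
          fun _ => j1.toMat)).exists_lt hθ h0 (mk_union_lt h0.le k1
            ((Set.Subsingleton.finite (s := {a | a ∈ G ∧ idx G a = η}) fun a i b l =>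
              hidx G (hι ▸ hG) i.1 l.1 (i.2.trans l.2.symm)).lt_aleph0.trans h0))
      exact ⟨(M, U ∩ M, _), j6, fun ξ => (subset_iUnion (fun ξ : Iio η => (f ξ).1) ξ).trans
        (subset_union_left.trans j5), j7, fun a i l => j5 (Or.inr ⟨i, l⟩),
        j1.restrict (C := U ∩ M) (fun a ha k => ⟨ha.1, k⟩)
          fun a b hab ha _ => ⟨j1.memr hab, (j8 PUnit.unit a b hab).1 ha.2⟩,
        fun a ha => ⟨ha.2, j2 ha.1, j3 a ha.1⟩, fun a ha i l =>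
          ⟨j4 ⟨⟨ha.1, l, fun m => l (k2.2 a ha m), fun m => m.2.1 ha.2.1⟩, ha.2⟩, i⟩⟩)
  have old : ∀ ξ η, ξ < η → (f ξ).1 ⊆ ⋃ ζ : Iio η, (f ζ).1 := fun ξ η k =>
    subset_iUnion (fun ζ : Iio η => (f ζ).1) ⟨ξ, k⟩
  refine ⟨_, _, FF.iUnion (fun η => (hf η).2.2.2.2.1) fun ξ η a j1 j2 => ?_,
    iUnion_subset fun η a ha => ((hf η).2.2.2.2.2.1 a ha).2.1.1, fun a ha => ?_, fun a ha => ?_,
    fun v k1 k2 => ?_⟩
  · rcases lt_trichotomy ξ η with k | k | k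
    · exact (((hf η).2.2.2.2.2.1 a j2).2.1.2.1 (old _ _ k ((hf ξ).2.2.2.2.2.1 a j1).1)).elim
    · exact k
    · exact (((hf ξ).2.2.2.2.2.1 a j1).2.1.2.1 (old _ _ k ((hf η).2.2.2.2.2.1 a j2).1)).elim
  · obtain ⟨η, k⟩ := mem_iUnion.1 ha
    exact ((hf η).2.2.2.2.2.1 a k).2.2
  · obtain ⟨η, j1, j2⟩ := WellFounded.has_min (wellFounded_lt (α := ι)) {η | a ∈ (f η).1}
      ⟨_, (hf _).2.2.2.1 a ha.1 rfl⟩
    refine mem_iUnion.2 ⟨η, (hf η).2.2.2.2.2.2 a ha j1 fun j => ?_⟩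
    obtain ⟨ξ, j3⟩ := mem_iUnion.1 j
    exact j2 ξ j3 ξ.2
  · rcases {a | a ∈ ⋃ η, (f η).2.1 ∧ t a = v}.eq_empty_or_nonempty with k | ⟨b, k, j⟩
    · rw [k]
      simpa using hθ.pos
    obtain ⟨ξ, i⟩ := mem_iUnion.1 k
    refine (mk_le_mk_of_subset fun a ha => ?_).trans_lt (hf ξ).1
    obtain ⟨η, l⟩ := mem_iUnion.1 ha.1
    obtain ⟨m1, m2, -⟩ := (hf η).2.2.2.2.2.1 a l
    rcases lt_trichotomy ξ η with n | rfl | n
    · exact (m2.2.2.1 ⟨ha.2 ▸ k1, ha.2 ▸ k2, b, old _ _ n ((hf ξ).2.2.2.2.2.1 b i).1,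
        Or.inl (j.trans ha.2.symm)⟩).elim
    · exact m1
    · exact (hf ξ).2.1 ⟨η, n⟩ m1

open Classical in
/-- If there is no light wave then the edges into the sinks are linked from the root. -/
theorem lk_of_no_light (hθ : θ.IsRegular) (h0 : ℵ₀ < θ) (hG : #G ≤ θ)
    (hno : ∀ Y U M, Wave t h r G B Y U M → LS (fun s => #s < θ) h Y U → Y = ∅) :
    Lk t h r G B (Del t h G B) := by
  let hd : E → Option V := fun e => if h e ∈ B then none else some (h e)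
  let tl : E → Option V := fun e => some (t e)
  have e1 : ∀ a, h a ∈ B → hd a = none := fun a k => if_pos k
  have e2 : ∀ a, h a ∉ B → hd a = some (h a) := fun a k => if_neg k
  have e3 : ∀ a v, hd a = some v → h a = v := fun a v k => by
    by_cases j : h a ∈ B
    · simp [e1 a j] at k
    · exact Option.some.inj ((e2 a j).symm.trans k)
  obtain ⟨Y, U0, M0, k1, -, -, k2⟩ := exists_max_ws hd tl none {e | e ∈ G ∧ t e ∉ B} {some r}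
  have k3 : none ∉ {some r} ∪ Y := fun j => j.elim (by simp) k1.rY
  obtain ⟨U, M, j1, j2, j3, j4, j5⟩ := light_link hθ h0
    ((mk_le_mk_of_subset fun a ha => ha.1).trans hG) k3 k2
  have hX := hno {v | v ∉ B ∧ some v ∉ {some r} ∪ Y} U M ⟨j1.pull (fun a _ => by
      by_cases j : h a ∈ B
      · simp [e1 a j, j]
      · simp [e2 a j, j]) fun a b hab => e3 a _ (j1.adj hab), fun a ha => (j2 ha).1,
    fun j => j.2 (Or.inl rfl), fun y j => j.1, fun a ha => (j2 ha).2, fun a ha =>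
      (Classical.em (h a ∈ B)).symm.imp_left fun j => ⟨j, e2 a j ▸ j3 a ha⟩,
    fun a ha i1 i2 i3 => j4 ⟨⟨ha, i3⟩, by_contra fun l => i2 ⟨i3, l⟩, e2 a i1.1 ▸ i1.2⟩⟩
    fun v hv => lt_of_le_of_lt (mk_le_mk_of_subset (s := {a | a ∈ U ∧ h a = v}) fun a ha =>
      And.intro ha.1 ((e2 a (ha.2 ▸ hv.1)).trans (congrArg some ha.2)))
      (j5 (some v) (by simp) hv.2)
  have all : ∀ v, v ∉ B → v ≠ r → some v ∈ Y := fun v i l => by_contra fun m =>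
    (eq_empty_iff_forall_notMem.1 hX) v ⟨i, fun n => n.elim (fun n => l (Option.some.inj n)) m⟩
  have sub : ∀ a ∈ U0 ∪ {a | (a ∈ G ∧ t a ∉ B) ∧ t a = r}, a ∈ G ∧ t a ∉ B := fun a ha =>
    ha.elim (fun j => k1.sub j) fun j => j.1
  refine ⟨_, _, (k1.ff.add_exits (S := {a | (a ∈ G ∧ t a ∉ B) ∧ t a = r})
    fun a ha j => k1.dis j (congrArg some ha.2)).pull (fun a ha =>
      ⟨fun j => ⟨fun i => k1.dis j (congrArg some i), (sub a ha).2⟩, fun j => all _ j.2 j.1⟩)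
    fun a b hab => (e3 b _ (k1.ff.adj hab).symm).symm, fun a ha => (sub a ha).1,
    fun a ha => (sub a ha).2, fun a ha => ?_⟩
  by_cases j : t a = r
  · exact Or.inr ⟨⟨ha.1, ha.2.2⟩, j⟩
  · exact Or.inl (k1.ent ⟨ha.1, ha.2.2⟩ (all _ ha.2.2 j) (e1 a ha.2.1 ▸ k1.rY)
      (by simp [e1 a ha.2.1]))

end Pool.Agent.P.MP_133cc4_co
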