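import Pool.Agent.P.MP_133cc4_co.BStep

/-! The construction in layers. -/

namespace Pool.Agent.P.MP_133cc4_co

open Set Function Relation Cardinal

universe u

theorem exists_task {ι X : Type u} [LinearOrder ι] [Nonempty X] (hκ : ℵ₀ ≤ #ι)
    (h : ∀ η : ι, #(Iio η) < #ι) {S : Set X} (hS : #S ≤ #ι) :
    ∃ φ : ι → ι × X, ∀ ξ, ∀ x ∈ S, ∃ η, ξ < η ∧ φ η = (ξ, x) := by
  obtain ⟨φ, hφ⟩ := exists_book hκ h
  have : Nonempty ι := mk_ne_zero_iff.1 (aleph0_pos.trans_le hκ).ne'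
  obtain ⟨idx, hi⟩ := exists_idx (E := X) (ι := ι)
  refine ⟨fun η => ((φ η).1, invFunOn (idx S) S (φ η).2), fun ξ x hx => ?_⟩
  obtain ⟨η, k1, k2⟩ := hφ ξ (idx S x)
  exact ⟨η, k1, by simp only [k2, (hi S hS).leftInvOn_invFunOn hx]⟩

variable {ι : Type u} {V : Type*} {E : Type u}

/-- The vertex `v` is passed many times by the outer system of the stage `s`. -/
def Stg.Hv (h : E → V) (r : V) (θ : Cardinal.{u}) (s : Stg ι V E) (v : V) : Prop :=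
  v ∈ Out r ({s.z} ∪ s.W) ∧ ¬ #{b | b ∈ s.O ∧ h b = v} < θ

/-- The path of the stage `s'` leads to `v` along the outer system of the stage `s`. -/
def Stg.Pay (t h : E → V) (r : V) (s s' : Stg ι V E) (v : V) : Prop :=
  Rch t h s'.Pa r v ∧ ∀ a ∈ s'.Pa, ∃ b, ReflTransGen s.RO b a ∧ h b = v

variable {t h : E → V} {r : V} {θ : Cardinal.{u}} {G K : Set E} {H : Set V} [LinearOrder ι]
  [WellFoundedLT ι] {f : ι → Stg ι V E}

theorem Run.wave (R : Run t h r θ G K H f Set.univ) {L : Set E}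
    (hL : ∀ a, a ∈ L ↔ a ∈ G ∧ ∀ ζ, a ∉ (f ζ).X) (η : ι) :
    ∃ U M, Wave t h r L {(f η).z} (f η).W U M := by
  obtain ⟨C, M, c1, c2, -⟩ := R.glue (ξ := η) trivial
  exact ⟨C, M, (c1.wave (R.ok η trivial).rW (R.ok η trivial).zW).regraph
    (fun a ha => (hL a).2 ⟨c1.sub ha, fun ζ => (c2 a ha).1 ζ trivial⟩) fun a ha _ _ _ => ((hL a).1 ha).1⟩

theorem Run.final (R : Run t h r θ G K H f Set.univ) (hr : ∀ e, h e ≠ r) {L : Set E}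
    (hL : ∀ a, a ∈ L ↔ a ∈ G ∧ ∀ ζ, a ∉ (f ζ).X) (hN : ∀ a ∈ G, ∃ ζ, a ∈ (f ζ).N) {η : ι}
    (hz : (f η).z ≠ r) {τ : E → ι} (hτ : InjOn τ G)
    (hp : ∀ d ∈ G, (f η).Hv h r θ (t d) → Stg.Pay t h r (f η) (f (τ d)) (t d)) :
    Lk t h r L {(f η).z} {a | a ∈ L ∧ h a = (f η).z} := by
  have ok := R.ok η trivial
  obtain ⟨C, M, c1, c2, c3⟩ := R.glue (ξ := η) trivial
  have c4 : C ⊆ L := fun a ha => (hL a).2 ⟨c1.sub ha, fun ζ => (c2 a ha).1 ζ trivial⟩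
  let U : Set E := {a | a ∈ (f η).O ∧ ∀ c, ReflTransGen (f η).RO c a → ¬ (f η).Hv h r θ (h c)}
  let I : Set V := {v | v ∈ Out r ({(f η).z} ∪ (f η).W) ∧ ¬ (f η).Hv h r θ v}
  have del : ∀ a ∈ Del t h G ({(f η).z} ∪ (f η).W), a ∈ C ∧ a ∈ U := fun a ha =>
    ⟨c1.ent ha.1 ha.2.1.symm (fun k => ha.2.2 (Or.inr k)) fun k => ha.2.2 (Or.inl k), ok.oD ha,
      fun c k j => j.1.2 (ok.ol.toMat.eq_of_source k (fun i => i.2 ha.2.1) ▸ ha.2.1)⟩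
  have u1 : U ⊆ L := fun a ha => by
    by_cases k : h a ∈ {(f η).z} ∪ (f η).W
    · exact c4 (del a ⟨ok.oG ha.1, k, ok.ot a ha.1⟩).1
    have k1 : h a ≠ (f η).z := fun j => k (Or.inl j)
    have k2 : a ∈ Dem h θ (f η).A (f η).O (h a) := ⟨rfl, Or.inr ⟨ha.1,
      by_contra fun j => ha.2 a ReflTransGen.refl ⟨⟨hr a, k⟩, j⟩⟩⟩
    refine (hL a).2 ⟨ok.oG ha.1, fun ζ j => ?_⟩
    have hH : ∀ ξ, h a = (f ξ).z → (f ξ).z ∈ H := fun ξ i =>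
      (R.ok ξ trivial).zH.resolve_right fun l => hr a (i.trans l)
    have k3 : ∀ ξ < η, h a = (f ξ).z → False := fun ξ i l =>
      R.kept (ξ := η) trivial ((R.rel η trivial).d2 ⟨ξ, i⟩ (hH ξ l) (l ▸ k2)) (ok.OX a ha.1 k1)
        (fun ζ m => (R.rel η trivial).SX ⟨ζ, m⟩ a (Or.inr ha.1)) ζ trivial j
    have k4 : ∀ ξ, h a = (f ξ).z → a ∈ (f ξ).S := fun ξ l => by
      rcases lt_trichotomy ξ η with i | rfl | i
      · exact (k3 ξ i l).elim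
      · exact (k1 l).elim
      · exact (R.rel ξ trivial).d1 ⟨η, i⟩ (hH ξ l) (l ▸ k2)
    obtain ⟨-, -, i1, i | ⟨ξ, i⟩⟩ := ((R.rel ζ trivial).X a).1 j
    · exact i.2 (k4 ζ i.1)
    · exact i1 (R.NB trivial ξ.2 (R.SN trivial (k4 ξ i.1)))
  have H1 : LL t h Set.univ (C ∪ U) (f η).W {(f η).z} {a | a ∈ L ∧ h a = (f η).z} :=
    ⟨C, _, c1.bs.mono subset_union_left, fun a ha => c3 a ((hL a).1 ha.1).1 ha.2
      (fun ζ _ => ((hL a).1 ha.1).2 ζ) ((hN a ((hL a).1 ha.1).1).imp fun _ k => ⟨trivial, k⟩)⟩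
  have H2 : LL t h Set.univ (C ∪ U) I ({(f η).z} ∪ (f η).W) (Del t h G ({(f η).z} ∪ (f η).W)) := by
    refine ⟨U, _, ⟨ok.ol.toFF.restrict (Y' := I) (fun a ha k => ⟨ha.1, k.1⟩) fun a b k ha j =>
      ⟨ok.ol.memr k, fun c i => ?_⟩, subset_union_right, fun a ha => ok.ot a ha.1, fun a ha =>
        (Classical.em _).symm.imp_left fun k => ⟨⟨hr a, k⟩, ha.2 a ReflTransGen.refl⟩,
      ls_univ _ _ _⟩, fun a ha => (del a ha).2⟩
    rcases i.cases_tail with rfl | ⟨a', i1, i2⟩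
    · exact ok.ol.adj k ▸ j.2
    · exact ha.2 c (ok.ol.inj k i2 ▸ i1)
  have H3 := H1.comp H2 (disjoint_left.2 fun y k j => k.1.2 (Or.inr j)) subset_union_right
    subset_union_left fun a ha k j =>
      ⟨ha.elim (fun i => c1.sub i) fun i => ok.oG i.1, k.symm, j.1.2⟩
  have cu : C ∪ U ⊆ G := fun a ha => ha.elim (fun i => c1.sub i) fun i => ok.oG i.1
  have out : ∀ d ∈ C ∪ U, (f η).Hv h r θ (t d) → ∀ a ∈ (f (τ d)).Pa,
      h a ∈ Out r ({(f η).z} ∪ (f η).W) ∧ a ∉ U := fun d hd k a ha => by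
    obtain ⟨b, j1, j2⟩ := (hp d (cu hd) k).2 a ha
    refine ⟨?_, fun i => i.2 b j1 (j2 ▸ k)⟩
    rcases j1.cases_tail with rfl | ⟨c, -, i⟩
    · exact j2 ▸ k.1
    · exact ok.ol.toMat.int' i
  refine lk_pre hz (fun k => k.elim (fun j => j.1.2 (Or.inl rfl)) ok.zW) H3 (fun a ha => ha.2)
    (union_subset c4 u1) (P := fun d => {a | (f η).Hv h r θ (t d) ∧ a ∈ (f (τ d)).Pa})
    (fun d hd k1 k2 => ⟨fun a ha => ?_, ?_⟩) fun d hd d' hd' a k1 k2 => hτ (cu hd) (cu hd') ?_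
  · obtain ⟨j1, j2, j3, j4⟩ := (R.ok _ trivial).Pa a ha.2
    refine ⟨(hL a).2 ⟨j1, fun ζ => R.kept' trivial j2 j4 j3 ζ trivial⟩, fun j => j.elim
      (fun i => (out d hd ha.1 a ha.2).1.2 (c1.hY i).symm) (out d hd ha.1 a ha.2).2⟩
  · by_cases k : (f η).Hv h r θ (t d)
    · exact (hp d (cu hd) k).1.mono fun a ha =>
        ⟨⟨k, ha⟩, fun j => (out d hd k a ha).1.2 (Or.inl j)⟩
    · have j : t d = r := by_contra fun j =>
        k1 (Or.inl ⟨⟨j, fun i => i.elim k2 fun l => k1 (Or.inr l)⟩, k⟩)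
      exact j ▸ ReflTransGen.refl
  · obtain ⟨-, j1, j2, -⟩ := (R.ok _ trivial).Pa a k1.2
    obtain ⟨-, j3, j4, -⟩ := (R.ok _ trivial).Pa a k2.2
    rcases lt_trichotomy (τ d) (τ d') with k | k | k
    · exact (j4 (R.NB trivial k j1)).elim
    · exact k
    · exact (j2 (R.NB trivial k j3)).elim

omit [LinearOrder ι] [WellFoundedLT ι] in
theorem Stg.Ok.fresh {s : Stg ι V E} (ok : s.Ok t h r θ G K H) (h0 : ℵ₀ < θ) {v : V}
    (hv : s.Hv h r θ v) {B : Set E} (hB : #B < θ) :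
    ∃ P : Set E, P.Finite ∧ (∀ a ∈ P, a ∈ G ∧ a ∉ B) ∧
      (∀ y, y ≠ r → Lk t h r P {y} {a | a ∈ P ∧ h a = y}) ∧ Rch t h P r v ∧
      ∀ a ∈ P, ∃ b, ReflTransGen s.RO b a ∧ h b = v := by
  have : ∃ b, (b ∈ s.O ∧ h b = v) ∧ ¬ ∃ c ∈ B, ReflTransGen s.RO b c := by
    by_contra hn
    exact hv.2 ((ok.ol.card_le fun b hb => by_contra fun k => hn ⟨b, hb, k⟩).trans_lt
      (max_lt h0 hB))
  obtain ⟨b, ⟨k1, rfl⟩, k2⟩ := this
  obtain ⟨c, j1, j2, j3⟩ := ok.ol.toFF.exists_end k1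
  have j4 : t c = r := by_contra fun k => j3 ⟨k, ok.ot c j2⟩
  obtain ⟨P, i1, i2, i3⟩ := path_lk (j4 ▸ ok.ol.toMat.reach' j1 (S := {a | ReflTransGen s.RO b a})
    fun _ k => k)
  exact ⟨P, (ok.ol.toFF.finite_fwd b).subset i1, fun a ha =>
    ⟨ok.oG (ok.ol.toMat.rtg_mem (i1 ha) k1), fun k => k2 ⟨a, k, i1 ha⟩⟩, i3, i2,
    fun a ha => ⟨b, i1 ha, rfl⟩⟩

/-- Thinning all vertices of `H`. -/
theorem layered (hθ : θ.IsRegular) (h0 : ℵ₀ < θ) {S : Set E} (hS : #S ≤ θ) (hGS : G ⊆ S)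
    (hr : ∀ e, h e ≠ r) (hloop : ∀ e, t e ≠ h e) (hH : r ∉ H) (hKG : K ⊆ G)
    (hK : ∀ w ∈ H, #{a | a ∈ K ∧ h a = w} < θ)
    (hpre : ∀ w ∈ H, ∃ I, w ∉ I ∧
      LL t h Set.univ (K ∪ {a | a ∈ G ∧ h a = w}) I {w} {a | a ∈ G ∧ h a = w} ∧
      ∀ y, y ∉ I → y ≠ w → Rich t h r θ G w y)
    {T : Type u} {I : Set T} (hI : #I ≤ θ) (Q : T → Set E → Prop)
    (hQ : ∀ i ∈ I, ∀ B : Set E, #B < θ →
      ∃ P, Q i P ∧ P.Finite ∧ P ⊆ G ∧ ∀ a ∈ P, ∀ b ∈ B, h a ≠ h b) :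
    ∃ L, K ⊆ L ∧ L ⊆ G ∧ (∀ w ∈ H, Lk t h r L {w} {a | a ∈ L ∧ h a = w}) ∧
      (∀ e ∈ G, e ∉ L → Just t h r L e) ∧
      (∀ e ∈ S, h e ∈ H → ∀ Y U M, Wave t h r G {h e} Y U M →
        U ⊆ K ∪ {a | a ∈ G ∧ h a = h e} → t e ∈ Y → Just t h r L e) ∧
      ∀ i ∈ I, ∃ P, Q i P ∧ P ⊆ L := by
  rcases isEmpty_or_nonempty E with hemp | ⟨⟨d0⟩⟩
  · exact ⟨G, hKG, Subset.rfl, fun w _ => lk_empty.mono Subset.rfl fun a => isEmptyElim a,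
      fun e => isEmptyElim e, fun e => isEmptyElim e, fun i k =>
        (hQ i k ∅ (by simpa using hθ.pos)).imp fun _ j => ⟨j.1, j.2.2.1⟩⟩
  obtain ⟨ι, _, _, hι, hlt⟩ := exists_index θ
  have : Nonempty ι := mk_ne_zero_iff.1 (hι ▸ hθ.ne_zero)
  have : Nonempty ((Bool × E) ⊕ T) := ⟨Sum.inl (true, d0)⟩
  obtain ⟨φ, hφ⟩ := exists_task (X := (Bool × E) ⊕ T) (hι ▸ h0.le) (hι ▸ hlt)
    (S := ((fun d => Sum.inl (true, d)) '' S ∪ (fun d => Sum.inl (false, d)) '' S) ∪ Sum.inr '' I)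
    (hι ▸ mk_union_le' h0.le (mk_union_le' h0.le (mk_image_le.trans hS) (mk_image_le.trans hS))
      (mk_image_le.trans hI))
  have : Nonempty (Stg ι V E) := ⟨⟨∅, ∅, ∅, ∅, r, ∅, ∅, fun _ _ => False, ∅, fun _ _ => False, ∅,
    fun _ => ∅⟩⟩
  obtain ⟨f, hf⟩ := trec_inv (ι := ι) (S := Stg ι V E) (fun η c s => s.Ok t h r θ G K H ∧
    s.Rel t h θ G H c ∧ (s.z = r ∨ ∃ b ∈ s.N, h b = s.z) ∧
    (∀ d, (φ η).2 = Sum.inl (true, d) → d ∈ s.N ∧ (h d ∈ H → s.z = h d ∨ ∃ ξ, (c ξ).z = h d)) ∧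
    (∀ d, (φ η).2 = Sum.inl (false, d) → ∀ ξ, ξ.1 = (φ η).1 → (c ξ).Hv h r θ (t d) →
      Stg.Pay t h r (c ξ) s (t d)) ∧ ∀ i ∈ I, (φ η).2 = Sum.inr i → Q i s.Pa) (by
      intro η f ih
      have R : Run t h r θ G K H f (Iio η) :=
        ⟨fun ζ k ξ j => lt_trans j k, fun ζ k => (ih ζ k).1, fun ζ k => (ih ζ k).2.1⟩
      have idle := R.step_old hθ h0 (hlt η) hr hH finite_empty
        (fun _ k => k.elim) fun y _ _ => lk_empty.mono Subset.rfl fun _ k => k.1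
      rcases e : (φ η).2 with ⟨_ | _, d⟩ | i
      · by_cases k3 : (φ η).1 < η ∧ (f (φ η).1).Hv h r θ (t d)
        · obtain ⟨P, j1, j2, j3, j4⟩ := (R.ok _ k3.1).fresh h0 k3.2 (R.old_small hθ (hlt η))
          obtain ⟨s, i1, i2, i3, -, i4⟩ := R.step_old hθ h0 (hlt η) hr hH j1 j2
            (fun _ _ => j3 _) d
          refine ⟨s, i1, i2, Or.inl i4, by simp, fun d' k ξ l _ => ?_, by simp⟩
          obtain rfl : d = d' := by simpa using k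
          beta_reduce
          rw [Stg.Pay, i3, l]
          exact j4
        · obtain ⟨s, i1, i2, -, -, i4⟩ := idle d
          refine ⟨s, i1, i2, Or.inl i4, by simp, fun d' k ξ l m => ?_, by simp⟩
          obtain rfl : d = d' := by simpa using k
          exact (k3 ⟨l ▸ ξ.2, l ▸ m⟩).elim
      · by_cases k1 : h d ∈ H ∧ ∀ ξ < η, (f ξ).z ≠ h d
        · obtain ⟨I, j1, j2, j3⟩ := hpre _ k1.1
          obtain ⟨s, i1, i2, i3, i4⟩ := R.step_new hθ h0 (hlt η)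
            ((mk_le_mk_of_subset hGS).trans hS) hr hloop hH hKG hK k1.1 k1.2 j1 j2 j3 d
          refine ⟨s, i1, i2, Or.inr ⟨d, i4, i3.symm⟩, fun d' k => ?_, by simp, by simp⟩
          obtain rfl : d = d' := by simpa using k
          exact ⟨i4, fun _ => Or.inl i3⟩
        · obtain ⟨s, i1, i2, -, i3, i4⟩ := idle d
          refine ⟨s, i1, i2, Or.inl i4, fun d' k => ?_, by simp, by simp⟩
          obtain rfl : d = d' := by simpa using k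
          exact ⟨i3, fun j => Or.inr (by_contra fun l => k1 ⟨j, fun ξ m n => l ⟨⟨ξ, m⟩, n⟩⟩)⟩
      · by_cases k : i ∈ I
        · obtain ⟨P, j1, j2, j3, j4⟩ := hQ i k _ (R.old_small hθ (hlt η))
          obtain ⟨s, i1, i2, i3, -, i4⟩ := R.step_old hθ h0 (hlt η) hr hH j2
            (fun a ha => ⟨j3 ha, fun l => j4 a ha a l rfl⟩) (fun ξ l m => by
              obtain ⟨b, n1, n2⟩ := (ih ξ l).2.2.1.resolve_left m
              exact lk_empty.mono (empty_subset _)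
                fun a ha => j4 a ha.1 b ⟨ξ, l, n1⟩ (ha.2.trans n2.symm)) d0
          refine ⟨s, i1, i2, Or.inl i4, by simp, by simp, fun i' _ l => ?_⟩
          obtain rfl : i = i' := by simpa using l
          exact i3 ▸ j1
        · obtain ⟨s, i1, i2, -, -, i4⟩ := idle d0
          refine ⟨s, i1, i2, Or.inl i4, by simp, by simp, fun i' l m => ?_⟩
          obtain rfl : i = i' := by simpa using m
          exact (k l).elim)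
  have R : Run t h r θ G K H f Set.univ :=
    ⟨fun _ _ _ _ => trivial, fun ζ _ => (hf ζ).1, fun ζ _ => (hf ζ).2.1⟩
  have hz : ∀ e ∈ S, (∃ η, e ∈ (f η).N) ∧ (h e ∈ H → ∃ η, (f η).z = h e) := fun e he => by
    obtain ⟨η, -, k⟩ := hφ (Classical.arbitrary ι) _ (Or.inl (Or.inl ⟨e, he, rfl⟩))
    have j := (hf η).2.2.2.1 e (by rw [k])
    exact ⟨⟨η, j.1⟩, fun l => (j.2 l).elim (fun i => ⟨η, i⟩) fun ⟨ξ, i⟩ => ⟨ξ, i⟩⟩
  have hL : ∀ a, a ∈ {a | a ∈ G ∧ ∀ ζ, a ∉ (f ζ).X} ↔ a ∈ G ∧ ∀ ζ, a ∉ (f ζ).X :=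
    fun _ => Iff.rfl
  refine ⟨_, fun a ha => (hL a).2 ⟨hKG ha, fun ζ => R.XK trivial ha⟩, fun a ha => ha.1,
    fun w hw => ?_, fun e k1 k2 => ?_, fun e hs he Y U M k1 k2 k3 => ?_, fun i k => ?_⟩
  · by_cases k : ∃ e ∈ G, h e = w
    swap
    · exact lk_empty.mono Subset.rfl fun a ha => k ⟨a, ha.1.1, ha.2⟩
    obtain ⟨e, he, rfl⟩ := k
    obtain ⟨η, k⟩ := (hz e (hGS he)).2 hw
    choose! τ j1 j2 using fun d (hd : d ∈ G) => hφ η _ (Or.inl (Or.inr ⟨d, hGS hd, rfl⟩))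
    refine k ▸ R.final hr hL (fun a ha => (hz a (hGS ha)).1) (k ▸ hr e) (τ := τ)
      (fun a ha b hb i => ?_) fun d hd i => ?_
    · have j := j2 a ha
      rw [i, j2 b hb] at j
      simpa using j.symm
    · exact (hf (τ d)).2.2.2.2.1 d (by rw [j2 d hd]) ⟨η, j1 d hd⟩ (by rw [j2 d hd]) i
  · obtain ⟨ζ, k⟩ : ∃ ζ, e ∈ (f ζ).X := by_contra fun j => k2 ⟨k1, fun ζ i => j ⟨ζ, i⟩⟩
    obtain ⟨ξ, -, j1, j2⟩ := R.just hloop trivial k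
    obtain ⟨U, M, j3⟩ := R.wave hL ξ
    exact ⟨_, U, M, j1 ▸ j3, j2⟩
  · obtain ⟨η, k⟩ := (hz e hs).2 he
    obtain ⟨U', M', j⟩ := R.wave hL η
    exact ⟨_, U', M', k ▸ j, (R.ok η trivial).top (k ▸ he) Y U M (k ▸ k1) (k ▸ k2) k3⟩
  · obtain ⟨η, -, j⟩ := hφ (Classical.arbitrary ι) _ (Or.inr ⟨i, k, rfl⟩)
    refine ⟨_, (hf η).2.2.2.2.2 i k (by rw [j]), fun a ha => ?_⟩
    obtain ⟨j1, j2, j3, j4⟩ := (R.ok η trivial).Pa a ha
    exact ⟨j1, fun ζ => R.kept' trivial j2 j4 j3 ζ trivial⟩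

end Pool.Agent.P.MP_133cc4_co
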