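import Pool.Agent.P.MP_133cc4_co.BAux

/-! The stages of the construction in layers. -/

namespace Pool.Agent.P.MP_133cc4_co

open Set Function Relation Cardinal

universe u

/-- The data chosen at one stage. -/
structure Stg (ι V E : Type*) where
  B : Set E
  N : Set E
  X : Set E
  Pa : Set E
  z : V
  W : Set V
  A : Set E
  RA : E → E → Prop
  O : Set E
  RO : E → E → Prop
  S : Set E
  T : ι → Set E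

variable {ι : Type u} {V : Type*} {E : Type u}

/-- The edges into `y` that are needed by an inner system `A` and an outer system `O`. -/
def Dem (h : E → V) (θ : Cardinal.{u}) (A O : Set E) (y : V) : Set E :=
  {a | h a = y ∧ (a ∈ A ∨ (a ∈ O ∧ #{b | b ∈ O ∧ h b = y} < θ))}

/-- The properties of one stage. -/
structure Stg.Ok (t h : E → V) (r : V) (θ : Cardinal.{u}) (G K : Set E) (H : Set V)
    (s : Stg ι V E) : Prop where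
  zH : s.z ∈ H ∨ s.z = r
  rW : r ∉ s.W
  zW : s.z ∉ s.W
  core : Core t h univ G s.z s.W s.A s.RA
  light : ∀ y ∈ s.W, #({a | a ∈ s.A ∧ h a = y} \ K : Set E) < θ
  ol : Link h t (Out r ({s.z} ∪ s.W)) s.O s.RO
  oG : s.O ⊆ G
  ot : ∀ a ∈ s.O, t a ∉ {s.z} ∪ s.W
  oD : Del t h G ({s.z} ∪ s.W) ⊆ s.O
  top : s.z ∈ H → ∀ Y U M, Wave t h r G {s.z} Y U M → U ⊆ K ∪ {a | a ∈ G ∧ h a = s.z} → Y ⊆ s.W
  small : #s.N < θ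
  BN : s.B ⊆ s.N
  cS : ∃ R, Core t h univ (G ∩ s.N) s.z s.W s.S R
  cA : ∀ a b, s.RA a b → (a ∈ s.N ↔ b ∈ s.N)
  SK : ∀ a ∈ G, h a = s.z → (a ∈ K ∨ a ∈ s.B) → a ∈ s.S
  SX : ∀ a ∈ s.S, a ∉ s.X
  OX : ∀ a ∈ s.O, h a ≠ s.z → a ∉ s.X
  Pa : ∀ a ∈ s.Pa, a ∈ G ∧ a ∈ s.N ∧ a ∉ s.B ∧ a ∉ s.X

/-- The relation of a stage to the earlier ones. -/
structure Stg.Rel [LinearOrder ι] (t h : E → V) (θ : Cardinal.{u}) (G : Set E) (H : Set V) {η : ι}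
    (c : Iio η → Stg ι V E) (s : Stg ι V E) : Prop where
  B : ∀ a, a ∈ s.B ↔ ∃ ξ, a ∈ (c ξ).N
  X : ∀ a, a ∈ s.X ↔ a ∈ G ∧ a ∈ s.N ∧ a ∉ s.B ∧
    ((h a = s.z ∧ a ∉ s.S) ∨ ∃ ξ, h a = (c ξ).z ∧ a ∉ s.T ξ)
  new : ∀ ξ, s.z ∈ H → (c ξ).z ≠ s.z
  cA : ∀ ξ a b, (c ξ).RA a b → (a ∈ s.N ↔ b ∈ s.N)
  cT : ∀ ξ, ∃ R, Core t h univ (G ∩ (s.N \ s.B)) (c ξ).z (c ξ).W (s.T ξ) R
  TX : ∀ ξ : Iio η, ∀ a ∈ s.T ξ, a ∉ s.X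
  SX : ∀ ξ, ∀ a ∈ s.S ∪ s.O, a ∉ (c ξ).X
  d1 : ∀ ξ, s.z ∈ H → Dem h θ (c ξ).A (c ξ).O s.z ⊆ s.S
  d2 : ∀ ξ, (c ξ).z ∈ H → Dem h θ s.A s.O (c ξ).z ⊆ s.N

/-- The stages in an initial segment `I`. -/
structure Run [LinearOrder ι] (t h : E → V) (r : V) (θ : Cardinal.{u}) (G K : Set E) (H : Set V)
    (f : ι → Stg ι V E) (I : Set ι) : Prop where
  low : ∀ ζ ∈ I, ∀ ξ < ζ, ξ ∈ I
  ok : ∀ ζ ∈ I, (f ζ).Ok t h r θ G K H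
  rel : ∀ ζ ∈ I, Stg.Rel t h θ G H (fun x : Iio ζ => f x) (f ζ)

variable {t h : E → V} {r : V} {θ : Cardinal.{u}} {G K : Set E} {H : Set V}

theorem dem_small (h0 : ℵ₀ < θ) {z y : V} {W : Set V} {A O : Set E} {R : E → E → Prop}
    (hc : Core t h univ G z W A R) (hl : ∀ y ∈ W, #({a | a ∈ A ∧ h a = y} \ K : Set E) < θ)
    (hK : #{a | a ∈ K ∧ h a = y} < θ) (hy : y ≠ z) : #(Dem h θ A O y) < θ := by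
  have k1 : #({a | a ∈ A ∧ h a = y} \ K : Set E) < θ := by
    by_cases k : y ∈ W
    · exact hl y k
    · refine (mk_le_mk_of_subset (t := ∅) fun a ha => ?_).trans_lt (by simpa using aleph0_pos.trans h0)
      exact (hc.hY ha.1.1).elim (fun j => k (ha.1.2 ▸ j)) fun j => hy (ha.1.2.symm.trans j)
  have k2 : #{a | (a ∈ O ∧ h a = y) ∧ #{b | b ∈ O ∧ h b = y} < θ} < θ := by
    by_cases k : #{b | b ∈ O ∧ h b = y} < θ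
    · exact (mk_le_mk_of_subset fun a ha => ha.1).trans_lt k
    · exact (mk_le_mk_of_subset (t := ∅) fun a ha => k ha.2).trans_lt
        (by simpa using aleph0_pos.trans h0)
  refine (mk_le_mk_of_subset fun a ha => ?_).trans_lt
    (mk_union_lt h0.le (mk_union_lt h0.le k1 hK) k2)
  rcases ha.2 with k | k
  · by_cases j : a ∈ K
    · exact Or.inl (Or.inr ⟨j, ha.1⟩)
    · exact Or.inl (Or.inl ⟨⟨k, ha.1⟩, j⟩)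
  · exact Or.inr ⟨⟨k.1, ha.1⟩, k.2⟩

variable [LinearOrder ι] {f : ι → Stg ι V E} {I : Set ι} {ξ ζ : ι} {a : E}

theorem Run.NB (R : Run t h r θ G K H f I) (hζ : ζ ∈ I) (k : ξ < ζ) : (f ξ).N ⊆ (f ζ).B :=
  fun a ha => ((R.rel ζ hζ).B a).2 ⟨⟨ξ, k⟩, ha⟩

theorem Run.SN (R : Run t h r θ G K H f I) (hζ : ζ ∈ I) : (f ζ).S ⊆ (f ζ).N := by
  obtain ⟨_, k⟩ := (R.ok ζ hζ).cS
  exact fun a ha => (k.sub ha).2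

theorem Run.later (R : Run t h r θ G K H f I) (hζ : ζ ∈ I) (k : ξ < ζ) (ha : a ∈ (f ξ).N) :
    a ∉ (f ζ).X := fun j => (((R.rel ζ hζ).X a).1 j).2.2.1 (R.NB hζ k ha)

/-- An edge of a layer that is not dropped in its layer is never dropped. -/
theorem Run.kept (R : Run t h r θ G K H f I) (hξ : ξ ∈ I) (h1 : a ∈ (f ξ).N) (h2 : a ∉ (f ξ).X)
    (h3 : ∀ ζ < ξ, a ∉ (f ζ).X) : ∀ ζ ∈ I, a ∉ (f ζ).X := by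
  intro ζ hζ
  rcases lt_trichotomy ζ ξ with k | rfl | k
  · exact h3 ζ k
  · exact h2
  · exact R.later hζ k h1

theorem Run.kept' (R : Run t h r θ G K H f I) (hξ : ξ ∈ I) (h1 : a ∈ (f ξ).N) (h2 : a ∉ (f ξ).X)
    (h3 : a ∉ (f ξ).B) : ∀ ζ ∈ I, a ∉ (f ζ).X :=
  R.kept hξ h1 h2 fun ζ k j => h3 (R.NB hξ k (((R.rel ζ (R.low ξ hξ ζ k)).X a).1 j).2.1)

theorem Run.dem (R : Run t h r θ G K H f I) (hr : ∀ e, h e ≠ r) (hξ : ξ ∈ I) (hζ : ζ ∈ I)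
    (k : ξ ≠ ζ) (ha : a ∈ Dem h θ (f ξ).A (f ξ).O (f ζ).z) : ∃ ζ ∈ I, a ∈ (f ζ).N := by
  have j : (f ζ).z ∈ H := (R.ok ζ hζ).zH.resolve_right fun j => hr a (ha.1.trans j)
  rcases k.lt_or_gt with k | k
  · exact ⟨ζ, hζ, R.SN hζ ((R.rel ζ hζ).d1 ⟨ξ, k⟩ j ha)⟩
  · exact ⟨ξ, hξ, (R.rel ξ hξ).d2 ⟨ζ, k⟩ j ha⟩

theorem Run.just (R : Run t h r θ G K H f I) (hloop : ∀ e, t e ≠ h e) (hζ : ζ ∈ I)
    (ha : a ∈ (f ζ).X) : ∃ ξ ∈ I, h a = (f ξ).z ∧ t a ∈ (f ξ).W := by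
  obtain ⟨k1, k2, k3, k4 | ⟨ξ, k4⟩⟩ := ((R.rel ζ hζ).X a).1 ha
  · obtain ⟨_, k⟩ := (R.ok ζ hζ).cS
    exact ⟨ζ, hζ, k4.1, by_contra fun j => k4.2 (k.ent ⟨k1, k2⟩ (Or.inr k4.1) j (k4.1 ▸ hloop a))⟩
  · obtain ⟨_, k⟩ := (R.rel ζ hζ).cT ξ
    exact ⟨ξ, R.low ζ hζ ξ ξ.2, k4.1,
      by_contra fun j => k4.2 (k.ent ⟨k1, k2, k3⟩ (Or.inr k4.1) j (k4.1 ▸ hloop a))⟩

theorem Run.XK (R : Run t h r θ G K H f I) (hζ : ζ ∈ I) (ha : a ∈ K) : a ∉ (f ζ).X := by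
  intro j
  obtain ⟨k1, k2, k3, k4 | ⟨ξ, k4⟩⟩ := ((R.rel ζ hζ).X a).1 j
  · exact k4.2 ((R.ok ζ hζ).SK a k1 k4.1 (Or.inl ha))
  · have i := R.low ζ hζ ξ ξ.2
    exact k3 (R.NB hζ ξ.2 (R.SN i ((R.ok ξ i).SK a k1 k4.1 (Or.inl ha))))

theorem Run.closed (R : Run t h r θ G K H f I) (hξ : ξ ∈ I) (a b : E) (k : (f ξ).RA a b) :
    (∃ ζ ∈ I, a ∈ (f ζ).N) ↔ ∃ ζ ∈ I, b ∈ (f ζ).N := by
  have key : ∀ c, (∃ ζ ∈ I, c ∈ (f ζ).N) ↔ ∃ ζ ∈ I, ξ ≤ ζ ∧ c ∈ (f ζ).N := fun c =>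
    ⟨fun ⟨ζ, j1, j2⟩ => (le_or_gt ξ ζ).elim (fun i => ⟨ζ, j1, i, j2⟩)
      fun i => ⟨ξ, hξ, le_rfl, (R.ok ξ hξ).BN (R.NB hξ i j2)⟩, fun ⟨ζ, j1, _, j2⟩ => ⟨ζ, j1, j2⟩⟩
  rw [key, key]
  refine exists_congr fun ζ => and_congr_right fun j1 => and_congr_right fun j2 => ?_
  rcases j2.eq_or_lt with rfl | j2
  · exact (R.ok ξ hξ).cA a b k
  · exact (R.rel ζ j1).cA ⟨ξ, j2⟩ a b k

variable [WellFoundedLT ι]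

theorem Run.least (R : Run t h r θ G K H f I) (ha : ∃ ζ ∈ I, a ∈ (f ζ).N) :
    ∃ ζ ∈ I, a ∈ (f ζ).N ∧ a ∉ (f ζ).B := by
  obtain ⟨ζ, j1, j2⟩ := WellFounded.has_min (wellFounded_lt (α := ι)) {ζ | ζ ∈ I ∧ a ∈ (f ζ).N} ha
  refine ⟨ζ, j1.1, j1.2, fun j => ?_⟩
  obtain ⟨ξ, k⟩ := ((R.rel ζ j1.1).B a).1 j
  exact j2 ξ ⟨R.low ζ j1.1 ξ ξ.2, k⟩ ξ.2

/-- The present inner system of an old vertex. -/
theorem Run.glue (R : Run t h r θ G K H f I) (hξ : ξ ∈ I) :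
    ∃ C M, Core t h univ G (f ξ).z (f ξ).W C M ∧
      (∀ a ∈ C, (∀ ζ ∈ I, a ∉ (f ζ).X) ∧ ((∃ ζ ∈ I, a ∈ (f ζ).N) ∨ a ∈ (f ξ).A)) ∧
      ∀ a ∈ G, h a = (f ξ).z → (∀ ζ ∈ I, a ∉ (f ζ).X) → (∃ ζ ∈ I, a ∈ (f ζ).N) → a ∈ C := by
  let D : Option {ζ // ζ ∈ I ∧ ξ < ζ} → Set E := fun o => o.elim (f ξ).N fun ζ => (f ζ).N \ (f ζ).B
  let T : Option {ζ // ζ ∈ I ∧ ξ < ζ} → Set E := fun o => o.elim (f ξ).S fun ζ => (f ζ).T ξ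
  have e : ∀ a, a ∈ ⋃ o, D o ↔ ∃ ζ ∈ I, a ∈ (f ζ).N := fun a => by
    refine ⟨fun k => ?_, fun k => ?_⟩
    · obtain ⟨_ | ζ, j⟩ := mem_iUnion.1 k
      · exact ⟨ξ, hξ, j⟩
      · exact ⟨ζ, ζ.2.1, j.1⟩
    · obtain ⟨ζ, j1, j2, j3⟩ := R.least k
      rcases lt_trichotomy ζ ξ with j | rfl | j
      · exact mem_iUnion.2 ⟨none, (R.ok ξ hξ).BN (R.NB hξ j j2)⟩
      · exact mem_iUnion.2 ⟨none, j2⟩
      · exact mem_iUnion.2 ⟨some ⟨ζ, j1, j⟩, j2, j3⟩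
  have hT : ∀ o, ∃ M, Core t h univ (G ∩ D o) (f ξ).z (f ξ).W (T o) M := by
    rintro (_ | ζ)
    · exact (R.ok ξ hξ).cS
    · exact (R.rel ζ ζ.2.1).cT ⟨ξ, ζ.2.2⟩
  obtain ⟨M, k⟩ := core_glue (R.ok ξ hξ).core hT (by
    rintro (_ | i) (_ | j) a k1 k2
    · rfl
    · exact (k2.2 (R.NB j.2.1 j.2.2 k1)).elim
    · exact (k1.2 (R.NB i.2.1 i.2.2 k2)).elim
    · rcases lt_trichotomy i.1 j.1 with k | k | k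
      · exact (k2.2 (R.NB j.2.1 k k1.1)).elim
      · exact congrArg some (Subtype.ext k)
      · exact (k1.2 (R.NB i.2.1 k k2.1)).elim)
    fun a b k => by rw [e, e]; exact R.closed hξ a b k
  refine ⟨_, M, k, ?_, fun a k1 k2 k3 k4 => Or.inl ?_⟩
  · rintro a (ha | ha)
    · obtain ⟨o, j⟩ := mem_iUnion.1 ha
      obtain ⟨_, i⟩ := hT o
      refine ⟨?_, Or.inl ((e a).1 (mem_iUnion.2 ⟨o, (i.sub j).2⟩))⟩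
      rcases o with _ | ζ
      · exact R.kept hξ (i.sub j).2 ((R.ok ξ hξ).SX a j)
          fun ζ l => (R.rel ξ hξ).SX ⟨ζ, l⟩ a (Or.inl j)
      · exact R.kept' ζ.2.1 (i.sub j).2.1 ((R.rel ζ ζ.2.1).TX ⟨ξ, ζ.2.2⟩ a j) (i.sub j).2.2
    · exact ⟨fun ζ j1 j2 => ha.2 ((e a).2 ⟨ζ, j1, (((R.rel ζ j1).X a).1 j2).2.1⟩), Or.inr ha.1⟩
  · obtain ⟨ζ, j1, j2, j3⟩ := R.least k4
    rcases lt_trichotomy ζ ξ with j | rfl | j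
    · exact mem_iUnion.2 ⟨none, (R.ok ξ hξ).SK a k1 k2 (Or.inr (R.NB hξ j j2))⟩
    · exact mem_iUnion.2 ⟨none, by_contra fun i =>
        k3 ζ j1 (((R.rel ζ j1).X a).2 ⟨k1, j2, j3, Or.inl ⟨k2, i⟩⟩)⟩
    · exact mem_iUnion.2 ⟨some ⟨ζ, j1, j⟩, by_contra fun i =>
        k3 ζ j1 (((R.rel ζ j1).X a).2 ⟨k1, j2, j3, Or.inr ⟨⟨ξ, j⟩, k2, i⟩⟩)⟩

end Pool.Agent.P.MP_133cc4_co
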