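import Pool.Agent.P.MP_133cc4_co.BStage

/-! The two kinds of stages. -/

namespace Pool.Agent.P.MP_133cc4_co

open Set Function Relation Cardinal

universe u

variable {ι : Type u} {V : Type*} {E : Type u} {t h : E → V} {r : V} {θ : Cardinal.{u}}
  {G K : Set E} {H : Set V} [LinearOrder ι] {f : ι → Stg ι V E} {η : ι}

theorem core_root (hr : ∀ e, h e ≠ r) : Core t h univ G r ∅ ∅ fun _ _ => False :=
  ⟨link_empty t h ∅, empty_subset _, fun _ k => k.elim, fun _ k => k.elim,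
    fun a _ k _ _ => k.elim id (hr a), ls_univ _ _ _⟩

theorem Run.old_small (R : Run t h r θ G K H f (Iio η)) (hθ : θ.IsRegular) (hη : #(Iio η) < θ) :
    #{a | ∃ ζ ∈ Iio η, a ∈ (f ζ).N} < θ := by
  refine (mk_le_mk_of_subset fun a ha => ?_).trans_lt ((card_iUnion_lt_iff_forall_of_isRegular
    (t := fun ζ : Iio η => (f ζ).N) hθ hη).2 fun ζ => (R.ok ζ ζ.2).small)
  obtain ⟨ζ, k1, k2⟩ := ha
  exact mem_iUnion.2 ⟨⟨ζ, k1⟩, k2⟩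

/-- A stage at which a given fresh path is kept. -/
theorem Run.step_old (R : Run t h r θ G K H f (Iio η)) (hθ : θ.IsRegular) (h0 : ℵ₀ < θ)
    (hη : #(Iio η) < θ) (hr : ∀ e, h e ≠ r) (hH : r ∉ H) {P : Set E} (hP : P.Finite)
    (h1 : ∀ a ∈ P, a ∈ G ∧ ¬ ∃ ζ ∈ Iio η, a ∈ (f ζ).N)
    (h2 : ∀ ξ < η, (f ξ).z ≠ r → Lk t h r P {(f ξ).z} {a | a ∈ P ∧ h a = (f ξ).z}) (d : E) :
    ∃ s : Stg ι V E, s.Ok t h r θ G K H ∧ s.Rel t h θ G H (fun x : Iio η => f x) ∧ s.Pa = P ∧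
      d ∈ s.N ∧ s.z = r := by
  let B : Set E := {a | ∃ ζ ∈ Iio η, a ∈ (f ζ).N}
  obtain ⟨N, n1, n2, n3⟩ := (club_rel hθ hη fun ξ : Iio η => (R.ok ξ ξ.2).core.lk.toMat).exists_lt
    hθ h0 (mk_union_lt h0.le (R.old_small hθ hη) ((hP.insert d).lt_aleph0.trans h0))
  have hT : ∀ ξ, ∃ T : Set E, ξ < η → (∃ M, Core t h univ (G ∩ (N \ B)) (f ξ).z (f ξ).W T M) ∧
      T ⊆ (f ξ).A ∪ P ∧ {a | a ∈ P ∧ h a = (f ξ).z} ⊆ T := fun ξ => by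
    by_cases k : ξ < η
    swap
    · exact ⟨∅, fun j => (k j).elim⟩
    obtain ⟨M, j⟩ := (R.ok ξ k).core.part (C := N \ B) fun a b i =>
      and_congr (n3 ⟨ξ, k⟩ a b i) (not_congr (R.closed k a b i))
    obtain ⟨T, M', j1, j2, j3⟩ := j.pym (R.ok ξ k).rW (R.ok ξ k).zW (Q := P)
      (J := {a | a ∈ P ∧ h a = (f ξ).z})
      (fun a ha => ⟨(h1 a ha).1, n1 (Or.inr (Or.inr ha)), (h1 a ha).2⟩) (by
        by_cases i : (f ξ).z = r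
        · exact ll_empty.mono Subset.rfl fun a ha => hr a (ha.2.trans i)
        · exact ((h2 ξ k i).ll fun a ha => ha.2).shrink (fun y hy => ⟨fun l => (R.ok ξ k).rW (l ▸ hy),
            fun l => (R.ok ξ k).zW (l ▸ hy)⟩) Subset.rfl fun a ha => ⟨ha, ha.2⟩) fun a ha => ha.2
    exact ⟨T, fun _ => ⟨⟨M', j1⟩, j2.trans (union_subset_union_left _ inter_subset_left), j3⟩⟩
  choose T hT using hT
  let X : Set E := {a | a ∈ G ∧ a ∈ N ∧ a ∉ B ∧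
    ((h a = r ∧ a ∉ (∅ : Set E)) ∨ ∃ ξ : Iio η, h a = (f ξ).z ∧ a ∉ T ξ)}
  have PX : ∀ a ∈ P, a ∉ X := by
    rintro a ha ⟨-, -, -, k | ⟨ξ, k⟩⟩
    · exact hr a k.1
    · exact k.2 ((hT ξ ξ.2).2.2 ⟨ha, k.1⟩)
  refine ⟨⟨B, N, X, P, r, ∅, ∅, fun _ _ => False, ∅, fun _ _ => False, ∅, T⟩,
    ⟨Or.inr rfl, id, id, core_root hr, fun _ k => k.elim, link_empty _ _ _, empty_subset _,
      fun _ k => k.elim, fun a ha => ha.2.1.elim (hr a) id, fun k => (hH k).elim, n2,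
      subset_union_left.trans n1, ⟨_, core_root hr⟩, fun _ _ k => k.elim,
      fun a _ k => (hr a k).elim, fun _ k => k.elim, fun _ k => k.elim,
      fun a ha => ⟨(h1 a ha).1, n1 (Or.inr (Or.inr ha)), (h1 a ha).2, PX a ha⟩⟩,
    ⟨fun a => ⟨fun ⟨ζ, k1, k2⟩ => ⟨⟨ζ, k1⟩, k2⟩, fun ⟨ζ, k⟩ => ⟨ζ, ζ.2, k⟩⟩, fun _ => Iff.rfl,
      fun _ k => (hH k).elim, n3, fun ξ => (hT ξ ξ.2).1, fun ξ a ha k => ?_,
      fun _ _ k => k.elim False.elim False.elim, fun _ k => (hH k).elim,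
      fun _ _ a ha => ha.2.elim False.elim fun k => k.1.elim⟩, rfl, n1 (Or.inr (Or.inl rfl)), rfl⟩
  rcases (hT ξ ξ.2).2.1 ha with j | j
  · obtain ⟨-, -, k1, k2 | ⟨ζ, k2⟩⟩ := k
    · exact hr a k2.1
    · by_cases i : ξ.1 = ζ.1
      · exact k2.2 (i ▸ ha)
      · exact k1 (R.dem hr ξ.2 ζ.2 i ⟨k2.1, Or.inl j⟩)
  · exact PX a j k

variable [WellFoundedLT ι]

/-- A stage at which a new vertex chooses its bubble. -/
theorem Run.step_new (R : Run t h r θ G K H f (Iio η)) (hθ : θ.IsRegular) (h0 : ℵ₀ < θ)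
    (hη : #(Iio η) < θ) (hG : #G ≤ θ) (hr : ∀ e, h e ≠ r) (hloop : ∀ e, t e ≠ h e) (hH : r ∉ H)
    (hKG : K ⊆ G) (hK : ∀ w ∈ H, #{a | a ∈ K ∧ h a = w} < θ) {z : V} (hz : z ∈ H)
    (hnew : ∀ ξ < η, (f ξ).z ≠ z) {I : Set V} (hI : z ∉ I)
    (h1 : LL t h univ (K ∪ {a | a ∈ G ∧ h a = z}) I {z} {a | a ∈ G ∧ h a = z})
    (h2 : ∀ y, y ∉ I → y ≠ z → Rich t h r θ G z y) (d : E) :
    ∃ s : Stg ι V E, s.Ok t h r θ G K H ∧ s.Rel t h θ G H (fun x : Iio η => f x) ∧ s.z = z ∧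
      d ∈ s.N := by
  let B : Set E := {a | ∃ ζ ∈ Iio η, a ∈ (f ζ).N}
  have hB : #B < θ := R.old_small hθ hη
  have hzr : z ≠ r := fun k => hH (k ▸ hz)
  let Cur : Set E := {e | e ∈ G ∧ (∀ ξ ∈ Iio η, e ∉ (f ξ).X) ∧
    (e ∉ B → ∀ ξ < η, h e = (f ξ).z → e ∈ (f ξ).A)}
  have c0 : Cur ⊆ G := fun _ k => k.1
  have c1 : K ∪ {a | a ∈ G ∧ h a = z} ⊆ Cur := by
    rintro a (ha | ha)
    · exact ⟨hKG ha, fun ξ k => R.XK k ha, fun k ξ j i =>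
        (k ⟨ξ, j, R.SN j ((R.ok ξ j).SK a (hKG ha) i (Or.inl ha))⟩).elim⟩
    · refine ⟨ha.1, fun ξ k j => ?_, fun _ ξ j i => (hnew ξ j (i.symm.trans ha.2)).elim⟩
      obtain ⟨ζ, i1, i2, -⟩ := R.just hloop k j
      exact hnew ζ i1 (i2.symm.trans ha.2)
  choose C MC c2 c3 using fun ξ : Iio η => R.glue ξ.2
  have c4 : ∀ ξ, C ξ ⊆ Cur := fun ξ a ha => by
    refine ⟨(c2 ξ).sub ha, ((c3 ξ).1 a ha).1, fun k ζ j i => ?_⟩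
    have l := ((c3 ξ).1 a ha).2.resolve_left k
    by_cases m : ξ.1 = ζ
    · exact m ▸ l
    · exact (k (R.dem hr ξ.2 j m ⟨i, Or.inl l⟩)).elim
  have drop : ∀ e ∈ G, e ∉ Cur → ∃ ξ : Iio η, h e = (f ξ).z ∧ t e ∈ (f ξ).W := fun e he k => by
    by_contra hn
    refine k ⟨he, fun ξ j i => ?_, fun _ ξ j i => (R.ok ξ j).core.ent he (Or.inr i)
      (fun l => hn ⟨⟨ξ, j⟩, i, l⟩) (i ▸ hloop e)⟩
    obtain ⟨ζ, i1, i2⟩ := R.just hloop j i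
    exact hn ⟨⟨ζ, i1⟩, i2⟩
  have cw : ∀ ξ : Iio η, Wave t h r G {(f ξ).z} (f ξ).W (C ξ) (MC ξ) := fun ξ =>
    (c2 ξ).wave (R.ok ξ ξ.2).rW (R.ok ξ ξ.2).zW
  obtain ⟨W, U, M, hw, hl, hmax, hlo⟩ := exists_max_wave t h r Cur {z}
    (fun s => #(s \ K : Set E) < θ)
    fun s s' k j => (mk_le_mk_of_subset (sdiff_subset_sdiff_left k)).trans_lt j
  have clos : ∀ e ∈ G, h e ∈ {z} ∪ W → t e ∉ {z} ∪ W → e ∈ Cur := fun e he k1 k2 => by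
    by_contra hn
    obtain ⟨ξ, j1, j2⟩ := drop e he hn
    obtain ⟨U', M', j3, j4⟩ := ((cw ξ).regraph (c4 ξ) fun a ha _ _ _ => c0 ha).enlarge
      (B' := {z} ∪ W) (singleton_subset_iff.2 (j1 ▸ k1))
    refine (eq_empty_iff_forall_notMem.1 (hlo _ _ _ j3 fun y hy => ?_)) _ ⟨j2, k2⟩
    refine (mk_le_mk_of_subset fun a ha => ?_).trans_lt
      (mk_union_lt h0.le hB ((R.ok ξ ξ.2).light y hy.1))
    exact ((c3 ξ).1 a (j4 ha.1.1)).2.imp id fun l => ⟨⟨l, ha.1.2⟩, ha.2⟩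
  have hzW : z ∉ W := fun k => hw.dis k rfl
  obtain ⟨A, RA, hA, a1⟩ := (hw.regraph (hw.sub.trans c0) fun a ha k1 k2 k3 =>
    clos a ha (Or.inr k1) fun k => k.elim k3 k2).core'
  have a2 : A ⊆ Cur := fun a ha => (a1 a ha).elim (fun k => hw.sub k)
    fun k => c1 (Or.inr ⟨hA.sub ha, k⟩)
  have a3 : ∀ y ∈ W, #({a | a ∈ A ∧ h a = y} \ K : Set E) < θ := fun y hy =>
    lt_of_le_of_lt (mk_le_mk_of_subset fun a ha => And.intro (And.intro ((a1 a ha.1.1).resolve_right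
      fun k => hzW (k ▸ ha.1.2 ▸ hy)) ha.1.2) ha.2) (hl y hy)
  obtain ⟨O, RO, o1, o2, o3, o4, -⟩ := (lk_of_no_light (t := t) (h := h) (r := r) (B := {z} ∪ W)
    hθ h0 ((mk_le_mk_of_subset c0).trans hG) fun Y U M k1 k2 => hlo Y U M k1 fun y hy =>
      (mk_le_mk_of_subset sdiff_subset).trans_lt (k2 y hy)).link fun a ha => ha.2.1
  have ds : ∀ ξ : Iio η, #(Dem h θ (f ξ).A (f ξ).O z) < θ := fun ξ =>
    dem_small h0 (R.ok ξ ξ.2).core (R.ok ξ ξ.2).light (hK z hz) (hnew ξ ξ.2).symm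
  let J : Set E := {a | a ∈ G ∧ h a = z ∧
    (a ∈ K ∨ a ∈ B ∨ ∃ ξ : Iio η, a ∈ Dem h θ (f ξ).A (f ξ).O z)}
  have hJ : #J < θ := by
    refine (mk_le_mk_of_subset fun a ha => ?_).trans_lt (mk_union_lt h0.le (hK z hz)
      (mk_union_lt h0.le hB ((card_iUnion_lt_iff_forall_of_isRegular hθ hη).2 ds)))
    exact ha.2.2.imp (fun k => ⟨k, ha.2.1⟩) fun k => k.imp id mem_iUnion.2
  have hlk : Lk t h r Cur {z} J := lk_ext h0 hzr hI (h1.mono c1 fun a ha => ⟨ha.1, ha.2.1⟩)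
    (fun a ha => ha.2.1) hJ fun y k1 k2 => (h2 y k1 k2).keep h0
      (fun X k => (card_iUnion_lt_iff_forall_of_isRegular hθ hη).2 k)
      (fun ξ => ⟨C ξ, MC ξ, cw ξ, c4 ξ, (mk_le_mk_of_subset fun a ha =>
        ((c3 ξ).1 a ha.1).2.imp id fun l => And.intro ha.2 (Or.inl l)).trans_lt
          (mk_union_lt h0.le hB (ds ξ))⟩) fun e k3 k4 _ => drop e k3 k4
  obtain ⟨Q, q1, q2, q3⟩ := ((hlk.ll fun a ha => ha.2.1).shrink (I' := W) (T' := J)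
    (fun y hy => ⟨fun l => hw.rY (l ▸ hy), hw.dis hy⟩) Subset.rfl
    fun a ha => ⟨ha, ha.2.1⟩).few h0 hzW (fun a ha => ha.2.1) hJ
  have dn : #(⋃ ξ : Iio η, {a | (f ξ).z ∈ H ∧ a ∈ Dem h θ A O (f ξ).z}) < θ := by
    refine (card_iUnion_lt_iff_forall_of_isRegular hθ hη).2 fun ξ => ?_
    by_cases k : (f ξ).z ∈ H
    · exact (mk_le_mk_of_subset fun a ha => ha.2).trans_lt
        (dem_small h0 hA a3 (hK _ k) (hnew ξ ξ.2))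
    · exact (mk_le_mk_of_subset (t := ∅) fun a ha => k ha.1).trans_lt (by simpa using hθ.pos)
  obtain ⟨N, n1, n2, n3, n4⟩ := ((club_rel hθ hη
    fun ξ : Iio η => (R.ok ξ ξ.2).core.lk.toMat).and h0.le (club_rel (ι := PUnit) hθ
      (by simpa using one_lt_aleph0.trans h0) fun _ => hA.lk.toMat)).exists_lt hθ h0
    (mk_union_lt h0.le (mk_union_lt h0.le hB q2) (mk_union_lt h0.le dn
      ((finite_singleton d).lt_aleph0.trans h0)))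
  obtain ⟨MA, hAN⟩ := hA.part (n4 PUnit.unit)
  obtain ⟨S, MS, s1, s2, s3⟩ := hAN.pym hw.rY hzW
    (fun a ha => ⟨c0 (q1 ha), n1 (Or.inl (Or.inr ha))⟩) q3 fun a ha => ha.2.1
  have s4 : S ⊆ Cur := s2.trans (union_subset (inter_subset_left.trans a2) q1)
  let X : Set E := {a | a ∈ G ∧ a ∈ N ∧ a ∉ B ∧ ((h a = z ∧ a ∉ S) ∨
    ∃ ξ : Iio η, h a = (f ξ).z ∧ a ∉ (f ξ).A ∩ (N \ B))}
  have cX : ∀ a ∈ Cur, a ∈ X → h a = z ∧ a ∉ S := by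
    rintro a ha ⟨-, k1, k2, k | ⟨ξ, k⟩⟩
    · exact k
    · exact (k.2 ⟨ha.2.2 k2 ξ ξ.2 k.1, k1, k2⟩).elim
  have dS : ∀ ξ : Iio η, Dem h θ (f ξ).A (f ξ).O z ⊆ S := fun ξ a ha =>
    s3 ⟨ha.2.elim (fun k => (R.ok ξ ξ.2).core.sub k) fun k => (R.ok ξ ξ.2).oG k.1, ha.1,
      Or.inr (Or.inr ⟨ξ, ha⟩)⟩
  refine ⟨⟨B, N, X, ∅, z, W, A, RA, O, RO, S, fun ξ => (f ξ).A ∩ (N \ B)⟩,
    ⟨Or.inl hz, hw.rY, hzW, hA, a3, o1, o2.trans c0, o3,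
      fun a ha => o4 ⟨clos a ha.1 ha.2.1 ha.2.2, ha.2⟩, fun _ Y U' M' k1 k2 => hmax Y U' M'
        (k1.regraph (k2.trans c1) fun a ha _ _ _ => c0 ha) fun y hy => ?_, n2,
      fun a ha => n1 (Or.inl (Or.inl ha)), ⟨_, s1⟩, n4 PUnit.unit,
      fun a k1 k2 k3 => s3 ⟨k1, k2, k3.imp_right Or.inl⟩, fun a ha k => (cX a (s4 ha) k).2 ha,
      fun a ha k j => k (cX a (o2 ha) j).1, fun _ k => k.elim⟩,
    ⟨fun a => ⟨fun ⟨ζ, k1, k2⟩ => ⟨⟨ζ, k1⟩, k2⟩, fun ⟨ζ, k⟩ => ⟨ζ, ζ.2, k⟩⟩, fun _ => Iff.rfl,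
      fun ξ _ => hnew ξ ξ.2, n3, fun ξ => (R.ok ξ ξ.2).core.part fun a b i =>
        and_congr (n3 ξ a b i) (not_congr (R.closed ξ.2 a b i)), fun ξ a ha k => ?_,
      fun ξ a ha => (ha.elim (fun k => s4 k) fun k => o2 k).2.1 ξ ξ.2, fun ξ _ => dS ξ,
      fun ξ k a ha => n1 (Or.inr (Or.inl (mem_iUnion.2 ⟨ξ, k, ha⟩)))⟩, rfl,
    n1 (Or.inr (Or.inr rfl))⟩
  · refine (mk_le_mk_of_subset (t := ∅) fun a ha => ?_).trans_lt (by simpa using hθ.pos)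
    exact (k2 ha.1.1).elim ha.2 fun k => k1.dis hy (ha.1.2.symm.trans k.2)
  · obtain ⟨-, -, k1, k2 | ⟨ζ, k2⟩⟩ := k
    · exact k2.2 (dS ξ ⟨k2.1, Or.inl ha.1⟩)
    · by_cases i : ξ.1 = ζ.1
      · exact k2.2 (i ▸ ha)
      · exact k1 (R.dem hr ξ.2 ζ.2 i ⟨k2.1, Or.inl ha.1⟩)

end Pool.Agent.P.MP_133cc4_co
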