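import Pool.Agent.P.MP_133cc4_co.LStep

/-! The countable levels, and the induction over all levels. -/

namespace Pool.Agent.P.MP_133cc4_co

open Set Function Relation Cardinal

universe u

variable {V : Type*} {E : Type u} {t h : E → V} {r : V} {F : Set E}

theorem conn_core (hr : ∀ e, h e ≠ r) (hloop : ∀ e, t e ≠ h e)
    (hc : ∀ v, v ≠ r → ∀ Fam, PathFamily t h r v univ Fam → Fam.Countable)
    (hF : ∀ x, x ≠ r → Lk t h r F {x} {a | a ∈ F ∧ h a = x}) :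
    ∃ L, F ⊆ L ∧ (∀ x, x ≠ r → Lk t h r L {x} {a | a ∈ L ∧ h a = x}) ∧
      ∀ e, e ∉ L → Just t h r L e := by
  have cnt : ∀ L : Set E, (∀ x, x ≠ r → Lk t h r L {x} {a | a ∈ L ∧ h a = x}) →
      ∀ x, {a | a ∈ L ∧ h a = x}.Countable := by
    intro L hL x
    by_cases hx : x = r
    · exact countable_empty.mono fun a ha => hr a (ha.2.trans hx)
    · exact (hL x hx).countable hx (hc x hx) fun a ha => ha.2
  let Gd : Set V × Set E → Prop := fun p => (∀ a ∈ p.2, h a ∈ p.1) ∧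
    (∀ a ∈ F, h a ∈ p.1 → a ∈ p.2) ∧
    (∀ x ∈ p.1, x ≠ r → Lk t h r p.2 {x} {a | a ∈ p.2 ∧ h a = x}) ∧
    ∀ L : Set E, (∀ a, h a ∈ p.1 → (a ∈ p.2 ↔ a ∈ L)) → ∀ e, h e ∈ p.1 → e ∉ p.2 → Just t h r L e
  let R : {p // Gd p} → {p // Gd p} → Prop := fun p q =>
    p.1.1 ⊆ q.1.1 ∧ ∀ a, h a ∈ p.1.1 → (a ∈ p.1.2 ↔ a ∈ q.1.2)
  have : Nonempty {p // Gd p} := ⟨⟨(∅, ∅), fun _ h1 => h1.elim,
    fun _ _ h1 => h1.elim, fun _ h1 => h1.elim, fun _ _ _ h1 => h1.elim⟩⟩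
  obtain ⟨⟨⟨A, L⟩, g2, g3, g4, g5⟩, hmax⟩ := exists_maximal_of_nonempty_chains_bounded (r := R)
    (by
      intro C hC _
      have key : ∀ p ∈ C, ∀ a, h a ∈ p.1.1 → (a ∈ p.1.2 ↔ a ∈ ⋃ q ∈ C, q.1.2) := by
        intro p hp a ha
        refine ⟨fun h1 => mem_biUnion hp h1, fun h1 => ?_⟩
        obtain ⟨q, hq, h2⟩ := mem_iUnion₂.1 h1
        by_cases hpq : p = q
        · exact hpq ▸ h2
        rcases hC hp hq hpq with h3 | h3
        · exact (h3.2 a ha).2 h2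
        · exact (h3.2 a (q.2.1 a h2)).1 h2
      refine ⟨⟨(⋃ q ∈ C, q.1.1, ⋃ q ∈ C, q.1.2), ?_, ?_, ?_, ?_⟩,
        fun p hp => ⟨subset_biUnion_of_mem (u := fun q : {p // Gd p} => q.1.1) hp, key p hp⟩⟩
      · intro a h1
        obtain ⟨q, hq, h2⟩ := mem_iUnion₂.1 h1
        exact mem_biUnion hq (q.2.1 a h2)
      · intro a ha h1
        obtain ⟨q, hq, h2⟩ := mem_iUnion₂.1 h1
        exact mem_biUnion hq (q.2.2.1 a ha h2)
      · intro x h1 hx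
        obtain ⟨q, hq, h2⟩ := mem_iUnion₂.1 h1
        exact (q.2.2.2.1 x h2 hx).mono
          (subset_biUnion_of_mem (u := fun q : {p // Gd p} => q.1.2) hq)
          fun a ha => ⟨(key q hq a (ha.2 ▸ h2)).2 ha.1, ha.2⟩
      · intro L hL e h1 h3
        obtain ⟨q, hq, h2⟩ := mem_iUnion₂.1 h1
        exact q.2.2.2.2 L (fun a ha => (key q hq a ha).trans (hL a (mem_biUnion hq ha))) e h2
          fun h4 => h3 (mem_biUnion hq h4))
    (fun h1 h2 => ⟨h1.1.trans h2.1, fun a ha => (h1.2 a ha).trans (h2.2 a (h1.1 ha))⟩)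
  dsimp only at g2 g3 g4 g5
  have hA : ∀ v, v ∈ A := by
    intro v
    have hF' : ∀ x, x ≠ r → Lk t h r (F ∪ L) {x} {a | a ∈ F ∪ L ∧ h a = x} := by
      intro x hx
      by_cases hxA : x ∈ A
      · exact (g4 x hxA hx).mono subset_union_right
          fun a ha => ⟨ha.1.elim (fun h1 => g3 a h1 (ha.2 ▸ hxA)) id, ha.2⟩
      · exact (hF x hx).mono subset_union_left
          fun a ha => ⟨ha.1.resolve_right fun h1 => hxA (ha.2 ▸ g2 a h1), ha.2⟩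
    obtain ⟨C, L', hvC, k1, k2, k3, k4⟩ := layer (t := t) (F := F ∪ L)
      (G := {a | h a ∈ A → a ∈ L}) hr hloop (fun x hx => not_str hx (hc x hx))
      (union_subset g3 fun a ha _ => ha) hF' (cnt _ hF') v
    have e1 : ∀ a, h a ∈ A → (a ∈ L ↔ a ∈ L ∪ L') := fun a ha =>
      ⟨Or.inl, fun h1 => h1.elim id fun h2 => (k1 a h2).1 ha⟩
    have e2 : ∀ a, h a ∈ C → (a ∈ L' ↔ a ∈ L ∪ L') := fun a ha =>
      ⟨Or.inr, fun h1 => h1.elim (fun h2 => k2 a (Or.inr h2) ha) id⟩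
    refine (hmax ⟨(A ∪ C, L ∪ L'), ?_, ?_, ?_, ?_⟩ ⟨subset_union_left, e1⟩).1 (Or.inr hvC)
    · exact fun a ha => ha.imp (g2 a) fun h1 => (k1 a h1).2
    · exact fun a ha h1 => h1.imp (g3 a ha) (k2 a (Or.inl ha))
    · rintro x (h1 | h1) hx
      · exact (g4 x h1 hx).mono subset_union_left fun a ha => ⟨(e1 a (ha.2 ▸ h1)).2 ha.1, ha.2⟩
      · exact (k3 x hx).mono subset_union_right fun a ha => ⟨(e2 a (ha.2 ▸ h1)).2 ha.1, ha.2⟩
    · intro L2 hL2 e h1 h2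
      have h4 : ∀ a, h a ∈ A → (a ∈ L ↔ a ∈ L2) := fun a ha => (e1 a ha).trans (hL2 a (Or.inl ha))
      by_cases h3 : h e ∈ A
      · exact g5 L2 h4 e h3 fun h5 => h2 (Or.inl h5)
      · exact k4 L2 (fun a ha h5 => (h4 a h5).2 ha)
          (fun a ha => ((e2 a ha).trans (hL2 a (Or.inr ha))).symm) e (fun h5 => (h3 h5).elim)
          (h1.resolve_left h3) fun h5 => h2 (Or.inr h5)
  exact ⟨L, fun a ha => g3 a ha (hA _), fun x hx => g4 x (hA x) hx,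
    fun e => g5 L (fun _ _ => Iff.rfl) e (hA _)⟩

open Classical in
/-- The tail map after contracting the vertices of uncountable level to the root and cutting
off their in-edges. -/
noncomputable def cutT (t h : E → V) (r : V) (e : E) : Option V :=
  if ℵ₀ < lam t h r (h e) then none else if ℵ₀ < lam t h r (t e) then some r else some (t e)

theorem cutT_cases (t h : E → V) (r : V) (e : E) :
    (ℵ₀ < lam t h r (h e) ∧ cutT t h r e = none) ∨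
    (lam t h r (h e) ≤ ℵ₀ ∧ ℵ₀ < lam t h r (t e) ∧ cutT t h r e = some r) ∨
    (lam t h r (h e) ≤ ℵ₀ ∧ lam t h r (t e) ≤ ℵ₀ ∧ cutT t h r e = some (t e)) := by
  unfold cutT
  split_ifs with k1 k2
  · exact Or.inl ⟨k1, rfl⟩
  · exact Or.inr (Or.inl ⟨not_lt.1 k1, k2, rfl⟩)
  · exact Or.inr (Or.inr ⟨not_lt.1 k1, not_lt.1 k2, rfl⟩)

theorem cutT_some {e : E} {y : V} (H : cutT t h r e = some y) (hy : y ≠ r) :
    t e = y ∧ lam t h r y ≤ ℵ₀ ∧ lam t h r (h e) ≤ ℵ₀ := by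
  rcases cutT_cases t h r e with k | k | k
  · simp [k.2] at H
  · exact (hy (Option.some.inj (k.2.2.symm.trans H)).symm).elim
  · obtain rfl := Option.some.inj (k.2.2.symm.trans H)
    exact ⟨rfl, k.2.1, k.1⟩

theorem cutT_light {e : E} (h1 : lam t h r (h e) ≤ ℵ₀) (h2 : lam t h r (t e) ≤ ℵ₀) :
    cutT t h r e = some (t e) := by
  rcases cutT_cases t h r e with k | k | k
  · exact (k.1.not_ge h1).elim
  · exact (k.2.1.not_ge h2).elim
  · exact k.2.2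

theorem cutT_ex {e : E} (h1 : lam t h r (h e) ≤ ℵ₀) : ∃ y, cutT t h r e = some y := by
  rcases cutT_cases t h r e with k | k | k
  · exact (k.1.not_ge h1).elim
  · exact ⟨_, k.2.2⟩
  · exact ⟨_, k.2.2⟩

theorem om_light {x y : V} (hx : lam t h r x ≤ ℵ₀) :
    y ∈ Om t h r (lev t h r x) ↔ y ≠ r ∧ lam t h r y ≤ ℵ₀ := by
  simp [Om, lev, max_eq_left hx]

theorem light (hr : ∀ e, h e ≠ r) (hloop : ∀ e, t e ≠ h e)
    (hF : ∀ x, x ≠ r → Lk t h r F {x} {a | a ∈ F ∧ h a = x}) :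
    ∃ L : Set E, (∀ a ∈ L, lam t h r (h a) ≤ ℵ₀) ∧ (∀ a ∈ F, lam t h r (h a) ≤ ℵ₀ → a ∈ L) ∧
      (∀ x, x ≠ r → lam t h r x ≤ ℵ₀ →
        LL t h univ L (Om t h r (lev t h r x) \ {x}) {x} {a | a ∈ L ∧ h a = x}) ∧
      ∀ e, lam t h r (h e) ≤ ℵ₀ → e ∉ L → JI t h r univ L (Om t h r (lev t h r (h e))) e := by
  have out : ∀ x a, x ≠ r → lam t h r x ≤ ℵ₀ → lam t h r (h a) ≤ ℵ₀ →
      (t a ∈ Om t h r (lev t h r x) \ {x} ↔
        cutT t h r a ∈ {v | v ≠ some r ∧ v ∉ ({some x} : Set (Option V))}) := by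
    intro x a k1 k2 k3
    rw [mem_sdiff, om_light k2]
    refine ⟨fun k => ?_, fun k => ?_⟩
    · rw [cutT_light k3 k.1.2]
      exact ⟨fun j => k.1.1 (Option.some.inj j), fun j => k.2 (Option.some.inj j)⟩
    · obtain ⟨y, j⟩ := cutT_ex k3
      rw [j] at k
      obtain ⟨rfl, i, -⟩ := cutT_some j fun i => k.1 (congrArg some i)
      exact ⟨⟨fun l => k.1 (congrArg some l), i⟩, fun l => k.2 (congrArg some l)⟩
  obtain ⟨L, k1, k2, k3⟩ := conn_core (t := cutT t h r) (h := fun e => some (h e)) (r := some r)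
    (F := {a | a ∈ F ∧ lam t h r (h a) ≤ ℵ₀}) (fun e k => hr e (Option.some.inj k)) (by
      intro e k
      exact hloop e (cutT_some k (hr e)).1) (by
      intro v hv Fam hFam
      have key : ∀ S : Set E, #S ≤ ℵ₀ → ∀ v, Rch (cutT t h r) (fun e => some (h e)) Sᶜ (some r) v →
          ∃ y, v = some y ∧ Rch t h Sᶜ r y ∧ (y ≠ r → lam t h r y ≤ ℵ₀) := by
        intro S hS v H
        induction H with
        | refl => exact ⟨r, rfl, ReflTransGen.refl, fun k => (k rfl).elim⟩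
        | tail _ j ih =>
          obtain ⟨e, he, rfl, rfl⟩ := j
          obtain ⟨y, j1, j2, -⟩ := ih
          rcases cutT_cases t h r e with k | k | k
          · simp [k.2] at j1
          · exact ⟨_, rfl, (rch_of_lam (hS.trans_lt k.2.1)).tail ⟨e, he, rfl, rfl⟩, fun _ => k.1⟩
          · obtain rfl := Option.some.inj (k.2.2.symm.trans j1)
            exact ⟨_, rfl, j2.tail ⟨e, he, rfl, rfl⟩, fun _ => k.1⟩
      rw [← le_aleph0_iff_set_countable]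
      by_cases k : ∃ y, v = some y ∧ lam t h r y ≤ ℵ₀
      · obtain ⟨y, rfl, k⟩ := k
        obtain ⟨S, j1, j2⟩ := cut_of_lam (t := t) (h := h) (x := r) (y := y)
          fun i => hv (congrArg some i.symm)
        have j3 := j1.trans (max_le le_rfl k)
        refine (fam_le hFam fun i => ?_).trans j3
        obtain ⟨z, i1, i2, -⟩ := key S j3 _ i
        exact j2 (Option.some.inj i1 ▸ i2)
      · refine (fam_le (S := ∅) hFam fun i => ?_).trans (by simp)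
        obtain ⟨z, i1, -, i2⟩ := key ∅ (by simp) _ i
        exact k ⟨z, i1, i2 fun l => hv (l ▸ i1)⟩) (by
      intro v hv
      by_cases k : ∃ x, v = some x ∧ lam t h r x ≤ ℵ₀
      swap
      · exact lk_empty.mono Subset.rfl fun a ha => k ⟨h a, ha.2.symm, ha.1.2⟩
      obtain ⟨x, rfl, k⟩ := k
      have hx : x ≠ r := fun i => hv (congrArg some i)
      obtain ⟨U, M, j1, j2⟩ := ((hF x hx).ll fun a ha => ha.2).shrink
        (I' := Om t h r (lev t h r x) \ {x}) (fun y hy => ⟨hy.1.1, hy.2⟩) Subset.rfl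
        (T' := {a | a ∈ F ∧ h a = x}) fun a ha => ⟨ha, ha.2⟩
      have j3 : ∀ a ∈ U, lam t h r (h a) ≤ ℵ₀ := fun a ha =>
        (j1.hIB ha).elim (fun i => ((om_light k).1 i.1).2) fun i => i ▸ k
      refine ⟨U, M, j1.ff.pull (fun a ha => out x a hx k (j3 a ha)) fun a b hab => ?_,
        fun a ha => ⟨j1.sub ha, j3 a ha⟩, fun a ha i => j1.tB ha (cutT_some i hx).1,
        fun a ha => j2 ⟨ha.1.1, Option.some.inj ha.2⟩⟩
      rw [cutT_light (j3 a (j1.ff.meml hab)) ((om_light k).1 (j1.ff.int hab).1).2, j1.ff.adj hab])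
  refine ⟨{a | a ∈ L ∧ lam t h r (h a) ≤ ℵ₀}, fun a ha => ha.2, fun a j1 j2 => ⟨k1 ⟨j1, j2⟩, j2⟩,
    fun x hx k => ?_, fun e j1 j2 => ?_⟩
  · obtain ⟨U, M, j1, j2, j3, j4⟩ := k2 (some x) fun i => hx (Option.some.inj i)
    have j5 : ∀ a ∈ U, lam t h r (h a) ≤ ℵ₀ := fun a ha => by
      rcases cutT_cases t h r a with i | i | i
      · obtain ⟨b, l⟩ := j1.tot ha (by simp [i.2])
        have := j1.adj l
        simp [i.2] at this
      · exact i.1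
      · exact i.1
    refine ⟨U, M, ⟨j1.pull (fun a ha => (out x a hx k (j5 a ha)).symm)
      fun a b hab => (cutT_some (j1.adj hab) (hr b)).1, fun a ha => ⟨j2 ha, j5 a ha⟩,
      fun a ha i => j3 a ha ?_, fun a ha => ?_, ls_univ _ _ _⟩,
      fun a ha => j4 ⟨ha.1.1, congrArg some ha.2⟩⟩
    · rw [cutT_light (j5 a ha) (i ▸ k)]
      exact congrArg some i
    · by_cases i : h a = x
      · exact Or.inr i
      · exact Or.inl ⟨(om_light k).2 ⟨hr a, j5 a ha⟩, i⟩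
  · obtain ⟨Y, U, M, hw, hcl, -⟩ := bubble_all k3 (x := some (h e))
      fun i => hr e (Option.some.inj i)
    have ne : ∀ y, some y ∈ Y → y ≠ r := fun y i l => hw.rY (l ▸ i)
    have tl : ∀ a, lam t h r (h a) ≤ ℵ₀ → cutT t h r a ∈ {some (h e)} ∪ Y →
        t a = h e ∨ (some (t a) ∈ Y ∧ lam t h r (t a) ≤ ℵ₀) := by
      rintro a i (l | l)
      · exact Or.inl (cutT_some l (hr e)).1
      · obtain ⟨y, m⟩ := cutT_ex i
        rw [m] at l
        obtain ⟨rfl, n, -⟩ := cutT_some m (ne y l)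
        exact Or.inr ⟨l, n⟩
    have ff := hw.ff.restrict (Y' := Y) (C := {a | a ∈ U ∧ lam t h r (h a) ≤ ℵ₀})
      (fun a ha i => ⟨ha.1, i⟩) fun a b hab _ i =>
        ⟨hw.ff.memr hab, (cutT_some (hw.ff.adj hab).symm (hr a)).2.2⟩
    refine ⟨{y | some y ∈ Y ∧ lam t h r y ≤ ℵ₀}, fun y hy => (om_light j1).2 ⟨ne y hy.1, hy.2⟩,
      _, _, ⟨ff.pull (fun a ha => ⟨fun i => ⟨i, ha.2⟩, fun i => i.1⟩)
        fun a b hab => (cutT_some (hw.ff.adj hab.1).symm (hr a)).1.symm, subset_univ _,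
        fun i => ne r i.1 rfl, fun y hy i => hw.dis hy.1 (congrArg some i),
        fun a ha i => hw.tB ha.1 ?_, fun a ha => (hw.hYB ha.1).imp (fun i => ⟨i, ha.2⟩)
          fun i => Option.some.inj i, fun a _ i1 i2 i3 => ?_⟩,
      fun a ha => ⟨hw.sub ha.1, ha.2⟩, ?_⟩
    · rw [cutT_light ha.2 (i ▸ j1)]
      exact congrArg some i
    · have i4 : cutT t h r a ∉ {some (h e)} ∪ Y := fun l => (tl a i1.2 l).elim i3 i2
      exact ⟨hw.ent (hcl a (Or.inr i1.1) i4) i1.1 (fun l => i4 (Or.inr l))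
        fun l => i4 (Or.inl l), i1.2⟩
    · exact (tl e j1 (by_contra fun l => j2 ⟨hcl e (Or.inl rfl) l, j1⟩)).resolve_left (hloop e)

theorem good_start (hr : ∀ e, h e ≠ r) (hloop : ∀ e, t e ≠ h e)
    (hF : ∀ x, x ≠ r → Lk t h r F {x} {a | a ∈ F ∧ h a = x}) : ∃ A Φ, Good t h r F A Φ := by
  obtain ⟨L, k1, k2, k3, k4⟩ := light hr hloop hF
  refine ⟨{x | ℵ₀ < lam t h r x → ∀ e, h e = x → e ∈ F}, F ∪ L, subset_union_left,
    fun a ha k => ha.resolve_right fun j => k fun i => (i.not_ge (k1 a j)).elim,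
    fun x _ hx => ?_, fun e j1 j2 => ?_, fun x hx => ?_⟩
  · rcases le_or_gt (lam t h r x) ℵ₀ with k | k
    · exact (k3 x hx k).mono subset_union_right
        fun a ha => ⟨ha.1.elim (fun j => k2 a j (ha.2 ▸ k)) id, ha.2⟩
    · exact (((hF x hx).ll fun a ha => ha.2).shrink (fun y hy => ⟨hy.1.1, hy.2⟩) Subset.rfl
        fun a ha => ⟨⟨ha.1.resolve_right fun j => k.not_ge (ha.2 ▸ k1 a j), ha.2⟩, ha.2⟩).mono
        subset_union_left Subset.rfl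
  · exact (k4 e (not_lt.1 fun k => j2 (Or.inl (j1 k e rfl))) fun k => j2 (Or.inr k)).mono
      subset_union_right Subset.rfl
  · simp only [mem_ofPred_eq, not_forall] at hx
    obtain ⟨k, e, i, j⟩ := hx
    exact ⟨k, e, j, i⟩

theorem exists_fin_pred {R : V → V → Prop} {S : Set V} (hS : S.Nonempty)
    (H : ¬ ∃ u : ℕ → V, Injective u ∧ ∀ n, u n ∈ S ∧ R (u (n + 1)) (u n)) :
    ∃ v ∈ S, {w | w ∈ S ∧ R w v}.Finite := by
  by_contra hn
  obtain ⟨v, hv⟩ := hS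
  obtain ⟨f, -, hf⟩ := exists_seq (fun p : V × Set V => p.1 ∈ S ∧ p.1 ∈ p.2 ∧ p.2.Finite)
    (fun _ p q => R q.1 p.1 ∧ q.1 ∉ p.2 ∧ p.2 ⊆ q.2) (v, {v}) ⟨hv, rfl, finite_singleton v⟩ (by
      rintro - ⟨x, X⟩ ⟨k1, -, k3⟩
      obtain ⟨y, j1, j2⟩ := Set.Infinite.exists_notMem_finite (s := {w | w ∈ S ∧ R w x})
        (fun k => hn ⟨x, k1, k⟩) k3
      exact ⟨(y, insert y X), ⟨j1.1, Or.inl rfl, k3.insert y⟩, j1.2, j2, subset_insert _ _⟩)
  have mono : Monotone fun n => (f n).2 := monotone_nat_of_le_succ fun n => (hf n).2.2.2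
  refine H ⟨fun n => (f n).1, Injective.of_lt_imp_ne fun m n k j => ?_,
    fun n => ⟨(hf n).1.1, (hf n).2.1⟩⟩
  obtain ⟨n, rfl⟩ := Nat.exists_eq_add_of_lt k
  exact (hf _).2.2.1 (mono (Nat.le_add_right m n) (j ▸ (hf m).1.2.1))

theorem large_flame_levels (hr : ∀ e, h e ≠ r) (hloop : ∀ e, t e ≠ h e) (hF : IsFlame t h r F)
    {B : Set V} (H : ∀ e, e ∉ F → ℵ₀ < lam t h r (h e) → h e ∉ B → Thin t h r F (h e))
    (hB : ¬ ∃ u : ℕ → V, Injective u ∧ ∀ n, u n ∈ B ∧ lam t h r (u (n + 1)) = lam t h r (u n) ∧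
      ∃ P, IsPath t h (u (n + 1)) (u n) P ∧ ∀ e ∈ P, lam t h r (t e) ≤ lam t h r (u n)) :
    ∃ L, F ⊆ L ∧ IsFlame t h r L ∧ IsLarge t h r L := by
  let S := {p : Set V × Set E // Good t h r F p.1 p.2}
  let R : S → S → Prop := fun p q =>
    p.1.1 ⊆ q.1.1 ∧ p.1.2 ⊆ q.1.2 ∧ ∀ a ∈ q.1.2, h a ∈ p.1.1 → a ∈ p.1.2
  obtain ⟨A0, Φ0, h0⟩ := good_start hr hloop hF.lk
  have : Nonempty S := ⟨⟨(A0, Φ0), h0⟩⟩
  obtain ⟨⟨⟨A, L⟩, g⟩, hmax⟩ := exists_maximal_of_nonempty_chains_bounded (r := R)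
    (by
      intro C hC ⟨p0, hp0⟩
      have sub : ∀ p ∈ C, p.1.2 ⊆ ⋃ q ∈ C, q.1.2 := fun p hp =>
        subset_biUnion_of_mem (u := fun q : S => q.1.2) hp
      have key : ∀ p ∈ C, ∀ a ∈ ⋃ q ∈ C, q.1.2, h a ∈ p.1.1 → a ∈ p.1.2 := by
        intro p hp a h1 ha
        obtain ⟨q, hq, h2⟩ := mem_iUnion₂.1 h1
        by_cases hpq : p = q
        · exact hpq ▸ h2
        exact (hC hp hq hpq).elim (fun h3 => h3.2.2 a h2 ha) fun h3 => h3.2.1 h2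
      refine ⟨⟨(⋃ q ∈ C, q.1.1, ⋃ q ∈ C, q.1.2), p0.2.g1.trans (sub p0 hp0), ?_, ?_, ?_,
        fun x k => p0.2.g5 x fun j => k (mem_biUnion hp0 j)⟩, fun p hp =>
          ⟨subset_biUnion_of_mem (u := fun q : S => q.1.1) hp, sub p hp, key p hp⟩⟩
      · intro a h1 k
        obtain ⟨q, hq, h2⟩ := mem_iUnion₂.1 h1
        exact q.2.g2 a h2 fun j => k (mem_biUnion hq j)
      · intro x h1 hx
        obtain ⟨q, hq, h2⟩ := mem_iUnion₂.1 h1
        exact (q.2.g3 x h2 hx).mono (sub q hq) fun a ha => ⟨key q hq a ha.1 (ha.2 ▸ h2), ha.2⟩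
      · intro e h1 k
        obtain ⟨q, hq, h2⟩ := mem_iUnion₂.1 h1
        exact (q.2.g4 e h2 fun j => k (sub q hq j)).mono (sub q hq) Subset.rfl)
    (fun h1 h2 => ⟨h1.1.trans h2.1, h1.2.1.trans h2.2.1,
      fun a ha k => h1.2.2 a (h2.2.2 a ha (h1.1 k)) k⟩)
  dsimp only at g
  have hA : ∀ v, v ∈ A := by
    by_contra hn
    obtain ⟨_, ⟨v, hv, rfl⟩, k⟩ := WellFounded.has_min (wellFounded_lt (α := Cardinal.{u}))
      (lam t h r '' Aᶜ) ((not_forall.1 hn).imp (fun _ k => k) |> Nonempty.image _)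
    have hκ : ∀ x, x ∉ A → lam t h r v ≤ lam t h r x := fun x hx => not_lt.1 (k _ ⟨x, hx, rfl⟩)
    obtain ⟨κ, hκv⟩ : ∃ κ, lam t h r v = κ := ⟨_, rfl⟩
    have h0 : ℵ₀ < κ := hκv ▸ (g.g5 v hv).1
    rw [hκv] at hκ
    have hom : ∀ x, x ∉ A → lam t h r x = κ → x ∈ Om t h r κ := fun x k1 k2 => by
      obtain ⟨-, e, -, j⟩ := g.g5 x k1
      exact ⟨j ▸ hr e, max_le h0.le k2.le⟩
    have hT : ∀ w, w ∉ A → w ∉ B → Thin t h r F w := fun w k1 k2 => by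
      obtain ⟨j1, e, j2, rfl⟩ := g.g5 w k1
      exact H e j2 j1 k2
    let S : Set V := {w | w ∈ B ∧ w ∉ A ∧ lam t h r w = κ}
    have hS : ∀ w ∈ Om t h r κ, w ∉ A → w ∉ S → Thin t h r F w := fun w k1 k2 k3 =>
      hT w k2 fun j => k3 ⟨j, k2, le_antisymm ((le_max_right _ _).trans k1.2) (hκ w k2)⟩
    rcases S.eq_empty_or_nonempty with k | k
    · obtain ⟨A', Φ', k1, k2, k3, k4, k5⟩ := g.step hr hloop hF.lk h0 hκ Subset.rfl
        (fun _ _ j => j) (finite_singleton v) (fun w j => j ▸ ⟨hom v hv hκv, hv⟩)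
        fun w j1 j2 _ => hS w j1 j2 (k ▸ id)
      exact hv ((hmax ⟨(A', Φ'), k1⟩ ⟨k2, k3, k4⟩).1 (k5 rfl))
    obtain ⟨x, hx, hfin⟩ := exists_fin_pred (R := Rch t h {e | t e ∈ Om t h r κ}) k (by
      rintro ⟨u, k1, k2⟩
      refine hB ⟨u, k1, fun n => ⟨(k2 n).1.1, (k2 _).1.2.2.trans (k2 n).1.2.2.symm, ?_⟩⟩
      obtain ⟨p, j1, j2, j3⟩ := exists_path (k2 n).2
      exact ⟨_, ⟨p, j1, j2, rfl⟩, fun e he =>
        (k2 n).1.2.2 ▸ (le_max_right _ _).trans (j3 e he).2⟩)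
    obtain ⟨A', Φ', k1, k2, k3, k4, k5⟩ := g.step hr hloop hF.lk h0 hκ
      (An := {y | y ∈ Om t h r κ ∧ Rch t h {e | t e ∈ Om t h r κ} y x}) (fun _ j => j.1)
      (fun a j1 j2 => ⟨j2, ReflTransGen.head ⟨a, j2, rfl, rfl⟩ j1.2⟩) hfin
      (fun w j => ⟨⟨hom w j.1.2.1 j.1.2.2, j.2⟩, j.1.2.1⟩)
      fun w j1 j2 j3 => hS w j1.1 j2 fun j => j3 ⟨j, j1.2⟩
    exact hx.2.1 ((hmax ⟨(A', Φ'), k1⟩ ⟨k2, k3, k4⟩).1 (k5 ⟨hx, ReflTransGen.refl⟩))
  have hL : IsLarge t h r L := isLarge_of_just' fun e he => (g.g4 e (hA _) he).just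
  refine ⟨L, g.g1, isFlame_of_lk fun x hx => ?_, hL⟩
  have hxΩ : x ∈ Om t h r (lev t h r x) := ⟨hx, le_rfl⟩
  exact lk_ext (θ := Order.succ (lev t h r x)) (Order.lt_succ_iff.2 (le_max_left _ _)) hx
    (fun k => k.2 rfl) (g.g3 x (hA x) hx) (fun a ha => ha.2)
    (Order.lt_succ_iff.2 (om_cnt (g.g3 x (hA x) hx) hxΩ fun a ha => ha.2))
    fun y k1 k2 Z k3 => hL.avoid' hxΩ (fun k => k1 ⟨k, k2⟩) (Order.lt_succ_iff.1 k3)

theorem large_flame_chains (hr : ∀ e, h e ≠ r) (hloop : ∀ e, t e ≠ h e) (hF : IsFlame t h r F)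
    {B : Set V} (H : ∀ e, e ∉ F → ℵ₀ < lam t h r (h e) → h e ∉ B →
      #{a | a ∈ F ∧ h a = h e} < lam t h r (h e) ∧
      ((∃ μ < lam t h r (h e), ∀ y, y ≠ h e → lam t h r y = lam t h r (h e) →
          lam t h (h e) y ≤ μ) ∨
        ((lam t h r (h e)).IsRegular ∧ ∀ y, y ≠ h e → lam t h r y = lam t h r (h e) →
          lam t h (h e) y < lam t h r (h e))))
    (hB : ¬ ∃ u : ℕ → V, Injective u ∧ ∀ n, u n ∈ B ∧ lam t h r (u (n + 1)) = lam t h r (u n) ∧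
      ∃ P, IsPath t h (u (n + 1)) (u n) P ∧ ∀ e ∈ P, lam t h r (t e) ≤ lam t h r (u n)) :
    ∃ L, F ⊆ L ∧ IsFlame t h r L ∧ IsLarge t h r L := by
  refine large_flame_levels hr hloop hF (fun e k1 k2 k0 =>
    ⟨hr e, k2, (H e k1 k2 k0).1, fun J y k3 => ?_⟩) hB
  rcases (H e k1 k2 k0).2 with ⟨μ, k4, k5⟩ | ⟨k4, k5⟩
  · exact ⟨μ, k4, fun j => k5 (y j)⟩
  · let J' := {j // y j ≠ h e ∧ lam t h r (y j) = lam t h r (h e)}
    exact ⟨⨆ j : J', lam t h (h e) (y j), iSup_lt_of_lt_cof_ord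
      (k4.cof_ord.symm ▸ (mk_subtype_le _).trans_lt k3) fun j => k5 _ j.2.1 j.2.2, fun j j1 j2 =>
      le_ciSup (f := fun j : J' => lam t h (h e) (y j)) bddAbove_of_small ⟨j, j1, j2⟩⟩

end Pool.Agent.P.MP_133cc4_co
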