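import Pool.Agent.P.MP_133cc4_co.BMain
import Pool.Agent.P.MP_133cc4_co.LFinal

/-! Domination, and the world behind a vertex. -/

namespace Pool.Agent.P.MP_133cc4_co

open Set Function Relation Cardinal

universe u

variable {V : Type*} {E : Type u} {t h : E → V} {r s u v w x y : V} {D F G K L N S : Set E}
  {Ω : Set V} {θ : Cardinal.{u}}

theorem ctbl_iff (s : Set E) : s.Countable ↔ #s < ℵ₁ := by
  rw [← le_aleph0_iff_set_countable, lt_aleph_one_iff]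

theorem rich_of_just (hJ : ∀ e ∈ D, e ∉ L → Just t h r L e)
    (H : ∀ Z : Set E, #Z < θ → Rch t h (D \ Z) r y) (Z : Set E) (hZ : #Z < θ) :
    Rch t h (L \ Z) r y := by
  by_cases hy : y = r
  · exact hy ▸ ReflTransGen.refl
  obtain ⟨Y, U, M, h1, -, -, h3⟩ := exists_max_ws t h r L {y}
  have hr : r ∉ {y} ∪ Y := fun k => k.elim (fun j => hy j.symm) h1.rY
  obtain ⟨Fam, h4, h5, -, h6⟩ := family_of_bubble hy h1 (fun a ha => ha.2.1)
    (lk_of_not_hd hr (not_hd_of_loose h3))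
  by_contra hn
  have h7 : #(Del t h L ({y} ∪ Y)) ≤ #Z := by
    choose P k1 k2 using fun c : Del t h L ({y} ∪ Y) => h5 c.2
    have : ∀ c, ∃ a ∈ P c, a ∈ Z := fun c => by
      obtain ⟨a, j1, j2⟩ := (h4.1 _ (k1 c)).1.meet (S := (L \ Z)ᶜ) (by rwa [compl_compl])
      exact ⟨a, j1, by_contra fun k => j2 ⟨(h4.1 _ (k1 c)).2 j1, k⟩⟩
    choose g j1 j2 using this
    refine mk_le_of_injective (f := fun c => (⟨g c, j2 c⟩ : Z)) fun c d k => ?_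
    have e : P c = P d := by_contra fun j =>
      disjoint_left.1 (h4.2 (k1 c) (k1 d) j) (j1 c) ((Subtype.mk.inj k).symm ▸ j1 d)
    obtain ⟨b, -, -, i⟩ := h6 _ (k1 c)
    exact Subtype.ext ((i c (k2 c) c.2.2.2 c.2.2.1).trans
      (i d (e ▸ k2 d) d.2.2.2 d.2.2.1).symm)
  obtain ⟨p, j1, -, j2⟩ := exists_path (H _ (h7.trans_lt hZ))
  obtain ⟨e, j3, j4, j5⟩ := j1.cross hr (Or.inl rfl)
  refine (j2 e j3).2 ⟨by_contra fun k => ?_, j5, j4⟩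
  obtain ⟨Y', U', M', i1, i2⟩ := hJ e (j2 e j3).1 k
  obtain ⟨U'', M'', i3, -⟩ := i1.enlarge (B' := {y} ∪ Y) (singleton_subset_iff.2 j5)
  exact (eq_empty_iff_forall_notMem.1 (h3 _ ⟨_, _, i3⟩)) _ ⟨i2, j4⟩

theorem Rich.two (h0 : ℵ₀ ≤ θ) (H1 : ¬ Rich t h r θ G w s) (H2 : ¬ Rich t h r θ G u v) :
    ∃ Z : Set E, #Z < θ ∧ ¬ Rch t h {e | e ∈ G \ Z ∧ h e ≠ w} r s ∧
      ¬ Rch t h {e | e ∈ G \ Z ∧ h e ≠ u} r v := by
  simp only [Rich, not_forall] at H1 H2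
  obtain ⟨Z1, k1, k2⟩ := H1
  obtain ⟨Z2, k3, k4⟩ := H2
  exact ⟨Z1 ∪ Z2, mk_union_lt h0 k1 k3,
    fun k => k2 (k.mono fun e j => ⟨⟨j.1.1, fun i => j.1.2 (Or.inl i)⟩, j.2⟩),
    fun k => k4 (k.mono fun e j => ⟨⟨j.1.1, fun i => j.1.2 (Or.inr i)⟩, j.2⟩)⟩

theorem dom_trans (h0 : ℵ₀ ≤ θ) (H1 : ¬ Rich t h r θ G w u) (H2 : ¬ Rich t h r θ G u s) :
    ¬ Rich t h r θ G w s := fun H => by
  obtain ⟨Z, k1, k2, k3⟩ := Rich.two h0 H1 H2
  exact ((H Z k1).split u).elim (fun k => k3 (k.mono fun e j => ⟨j.1.1, j.2⟩)) fun k => k2 k.1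

theorem dom_asym (h0 : ℵ₀ ≤ θ) (hs : ∀ Z : Set E, #Z < θ → Rch t h (G \ Z) r s) (hw : w ≠ s)
    (H1 : ¬ Rich t h r θ G w s) (H2 : ¬ Rich t h r θ G s w) : False := by
  obtain ⟨Z, k1, k2, k3⟩ := Rich.two h0 H1 H2
  have key : ∀ v, Rch t h (G \ Z) r v → Rch t h {e | e ∈ G \ Z ∧ h e ≠ w ∧ h e ≠ s} r v := by
    intro v hv
    induction hv with
    | refl => exact ReflTransGen.refl
    | tail _ j ih =>
      obtain ⟨e, he, rfl, rfl⟩ := j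
      refine ih.tail ⟨e, ⟨he, fun k => k3 ?_, fun k => k2 ?_⟩, rfl, rfl⟩
      · exact (Rch.mono ih fun a j => And.intro j.1 j.2.2).tail ⟨e, ⟨he, k ▸ hw⟩, rfl, k⟩
      · exact (Rch.mono ih fun a j => And.intro j.1 j.2.1).tail ⟨e, ⟨he, k ▸ hw.symm⟩, rfl, k⟩
  exact k2 ((key s (hs Z k1)).mono fun a j => ⟨j.1, j.2.1⟩)

theorem dom_lin (h0 : ℵ₀ ≤ θ) (hs : ∀ Z : Set E, #Z < θ → Rch t h (G \ Z) r s)
    (H1 : ¬ Rich t h r θ G w s) (H2 : ¬ Rich t h r θ G u s) (H3 : Rich t h r θ G w u)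
    (H4 : Rich t h r θ G u w) : False := by
  obtain ⟨Z, k1, k2, k3⟩ := Rich.two h0 H1 H2
  have key : ∀ v, Rch t h (G \ Z) r v → Rch t h {e | e ∈ G \ Z ∧ h e ≠ w} r v ∨
      Rch t h {e | e ∈ G \ Z ∧ h e ≠ u} r v := by
    intro v hv
    induction hv with
    | refl => exact Or.inl ReflTransGen.refl
    | tail _ j ih =>
      obtain ⟨e, he, rfl, rfl⟩ := j
      by_cases i1 : h e = w
      · exact Or.inr (i1 ▸ H4 Z k1)
      by_cases i2 : h e = u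
      · exact Or.inl (i2 ▸ H3 Z k1)
      exact ih.imp (fun k => k.tail ⟨e, ⟨he, i1⟩, rfl, rfl⟩) fun k => k.tail ⟨e, ⟨he, i2⟩, rfl, rfl⟩
  exact (key s (hs Z k1)).elim k2 k3

theorem dom_fin (hs : ∀ Z : Set E, #Z < ℵ₁ → Rch t h (G \ Z) r s) :
    {w | ¬ Rich t h r ℵ₁ G w s}.Finite := by
  by_contra hn
  let g := Set.Infinite.natEmbedding _ hn
  have : ∀ n, ∃ Z : Set E, Z.Countable ∧ ¬ Rch t h {e | e ∈ G \ Z ∧ h e ≠ g n} r s := fun n => by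
    have k := (g n).2
    simp only [Rich, mem_ofPred_eq, not_forall] at k
    obtain ⟨Z, k1, k2⟩ := k
    exact ⟨Z, (ctbl_iff _).2 k1, k2⟩
  choose Z k1 k2 using this
  obtain ⟨p, j1, -, j2⟩ := exists_path
    (hs _ ((ctbl_iff _).1 (countable_iUnion k1)))
  refine infinite_range_of_injective (Subtype.val_injective.comp g.injective)
    ((List.finite_toSet (p.map h)).subset ?_)
  rintro _ ⟨n, rfl⟩
  by_contra k
  exact k2 n (j1.rch.mono fun e he => ⟨⟨(j2 e he).1, fun i => (j2 e he).2 (mem_iUnion.2 ⟨n, i⟩)⟩,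
    fun i => k (List.mem_map.2 ⟨e, he, i⟩)⟩)

theorem one_wave (hK : K ⊆ D) (H : ∀ e ∈ D, h e = x → e ∉ K → JI t h r D K Ω e) :
    ∃ Y U M, Wave t h r D {x} Y U M ∧ U ⊆ K ∧ ∀ e ∈ D, h e = x → e ∉ K → t e ∈ Y := by
  obtain ⟨Y, U, M, k1, k2, k3, -⟩ := exists_max_wave t h r {a | a ∈ D ∧ (h a = x → a ∈ K)} {x}
    (fun s => s ⊆ K) fun s s' k j => k.trans j
  refine ⟨Y, U, M, k1.regraph (fun a ha => (k1.sub ha).1)
    fun a ha j _ _ => ⟨ha, fun i => (k1.dis j i).elim⟩, fun a ha => (k1.hYB ha).elim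
      (fun j => k2 _ j ⟨ha, rfl⟩) (k1.sub ha).2, fun e j1 j2 j3 => ?_⟩
  obtain ⟨Y', -, U', M', i1, i2, i3⟩ := H e j1 j2 j3
  exact k3 Y' U' M' (j2 ▸ i1.regraph (fun a ha => ⟨hK (i2 ha), fun _ => i2 ha⟩)
    fun a ha _ _ _ => ha.1) (fun y _ a ha => i2 ha.1) i3

open Classical in
/-- The tail map of the world behind `w`. -/
noncomputable def wT (t h : E → V) (r w : V) (G N : Set E) (Ω : Set V) (e : E) : Option V :=
  if e ∈ N then some r else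
    if e ∈ G ∧ h e ∈ Ω then (if t e ∈ insert w Ω then some (t e) else some r) else none

theorem wT_cases (t h : E → V) (r w : V) (G N : Set E) (Ω : Set V) (e : E) :
    (e ∈ N ∧ wT t h r w G N Ω e = some r) ∨
    ((e ∈ G ∧ h e ∈ Ω) ∧ t e ∈ insert w Ω ∧ wT t h r w G N Ω e = some (t e)) ∨
    ((e ∈ G ∧ h e ∈ Ω) ∧ t e ∉ insert w Ω ∧ wT t h r w G N Ω e = some r) ∨
    (¬ (e ∈ G ∧ h e ∈ Ω) ∧ wT t h r w G N Ω e = none) := by
  unfold wT
  split_ifs with k1 k2 k3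
  · exact Or.inl ⟨k1, rfl⟩
  · exact Or.inr (Or.inl ⟨k2, k3, rfl⟩)
  · exact Or.inr (Or.inr (Or.inl ⟨k2, k3, rfl⟩))
  · exact Or.inr (Or.inr (Or.inr ⟨k2, rfl⟩))

theorem wT_some {e : E} (H : wT t h r w G N Ω e = some y) (hy : y ≠ r) :
    t e = y ∧ (e ∈ G ∧ h e ∈ Ω) ∧ y ∈ insert w Ω := by
  rcases wT_cases t h r w G N Ω e with k | k | k | k
  · exact (hy (Option.some.inj (k.2.symm.trans H)).symm).elim
  · obtain rfl := Option.some.inj (k.2.2.symm.trans H)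
    exact ⟨rfl, k.1, k.2.1⟩
  · exact (hy (Option.some.inj (k.2.2.symm.trans H)).symm).elim
  · simp [k.2] at H

theorem wT_in {e : E} (h1 : e ∉ N) (h2 : e ∈ G ∧ h e ∈ Ω) :
    (t e ∈ insert w Ω ∧ wT t h r w G N Ω e = some (t e)) ∨
      (t e ∉ insert w Ω ∧ wT t h r w G N Ω e = some r) := by
  rcases wT_cases t h r w G N Ω e with k | k | k | k
  · exact (h1 k.1).elim
  · exact Or.inl k.2
  · exact Or.inr k.2
  · exact (k.1 h2).elim

theorem world (hr : ∀ e, h e ≠ r) (hloop : ∀ e, t e ≠ h e) (hrΩ : r ∉ Ω) (hw : w ∉ Ω)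
    {ν : ℕ → E} (hν : Injective ν) (hνw : ∀ n, h (ν n) = w)
    (hin : ∀ y ∈ Ω, ¬ Rich t h r ℵ₁ G w y) (hout : ∀ y, y ∉ Ω → y ≠ w → Rich t h r ℵ₁ G w y)
    (hFG : F ⊆ G) (hF : ∀ x ∈ Ω, LL t h Set.univ F (Ω \ {x}) {x} {a | a ∈ F ∧ h a = x} ∧
      #{a | a ∈ F ∧ h a = x} < ℵ₁) :
    ∃ L ⊆ G, (∀ a ∈ L, h a ∈ Ω) ∧ (∀ a ∈ F, h a ∈ Ω → a ∈ L) ∧
      (∀ x ∈ Ω, LL t h Set.univ L (Ω \ {x}) {x} {a | a ∈ L ∧ h a = x} ∧
        #{a | a ∈ L ∧ h a = x} < ℵ₁) ∧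
      ∀ e ∈ G, h e ∈ Ω → t e ≠ w → e ∉ L →
        JI t h r {a | a ∈ G ∧ t a ≠ w} {a | a ∈ L ∧ t a ≠ w} Ω e := by
  have nN : ∀ a, h a ∈ Ω → a ∉ range ν := by
    rintro _ k ⟨n, rfl⟩
    exact hw (hνw n ▸ k)
  have tN : ∀ a ∈ range ν, wT t h r w G (range ν) Ω a = some r := fun a k => if_pos k
  have ne : ∀ y ∈ Ω, y ≠ r := fun y k j => hrΩ (j ▸ k)
  have out : ∀ x a, a ∈ G ∧ h a ∈ Ω → (t a ∈ Ω \ {x} ↔
      wT t h r w G (range ν) Ω a ∈ {v | ∃ y ∈ Ω \ {x}, v = some y}) := fun x a k =>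
    ⟨fun j => ⟨_, j, ((wT_in (nN a k.2) k).resolve_right fun i => i.1 (Or.inr j.1)).2⟩,
      fun ⟨y, j, i⟩ => (wT_some i (ne y j.1)).1 ▸ j⟩
  have hc : ∀ v, v ≠ some r → ∀ Fam, PathFamily (wT t h r w G (range ν) Ω) (fun e => some (h e))
      (some r) v Set.univ Fam → Fam.Countable := by
    intro v hv Fam hFam
    obtain ⟨Z, k1, k2⟩ : ∃ Z : Set E, #Z < ℵ₁ ∧
        ∀ y ∈ Ω, v = some y → ¬ Rch t h {e | e ∈ G \ Z ∧ h e ≠ w} r y := by
      by_cases k : ∃ y ∈ Ω, v = some y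
      · obtain ⟨y, j, rfl⟩ := k
        have i := hin y j
        simp only [Rich, not_forall] at i
        obtain ⟨Z, i1, i2⟩ := i
        exact ⟨Z, i1, fun y' _ l => Option.some.inj l ▸ i2⟩
      · exact ⟨∅, by simp, fun y j i => (k ⟨y, j, i⟩).elim⟩
    have key : ∀ v, Rch (wT t h r w G (range ν) Ω) (fun e => some (h e)) (Z ∪ range ν)ᶜ (some r) v →
        ∃ y, v = some y ∧ (y = r ∨ y ∈ Ω) ∧ Rch t h {e | e ∈ G \ Z ∧ h e ≠ w} r y := by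
      intro v H
      induction H with
      | refl => exact ⟨r, rfl, Or.inl rfl, ReflTransGen.refl⟩
      | tail _ j ih =>
        obtain ⟨e, he, rfl, rfl⟩ := j
        obtain ⟨y, j1, -, j2⟩ := ih
        have j3 : e ∈ G ∧ h e ∈ Ω → e ∈ {e | e ∈ G \ Z ∧ h e ≠ w} := fun k =>
          ⟨⟨k.1, fun i => he (Or.inl i)⟩, fun i => hw (i ▸ k.2)⟩
        rcases wT_cases t h r w G (range ν) Ω e with k | k | k | k
        · exact (he (Or.inr k.1)).elim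
        · obtain rfl := Option.some.inj (k.2.2.symm.trans j1)
          exact ⟨_, rfl, Or.inr k.1.2, j2.tail ⟨e, j3 k.1, rfl, rfl⟩⟩
        · exact ⟨_, rfl, Or.inr k.1.2, (hout _ (fun i => k.2.1 (Or.inr i))
            (fun i => k.2.1 (Or.inl i)) Z k1).tail ⟨e, j3 k.1, rfl, rfl⟩⟩
        · simp [k.2] at j1
    rw [ctbl_iff]
    refine (fam_le (S := Z ∪ range ν) hFam fun i => ?_).trans_lt (mk_union_lt aleph0_lt_aleph_one.le
      k1 ((ctbl_iff _).1 (countable_range ν)))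
    obtain ⟨y, i1, i2, i3⟩ := key _ i
    exact k2 y (i2.resolve_left fun l => hv (l ▸ i1)) i1 i3
  obtain ⟨L, k1, k2, k3⟩ := conn_core (t := wT t h r w G (range ν) Ω) (h := fun e => some (h e))
    (r := some r) (F := range ν ∪ {a | a ∈ F ∧ h a ∈ Ω}) (fun e k => hr e (Option.some.inj k))
    (fun e k => hloop e (wT_some k (hr e)).1) hc (by
      intro v hv
      by_cases k : ∃ x ∈ Ω, v = some x
      swap
      · refine ((ll_empty (F := Set.univ)).add (out_disjoint _ _)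
          (S := {a | a ∈ range ν ∧ some (h a) = v}) fun a ha => ⟨Or.inl ha.1, ha.2,
            fun j => j.1 (tN a ha.1), fun j => hv (j.symm.trans (tN a ha.1))⟩).lk.mono Subset.rfl
          fun a ha => Or.inr ⟨ha.1.resolve_right fun j => k ⟨_, j.2, ha.2.symm⟩, ha.2⟩
      obtain ⟨x, hx, rfl⟩ := k
      obtain ⟨Q, q1, q2, U, M, j1, j2⟩ := (hF x hx).1.few aleph0_lt_aleph_one (fun j => j.2 rfl)
        (fun a ha => ha.2) (hF x hx).2
      obtain ⟨g, hg⟩ := countable_iff_exists_injOn.1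
        (((ctbl_iff _).2 q2).mono j1.sub)
      have j3 : ∀ a ∈ U, a ∈ G ∧ h a ∈ Ω := fun a ha =>
        ⟨hFG (q1 (j1.sub ha)), (j1.hIB ha).elim (fun i => i.1) fun i => i ▸ hx⟩
      refine (lk_pre (G := U) (I := {v | ∃ y ∈ Ω \ {x}, v = some y}) (T := {a | a ∈ F ∧ h a = x})
        hv (fun ⟨y, i, l⟩ => i.2 (Option.some.inj l).symm) ⟨U, M, ⟨j1.ff.pull
          (fun a ha => out x a (j3 a ha)) fun a b hab => ?_, Subset.rfl,
          fun a ha i => j1.tB ha (wT_some i (ne x hx)).1, fun a ha => (j1.hIB ha).imp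
            (fun i => ⟨_, i, rfl⟩) fun i => congrArg some i, ls_univ _ _ _⟩, j2⟩
        (fun a ha => congrArg some ha.2) (fun a ha => Or.inr ⟨q1 (j1.sub ha), (j3 a ha).2⟩)
        (P := fun d => {ν (g d)}) (fun d hd i1 i2 => ⟨?_, ?_⟩)
        fun d hd d' hd' a i1 i2 => hg hd hd' (hν (i1.symm.trans i2))).mono Subset.rfl
        fun a ha => ⟨(ha.1.resolve_left (nN a (Option.some.inj ha.2 ▸ hx))).1,
          Option.some.inj ha.2⟩
      · have i := j3 a (j1.ff.meml hab)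
        rw [((wT_in (nN a i.2) i).resolve_right fun l => l.1 (Or.inr (j1.ff.int hab).1)).2,
          j1.ff.adj hab]
      · rintro _ rfl
        exact ⟨Or.inl ⟨_, rfl⟩, fun i => nN _ (j3 _ i).2 ⟨_, rfl⟩⟩
      · rcases wT_in (r := r) (w := w) (t := t) (nN d (j3 d hd).2) (j3 d hd) with i | i
        · rcases i.1 with l | l
          · exact ReflTransGen.single ⟨ν (g d), ⟨rfl, fun m => hw (hνw _ ▸ Option.some.inj m ▸ hx)⟩,
              tN _ ⟨_, rfl⟩, (congrArg some ((hνw _).trans l.symm)).trans i.2.symm⟩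
          · exact (i1 ⟨_, ⟨l, fun m => i2 (i.2.trans (congrArg some m))⟩, i.2⟩).elim
        · exact i.2 ▸ ReflTransGen.refl)
  refine ⟨{a | a ∈ L ∧ a ∈ G ∧ h a ∈ Ω}, fun a ha => ha.2.1, fun a ha => ha.2.2,
    fun a j1 j2 => ⟨k1 (Or.inr ⟨j1, j2⟩), hFG j1, j2⟩, fun x hx => ⟨?_, ?_⟩,
    fun e j1 j2 j3 j4 => ?_⟩
  · obtain ⟨U, M, j1, j2, j3, j4⟩ := k2 (some x) fun i => ne x hx (Option.some.inj i)
    have j5 : ∀ a ∈ U, h a ∈ Ω → a ∈ G := fun a ha l => by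
      rcases wT_cases t h r w G (range ν) Ω a with i | i | i | i
      · exact (nN a l i.1).elim
      · exact i.1.1
      · exact i.1.1
      · obtain ⟨b, m⟩ := j1.tot ha (by simp [i.2])
        have := j1.adj m
        simp [i.2] at this
    have ff := j1.restrict (Y' := {v | ∃ y ∈ Ω \ {x}, v = some y}) (C := {a | a ∈ U ∧ h a ∈ Ω})
      (fun a ha ⟨y, i, l⟩ => ⟨ha.1, l ▸ ⟨fun m => ne y i.1 (Option.some.inj m),
        fun m => i.2 (Option.some.inj m)⟩⟩) fun a b hab _ ⟨y, i, l⟩ =>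
        ⟨j1.memr hab, Option.some.inj ((j1.adj hab).symm.trans l) ▸ i.1⟩
    refine ⟨_, _, ⟨ff.pull (fun a ha => (out x a ⟨j5 a ha.1 ha.2, ha.2⟩).symm)
      fun a b hab => (wT_some (j1.adj hab.1) (hr b)).1, fun a ha => ⟨j2 ha.1, j5 a ha.1 ha.2, ha.2⟩,
      fun a ha i => j3 a ha.1 ?_, fun a ha => (Classical.em _).symm.imp_left fun i => ⟨ha.2, i⟩,
      ls_univ _ _ _⟩, fun a ha => ⟨j4 ⟨ha.1.1, congrArg some ha.2⟩, ha.1.2.2⟩⟩
    rw [((wT_in (nN a ha.2) ⟨j5 a ha.1 ha.2, ha.2⟩).resolve_right fun l => l.1 (Or.inr (i ▸ hx))).2]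
    exact congrArg some i
  · have i : some x ≠ some r := fun i => ne x hx (Option.some.inj i)
    refine (ctbl_iff _).1 ((Lk.countable i (hc _ i) (fun a ha => ha.2) (k2 _ i)).mono ?_)
    exact fun a ha => ⟨ha.1.1, congrArg some ha.2⟩
  · obtain ⟨Y, U, M, hv, hcl, -⟩ := bubble_all k3 (x := some (h e))
      fun i => hr e (Option.some.inj i)
    have tl : ∀ a, a ∈ G ∧ h a ∈ Ω → t a ≠ w → wT t h r w G (range ν) Ω a ∈ {some (h e)} ∪ Y →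
        t a = h e ∨ (t a ∈ Ω ∧ some (t a) ∈ Y) := by
      rintro a i1 i2 (l | l)
      · exact Or.inl (wT_some l (hr e)).1
      · rcases wT_in (r := r) (w := w) (t := t) (nN a i1.2) i1 with m | m
        · exact Or.inr ⟨m.1.resolve_left i2, m.2 ▸ l⟩
        · exact (hv.rY (m.2 ▸ l)).elim
    have ff := hv.ff.restrict (Y' := Y) (C := {a | a ∈ U ∧ (a ∈ G ∧ h a ∈ Ω) ∧ t a ≠ w})
      (fun a ha i => ⟨ha.1, i⟩) fun a b hab ha _ =>
        ⟨hv.ff.memr hab, (wT_some (hv.ff.adj hab).symm (hr a)).2.1, fun i =>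
          hw (i ▸ (wT_some (hv.ff.adj hab).symm (hr a)).1 ▸ ha.2.1.2)⟩
    refine ⟨{y | y ∈ Ω ∧ some y ∈ Y}, fun y hy => hy.1, _, _, ⟨ff.pull
      (fun a ha => ⟨fun i => ⟨ha.2.1.2, i⟩, fun i => i.2⟩)
        fun a b hab => (wT_some (hv.ff.adj hab.1).symm (hr a)).1.symm,
        fun a ha => ⟨ha.2.1.1, ha.2.2⟩, fun i => hrΩ i.1,
        fun y hy i => hv.dis hy.2 (congrArg some i), fun a ha i => hv.tB ha.1 ?_,
        fun a ha => (hv.hYB ha.1).imp (fun i => ⟨ha.2.1.2, i⟩) fun i => Option.some.inj i,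
        fun a i0 i1 i2 i3 => ?_⟩, fun a ha => ⟨⟨hv.sub ha.1, ha.2.1⟩, ha.2.2⟩, ?_⟩
    · rw [((wT_in (nN a ha.2.1.2) ha.2.1).resolve_right fun l => l.1 (Or.inr (i ▸ j2))).2]
      exact congrArg some i
    · have i4 : wT t h r w G (range ν) Ω a ∉ {some (h e)} ∪ Y := fun l =>
        (tl a ⟨i0.1, i1.1⟩ i0.2 l).elim i3 i2
      exact ⟨hv.ent (hcl a (Or.inr i1.2) i4) i1.2 (fun l => i4 (Or.inr l))
        fun l => i4 (Or.inl l), ⟨i0.1, i1.1⟩, i0.2⟩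
    · exact (tl e ⟨j1, j2⟩ j3 (by_contra fun l =>
        j4 ⟨hcl e (Or.inl rfl) l, j1, j2⟩)).resolve_left (hloop e)

end Pool.Agent.P.MP_133cc4_co
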