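import Mathlib

/-! Edge-disjoint path systems encoded by a successor relation on edges. -/

namespace Pool.Agent.P.MP_133cc4_co

open Set Function Relation

variable {V E : Type*}

/-- `M a b` says that the edge `b` follows the edge `a` at an interior vertex. -/
structure Mat (t h : E → V) (Y : Set V) (U : Set E) (M : E → E → Prop) : Prop where
  meml : ∀ ⦃a b⦄, M a b → a ∈ U
  memr : ∀ ⦃a b⦄, M a b → b ∈ U
  adj : ∀ ⦃a b⦄, M a b → h a = t b
  int : ∀ ⦃a b⦄, M a b → h a ∈ Y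
  fn : ∀ ⦃a b c⦄, M a b → M a c → b = c
  inj : ∀ ⦃a b c⦄, M a c → M b c → a = b

/-- Every edge continues until it leaves the interior. -/
structure FF (t h : E → V) (Y : Set V) (U : Set E) (M : E → E → Prop) : Prop
    extends Mat t h Y U M where
  tot : ∀ ⦃a⦄, a ∈ U → h a ∈ Y → ∃ b, M a b
  wf : WellFounded (swap M)

/-- Both directions. -/
structure Link (t h : E → V) (Y : Set V) (U : Set E) (M : E → E → Prop) : Prop
    extends FF t h Y U M where
  tot' : ∀ ⦃b⦄, b ∈ U → t b ∈ Y → ∃ a, M a b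
  wf' : WellFounded M

variable {t h : E → V} {Y : Set V} {U : Set E} {M : E → E → Prop}

theorem Mat.int' (H : Mat t h Y U M) {a b : E} (hab : M a b) : t b ∈ Y :=
  H.adj hab ▸ H.int hab

theorem Mat.symm (H : Mat t h Y U M) : Mat h t Y U (swap M) where
  meml := fun _ _ hab => H.memr hab
  memr := fun _ _ hab => H.meml hab
  adj := fun _ _ hab => (H.adj hab).symm
  int := fun _ _ hab => H.int' hab
  fn := fun _ _ _ h1 h2 => H.inj h1 h2
  inj := fun _ _ _ h1 h2 => H.fn h1 h2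

theorem Link.bf (H : Link t h Y U M) : FF h t Y U (swap M) where
  toMat := H.toMat.symm
  tot := H.tot'
  wf := H.wf'

theorem Link.symm (H : Link t h Y U M) : Link h t Y U (swap M) where
  toFF := H.bf
  tot' := H.tot
  wf' := H.wf

theorem Link.of_ff (H : FF t h Y U M) (H' : FF h t Y U (swap M)) : Link t h Y U M where
  toFF := H
  tot' := H'.tot
  wf' := H'.wf

theorem link_empty (t h : E → V) (Y : Set V) : Link t h Y ∅ (fun _ _ => False) where
  meml := fun _ _ hab => hab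
  memr := fun _ _ hab => hab
  adj := fun _ _ hab => hab.elim
  int := fun _ _ hab => hab.elim
  fn := fun _ _ _ hab => hab.elim
  inj := fun _ _ _ hab => hab.elim
  tot := fun _ ha => ha.elim
  wf := ⟨fun a => ⟨a, fun _ hb => hb.elim⟩⟩
  tot' := fun _ ha => ha.elim
  wf' := ⟨fun a => ⟨a, fun _ hb => hb.elim⟩⟩

theorem Mat.rtg_mem (H : Mat t h Y U M) {a b : E} (hab : ReflTransGen M a b) (ha : a ∈ U) :
    b ∈ U := by
  induction hab with
  | refl => exact ha
  | tail _ hbc _ => exact H.memr hbc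

theorem rtg_eq_of_no_succ {a b : E} (hab : ReflTransGen M a b) (ha : ∀ c, ¬ M a c) : a = b := by
  rcases hab.cases_head with h1 | ⟨c, hc, _⟩
  · exact h1
  · exact (ha c hc).elim

theorem rtg_eq_of_no_pred {a b : E} (hab : ReflTransGen M a b) (hb : ∀ c, ¬ M c b) : a = b := by
  rcases hab.cases_tail with h1 | ⟨c, _, hc⟩
  · exact h1.symm
  · exact (hb c hc).elim

theorem Mat.eq_of_exit (H : Mat t h Y U M) {a b : E} (hab : ReflTransGen M a b) (ha : h a ∉ Y) :
    a = b :=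
  rtg_eq_of_no_succ hab fun _ hc => ha (H.int hc)

theorem Mat.eq_of_source (H : Mat t h Y U M) {a b : E} (hab : ReflTransGen M a b)
    (hb : t b ∉ Y) : a = b :=
  rtg_eq_of_no_pred hab fun _ hc => hb (H.int' hc)

theorem Mat.total (H : Mat t h Y U M) {a b c : E} (hab : ReflTransGen M a b)
    (hac : ReflTransGen M a c) : ReflTransGen M b c ∨ ReflTransGen M c b :=
  ReflTransGen.total_of_right_unique (fun _ _ _ h1 h2 => H.fn h1 h2) hab hac

theorem Mat.total' (H : Mat t h Y U M) {a b c : E} (hac : ReflTransGen M a c)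
    (hbc : ReflTransGen M b c) : ReflTransGen M a b ∨ ReflTransGen M b a := by
  rcases H.symm.total hac.swap hbc.swap with h1 | h1
  · exact Or.inr (reflTransGen_swap.1 h1)
  · exact Or.inl (reflTransGen_swap.1 h1)

theorem FF.exists_end (H : FF t h Y U M) {a : E} (ha : a ∈ U) :
    ∃ z, ReflTransGen M a z ∧ z ∈ U ∧ h z ∉ Y := by
  induction a using H.wf.induction with
  | _ a ih =>
    by_cases hY : h a ∈ Y
    · obtain ⟨b, hb⟩ := H.tot ha hY
      obtain ⟨z, hz, hz'⟩ := ih b hb (H.memr hb)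
      exact ⟨z, ReflTransGen.head hb hz, hz'⟩
    · exact ⟨a, ReflTransGen.refl, ha, hY⟩

theorem FF.finite_fwd (H : FF t h Y U M) (a : E) : {b | ReflTransGen M a b}.Finite := by
  induction a using H.wf.induction with
  | _ a ih =>
    by_cases hb : ∃ b, M a b
    · obtain ⟨b, hb⟩ := hb
      refine ((ih b hb).insert a).subset ?_
      intro c hc
      rcases ReflTransGen.cases_head hc with h1 | ⟨d, hd, h1⟩
      · exact Or.inl h1.symm
      · exact Or.inr (H.fn hb hd ▸ h1)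
    · refine (finite_singleton a).subset ?_
      intro c hc
      exact (rtg_eq_of_no_succ hc fun d hd => hb ⟨d, hd⟩).symm

/-- The map sending a starting edge to the end of its path is injective. -/
theorem FF.exists_inj (H : FF t h Y U M) {S : Set E} (hS : S ⊆ U)
    (hnp : ∀ a ∈ S, ∀ b ∈ S, ReflTransGen M a b → a = b) :
    ∃ f : E → E, InjOn f S ∧ ∀ a ∈ S, ReflTransGen M a (f a) ∧ f a ∈ U ∧ h (f a) ∉ Y := by
  have : ∀ a, ∃ z, a ∈ S → ReflTransGen M a z ∧ z ∈ U ∧ h z ∉ Y := by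
    intro a
    by_cases ha : a ∈ S
    · obtain ⟨z, hz⟩ := H.exists_end (hS ha)
      exact ⟨z, fun _ => hz⟩
    · exact ⟨a, fun h1 => (ha h1).elim⟩
  choose f hf using this
  refine ⟨f, ?_, hf⟩
  intro a ha b hb hab
  have h1 := (hf a ha).1
  have h2 := (hf b hb).1
  rw [← hab] at h2
  rcases H.toMat.total' h1 h2 with h3 | h3
  · exact hnp a ha b hb h3
  · exact (hnp b hb a ha h3).symm

theorem Mat.mono_rel (H : Mat t h Y U M) {Y' : Set V} {U' : Set E} {M' : E → E → Prop}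
    (hle : ∀ ⦃a b⦄, M' a b → M a b) (hl : ∀ ⦃a b⦄, M' a b → a ∈ U')
    (hr : ∀ ⦃a b⦄, M' a b → b ∈ U') (hi : ∀ ⦃a b⦄, M' a b → h a ∈ Y') : Mat t h Y' U' M' where
  meml := hl
  memr := hr
  adj := fun _ _ hab => H.adj (hle hab)
  int := hi
  fn := fun _ _ _ h1 h2 => H.fn (hle h1) (hle h2)
  inj := fun _ _ _ h1 h2 => H.inj (hle h1) (hle h2)

/-- Restrict the interior and the edge set. -/
theorem FF.restrict (H : FF t h Y U M) {Y' : Set V} {C : Set E}
    (hC : ∀ a ∈ C, h a ∈ Y' → a ∈ U ∧ h a ∈ Y)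
    (hcl : ∀ a b, M a b → a ∈ C → h a ∈ Y' → b ∈ C) :
    FF t h Y' C (fun a b => M a b ∧ a ∈ C ∧ h a ∈ Y') where
  toMat := H.toMat.mono_rel (fun _ _ h1 => h1.1) (fun _ _ h1 => h1.2.1)
    (fun _ _ h1 => hcl _ _ h1.1 h1.2.1 h1.2.2) (fun _ _ h1 => h1.2.2)
  tot := fun a ha hY => by
    obtain ⟨b, hb⟩ := H.tot (hC a ha hY).1 (hC a ha hY).2
    exact ⟨b, hb, ha, hY⟩
  wf := Subrelation.wf (fun h1 => h1.1) H.wf

/-- A set of edges closed in both directions. -/
theorem Link.sub (H : Link t h Y U M) {C : Set E} (hC : C ⊆ U)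
    (hcl : ∀ a b, M a b → (a ∈ C ↔ b ∈ C)) :
    Link t h Y C (fun a b => M a b ∧ a ∈ C) where
  toMat := H.toMat.mono_rel (fun _ _ h1 => h1.1) (fun _ _ h1 => h1.2)
    (fun _ _ h1 => (hcl _ _ h1.1).1 h1.2) (fun _ _ h1 => H.int h1.1)
  tot := fun a ha hY => by
    obtain ⟨b, hb⟩ := H.tot (hC ha) hY
    exact ⟨b, hb, ha⟩
  wf := Subrelation.wf (fun h1 => h1.1) H.wf
  tot' := fun b hb hY => by
    obtain ⟨a, ha⟩ := H.tot' (hC hb) hY
    exact ⟨a, ha, (hcl _ _ ha).2 hb⟩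
  wf' := Subrelation.wf (fun h1 => h1.1) H.wf'

/-- Keep only what is reachable from a set of starting edges. -/
theorem FF.normalize (H : FF t h Y U M) {S : Set E} (hS : S ⊆ U) (hSY : ∀ a ∈ S, t a ∉ Y) :
    ∃ U' M', Link t h Y U' M' ∧ S ⊆ U' ∧ U' ⊆ U ∧ (∀ a ∈ U', t a ∉ Y → a ∈ S) ∧
      (S.Finite → U'.Finite) := by
  let U' : Set E := {b | ∃ a ∈ S, ReflTransGen M a b}
  have hU' : U' ⊆ U := fun b ⟨a, ha, hab⟩ => H.toMat.rtg_mem hab (hS ha)
  have hcl : ∀ a b, M a b → a ∈ U' → b ∈ U' := fun a b hab ⟨c, hc, hca⟩ => ⟨c, hc, hca.tail hab⟩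
  refine ⟨U', fun a b => M a b ∧ a ∈ U', ?_, fun a ha => ⟨a, ha, ReflTransGen.refl⟩, hU', ?_, ?_⟩
  · refine ⟨⟨H.toMat.mono_rel (fun _ _ h1 => h1.1) (fun _ _ h1 => h1.2)
      (fun _ _ h1 => hcl _ _ h1.1 h1.2) (fun _ _ h1 => H.int h1.1), ?_,
      Subrelation.wf (fun h1 => h1.1) H.wf⟩, ?_, ?_⟩
    · intro a ha hY
      obtain ⟨b, hb⟩ := H.tot (hU' ha) hY
      exact ⟨b, hb, ha⟩
    · rintro b ⟨a, ha, hab⟩ hY
      rcases hab.cases_tail with h1 | ⟨c, hc, hcb⟩
      · exact (hSY a ha (h1 ▸ hY)).elim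
      · exact ⟨c, hcb, a, ha, hc⟩
    · have key : ∀ a ∈ S, ∀ b, ReflTransGen M a b → Acc (fun a b => M a b ∧ a ∈ U') b := by
        intro a ha b hab
        induction hab with
        | refl => exact ⟨a, fun c hc => (hSY a ha (H.toMat.int' hc.1)).elim⟩
        | tail _ hbc ih => exact ⟨_, fun d hd => H.inj hbc hd.1 ▸ ih⟩
      refine ⟨fun b => ⟨b, fun a hab => ?_⟩⟩
      obtain ⟨c, hc, hca⟩ := hab.2
      exact key c hc a hca
  · rintro b ⟨a, ha, hab⟩ hY
    exact H.toMat.eq_of_source hab hY ▸ ha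
  · intro hfin
    refine (hfin.biUnion fun a _ => H.finite_fwd a).subset ?_
    rintro b ⟨a, ha, hab⟩
    exact mem_biUnion ha hab

/-- The path of a link through a given edge. -/
theorem Link.comp (H : Link t h Y U M) {e : E} (he : e ∈ U) :
    ∃ C c z, e ∈ C ∧ C ⊆ U ∧ C.Finite ∧ (∀ a b, M a b → (a ∈ C ↔ b ∈ C)) ∧
      c ∈ C ∧ t c ∉ Y ∧ (∀ a ∈ C, t a ∉ Y → a = c) ∧
      z ∈ C ∧ h z ∉ Y ∧ (∀ a ∈ C, h a ∉ Y → a = z) := by
  obtain ⟨c, hce, hcU, hc⟩ := H.bf.exists_end he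
  have hce : ReflTransGen M c e := reflTransGen_swap.1 hce
  obtain ⟨z, hez, hzU, hz⟩ := H.toFF.exists_end he
  refine ⟨{b | ReflTransGen M c b}, c, z, hce, fun b hb => H.toMat.rtg_mem hb hcU,
    H.toFF.finite_fwd c, ?_, ReflTransGen.refl, hc, ?_, hce.trans hez, hz, ?_⟩
  · intro a b hab
    refine ⟨fun ha => ReflTransGen.tail ha hab, fun hb => ?_⟩
    rcases ReflTransGen.cases_tail hb with h1 | ⟨d, hd, hdb⟩
    · exact (hc (h1 ▸ H.toMat.int' hab)).elim
    · exact H.inj hdb hab ▸ hd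
  · intro a ha hY
    exact (H.toMat.eq_of_source ha hY).symm
  · intro a ha hY
    rcases H.toMat.total ha (hce.trans hez) with h1 | h1
    · exact H.toMat.eq_of_exit h1 hY
    · exact (H.toMat.eq_of_exit h1 hz).symm

/-- First travel in level one, then in level zero. -/
theorem FF.compose {Y0 Y1 : Set V} {U0 U1 : Set E} {M0 M1 : E → E → Prop}
    (H0 : FF t h Y0 U0 M0) (H1 : FF t h Y1 U1 M1) (hd : Disjoint Y0 Y1)
    (ha : ∀ a ∈ U1, h a ∈ Y0 → a ∈ U0) (hc : ∀ a ∈ U0, h a ∉ Y1) :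
    FF t h (Y0 ∪ Y1) (U0 ∪ U1) (fun a b => M0 a b ∨ M1 a b) where
  meml := fun _ _ hab => hab.imp (fun h1 => H0.meml h1) (fun h1 => H1.meml h1)
  memr := fun _ _ hab => hab.imp (fun h1 => H0.memr h1) (fun h1 => H1.memr h1)
  adj := fun _ _ hab => hab.elim (fun h1 => H0.adj h1) (fun h1 => H1.adj h1)
  int := fun _ _ hab => hab.imp (fun h1 => H0.int h1) (fun h1 => H1.int h1)
  fn := by
    rintro a b c (h1 | h1) (h2 | h2)
    · exact H0.fn h1 h2
    · exact (disjoint_left.1 hd (H0.int h1) (H1.int h2)).elim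
    · exact (disjoint_left.1 hd (H0.int h2) (H1.int h1)).elim
    · exact H1.fn h1 h2
  inj := by
    rintro a b c (h1 | h1) (h2 | h2)
    · exact H0.inj h1 h2
    · exact (disjoint_left.1 hd (H0.toMat.int' h1) (H1.toMat.int' h2)).elim
    · exact (disjoint_left.1 hd (H0.toMat.int' h2) (H1.toMat.int' h1)).elim
    · exact H1.inj h1 h2
  tot := by
    rintro a (h1 | h1) (h2 | h2)
    · exact (H0.tot h1 h2).imp fun _ h3 => Or.inl h3
    · exact (hc a h1 h2).elim
    · exact (H0.tot (ha a h1 h2) h2).imp fun _ h3 => Or.inl h3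
    · exact (H1.tot h1 h2).imp fun _ h3 => Or.inr h3
  wf := by
    have k0 : ∀ a, h a ∉ Y1 → Acc (swap fun a b => M0 a b ∨ M1 a b) a := by
      intro a
      induction a using H0.wf.induction with
      | _ a ih =>
        intro hY
        refine ⟨a, ?_⟩
        rintro b (hb | hb)
        · exact ih b hb (hc b (H0.memr hb))
        · exact (hY (H1.int hb)).elim
    refine ⟨fun a => ?_⟩
    induction a using H1.wf.induction with
    | _ a ih =>
      refine ⟨a, ?_⟩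
      rintro b (hb | hb)
      · exact k0 b (hc b (H0.memr hb))
      · exact ih b hb

/-- Union of edge-disjoint systems. -/
theorem FF.iUnion {ι : Type*} {U : ι → Set E} {M : ι → E → E → Prop}
    (H : ∀ i, FF t h Y (U i) (M i)) (hd : ∀ i j a, a ∈ U i → a ∈ U j → i = j) :
    FF t h Y (⋃ i, U i) (fun a b => ∃ i, M i a b) where
  meml := fun _ _ ⟨i, hab⟩ => mem_iUnion.2 ⟨i, (H i).meml hab⟩
  memr := fun _ _ ⟨i, hab⟩ => mem_iUnion.2 ⟨i, (H i).memr hab⟩
  adj := fun _ _ ⟨i, hab⟩ => (H i).adj hab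
  int := fun _ _ ⟨i, hab⟩ => (H i).int hab
  fn := by
    rintro a b c ⟨i, h1⟩ ⟨j, h2⟩
    obtain rfl := hd i j a ((H i).meml h1) ((H j).meml h2)
    exact (H i).fn h1 h2
  inj := by
    rintro a b c ⟨i, h1⟩ ⟨j, h2⟩
    obtain rfl := hd i j c ((H i).memr h1) ((H j).memr h2)
    exact (H i).inj h1 h2
  tot := by
    intro a ha hY
    obtain ⟨i, hi⟩ := mem_iUnion.1 ha
    exact ((H i).tot hi hY).imp fun _ h3 => ⟨i, h3⟩
  wf := by
    have k : ∀ i a, a ∈ U i → Acc (swap fun a b => ∃ i, M i a b) a := by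
      intro i a
      induction a using (H i).wf.induction with
      | _ a ih =>
        intro ha
        refine ⟨a, ?_⟩
        rintro b ⟨j, hb⟩
        obtain rfl := hd i j a ha ((H j).meml hb)
        exact ih b hb ((H i).memr hb)
    refine ⟨fun a => ⟨a, ?_⟩⟩
    rintro b ⟨j, hb⟩
    exact k j b ((H j).memr hb)

theorem FF.union {U0 U1 : Set E} {M0 M1 : E → E → Prop}
    (H0 : FF t h Y U0 M0) (H1 : FF t h Y U1 M1) (hd : Disjoint U0 U1) :
    FF t h Y (U0 ∪ U1) (fun a b => M0 a b ∨ M1 a b) := by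
  have := FF.iUnion (t := t) (h := h) (Y := Y) (U := fun i : Bool => cond i U0 U1)
    (M := fun i : Bool => cond i M0 M1) (by rintro (_ | _); exacts [H1, H0]) (by
      rintro (_ | _) (_ | _) a h1 h2
      · rfl
      · exact (disjoint_left.1 hd h2 h1).elim
      · exact (disjoint_left.1 hd h1 h2).elim
      · rfl)
  convert this using 1
  · ext a
    simp [or_comm]
  · ext a b
    simp [or_comm]

theorem Link.union {U0 U1 : Set E} {M0 M1 : E → E → Prop}
    (H0 : Link t h Y U0 M0) (H1 : Link t h Y U1 M1) (hd : Disjoint U0 U1) :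
    Link t h Y (U0 ∪ U1) (fun a b => M0 a b ∨ M1 a b) :=
  Link.of_ff (H0.toFF.union H1.toFF hd) (H0.bf.union H1.bf hd)

/-- Edges outside the interior at both ends form trivial paths. -/
theorem link_trivial {S : Set E} (h1 : ∀ a ∈ S, h a ∉ Y) (h2 : ∀ a ∈ S, t a ∉ Y) :
    Link t h Y S (fun _ _ => False) where
  meml := fun _ _ hab => hab.elim
  memr := fun _ _ hab => hab.elim
  adj := fun _ _ hab => hab.elim
  int := fun _ _ hab => hab.elim
  fn := fun _ _ _ hab => hab.elim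
  inj := fun _ _ _ hab => hab.elim
  tot := fun a ha hY => (h1 a ha hY).elim
  wf := ⟨fun a => ⟨a, fun _ hb => hb.elim⟩⟩
  tot' := fun a ha hY => (h2 a ha hY).elim
  wf' := ⟨fun a => ⟨a, fun _ hb => hb.elim⟩⟩

/-- Adding edges that leave the interior at once. -/
theorem FF.add_exits (H : FF t h Y U M) {S : Set E} (h1 : ∀ a ∈ S, h a ∉ Y) :
    FF t h Y (U ∪ S) M where
  toMat := H.toMat.mono_rel (fun _ _ h2 => h2) (fun _ _ h2 => Or.inl (H.meml h2))
    (fun _ _ h2 => Or.inl (H.memr h2)) H.int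
  tot := by
    rintro a (ha | ha) hY
    · exact H.tot ha hY
    · exact (h1 a ha hY).elim
  wf := H.wf

/-- Increasing union. -/
theorem FF.limit {U : ℕ → Set E} {M : ℕ → E → E → Prop}
    (H : ∀ i, FF t h Y (U i) (M i)) (hM : Monotone M) :
    FF t h Y (⋃ i, U i) (fun a b => ∃ i, M i a b) where
  meml := fun _ _ ⟨i, hab⟩ => mem_iUnion.2 ⟨i, (H i).meml hab⟩
  memr := fun _ _ ⟨i, hab⟩ => mem_iUnion.2 ⟨i, (H i).memr hab⟩
  adj := fun _ _ ⟨i, hab⟩ => (H i).adj hab
  int := fun _ _ ⟨i, hab⟩ => (H i).int hab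
  fn := by
    rintro a b c ⟨i, h1⟩ ⟨j, h2⟩
    exact (H (max i j)).fn (hM (le_max_left i j) _ _ h1) (hM (le_max_right i j) _ _ h2)
  inj := by
    rintro a b c ⟨i, h1⟩ ⟨j, h2⟩
    exact (H (max i j)).inj (hM (le_max_left i j) _ _ h1) (hM (le_max_right i j) _ _ h2)
  tot := by
    intro a ha hY
    obtain ⟨i, hi⟩ := mem_iUnion.1 ha
    exact ((H i).tot hi hY).imp fun _ h3 => ⟨i, h3⟩
  wf := by
    have k : ∀ i a, a ∈ U i → Acc (swap fun a b => ∃ i, M i a b) a := by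
      intro i a
      induction a using (H i).wf.induction with
      | _ a ih =>
        intro ha
        refine ⟨a, ?_⟩
        rintro b ⟨j, hb⟩
        obtain ⟨c, hc⟩ := (H i).tot ha ((H j).int hb)
        obtain rfl := (H (max i j)).fn (hM (le_max_left i j) _ _ hc) (hM (le_max_right i j) _ _ hb)
        exact ih c hc ((H i).memr hc)
    refine ⟨fun a => ⟨a, ?_⟩⟩
    rintro b ⟨j, hb⟩
    exact k j b ((H j).memr hb)

/-- A finite modification of a terminating relation terminates off cycles. -/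
theorem Mat.acc_of_finmod {U' : Set E} {M' : E → E → Prop} (H : Mat t h Y U' M')
    (hwf : WellFounded (swap M)) (hfin : {a | ∃ b, M' a b ∧ ¬ M a b}.Finite) {a : E}
    (ha : Acc M' a) : Acc (swap M') a := by
  by_contra hna
  obtain ⟨f, hf0, hf⟩ := not_acc_iff_exists_descending_chain.1 hna
  have hf : ∀ n, M' (f n) (f (n + 1)) := hf
  have hacc : ∀ n, Acc M' (f n) := by
    intro n
    induction n with
    | zero => exact hf0 ▸ ha
    | succ n ih => exact ⟨_, fun b hb => H.inj (hf n) hb ▸ ih⟩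
  have htg : ∀ n k, TransGen M' (f n) (f (n + k + 1)) := by
    intro n k
    induction k with
    | zero => exact TransGen.single (hf n)
    | succ k ih => exact ih.tail (hf _)
  have hirr : ∀ b, Acc M' b → ¬ TransGen M' b b := by
    intro b hb
    have hb' := hb.transGen
    induction hb' with
    | intro b _ ih => exact fun hbb => ih b hbb hb hbb
  have hinj : Injective f := by
    intro m n hmn
    by_contra hne
    rcases lt_or_gt_of_ne hne with h1 | h1
    · obtain ⟨k, rfl⟩ := Nat.exists_eq_add_of_lt h1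
      exact hirr _ (hacc m) (by have := htg m k; rwa [← hmn] at this)
    · obtain ⟨k, rfl⟩ := Nat.exists_eq_add_of_lt h1
      exact hirr _ (hacc n) (by have := htg n k; rwa [hmn] at this)
  obtain ⟨N, hN⟩ := (hfin.preimage hinj.injOn).bddAbove
  refine not_acc_iff_exists_descending_chain.2 ⟨fun n => f (n + N + 1), rfl, fun n => ?_⟩
    (hwf.apply _)
  by_contra hc
  have : n + N + 1 ≤ N := hN ⟨_, hf _, by
    have e : n + 1 + N + 1 = n + N + 1 + 1 := by omega
    intro h2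
    apply hc
    show M (f (n + N + 1)) (f (n + 1 + N + 1))
    rw [e]; exact h2⟩
  omega

/-- Discard the cycles of a finite modification of a link. -/
theorem Link.finish (H : Link t h Y U M) {U' : Set E} {M' : E → E → Prop} (H' : Mat t h Y U' M')
    (htot : ∀ ⦃a⦄, a ∈ U' → h a ∈ Y → ∃ b, M' a b) (htot' : ∀ ⦃b⦄, b ∈ U' → t b ∈ Y → ∃ a, M' a b)
    (hfin : {a | ∃ b, M' a b ∧ ¬ M a b}.Finite) :
    ∃ U'' M'', Link t h Y U'' M'' ∧ U'' ⊆ U' ∧ (∀ a ∈ U', t a ∉ Y → a ∈ U'') ∧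
      (∀ a ∈ U', h a ∉ Y → a ∈ U'') := by
  have hfin' : {b | ∃ a, swap M' b a ∧ ¬ swap M b a}.Finite := by
    have : ∀ a, ∃ b, ∀ c, M' a c → c = b := by
      intro a
      by_cases h1 : ∃ b, M' a b
      · obtain ⟨b, hb⟩ := h1
        exact ⟨b, fun c hc => H'.fn hc hb⟩
      · exact ⟨a, fun c hc => (h1 ⟨c, hc⟩).elim⟩
    choose g hg using this
    refine (hfin.image g).subset ?_
    rintro b ⟨a, h1, h2⟩
    exact ⟨a, ⟨b, h1, h2⟩, (hg a b h1).symm⟩
  let C : Set E := {a | a ∈ U' ∧ Acc M' a ∧ Acc (swap M') a}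
  have hcl : ∀ a b, M' a b → (a ∈ C ↔ b ∈ C) := by
    intro a b hab
    constructor
    · rintro ⟨_, h1, h2⟩
      exact ⟨H'.memr hab, ⟨_, fun c hc => H'.inj hab hc ▸ h1⟩, h2.inv hab⟩
    · rintro ⟨_, h1, h2⟩
      exact ⟨H'.meml hab, h1.inv hab, ⟨_, fun c hc => H'.fn hab hc ▸ h2⟩⟩
  refine ⟨C, fun a b => M' a b ∧ a ∈ C, ?_, fun a ha => ha.1, ?_, ?_⟩
  · refine ⟨⟨H'.mono_rel (fun _ _ h1 => h1.1) (fun _ _ h1 => h1.2)
      (fun _ _ h1 => (hcl _ _ h1.1).1 h1.2) (fun _ _ h1 => H'.int h1.1), ?_, ?_⟩, ?_, ?_⟩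
    · intro a ha hY
      obtain ⟨b, hb⟩ := htot ha.1 hY
      exact ⟨b, hb, ha⟩
    · refine ⟨fun a => ⟨a, fun b hb => ?_⟩⟩
      exact Subrelation.accessible (r := swap M') (fun h1 => h1.1) ((hcl _ _ hb.1).1 hb.2).2.2
    · intro b hb hY
      obtain ⟨a, ha⟩ := htot' hb.1 hY
      exact ⟨a, ha, (hcl _ _ ha).2 hb⟩
    · refine ⟨fun b => ⟨b, fun a ha => ?_⟩⟩
      exact Subrelation.accessible (r := M') (fun h1 => h1.1) ha.2.2.1
  · intro a ha hY
    have h1 : Acc M' a := ⟨a, fun b hb => (hY (H'.int' hb)).elim⟩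
    exact ⟨ha, h1, H'.acc_of_finmod H.wf hfin h1⟩
  · intro a ha hY
    have h1 : Acc (swap M') a := ⟨a, fun b hb => (hY (H'.int hb)).elim⟩
    exact ⟨ha, H'.symm.acc_of_finmod (M := swap M) H.wf' hfin' h1, h1⟩

end Pool.Agent.P.MP_133cc4_co
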