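import Pool.Agent.P.MP_133cc4_co.CRegB

/-! All levels. -/

namespace Pool.Agent.P.MP_133cc4_co

open Set Function Relation Cardinal

universe u

variable {V : Type*} {E : Type u} {t h : E → V} {r w y : V} {F : Set E} {κ μ : Cardinal.{u}}

theorem rich_of_fam {Fam : Set (Set E)} (H : PathFamily t h r y {a | h a ≠ w} Fam)
    (hκ : κ ≤ #Fam) : Rich t h r κ Set.univ w y := by
  intro Z hZ
  by_contra hn
  have key : ∀ P : Fam, ∃ a ∈ P.1, a ∈ Z := fun P => by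
    obtain ⟨a, k1, k2⟩ := (H.1 P P.2).1.meet (S := Z ∪ {a | h a = w}) fun k =>
      hn (k.mono fun e i => ⟨⟨trivial, fun j => i (Or.inl j)⟩, fun j => i (Or.inr j)⟩)
    exact ⟨a, k1, k2.resolve_right ((H.1 P P.2).2 k1)⟩
  choose f h1 h2 using key
  refine (hZ.trans_le hκ).not_ge
    (mk_le_of_injective (f := fun P => (⟨f P, h2 P⟩ : Z)) fun P Q k => ?_)
  by_contra j
  exact disjoint_left.1 (H.2 P.2 Q.2 fun i => j (Subtype.ext i)) (h1 P)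
    ((Subtype.mk.inj k).symm ▸ h1 Q)

theorem large_flame_small (hr : ∀ e, h e ≠ r) (hloop : ∀ e, t e ≠ h e) (hF : IsFlame t h r F)
    (h1 : ∀ x, lam t h r x = ℵ₁ → #{a | a ∈ F ∧ h a = x} ≤ ℵ₀)
    (h2 : ∀ e, e ∉ F → ℵ₁ < lam t h r (h e) → #{a | a ∈ F ∧ h a = h e} < lam t h r (h e) ∧
      ((lam t h r (h e)).IsRegular ∨ ∃ μ < lam t h r (h e), ∀ y, y ≠ h e →
        lam t h r y = lam t h r (h e) → lam t h (h e) y ≤ μ))
    (h3 : ¬ ∃ (κ : Cardinal.{u}) (u : ℕ → V), ℵ₁ < κ ∧ κ.IsRegular ∧ ∀ n, lam t h r (u n) = κ ∧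
      (∃ e, e ∉ F ∧ h e = u n) ∧ u (n + 1) ≠ u n ∧
      ∀ Fam, PathFamily t h r (u (n + 1)) {a | h a ≠ u n} Fam → #Fam < κ) :
    ∃ L, F ⊆ L ∧ IsFlame t h r L ∧ IsLarge t h r L := by
  let S := {p : Set V × Set E // Good t h r F p.1 p.2 ∧ (∀ x, x ∉ p.1 → ℵ₁ < lam t h r x) ∧
    ∀ e, e ∉ p.2 → h e ∈ p.1 → ∀ y, y ∉ p.1 → (lam t h r y).IsRegular →
      lev t h r (h e) < lam t h r y}
  let R : S → S → Prop := fun p q =>
    p.1.1 ⊆ q.1.1 ∧ p.1.2 ⊆ q.1.2 ∧ ∀ a ∈ q.1.2, h a ∈ p.1.1 → a ∈ p.1.2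
  obtain ⟨A0, Φ0, i0, i1, i2⟩ := good_start_one hr hloop hF.lk h1
  have : Nonempty S := ⟨⟨(A0, Φ0), i0, i1, fun e k j y l _ => (i2 e k j).trans_lt (i1 y l)⟩⟩
  obtain ⟨⟨⟨A, L⟩, g, g', g''⟩, hmax⟩ := exists_maximal_of_nonempty_chains_bounded (r := R)
    (by
      intro C hC ⟨p0, hp0⟩
      have sub : ∀ p ∈ C, p.1.2 ⊆ ⋃ q ∈ C, q.1.2 := fun p hp =>
        subset_biUnion_of_mem (u := fun q : S => q.1.2) hp
      have key : ∀ p ∈ C, ∀ a ∈ ⋃ q ∈ C, q.1.2, h a ∈ p.1.1 → a ∈ p.1.2 := by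
        intro p hp a h1 ha
        obtain ⟨q, hq, h2⟩ := mem_iUnion₂.1 h1
        by_cases hpq : p = q
        · exact hpq ▸ h2
        exact (hC hp hq hpq).elim (fun h3 => h3.2.2 a h2 ha) fun h3 => h3.2.1 h2
      refine ⟨⟨(⋃ q ∈ C, q.1.1, ⋃ q ∈ C, q.1.2), ⟨p0.2.1.g1.trans (sub p0 hp0), ?_, ?_, ?_,
        fun x k => p0.2.1.g5 x fun j => k (mem_biUnion hp0 j)⟩,
        fun x k => p0.2.2.1 x fun j => k (mem_biUnion hp0 j), ?_⟩, fun p hp =>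
          ⟨subset_biUnion_of_mem (u := fun q : S => q.1.1) hp, sub p hp, key p hp⟩⟩
      · intro a h1 k
        obtain ⟨q, hq, h2⟩ := mem_iUnion₂.1 h1
        exact q.2.1.g2 a h2 fun j => k (mem_biUnion hq j)
      · intro x h1 hx
        obtain ⟨q, hq, h2⟩ := mem_iUnion₂.1 h1
        exact (q.2.1.g3 x h2 hx).mono (sub q hq) fun a ha => ⟨key q hq a ha.1 (ha.2 ▸ h2), ha.2⟩
      · intro e h1 k
        obtain ⟨q, hq, h2⟩ := mem_iUnion₂.1 h1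
        exact (q.2.1.g4 e h2 fun j => k (sub q hq j)).mono (sub q hq) Subset.rfl
      · intro e k h1 y l
        obtain ⟨q, hq, h2⟩ := mem_iUnion₂.1 h1
        exact q.2.2.2 e (fun j => k (sub q hq j)) h2 y fun j => l (mem_biUnion hq j))
    (fun h1 h2 => ⟨h1.1.trans h2.1, h1.2.1.trans h2.2.1,
      fun a ha k => h1.2.2 a (h2.2.2 a ha (h1.1 k)) k⟩)
  dsimp only at g g' g''
  have hA : ∀ v, v ∈ A := by
    by_contra hn
    obtain ⟨_, ⟨v, hv, rfl⟩, k⟩ := WellFounded.has_min (wellFounded_lt (α := Cardinal.{u}))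
      (lam t h r '' Aᶜ) ((not_forall.1 hn).imp (fun _ k => k) |> Nonempty.image _)
    have hκ : ∀ x, x ∉ A → lam t h r v ≤ lam t h r x := fun x hx => not_lt.1 (k _ ⟨x, hx, rfl⟩)
    have hlow := fun e k j => g'' e k j v hv
    obtain ⟨κ, hκv⟩ : ∃ κ, lam t h r v = κ := ⟨_, rfl⟩
    have h0 : ℵ₀ < κ := hκv ▸ (g.g5 v hv).1
    rw [hκv] at hκ hlow
    have hne : ∀ x, x ∉ A → x ≠ r := fun x k => by
      obtain ⟨-, e, -, j⟩ := g.g5 x k
      exact j ▸ hr e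
    have hom : v ∈ Om t h r κ := ⟨hne v hv, max_le h0.le hκv.le⟩
    by_cases hθ : κ.IsRegular
    · obtain ⟨Φ', k1, k2, k3⟩ := g.reg hr hloop hF.lk hθ h0 hκ (fun e k j => hlow e k j hθ) (by
        intro w k j
        obtain ⟨-, e, i, rfl⟩ := g.g5 w k
        exact j ▸ (h2 e i (g' _ k)).1) (wellFounded_iff_isEmpty_descending_chain.2 ⟨fun ⟨u, k⟩ =>
          h3 ⟨κ, u, hκv ▸ g' v hv, hθ, fun n => ⟨le_antisymm ((le_max_right _ _).trans
            (k n).2.1.1.2) (hκ _ (k n).2.1.2), (g.g5 _ (k n).2.1.2).2, (k n).2.2.1,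
            fun _ i => not_le.1 fun j => (k n).2.2.2 (rich_of_fam i j)⟩⟩⟩)
      refine hv ((hmax ⟨(_, Φ'), k1, fun x j => g' x fun i => j (Or.inl i),
        fun e j1 j2 y j3 j4 => ?_⟩ ⟨subset_union_left, k2, k3⟩).1 (Or.inr hom))
      have j5 : y ∉ A := fun i => j3 (Or.inl i)
      rcases j2 with j2 | j2
      · exact g'' e (fun i => j1 (k2 i)) j2 y j5 j4
      · exact j2.2.trans_lt (lt_lam h0.le (hne y j5) fun i => j3 (Or.inr i))
    · obtain ⟨A', Φ', k1, k2, k3, k4, k5, k6⟩ := g.step' hr hloop hF.lk h0 hκ Subset.rfl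
        (fun _ _ j => j) (finite_singleton v) (fun w j => j ▸ ⟨hom, hv⟩) (by
          intro w j1 j2 _
          have j := le_antisymm ((le_max_right _ _).trans j1.2) (hκ w j2)
          obtain ⟨j3, e, i, rfl⟩ := g.g5 w j2
          obtain ⟨l1, l2⟩ := h2 e i (g' _ j2)
          obtain ⟨μ, l2, l3⟩ := l2.resolve_left fun l => hθ (j ▸ l)
          exact ⟨hr e, j3, l1, fun J y _ => ⟨μ, l2, fun j => l3 (y j)⟩⟩)
      refine hv ((hmax ⟨(A', Φ'), k1, fun x j => g' x fun i => j (k2 i),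
        fun e j1 j2 y j3 j4 => ?_⟩ ⟨k2, k3, k4⟩).1 (k5 rfl))
      have j5 : y ∉ A := fun i => j3 (k2 i)
      by_cases j6 : h e ∈ A
      · exact g'' e (fun i => j1 (k3 i)) j6 y j5 j4
      · exact (max_le h0.le (k6 _ j2 j6).le).trans_lt
          ((hκ y j5).lt_of_ne fun i => hθ (i ▸ j4))
  have hL : IsLarge t h r L := isLarge_of_just' fun e he => (g.g4 e (hA _) he).just
  refine ⟨L, g.g1, isFlame_of_lk fun x hx => ?_, hL⟩
  have hxΩ : x ∈ Om t h r (lev t h r x) := ⟨hx, le_rfl⟩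
  exact lk_ext (θ := Order.succ (lev t h r x)) (Order.lt_succ_iff.2 (le_max_left _ _)) hx
    (fun k => k.2 rfl) (g.g3 x (hA x) hx) (fun a ha => ha.2)
    (Order.lt_succ_iff.2 (om_cnt (g.g3 x (hA x) hx) hxΩ fun a ha => ha.2))
    fun y k1 k2 Z k3 => hL.avoid' hxΩ (fun k => k1 ⟨k, k2⟩) (Order.lt_succ_iff.1 k3)

end Pool.Agent.P.MP_133cc4_co
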