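import Pool.Agent.P.MP_133cc4_co.CPath

/-! One layer of size `θ`, and the exhaustion of the digraph by such layers. -/

namespace Pool.Agent.P.MP_133cc4_co

open Set Function Relation Cardinal

universe u

variable {V : Type*} {E : Type u} {t h : E → V} {r : V} {θ : Cardinal.{u}} {D G K : Set E}
  {H : Set V}

theorem bubble_rel {L : Set E} (hJ : ∀ e ∈ D, e ∉ L → Just t h r L e) (x : V) :
    ∃ Y U M, Wave t h r L {x} Y U M ∧ (∀ e ∈ D, h e ∈ {x} ∪ Y → t e ∉ {x} ∪ Y → e ∈ L) ∧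
      ∀ Y', WS t h r L ({x} ∪ Y) Y' → Y' = ∅ := by
  obtain ⟨Y, U, M, h1, -, -, h3⟩ := exists_max_ws t h r L {x}
  refine ⟨Y, U, M, h1, fun e he h4 h5 => by_contra fun h6 => ?_, h3⟩
  obtain ⟨Y', U', M', h7, h8⟩ := hJ e he h6
  obtain ⟨U'', M'', h9, -⟩ := h7.enlarge (B' := {x} ∪ Y) (singleton_subset_iff.2 h4)
  exact (eq_empty_iff_forall_notMem.1 (h3 _ ⟨_, _, h9⟩)) _ ⟨h8, h5⟩

theorem clayer (hθ : θ.IsRegular) (h0 : ℵ₀ < θ) (hr : ∀ e, h e ≠ r) (hloop : ∀ e, t e ≠ h e)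
    (hlam : ∀ x, x ≠ r → lam t h r x ≤ θ) (hH : r ∉ H) (hKG : K ⊆ G) (hGD : G ⊆ D)
    (hK : ∀ w ∈ H, #{a | a ∈ K ∧ h a = w} < θ) (hK' : ∀ x, #{a | a ∈ K ∧ h a = x} ≤ θ)
    (hnp : ∀ a ∈ D, h a ∉ H → a ∈ K)
    (hpre : ∀ w ∈ H, ∃ I, w ∉ I ∧
      LL t h Set.univ (K ∪ {a | a ∈ G ∧ h a = w}) I {w} {a | a ∈ G ∧ h a = w} ∧
      ∀ y, y ∉ I → y ≠ w → Rich t h r θ G w y)
    (hwv : ∀ w ∈ H, ∃ Y U M, Wave t h r G {w} Y U M ∧ U ⊆ K ∪ {a | a ∈ G ∧ h a = w} ∧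
      ∀ e ∈ D, h e = w → e ∉ G → t e ∈ Y) (e0 : E) :
    ∃ (C : Set V) (L' : Set E), h e0 ∈ C ∧ (∀ a ∈ L', a ∈ G ∧ h a ∈ C) ∧
      (∀ a ∈ K, h a ∈ C → a ∈ L') ∧ (∀ w ∈ H, Lk t h r L' {w} {a | a ∈ L' ∧ h a = w}) ∧
      ∀ L ⊆ D, (∀ a, h a ∈ C → (a ∈ L ↔ a ∈ L')) → ∀ e ∈ D, h e ∈ C → e ∉ L' → Just t h r L e := by
  have hκ := isRegular_succ h0.le
  have κ0 : ℵ₀ < Order.succ θ := h0.trans (Order.lt_succ θ)
  have κ1 : #PUnit.{u + 1} < Order.succ θ := by simpa using one_lt_aleph0.trans κ0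
  obtain ⟨ι, _, _, hι, -⟩ := exists_index θ
  have : Nonempty ι := mk_ne_zero_iff.1 (hι ▸ hθ.ne_zero)
  have p1 : ∀ w, ∃ I U M, Mat h t I U M ∧ (w ∈ H → w ∉ I ∧
      BS t h Set.univ (K ∪ {a | a ∈ G ∧ h a = w}) I {w} U M ∧ {a | a ∈ G ∧ h a = w} ⊆ U ∧
      ∀ y, y ∉ I → y ≠ w → Rich t h r θ G w y) := fun w => by
    by_cases k : w ∈ H
    · obtain ⟨I, k1, ⟨U, M, k2, k3⟩, k4⟩ := hpre w k
      exact ⟨I, U, M, k2.ff.toMat, fun _ => ⟨k1, k2, k3, k4⟩⟩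
    · exact ⟨∅, ∅, _, (link_empty h t ∅).toMat, fun j => (k j).elim⟩
  choose I1 U1 M1 p1 p2 using p1
  have p3 : ∀ w, ∃ Y U M, Mat t h Y U M ∧ (w ∈ H → Wave t h r G {w} Y U M ∧
      U ⊆ K ∪ {a | a ∈ G ∧ h a = w} ∧ ∀ e ∈ D, h e = w → e ∉ G → t e ∈ Y) := fun w => by
    by_cases k : w ∈ H
    · obtain ⟨Y, U, M, k1⟩ := hwv w k
      exact ⟨Y, U, M, k1.1.ff.toMat, fun _ => k1⟩
    · exact ⟨∅, ∅, _, (link_empty t h ∅).toMat, fun j => (k j).elim⟩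
  choose Y2 U2 M2 p3 p4 using p3
  obtain ⟨g, g1, g2⟩ := club_en (t := t) (h := h) κ0.le (C := fun x S =>
    ((x ≠ r → ¬ Rch t h Sᶜ r x) ∧ {a | a ∈ K ∧ h a = x} ⊆ S) ∧
    ((∀ (_ : PUnit.{u + 1}) a b, M1 x a b → (a ∈ S ↔ b ∈ S)) ∧
      ∀ (_ : PUnit.{u + 1}) a b, M2 x a b → (a ∈ S ↔ b ∈ S)) ∧
    ∀ w ∈ En t h S, ((Reach t h G (En t h S) S x w → StrK t h θ G w x) ∧
      (Reach t h D (En t h S) S x w → StrK t h θ D w x)) ∧
      (Rich t h r θ G x w → Rich t h r θ (G ∩ S) x w)) fun x => by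
    have bl : ∀ (Z : Set E) w, Club (Order.succ θ) fun S =>
        Reach t h Z (En t h S) S x w → StrK t h θ Z w x := fun Z w => club_of_wit (by
      by_cases k : StrK t h θ Z w x
      · exact ⟨∅, by simp, fun _ _ _ => k⟩
      · simp only [StrK, not_forall] at k
        obtain ⟨S, k1, k2⟩ := k
        exact ⟨S, k1, fun M j i => (k2 (i.mono Subset.rfl (En.mono j) j)).elim⟩)
    refine ((Club.and κ0.le (club_of_wit ?_) (club_of_wit ⟨_, hK' x, fun _ k => k⟩)).and κ0.le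
      (((club_rel hκ κ1 fun _ => p1 x).and κ0.le (club_rel hκ κ1 fun _ => p3 x)).and κ0.le
      (club_en κ0.le fun w => ((bl G w).and κ0.le (bl D w)).and κ0.le (club_of_wit ?_))))
    · by_cases k : x = r
      · exact ⟨∅, by simp, fun _ _ j => (j k).elim⟩
      · obtain ⟨S, k1, k2⟩ := cut_of_lam (t := t) (h := h) (Ne.symm k)
        exact ⟨S, k1.trans (max_le h0.le (hlam x k)),
          fun M j _ i => k2 (i.mono (compl_subset_compl.2 j))⟩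
    · by_cases k : Rich t h r θ G x w
      · obtain ⟨X, k1, k2⟩ := k.small h0
        exact ⟨X, k1, fun M j _ Z i => (k2 Z i).mono
          fun a ha => ⟨⟨⟨ha.1.1.1, j ha.1.1.2⟩, ha.1.2⟩, ha.2⟩⟩
      · exact ⟨∅, by simp, fun _ _ j => (k j).elim⟩
  have cg : Club (Order.succ θ) (Clo g) := ⟨g, g1, fun _ k => k⟩
  obtain ⟨S0, s1, s2, s3⟩ := cg.exists_lt hκ κ0 ((finite_singleton e0).lt_aleph0.trans κ0)
  obtain ⟨f, hf0, hf⟩ := exists_seq (fun S : Set E => #S < Order.succ θ ∧ Clo g S)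
    (fun _ S S' => S ⊆ S' ∧ ∀ b : Bool, ∀ x ∈ En t h S, ∃ p : (E ⊕ E) × ι × ι → List E,
      FamK t h θ (cond b G D) S x p ∧ ∀ i, ∀ e ∈ p i, e ∈ S') S0 ⟨s2, s3⟩ (by
      intro _ S hS
      have k := Order.lt_succ_iff.1 hS.1
      choose p k1 k2 using fun (b : Bool) (c : {c : E ⊕ E | Sum.elim id id c ∈ S}) =>
        exists_famK (ι := ι) t h (cond b G D) h0.le hι.le k (Sum.elim t h c.1)
      have k3 := fun b => mk_iUnion_le' h0.le (mk_rep h0.le k) (k2 b)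
      obtain ⟨S', j1, j2, j3⟩ := cg.exists_lt hκ κ0 (Order.lt_succ_iff.2
        (mk_union_le' h0.le k (mk_union_le' h0.le (k3 true) (k3 false))))
      refine ⟨S', ⟨j2, j3⟩, subset_union_left.trans j1, fun b x hx => ?_⟩
      obtain ⟨c, i, rfl⟩ := en_rep hx
      refine ⟨_, k1 b ⟨c, i⟩, fun l e he => j1 (Or.inr ?_)⟩
      cases b
      · exact Or.inr (mem_iUnion.2 ⟨⟨c, i⟩, l, he⟩)
      · exact Or.inl (mem_iUnion.2 ⟨⟨c, i⟩, l, he⟩))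
  have mS : Monotone f := monotone_nat_of_le_succ fun n => (hf n).2.1
  obtain ⟨S, hS⟩ : ∃ S, S = ⋃ n ∈ (Set.univ : Set ℕ), f n := ⟨_, rfl⟩
  have sS : ∀ n, f n ⊆ S := fun n => hS ▸ subset_biUnion_of_mem (u := f) (mem_univ n)
  have eS : ∀ a ∈ S, ∃ n, a ∈ f n := fun a ha => by
    obtain ⟨n, -, k⟩ := mem_iUnion₂.1 (hS ▸ ha)
    exact ⟨n, k⟩
  have eC : ∀ x ∈ En t h S, ∃ n, x ∈ En t h (f n) := fun x ⟨a, k, j⟩ =>
    (eS a k).imp fun n i => ⟨a, i, j⟩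
  have cS : #S ≤ θ := (mk_le_mk_of_subset fun a ha => by
      obtain ⟨n, k⟩ := eS a ha
      exact mem_iUnion.2 ⟨⟨n⟩, k⟩).trans (mk_iUnion_le' (f := fun n : ULift.{u} ℕ => f n.down)
    h0.le (by simpa using h0.le) fun n => Order.lt_succ_iff.1 (hf _).1.1)
  have q := g2 S (hS ▸ clo_union univ_nonempty (fun n _ m k => mS k.le) fun n _ a ha => by
    obtain ⟨l, i⟩ := mem_iUnion.1 ha
    exact ⟨n, trivial, (hf n).1.2 l l.2 i⟩)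
  have qn := fun n => g2 _ (hf n).1.2
  have ends := en_ends t h S
  have fam := fun n => (hf n).2.2
  choose! p hp1 hp2 using fam
  obtain ⟨L', k1, k2, k3, k4', k4'', k5⟩ := layered (G := G ∩ S) (K := K ∩ S) (H := H ∩ En t h S)
    hθ h0 cS inter_subset_right hr hloop (fun k => hH k.1) (inter_subset_inter_left _ hKG)
    (fun w k => lt_of_le_of_lt (mk_le_mk_of_subset fun a ha => And.intro ha.1.1 ha.2) (hK w k.1))
    (fun w k => by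
      obtain ⟨j1, j2, j3, j4⟩ := p2 w k.1
      refine ⟨I1 w ∪ (En t h S)ᶜ, fun j => j.elim j1 fun i => i k.2, ⟨U1 w ∩ S, _,
        ⟨j2.ff.restrict (fun a ha i => ⟨ha.1, i.resolve_right fun l => l (ends a ha.2).1⟩)
          fun a b i ha _ => ⟨j2.ff.memr i, ((q w k.2).2.1.1 PUnit.unit a b i).1 ha.2⟩,
        fun a ha => (j2.sub ha.1).imp (fun i => ⟨i, ha.2⟩) fun i => ⟨⟨i.1, ha.2⟩, i.2⟩,
        fun a ha => j2.tB ha.1, fun a ha => (j2.hIB ha.1).imp_left Or.inl, ls_univ _ _ _⟩,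
        fun a ha => ⟨j3 ⟨ha.1.1, ha.2⟩, ha.1.2⟩⟩, fun y i l => ?_⟩
      exact ((q w k.2).2.2 y (by_contra fun m => i (Or.inr m))).2 (j4 y (fun m => i (Or.inl m)) l))
    (I := {i : ULift.{u} ℕ × (E ⊕ E) × (E ⊕ E) × ι | Sum.elim id id i.2.1 ∈ f i.1.down ∧
      Sum.elim id id i.2.2.1 ∈ S})
    ((mk_le_mk_of_subset fun i hi => And.intro (mem_univ _) ⟨sS _ hi.1, hi.2, mem_univ _⟩).trans
      (mk_prod_le' h0.le (by simpa using h0.le) (mk_prod_le' h0.le (mk_rep h0.le cS)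
        (mk_prod_le' h0.le (mk_rep h0.le cS) (by simpa using hι.le)))))
    (fun i P => ∃ k, P = {e | e ∈ p i.1.down true (Sum.elim t h i.2.1) (i.2.2.1, i.2.2.2, k) ∧
      h e ≠ Sum.elim t h i.2.1}) (by
      intro i hi B hB
      have j1 := hp1 _ true _ (en_of_rep (t := t) (h := h) hi.1)
      have j2 := hp2 _ true _ (en_of_rep (t := t) (h := h) hi.1)
      by_contra hn
      have : ∀ k, ∃ a b, (a ∈ p i.1.down true (Sum.elim t h i.2.1) (i.2.2.1, i.2.2.2, k) ∧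
          h a ≠ Sum.elim t h i.2.1) ∧ b ∈ B ∧ h a = h b := fun k => by
        by_contra l
        exact hn ⟨_, ⟨k, rfl⟩, (List.finite_toSet _).subset fun e he => he.1,
          fun e he => ⟨((j1.1 _).1 e he.1).1, sS _ (j2 _ e he.1)⟩,
          fun a ha b hb m => l ⟨a, b, ha, hb, m⟩⟩
      choose a b l1 l2 l3 using this
      refine hB.not_ge (hι ▸ mk_le_of_injective (f := fun k => (⟨b k, l2 k⟩ : B)) fun k k' m => ?_)
      exact congrArg (fun j : (E ⊕ E) × ι × ι => j.2.2) (j1.2 _ _ _ (l1 k).1 _ (l1 k').1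
        (Or.inr ⟨(l3 k).trans ((congrArg h (Subtype.mk.inj m)).trans (l3 k').symm), (l1 k).2⟩)))
  have k4 : ∀ e ∈ D ∩ S, e ∉ L' → Just t h r L' e := fun e he j => by
    by_cases i : e ∈ G
    · exact k4' e ⟨i, he.2⟩ j
    have l : h e ∈ H := by_contra fun l => i (hKG (hnp e he.1 l))
    obtain ⟨j1, j2, j3⟩ := p4 _ l
    exact k4'' e he.2 ⟨l, (ends e he.2).2⟩ _ (U2 (h e) ∩ S) _ ⟨j1.ff.restrict
      (fun a ha m => ⟨ha.1, m⟩) fun a b m ha _ => ⟨j1.ff.memr m,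
        ((q _ (ends e he.2).2).2.1.2 PUnit.unit a b m).1 ha.2⟩,
      fun a ha => ⟨j1.sub ha.1, ha.2⟩, j1.rY, j1.dis, fun a ha => j1.tB ha.1,
      fun a ha => j1.hYB ha.1, fun a ha m1 m2 m3 => ⟨j1.ent ha.1 m1 m2 m3, ha.2⟩⟩
      (fun a ha => (j2 ha.1).imp (fun m => ⟨m, ha.2⟩) fun m => ⟨⟨m.1, ha.2⟩, m.2⟩)
      (j3 e he.1 rfl i)
  obtain ⟨idx, hidx⟩ := exists_idx (E := E) (ι := ι)
  have cL := hidx L' (hι ▸ (mk_le_mk_of_subset fun a ha => (k2 ha).2).trans cS)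
  have hLZ : L' ⊆ G := fun a ha => (k2 ha).1
  refine ⟨En t h S, L', (ends e0 (sS 0 (hf0 ▸ s1 rfl))).2, fun a ha => ⟨hLZ ha, (ends a (k2 ha).2).2⟩,
    fun a ha j => k1 ⟨ha, (q _ j).1.2 ⟨ha, rfl⟩⟩, fun w hw => ?_, fun L hLG hL e heG heC heL => ?_⟩
  · by_cases k : w ∈ En t h S
    · exact k3 w ⟨hw, k⟩
    · exact lk_empty.mono Subset.rfl fun a ha => k (ha.2 ▸ (ends a (k2 ha.1).2).2)
  obtain ⟨Y, U, M, hw, hcl, hloose⟩ := bubble_rel k4 (h e)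
  have hrB : r ∉ {h e} ∪ Y := fun h1 => h1.elim (fun h2 => hr e h2.symm) hw.rY
  have nr : ¬ Reach t h D (En t h S) S (h e) r := fun k =>
    (q _ heC).1.1 (hr e) (Rch.mono k fun a ha => ha.2.1)
  have hin : ∀ n, ∀ y ∈ En t h (f n), y ∈ {h e} ∪ Y →
      ∀ z, Reach t h G (En t h (f n)) (f n) y z → z ∈ {h e} ∪ Y := by
    intro n y h1 h2 z h3
    refine in_of_reachK cL hLZ (fun w k => ((qn n y h1).2.2 w k).1.1)
      (fun h4 => (qn n y h1).1.1 (fun h5 => hrB (h5 ▸ h2)) (Rch.mono h4 fun a ha => ha.2.1))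
      hcl hloose h2 (hp1 n true y h1)
      (fun i a ha => ⟨hGD (((hp1 n true y h1).1 i).1 a ha).1, sS _ (hp2 n true y h1 i a ha)⟩)
      (fun c h4 j => ?_) h3
    obtain ⟨c', i, rfl⟩ := en_rep h1
    obtain ⟨_, ⟨k, rfl⟩, hk⟩ := k5 (⟨n⟩, c', c, j) ⟨i, sS n h4⟩
    exact ⟨k, fun a h5 h6 => hk ⟨h5, h6⟩⟩
  have hstr : ∀ w ∈ En t h S, Reach t h D (En t h S) S (h e) w → w ∈ {h e} ∪ Y := by
    intro w h1 h2
    obtain ⟨n, h3⟩ := eC _ heC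
    obtain ⟨m, h4⟩ := eC _ h1
    have h3 := En.mono (mS (le_max_left n m)) h3
    exact in_of_strK cL hcl hloose (Or.inl rfl) (hp1 _ false _ h3)
      (fun i a ha => ⟨(((hp1 _ false _ h3).1 i).1 a ha).1, sS _ (hp2 _ false _ h3 i a ha)⟩)
      (tail_mem_of_wave hw hLZ (en_ends t h _) h3 (hin _)) (En.mono (mS (le_max_right n m)) h4)
      (fun h6 => nr (h6 ▸ h2)) (((q _ heC).2.2 w h1).1.2 h2)
  have hU : ∀ a ∈ U, h a ∈ En t h S := fun a ha => (ends a (k2 (hw.sub ha)).2).2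
  have hfe : ∀ a ∈ D, a ∉ S → (h a ∈ En t h S → h a = h e) →
      Reach t h D (En t h S) S (h e) (h a) → t a ≠ h e →
      t a ∈ Y ∩ En t h S ∪ {z | z ∉ En t h S ∧ Reach t h D (En t h S) S (h e) z} := by
    intro a h1 h2 h3 h4 h5
    have h6 := Reach.step ⟨h1, h2, h3⟩ h4
    by_cases h7 : t a ∈ En t h S
    · exact Or.inl ⟨(hstr _ h7 h6).resolve_left h5, h7⟩
    · exact Or.inr ⟨h7, h6⟩
  refine ⟨Y ∩ En t h S ∪ {z | z ∉ En t h S ∧ Reach t h D (En t h S) S (h e) z}, U, _,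
    ⟨hw.ff.restrict
    (fun a ha h1 => ⟨ha, h1.elim (fun h2 => h2.1) fun h2 => (h2.1 (hU a ha)).elim⟩)
    (fun _ _ hab _ _ => hw.ff.memr hab), fun a ha => (hL a (hU a ha)).2 (hw.sub ha), ?_, ?_, hw.tB,
    fun a ha => (hw.hYB ha).imp_left fun h1 => Or.inl ⟨h1, hU a ha⟩, ?_⟩, ?_⟩
  · exact fun h1 => h1.elim (fun h2 => hw.rY h2.1) fun h2 => nr h2.2
  · rintro y (h1 | h1) h2
    · exact hw.dis h1.1 h2
    · exact h1.1 (mem_singleton_iff.1 h2 ▸ heC)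
  · rintro a ha (h1 | h1) h2 h3
    · have h4 := (hL a h1.2).1 ha
      exact hw.ent h4 h1.1 (fun h5 => h2 (Or.inl ⟨h5, (ends a (k2 h4).2).1⟩)) h3
    · exact (h2 (hfe a (hLG ha) (fun h4 => h1.1 (ends a h4).2) (fun h4 => (h1.1 h4).elim) h1.2
        h3)).elim
  · by_cases h1 : e ∈ S
    · refine Or.inl ⟨Or.resolve_left (by_contra fun h2 => ?_) (hloop e), (ends e h1).1⟩
      exact heL (hcl e ⟨heG, h1⟩ (Or.inl rfl) h2)
    · exact hfe e heG h1 (fun _ => rfl) ReflTransGen.refl (hloop e)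

theorem Lk.card_le {L T : Set E} {x : V} (hx : x ≠ r) (H : Lk t h r L {x} T)
    (hT : ∀ a ∈ T, h a = x) : #T ≤ max ℵ₀ (lam t h r x) := by
  obtain ⟨S, k1, k2⟩ := cut_of_lam (t := t) (h := h) hx.symm
  exact ((H.ll hT).cnt (fun k => k.2 rfl) hT fun y j i =>
    (by_contra fun l => j ⟨l, i⟩ : y = r) ▸ k2).trans k1

theorem layered_all (hθ : θ.IsRegular) (h0 : ℵ₀ < θ) (hr : ∀ e, h e ≠ r) (hloop : ∀ e, t e ≠ h e)
    (hlam : ∀ x, x ≠ r → lam t h r x ≤ θ) (hH : r ∉ H) (hKG : K ⊆ G) (hGD : G ⊆ D)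
    (hK : ∀ w ∈ H, #{a | a ∈ K ∧ h a = w} < θ) (hK' : ∀ x, #{a | a ∈ K ∧ h a = x} ≤ θ)
    (hnp : ∀ a ∈ D, h a ∉ H → a ∈ K)
    (hpre : ∀ w ∈ H, ∃ I, w ∉ I ∧
      LL t h Set.univ (K ∪ {a | a ∈ G ∧ h a = w}) I {w} {a | a ∈ G ∧ h a = w} ∧
      ∀ y, y ∉ I → y ≠ w → Rich t h r θ G w y)
    (hwv : ∀ w ∈ H, ∃ Y U M, Wave t h r G {w} Y U M ∧ U ⊆ K ∪ {a | a ∈ G ∧ h a = w} ∧
      ∀ e ∈ D, h e = w → e ∉ G → t e ∈ Y) :
    ∃ L, K ⊆ L ∧ L ⊆ G ∧ (∀ w ∈ H, Lk t h r L {w} {a | a ∈ L ∧ h a = w}) ∧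
      ∀ e ∈ D, e ∉ L → Just t h r L e := by
  let Gd : Set V × Set E → Prop := fun p => (∀ a ∈ p.2, a ∈ G ∧ h a ∈ p.1) ∧
    (∀ a ∈ K, h a ∈ p.1 → a ∈ p.2) ∧
    (∀ x ∈ p.1, x ∈ H → Lk t h r p.2 {x} {a | a ∈ p.2 ∧ h a = x}) ∧
    ∀ L ⊆ D, (∀ a, h a ∈ p.1 → (a ∈ p.2 ↔ a ∈ L)) → ∀ e ∈ D, h e ∈ p.1 → e ∉ p.2 → Just t h r L e
  let R : {p // Gd p} → {p // Gd p} → Prop := fun p q =>
    p.1.1 ⊆ q.1.1 ∧ ∀ a, h a ∈ p.1.1 → (a ∈ p.1.2 ↔ a ∈ q.1.2)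
  have : Nonempty {p // Gd p} := ⟨⟨(∅, ∅), fun _ h1 => h1.elim,
    fun _ _ h1 => h1.elim, fun _ h1 => h1.elim, fun _ _ _ _ _ h1 => h1.elim⟩⟩
  obtain ⟨⟨⟨A, L⟩, g2, g3, g4, g5⟩, hmax⟩ := exists_maximal_of_nonempty_chains_bounded (r := R)
    (by
      intro C hC _
      have key : ∀ p ∈ C, ∀ a, h a ∈ p.1.1 → (a ∈ p.1.2 ↔ a ∈ ⋃ q ∈ C, q.1.2) := by
        intro p hp a ha
        refine ⟨fun h1 => mem_biUnion hp h1, fun h1 => ?_⟩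
        obtain ⟨q, hq, h2⟩ := mem_iUnion₂.1 h1
        by_cases hpq : p = q
        · exact hpq ▸ h2
        rcases hC hp hq hpq with h3 | h3
        · exact (h3.2 a ha).2 h2
        · exact (h3.2 a (q.2.1 a h2).2).1 h2
      refine ⟨⟨(⋃ q ∈ C, q.1.1, ⋃ q ∈ C, q.1.2), ?_, ?_, ?_, ?_⟩,
        fun p hp => ⟨subset_biUnion_of_mem (u := fun q : {p // Gd p} => q.1.1) hp, key p hp⟩⟩
      · intro a h1
        obtain ⟨q, hq, h2⟩ := mem_iUnion₂.1 h1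
        exact ⟨(q.2.1 a h2).1, mem_biUnion hq (q.2.1 a h2).2⟩
      · intro a ha h1
        obtain ⟨q, hq, h2⟩ := mem_iUnion₂.1 h1
        exact mem_biUnion hq (q.2.2.1 a ha h2)
      · intro x h1 hx
        obtain ⟨q, hq, h2⟩ := mem_iUnion₂.1 h1
        exact (q.2.2.2.1 x h2 hx).mono
          (subset_biUnion_of_mem (u := fun q : {p // Gd p} => q.1.2) hq)
          fun a ha => ⟨(key q hq a (ha.2 ▸ h2)).2 ha.1, ha.2⟩
      · intro L hLD hL e he h1 h3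
        obtain ⟨q, hq, h2⟩ := mem_iUnion₂.1 h1
        exact q.2.2.2.2 L hLD (fun a ha => (key q hq a ha).trans (hL a (mem_biUnion hq ha))) e he h2
          fun h4 => h3 (mem_biUnion hq h4))
    (fun h1 h2 => ⟨h1.1.trans h2.1, fun a ha => (h1.2 a ha).trans (h2.2 a (h1.1 ha))⟩)
  dsimp only at g2 g3 g4 g5
  have hA : ∀ e0, h e0 ∈ A := by
    intro e0
    have sub : ∀ w, w ∉ A → K ∪ {a | a ∈ G ∧ h a = w} ⊆
        (K ∪ L) ∪ {a | a ∈ {a | a ∈ G ∧ (h a ∈ A → a ∈ L)} ∧ h a = w} := fun w k a ha =>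
      ha.elim (fun j => Or.inl (Or.inl j)) fun j => Or.inr ⟨⟨j.1, fun i => (k (j.2 ▸ i)).elim⟩, j.2⟩
    have kg : K ∪ L ⊆ {a | a ∈ G ∧ (h a ∈ A → a ∈ L)} :=
      union_subset (fun a ha => ⟨hKG ha, g3 a ha⟩) fun a ha => ⟨(g2 a ha).1, fun _ => ha⟩
    obtain ⟨C, L', hvC, k1, k2, k3, k4⟩ := clayer (K := K ∪ L) (H := H \ A)
      (G := {a | a ∈ G ∧ (h a ∈ A → a ∈ L)}) (D := {a | a ∈ D ∧ (h a ∈ A → a ∈ L)})
      hθ h0 hr hloop hlam (fun k => hH k.1) kg (fun a ha => ⟨hGD ha.1, ha.2⟩)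
      (fun w k => lt_of_le_of_lt (mk_le_mk_of_subset fun a ha => And.intro
        (ha.1.resolve_right fun j => k.2 (ha.2 ▸ (g2 a j).2)) ha.2) (hK w k.1))
      (fun x => by
        by_cases k : x ∈ A ∧ x ∈ H
        · have i : x ≠ r := fun i => hH (i ▸ k.2)
          exact le_trans (mk_le_mk_of_subset fun a ha => And.intro
            (ha.1.elim (fun j => g3 a j (ha.2 ▸ k.1)) id) ha.2)
            (((g4 x k.1 k.2).card_le i fun a ha => ha.2).trans (max_le h0.le (hlam x i)))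
        · exact le_trans (mk_le_mk_of_subset fun a ha => And.intro (ha.1.elim id fun j =>
            hnp a (hGD (g2 a j).1) fun i => k (ha.2 ▸ ⟨(g2 a j).2, i⟩)) ha.2) (hK' x))
      (fun a ha k => (Classical.em (h a ∈ A)).elim (fun j => Or.inr (ha.2 j))
        fun j => Or.inl (hnp a ha.1 fun i => k ⟨i, j⟩))
      (fun w k => by
        obtain ⟨I, j1, j2, j3⟩ := hpre w k.1
        refine ⟨I, j1, j2.mono (sub w k.2) fun a ha => ⟨ha.1.1, ha.2⟩, fun y i1 i2 Z hZ => ?_⟩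
        refine (rich_of_just (L := {e | (e ∈ G ∧ (h e ∈ A → e ∈ L)) ∧ h e ≠ w})
          (D := {e | e ∈ G ∧ h e ≠ w}) (fun e l1 l2 => ?_)
          (fun Z l => (j3 y i1 i2 Z l).mono fun e i => ⟨⟨i.1.1, i.2⟩, i.1.2⟩) Z hZ).mono
          fun e i => ⟨⟨i.1.1, i.2⟩, i.1.2⟩
        have m : h e ∈ A := by_contra fun m => l2 ⟨⟨l1.1, fun n => (m n).elim⟩, l1.2⟩
        refine g5 _ (fun a ha => hGD ha.1.1) (fun a n => ?_) e (hGD l1.1) m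
          fun n => l2 ⟨⟨l1.1, fun _ => n⟩, l1.2⟩
        exact ⟨fun o => ⟨⟨(g2 a o).1, fun _ => o⟩, fun o => k.2 (o ▸ n)⟩, fun o => o.1.2 n⟩)
      (fun w k => by
        obtain ⟨Y, U, M, j1, j2, j3⟩ := hwv w k.1
        exact ⟨Y, U, M, j1.regraph ((j2.trans (sub w k.2)).trans
          (union_subset kg fun a ha => ha.1)) fun a ha _ _ _ => ha.1, j2.trans (sub w k.2),
          fun e i l m => j3 e i.1 l fun n => m ⟨n, i.2⟩⟩) e0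
    have e1 : ∀ a, h a ∈ A → (a ∈ L ↔ a ∈ L ∪ L') := fun a ha =>
      ⟨Or.inl, fun h1 => h1.elim id fun h2 => (k1 a h2).1.2 ha⟩
    have e2 : ∀ a, h a ∈ C → (a ∈ L' ↔ a ∈ L ∪ L') := fun a ha =>
      ⟨Or.inr, fun h1 => h1.elim (fun h2 => k2 a (Or.inr h2) ha) id⟩
    refine (hmax ⟨(A ∪ C, L ∪ L'), ?_, ?_, ?_, ?_⟩ ⟨subset_union_left, e1⟩).1 (Or.inr hvC)
    · exact fun a ha => ha.elim (fun j => ⟨(g2 a j).1, Or.inl (g2 a j).2⟩)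
        fun j => ⟨(k1 a j).1.1, Or.inr (k1 a j).2⟩
    · exact fun a ha h1 => h1.imp (g3 a ha) (k2 a (Or.inl ha))
    · intro x h1 hx
      by_cases k : x ∈ A
      · exact (g4 x k hx).mono subset_union_left fun a ha => ⟨(e1 a (ha.2 ▸ k)).2 ha.1, ha.2⟩
      · exact (k3 x ⟨hx, k⟩).mono subset_union_right
          fun a ha => ⟨(e2 a (ha.2 ▸ h1.resolve_left k)).2 ha.1, ha.2⟩
    · intro L2 hL1 hL2 e he h1 h2
      have h4 : ∀ a, h a ∈ A → (a ∈ L ↔ a ∈ L2) := fun a ha => (e1 a ha).trans (hL2 a (Or.inl ha))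
      by_cases h3 : h e ∈ A
      · exact g5 L2 hL1 h4 e he h3 fun h5 => h2 (Or.inl h5)
      · exact k4 L2 (fun a ha => ⟨hL1 ha, fun h5 => (h4 a h5).2 ha⟩)
          (fun a ha => ((e2 a ha).trans (hL2 a (Or.inr ha))).symm) e ⟨he, fun h5 => (h3 h5).elim⟩
          (h1.resolve_left h3) fun h5 => h2 (Or.inr h5)
  refine ⟨L, fun a ha => g3 a ha (hA _), fun a ha => (g2 a ha).1, fun x hx => ?_,
    fun e he => g5 L (fun a ha => hGD (g2 a ha).1) (fun _ _ => Iff.rfl) e he (hA _)⟩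
  by_cases k : x ∈ A
  · exact g4 x k hx
  · exact lk_empty.mono (empty_subset _) fun a ha => k (ha.2 ▸ hA a)

end Pool.Agent.P.MP_133cc4_co
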