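import Pool.Agent.P.MP_133cc4_co.BFinal

/-! Contracting the higher levels, and regular levels without domination. -/

namespace Pool.Agent.P.MP_133cc4_co

open Set Function Relation Cardinal

universe u

variable {V : Type*} {E : Type u} {t h : E → V} {r x y : V} {F G L S T U Φ : Set E}
  {A I Y Ω : Set V} {M : E → E → Prop} {κ : Cardinal.{u}} {e : E}

open Classical in
/-- The tail map after contracting everything outside `Ω` to the root and cutting off the edges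
that end outside `Ω`. -/
noncomputable def cT (t h : E → V) (r : V) (Ω : Set V) (e : E) : Option V :=
  if h e ∈ Ω then (if t e ∈ Ω then some (t e) else some r) else none

theorem cT_in (h1 : h e ∈ Ω) (h2 : t e ∈ Ω) : cT t h r Ω e = some (t e) :=
  (if_pos h1).trans (if_pos h2)

theorem cT_root (h1 : h e ∈ Ω) (h2 : t e ∉ Ω) : cT t h r Ω e = some r :=
  (if_pos h1).trans (if_neg h2)

theorem cT_out (h1 : h e ∉ Ω) : cT t h r Ω e = none := if_neg h1

theorem cT_some (H : cT t h r Ω e = some y) (hy : y ≠ r) : t e = y ∧ h e ∈ Ω ∧ y ∈ Ω := by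
  by_cases k1 : h e ∈ Ω
  · by_cases k2 : t e ∈ Ω
    · obtain rfl := Option.some.inj ((cT_in k1 k2).symm.trans H)
      exact ⟨rfl, k1, k2⟩
    · exact (hy (Option.some.inj ((cT_root k1 k2).symm.trans H)).symm).elim
  · simp [cT_out k1] at H

theorem rch_push (H : Rch t h S r y) (hr : r ∉ Ω) (hy : y ∈ Ω ∨ y = r) :
    Rch (cT t h r Ω) (fun e => some (h e)) {e | e ∈ S ∧ h e ∈ Ω} (some r) (some y) := by
  induction H with
  | refl => exact ReflTransGen.refl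
  | tail _ j ih =>
    obtain ⟨e, he, rfl, rfl⟩ := j
    rcases hy with k | k
    · by_cases i : t e ∈ Ω
      · exact (ih (Or.inl i)).tail ⟨e, ⟨he, k⟩, cT_in k i, rfl⟩
      · exact ReflTransGen.single ⟨e, ⟨he, k⟩, cT_root k i, rfl⟩
    · exact k ▸ ReflTransGen.refl

theorem ll_push (H : LL t h Set.univ G I {x} T) (hr : r ∉ Ω) (hx : x ∈ Ω) (hI : I ⊆ Ω)
    {I' : Set (Option V)} (h1 : some r ∉ I') (h2 : ∀ y ∈ Ω, some y ∈ I' ↔ y ∈ I) :
    LL (cT t h r Ω) (fun e => some (h e)) Set.univ {a | a ∈ G ∧ h a ∈ Ω} I' {some x} T := by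
  obtain ⟨U, M, j1, j2⟩ := H
  have j3 : ∀ a ∈ U, h a ∈ Ω := fun a ha => (j1.hIB ha).elim (fun i => hI i) fun i => i ▸ hx
  refine ⟨U, M, ⟨j1.ff.pull (fun a ha => ?_) fun a b hab => ?_, fun a ha => ⟨j1.sub ha, j3 a ha⟩,
    fun a ha i => j1.tB ha (cT_some i fun l => hr (l ▸ hx)).1, fun a ha => (j1.hIB ha).imp
      (h2 _ (j3 a ha)).2 fun i => congrArg some i, ls_univ _ _ _⟩, j2⟩
  · by_cases k : t a ∈ Ω
    · rw [cT_in (j3 a ha) k, h2 _ k]
    · rw [cT_root (j3 a ha) k]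
      exact ⟨fun i => (k (hI i)).elim, fun i => (h1 i).elim⟩
  · rw [cT_in (j3 a (j1.ff.meml hab)) (hI (j1.ff.int hab)), j1.ff.adj hab]

theorem wave_push (H : Wave t h r Set.univ {x} Y U M) (hr : r ∉ Ω) (hx : x ∈ Ω) (hY : Y ⊆ Ω) :
    Wave (cT t h r Ω) (fun e => some (h e)) (some r) Set.univ {some x} (some '' Y) U M := by
  have j3 : ∀ a ∈ U, h a ∈ Ω := fun a ha => (H.hYB ha).elim (fun i => hY i) fun i => i ▸ hx
  have e : ∀ y, some y ∈ some '' Y ↔ y ∈ Y := fun y => (Option.some_injective V).mem_set_image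
  refine ⟨H.ff.pull (fun a _ => (e _).symm) fun a b hab => ?_, subset_univ _,
    fun k => H.rY ((e _).1 k), ?_, fun a ha i => H.tB ha (cT_some i fun l => hr (l ▸ hx)).1,
    fun a ha => (H.hYB ha).imp (e _).2 fun i => congrArg some i, fun a _ i1 i2 i3 => ?_⟩
  · rw [cT_in (j3 b (H.ff.memr hab)) (hY (H.ff.toMat.int' hab)), H.ff.adj hab]
  · rintro _ ⟨y, k, rfl⟩ i
    exact H.dis k (Option.some.inj i)
  · have k := (e _).1 i1
    exact H.ent trivial k (fun l => i2 (cT_in (hY k) (hY l) ▸ (e _).2 l))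
      fun l => i3 ((cT_in (hY k) (l ▸ hx)).trans (congrArg some l))

theorem lk_pull (H : Lk (cT t h r Ω) (fun e => some (h e)) (some r) L {some x} T)
    (hr : ∀ e, h e ≠ r) (hΩ : r ∉ Ω) (hx : x ∈ Ω) :
    LL t h Set.univ {a | a ∈ L ∧ h a ∈ Ω} (Ω \ {x}) {x} T := by
  obtain ⟨U, M, j1, j2, j3, j4⟩ := H
  have j5 : ∀ a ∈ U, h a ∈ Ω := fun a ha => by_contra fun i => by
    obtain ⟨b, l⟩ := j1.tot ha (by simp [cT_out i])
    have := j1.adj l
    simp [cT_out i] at this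
  refine ⟨U, M, ⟨j1.pull (fun a ha => ?_) fun a b hab => (cT_some (j1.adj hab) (hr b)).1,
    fun a ha => ⟨j2 ha, j5 a ha⟩,
    fun a ha i => j3 a ha ((cT_in (j5 a ha) (i ▸ hx)).trans (congrArg some i)),
    fun a ha => (Classical.em _).symm.imp_left fun i => ⟨j5 a ha, i⟩, ls_univ _ _ _⟩, j4⟩
  by_cases k : t a ∈ Ω
  · rw [cT_in (j5 a ha) k]
    exact ⟨fun i => ⟨k, fun l => i.2 (congrArg some l)⟩, fun i =>
      ⟨fun l => hΩ (Option.some.inj l ▸ k), fun l => i.2 (Option.some.inj l)⟩⟩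
  · rw [cT_root (j5 a ha) k]
    exact ⟨fun i => (i.1 rfl).elim, fun i => (k i.1).elim⟩

theorem ji_pull (hJ : ∀ e, h e ∈ Ω → e ∉ L → Just (cT t h r Ω) (fun e => some (h e)) (some r) L e)
    (hr : ∀ e, h e ≠ r) (hloop : ∀ e, t e ≠ h e) (hΩ : r ∉ Ω) (j1 : h e ∈ Ω) (j2 : e ∉ L) :
    JI t h r Set.univ {a | a ∈ L ∧ h a ∈ Ω} Ω e := by
  obtain ⟨Y, U, M, hw, hcl, -⟩ := bubble_rel (D := {e | h e ∈ Ω}) hJ (some (h e))
  have tl : ∀ a, h a ∈ Ω → cT t h r Ω a ∈ {some (h e)} ∪ Y →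
      t a = h e ∨ (t a ∈ Ω ∧ some (t a) ∈ Y) := by
    rintro a i (l | l)
    · exact Or.inl (cT_some l (hr e)).1
    · by_cases m : t a ∈ Ω
      · exact Or.inr ⟨m, cT_in (r := r) i m ▸ l⟩
      · exact (hw.rY (cT_root (r := r) i m ▸ l)).elim
  have ff := hw.ff.restrict (Y' := Y) (C := {a | a ∈ U ∧ h a ∈ Ω}) (fun a ha i => ⟨ha.1, i⟩)
    fun a b hab _ _ => ⟨hw.ff.memr hab, (cT_some (hw.ff.adj hab).symm (hr a)).2.1⟩
  refine ⟨{y | y ∈ Ω ∧ some y ∈ Y}, fun y hy => hy.1, _, _, ⟨ff.pull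
    (fun a ha => ⟨fun i => ⟨ha.2, i⟩, fun i => i.2⟩)
      fun a b hab => (cT_some (hw.ff.adj hab.1).symm (hr a)).1.symm, subset_univ _,
      fun i => hΩ i.1, fun y hy i => hw.dis hy.2 (congrArg some i),
      fun a ha i => hw.tB ha.1 ((cT_in ha.2 (i ▸ j1)).trans (congrArg some i)),
      fun a ha => (hw.hYB ha.1).imp (fun i => ⟨ha.2, i⟩) fun i => Option.some.inj i,
      fun a _ i1 i2 i3 => ?_⟩, fun a ha => ⟨hw.sub ha.1, ha.2⟩, ?_⟩
  · have i4 : cT t h r Ω a ∉ {some (h e)} ∪ Y := fun l => (tl a i1.1 l).elim i3 i2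
    exact ⟨hw.ent (hcl a i1.1 (Or.inr i1.2) i4) i1.2 (fun l => i4 (Or.inr l))
      fun l => i4 (Or.inl l), i1.1⟩
  · exact (tl e j1 (by_contra fun l => j2 (hcl e j1 (Or.inl rfl) l))).resolve_left (hloop e)

theorem lam_push (h0 : ℵ₀ ≤ κ) (v : Option V) (hv : v ≠ some r) :
    lam (cT t h r (Om t h r κ)) (fun e => some (h e)) (some r) v ≤ κ := by
  obtain ⟨S, k1, k2⟩ : ∃ S : Set E, #S ≤ κ ∧ ∀ y ∈ Om t h r κ, v = some y → ¬ Rch t h Sᶜ r y := by
    by_cases k : ∃ y ∈ Om t h r κ, v = some y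
    · obtain ⟨y, j, rfl⟩ := k
      obtain ⟨S, i1, i2⟩ := cut_of_lam (t := t) (h := h) j.1.symm
      exact ⟨S, i1.trans j.2, fun y' _ l => Option.some.inj l ▸ i2⟩
    · exact ⟨∅, by simp, fun y j i => (k ⟨y, j, i⟩).elim⟩
  have key : ∀ v, Rch (cT t h r (Om t h r κ)) (fun e => some (h e)) Sᶜ (some r) v →
      ∃ y, v = some y ∧ (y = r ∨ y ∈ Om t h r κ) ∧ Rch t h Sᶜ r y := by
    intro v H
    induction H with
    | refl => exact ⟨r, rfl, Or.inl rfl, ReflTransGen.refl⟩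
    | tail _ j ih =>
      obtain ⟨e, he, rfl, rfl⟩ := j
      obtain ⟨y, j1, -, j2⟩ := ih
      have i : h e ∈ Om t h r κ := by_contra fun i => by simp [cT_out i] at j1
      refine ⟨_, rfl, Or.inr i, ReflTransGen.tail ?_ ⟨e, he, rfl, rfl⟩⟩
      by_cases l : t e ∈ Om t h r κ
      · exact Option.some.inj ((cT_in i l).symm.trans j1) ▸ j2
      by_cases m : t e = r
      · exact m ▸ ReflTransGen.refl
      · exact rch_of_lam (k1.trans_lt (lt_lam h0 m l))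
  refine ciSup_le' fun P => (fam_le (S := S) P.2 fun i => ?_).trans k1
  obtain ⟨y, i1, i2, i3⟩ := key _ i
  exact k2 y (i2.resolve_left fun l => hv (l ▸ i1)) i1 i3

theorem Wave.lev_le (H : Wave t h r Set.univ {x} Y U M) (hx : x ≠ r) :
    Y ⊆ Om t h r (lev t h r x) := by
  intro y hy
  by_contra hn
  obtain ⟨S, k1, k2⟩ := cut_of_lam (t := t) (h := h) hx.symm
  obtain ⟨U', M', j1, j2, -⟩ := H.link
  have key : ∀ v, Rch t h (S ∪ {a | ∃ b ∈ S, ReflTransGen M' a b})ᶜ r v → Rch t h Sᶜ r v ∧ v ∉ Y := by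
    intro v hv
    induction hv with
    | refl => exact ⟨ReflTransGen.refl, H.rY⟩
    | tail _ j ih =>
      obtain ⟨e, he, rfl, rfl⟩ := j
      have i : Rch t h Sᶜ r (h e) := ih.1.tail ⟨e, fun l => he (Or.inl l), rfl, rfl⟩
      refine ⟨i, fun l => k2 ?_⟩
      obtain ⟨c, l1, l2, l3⟩ := j1.ff.exists_end
        (j1.ent trivial l ih.2 fun m => k2 (mem_singleton_iff.1 m ▸ ih.1))
      exact i.trans (mem_singleton_iff.1 ((j1.hYB l2).resolve_left l3) ▸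
        j1.ff.toMat.reach l1 fun b m n => he (Or.inr ⟨b, n, m⟩))
  exact (key y (rch_of_lam ((mk_union_le' (le_max_left _ _) k1 ((j2.card_le fun a ha => ha).trans
    (max_le (le_max_left _ _) k1))).trans_lt
    (lt_lam (le_max_left _ _) (fun k => H.rY (k ▸ hy)) hn)))).2 hy

theorem JI.lev (H : JI t h r Set.univ Φ Ω e) (he : h e ≠ r) :
    JI t h r Set.univ Φ (Om t h r (lev t h r (h e))) e := by
  obtain ⟨Y, -, U, M, k⟩ := H
  exact ⟨Y, k.1.lev_le he, U, M, k⟩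

theorem good_start_one (hr : ∀ e, h e ≠ r) (hloop : ∀ e, t e ≠ h e)
    (hF : ∀ x, x ≠ r → Lk t h r F {x} {a | a ∈ F ∧ h a = x})
    (hc : ∀ x, lam t h r x = ℵ₁ → #{a | a ∈ F ∧ h a = x} ≤ ℵ₀) :
    ∃ A Φ, Good t h r F A Φ ∧ (∀ x, x ∉ A → ℵ₁ < lam t h r x) ∧
      ∀ e, e ∉ Φ → h e ∈ A → lev t h r (h e) ≤ ℵ₁ := by
  have h0 : ℵ₀ < (ℵ₁ : Cardinal.{u}) := aleph0_lt_aleph_one
  have hΩ : r ∉ Om t h r ℵ₁ := fun k => k.1 rfl
  have om : ∀ x, x ≠ r → ¬ ℵ₁ < lam t h r x → x ∈ Om t h r ℵ₁ := fun x k j =>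
    ⟨k, max_le h0.le (not_lt.1 j)⟩
  obtain ⟨L, k1, k2, k3⟩ := aleph_core (t := cT t h r (Om t h r ℵ₁)) (h := fun e => some (h e))
    (r := some r) (F := {a | a ∈ F ∧ h a ∈ Om t h r ℵ₁}) (fun e k => hr e (Option.some.inj k))
    (fun e k => hloop e (cT_some k (hr e)).1) (lam_push h0.le) (fun v hv => by
      by_cases k : ∃ x ∈ Om t h r ℵ₁, v = some x
      swap
      · exact lk_empty.mono (empty_subset _) fun a ha => k ⟨h a, ha.1.2, ha.2.symm⟩
      obtain ⟨x, k, rfl⟩ := k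
      exact (ll_push (((hF x k.1).ll fun a ha => ha.2).shrink (I' := Om t h r ℵ₁ \ {x})
        (fun y hy => ⟨hy.1.1, hy.2⟩) Subset.rfl (T' := {a | a ∈ F ∧ h a = x})
        fun a ha => ⟨ha, ha.2⟩) hΩ k sdiff_subset (I' := Out (some r) {some x}) (fun i => i.1 rfl)
        fun y i => ⟨fun l => ⟨i, fun m => l.2 (congrArg some m)⟩, fun l =>
          ⟨fun m => i.1 (Option.some.inj m), fun m => l.2 (Option.some.inj m)⟩⟩).lk.mono
        Subset.rfl fun a ha => ⟨ha.1.1, Option.some.inj ha.2⟩) (fun v => by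
      by_cases k : ∃ x ∈ Om t h r ℵ₁, v = some x
      swap
      · exact (mk_le_mk_of_subset (t := ∅) fun a ha => k ⟨h a, ha.1.2, ha.2.symm⟩).trans (by simp)
      obtain ⟨x, k, rfl⟩ := k
      refine le_trans (mk_le_mk_of_subset (t := {a | a ∈ F ∧ h a = x})
        fun a ha => ⟨ha.1.1, Option.some.inj ha.2⟩) ?_
      rcases ((le_max_right _ _).trans k.2).eq_or_lt with j | j
      · exact hc x j
      · exact ((hF x k.1).card_le k.1 fun a ha => ha.2).trans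
          (max_le le_rfl (lt_aleph_one_iff.1 j)))
  refine ⟨{x | ℵ₁ < lam t h r x → ∀ e, h e = x → e ∈ F}, F ∪ {a | a ∈ L ∧ h a ∈ Om t h r ℵ₁},
    ⟨subset_union_left, fun a ha k => ha.resolve_right fun j => k fun i =>
      (i.not_ge ((le_max_right _ _).trans j.2.2)).elim, fun x _ hx => ?_, fun e j1 j2 => ?_,
    fun x hx => ?_⟩, fun x hx => by_contra fun k => hx fun j => (k j).elim,
    fun e j1 j2 => (om _ (hr e) fun k => j1 (Or.inl (j2 k e rfl))).2⟩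
  · by_cases k : ℵ₁ < lam t h r x
    · exact (((hF x hx).ll fun a ha => ha.2).shrink (fun y hy => ⟨hy.1.1, hy.2⟩) Subset.rfl
        fun a ha => ⟨⟨ha.1.resolve_right fun j => k.not_ge (ha.2 ▸ (le_max_right _ _).trans j.2.2),
          ha.2⟩, ha.2⟩).mono subset_union_left Subset.rfl
    · have i := om x hx k
      exact ((lk_pull (k2 (some x) fun l => hx (Option.some.inj l)) hr hΩ i).shrink
        (fun y hy => ⟨⟨hy.1.1, hy.1.2.trans i.2⟩, hy.2⟩) Subset.rfl fun a ha =>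
          ⟨⟨ha.1.elim (fun j => k1 ⟨j, ha.2 ▸ i⟩) fun j => j.1, congrArg some ha.2⟩, ha.2⟩).mono
        subset_union_right Subset.rfl
  · have i := om _ (hr e) fun k => j2 (Or.inl (j1 k e rfl))
    exact ((ji_pull (fun e _ => k3 e) hr hloop hΩ i fun k => j2 (Or.inr ⟨k, i⟩)).lev (hr e)).mono
      subset_union_right Subset.rfl
  · simp only [mem_ofPred_eq, not_forall] at hx
    obtain ⟨k, e, i, j⟩ := hx
    exact ⟨h0.trans k, e, j, i⟩

end Pool.Agent.P.MP_133cc4_co
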