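import Pool.Agent.P.MP_133cc4_co.BWorld

/-! Families of paths that cannot be blocked by few edges. -/

namespace Pool.Agent.P.MP_133cc4_co

open Set Function Relation Cardinal

universe u

variable {V : Type*} {E : Type u}

/-- The ends of the edges of `S`. -/
def En (t h : E → V) (S : Set E) : Set V := {y | ∃ a ∈ S, t a = y ∨ h a = y}

/-- No set of at most `θ` edges blocks the way from `w` to `x`. -/
def StrK (t h : E → V) (θ : Cardinal.{u}) (H : Set E) (w x : V) : Prop :=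
  ∀ S : Set E, #S ≤ θ → Reach t h H (En t h S) S x w

/-- A family of disjoint paths to `x` from the ends of `S` that cannot be blocked. -/
def FamK {ι : Type u} (t h : E → V) (θ : Cardinal.{u}) (H S : Set E) (x : V)
    (p : (E ⊕ E) × ι × ι → List E) : Prop :=
  (∀ i, (∀ e ∈ p i, e ∈ Fe h H (En t h S) S x) ∧ (Sum.elim id id i.1 ∈ S →
    StrK t h θ H (Sum.elim t h i.1) x →
    Walk t h (Sum.elim t h i.1) (p i) x ∧ (Sum.elim t h i.1 :: (p i).map h).Nodup)) ∧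
  ∀ i j, ∀ e ∈ p i, ∀ e' ∈ p j, (e = e' ∨ (h e = h e' ∧ h e ≠ x)) → i = j

variable {ι : Type u} {t h : E → V} {r w x y : V} {θ : Cardinal.{u}} {D G H L S S' Z : Set E}
  {B : Set V} {p : (E ⊕ E) × ι × ι → List E}

theorem En.mono (k : S ⊆ S') : En t h S ⊆ En t h S' := fun _ ⟨a, j, i⟩ => ⟨a, k j, i⟩

theorem en_ends (t h : E → V) (S : Set E) : ∀ e ∈ S, t e ∈ En t h S ∧ h e ∈ En t h S :=
  fun e k => ⟨⟨e, k, Or.inl rfl⟩, e, k, Or.inr rfl⟩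

theorem en_rep (k : y ∈ En t h S) : ∃ c : E ⊕ E, Sum.elim id id c ∈ S ∧ Sum.elim t h c = y := by
  obtain ⟨a, j, i | i⟩ := k
  · exact ⟨Sum.inl a, j, i⟩
  · exact ⟨Sum.inr a, j, i⟩

theorem en_of_rep {c : E ⊕ E} (k : Sum.elim id id c ∈ S) : Sum.elim t h c ∈ En t h S := by
  rcases c with a | a
  · exact ⟨a, k, Or.inl rfl⟩
  · exact ⟨a, k, Or.inr rfl⟩

theorem mk_rep (h0 : ℵ₀ ≤ θ) (hS : #S ≤ θ) : #{c : E ⊕ E | Sum.elim id id c ∈ S} ≤ θ := by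
  refine (mk_le_mk_of_subset (t := Sum.inl '' S ∪ Sum.inr '' S) ?_).trans
    (mk_union_le' h0 (mk_image_le.trans hS) (mk_image_le.trans hS))
  rintro (a | a) k
  · exact Or.inl ⟨a, k, rfl⟩
  · exact Or.inr ⟨a, k, rfl⟩

theorem mk_prod_le' {α β : Type u} {A : Set α} {B : Set β} (h0 : ℵ₀ ≤ θ) (hA : #A ≤ θ)
    (hB : #B ≤ θ) : #(A ×ˢ B : Set (α × β)) ≤ θ :=
  (mk_setProd A B).trans_le ((mul_le_mul' hA hB).trans_eq (mul_eq_self h0))

theorem exists_famK (t h : E → V) (H : Set E) (h0 : ℵ₀ ≤ θ) (hι : #ι ≤ θ) (hS : #S ≤ θ) (x : V) :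
    ∃ p : (E ⊕ E) × ι × ι → List E, FamK t h θ H S x p ∧ #{e | ∃ i, e ∈ p i} ≤ θ := by
  classical
  let I : Set ((E ⊕ E) × ι × ι) :=
    {i | Sum.elim id id i.1 ∈ S ∧ StrK t h θ H (Sum.elim t h i.1) x}
  have hu : #(Set.univ : Set ι) ≤ θ := by simpa using hι
  have hI : #I ≤ θ := (mk_le_mk_of_subset fun i hi => And.intro hi.1 ⟨trivial, trivial⟩).trans
    (mk_prod_le' h0 (mk_rep h0 hS) (mk_prod_le' h0 hu hu))
  obtain ⟨_, _⟩ := exists_wellFoundedLT (α := I)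
  obtain ⟨q, hq⟩ := trec_inv (ι := I) (S := List E) (fun i g s =>
    (Walk t h (Sum.elim t h i.1.1) s x ∧ (Sum.elim t h i.1.1 :: s.map h).Nodup) ∧
    ∀ e ∈ s, e ∈ Fe h H (En t h (S ∪ ⋃ j, {a | a ∈ g j})) (S ∪ ⋃ j, {a | a ∈ g j}) x) (by
      intro i f _
      obtain ⟨q, k1, k2, k3⟩ := exists_path (i.2.2 (S ∪ ⋃ j : Iio i, {a | a ∈ f j})
        (mk_union_le' h0 hS ((mk_fin_union fun j : Iio i => List.finite_toSet (f j)).trans
          (max_le h0 ((mk_set_le _).trans hI)))))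
      exact ⟨q, ⟨k1, k2⟩, k3⟩)
  have key : ∀ i j : I, j < i → ∀ e ∈ q j, ∀ e' ∈ q i, ¬ (e = e' ∨ (h e = h e' ∧ h e' ≠ x)) := by
    intro i j k e he e' he'
    have j1 : e ∈ S ∪ ⋃ l : Iio i, {a | a ∈ q l} := Or.inr (mem_iUnion.2 ⟨⟨j, k⟩, he⟩)
    have j2 := (hq i).2 e' he'
    rintro (rfl | j3)
    · exact j2.2.1 j1
    · exact j3.2 (j2.2.2 ⟨e, j1, Or.inr j3.1⟩)
  have mem : ∀ i e, e ∈ (if k : i ∈ I then q ⟨i, k⟩ else []) → ∃ k : i ∈ I, e ∈ q ⟨i, k⟩ := by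
    intro i e he
    by_cases k : i ∈ I
    · exact ⟨k, by simpa only [dif_pos k] using he⟩
    · simp [dif_neg k] at he
  refine ⟨fun i => if k : i ∈ I then q ⟨i, k⟩ else [], ⟨fun i => ⟨fun e he => ?_,
    fun k1 k2 => ?_⟩, fun i j e he e' he' k => ?_⟩, ?_⟩
  · obtain ⟨k, j⟩ := mem i e he
    exact Fe.mono Subset.rfl (En.mono subset_union_left) subset_union_left ((hq _).2 e j)
  · have k : i ∈ I := ⟨k1, k2⟩
    simp only [dif_pos k]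
    exact (hq ⟨i, k⟩).1
  · obtain ⟨k1, j1⟩ := mem i e he
    obtain ⟨k2, j2⟩ := mem j e' he'
    rcases lt_trichotomy (⟨i, k1⟩ : I) ⟨j, k2⟩ with l | l | l
    · exact (key _ _ l e j1 e' j2 (k.elim Or.inl fun m => Or.inr ⟨m.1, m.1 ▸ m.2⟩)).elim
    · exact congrArg Subtype.val l
    · exact (key _ _ l e' j2 e j1 (k.imp Eq.symm fun m => ⟨m.1.symm, m.2⟩)).elim
  · refine (mk_le_mk_of_subset ?_).trans ((mk_fin_union fun i : I =>
      List.finite_toSet (q i)).trans (max_le h0 hI))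
    rintro e ⟨i, he⟩
    obtain ⟨k, j⟩ := mem i e he
    exact mem_iUnion.2 ⟨_, j⟩

theorem in_of_reachK {g : E → ι} (hg : InjOn g L) (hLZ : L ⊆ Z)
    (hblock : ∀ w ∈ En t h S, Reach t h Z (En t h S) S x w → StrK t h θ Z w x)
    (hr : ¬ Reach t h Z (En t h S) S x r) (hcl : ∀ e ∈ D, h e ∈ B → t e ∉ B → e ∈ L)
    (hloose : ∀ Y, WS t h r L B Y → Y = ∅) (hx : x ∈ B)
    (hp : FamK t h θ Z S x p) (hpD : ∀ i, ∀ e ∈ p i, e ∈ D)
    (hk : ∀ c, Sum.elim id id c ∈ S → ∀ j, ∃ k, ∀ e ∈ p (c, j, k), h e ≠ x → e ∈ L) {z : V}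
    (hz : Reach t h Z (En t h S) S x z) : z ∈ B := by
  let Y : Set V := {z | Reach t h Z (En t h S) S x z ∧ z ∉ B}
  have h1 : ∀ a ∈ Ent t h L B Y, ∃ c k, Sum.elim id id c ∈ S ∧ Sum.elim t h c = h a ∧
      StrK t h θ Z (h a) x ∧ ∀ e ∈ p (c, g a, k), h e ≠ x → e ∈ L := by
    intro a ha
    have h1 : h a ∈ En t h S := by
      by_contra h1
      exact ha.2.2.1 ⟨Reach.step ⟨hLZ ha.1, fun h2 => h1 (en_ends t h S a h2).2,
        fun h2 => (h1 h2).elim⟩ ha.2.1.1, ha.2.2.2⟩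
    obtain ⟨c, k1, k2⟩ := en_rep h1
    obtain ⟨k, k3⟩ := hk c k1 (g a)
    exact ⟨c, k, k1, k2, hblock _ h1 ha.2.1.1, k3⟩
  have h2 : ∀ a, ∃ q : List E, a ∈ Ent t h L B Y → ∃ c k, q = p (c, g a, k) ∧
      Sum.elim id id c ∈ S ∧ Sum.elim t h c = h a ∧ StrK t h θ Z (h a) x ∧
      ∀ e ∈ p (c, g a, k), h e ≠ x → e ∈ L := fun a => by
    by_cases k : a ∈ Ent t h L B Y
    · obtain ⟨c, k, j⟩ := h1 a k
      exact ⟨_, fun _ => ⟨c, k, rfl, j⟩⟩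
    · exact ⟨[], fun j => (k j).elim⟩
  choose q hq using h2
  have hw := route (t := t) (h := h) (r := r) (L := L) (B := B) (Y := Y)
    (fun h2 => hr h2.1) (fun y hy => hy.2) q
    (fun a ha => by
      obtain ⟨c, k, e1, k1, k2, k3, k4⟩ := hq a ha
      obtain ⟨h2, h3⟩ := hp.1 (c, g a, k)
      obtain ⟨h4, h5⟩ := h3 k1 (k2.symm ▸ k3)
      rw [e1, ← k2]
      refine ⟨x, hx, h4, h5, fun e he h6 => ⟨?_, ?_⟩⟩
      · by_cases h7 : h e = x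
        · exact hcl e (hpD _ e he) (h7 ▸ hx) h6.2
        · exact k4 e he h7
      · by_cases h7 : h e ∈ B
        · exact Or.inr h7
        · exact Or.inl ⟨(h4.reach h2).2 e he, h7⟩)
    (fun a ha b hb e h2 h3 => by
      obtain ⟨c, k, e1, -⟩ := hq a ha
      obtain ⟨c', k', e2, -⟩ := hq b hb
      exact hg ha.1 hb.1 (congrArg (fun i : (E ⊕ E) × ι × ι => i.2.1)
        (hp.2 _ _ e (e1 ▸ h2) e (e2 ▸ h3) (Or.inl rfl))))
  by_contra h2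
  exact (hloose _ hw ▸ (⟨hz, h2⟩ : z ∈ Y) : z ∈ (∅ : Set V))

theorem in_of_strK [Nonempty ι] {g : E → ι} (hg : InjOn g L)
    (hcl : ∀ e ∈ D, h e ∈ B → t e ∉ B → e ∈ L) (hloose : ∀ Y, WS t h r L B Y → Y = ∅) (hx : x ∈ B)
    (hp : FamK t h θ G S x p) (hpD : ∀ i, ∀ e ∈ p i, e ∈ D)
    (hb : ∀ a ∈ L, h a ∈ B → t a ∉ B → t a ∈ En t h S) (hw : w ∈ En t h S) (hwr : w ≠ r)
    (hs : StrK t h θ G w x) : w ∈ B := by
  by_contra hwB
  obtain ⟨c0, k1, rfl⟩ := en_rep hw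
  have h1 : ∀ j, ∃ c ∈ p (c0, j, Classical.arbitrary ι), c ∈ L ∧ t c = Sum.elim t h c0 ∧
      h c ∈ B := by
    intro j
    obtain ⟨h2, h3⟩ := hp.1 (c0, j, Classical.arbitrary ι)
    obtain ⟨h4, -⟩ := h3 k1 hs
    obtain ⟨c, h5, h6, h7⟩ := h4.cross hwB hx
    have h8 := hcl c (hpD _ c h5) h7 h6
    refine ⟨c, h5, h8, (h4.tail_mem c h5).resolve_right ?_, h7⟩
    rintro ⟨a, h9, h10⟩
    exact h6 (h10 ▸ (h2 a h9).2.2 (h10 ▸ hb c h8 h7 h6) ▸ hx)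
  choose c h1 h2 h3 h4 using h1
  have hw := route (t := t) (h := h) (r := r) (L := L) (B := B) (Y := {Sum.elim t h c0})
    (fun h5 => hwr h5.symm) (fun y hy => (mem_singleton_iff.1 hy) ▸ hwB) (fun a => [c (g a)])
    (fun a ha => by
      have h5 : h a = t (c (g a)) := ha.2.1.trans (h3 _).symm
      refine ⟨_, h4 (g a), h5 ▸ Walk.cons _ _ _ (Walk.nil _), ?_, fun e he _ => ?_⟩
      · have h6 : h a ≠ h (c (g a)) := fun h6 => hwB (ha.2.1 ▸ h6 ▸ h4 _)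
        simpa using h6
      · obtain rfl := List.mem_singleton.1 he
        exact ⟨h2 _, Or.inr (h4 _)⟩)
    (fun a ha b hb e h5 h6 => hg ha.1 hb.1 (congrArg (fun i : (E ⊕ E) × ι × ι => i.2.1)
      (hp.2 _ _ _ (h1 (g a)) _ (h1 (g b))
        (Or.inl ((List.mem_singleton.1 h5).symm.trans (List.mem_singleton.1 h6))))))
  exact singleton_ne_empty _ (hloose _ hw)

theorem club_en (h0 : ℵ₀ ≤ θ) {C : V → Set E → Prop} (H : ∀ y, Club θ (C y)) :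
    Club θ fun M => ∀ y ∈ En t h M, C y M :=
  (Club.diag h0 fun e => (H (t e)).and h0 (H (h e))).mono fun _ k _ ⟨a, j, i⟩ =>
    i.elim (fun l => l ▸ (k a j).1) fun l => l ▸ (k a j).2

theorem club_of_wit {C : Set E → Prop}
    (H : ∃ X : Set E, #X ≤ θ ∧ ∀ M, X ⊆ M → C M) : Club (Order.succ θ) C := by
  obtain ⟨X, k1, k2⟩ := H
  exact (club_sup (Order.lt_succ_iff.2 k1)).mono k2

theorem Rich.small (h0 : ℵ₀ < θ) (H : Rich t h r θ G w y) :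
    ∃ X : Set E, #X ≤ θ ∧ Rich t h r θ (G ∩ X) w y := by
  obtain ⟨ι, _, _, hι, hlt⟩ := exists_index θ
  obtain ⟨Q, hQ⟩ := trec_inv (ι := ι) (S := Set E) (fun i g s => s.Finite ∧
    (∀ a ∈ s, a ∈ G ∧ h a ≠ w) ∧ Rch t h s r y ∧ ∀ j, ∀ a ∈ s, a ∉ g j) (by
      intro i f ih
      obtain ⟨q, k1, -, k3⟩ := exists_path (H (⋃ j : Iio i, f j)
        ((mk_fin_union fun j : Iio i => (ih j j.2).1).trans_lt (max_lt h0 (hlt i))))
      exact ⟨{e | e ∈ q}, List.finite_toSet q, fun a ha => ⟨(k3 a ha).1.1, (k3 a ha).2⟩, k1.rch,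
        fun j a ha k => (k3 a ha).1.2 (mem_iUnion.2 ⟨j, k⟩)⟩)
  refine ⟨⋃ i, Q i, (mk_fin_union fun i => (hQ i).1).trans (max_le h0.le hι.le), fun Z hZ => ?_⟩
  by_cases k : ∀ i, ∃ a ∈ Q i, a ∈ Z
  · choose f k1 k2 using k
    refine (hZ.not_ge (hι ▸ mk_le_of_injective (f := fun i => (⟨f i, k2 i⟩ : Z)) fun i j k => ?_)).elim
    have e : f i = f j := Subtype.mk.inj k
    rcases lt_trichotomy i j with l | l | l
    · exact ((hQ j).2.2.2 ⟨i, l⟩ _ (k1 j) (e ▸ k1 i)).elim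
    · exact l
    · exact ((hQ i).2.2.2 ⟨j, l⟩ _ (k1 i) (e ▸ k1 j)).elim
  · push Not at k
    obtain ⟨i, k⟩ := k
    exact (hQ i).2.2.1.mono fun a ha => ⟨⟨⟨((hQ i).2.1 a ha).1, mem_iUnion.2 ⟨i, ha⟩⟩, k a ha⟩,
      ((hQ i).2.1 a ha).2⟩

end Pool.Agent.P.MP_133cc4_co
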