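import Pool.Agent.P.MP_133cc4_co.CLevel

/-! Regular levels with well-founded domination. -/

namespace Pool.Agent.P.MP_133cc4_co

open Set Function Relation Cardinal

universe u

variable {V : Type*} {E : Type u} {t h : E → V} {r x y w : V} {F G J S T U Φ : Set E}
  {A I Ω : Set V} {M : E → E → Prop} {κ : Cardinal.{u}}

theorem Mat.ctbl_bwd (H : Mat t h I U M) (b : E) : #{a | ReflTransGen M a b} ≤ ℵ₀ := by
  classical
  let g : E → E := fun c => if k : ∃ a, M a c then k.choose else c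
  refine le_aleph0_iff_set_countable.2 ((countable_range fun n => g^[n] b).mono fun a ha => ?_)
  induction ha using ReflTransGen.head_induction_on with
  | refl => exact ⟨0, rfl⟩
  | head j _ ih =>
    obtain ⟨n, rfl⟩ := ih
    refine ⟨n + 1, (iterate_succ_apply' g n b).trans ((dif_pos ⟨_, j⟩).trans ?_)⟩
    exact H.inj (Exists.choose_spec (p := fun a => M a (g^[n] b)) ⟨_, j⟩) j

theorem LL.back (H : LL t h Set.univ G I {x} T) (hxI : x ∉ I) (hyx : y ≠ x)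
    (hy : ∀ z, z ∉ I → z ≠ x → ¬ Rch t h {e | e ∉ S ∧ h e ≠ x} z y) :
    #{a | a ∈ T ∧ h a = y} ≤ max ℵ₀ #S := by
  obtain ⟨U, M, h1, h2⟩ := H
  refine le_trans (mk_le_mk_of_subset (t := ⋃ b : S, {a | ReflTransGen M a b}) fun a ha => ?_)
    (mk_iUnion_le' (le_max_left _ _) (le_max_right _ _) fun b =>
      (h1.ff.toMat.ctbl_bwd b).trans (le_max_left _ _))
  obtain ⟨z, k1, k2, k3⟩ := h1.ff.exists_end (h2 ha.1)
  by_contra k
  refine hy _ k3 (h1.tB k2) (ha.2 ▸ h1.ff.toMat.reach' k1 fun b j =>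
    ⟨fun i => k (mem_iUnion.2 ⟨⟨b, i⟩, j⟩), fun i => ?_⟩)
  rcases j.cases_tail with l | ⟨c, -, l⟩
  · exact hyx (ha.2 ▸ l ▸ i)
  · exact hxI (i ▸ h1.ff.toMat.int' l)

theorem proc_two (hloop : ∀ e, t e ≠ h e) (hr : r ∉ Ω) (hx : x ∈ Ω) (hJ : ∀ a ∈ J, h a = x)
    (H : LL t h Set.univ G (Ω \ {x}) {x} J)
    (hj : ∀ e, e ∉ G → h e ∈ Ω → JI t h r Set.univ G Ω e) :
    ∃ K ⊆ G, J ⊆ K ∧ (∀ a ∈ K, h a ∈ Ω) ∧
      LL t h Set.univ K (Ω \ {x}) {x} {a | a ∈ K ∧ h a = x} ∧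
      (∃ Y U M, Wave t h r Set.univ {x} Y U M ∧ Y ⊆ Ω ∧ U ⊆ K ∧ ∀ e, h e = x → e ∉ K → t e ∈ Y) ∧
      ∀ y (S : Set E), y ≠ x → (∀ z, z ∉ Ω → ¬ Rch t h {e | e ∉ S ∧ h e ≠ x} z y) →
        #{a | a ∈ K ∧ h a = y} ≤ max ℵ₀ #S := by
  obtain ⟨Y, hY, U0, M0, hw, hl, hmax⟩ := bubble_in (t := t) (h := h) (G := G) hr hx
  have hxY : x ∉ Y := fun k => hw.dis k rfl
  have close : ∀ e, e ∉ G → h e ∈ {x} ∪ Y → t e ∈ {x} ∪ Y := by
    intro e k1 k2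
    obtain ⟨X, j1, U, M, j2, j3, j4⟩ := hj e k1 (k2.elim (fun k => k ▸ hx) fun k => hY k)
    obtain ⟨U', M', j5, j6⟩ := j2.enlarge (B' := {x} ∪ Y) (singleton_subset_iff.2 k2)
    by_contra k
    exact k (Or.inr (hmax _ (union_subset hY (sdiff_subset.trans j1)) ⟨_, _, hw.compose'
      (j5.regraph (j6.trans j3) fun a ha i _ _ => trivial)⟩ (Or.inr ⟨j4, k⟩)))
  obtain ⟨U, M, hc, hJU⟩ := hw.core (ls_univ _ _ _) (H.shrink (I' := Y)
    (fun y hy => ⟨hY hy, hw.dis hy⟩) Subset.rfl fun a ha => ⟨ha, hJ a ha⟩) hJ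
  have h1 := LL.comp (T := U) ⟨U, _, hc.bs, Subset.rfl⟩ hl
    (disjoint_left.2 fun y k j => k.2 (Or.inr j)) subset_union_right subset_union_left
    fun a ha k j => ⟨ha, k.symm, j.2⟩
  have e : Ω \ ({x} ∪ Y) ∪ Y = Ω \ {x} := by
    ext y
    have := @hY y
    have := @hw.dis y
    simp only [mem_union, mem_sdiff]
    tauto
  rw [e] at h1
  obtain ⟨U2, M2, h2, h3, h4, h5⟩ := (h1.mono Subset.rfl (T' := {a | a ∈ U ∧ h a = x})
    fun a ha => ha.1).link disjoint_sdiff_left fun a ha => ha.2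
  have h6 : ∀ a ∈ U ∪ U2, h a = x → a ∈ U := fun a ha k =>
    ha.elim id fun j => (h5 a j fun i => i.2 k).1
  refine ⟨U ∪ U2, union_subset hc.sub h2.sub, hJU.trans subset_union_left, ?_,
    ⟨U2, M2, h2.mono subset_union_right, fun a ha => h4 ⟨h6 a ha.1 ha.2, ha.2⟩⟩,
    ⟨Y, U, M, (hc.wave hw.rY hxY).regraph (subset_univ _) fun a j0 j1 j2 j3 =>
      by_contra fun j => (close a j (Or.inr j1)).elim j3 j2, hY, subset_union_left,
      fun e k1 k2 => ?_⟩, fun y S k1 k2 => ?_⟩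
  · rintro a (ha | ha)
    · exact (hc.hY ha).elim (fun k => hY k) fun k => k ▸ hx
    · exact (h2.hIB ha).elim (fun k => k.1) fun k => k ▸ hx
  · by_cases k : e ∈ G
    · exact by_contra fun j => k2 (Or.inl (hc.ent k (Or.inr k1) j (k1 ▸ hloop e)))
    · exact (close e k (Or.inl k1)).resolve_left (k1 ▸ hloop e)
  · have k3 := fun z (i : z ∉ Ω \ {x}) (j : z ≠ x) => k2 z fun l => i ⟨l, j⟩
    exact (mk_le_mk_of_subset fun _ k => k.1.imp (fun j => And.intro j k.2)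
      fun j => And.intro j k.2).trans (mk_union_le' (le_max_left _ _)
        (h1.back (fun i => i.2 rfl) k1 k3)
        (LL.back ⟨U2, M2, h2, Subset.rfl⟩ (fun i => i.2 rfl) k1 k3))

/-- The vertices behind `w` at the level `κ`. -/
def Bh (t h : E → V) (r : V) (κ : Cardinal.{u}) (w : V) : Set V :=
  {s | s ≠ w ∧ ¬ Rich t h r κ Set.univ w s}

theorem bh_root : r ∉ Bh t h r κ w := fun k => k.2 fun _ _ => ReflTransGen.refl

theorem bh_low (hw : lev t h r w = κ) (hy : y ≠ r) (hl : lev t h r y < κ) : y ∈ Bh t h r κ w := by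
  obtain ⟨S, k1, k2⟩ := cut_of_lam (t := t) (h := h) hy.symm
  exact ⟨fun k => hl.ne (k ▸ hw), fun k => k2 ((k S (k1.trans_lt hl)).mono fun e i => i.1.2)⟩

theorem bh_om (h0 : ℵ₀ ≤ κ) (hw : w ∈ Om t h r κ) : Bh t h r κ w ⊆ Om t h r κ := fun y hy => by
  by_contra hn
  obtain ⟨S, k1, k2⟩ := cut_of_lam (t := t) (h := h) hw.1.symm
  refine hy.2 fun Z hZ => ?_
  rcases (rch_of_lam (Z := Z ∪ S) ((mk_union_le' h0 hZ.le (k1.trans hw.2)).trans_lt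
    (lt_lam h0 (fun k => bh_root (k ▸ hy)) hn))).split w with k | k
  · exact k.mono fun e i => ⟨⟨trivial, fun j => i.1 (Or.inl j)⟩, i.2⟩
  · exact (k2 (k.1.mono fun e i j => i (Or.inr j))).elim

theorem bh_trans (h0 : ℵ₀ ≤ κ) (hx : lam t h r x = κ) (H : x ∈ Bh t h r κ w) :
    Bh t h r κ x ⊆ Bh t h r κ w := fun _ hy =>
  ⟨fun k => dom_asym h0 (fun _ j => (rch_of_lam (hx ▸ j)).mono fun _ i => ⟨trivial, i⟩)
    H.1.symm H.2 (k ▸ hy.2), dom_trans h0 H.2 hy.2⟩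

theorem bh_fin (hθ : κ.IsRegular) (h0 : ℵ₀ < κ) (hx : lam t h r x = κ) :
    {w | x ∈ Bh t h r κ w}.Finite := by
  by_contra hn
  let g := Set.Infinite.natEmbedding _ hn
  have : ∀ n : ULift.{u} ℕ, ∃ Z : Set E, #Z < κ ∧
      ¬ Rch t h {e | e ∈ Set.univ \ Z ∧ h e ≠ g n.down} r x := fun n => by
    have k := (g n.down).2.2
    simp only [Rich, not_forall] at k
    obtain ⟨Z, k1, k2⟩ := k
    exact ⟨Z, k1, k2⟩
  choose Z k1 k2 using this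
  obtain ⟨p, j1, -, j2⟩ := exists_path (rch_of_lam (t := t) (h := h) (x := r) (Z := ⋃ n, Z n)
    (hx ▸ (card_iUnion_lt_iff_forall_of_isRegular hθ (by simpa using h0)).2 k1))
  refine infinite_range_of_injective (Subtype.val_injective.comp g.injective)
    ((List.finite_toSet (p.map h)).subset ?_)
  rintro _ ⟨n, rfl⟩
  by_contra k
  exact k2 ⟨n⟩ (j1.rch.mono fun e he => ⟨⟨trivial, fun i => j2 e he (mem_iUnion.2 ⟨_, i⟩)⟩,
    fun i => k (List.mem_map.2 ⟨e, he, i⟩)⟩)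

theorem Good.pre_wf (H : Good t h r F A Φ) (hloop : ∀ e, t e ≠ h e)
    (hF : ∀ x, x ≠ r → Lk t h r F {x} {a | a ∈ F ∧ h a = x}) (h0 : ℵ₀ < κ)
    (hκ : ∀ x, x ∉ A → κ ≤ lam t h r x) (hlow : ∀ e, e ∉ Φ → h e ∈ A → lev t h r (h e) < κ)
    (hwf : WellFounded fun u w => u ∈ Om t h r κ \ A ∧ w ∈ Om t h r κ \ A ∧ u ∈ Bh t h r κ w) :
    ∃ K : V → Set E, ∀ w ∈ Om t h r κ \ A, (∀ a ∈ F, h a = w → a ∈ K w) ∧
      (∀ a ∈ K w, h a ≠ w → h a ∈ Bh t h r κ w ∧ (h a ∈ A → a ∈ Φ) ∧ (h a ∉ A → a ∈ K (h a))) ∧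
      LL t h Set.univ (K w) (Bh t h r κ w) {w} {a | a ∈ K w ∧ h a = w} ∧
      (∃ Y U M, Wave t h r Set.univ {w} Y U M ∧ Y ⊆ insert w (Bh t h r κ w) ∧ U ⊆ K w ∧
        ∀ e, h e = w → e ∉ K w → t e ∈ Y) ∧
      ∀ y ∈ Bh t h r κ w, #{a | a ∈ K w ∧ h a = y} < κ := by
  have o3 : ∀ w ∈ Om t h r κ \ A, lam t h r w = κ ∧ lev t h r w = κ := fun w k =>
    ⟨le_antisymm ((le_max_right _ _).trans k.1.2) (hκ w k.2),
      le_antisymm k.1.2 ((hκ w k.2).trans (le_max_right _ _))⟩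
  obtain ⟨K, hK⟩ := wf_inv (S := Set E) hwf (fun w g K => w ∈ Om t h r κ \ A →
      (∀ a ∈ F, h a = w → a ∈ K) ∧
      (∀ a ∈ K, h a ≠ w → h a ∈ Bh t h r κ w ∧ (h a ∈ A → a ∈ Φ) ∧ ∀ u, h a = u.1 → a ∈ g u) ∧
      LL t h Set.univ K (Bh t h r κ w) {w} {a | a ∈ K ∧ h a = w} ∧
      (∃ Y U M, Wave t h r Set.univ {w} Y U M ∧ Y ⊆ insert w (Bh t h r κ w) ∧ U ⊆ K ∧
        ∀ e, h e = w → e ∉ K → t e ∈ Y) ∧
      ∀ y ∈ Bh t h r κ w, #{a | a ∈ K ∧ h a = y} < κ) (by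
    intro w f ih
    by_cases hw : w ∈ Om t h r κ \ A
    swap
    · exact ⟨∅, fun k => (hw k).elim⟩
    have e : insert w (Bh t h r κ w) \ {w} = Bh t h r κ w :=
      insert_sdiff_self_of_notMem fun k => k.1 rfl
    obtain ⟨K, k1, k2, k3, k4, k5, k6⟩ := proc_two (G := Φ ∪ {e | h e ∉ A ∧ ∀ u ∈ Om t h r κ \ A,
      u ∈ Bh t h r κ w → h e = u → e ∈ f u}) (Ω := insert w (Bh t h r κ w))
      (J := {a | a ∈ F ∧ h a = w}) hloop
      (fun k => k.elim (fun j => hw.1.1 j.symm) bh_root) (Or.inl rfl) (fun a ha => ha.2)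
      ((((hF w hw.1.1).ll fun a ha => ha.2).shrink
        (fun y hy => ⟨fun k => bh_root (k ▸ hy.1.resolve_left hy.2), hy.2⟩) Subset.rfl
        fun a ha => ⟨ha, ha.2⟩).mono (H.g1.trans subset_union_left) Subset.rfl) (by
        intro e j1 j2
        by_cases j3 : h e ∈ A
        · have j4 : e ∉ Φ := fun k => j1 (Or.inl k)
          exact (H.g4 e j3 j4).mono subset_union_left fun y hy =>
            Or.inr (bh_low (o3 w hw).2 hy.1 (hy.2.trans_lt (hlow e j4 j3)))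
        have j5 : ∃ u ∈ Om t h r κ \ A, u ∈ Bh t h r κ w ∧ h e = u ∧ e ∉ f u := by
          by_contra k
          exact j1 (Or.inr ⟨j3, fun u i1 i2 i3 => by_contra fun i => k ⟨u, i1, i2, i3, i⟩⟩)
        obtain ⟨_, i1, i2, rfl, i3⟩ := j5
        obtain ⟨-, l1, -, ⟨Y, U, M, l2, l3, l4, l5⟩, -⟩ := ih _ ⟨i1, hw, i2⟩ i1
        refine ⟨Y, l3.trans (insert_subset (Or.inr i2)
          ((bh_trans h0.le (o3 _ i1).1 i2).trans (subset_insert _ _))), U, M, l2,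
          l4.trans fun a ha => ?_, l5 e rfl i3⟩
        by_cases m : h a = h e
        · exact Or.inr ⟨m ▸ j3, fun u _ _ n => n ▸ m ▸ ha⟩
        by_cases n : h a ∈ A
        · exact Or.inl ((l1 a ha m).2.1 n)
        · exact Or.inr ⟨n, fun u o _ p =>
            (l1 a ha m).2.2 ⟨u, o, i1, p ▸ (l1 a ha m).1⟩ p⟩)
    rw [e] at k4
    refine ⟨K, fun _ => ⟨fun a j1 j2 => k2 ⟨j1, j2⟩, fun a j1 j2 => ⟨(k3 a j1).resolve_left j2,
      fun i => (k1 j1).resolve_right fun l => l.1 i, fun u i => (k1 j1).elim (fun l =>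
        (ih u u.2 u.2.1).1 a (H.g2 a l (i ▸ u.2.1.2)) i) fun l => l.2 u u.2.1 u.2.2.2 i⟩,
      k4, k5, fun y hy => ?_⟩⟩
    have k := hy.2
    simp only [Rich, not_forall] at k
    obtain ⟨Z, j1, j2⟩ := k
    refine (k6 y Z hy.1 fun z i1 i2 => j2 ?_).trans_lt (max_lt h0 j1)
    have i3 : Rich t h r κ Set.univ w z :=
      by_contra fun l => i1 (Or.inr ⟨fun m => i1 (Or.inl m), l⟩)
    exact (i3 Z j1).trans (i2.mono fun e l => ⟨⟨trivial, l.1⟩, l.2⟩))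
  exact ⟨K, fun w hw => ⟨(hK w hw).1, fun a j1 j2 => ⟨((hK w hw).2.1 a j1 j2).1,
    ((hK w hw).2.1 a j1 j2).2.1, fun i => ((hK w hw).2.1 a j1 j2).2.2
      ⟨h a, ⟨bh_om h0.le hw.1 ((hK w hw).2.1 a j1 j2).1, i⟩, hw, ((hK w hw).2.1 a j1 j2).1⟩ rfl⟩,
    (hK w hw).2.2⟩⟩

end Pool.Agent.P.MP_133cc4_co
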