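import Pool.Agent.P.MP_133cc4_co.CReg

/-! Deciding a regular level. -/

namespace Pool.Agent.P.MP_133cc4_co

open Set Function Relation Cardinal

universe u

variable {V : Type*} {E : Type u} {t h : E → V} {r : V} {F Φ : Set E} {A : Set V}
  {κ : Cardinal.{u}}

theorem Good.reg (H : Good t h r F A Φ) (hr : ∀ e, h e ≠ r) (hloop : ∀ e, t e ≠ h e)
    (hF : ∀ x, x ≠ r → Lk t h r F {x} {a | a ∈ F ∧ h a = x}) (hθ : κ.IsRegular) (h0 : ℵ₀ < κ)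
    (hκ : ∀ x, x ∉ A → κ ≤ lam t h r x) (hlow : ∀ e, e ∉ Φ → h e ∈ A → lev t h r (h e) < κ)
    (hs : ∀ w, w ∉ A → lam t h r w = κ → #{a | a ∈ F ∧ h a = w} < κ)
    (hwf : WellFounded fun u w => u ∈ Om t h r κ \ A ∧ w ∈ Om t h r κ \ A ∧ u ∈ Bh t h r κ w) :
    ∃ Φ', Good t h r F (A ∪ Om t h r κ) Φ' ∧ Φ ⊆ Φ' ∧ ∀ a ∈ Φ', h a ∈ A → a ∈ Φ := by
  obtain ⟨K, hK⟩ := H.pre_wf hloop hF h0 hκ hlow hwf
  have b1 := fun w => bh_om (t := t) (h := h) (r := r) (w := w) h0.le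
  obtain ⟨Ω, hΩ⟩ : ∃ Ω, Ω = Om t h r κ := ⟨_, rfl⟩
  rw [← hΩ] at hK b1
  have wv : ∀ w, ∃ Y U M, w ∈ Ω \ A → Wave t h r Set.univ {w} Y U M ∧ U ⊆ K w ∧
      ∀ e, h e = w → e ∉ K w → t e ∈ Y := fun w => by
    by_cases k : w ∈ Ω \ A
    · obtain ⟨Y, U, M, j1, -, j2⟩ := (hK w k).2.2.2.1
      exact ⟨Y, U, M, fun _ => ⟨j1, j2⟩⟩
    · exact ⟨∅, ∅, fun _ _ => False, fun j => (k j).elim⟩
  choose Y U M wv using wv
  have o1 : ∀ y, y ∈ Ω ↔ y ≠ r ∧ lev t h r y ≤ κ := fun y => hΩ ▸ Iff.rfl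
  have o2 : r ∉ Ω := fun k => ((o1 _).1 k).1 rfl
  have o3 : ∀ w ∈ Ω \ A, lam t h r w = κ ∧ lev t h r w = κ := fun w k =>
    ⟨le_antisymm ((le_max_right _ _).trans ((o1 _).1 k.1).2) (hκ w k.2),
      le_antisymm ((o1 _).1 k.1).2 ((hκ w k.2).trans (le_max_right _ _))⟩
  have o4 : ∀ w ∈ Ω, Om t h r (lev t h r w) ⊆ Ω := fun w k y j =>
    (o1 _).2 ⟨j.1, j.2.trans ((o1 _).1 k).2⟩
  let G : Set E := Φ ∪ {e | h e ∉ A ∧ (h e ∈ Ω → e ∈ K (h e))}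
  let K0 : Set E := Φ ∪ {a | ∃ w ∈ Ω \ A, a ∈ K w ∧ h a ≠ w}
  have g1 : ∀ a ∈ G, h a ∈ A → a ∈ Φ := fun a ha k => ha.resolve_right fun j => j.1 k
  have g2 : ∀ w ∈ Ω \ A, ∀ a, h a = w → (a ∈ G ↔ a ∈ K w) := fun w k a i =>
    ⟨fun l => l.elim (fun m => (hK w k).1 a (H.g2 a m (i ▸ k.2)) i) fun m => i ▸ m.2 (i ▸ k.1),
      fun l => Or.inr ⟨i ▸ k.2, fun _ => i ▸ l⟩⟩
  have g3 : ∀ w ∈ Ω \ A, ∀ a ∈ K w, a ∈ G ∧ h a ∈ Ω := fun w k a i => by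
    by_cases l : h a = w
    · exact ⟨(g2 w k a l).2 i, l ▸ k.1⟩
    obtain ⟨m1, m2, m3⟩ := (hK w k).2.1 a i l
    exact ⟨(Classical.em _).elim (fun n => Or.inl (m2 n)) fun n => Or.inr ⟨n, fun _ => m3 n⟩,
      b1 w k.1 m1⟩
  have g5 : K0 ⊆ G := fun a ha => ha.elim Or.inl fun ⟨w, k, j, _⟩ => (g3 w k a j).1
  have g6 : ∀ w ∈ Ω \ A, #{a | a ∈ K0 ∧ h a = w} < κ := fun w k => by
    refine lt_of_le_of_lt (mk_le_mk_of_subset (t := {a | a ∈ F ∧ h a = w} ∪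
      ⋃ u ∈ {u | u ∈ Ω \ A ∧ w ∈ Bh t h r κ u}, {a | a ∈ K u ∧ h a = w}) ?_)
      (mk_union_lt h0.le (hs w k.2 (o3 w k).1) (mk_fin_lt
        ((bh_fin hθ h0 (o3 w k).1).subset fun u j => j.2) h0.le fun u j => (hK u j.1).2.2.2.2 w j.2))
    rintro a ⟨j | ⟨u, j1, j2, j3⟩, rfl⟩
    · exact Or.inl ⟨H.g2 a j k.2, rfl⟩
    · exact Or.inr (mem_biUnion (x := u) ⟨j1, ((hK u j1).2.1 a j2 j3).1⟩ ⟨j2, rfl⟩)
  have g4 : ∀ w ∈ Ω \ A, ∀ y, Rich t h r κ Set.univ w y → Rich t h r κ G w y := by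
    intro w k y i Z hZ
    have fin : Finite {u // u ∈ Ω \ A ∧ w ∈ Bh t h r κ u} :=
      ((bh_fin hθ h0 (o3 w k).1).subset fun u (j : u ∈ Ω \ A ∧ w ∈ Bh t h r κ u) => j.2).to_subtype
    have r1 : Rich t h r κ {a | h a ∈ Ω \ A ∧ w ∈ Bh t h r κ (h a) → a ∈ K (h a)} w y := by
      refine Rich.keep h0 (ι := {u // u ∈ Ω \ A ∧ w ∈ Bh t h r κ u}) i (fun X j => ?_)
        (y := fun u => u) (W := fun u => Y u) (fun u => ⟨U u, M u, (wv u u.2.1).1,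
          fun a ha l => (g2 _ l.1 a rfl).1 (g3 u u.2.1 a ((wv u u.2.1).2.1 ha)).1,
          lt_of_le_of_lt (mk_le_mk_of_subset fun a ha => And.intro ((wv u u.2.1).2.1 ha.1) ha.2)
            ((hK u u.2.1).2.2.2.2 w u.2.2)⟩) fun e _ i2 _ => ?_
      · simpa using mk_fin_lt (W := Set.univ) finite_univ h0.le fun u _ => j u
      · obtain ⟨l1, l2⟩ := Classical.not_imp.1 i2
        exact ⟨⟨_, l1⟩, rfl, (wv _ l1.1).2.2 e rfl l2⟩
    refine (rich_of_just (L := {e | e ∈ G ∧ h e ≠ w}) (D := {e | (h e ∈ Ω \ A ∧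
      w ∈ Bh t h r κ (h e) → e ∈ K (h e)) ∧ h e ≠ w}) (fun e l1 l2 => ?_)
      (fun Z l => (r1 Z l).mono fun e i => ⟨⟨i.1.1, i.2⟩, i.1.2⟩) Z hZ).mono
      fun e i => ⟨⟨i.1.1, i.2⟩, i.1.2⟩
    have l3 : e ∉ G := fun l => l2 ⟨l, l1.2⟩
    by_cases m : h e ∈ A
    · have m1 : e ∉ Φ := fun l => l3 (Or.inl l)
      obtain ⟨Y', n1, U', M', n2, n3, n4⟩ := H.g4 e m m1
      refine ⟨Y', U', M', n2.regraph (fun a ha => ⟨Or.inl (n3 ha), fun l => ?_⟩)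
        fun _ _ _ _ _ => trivial, n4⟩
      rcases n2.hYB ha with n | n
      · exact ((n1 n).2.trans_lt (hlow e m1 m)).ne (l ▸ (o3 w k).2)
      · exact l1.2 ((mem_singleton_iff.1 n).symm.trans l)
    · have m1 : h e ∈ Ω \ A := ⟨by_contra fun l => l3 (Or.inr ⟨m, fun n => (l n).elim⟩), m⟩
      have m2 : e ∉ K (h e) := fun l => l3 ((g2 _ m1 e rfl).2 l)
      obtain ⟨n2, n3, n4⟩ := wv _ m1
      exact ⟨_, _, _, n2.regraph (fun a ha => ⟨(g3 _ m1 a (n3 ha)).1, fun l => m2 (l1.1 ⟨m1,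
        l ▸ ((hK _ m1).2.1 a (n3 ha) (l ▸ Ne.symm l1.2)).1⟩)⟩)
        fun _ _ _ _ _ => trivial, n4 e rfl m2⟩
  have g7 : ∀ w ∈ Ω \ A, ∀ a ∈ K w, a ∈ {a | a ∈ K0 ∧ h a ∈ Ω} ∪
      {a | a ∈ {a | a ∈ G ∧ h a ∈ Ω} ∧ some (h a) = some w} := fun w k a i =>
    (Classical.em (h a = w)).elim (fun l => Or.inr ⟨g3 w k a i, congrArg some l⟩)
      fun l => Or.inl ⟨Or.inr ⟨w, k, i, l⟩, (g3 w k a i).2⟩
  have es : ∀ w, some w ∈ some '' (Ω \ A) ↔ w ∈ Ω \ A := fun w =>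
    (Option.some_injective V).mem_set_image
  obtain ⟨L, l1, l2, l3, l4⟩ := layered_all (t := cT t h r Ω) (h := fun e => some (h e))
    (r := some r) (H := some '' (Ω \ A)) (D := {e | h e ∈ Ω ∧ (h e ∈ A → e ∈ Φ)})
    (G := {a | a ∈ G ∧ h a ∈ Ω}) (K := {a | a ∈ K0 ∧ h a ∈ Ω}) hθ h0
    (fun e k => hr e (Option.some.inj k)) (fun e k => hloop e (cT_some k (hr e)).1)
    (hΩ ▸ lam_push h0.le) (fun k => o2 ((es r).1 k).1) (fun a ha => ⟨g5 ha.1, ha.2⟩)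
    (fun a ha => ⟨ha.2, g1 a ha.1⟩) (by
      rintro _ ⟨w, k, rfl⟩
      exact lt_of_le_of_lt (mk_le_mk_of_subset fun a ha => And.intro ha.1.1 (Option.some.inj ha.2))
        (g6 w k)) (fun v => by
      by_cases k : ∃ x ∈ Ω, v = some x
      swap
      · exact (mk_le_mk_of_subset (t := ∅) fun a ha => k ⟨h a, ha.1.2, ha.2.symm⟩).trans (by simp)
      obtain ⟨x, k, rfl⟩ := k
      by_cases j : x ∈ A
      · exact le_trans (mk_le_mk_of_subset fun a ha => And.intro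
          (g1 a (g5 ha.1.1) (Option.some.inj ha.2 ▸ j)) (Option.some.inj ha.2))
          ((om_cnt (H.g3 x j ((o1 _).1 k).1) ⟨((o1 _).1 k).1, le_rfl⟩ fun a ha => ha.2).trans
            ((o1 _).1 k).2)
      · exact le_trans (mk_le_mk_of_subset fun a ha => And.intro ha.1.1 (Option.some.inj ha.2))
          (g6 x ⟨k, j⟩).le)
    (fun a ha k => ⟨Or.inl (ha.2 (by_contra fun j => k ((es _).2 ⟨ha.1, j⟩))), ha.1⟩) (by
      rintro _ ⟨w, k, rfl⟩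
      refine ⟨{v | ∀ y, v = some y → y ≠ r ∧ (y ∈ Ω → y ∈ Bh t h r κ w)},
        fun j => ((j w rfl).2 k.1).1 rfl, (ll_push (hK w k).2.2.1 o2 k.1 (b1 w k.1)
          (I' := {v | ∀ y, v = some y → y ≠ r ∧ (y ∈ Ω → y ∈ Bh t h r κ w)})
          (fun j => (j r rfl).1 rfl) fun y i => ⟨fun j => (j y rfl).2 i,
            fun j z l => Option.some.inj l ▸ ⟨((o1 _).1 i).1, fun _ => j⟩⟩).mono
          (fun a ha => g7 w k a ha.1)
          fun a ha => ⟨(g2 w k a (Option.some.inj ha.2)).1 ha.1.1, Option.some.inj ha.2⟩, ?_⟩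
      intro v j1 j2 Z hZ
      simp only [mem_ofPred_eq, not_forall] at j1
      obtain ⟨y, rfl, j1⟩ := j1
      by_cases i : y = r
      · exact i ▸ ReflTransGen.refl
      have i1 : y ∈ Ω ∧ y ∉ Bh t h r κ w := by
        by_contra l
        exact j1 ⟨i, fun m => by_contra fun n => l ⟨m, n⟩⟩
      exact (rch_push (g4 w k y (by_contra fun l => i1.2 ⟨fun m => j2 (congrArg some m), l⟩) Z hZ)
        o2 (Or.inl i1.1)).mono fun e l => ⟨⟨⟨l.1.1.1, l.2⟩, l.1.1.2⟩,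
          fun m => l.1.2 (Option.some.inj m)⟩) (by
      rintro _ ⟨w, k, rfl⟩
      obtain ⟨n2, n3, n4⟩ := wv w k
      have n5 : Y w ⊆ Ω := (n2.lev_le ((o1 _).1 k.1).1).trans (o4 w k.1)
      refine ⟨_, _, _, (wave_push n2 o2 k.1 n5).regraph (fun a ha => g3 w k a (n3 ha))
        fun _ _ _ _ _ => trivial, fun a ha => g7 w k a (n3 ha), fun e i1 i2 i3 => ?_⟩
      have i4 := n4 e (Option.some.inj i2) fun l =>
        i3 ⟨(g2 w k e (Option.some.inj i2)).2 l, i1.1⟩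
      exact ⟨_, i4, (cT_in i1.1 (n5 i4)).symm⟩)
  have hJ : ∀ e, h e ∈ Ω → e ∉ L → Just (cT t h r Ω) (fun e => some (h e)) (some r) L e := by
    intro e k j
    by_cases i : h e ∈ A → e ∈ Φ
    · exact l4 e ⟨k, i⟩ j
    obtain ⟨Y', n1, U', M', n2, n3, n4⟩ :=
      H.g4 e (Classical.not_imp.1 i).1 (Classical.not_imp.1 i).2
    have n5 := n1.trans (o4 _ k)
    exact ⟨_, _, _, (wave_push n2 o2 k n5).regraph (fun a ha => l1 ⟨Or.inl (n3 ha),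
      (n2.hYB ha).elim (fun l => n5 l) fun l => l ▸ k⟩) fun _ _ _ _ _ => trivial,
      _, n4, (cT_in k (n5 n4)).symm⟩
  have a1 : ∀ a ∈ Φ ∪ L, h a ∈ A → a ∈ Φ := fun a ha k => ha.elim id fun j => g1 a (l2 j).1 k
  rw [← hΩ]
  refine ⟨Φ ∪ L, ⟨H.g1.trans subset_union_left, fun a ha k => H.g2 a
    (ha.resolve_right fun j => k (Or.inr (l2 j).2)) fun j => k (Or.inl j), fun x k hx => ?_,
    fun e k j => ?_, fun x k => H.g5 x fun j => k (Or.inl j)⟩, subset_union_left, a1⟩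
  · by_cases i : x ∈ A
    · exact (H.g3 x i hx).mono subset_union_left fun a ha => ⟨a1 a ha.1 (ha.2 ▸ i), ha.2⟩
    have l := k.resolve_left i
    rw [(o3 x ⟨l, i⟩).2, ← hΩ]
    exact (lk_pull (l3 _ ((es x).2 ⟨l, i⟩)) hr o2 l).mono (fun a ha => Or.inr ha.1) fun a ha =>
      ⟨ha.1.elim (fun j => l1 ⟨Or.inl j, ha.2 ▸ l⟩) id, congrArg some ha.2⟩
  · by_cases i : h e ∈ A
    · exact (H.g4 e i fun l => j (Or.inl l)).mono subset_union_left Subset.rfl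
    exact ((ji_pull hJ hr hloop o2 (k.resolve_left i) fun l => j (Or.inr l)).lev (hr e)).mono
      (fun a ha => Or.inr ha.1) Subset.rfl

end Pool.Agent.P.MP_133cc4_co
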