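import Pool.Agent.P.MP_133cc4_co.Repair

/-! The recursive construction inside a countable quasi-flame. -/

namespace Pool.Agent.P.MP_133cc4_co

open Set Function Relation

variable {V E : Type*} {t h : E → V} {r : V}

theorem Link.compose {Y0 Y1 : Set V} {U0 U1 : Set E} {M0 M1 : E → E → Prop}
    (H0 : Link t h Y0 U0 M0) (H1 : Link t h Y1 U1 M1) (hd : Disjoint Y0 Y1)
    (ha : ∀ a ∈ U1, h a ∈ Y0 → a ∈ U0) (hc : ∀ a ∈ U0, h a ∉ Y1)
    (ha' : ∀ a ∈ U0, t a ∈ Y1 → a ∈ U1) (hc' : ∀ a ∈ U1, t a ∉ Y0) :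
    Link t h (Y0 ∪ Y1) (U0 ∪ U1) (fun a b => M0 a b ∨ M1 a b) := by
  refine Link.of_ff (H0.toFF.compose H1.toFF hd ha hc) ?_
  have := H1.bf.compose H0.bf hd.symm ha' hc'
  rw [union_comm Y1, union_comm U1] at this
  convert this using 1
  ext a b
  exact or_comm

theorem Wave.inner {G : Set E} {x : V} {Y : Set V} {U : Set E} {M : E → E → Prop}
    (H : Wave t h r G {x} Y U M) (hl : LS Set.Finite h Y U) :
    ∃ U' M', Inner t h r G x Y U' M' := by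
  have hxY : x ∉ Y := fun h1 => H.dis h1 rfl
  obtain ⟨U', M', h1, h2, h3, -, -⟩ := (H.ff.add_exits (S := {a | a ∈ G ∧ h a = x ∧ t a ≠ x})
    (fun a ha => ha.2.1 ▸ hxY)).normalize
    (S := {a | a ∈ G ∧ (h a ∈ Y ∨ h a = x) ∧ t a ∉ Y ∧ t a ≠ x})
    (fun a ha => ha.2.1.elim (fun h1 => Or.inl (H.ent ha.1 h1 ha.2.2.1 ha.2.2.2))
      fun h1 => Or.inr ⟨ha.1, h1, ha.2.2.2⟩) (fun a ha => ha.2.2.1)
  refine ⟨U', M', h1, ⟨h1.toFF, fun a ha => (h3 ha).elim (fun h4 => H.sub h4) fun h4 => h4.1,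
    H.rY, H.dis, fun a ha => (h3 ha).elim (fun h4 => H.tB h4) fun h4 => h4.2.2,
    fun a ha => (h3 ha).elim (fun h4 => H.hYB h4) fun h4 => Or.inr h4.2.1,
    fun a h4 h5 h6 h7 => h2 ⟨h4, Or.inl h5, h6, h7⟩⟩, ?_,
    fun a h4 h5 h6 h7 => h2 ⟨h4, Or.inr h5, h6, h7⟩⟩
  intro y hy
  refine (hl y hy).subset fun a ha => ⟨(h3 ha.1).resolve_right fun h4 => ?_, ha.2⟩
  exact hxY (h4.2.1 ▸ ha.2 ▸ hy)

/-- Inner and outer witnesses for an active vertex. -/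
def Wit (t h : E → V) (r : V) (G : Set E) (x : V) (Y : Set V) : Prop :=
  (∃ U M, Inner t h r G x Y U M) ∧
    Lk t h r G ({x} ∪ Y) {a | a ∈ G ∧ h a ∈ {x} ∪ Y ∧ t a ∉ {x} ∪ Y}

theorem Inner.mem {G : Set E} {x : V} {Y : Set V} {U : Set E} {M : E → E → Prop}
    (H : Inner t h r G x Y U M) {a : E} (h1 : a ∈ G) (h2 : h a ∈ {x} ∪ Y) (h3 : t a ∉ {x} ∪ Y) :
    a ∈ U :=
  h2.elim (fun h4 => H.entx h1 h4 (fun h5 => h3 (Or.inr h5)) fun h5 => h3 (Or.inl h5))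
    fun h4 => H.wave.ent h1 h4 (fun h5 => h3 (Or.inr h5)) fun h5 => h3 (Or.inl h5)

theorem reserve_all {G : Set E} (hG : G.Countable) {x y : V} {Y : Set V} (hxr : x ≠ r)
    (hxy : x ≠ y) (hQ : QF t h r G y) (hW : Wit t h r G y Y) :
    ∃ K ⊆ G, K.Finite ∧ ∀ A : Set E, A.Finite → (∀ a ∈ A, h a = x) → Disjoint A K →
      QF t h r (G \ A) y ∧ Wit t h r (G \ A) y Y := by
  obtain ⟨⟨U, M, hI⟩, hO⟩ := hW
  obtain ⟨K1, h1, h2, h3⟩ := hQ.reserve hG hxr hxy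
  have h4 : {a | a ∈ U ∧ h a = x}.Finite := by
    by_cases h4 : x ∈ Y
    · exact hI.lf x h4
    · refine finite_empty.subset fun a ha => ?_
      rcases hI.wave.hYB ha.1 with h5 | h5
      · exact h4 (ha.2 ▸ h5)
      · exact hxy (ha.2.symm.trans h5)
  have h5 : ∃ K ⊆ G, K.Finite ∧ ∀ A : Set E, A.Finite → (∀ a ∈ A, h a = x) → Disjoint A K →
      Disjoint A U → Lk t h r (G \ A) ({y} ∪ Y) {a | a ∈ G ∧ h a ∈ {y} ∪ Y ∧ t a ∉ {y} ∪ Y} := by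
    by_cases h5 : x ∈ {y} ∪ Y
    · obtain ⟨U', M', h6, h7, h8, h9⟩ := hO
      refine ⟨∅, empty_subset _, finite_empty, fun A _ h10 _ h11 => ⟨U', M', h6,
        fun a ha => ⟨h7 ha, fun h12 => ?_⟩, h8, h9⟩⟩
      exact disjoint_left.1 h11 h12 (hI.mem (h7 ha) (h10 a h12 ▸ h5) (h8 a ha))
    · obtain ⟨K, h6, h7, h8⟩ := hO.reserve hG (fun a ha => ha.2.1) hxr h5
      exact ⟨K, h6, h7, fun A h9 h10 h11 _ => h8 A h9 h10 h11⟩
  obtain ⟨K3, h5, h6, h7⟩ := h5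
  refine ⟨K1 ∪ ({a | a ∈ U ∧ h a = x} ∪ K3),
    union_subset h1 (union_subset (fun a ha => hI.wave.sub ha.1) h5), h2.union (h4.union h6),
    fun A h8 h9 h10 => ?_⟩
  have h11 : Disjoint A U :=
    disjoint_left.2 fun a h11 h12 => disjoint_left.1 h10 h11 (Or.inr (Or.inl ⟨h12, h9 a h11⟩))
  refine ⟨h3 A h8 h9 (h10.mono_right subset_union_left), ⟨U, M, hI.lk, ⟨hI.wave.ff,
    fun a ha => ⟨hI.wave.sub ha, fun h12 => disjoint_left.1 h11 h12 ha⟩, hI.wave.rY, hI.wave.dis,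
    hI.wave.tB, hI.wave.hYB, fun a ha => hI.wave.ent ha.1⟩, hI.lf, fun a ha => hI.entx ha.1⟩,
    (h7 A h8 h9 (h10.mono_right (subset_union_right.trans subset_union_right)) h11).mono
      Subset.rfl fun a ha => ⟨ha.1.1, ha.2⟩⟩

/-- Splitting off one path of the witnesses. -/
theorem Inner.split {G : Set E} {x : V} {Y : Set V} {U : Set E} {M : E → E → Prop}
    (hI : Inner t h r G x Y U M)
    (hO : Lk t h r G ({x} ∪ Y) {a | a ∈ G ∧ h a ∈ {x} ∪ Y ∧ t a ∉ {x} ∪ Y}) {b : E} (hb : b ∈ U) :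
    ∃ P NP, Link h t {v | v ≠ r ∧ v ∉ ({x} : Set V)} P NP ∧ P ⊆ G ∧ P.Finite ∧ b ∈ P ∧
      (∀ a ∈ P, t a ≠ x) ∧ (∀ a ∈ P, t a ∈ Y → h a ∈ Y ∨ h a = x) ∧
      Lk t h r (G \ P) {x} (U \ P) ∧
      ∀ A : Set E, Disjoint A U → (∀ a ∈ A, t a ∈ Y) → Wit t h r ((G \ P) \ A) x Y := by
  obtain ⟨C, c, -, hbC, hCU, hCfin, hcl, hcC, hcY, hc, -⟩ := hI.lk.comp hb
  obtain ⟨U', M', hL', hU'G, hU't, hTU', hex, -⟩ := hO.link fun a ha => ha.2.1
  have hsrc : ∀ a ∈ U, t a ∉ Y → a ∈ U' := fun a ha h1 => hTU' ⟨hI.wave.sub ha,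
    (hI.wave.hYB ha).symm, fun h2 => h2.elim (hI.wave.tB ha) h1⟩
  obtain ⟨C', c', -, hcC', hC'U, hC'fin, hcl', -, -, hc', -⟩ := hL'.comp (hsrc c (hCU hcC) hcY)
  have hc'' : ∀ a ∈ C', h a ∈ {x} ∪ Y → a = c := fun a ha h1 =>
    (hc' a ha fun h2 => h2.2 h1).trans
      (hc' c hcC' fun h2 => h2.2 (hI.wave.hYB (hCU hcC)).symm).symm
  have e : {v | v ≠ r ∧ v ∉ {x} ∪ Y} ∪ Y = {v | v ≠ r ∧ v ∉ ({x} : Set V)} := by
    ext y
    have := @hI.wave.dis y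
    have : y = r → y ∉ Y := fun h3 => h3 ▸ hI.wave.rY
    simp only [mem_union, mem_ofPred_eq] at this ⊢
    tauto
  have hdis : Disjoint {v | v ≠ r ∧ v ∉ {x} ∪ Y} Y :=
    disjoint_left.2 fun y h1 h2 => h1.2 (Or.inr h2)
  have hP := (hL'.sub hC'U hcl').compose (hI.lk.sub hCU hcl).symm hdis
    (fun a ha h1 => hc a ha (fun h2 => h1.2 (Or.inr h2)) ▸ hcC')
    (fun a ha h1 => hU't a (hC'U ha) (Or.inr h1))
    (fun a ha h1 => hc'' a ha (Or.inr h1) ▸ hcC)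
    (fun a ha h1 => h1.2 (hI.wave.hYB (hCU ha)).symm)
  rw [e] at hP
  have hLi := hI.lk.sub (C := U \ C) sdiff_subset (fun a b hab => by
    simp only [mem_sdiff, hI.lk.meml hab, hI.lk.memr hab, true_and, hcl a b hab])
  have hLo := hL'.sub (C := U' \ C') sdiff_subset (fun a b hab => by
    simp only [mem_sdiff, hL'.meml hab, hL'.memr hab, true_and, hcl' a b hab])
  have hi : ∀ a ∈ U \ C, a ∈ G \ (C' ∪ C) := by
    intro a ha
    refine ⟨hI.wave.sub ha.1, ?_⟩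
    rintro (h1 | h1)
    · exact ha.2 (hc'' a h1 (hI.wave.hYB ha.1).symm ▸ hcC)
    · exact ha.2 h1
  have ho : ∀ a ∈ U' \ C', a ∈ G \ (C' ∪ C) := by
    intro a ha
    refine ⟨hU'G ha.1, ?_⟩
    rintro (h1 | h1)
    · exact ha.2 h1
    · exact ha.2 (hc a h1 (fun h2 => hU't a ha.1 (Or.inr h2)) ▸ hcC')
  refine ⟨C' ∪ C, _, hP, union_subset (hC'U.trans hU'G) (hCU.trans hI.wave.sub),
    hC'fin.union hCfin, Or.inr hbC, ?_, ?_, ?_, ?_⟩
  · rintro a (ha | ha)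
    · exact fun h1 => hU't a (hC'U ha) (Or.inl h1)
    · exact hI.wave.tB (hCU ha)
  · rintro a (ha | ha) h1
    · exact (hU't a (hC'U ha) (Or.inr h1)).elim
    · exact hI.wave.hYB (hCU ha)
  · have h1 := hLo.toFF.compose hLi.bf hdis (fun a ha h1 => ⟨hsrc a ha.1 fun h2 => h1.2 (Or.inr h2),
      fun h2 => (hi a ha).2 (Or.inl h2)⟩) (fun a ha h1 => hU't a ha.1 (Or.inr h1))
    rw [e] at h1
    refine ⟨_, _, h1, union_subset ho hi, ?_, fun a ha => Or.inr ⟨ha.1, fun h2 => ha.2 (Or.inr h2)⟩⟩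
    rintro a (ha | ha)
    · exact fun h1 => hU't a ha.1 (Or.inl h1)
    · exact hI.wave.tB ha.1
  · intro A h1 h2
    refine ⟨⟨U \ C, _, hLi, ⟨hLi.toFF, fun a ha => ⟨hi a ha, fun h3 => disjoint_left.1 h1 h3 ha.1⟩,
      hI.wave.rY, hI.wave.dis, fun a ha => hI.wave.tB ha.1, fun a ha => hI.wave.hYB ha.1, ?_⟩,
      hI.lf.fin_sub Subset.rfl sdiff_subset, ?_⟩, U' \ C', _, hLo.toFF,
      fun a ha => ⟨ho a ha, fun h3 => hU't a ha.1 (Or.inr (h2 a h3))⟩, fun a ha => hU't a ha.1, ?_⟩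
    · exact fun a ha h3 h4 h5 => ⟨hI.wave.ent ha.1.1 h3 h4 h5, fun h6 => ha.1.2 (Or.inr h6)⟩
    · exact fun a ha h3 h4 h5 => ⟨hI.entx ha.1.1 h3 h4 h5, fun h6 => ha.1.2 (Or.inr h6)⟩
    · exact fun a ha => ⟨hTU' ⟨ha.1.1.1, ha.2⟩, fun h6 => ha.1.1.2 (Or.inl h6)⟩

/-- The data of the recursion. -/
structure St (V E : Type*) where
  D : Set E
  K : Set E
  act : Set V
  Y : V → Set V
  Φ : V → Set E
  N : V → E → E → Prop

/-- The invariant of the recursion. -/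
structure CInv (t h : E → V) (r : V) (Z F : Set E) (s : St V E) : Prop where
  FK : F ⊆ s.K
  KD : s.K ⊆ s.D
  DZ : s.D ⊆ Z
  Kfin : ∀ x, ¬ (∀ e ∈ Z, h e = x → e ∈ F) → {a | a ∈ s.K ∧ h a = x}.Finite
  actfin : s.act.Finite
  actr : ∀ x ∈ s.act, x ≠ r ∧ ¬ (∀ e ∈ Z, h e = x → e ∈ F)
  lk : ∀ x, Link h t {v | v ≠ r ∧ v ∉ ({x} : Set V)} (s.Φ x) (s.N x)
  ΦK : ∀ x, s.Φ x ⊆ s.K
  Φfin : ∀ x, (s.Φ x).Finite
  Φt : ∀ x, ∀ a ∈ s.Φ x, t a ≠ x
  Φin : ∀ x, ∀ a ∈ s.Φ x, t a ∈ s.Y x → h a ∈ s.Y x ∨ h a = x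
  Φ0 : ∀ x, x ∉ s.act → s.Φ x = ∅
  Q : ∀ x, x ≠ r → QF t h r (s.D \ s.Φ x) x
  wit : ∀ x ∈ s.act, Wit t h r (s.D \ s.Φ x) x (s.Y x)
  del : ∀ e ∈ Z, e ∉ s.D → h e ∈ s.act ∧ t e ∈ s.Y (h e)

/-- Extension of states. -/
structure CRel (s s' : St V E) : Prop where
  D : s'.D ⊆ s.D
  K : s.K ⊆ s'.K
  act : s.act ⊆ s'.act
  Y : ∀ x ∈ s.act, s'.Y x = s.Y x
  N : ∀ x, s.N x ≤ s'.N x

theorem CRel.refl (s : St V E) : CRel s s :=
  ⟨Subset.rfl, Subset.rfl, Subset.rfl, fun _ _ => rfl, fun _ => le_rfl⟩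

theorem CRel.trans {s s' s'' : St V E} (h1 : CRel s s') (h2 : CRel s' s'') : CRel s s'' :=
  ⟨h2.D.trans h1.D, h1.K.trans h2.K, h1.act.trans h2.act,
    fun x hx => (h2.Y x (h1.act hx)).trans (h1.Y x hx), fun x => (h1.N x).trans (h2.N x)⟩

variable {Z F : Set E}

theorem CInv.activate (hZ : Z.Countable) {s : St V E} (H : CInv t h r Z F s) {x : V} (hxr : x ≠ r)
    (hx : ¬ (∀ e ∈ Z, h e = x → e ∈ F)) : ∃ s', CInv t h r Z F s' ∧ CRel s s' ∧ x ∈ s'.act := by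
  classical
  by_cases hxa : x ∈ s.act
  · exact ⟨s, H, CRel.refl s, hxa⟩
  obtain ⟨Y, U, M, h1, h2, -, h3⟩ := exists_bubble (t := t) (h := h) (r := r) (B := {x})
    (hZ.mono H.DZ) (fun h1 => hxr h1.symm) Set.Finite (fun _ _ h1 h2 => h2.subset h1) fun _ h1 => h1
  have hY : ∀ y ∈ s.act, update s.Y x Y y = s.Y y := fun y hy =>
    update_of_ne (fun h4 : y = x => hxa (h4 ▸ hy)) _ _
  refine ⟨{s with act := insert x s.act, Y := update s.Y x Y}, ⟨H.FK, H.KD, H.DZ, H.Kfin,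
    H.actfin.insert x, ?_, H.lk, H.ΦK, H.Φfin, H.Φt, ?_, fun y hy => H.Φ0 y fun h4 => hy (Or.inr h4),
    H.Q, ?_, ?_⟩, ⟨Subset.rfl, Subset.rfl, subset_insert _ _, hY, fun _ => le_rfl⟩, Or.inl rfl⟩
  · rintro y (rfl | hy)
    · exact ⟨hxr, hx⟩
    · exact H.actr y hy
  · intro y a ha
    by_cases hy : y ∈ s.act
    · simp only [hY y hy]
      exact H.Φin y a ha
    · exact (H.Φ0 y hy ▸ ha : a ∈ (∅ : Set E)).elim
  · rintro y (rfl | hy)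
    · simp only [update_self, H.Φ0 y hxa, sdiff_empty]
      exact ⟨h1.inner h2, h3⟩
    · simp only [hY y hy]
      exact H.wit y hy
  · intro e he h4
    obtain ⟨h5, h6⟩ := H.del e he h4
    refine ⟨Or.inr h5, ?_⟩
    simp only [hY _ h5]
    exact h6

theorem CInv.freeze (hZ : Z.Countable) (hloop : ∀ e, t e ≠ h e) {s : St V E}
    (H : CInv t h r Z F s) {x : V} (hx : x ∈ s.act) {b : E} (hbD : b ∈ s.D)
    (hb : h b = x ∨ (h b ∈ s.Y x ∧ t b ∉ s.Y x ∧ t b ≠ x)) :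
    ∃ s', CInv t h r Z F s' ∧ CRel s s' ∧ b ∈ s'.Φ x := by
  classical
  by_cases hbΦ : b ∈ s.Φ x
  · exact ⟨s, H, CRel.refl s, hbΦ⟩
  obtain ⟨hxr, hxc⟩ := H.actr x hx
  have res : ∀ y, y ∈ s.act \ {x} → ∃ K ⊆ s.D \ s.Φ y, K.Finite ∧ ∀ A : Set E, A.Finite →
      (∀ a ∈ A, h a = x) → Disjoint A K →
      QF t h r ((s.D \ s.Φ y) \ A) y ∧ Wit t h r ((s.D \ s.Φ y) \ A) y (s.Y y) := fun y hy =>
    reserve_all (hZ.mono (sdiff_subset.trans H.DZ)) hxr (fun h1 => hy.2 h1.symm)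
      (H.Q y (H.actr y hy.1).1) (H.wit y hy.1)
  choose! Ky hKy1 hKy2 hKy3 using res
  let K0 : Set E := ⋃ y ∈ s.act \ {x}, Ky y
  have hK0 : K0.Finite := (H.actfin.subset sdiff_subset).biUnion hKy2
  have hK0D : K0 ⊆ s.D := iUnion₂_subset fun y hy => (hKy1 y hy).trans sdiff_subset
  obtain ⟨⟨U0, M0, hI0⟩, hO⟩ := H.wit x hx
  obtain ⟨U, M, hI, hKU⟩ := hI0.exchange (H.Q x hxr)
    (K := {a | a ∈ insert b (s.K ∪ K0) ∧ h a = x ∧ a ∉ s.Φ x}) (by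
      refine (((H.Kfin x hxc).union hK0).insert b).subset ?_
      rintro a ⟨rfl | ha | ha, h1, _⟩
      · exact Or.inl rfl
      · exact Or.inr (Or.inl ⟨ha, h1⟩)
      · exact Or.inr (Or.inr ha)) (by
      rintro a ⟨rfl | ha | ha, _, h2⟩
      · exact ⟨hbD, h2⟩
      · exact ⟨H.KD ha, h2⟩
      · exact ⟨hK0D ha, h2⟩) (fun a ha => ha.2.1)
  have hbU : b ∈ U := by
    rcases hb with hb | hb
    · exact hKU ⟨Or.inl rfl, hb, hbΦ⟩
    · exact hI.wave.ent ⟨hbD, hbΦ⟩ hb.1 hb.2.1 hb.2.2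
  obtain ⟨P, NP, hP, hPG, hPfin, hbP, hPt, hPin, hT, hWit⟩ := hI.split hO hbU
  obtain ⟨A, hA, hA1, hAQ⟩ := (H.Q x hxr).restore hPfin hT
  have hAx : ∀ a ∈ A, h a = x := fun a ha => (hA1 a ha).2.1
  have hAU : Disjoint A U := disjoint_left.2 fun a ha h1 => (hA1 a ha).2.2 ⟨h1, (hA1 a ha).1.2⟩
  have hAK : ∀ a ∈ A, a ∉ s.K ∪ K0 := fun a ha h1 =>
    disjoint_left.1 hAU ha (hKU ⟨Or.inr h1, hAx a ha, (hA1 a ha).1.1.2⟩)
  have hAt : ∀ a ∈ A, t a ∈ s.Y x := by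
    intro a ha
    by_contra h1
    exact disjoint_left.1 hAU ha (hI.entx (hA1 a ha).1.1 (hAx a ha) h1 (hAx a ha ▸ hloop a))
  have e1 : (s.D \ A) \ (s.Φ x ∪ P) = ((s.D \ s.Φ x) \ P) \ A := by
    ext a
    simp only [mem_sdiff, mem_union]
    tauto
  have e2 : ∀ y, (s.D \ A) \ s.Φ y = (s.D \ s.Φ y) \ A := fun y => Set.sdiff_sdiff_comm
  have hact : ∀ y ∈ s.act, y ≠ x →
      QF t h r ((s.D \ A) \ s.Φ y) y ∧ Wit t h r ((s.D \ A) \ s.Φ y) y (s.Y y) := by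
    intro y hy hyx
    rw [e2]
    exact hKy3 y ⟨hy, hyx⟩ A hA hAx (disjoint_left.2 fun a ha h1 =>
      hAK a ha (Or.inr (mem_biUnion (t := Ky) ⟨hy, hyx⟩ h1)))
  refine ⟨{ s with
      D := s.D \ A
      K := s.K ∪ K0 ∪ P
      Φ := update s.Φ x (s.Φ x ∪ P)
      N := update s.N x fun a b => s.N x a b ∨ NP a b },
    ⟨fun a ha => Or.inl (Or.inl (H.FK ha)), ?_, sdiff_subset.trans H.DZ, ?_, H.actfin, H.actr,
      ?_, ?_, ?_, ?_, ?_, ?_, ?_, ?_, ?_⟩,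
    ⟨sdiff_subset, fun a ha => Or.inl (Or.inl ha), Subset.rfl, fun _ _ => rfl, ?_⟩, ?_⟩
  · rintro a (ha | ha)
    · exact ⟨ha.elim (fun h1 => H.KD h1) fun h1 => hK0D h1, fun h1 => hAK a h1 ha⟩
    · exact ⟨(hPG ha).1, fun h1 => (hA1 a h1).1.2 ha⟩
  · intro y hy
    refine (((H.Kfin y hy).union hK0).union hPfin).subset ?_
    rintro a ⟨(ha | ha) | ha, h1⟩
    · exact Or.inl (Or.inl ⟨ha, h1⟩)
    · exact Or.inl (Or.inr ha)
    · exact Or.inr ha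
  · intro y
    by_cases hy : y = x
    · subst hy
      simp only [update_self]
      exact (H.lk y).union hP (disjoint_left.2 fun a h1 h2 => (hPG h2).2 h1)
    · simp only [update_of_ne hy]
      exact H.lk y
  · intro y
    by_cases hy : y = x
    · subst hy
      simp only [update_self]
      exact union_subset (fun a ha => Or.inl (Or.inl (H.ΦK y ha))) subset_union_right
    · simp only [update_of_ne hy]
      exact fun a ha => Or.inl (Or.inl (H.ΦK y ha))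
  · intro y
    by_cases hy : y = x
    · subst hy
      simp only [update_self]
      exact (H.Φfin y).union hPfin
    · simp only [update_of_ne hy]
      exact H.Φfin y
  · intro y
    by_cases hy : y = x
    · subst hy
      simp only [update_self]
      exact fun a ha => ha.elim (H.Φt y a) (hPt a)
    · simp only [update_of_ne hy]
      exact H.Φt y
  · intro y
    by_cases hy : y = x
    · subst hy
      simp only [update_self]
      exact fun a ha => ha.elim (H.Φin y a) (hPin a)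
    · simp only [update_of_ne hy]
      exact H.Φin y
  · intro y hy
    have hy' : y ≠ x := fun h1 => hy (h1 ▸ hx)
    simp only [update_of_ne hy']
    exact H.Φ0 y hy
  · intro y hyr
    by_cases hy : y = x
    · subst hy
      simp only [update_self]
      rw [e1]
      exact hAQ
    simp only [update_of_ne hy]
    by_cases hya : y ∈ s.act
    · exact (hact y hya hy).1
    have h1 := H.Q y hyr
    rw [H.Φ0 y hya, sdiff_empty] at h1 ⊢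
    have h2 := (H.lk x).bf.restrict (Y' := s.Y x) (C := {a | a ∈ s.Φ x ∧ (h a ∈ s.Y x ∨ h a = x)})
      (fun a ha h2 => ⟨ha.1, fun h3 => hI.wave.rY (h3 ▸ h2), hI.wave.dis h2⟩)
      (fun a c hac _ h2 => ⟨(H.lk x).meml hac, H.Φin x c ((H.lk x).meml hac)
        (((H.lk x).adj hac).symm ▸ h2)⟩)
    refine h1.delete_bubble (fun h3 => hy h3.symm) ⟨hI.wave.ff.union h2
      (disjoint_left.2 fun a h3 h4 => (hI.wave.sub h3).2 h4.1), ?_, hI.wave.rY, hI.wave.dis, ?_, ?_,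
      ?_⟩ (hI.lf.fin_mono Subset.rfl ((H.Φfin x).subset fun a ha => (ha.1.resolve_left ha.2).1))
      fun a ha => ⟨hAx a ha, hAt a ha⟩
    · rintro a (ha | ha)
      · exact ⟨(hI.wave.sub ha).1, fun h3 => disjoint_left.1 hAU h3 ha⟩
      · exact ⟨H.KD (H.ΦK x ha.1), fun h3 => (hA1 a h3).1.1.2 ha.1⟩
    · rintro a (ha | ha)
      · exact hI.wave.tB ha
      · exact H.Φt x a ha.1
    · rintro a (ha | ha)
      · exact hI.wave.hYB ha
      · exact ha.2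
    · intro a ha h3 h4 h5
      by_cases h6 : a ∈ s.Φ x
      · exact Or.inr ⟨h6, Or.inl h3⟩
      · exact Or.inl (hI.wave.ent ⟨ha.1, h6⟩ h3 h4 h5)
  · intro y hya
    by_cases hy : y = x
    · subst hy
      simp only [update_self]
      rw [e1]
      exact hWit A hAU hAt
    · simp only [update_of_ne hy]
      exact (hact y hya hy).2
  · intro e he h1
    by_cases h2 : e ∈ s.D
    · have h3 : e ∈ A := by
        by_contra h3
        exact h1 ⟨h2, h3⟩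
      rw [hAx e h3]
      exact ⟨hx, hAt e h3⟩
    · exact H.del e he h2
  · intro y
    by_cases hy : y = x
    · subst hy
      simp only [update_self]
      exact fun a b hab => Or.inl hab
    · simp only [update_of_ne hy]
      exact le_rfl
  · simp only [update_self]
    exact Or.inr hbP

/-- The edge `e` starts inside a bubble of its head. -/
def Just (t h : E → V) (r : V) (L : Set E) (e : E) : Prop :=
  ∃ Y U M, Wave t h r L {h e} Y U M ∧ t e ∈ Y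

/-- The core construction. -/
theorem core (hZ : Z.Countable) (hr : ∀ e, h e ≠ r) (hloop : ∀ e, t e ≠ h e) (hFZ : F ⊆ Z)
    (hQ : ∀ x, x ≠ r → QF t h r Z x)
    (hF : ∀ x, x ≠ r → Lk t h r F {x} {a | a ∈ F ∧ h a = x})
    (hfin : ∀ x, {a | a ∈ F ∧ h a = x}.Finite ∨ ∀ e ∈ Z, h e = x → e ∈ F) :
    ∃ L, F ⊆ L ∧ L ⊆ Z ∧ (∀ x, x ≠ r → Lk t h r L {x} {a | a ∈ L ∧ h a = x}) ∧
      ∀ e ∈ Z, e ∉ L → Just t h r L e := by
  obtain ⟨g, hg⟩ := countable_iff_exists_injOn.1 (hZ.prod hZ)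
  obtain ⟨f, -, hf⟩ := exists_seq (CInv t h r Z F)
    (fun n s s' => CRel s s' ∧ ∀ a ∈ Z, ∀ b ∈ Z, g (a, b) = n →
      ¬ (∀ e ∈ Z, h e = h a → e ∈ F) → h a ∈ s'.act ∧ (b ∈ s'.D →
        (h b = h a ∨ (h b ∈ s'.Y (h a) ∧ t b ∉ s'.Y (h a) ∧ t b ≠ h a)) → b ∈ s'.Φ (h a)))
    ⟨Z, F, ∅, fun _ => ∅, fun _ => ∅, fun _ _ _ => False⟩
    ⟨Subset.rfl, hFZ, Subset.rfl, fun x hx => (hfin x).resolve_right hx, finite_empty,
      fun _ h1 => h1.elim, fun _ => link_empty _ _ _, fun _ => empty_subset _,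
      fun _ => finite_empty, fun _ _ h1 => h1.elim, fun _ _ h1 => h1.elim, fun _ _ => rfl,
      fun x hx => by simpa using hQ x hx, fun _ h1 => h1.elim, fun e h1 h2 => (h2 h1).elim⟩ (by
      intro n s hs
      by_cases hex : ∃ a ∈ Z, ∃ b ∈ Z, g (a, b) = n ∧ ¬ (∀ e ∈ Z, h e = h a → e ∈ F)
      swap
      · exact ⟨s, hs, CRel.refl s, fun a h1 b h2 h3 h4 => (hex ⟨a, h1, b, h2, h3, h4⟩).elim⟩
      obtain ⟨a, h1, b, h2, h3, h4⟩ := hex
      obtain ⟨s1, h5, h6, h7⟩ := hs.activate hZ (hr a) h4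
      have : ∃ s', CInv t h r Z F s' ∧ CRel s s' ∧ h a ∈ s'.act ∧ (b ∈ s'.D →
          (h b = h a ∨ (h b ∈ s'.Y (h a) ∧ t b ∉ s'.Y (h a) ∧ t b ≠ h a)) → b ∈ s'.Φ (h a)) := by
        by_cases h8 : b ∈ s1.D ∧
          (h b = h a ∨ (h b ∈ s1.Y (h a) ∧ t b ∉ s1.Y (h a) ∧ t b ≠ h a))
        · obtain ⟨s2, h9, h10, h11⟩ := h5.freeze hZ hloop h7 h8.1 h8.2
          exact ⟨s2, h9, h6.trans h10, h10.act h7, fun _ _ => h11⟩
        · exact ⟨s1, h5, h6, h7, fun h9 h10 => (h8 ⟨h9, h10⟩).elim⟩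
      obtain ⟨s', h8, h9, h10⟩ := this
      refine ⟨s', h8, h9, fun a' h11 b' h12 h13 _ => ?_⟩
      have h14 := hg (x₁ := (a', b')) (x₂ := (a, b)) ⟨h11, h12⟩ ⟨h1, h2⟩ (h13.trans h3.symm)
      obtain ⟨rfl, rfl⟩ := Prod.ext_iff.1 h14
      exact h10)
  have hrel : ∀ m n, m ≤ n → CRel (f m) (f n) := by
    intro m n hmn
    induction n, hmn using Nat.le_induction with
    | base => exact CRel.refl _
    | succ n _ ih => exact ih.trans (hf n).2.1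
  have hKD : ∀ m n, (f m).K ⊆ (f n).D := fun m n =>
    (hrel m _ (le_max_left m n)).K.trans ((hf _).1.KD.trans (hrel n _ (le_max_right m n)).D)
  have hYe : ∀ m n x, x ∈ (f m).act → x ∈ (f n).act → (f m).Y x = (f n).Y x := fun m n x h1 h2 =>
    ((hrel m _ (le_max_left m n)).Y x h1).symm.trans ((hrel n _ (le_max_right m n)).Y x h2)
  let L : Set E := ⋂ n, (f n).D
  have hKL : ∀ m, (f m).K ⊆ L := fun m => subset_iInter (hKD m)
  have hΦL : ∀ x, (⋃ n, (f n).Φ x) ⊆ L := fun x =>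
    iUnion_subset fun n => ((hf n).1.ΦK x).trans (hKL n)
  have hΦt : ∀ x, ∀ a ∈ ⋃ n, (f n).Φ x, t a ≠ x := by
    intro x a ha
    obtain ⟨n, hn⟩ := mem_iUnion.1 ha
    exact (hf n).1.Φt x a hn
  have hLZ : L ⊆ Z := (iInter_subset _ 0).trans (hf 0).1.DZ
  refine ⟨L, (hf 0).1.FK.trans (hKL 0), hLZ, ?_, ?_⟩
  · intro x hx
    by_cases hc : ∀ e ∈ Z, h e = x → e ∈ F
    · exact (hF x hx).mono ((hf 0).1.FK.trans (hKL 0)) fun a ha => ⟨hc a (hLZ ha.1) ha.2, ha.2⟩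
    refine ⟨_, _, FF.limit (fun n => ((hf n).1.lk x).toFF)
      (fun m n hmn => (hrel m n hmn).N x), hΦL x, hΦt x, ?_⟩
    rintro b ⟨hb, rfl⟩
    exact mem_iUnion.2 ⟨g (b, b) + 1, ((hf _).2.2 b (hLZ hb) b (hLZ hb) rfl hc).2
      (mem_iInter.1 hb _) (Or.inl rfl)⟩
  · intro e he heL
    obtain ⟨n, hn⟩ : ∃ n, e ∉ (f n).D := by
      by_contra h1
      push Not at h1
      exact heL (mem_iInter.2 h1)
    obtain ⟨h1, h2⟩ := (hf n).1.del e he hn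
    obtain ⟨⟨U, M, hI⟩, -⟩ := (hf n).1.wit _ h1
    have h3 := FF.limit (fun n => ((hf n).1.lk (h e)).bf)
      (fun m n hmn a b hab => (hrel m n hmn).N (h e) b a hab)
    have h4 : ∀ a ∈ ⋃ m, (f m).Φ (h e), t a ∈ (f n).Y (h e) →
        h a ∈ (f n).Y (h e) ∨ h a = h e := by
      intro a ha
      obtain ⟨m, hm⟩ := mem_iUnion.1 ha
      have h5 : h e ∈ (f m).act := by
        by_contra h5
        rw [(hf m).1.Φ0 _ h5] at hm
        exact hm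
      rw [hYe n m _ h1 h5]
      exact (hf m).1.Φin _ a hm
    refine ⟨(f n).Y (h e), {a | a ∈ ⋃ m, (f m).Φ (h e) ∧ (h a ∈ (f n).Y (h e) ∨ h a = h e)}, _,
      ⟨h3.restrict (fun a ha h5 => ⟨ha.1, fun h6 => hI.wave.rY (h6 ▸ h5), hI.wave.dis h5⟩)
        (fun a c hac _ h5 => ⟨h3.memr hac, h4 c (h3.memr hac) (h3.adj hac ▸ h5)⟩),
      fun a ha => hΦL _ ha.1, hI.wave.rY, hI.wave.dis, fun a ha => hΦt _ a ha.1,
      fun a ha => ha.2, ?_⟩, h2⟩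
    intro b hb h5 h6 h7
    obtain ⟨h8, h9⟩ := (hf (g (e, b))).2.2 e he b (hLZ hb) rfl ((hf n).1.actr _ h1).2
    rw [hYe n _ _ h1 h8] at h5 h6
    refine ⟨mem_iUnion.2 ⟨_, h9 (mem_iInter.1 hb _) (Or.inr ⟨h5, h6, h7⟩)⟩, Or.inl ?_⟩
    rw [hYe n _ _ h1 h8]
    exact h5

end Pool.Agent.P.MP_133cc4_co
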