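import Pool.Agent.P.MP_133cc4_co.Menger

/-! Finite cuts, exchange, and deletion lemmas. -/

namespace Pool.Agent.P.MP_133cc4_co

open Set Function Relation

variable {V E : Type*}

/-- Edges entering `W` from outside `W ∪ B`. -/
def Ent (t h : E → V) (G : Set E) (B W : Set V) : Set E :=
  {a | a ∈ G ∧ h a ∈ W ∧ t a ∉ W ∧ t a ∉ B}

/-- Every finite set of edges into `x` is linkable. -/
def QF (t h : E → V) (r : V) (G : Set E) (x : V) : Prop :=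
  ∀ J ⊆ G, J.Finite → (∀ a ∈ J, h a = x) → Lk t h r G {x} J

variable {t h : E → V} {r : V} {G : Set E} {B : Set V}

theorem lk_empty : Lk t h r G B ∅ :=
  ⟨∅, _, (link_empty _ _ _).toFF, empty_subset _, fun _ h1 => h1.elim, Subset.rfl⟩

theorem Lk.sub {T : Set E} (H : Lk t h r G B T) : T ⊆ G := by
  obtain ⟨U, M, _, h2, _, h4⟩ := H
  exact h4.trans h2

theorem Lk.tail {T : Set E} (H : Lk t h r G B T) : ∀ a ∈ T, t a ∉ B := by
  obtain ⟨U, M, _, _, h3, h4⟩ := H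
  exact fun a ha => h3 a (h4 ha)

theorem Lk.link {T : Set E} (H : Lk t h r G B T) (hT : ∀ a ∈ T, h a ∈ B) :
    ∃ U M, Link h t {v | v ≠ r ∧ v ∉ B} U M ∧ U ⊆ G ∧ (∀ a ∈ U, t a ∉ B) ∧ T ⊆ U ∧
      (∀ a ∈ U, h a ∉ {v | v ≠ r ∧ v ∉ B} → a ∈ T) ∧ (T.Finite → U.Finite) := by
  obtain ⟨U, M, h1, h2, h3, h4⟩ := H
  obtain ⟨U', M', h5, h6, h7, h8, h9⟩ := h1.normalize h4 (fun a ha h5 => h5.2 (hT a ha))
  exact ⟨U', M', h5, h7.trans h2, fun a ha => h3 a (h7 ha), h6, h8, h9⟩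

theorem rtg_tail_of_ne {M : E → E → Prop} {a b : E} (hab : ReflTransGen M a b) (hne : a ≠ b) :
    ∃ c, M c b := by
  rcases hab.cases_tail with h1 | ⟨c, _, hc⟩
  · exact (hne h1.symm).elim
  · exact ⟨c, hc⟩

/-- A linkable set needs as many entering edges. -/
theorem Lk.count {J : Set E} (H : Lk t h r G B J) (hJ : ∀ a ∈ J, h a ∈ B) {W : Set V}
    (hr : r ∉ W) (hW : ∀ y ∈ W, y ∉ B) :
    {a | a ∈ J ∧ t a ∈ W}.encard ≤ (Ent t h G B W).encard := by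
  obtain ⟨U, M, h1, h2, h3, h4⟩ := H
  have h5 := h1.restrict (Y' := W) (C := U)
    (fun a ha h5 => ⟨ha, fun h6 => hr (h6 ▸ h5), hW _ h5⟩) (fun a b hab _ _ => h1.memr hab)
  obtain ⟨f, hf, hf'⟩ := h5.exists_inj (S := {a | a ∈ J ∧ t a ∈ W}) (fun a ha => h4 ha.1)
    (fun a _ b hb hab => h5.toMat.eq_of_source hab fun h6 => hW _ h6 (hJ b hb.1))
  refine encard_le_encard_of_injOn (fun a ha => ?_) hf
  obtain ⟨h6, h7, h8⟩ := hf' a ha
  obtain ⟨c, hc⟩ := rtg_tail_of_ne h6 (fun h9 => h8 (h9 ▸ ha.2))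
  exact ⟨h2 h7, h5.toMat.int' hc, h8, h3 _ h7⟩

theorem FF.count_closed {Y : Set V} {U : Set E} {M : E → E → Prop} (H : FF t h Y U M)
    {W : Set V} (hW : W ⊆ Y) (hcl : ∀ a ∈ U, t a ∈ W → h a ∈ Y → h a ∈ W) {S : Set E}
    (hS : ∀ a ∈ S, a ∈ U ∧ h a ∈ W ∧ t a ∉ W) :
    S.encard ≤ {a | a ∈ U ∧ h a ∉ Y ∧ t a ∈ W}.encard := by
  have h5 := H.restrict (Y' := W) (C := U) (fun a ha h5 => ⟨ha, hW h5⟩)
    (fun a b hab _ _ => H.memr hab)
  obtain ⟨f, hf, hf'⟩ := h5.exists_inj (S := S) (fun a ha => (hS a ha).1)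
    (fun a _ b hb hab => h5.toMat.eq_of_source hab (hS b hb).2.2)
  refine encard_le_encard_of_injOn (fun a ha => ?_) hf
  obtain ⟨h6, h7, h8⟩ := hf' a ha
  obtain ⟨c, hc⟩ := rtg_tail_of_ne h6 (fun h9 => h8 (h9 ▸ (hS a ha).2.1))
  exact ⟨h7, fun h9 => h8 (hcl _ h7 (h5.toMat.int' hc) h9), h5.toMat.int' hc⟩

/-- Either a set of edges can be added one more or there is a tight cut. -/
theorem Lk.cut {I N : Set E} (H : Lk t h r G B I) (hI : ∀ a ∈ I, h a ∈ B)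
    (hN : ∀ j ∈ N, j ∈ G ∧ h j ∈ B ∧ t j ∉ B ∧ ¬ Lk t h r G B (insert j I)) :
    ∃ W : Set V, r ∉ W ∧ (∀ y ∈ W, y ∉ B) ∧ (∀ j ∈ N, t j ∈ W) ∧
      (Ent t h G B W).encard ≤ {a | a ∈ I ∧ t a ∈ W}.encard := by
  obtain ⟨U, M, h1, h2, h3, h4, h5, -⟩ := H.link hI
  have key : ∀ j ∈ N, ∃ W ⊆ {v | v ≠ r ∧ v ∉ B}, t j ∈ W ∧
      (∀ a ∈ G, t a ∉ B → a ∉ U → h a ∈ W → t a ∈ W) ∧
      (∀ a ∈ U, t a ∈ W → h a ∈ {v | v ≠ r ∧ v ∉ B} → h a ∈ W) := by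
    intro j hj
    obtain ⟨h6, h7, h8, h9⟩ := hN j hj
    have hjU : j ∉ U := fun h10 => h9 ⟨U, M, h1.toFF, h2, h3, insert_subset h10 h4⟩
    rcases h1.augment (G := {a | a ∈ G ∧ t a ∉ B}) (fun a ha => ⟨h2 ha, h3 a ha⟩) (c := j)
      ⟨h6, h8⟩ hjU (fun h10 => h10.2 h7) with
      ⟨U', M', e, h10, h11, -, h12, -⟩ | ⟨W, hW, h10, h11, h12, -⟩
    · refine (h9 ⟨U', M', h10.toFF, fun a ha => (h11 ha).1, fun a ha => (h11 ha).2, ?_⟩).elim
      rintro a (rfl | ha)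
      · exact (h12 a fun h13 => h13.2 h7).2 (Or.inr rfl)
      · exact (h12 a fun h13 => h13.2 (hI a ha)).2 (Or.inl (h4 ha))
    · exact ⟨W, hW, h10, fun a ha h13 => h11 a ⟨ha, h13⟩, h12⟩
  choose! W hW1 hW2 hW3 hW4 using key
  have hWY : (⋃ j ∈ N, W j) ⊆ {v | v ≠ r ∧ v ∉ B} := iUnion₂_subset hW1
  refine ⟨⋃ j ∈ N, W j, fun h6 => (hWY h6).1 rfl, fun y hy => (hWY hy).2,
    fun j hj => mem_biUnion hj (hW2 j hj), ?_⟩
  refine (h1.bf.count_closed hWY ?_ ?_).trans (encard_le_encard ?_)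
  · intro a ha h6 h7
    obtain ⟨j, hj, h8⟩ := mem_iUnion₂.1 h6
    exact mem_biUnion hj (hW4 j hj a ha h8 h7)
  · rintro a ⟨h6, h7, h8, h9⟩
    refine ⟨?_, h7, h8⟩
    by_contra h10
    obtain ⟨j, hj, h11⟩ := mem_iUnion₂.1 h7
    exact h8 (mem_biUnion hj (hW3 j hj a h6 h9 h10 h11))
  · exact fun a ha => ⟨h5 a ha.1 ha.2.1, ha.2.2⟩

/-- A finite set that is not linkable is cut off by too few edges. -/
theorem exists_cut {J : Set E} (hJ : J.Finite) (hJ1 : ∀ a ∈ J, a ∈ G ∧ h a ∈ B ∧ t a ∉ B)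
    (hn : ¬ Lk t h r G B J) :
    ∃ W : Set V, r ∉ W ∧ (∀ y ∈ W, y ∉ B) ∧
      (Ent t h G B W).encard < {a | a ∈ J ∧ t a ∈ W}.encard := by
  have : ∃ I j, insert j I ⊆ J ∧ j ∉ I ∧ Lk t h r G B I ∧ ¬ Lk t h r G B (insert j I) := by
    clear hJ1
    induction J, hJ using Set.Finite.induction_on with
    | empty => exact (hn lk_empty).elim
    | @insert j I hj _ ih =>
      by_cases h1 : Lk t h r G B I
      · exact ⟨I, j, Subset.rfl, hj, h1, hn⟩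
      · obtain ⟨I', j', h2, h3⟩ := ih h1
        exact ⟨I', j', h2.trans (subset_insert _ _), h3⟩
  obtain ⟨I, j, h1, h2, h3, h4⟩ := this
  have hj := hJ1 j (h1 (Or.inl rfl))
  obtain ⟨W, h5, h6, h7, h8⟩ := h3.cut (N := {j}) (fun a ha => (hJ1 a (h1 (Or.inr ha))).2.1)
    (by rintro _ rfl; exact ⟨hj.1, hj.2.1, hj.2.2, h4⟩)
  refine ⟨W, h5, h6, h8.trans_lt ?_⟩
  refine ((hJ.subset fun a ha => h1 (Or.inr ha.1)).encard_lt_encard ?_)
  refine ⟨fun a ha => ⟨h1 (Or.inr ha.1), ha.2⟩, fun h9 => h2 ?_⟩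
  exact (h9 ⟨h1 (Or.inl rfl), h7 j rfl⟩).1

/-- The exchange property. -/
theorem Lk.exchange {I I' : Set E} (H : Lk t h r G B I) (H' : Lk t h r G B I')
    (hI : ∀ a ∈ I, h a ∈ B) (hI' : ∀ a ∈ I', h a ∈ B) (hlt : I.encard < I'.encard) :
    ∃ j ∈ I', j ∉ I ∧ Lk t h r G B (insert j I) := by
  by_contra hc
  push Not at hc
  obtain ⟨W, h5, h6, h7, h8⟩ := H.cut (N := I' \ I) hI
    (fun j hj => ⟨H'.sub hj.1, hI' j hj.1, H'.tail j hj.1, hc j hj.1 hj.2⟩)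
  have h9 := (H'.count hI' h5 h6).trans h8
  have h10 : {a | a ∈ I' ∧ t a ∉ W}.encard ≤ {a | a ∈ I ∧ t a ∉ W}.encard := by
    refine encard_le_encard fun a ha => ⟨?_, ha.2⟩
    by_contra h11
    exact ha.2 (h7 a ⟨ha.1, h11⟩)
  have e : ∀ X : Set E, X.encard = {a | a ∈ X ∧ t a ∈ W}.encard + {a | a ∈ X ∧ t a ∉ W}.encard := by
    intro X
    rw [← encard_union_eq (disjoint_left.2 fun a h1 h2 => h2.2 h1.2)]
    congr 1
    ext a
    simp only [mem_union, mem_ofPred_eq]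
    tauto
  rw [e I, e I'] at hlt
  exact absurd (add_le_add h9 h10) (not_le.2 hlt)

/-- Deleting finitely many edges destroys at most that many paths. -/
theorem Lk.delete {J P : Set E} (H : Lk t h r G B J) (hJ : ∀ a ∈ J, h a ∈ B) (hP : P.Finite) :
    ∃ I ⊆ J, Lk t h r (G \ P) B I ∧ (J \ I).encard ≤ P.encard := by
  induction P, hP using Set.Finite.induction_on with
  | empty => exact ⟨J, Subset.rfl, by simpa using H, by simp⟩
  | @insert p P hp _ ih =>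
    obtain ⟨I, h1, h2, h3⟩ := ih
    obtain ⟨U, M, h4, h5, h6, h7, -⟩ := h2.link fun a ha => hJ a (h1 ha)
    rw [encard_insert_of_notMem hp]
    by_cases hpU : p ∈ U
    · obtain ⟨C, z, -, hpC, hCU, -, hcl, -, -, hz, -⟩ := h4.comp hpU
      refine ⟨I \ {z}, sdiff_subset.trans h1, ⟨U \ C, _, (h4.sub (C := U \ C) sdiff_subset
        (fun a b hab => by
          simp only [mem_sdiff, h4.meml hab, h4.memr hab, true_and, hcl a b hab])).toFF, ?_,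
        fun a ha => h6 a ha.1, ?_⟩, ?_⟩
      · intro a ha
        refine ⟨(h5 ha.1).1, ?_⟩
        rintro (rfl | h8)
        · exact ha.2 hpC
        · exact (h5 ha.1).2 h8
      · intro a ha
        exact ⟨h7 ha.1, fun h8 => ha.2 (hz a h8 fun h9 => h9.2 (hJ a (h1 ha.1)))⟩
      · refine le_trans (encard_le_encard (t := insert z (J \ I)) ?_)
          ((encard_insert_le _ _).trans (add_le_add_left h3 _))
        intro a ha
        by_cases h8 : a = z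
        · exact Or.inl h8
        · exact Or.inr ⟨ha.1, fun h9 => ha.2 ⟨h9, h8⟩⟩
    · refine ⟨I, h1, ⟨U, M, h4.toFF, ?_, h6, h7⟩, h3.trans le_self_add⟩
      intro a ha
      refine ⟨(h5 ha).1, ?_⟩
      rintro (rfl | h8)
      · exact hpU ha
      · exact (h5 ha).2 h8

/-- In a finitary matroid of bounded defect finitely many deletions make everything free. -/
theorem exists_defect {α : Type*} (Ind : Set α → Prop) (N T : Set α) (d : ℕ)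
    (hmono : ∀ I I', I' ⊆ I → Ind I → Ind I')
    (hex : ∀ I ⊆ N, ∀ I' ⊆ N, Ind I → Ind I' → I.encard < I'.encard →
      ∃ j ∈ I', j ∉ I ∧ Ind (insert j I))
    (hd : ∀ J ⊆ N, J.Finite → ∃ I ⊆ J, Ind I ∧ (J \ I).encard ≤ d) (hT : Ind T) :
    ∃ A ⊆ N \ T, A.Finite ∧ ∀ J ⊆ N \ A, J.Finite → Ind J := by
  let Mx : Set α → Set α → Prop := fun J I => I ⊆ J ∧ Ind I ∧ ∀ j ∈ J, j ∉ I → ¬ Ind (insert j I)
  have ext : ∀ J : Set α, J.Finite → ∀ I0 ⊆ J, Ind I0 → ∃ I, I0 ⊆ I ∧ Mx J I := by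
    intro J hJ I0 h1 h2
    obtain ⟨I, h3, h4⟩ := (hJ.finite_subsets.subset
      (fun I (hI : I ⊆ J ∧ Ind I) => hI.1)).exists_le_maximal (a := I0) ⟨h1, h2⟩
    exact ⟨I, h3, h4.1.1, h4.1.2, fun j hj hjI h5 =>
      hjI (h4.2 ⟨insert_subset hj h4.1.1, h5⟩ (subset_insert _ _) (Or.inl rfl))⟩
  have ge : ∀ J ⊆ N, J.Finite → ∀ I, Mx J I → ∀ I' ⊆ J, Ind I' →
      (J \ I).ncard ≤ (J \ I').ncard := by
    intro J hJN hJ I hI I' h1 h2
    have h3 : I'.encard ≤ I.encard := by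
      by_contra h3
      obtain ⟨j, h4, h5, h6⟩ := hex I (hI.1.trans hJN) I' (h1.trans hJN) hI.2.1 h2 (not_le.1 h3)
      exact hI.2.2 j (h1 h4) h5 h6
    have h4 : I'.ncard ≤ I.ncard := by
      rw [← (hJ.subset h1).cast_ncard_eq, ← (hJ.subset hI.1).cast_ncard_eq] at h3
      exact_mod_cast h3
    rw [ncard_sdiff hI.1 (hJ.subset hI.1), ncard_sdiff h1 (hJ.subset h1)]
    omega
  let S : Set ℕ := {k | ∃ J ⊆ N, J.Finite ∧ ∃ I, Mx J I ∧ (J \ I).ncard = k}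
  have hS : BddAbove S := by
    refine ⟨d, ?_⟩
    rintro k ⟨J, h1, h2, I, h3, rfl⟩
    obtain ⟨I', h4, h5, h6⟩ := hd J h1 h2
    refine (ge J h1 h2 I h3 I' h4 h5).trans ?_
    rw [← (h2.subset sdiff_subset).cast_ncard_eq] at h6
    exact_mod_cast h6
  have hne : S.Nonempty := by
    obtain ⟨I, -, h1⟩ := ext ∅ finite_empty ∅ Subset.rfl (hmono _ _ (empty_subset _) hT)
    exact ⟨_, ∅, empty_subset _, finite_empty, I, h1, rfl⟩
  obtain ⟨J, hJN, hJ, I1, h1, h2⟩ := Nat.sSup_mem hne hS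
  obtain ⟨I, h3, h4⟩ := ext J hJ (J ∩ T) inter_subset_left (hmono _ _ inter_subset_right hT)
  have h5 : sSup S ≤ (J \ I).ncard := h2 ▸ ge J hJN hJ I1 h1 I h4.1 h4.2.1
  refine ⟨J \ I, fun a ha => ⟨hJN ha.1, fun h6 => ha.2 (h3 ⟨ha.1, h6⟩)⟩, hJ.subset sdiff_subset,
    fun J' hJ' hfin => ?_⟩
  obtain ⟨I', h6, h7⟩ := ext (J ∪ J') (hJ.union hfin) I (h4.1.trans subset_union_left) h4.2.1
  have h8 : J \ I ⊆ (J ∪ J') \ I' := fun a ha => ⟨Or.inl ha.1, fun h8 =>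
    h4.2.2 a ha.1 ha.2 (hmono _ _ (insert_subset h8 h6) h7.2.1)⟩
  have h9 : ((J ∪ J') \ I').ncard ≤ sSup S :=
    le_csSup hS ⟨J ∪ J', union_subset hJN fun a ha => (hJ' ha).1, hJ.union hfin, I', h7, rfl⟩
  have h10 := eq_of_subset_of_ncard_le h8 (h9.trans h5) ((hJ.union hfin).subset sdiff_subset)
  refine hmono I' J' (fun a ha => ?_) h7.2.1
  by_contra h11
  exact (hJ' ha).2 (h10 ▸ ⟨Or.inr ha, h11⟩)

/-- After removing a finite set of edges a finite deletion restores the quasi-flame property. -/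
theorem QF.restore {x : V} (H : QF t h r G x) {P T : Set E} (hP : P.Finite)
    (hT : Lk t h r (G \ P) {x} T) :
    ∃ A : Set E, A.Finite ∧ (∀ a ∈ A, a ∈ G \ P ∧ h a = x ∧ a ∉ T) ∧
      QF t h r ((G \ P) \ A) x := by
  obtain ⟨A, h1, h2, h3⟩ := exists_defect (Lk t h r (G \ P) {x}) {a | a ∈ G \ P ∧ h a = x} T
    P.ncard (fun I I' h1 h2 => h2.mono Subset.rfl h1)
    (fun I h1 I' h2 h3 h4 h5 => h3.exchange h4 (fun a ha => (h1 ha).2) (fun a ha => (h2 ha).2) h5)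
    (fun J h1 h2 => by
      rw [hP.cast_ncard_eq]
      exact (H J (fun a ha => (h1 ha).1.1) h2 fun a ha => (h1 ha).2).delete
        (fun a ha => (h1 ha).2) hP) hT
  refine ⟨A, h2, fun a ha => ⟨(h1 ha).1.1, (h1 ha).1.2, (h1 ha).2⟩, fun J h4 h5 h6 => ?_⟩
  obtain ⟨U, M, h7, h8, h9, h10, h11, -⟩ :=
    (h3 J (fun a ha => ⟨⟨(h4 ha).1, h6 a ha⟩, (h4 ha).2⟩) h5).link h6
  refine ⟨U, M, h7.toFF, fun a ha => ⟨h8 ha, fun h12 => ?_⟩, h9, h10⟩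
  exact (h4 (h11 a ha fun h13 => h13.2 (h1 h12).1.2)).2 h12

/-- Deleting edges inside a locally finite bubble does not harm other vertices. -/
theorem QF.delete_bubble {x x' : V} (H : QF t h r G x') (hx : x ≠ x') {A : Set E} {Y : Set V}
    {U : Set E} {M : E → E → Prop} (hw : Wave t h r (G \ A) {x} Y U M)
    (hl : LS Set.Finite h Y U) (hA : ∀ a ∈ A, h a = x ∧ t a ∈ Y) : QF t h r (G \ A) x' := by
  intro J hJG hJ hJx
  by_contra hn
  have hJl := H J (fun a ha => (hJG ha).1) hJ hJx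
  obtain ⟨W, hrW, hW, hlt⟩ := exists_cut hJ
    (fun a ha => ⟨hJG ha, hJx a ha, hJl.tail a ha⟩) hn
  have hxW : x ∈ W := by
    by_contra h1
    refine absurd ((hJl.count hJx hrW hW).trans (encard_le_encard ?_)) (not_le.2 hlt)
    intro a ha
    exact ⟨⟨ha.1, fun h2 => h1 ((hA a h2).1 ▸ ha.2.1)⟩, ha.2⟩
  let Y0 : Set V := {y | y ∈ Y ∧ y ∉ W ∧ y ≠ x'}
  let W' : Set V := {y | (y ∈ W ∨ y ∈ Y) ∧ y ≠ x'}
  let Z : Set E := {a | a ∈ U ∧ h a = x' ∧ t a ∈ Y0}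
  have hZ : Z.Finite := by
    by_cases h1 : x' ∈ Y
    · exact (hl x' h1).subset fun a ha => ⟨ha.1, ha.2.1⟩
    · refine finite_empty.subset fun a ha => ?_
      rcases hw.hYB ha.1 with h2 | h2
      · exact h1 (ha.2.1 ▸ h2)
      · exact hx ((mem_singleton_iff.1 h2).symm.trans ha.2.1)
  have h1 := (hw.ff.restrict (Y' := Y0) (C := U) (fun a ha h1 => ⟨ha, h1.1⟩)
    (fun a b hab _ _ => hw.ff.memr hab)).add_exits (S := Ent t h (G \ A) {x'} W)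
    (fun a ha h1 => h1.2.1 ha.2.1)
  have hE : ∀ a ∈ Ent t h G {x'} W', t a ∉ W ∧ t a ∉ Y ∧ a ∉ A := by
    rintro a ⟨_, _, h4, h5⟩
    have h6 : t a ∉ Y := fun h6 => h4 ⟨Or.inr h6, h5⟩
    exact ⟨fun h6 => h4 ⟨Or.inl h6, h5⟩, h6, fun h7 => h6 (hA a h7).2⟩
  obtain ⟨f, hf, hf'⟩ := h1.exists_inj (S := Ent t h G {x'} W') (by
      intro a ha
      obtain ⟨h2, h3, h4⟩ := hE a ha
      by_cases h5 : h a ∈ W
      · exact Or.inr ⟨⟨ha.1, h4⟩, h5, h2, ha.2.2.2⟩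
      · exact Or.inl (hw.ent ⟨ha.1, h4⟩ (ha.2.1.1.resolve_left h5) h3
          (fun h6 => h2 ((mem_singleton_iff.1 h6) ▸ hxW))))
    (fun a _ b hb hab => h1.toMat.eq_of_source hab fun h2 => (hE b hb).2.1 h2.1)
  have h2 : (Ent t h G {x'} W').encard ≤ (Ent t h (G \ A) {x'} W).encard + Z.encard := by
    refine (encard_le_encard_of_injOn (t := Ent t h (G \ A) {x'} W ∪ Z) (fun a ha => ?_) hf).trans
      (encard_union_le _ _)
    obtain ⟨h3, h4, h5⟩ := hf' a ha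
    by_cases h6 : a = f a
    · rw [← h6] at h5 ⊢
      obtain ⟨h7, h8, h9⟩ := hE a ha
      refine Or.inl ⟨⟨ha.1, h9⟩, ?_, h7, ha.2.2.2⟩
      by_contra h10
      exact h5 ⟨ha.2.1.1.resolve_left h10, h10, ha.2.1.2⟩
    · obtain ⟨c, hc⟩ := rtg_tail_of_ne h3 h6
      have h7 : t (f a) ∈ Y0 := h1.toMat.int' hc
      have h8 : f a ∈ U := hw.ff.memr hc.1
      by_cases h9 : h (f a) = x'
      · exact Or.inr ⟨h8, h9, h7⟩
      · refine Or.inl ⟨hw.sub h8, ?_, h7.2.1, h7.2.2⟩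
        by_contra h10
        rcases hw.hYB h8 with h11 | h11
        · exact h5 ⟨h11, h10, h9⟩
        · exact h10 ((mem_singleton_iff.1 h11) ▸ hxW)
  have hJ'x : ∀ a ∈ {a | a ∈ J ∧ t a ∈ W} ∪ Z, h a = x' := by
    rintro a (ha | ha)
    · exact hJx a ha.1
    · exact ha.2.1
  have h3 := (H ({a | a ∈ J ∧ t a ∈ W} ∪ Z) (by
      rintro a (ha | ha)
      · exact (hJG ha.1).1
      · exact (hw.sub ha.1).1) ((hJ.subset fun a ha => ha.1).union hZ) hJ'x).count hJ'x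
    (W := W') (fun h3 => h3.1.elim hrW hw.rY) (fun y hy => hy.2)
  have h4 : {a | a ∈ J ∧ t a ∈ W}.encard + Z.encard ≤
      {a | a ∈ {a | a ∈ J ∧ t a ∈ W} ∪ Z ∧ t a ∈ W'}.encard := by
    rw [← encard_union_eq (disjoint_left.2 fun a h4 h5 => h5.2.2.2.1 h4.2)]
    refine encard_le_encard fun a ha => ⟨ha, ?_⟩
    rcases ha with ha | ha
    · exact ⟨Or.inl ha.2, hW _ ha.2⟩
    · exact ⟨Or.inr ha.2.2.1, ha.2.2.2.2⟩
  exact absurd ((ENat.add_le_add_iff_right hZ.encard_lt_top.ne).1 (h4.trans (h3.trans h2)))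
    (not_le.2 hlt)

end Pool.Agent.P.MP_133cc4_co
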