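import Mathlib

/-! Directed paths, flames and large edge sets in a digraph given by its tail and head maps. -/

namespace Pool.Agent.P.MP_133cc4_co

variable {V E : Type*}

/-- `Walk tail head u p v`: the list of edges `p` is a directed walk from `u` to `v`. -/
inductive Walk (tail head : E → V) : V → List E → V → Prop
  | nil (v : V) : Walk tail head v [] v
  | cons (e : E) (p : List E) (v : V) :
      Walk tail head (head e) p v → Walk tail head (tail e) (e :: p) v

/-- `P` is the edge set of a directed path (no repeated vertex) from `u` to `v`. -/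
def IsPath (tail head : E → V) (u v : V) (P : Set E) : Prop :=
  ∃ p : List E, Walk tail head u p v ∧ (u :: p.map head).Nodup ∧ P = {e | e ∈ p}

/-- A family of pairwise edge-disjoint paths from `r` to `v` using only edges of `L`. -/
def PathFamily (tail head : E → V) (r v : V) (L : Set E) (Fam : Set (Set E)) : Prop :=
  (∀ P ∈ Fam, IsPath tail head r v P ∧ P ⊆ L) ∧ Fam.PairwiseDisjoint id

/-- `F` is a flame. -/
def IsFlame (tail head : E → V) (r : V) (F : Set E) : Prop :=
  ∀ v, v ≠ r → ∃ Fam, PathFamily tail head r v F Fam ∧ ∀ e ∈ F, head e = v → e ∈ ⋃₀ Fam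

/-- `C` meets every path from `r` to `v` of the whole digraph. -/
def IsCut (tail head : E → V) (r v : V) (C : Set E) : Prop :=
  ∀ P, IsPath tail head r v P → (P ∩ C).Nonempty

/-- `L` is large. -/
def IsLarge (tail head : E → V) (r : V) (L : Set E) : Prop :=
  ∀ v, v ≠ r → ∃ Fam C, PathFamily tail head r v L Fam ∧ IsCut tail head r v C ∧
    C ⊆ ⋃₀ Fam ∧ ∀ P ∈ Fam, ∃! e, e ∈ P ∧ e ∈ C

end Pool.Agent.P.MP_133cc4_co
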