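import Pool.Agent.P.MP_133cc4_co.Lift
import Pool.Agent.P.MP_133cc4_co.Defs

/-! Translation between successor relations and families of paths. -/

namespace Pool.Agent.P.MP_133cc4_co

open Set Function Relation

variable {V E : Type*} {t h : E → V} {r : V}

theorem Walk.cross {u v : V} {p : List E} (H : Walk t h u p v) {B : Set V} (hu : u ∉ B)
    (hv : v ∈ B) : ∃ e ∈ p, t e ∉ B ∧ h e ∈ B := by
  induction H with
  | nil v => exact (hu hv).elim
  | cons e p v _ ih =>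
    by_cases he : h e ∈ B
    · exact ⟨e, List.mem_cons_self, hu, he⟩
    · obtain ⟨a, ha, h1⟩ := ih he hv
      exact ⟨a, List.mem_cons_of_mem _ ha, h1⟩

theorem Walk.suffix {u v : V} {p : List E} (H : Walk t h u p v) {w : V}
    (hw : w ∈ u :: p.map h) :
    ∃ q, Walk t h w q v ∧ (w :: q.map h).Sublist (u :: p.map h) ∧ ∀ e ∈ q, e ∈ p := by
  induction H with
  | nil v =>
    obtain rfl : w = v := by simpa using hw
    exact ⟨[], Walk.nil _, List.Sublist.refl _, fun _ h1 => h1⟩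
  | cons e p v H ih =>
    rcases List.mem_cons.1 hw with rfl | hw
    · exact ⟨e :: p, Walk.cons e p v H, List.Sublist.refl _, fun _ h1 => h1⟩
    · obtain ⟨q, h1, h2, h3⟩ := ih hw
      exact ⟨q, h1, h2.trans (List.sublist_cons_self _ _), fun a ha => List.mem_cons_of_mem _ (h3 a ha)⟩

theorem exists_path {S : Set E} {u v : V}
    (H : ReflTransGen (fun u v => ∃ e ∈ S, t e = u ∧ h e = v) u v) :
    ∃ p, Walk t h u p v ∧ (u :: p.map h).Nodup ∧ ∀ e ∈ p, e ∈ S := by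
  induction H using ReflTransGen.head_induction_on with
  | refl => exact ⟨[], Walk.nil _, by simp, fun _ h1 => by simp at h1⟩
  | head h1 _ ih =>
    obtain ⟨e, he, rfl, rfl⟩ := h1
    obtain ⟨p, h2, h3, h4⟩ := ih
    by_cases h5 : t e ∈ h e :: p.map h
    · obtain ⟨q, h6, h7, h8⟩ := h2.suffix h5
      exact ⟨q, h6, h7.nodup h3, fun a ha => h4 a (h8 a ha)⟩
    · refine ⟨e :: p, Walk.cons e p _ h2, List.nodup_cons.2 ⟨h5, h3⟩, fun a ha => ?_⟩
      rcases List.mem_cons.1 ha with rfl | ha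
      · exact he
      · exact h4 a ha

theorem Walk.end_mem {u v : V} {p : List E} (H : Walk t h u p v) : v ∈ u :: p.map h := by
  induction H with
  | nil v => simp
  | cons e p v _ ih => exact List.mem_cons_of_mem _ ih

theorem Walk.tail_ne {u v : V} {p : List E} (H : Walk t h u p v) (hn : (u :: p.map h).Nodup) :
    ∀ e ∈ p, t e ≠ v := by
  induction H with
  | nil v => simp
  | cons e p v H ih =>
    intro a ha
    rcases List.mem_cons.1 ha with rfl | ha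
    · exact fun h1 => (List.nodup_cons.1 hn).1 (h1 ▸ H.end_mem)
    · exact ih (List.nodup_cons.1 hn).2 a ha

theorem Walk.tail_notMem {u v : V} {p : List E} (H : Walk t h u p v) {W : Set V} (hu : u ∉ W)
    (hW : ∀ e ∈ p, h e ∈ W → t e ∈ W) : ∀ e ∈ p, t e ∉ W := by
  induction H with
  | nil v => simp
  | cons e p v _ ih =>
    intro a ha
    rcases List.mem_cons.1 ha with rfl | ha
    · exact hu
    · exact ih (fun h1 => hu (hW e List.mem_cons_self h1))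
        (fun b hb => hW b (List.mem_cons_of_mem _ hb)) a ha

theorem IsPath.lk {v : V} {P : Set E} (H : IsPath t h r v P) :
    Lk t h r P {v} {a | a ∈ P ∧ h a = v} := by
  obtain ⟨p, h1, h2, rfl⟩ := H
  by_contra hn
  have h3 := h1.tail_ne h2
  obtain ⟨W, h4, -, h5⟩ := exists_cut ((List.finite_toSet p).subset fun a ha => ha.1)
    (fun a ha => ⟨ha.1, ha.2, h3 a ha.1⟩) hn
  have h6 : {a | a ∈ {a | a ∈ {e | e ∈ p} ∧ h a = v} ∧ t a ∈ W}.encard ≤ 1 := by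
    rw [encard_le_one_iff]
    intro a b ha hb
    exact List.inj_on_of_nodup_map (List.nodup_cons.1 h2).2 ha.1.1 hb.1.1 (ha.1.2.trans hb.1.2.symm)
  have h7 : Ent t h {e | e ∈ p} {v} W = ∅ := by
    rw [← encard_eq_zero, ← Order.lt_one_iff]
    exact h5.trans_le h6
  rw [h7, encard_empty, encard_pos] at h5
  obtain ⟨a, ha⟩ := h5
  refine h1.tail_notMem h4 (fun e he h8 => ?_) a ha.1.1 ha.2
  by_contra h9
  exact (h7 ▸ (⟨he, h8, h9, h3 e he⟩ : e ∈ Ent t h {e | e ∈ p} {v} W) : e ∈ (∅ : Set E))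

theorem IsFlame.lk {F : Set E} (H : IsFlame t h r F) (x : V) (hx : x ≠ r) :
    Lk t h r F {x} {a | a ∈ F ∧ h a = x} := by
  obtain ⟨Fam, ⟨h1, h2⟩, h3⟩ := H x hx
  choose U M h4 h5 h6 h7 using fun P : Fam => (h1 P.1 P.2).1.lk
  refine ⟨_, _, FF.iUnion h4 ?_, iUnion_subset fun P => (h5 P).trans (h1 P.1 P.2).2, ?_, ?_⟩
  · intro P Q a hP hQ
    by_contra h8
    exact disjoint_left.1 (h2 P.2 Q.2 fun h9 => h8 (Subtype.ext h9)) (h5 P hP) (h5 Q hQ)
  · intro a ha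
    obtain ⟨P, hP⟩ := mem_iUnion.1 ha
    exact h6 P a hP
  · intro a ha
    obtain ⟨P, hP, h8⟩ := h3 a ha.1 ha.2
    exact mem_iUnion.2 ⟨⟨P, hP⟩, h7 _ ⟨h8, ha.2⟩⟩

theorem exists_family {L C : Set E} {v : V} {B : Set V} (hr : r ∉ B) (hv : v ∈ B) (S : E → Set E)
    (hS : ∀ c ∈ C, S c ⊆ L ∧ ReflTransGen (fun u v => ∃ e ∈ S c, t e = u ∧ h e = v) r v ∧
      ∀ a ∈ S c, t a ∉ B → h a ∈ B → a = c)
    (hd : ∀ c ∈ C, ∀ c' ∈ C, ∀ a ∈ S c, a ∈ S c' → c = c') :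
    ∃ Fam, PathFamily t h r v L Fam ∧ C ⊆ ⋃₀ Fam ∧ C.encard ≤ Fam.encard ∧
      ∀ P ∈ Fam, ∃ c ∈ C, c ∈ P ∧ ∀ a ∈ P, t a ∉ B → h a ∈ B → a = c := by
  have : ∀ c ∈ C, ∃ P, IsPath t h r v P ∧ P ⊆ S c ∧ c ∈ P := by
    intro c hc
    obtain ⟨p, h1, h2, h3⟩ := exists_path (hS c hc).2.1
    obtain ⟨a, h4, h5, h6⟩ := h1.cross hr hv
    exact ⟨_, ⟨p, h1, h2, rfl⟩, h3, (hS c hc).2.2 a (h3 a h4) h5 h6 ▸ h4⟩
  choose! P h1 h2 h3 using this
  refine ⟨P '' C, ⟨?_, ?_⟩, fun c hc => ⟨P c, mem_image_of_mem _ hc, h3 c hc⟩, ?_, ?_⟩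
  · rintro _ ⟨c, hc, rfl⟩
    exact ⟨h1 c hc, (h2 c hc).trans (hS c hc).1⟩
  · rintro _ ⟨c, hc, rfl⟩ _ ⟨c', hc', rfl⟩ hne
    refine disjoint_left.2 fun a h4 h5 => hne ?_
    rw [hd c hc c' hc' a (h2 c hc h4) (h2 c' hc' h5)]
  · refine (InjOn.encard_image fun c hc c' hc' h4 => ?_).ge
    exact hd c hc c' hc' c (h2 c hc (h3 c hc)) (h2 c' hc' (h4 ▸ h3 c hc))
  · rintro _ ⟨c, hc, rfl⟩
    exact ⟨c, hc, h3 c hc, fun a ha => (hS c hc).2.2 a (h2 c hc ha)⟩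

theorem Mat.reach {Y : Set V} {U : Set E} {M : E → E → Prop} (H : Mat t h Y U M) {a z : E}
    (haz : ReflTransGen M a z) {S : Set E} (hS : ∀ b, ReflTransGen M a b → b ∈ S) :
    ReflTransGen (fun u v => ∃ e ∈ S, t e = u ∧ h e = v) (h a) (h z) := by
  induction haz with
  | refl => exact ReflTransGen.refl
  | tail h1 h2 ih => exact ih.tail ⟨_, hS _ (h1.tail h2), (H.adj h2).symm, rfl⟩

theorem Mat.reach' {Y : Set V} {U : Set E} {M : E → E → Prop} (H : Mat h t Y U M) {a z : E}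
    (haz : ReflTransGen M a z) {S : Set E} (hS : ∀ b, ReflTransGen M a b → b ∈ S) :
    ReflTransGen (fun u v => ∃ e ∈ S, t e = u ∧ h e = v) (t z) (h a) := by
  induction haz with
  | refl => exact ReflTransGen.single ⟨a, hS _ ReflTransGen.refl, rfl, rfl⟩
  | tail h1 h2 ih => exact ih.head ⟨_, hS _ (h1.tail h2), rfl, (H.adj h2).symm⟩

theorem family_of_bubble {L : Set E} {x : V} {Y : Set V} {U : Set E} {M : E → E → Prop}
    (hx : x ≠ r) (hw : Wave t h r L {x} Y U M) {C : Set E} (hC : ∀ a ∈ C, h a ∈ {x} ∪ Y)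
    (H : Lk t h r L ({x} ∪ Y) C) :
    ∃ Fam, PathFamily t h r x L Fam ∧ C ⊆ ⋃₀ Fam ∧ C.encard ≤ Fam.encard ∧
      ∀ P ∈ Fam, ∃ c ∈ C, c ∈ P ∧ ∀ a ∈ P, t a ∉ {x} ∪ Y → h a ∈ {x} ∪ Y → a = c := by
  obtain ⟨U1, M1, h1, h2, h3, h4⟩ := H
  have hin : ∀ c ∈ C, ∀ a, ReflTransGen M c a → a ∈ L ∧ h a ∈ {x} ∪ Y := by
    intro c hc a ha
    rcases ReflTransGen.cases_tail ha with rfl | ⟨b, _, h5⟩
    · exact ⟨h2 (h4 hc), hC a hc⟩
    · exact ⟨hw.sub (hw.ff.memr h5), (hw.hYB (hw.ff.memr h5)).symm⟩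
  have k1 : ∀ c a, ReflTransGen M1 c a → h a ∈ {x} ∪ Y → a = c := fun c a ha h5 =>
    (h1.toMat.eq_of_source ha fun h6 => h6.2 h5).symm
  have k2 : ∀ c a, ReflTransGen M c a → t a ∉ {x} ∪ Y → a = c := fun c a ha h5 =>
    (hw.ff.toMat.eq_of_source ha fun h6 => h5 (Or.inr h6)).symm
  refine exists_family (fun h5 => h5.elim (fun h6 => hx h6.symm) hw.rY) (Or.inl rfl)
    (fun c => {a | ReflTransGen M1 c a ∨ ReflTransGen M c a}) (fun c hc => ⟨?_, ?_, ?_⟩) ?_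
  · rintro a (ha | ha)
    · exact h2 (h1.toMat.rtg_mem ha (h4 hc))
    · exact (hin c hc a ha).1
  · obtain ⟨z, h5, h6, h7⟩ := h1.exists_end (h4 hc)
    have h8 : t z = r := by
      by_contra h8
      exact h7 ⟨h8, h3 z h6⟩
    have h9 := h1.toMat.reach' h5 (S := {a | ReflTransGen M1 c a ∨ ReflTransGen M c a})
      fun b hb => Or.inl hb
    rw [h8] at h9
    rcases hC c hc with h10 | h10
    · exact (mem_singleton_iff.1 h10) ▸ h9
    · obtain ⟨z', h11, h12, h13⟩ := hw.ff.exists_end (hw.ent (h2 (h4 hc)) h10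
        (fun h11 => h3 c (h4 hc) (Or.inr h11)) fun h11 => h3 c (h4 hc) (Or.inl h11))
      have h14 := hw.ff.toMat.reach h11 (S := {a | ReflTransGen M1 c a ∨ ReflTransGen M c a})
        fun b hb => Or.inr hb
      rw [mem_singleton_iff.1 ((hw.hYB h12).resolve_left h13)] at h14
      exact h9.trans h14
  · rintro a (ha | ha) h5 h6
    · exact k1 c a ha h6
    · exact k2 c a ha h5
  · rintro c hc c' hc' a (ha | ha) (ha' | ha')
    · rcases h1.toMat.total' ha ha' with h5 | h5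
      · exact (k1 _ _ h5 (hC c' hc')).symm
      · exact k1 _ _ h5 (hC c hc)
    · exact (k1 _ _ ha (hin c' hc' a ha').2).symm.trans
        (k2 _ _ ha' (h3 a (h1.toMat.rtg_mem ha (h4 hc))))
    · exact (k2 _ _ ha (h3 a (h1.toMat.rtg_mem ha' (h4 hc')))).symm.trans
        (k1 _ _ ha' (hin c hc a ha).2)
    · rcases hw.ff.toMat.total' ha ha' with h5 | h5
      · exact (k2 _ _ h5 (h3 c' (h4 hc'))).symm
      · exact k2 _ _ h5 (h3 c (h4 hc))

theorem Lk.family {L C : Set E} {x : V} (hx : x ≠ r) (hC : ∀ a ∈ C, h a = x)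
    (H : Lk t h r L {x} C) :
    ∃ Fam, PathFamily t h r x L Fam ∧ C ⊆ ⋃₀ Fam ∧ C.encard ≤ Fam.encard := by
  obtain ⟨Fam, h1, h2, h3, -⟩ := family_of_bubble hx (wave_empty t h r L {x}) (C := C)
    (fun a ha => Or.inl (hC a ha)) (by simpa using H)
  exact ⟨Fam, h1, h2, h3⟩

theorem isFlame_of_lk {L : Set E} (H : ∀ x, x ≠ r → Lk t h r L {x} {a | a ∈ L ∧ h a = x}) :
    IsFlame t h r L := by
  intro x hx
  obtain ⟨Fam, h1, h2, -⟩ := (H x hx).family hx fun a ha => ha.2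
  exact ⟨Fam, h1, fun e h3 h4 => h2 ⟨h3, h4⟩⟩

theorem isLarge_of_just {L : Set E} (hL : ∀ v, {a | a ∈ L ∧ h a = v}.Countable)
    (hJ : ∀ e, e ∉ L → Just t h r L e) : IsLarge t h r L := by
  intro x hx
  obtain ⟨Y, U, M, h1, h2, -, h3⟩ := bubble_final (D := univ) hL (fun e _ => hJ e) hx
  obtain ⟨Fam, h4, h5, -, h6⟩ := family_of_bubble hx h1 (fun a ha => ha.2.1) h3
  refine ⟨Fam, _, h4, ?_, h5, fun P hP => ?_⟩
  · rintro P ⟨p, h7, -, rfl⟩
    obtain ⟨e, h8, h9, h10⟩ := h7.cross (B := {x} ∪ Y)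
      (fun h5 => h5.elim (fun h6 => hx h6.symm) h1.rY) (Or.inl rfl)
    exact ⟨e, h8, h2 e (mem_univ _) h10 h9, h10, h9⟩
  · obtain ⟨c, h7, h8, h9⟩ := h6 P hP
    exact ⟨c, ⟨h8, h7⟩, fun a ha => h9 a ha.1 ha.2.2.2 ha.2.2.1⟩

theorem large_flame (hr : ∀ e, h e ≠ r) (hloop : ∀ e, t e ≠ h e)
    (hdeg : ∀ v, v ≠ r → {e | h e = v}.Countable ∨
      ∃ n : ℕ, ∀ Fam, PathFamily t h r v univ Fam → Fam.encard ≤ n)
    {F : Set E} (hF : IsFlame t h r F)
    (hfin : ∀ v, {e | e ∈ F ∧ h e = v}.Finite ∨ {e | h e = v} ⊆ F) :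
    ∃ L, F ⊆ L ∧ IsFlame t h r L ∧ IsLarge t h r L := by
  obtain ⟨Z, h1, -, h2, h3⟩ := exists_max_qf (subset_univ F) hr hloop hF.lk
  have hZ : ∀ v, {a | a ∈ Z ∧ h a = v}.Countable := by
    intro v
    by_cases hv : v = r
    · exact countable_empty.mono fun a ha => hr a (ha.2.trans hv)
    rcases hdeg v hv with h4 | ⟨n, h4⟩
    · exact h4.mono fun a ha => ha.2
    · refine Finite.countable (by_contra fun h5 => ?_)
      obtain ⟨J, h6, h8, h7⟩ := Set.Infinite.exists_subset_ncard_eq h5 (n + 1)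
      obtain ⟨Fam, h9, -, h10⟩ := ((h2 v hv J (fun a ha => (h6 ha).1) h8 fun a ha => (h6 ha).2).mono
        (subset_univ _) Subset.rfl).family hv fun a ha => (h6 ha).2
      have h11 := h10.trans (h4 Fam h9)
      rw [← h8.cast_ncard_eq, h7] at h11
      have h12 : n + 1 ≤ n := by exact_mod_cast h11
      omega
  obtain ⟨L, h4, h5, h6, h7⟩ := core_indeg hZ hr hloop h1 hF.lk
    fun x => (hfin x).imp_right fun h4 e _ he => h4 he
  have hL : ∀ v, {a | a ∈ L ∧ h a = v}.Countable := fun v => (hZ v).mono fun a ha => And.intro (h5 ha.1) ha.2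
  exact ⟨L, h4, isFlame_of_lk h6, isLarge_of_just hL fun e => h3 L h5 hL h7 e (mem_univ _)⟩

end Pool.Agent.P.MP_133cc4_co
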