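import Pool.Agent.P.MP_133cc4_co.GLink

/-! Exchange properties relative to an infinite linked set. -/

namespace Pool.Agent.P.MP_133cc4_co

open Set Function Relation

variable {V E : Type*} {t h : E → V} {r : V} {F G : Set E} {I B : Set V} {U T : Set E}
  {M : E → E → Prop}

theorem LL.rex {S : Set E} (HS : LL t h F G I B S) (HT : LL t h F G I B T) (hd : Disjoint I B)
    (hS : ∀ a ∈ S, h a ∈ B) (hT : ∀ a ∈ T, h a ∈ B) {i : E} (hi : i ∈ S) :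
    LL t h F G I B (insert i T) ∨ ∃ j ∈ T, j ∉ S ∧ LL t h F G I B (insert i (T \ {j})) := by
  obtain ⟨U, M, h1, h2, h3, h4⟩ := HT.link hd hT
  by_cases hiU : i ∈ U
  · exact Or.inl ⟨U, M, h1, insert_subset hiU h3⟩
  have nI : ∀ a, h a ∈ B → h a ∉ I := fun a h5 h6 => disjoint_left.1 hd h6 h5
  have mk : ∀ U' M', Link h t I U' M' → U' ⊆ {a | a ∈ G ∧ t a ∉ B ∧ (h a ∈ I ∨ h a ∈ B)} →
      (U' \ U).Finite → BS t h F G I B U' M' := fun U' M' h5 h6 h7 =>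
    ⟨h5.toFF, fun a ha => (h6 ha).1, fun a ha => (h6 ha).2.1, fun a ha => (h6 ha).2.2,
      h1.lf.sm_fin h7⟩
  rcases h2.augment (G := {a | a ∈ G ∧ t a ∉ B ∧ (h a ∈ I ∨ h a ∈ B)})
    (fun a ha => ⟨h1.sub ha, h1.tB ha, h1.hIB ha⟩) (c := i)
    ⟨HS.sub hi, HS.tail i hi, Or.inr (hS i hi)⟩ hiU (nI i (hS i hi)) with
    ⟨U', M', e, h5, h6, h7, h8, -⟩ | ⟨W, hW, h5, h6, h7, h8⟩
  · refine Or.inl ⟨U', M', mk U' M' h5 h6 h7, ?_⟩
    rintro a (rfl | ha)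
    · exact (h8 a (nI a (hS a hi))).2 (Or.inr rfl)
    · exact (h8 a (nI a (hT a ha))).2 (Or.inl (h3 ha))
  by_cases hj : ∃ j ∈ T, j ∉ S ∧ t j ∈ W
  · obtain ⟨j, hj, hjS, hjW⟩ := hj
    obtain ⟨U', M', h9, h10, h11, h12, -⟩ := h8 j (h3 hj) hjW (nI j (hT j hj))
    refine Or.inr ⟨j, hj, hjS, U', M', mk U' M' h9 h10 h11, ?_⟩
    rintro a (rfl | ha)
    · exact (h12 a (nI a (hS a hi))).2 (Or.inr rfl)
    · exact (h12 a (nI a (hT a ha.1))).2 (Or.inl ⟨h3 ha.1, ha.2⟩)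
  have hj' : ∀ j ∈ T, t j ∈ W → j ∈ S := fun j h9 h10 => by
    by_contra h11
    exact hj ⟨j, h9, h11, h10⟩
  refine Or.inl (h1.splice_ll hd hW h3 hS ⟨fun a ha h9 h10 h11 => ?_, fun a ha h9 => ?_⟩
    (T2 := {a | a ∈ S ∧ t a ∈ W}) (HS.shrink hW Subset.rfl fun a ha => ⟨ha.1, hS a ha.1⟩) ?_)
  · by_contra h12
    exact h10 (h6 a ⟨ha, h11, Or.inl (hW h9)⟩ h12 h9)
  · by_cases h10 : h a ∈ I
    · exact Or.inl (h7 a ha h9 h10)
    · exact Or.inr (hj' a (h4 a ha h10) h9)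
  · rintro a (rfl | ha)
    · exact ⟨fun _ => ⟨hi, h5⟩, fun h9 => (h9 h5).elim⟩
    · exact ⟨fun h9 => ⟨hj' a ha h9, h9⟩, fun _ => ha⟩

theorem LL.rexn {S : Set E} (HS : LL t h F G I B S) (HT : LL t h F G I B T) (hd : Disjoint I B)
    (hS : ∀ a ∈ S, h a ∈ B) (hT : ∀ a ∈ T, h a ∈ B) (hfin : (S \ T).Finite) :
    ∃ T' ⊆ T, LL t h F G I B (S ∪ T') ∧ (T \ (S ∪ T')).encard ≤ (S \ T).encard := by
  have key : ∀ P : Set E, P.Finite → ∀ T : Set E, LL t h F G I B T → (∀ a ∈ T, h a ∈ B) →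
      S \ T ⊆ P → ∃ T' ⊆ T, LL t h F G I B (S ∪ T') ∧ (T \ (S ∪ T')).encard ≤ P.encard := by
    intro P hP
    induction P, hP using Set.Finite.induction_on with
    | empty =>
      intro T HT _ h1
      refine ⟨T, Subset.rfl, HT.mono Subset.rfl (union_subset (fun a ha => ?_) Subset.rfl),
        encard_le_encard fun a ha => ha.2 (Or.inr ha.1)⟩
      by_contra h2
      exact h1 ⟨ha, h2⟩
    | @insert i P hi _ ih =>
      intro T HT hT h1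
      have h2 : ∃ T1 j, LL t h F G I B T1 ∧ (∀ a ∈ T1, h a ∈ B) ∧ S \ T1 ⊆ P ∧
          ∀ a ∈ T, a ∉ T1 → a = j := by
        by_cases hiS : i ∈ S
        · rcases HS.rex HT hd hS hT hiS with h2 | ⟨j, -, hjS, h2⟩
          · refine ⟨_, i, h2, ?_, fun a ha => ?_, fun a ha h3 => (h3 (Or.inr ha)).elim⟩
            · rintro a (rfl | ha)
              exacts [hS a hiS, hT a ha]
            · exact (h1 ⟨ha.1, fun h3 => ha.2 (Or.inr h3)⟩).resolve_left fun h3 => ha.2 (Or.inl h3)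
          · refine ⟨_, j, h2, ?_, fun a ha => ?_, fun a ha h3 => ?_⟩
            · rintro a (rfl | ha)
              exacts [hS a hiS, hT a ha.1]
            · exact (h1 ⟨ha.1, fun h3 => ha.2 (Or.inr ⟨h3, fun h4 => hjS
                (mem_singleton_iff.1 h4 ▸ ha.1)⟩)⟩).resolve_left fun h3 => ha.2 (Or.inl h3)
            · by_contra h4
              exact h3 (Or.inr ⟨ha, h4⟩)
        · exact ⟨T, i, HT, hT, fun a ha => (h1 ha).resolve_left fun h3 => hiS (h3 ▸ ha.1),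
            fun a ha h3 => (h3 ha).elim⟩
      obtain ⟨T1, j, h3, h4, h5, h6⟩ := h2
      obtain ⟨T', -, h8, h9⟩ := ih T1 h3 h4 h5
      refine ⟨T' ∩ T, inter_subset_right,
        h8.mono Subset.rfl (union_subset_union_right _ inter_subset_left), ?_⟩
      rw [encard_insert_of_notMem hi]
      refine le_trans (encard_le_encard (t := insert j (T1 \ (S ∪ T'))) fun a ha => ?_)
        ((encard_insert_le _ _).trans (add_le_add_left h9 _))
      by_cases h10 : a ∈ T1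
      · exact Or.inr ⟨h10, fun h11 => ha.2 (h11.imp_right fun h12 => ⟨h12, ha.1⟩)⟩
      · exact Or.inl (h6 a ha.1 h10)
  exact key _ hfin T HT hT Subset.rfl

theorem LL.delete (H : LL t h F G I B T) (hd : Disjoint I B) (hT : ∀ a ∈ T, h a ∈ B) {P : Set E}
    (hP : P.Finite) : ∃ T' ⊆ T, LL t h F (G \ P) I B T' ∧ (T \ T').encard ≤ P.encard := by
  induction P, hP using Set.Finite.induction_on with
  | empty => exact ⟨T, Subset.rfl, by simpa using H, by simp⟩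
  | @insert p P hp _ ih =>
    obtain ⟨T1, h1, h2, h3⟩ := ih
    obtain ⟨U, M, h4, h5, h7, -⟩ := h2.link hd fun a ha => hT a (h1 ha)
    rw [encard_insert_of_notMem hp]
    by_cases hpU : p ∈ U
    · obtain ⟨C, z, -, hpC, -, -, hcl, -, -, hz, -⟩ := h5.comp hpU
      refine ⟨T1 \ {z}, sdiff_subset.trans h1, ⟨U \ C, _, (h4.sdiff h5 hcl).1.mono ?_, ?_⟩, ?_⟩
      · intro a ha
        refine ⟨(h4.sub ha.1).1, ?_⟩
        rintro (rfl | h8)
        · exact ha.2 hpC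
        · exact (h4.sub ha.1).2 h8
      · intro a ha
        exact ⟨h7 ha.1, fun h8 => ha.2 (hz a h8 fun h9 =>
          disjoint_left.1 hd h9 (hT a (h1 ha.1)))⟩
      · refine le_trans (encard_le_encard (t := insert z (T \ T1)) ?_)
          ((encard_insert_le _ _).trans (add_le_add_left h3 _))
        intro a ha
        by_cases h8 : a = z
        · exact Or.inl h8
        · exact Or.inr ⟨ha.1, fun h9 => ha.2 ⟨h9, h8⟩⟩
    · refine ⟨T1, h1, ⟨U, M, h4.mono ?_, h7⟩, h3.trans le_self_add⟩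
      intro a ha
      refine ⟨(h4.sub ha).1, ?_⟩
      rintro (rfl | h8)
      · exact hpU ha
      · exact (h4.sub ha).2 h8

theorem LL.defi {S J P : Set E} (H : LL t h F G I B (S ∪ J)) (HS : LL t h F (G \ P) I B S)
    (hd : Disjoint I B) (hS : ∀ a ∈ S, h a ∈ B) (hJ : ∀ a ∈ J, h a ∈ B) (hP : P.Finite) :
    ∃ J' ⊆ J, LL t h F (G \ P) I B (S ∪ J') ∧ (J \ J').encard ≤ P.encard := by
  have hSJ : ∀ a ∈ S ∪ J, h a ∈ B := fun a ha => ha.elim (hS a) (hJ a)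
  obtain ⟨T1, h1, h2, h3⟩ := H.delete hd hSJ hP
  obtain ⟨T', -, h5, h6⟩ := HS.rexn h2 hd hS (fun a ha => hSJ a (h1 ha))
    ((hP.finite_of_encard_le h3).subset fun a ha => ⟨Or.inl ha.1, ha.2⟩)
  refine ⟨{a | a ∈ J ∧ a ∈ S ∪ T'}, fun a ha => ha.1,
    h5.mono Subset.rfl (union_subset subset_union_left fun a ha => ha.2), ?_⟩
  calc (J \ {a | a ∈ J ∧ a ∈ S ∪ T'}).encard
      ≤ (((J \ S) \ T1) ∪ (T1 \ (S ∪ T'))).encard := by
        refine encard_le_encard fun a ha => ?_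
        have h7 : a ∉ S ∪ T' := fun h7 => ha.2 ⟨ha.1, h7⟩
        by_cases h8 : a ∈ T1
        · exact Or.inr ⟨h8, h7⟩
        · exact Or.inl ⟨⟨ha.1, fun h9 => h7 (Or.inl h9)⟩, h8⟩
    _ ≤ ((J \ S) \ T1).encard + (S \ T1).encard :=
        (encard_union_le _ _).trans (add_le_add_right h6 _)
    _ = (((J \ S) \ T1) ∪ (S \ T1)).encard :=
        (encard_union_eq (disjoint_left.2 fun a h7 h8 => h7.1.2 h8.1)).symm
    _ ≤ P.encard := le_trans (encard_le_encard (t := (S ∪ J) \ T1) fun a ha =>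
        ha.elim (fun h7 => ⟨Or.inr h7.1.1, h7.2⟩) fun h7 => ⟨Or.inl h7.1, h7.2⟩) h3

theorem LL.exchange {S J J' : Set E} (H : LL t h F G I B (S ∪ J)) (H' : LL t h F G I B (S ∪ J'))
    (hd : Disjoint I B) (hS : ∀ a ∈ S, h a ∈ B) (hJ : ∀ a ∈ J, h a ∈ B) (hJ' : ∀ a ∈ J', h a ∈ B)
    (hlt : J.encard < J'.encard) : ∃ j ∈ J', j ∉ J ∧ LL t h F G I B (S ∪ insert j J) := by
  have hfin : J.Finite := encard_lt_top_iff.1 (hlt.trans_le le_top)
  have h0 : (S ∪ J) \ (S ∪ J') ⊆ J \ J' := fun a ha =>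
    ⟨ha.1.resolve_left fun h1 => ha.2 (Or.inl h1), fun h1 => ha.2 (Or.inr h1)⟩
  obtain ⟨T', -, h2, h3⟩ := H.rexn H' hd (fun a ha => ha.elim (hS a) (hJ a))
    (fun a ha => ha.elim (hS a) (hJ' a)) (hfin.subset (h0.trans sdiff_subset))
  by_contra hc
  have h4 : J' \ J ⊆ (S ∪ J') \ (S ∪ J ∪ T') := fun j hj => ⟨Or.inr hj.1, fun h4 =>
    hc ⟨j, hj.1, hj.2, h2.mono Subset.rfl (union_subset (fun a ha => Or.inl (Or.inl ha))
      (insert_subset h4 fun a ha => Or.inl (Or.inr ha)))⟩⟩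
  have h5 := (encard_le_encard h4).trans (h3.trans (encard_le_encard h0))
  rw [← encard_sdiff_add_encard_inter J J', ← encard_sdiff_add_encard_inter J' J,
    inter_comm J' J] at hlt
  exact absurd (add_le_add_left h5 _) (not_le.2 hlt)

theorem exists_defect' {α : Type*} (Ind : Set α → Prop) (N T : Set α) (d : ℕ)
    (hmono : ∀ I I', I' ⊆ I → Ind I → Ind I')
    (hex : ∀ I ⊆ N, ∀ I' ⊆ N, Ind I → Ind I' → I.encard < I'.encard →
      ∃ j ∈ I', j ∉ I ∧ Ind (insert j I))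
    (hd : ∀ J ⊆ N, J.Finite → ∃ I ⊆ J, Ind I ∧ (J \ I).encard ≤ d) (hT : Ind T) :
    ∃ A ⊆ N \ T, A.encard ≤ d ∧ ∀ J ⊆ N \ A, J.Finite → Ind J := by
  let Mx : Set α → Set α → Prop := fun J I => I ⊆ J ∧ Ind I ∧ ∀ j ∈ J, j ∉ I → ¬ Ind (insert j I)
  have ext : ∀ J : Set α, J.Finite → ∀ I0 ⊆ J, Ind I0 → ∃ I, I0 ⊆ I ∧ Mx J I := by
    intro J hJ I0 h1 h2
    obtain ⟨I, h3, h4⟩ := (hJ.finite_subsets.subset
      (fun I (hI : I ⊆ J ∧ Ind I) => hI.1)).exists_le_maximal (a := I0) ⟨h1, h2⟩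
    exact ⟨I, h3, h4.1.1, h4.1.2, fun j hj hjI h5 =>
      hjI (h4.2 ⟨insert_subset hj h4.1.1, h5⟩ (subset_insert _ _) (Or.inl rfl))⟩
  have ge : ∀ J ⊆ N, J.Finite → ∀ I, Mx J I → ∀ I' ⊆ J, Ind I' →
      (J \ I).ncard ≤ (J \ I').ncard := by
    intro J hJN hJ I hI I' h1 h2
    have h3 : I'.encard ≤ I.encard := by
      by_contra h3
      obtain ⟨j, h4, h5, h6⟩ := hex I (hI.1.trans hJN) I' (h1.trans hJN) hI.2.1 h2 (not_le.1 h3)
      exact hI.2.2 j (h1 h4) h5 h6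
    have h4 : I'.ncard ≤ I.ncard := by
      rw [← (hJ.subset h1).cast_ncard_eq, ← (hJ.subset hI.1).cast_ncard_eq] at h3
      exact_mod_cast h3
    rw [ncard_sdiff hI.1 (hJ.subset hI.1), ncard_sdiff h1 (hJ.subset h1)]
    omega
  let S : Set ℕ := {k | ∃ J ⊆ N, J.Finite ∧ ∃ I, Mx J I ∧ (J \ I).ncard = k}
  have hSd : d ∈ upperBounds S := by
    rintro k ⟨J, h1, h2, I, h3, rfl⟩
    obtain ⟨I', h4, h5, h6⟩ := hd J h1 h2
    refine (ge J h1 h2 I h3 I' h4 h5).trans ?_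
    rw [← (h2.subset sdiff_subset).cast_ncard_eq] at h6
    exact_mod_cast h6
  have hS : BddAbove S := ⟨d, hSd⟩
  have hne : S.Nonempty := by
    obtain ⟨I, -, h1⟩ := ext ∅ finite_empty ∅ Subset.rfl (hmono _ _ (empty_subset _) hT)
    exact ⟨_, ∅, empty_subset _, finite_empty, I, h1, rfl⟩
  obtain ⟨J, hJN, hJ, I1, h1, h2⟩ := Nat.sSup_mem hne hS
  obtain ⟨I, h3, h4⟩ := ext J hJ (J ∩ T) inter_subset_left (hmono _ _ inter_subset_right hT)
  have h5 : sSup S ≤ (J \ I).ncard := h2 ▸ ge J hJN hJ I1 h1 I h4.1 h4.2.1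
  refine ⟨J \ I, fun a ha => ⟨hJN ha.1, fun h6 => ha.2 (h3 ⟨ha.1, h6⟩)⟩, ?_,
    fun J' hJ' hfin => ?_⟩
  · rw [← (hJ.subset sdiff_subset).cast_ncard_eq]
    exact_mod_cast hSd ⟨J, hJN, hJ, I, h4, rfl⟩
  obtain ⟨I', h6, h7⟩ := ext (J ∪ J') (hJ.union hfin) I (h4.1.trans subset_union_left) h4.2.1
  have h8 : J \ I ⊆ (J ∪ J') \ I' := fun a ha => ⟨Or.inl ha.1, fun h8 =>
    h4.2.2 a ha.1 ha.2 (hmono _ _ (insert_subset h8 h6) h7.2.1)⟩
  have h9 : ((J ∪ J') \ I').ncard ≤ sSup S :=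
    le_csSup hS ⟨J ∪ J', union_subset hJN fun a ha => (hJ' ha).1, hJ.union hfin, I', h7, rfl⟩
  have h10 := eq_of_subset_of_ncard_le h8 (h9.trans h5) ((hJ.union hfin).subset sdiff_subset)
  refine hmono I' J' (fun a ha => ?_) h7.2.1
  by_contra h11
  exact (hJ' ha).2 (h10 ▸ ⟨Or.inr ha, h11⟩)

/-- Frozen paths that still leave room for arbitrarily many edges of `J`. -/
def IslInv (t h : E → V) (G : Set E) (I B : Set V) (S J Φ : Set E) (N : E → E → Prop) : Prop :=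
  BS t h univ G I B Φ N ∧ ∀ n : ℕ, ∃ J1 ⊆ J \ Φ, (n : ℕ∞) ≤ J1.encard ∧
    LL t h univ (G \ Φ) I B ((S \ Φ) ∪ J1)

theorem IslInv.step {S J J0 Φ : Set E} {N : E → E → Prop} (H : IslInv t h G I B S J Φ N)
    (hd : Disjoint I B) (hS : ∀ a ∈ S, h a ∈ B) (hJ : ∀ a ∈ J, h a ∈ B) (h0 : J0 ⊆ J \ Φ)
    (HL : LL t h univ (G \ Φ) I B ((S \ Φ) ∪ J0)) {z : E} (hz : z ∈ (S \ Φ) ∪ J0) :
    ∃ Φ' N', IslInv t h G I B S J Φ' N' ∧ N ≤ N' ∧ Φ ⊆ Φ' ∧ z ∈ Φ' := by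
  have hT : ∀ a ∈ (S \ Φ) ∪ J0, h a ∈ B := fun a ha =>
    ha.elim (fun h1 => hS a h1.1) fun h1 => hJ a (h0 h1).1
  obtain ⟨U, M, h1, h2, h3, -⟩ := HL.link hd hT
  obtain ⟨C, -, -, hzC, hCU, hC, hcl, -⟩ := h2.comp (h3 hz)
  have hS' : ∀ a ∈ S \ (Φ ∪ C), h a ∈ B := fun a ha => hS a ha.1
  have HS : LL t h univ ((G \ Φ) \ C) I B (S \ (Φ ∪ C)) :=
    ⟨_, _, (h1.sdiff h2 hcl).1.mono fun a ha => ⟨h1.sub ha.1, ha.2⟩, fun a ha =>
      ⟨h3 (Or.inl ⟨ha.1, fun h4 => ha.2 (Or.inl h4)⟩), fun h4 => ha.2 (Or.inr h4)⟩⟩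
  refine ⟨Φ ∪ C, _, ⟨⟨H.1.ff.union (h2.sub hCU hcl).toFF
      (disjoint_left.2 fun a h4 h5 => (h1.sub (hCU h5)).2 h4),
    union_subset H.1.sub fun a ha => (h1.sub (hCU ha)).1,
    fun a ha => ha.elim (fun h4 => H.1.tB h4) fun h4 => h1.tB (hCU h4),
    fun a ha => ha.elim (fun h4 => H.1.hIB h4) fun h4 => h1.hIB (hCU h4), ls_univ _ _ _⟩,
    fun n => ?_⟩, fun a b hab => Or.inl hab, subset_union_left, Or.inr hzC⟩
  obtain ⟨J1, h4, h5, h6⟩ := H.2 (n + C.ncard)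
  obtain ⟨J', h7, h8, h9⟩ := (h6.mono Subset.rfl (union_subset_union_left J1
    (sdiff_subset_sdiff_right (subset_union_left (t := C))))).defi HS hd hS'
      (fun a ha => hJ a (h4 ha).1) hC
  refine ⟨J', fun a ha => ⟨(h4 (h7 ha)).1, fun h10 => h10.elim (h4 (h7 ha)).2
    (h8.sub (Or.inr ha)).2⟩, ?_, by rwa [← sdiff_sdiff]⟩
  rw [Nat.cast_add, hC.cast_ncard_eq, ← encard_sdiff_add_encard_of_subset h7, add_comm (_ : ℕ∞)
    J'.encard] at h5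
  exact (ENat.add_le_add_iff_right hC.encard_lt_top.ne).1 (h5.trans (add_le_add_right h9 _))

/-- Infinitely many further edges can be covered at once. -/
theorem LL.inf_subset {S J : Set E} (hG : G.Countable) (hd : Disjoint I B)
    (hS : ∀ a ∈ S, h a ∈ B) (hJ : ∀ a ∈ J, h a ∈ B) (hSJ : Disjoint S J) (hinf : J.Infinite)
    (H : ∀ J1 ⊆ J, J1.Finite → LL t h univ G I B (S ∪ J1)) :
    ∃ J' ⊆ J, J'.Infinite ∧ LL t h univ G I B (S ∪ J') := by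
  obtain ⟨g, hg⟩ := countable_iff_exists_injOn.1
    (hG.mono (subset_union_left.trans (H ∅ (empty_subset _) finite_empty).sub))
  obtain ⟨f, -, hf⟩ := exists_seq (S := Set E × (E → E → Prop))
    (fun s => IslInv t h G I B S J s.1 s.2)
    (fun n s s' => s.2 ≤ s'.2 ∧ s.1 ⊆ s'.1 ∧ (∀ z ∈ S, g z = n → z ∈ s'.1) ∧
      ∃ j ∈ J, j ∉ s.1 ∧ j ∈ s'.1)
    (∅, fun _ _ => False)
    ⟨⟨(link_empty _ _ _).toFF, empty_subset _, fun _ h1 => h1.elim, fun _ h1 => h1.elim,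
      ls_univ _ _ _⟩, fun n => by
        obtain ⟨J1, h1, h2⟩ := exists_subset_encard_eq (s := J) (k := n)
          (le_top.trans hinf.encard_eq.ge)
        refine ⟨J1, by simpa using h1, h2.ge, ?_⟩
        simpa using H J1 h1 (finite_of_encard_eq_coe h2)⟩ (by
      intro n s hs
      obtain ⟨J1, h1, h2, h3⟩ := hs.2 1
      obtain ⟨j, hj⟩ := one_le_encard_iff_nonempty.1 (Nat.cast_one.ge.trans h2)
      obtain ⟨Φ, N, h4, h5, h6, h7⟩ := hs.step hd hS hJ h1 h3 (Or.inr hj)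
      by_cases hex : ∃ z ∈ S, z ∉ Φ ∧ g z = n
      · obtain ⟨z, z1, z2, z3⟩ := hex
        obtain ⟨J2, h8, -, h9⟩ := h4.2 0
        obtain ⟨Φ', N', h10, h11, h12, h13⟩ := h4.step hd hS hJ h8 h9 (Or.inl ⟨z1, z2⟩)
        refine ⟨(Φ', N'), h10, h5.trans h11, h6.trans h12, fun w w1 w2 => ?_,
          j, (h1 hj).1, (h1 hj).2, h12 h7⟩
        rw [hg w1 z1 (w2.trans z3.symm)]
        exact h13
      · refine ⟨(Φ, N), h4, h5, h6, fun w w1 w2 => ?_, j, (h1 hj).1, (h1 hj).2, h7⟩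
        by_contra h8
        exact hex ⟨w, w1, h8, w2⟩)
  choose j j1 j2 j3 using fun n => (hf n).2.2.2.2
  have hm : Monotone fun n => (f n).1 := monotone_nat_of_le_succ fun n => (hf n).2.2.1
  refine ⟨range j, range_subset_iff.2 j1, infinite_range_of_injective
      (Function.Injective.of_lt_imp_ne fun a b hab e => j2 b (e ▸ hm (Nat.succ_le_of_lt hab) (j3 a))),
    _, _, ⟨FF.limit (fun n => (hf n).1.1.ff) (monotone_nat_of_le_succ fun n => (hf n).2.1),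
      iUnion_subset fun n => (hf n).1.1.sub, fun a ha => ?_, fun a ha => ?_, ls_univ _ _ _⟩, ?_⟩
  · obtain ⟨n, hn⟩ := mem_iUnion.1 ha
    exact (hf n).1.1.tB hn
  · obtain ⟨n, hn⟩ := mem_iUnion.1 ha
    exact (hf n).1.1.hIB hn
  · rintro a (ha | ⟨n, rfl⟩)
    · exact mem_iUnion.2 ⟨g a + 1, (hf (g a)).2.2.2.1 a ha rfl⟩
    · exact mem_iUnion.2 ⟨n + 1, j3 n⟩

end Pool.Agent.P.MP_133cc4_co
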