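import Pool.Agent.P.MP_133cc4_co.GCrit
import Pool.Agent.P.MP_133cc4_co.GRex

/-! The coloop lemma, bubbles inside a region, reservations. -/

namespace Pool.Agent.P.MP_133cc4_co

open Set Function Relation

variable {V E : Type*} {t h : E → V} {r : V} {F G : Set E} {I B : Set V} {U T : Set E}
  {M : E → E → Prop}

/-- Cutting a system at a tight set. -/
theorem coloop_cut {w : V} {X : Set V} (H : BS t h F G (Out r {w}) {w} U M)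
    (hT : ∀ b ∈ T, h b = w) (ht : STight t h G {w} U T X) :
    LL t h univ G (Out r (X ∪ {w})) (X ∪ {w}) {b | b ∈ U ∧ t b ∉ X} := by
  refine ⟨{b | b ∈ U ∧ t b ∉ X}, _, ⟨H.ff.restrict (Y' := Out r (X ∪ {w}))
    (fun b hb h1 => ⟨hb.1, h1.1, fun h2 => h1.2 (Or.inr h2)⟩) (fun b c hbc _ h1 => ?_),
    fun b hb => H.sub hb.1, fun b hb h1 => h1.elim hb.2 (H.tB hb.1), fun b hb => ?_,
    ls_univ _ _ _⟩, Subset.rfl⟩
  · refine ⟨H.ff.memr hbc, fun h2 => h1.2 ?_⟩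
    rw [H.ff.adj hbc]
    exact (ht.2 c (H.ff.memr hbc) h2).imp_right (hT c)
  · by_cases h1 : h b ∈ X ∪ {w}
    · exact Or.inr h1
    · exact Or.inl ⟨((H.hIB hb.1).resolve_right fun h2 => h1 (Or.inr h2)).1, h1⟩

/-- Passing through one vertex with infinitely many supplied in-edges. -/
theorem coloop_pass (hG : G.Countable) {w : V} {X : Set V} (hw : w ∉ X) {J : Set E}
    (hJ : J.Infinite) (hJ' : ∀ b ∈ J, b ∈ G ∧ h b = w ∧ t b ∉ X ∧ t b ≠ w) :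
    LL t h univ G {w} X {b | b ∈ G ∧ h b ∈ X ∧ t b = w} := by
  obtain ⟨f, hf⟩ := Set.countable_iff_exists_injOn.1 hG
  let i : E → E := fun b => (hJ.natEmbedding J (f b)).1
  have hi : ∀ b, i b ∈ J := fun b => (hJ.natEmbedding J (f b)).2
  have hinj : InjOn i G := fun b hb c hc h1 =>
    hf hb hc ((hJ.natEmbedding J).injective (Subtype.ext h1))
  refine ⟨{b | b ∈ G ∧ h b ∈ X ∧ t b = w} ∪ J,
    fun b c => b ∈ {b | b ∈ G ∧ h b ∈ X ∧ t b = w} ∧ c = i b,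
    ⟨⟨⟨fun b c h1 => Or.inl h1.1, fun b c h1 => Or.inr (h1.2 ▸ hi b), fun b c h1 => ?_,
      fun b c h1 => h1.1.2.2, fun b c d h1 h2 => h1.2.trans h2.2.symm,
      fun b c d h1 h2 => hinj h1.1.1 h2.1.1 (h1.2.symm.trans h2.2)⟩, ?_, ?_⟩, ?_, ?_, ?_,
      ls_univ _ _ _⟩, subset_union_left⟩
  · rw [h1.2, (hJ' _ (hi b)).2.1]
    exact h1.1.2.2
  · rintro b (hb | hb) h1
    · exact ⟨i b, hb, rfl⟩
    · exact ((hJ' b hb).2.2.2 h1).elim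
  · refine ⟨fun b => ⟨b, fun c hc => ⟨c, fun d hd => ?_⟩⟩⟩
    exact ((hJ' c (hc.2 ▸ hi b)).2.2.2 hd.1.2.2).elim
  · rintro b (hb | hb)
    · exact hb.1
    · exact (hJ' b hb).1
  · rintro b (hb | hb)
    · exact fun h1 => hw (hb.2.2 ▸ h1)
    · exact (hJ' b hb).2.2.1
  · rintro b (hb | hb)
    · exact Or.inr hb.2.1
    · exact Or.inl (hJ' b hb).2.1

/-- An edge needed by another vertex enters a set supplied from the root. -/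
theorem QL.coloop (hG : G.Countable) {w : V} (H : QL t h F G (Out r {w}) w) (hw : w ≠ r) {a : E}
    (ha : h a ≠ w) (hn : ¬ QL t h F (G \ {a}) (Out r {w}) w) :
    ∃ W, r ∉ W ∧ h a ∈ W ∧ t a ∉ W ∧ Sup t h r G W := by
  obtain ⟨J, hJG, hJf, hJw, hJn⟩ : ∃ J ⊆ G \ {a}, J.Finite ∧ (∀ b ∈ J, h b = w) ∧
      ¬ LL t h F (G \ {a}) (Out r {w}) {w} ({b | b ∈ F ∧ b ∈ G \ {a} ∧ h b = w} ∪ J) := by
    by_contra h1
    exact hn fun J h2 h3 h4 => by_contra fun h5 => h1 ⟨J, h2, h3, h4, h5⟩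
  have hJG' : J ⊆ G := fun b hb => (hJG hb).1
  set T : Set E := {b | b ∈ F ∧ b ∈ G ∧ h b = w} ∪ J with hTdef
  have hTw : ∀ b ∈ T, h b = w := fun b hb => hb.elim (fun h1 => h1.2.2) (hJw b)
  have hTn : ¬ LL t h F (G \ {a}) (Out r {w}) {w} T := fun h1 =>
    hJn (h1.mono Subset.rfl (union_subset_union_left _ fun b hb => ⟨hb.1, hb.2.1.1, hb.2.2⟩))
  obtain ⟨X, hX, haX, htX, htw, key⟩ := (H J hJG' hJf hJw).crit_del (out_disjoint r _) hTw ha hTn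
  have hwX : w ∉ X := fun h1 => (hX h1).2 rfl
  have hrX : r ∉ X := fun h1 => (hX h1).1 rfl
  let J0 : Set E := {b | b ∈ G ∧ h b = w ∧ b ∉ T}
  let S : Set E := {b | b ∈ G ∧ h b ∈ X ∧ t b ∉ X ∧ t b ≠ w}
  have K : ∀ J1 ⊆ J0, J1.Finite → LL t h univ G (Out r (X ∪ {w})) (X ∪ {w})
      (S ∪ J1 ∪ {b | b ∈ T ∧ t b ∉ X}) := by
    intro J1 h1 h2
    have h3 := H (J ∪ J1) (union_subset hJG' fun b hb => (h1 hb).1) (hJf.union h2)
      fun b hb => hb.elim (hJw b) fun h4 => (h1 h4).2.1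
    rw [← union_assoc] at h3
    obtain ⟨U, M, h4, h5, h6⟩ := key _ subset_union_left
      (fun b hb => hb.elim (hTw b) fun h4 => (h1 h4).2.1) h3
    refine (coloop_cut h4 hTw h6).mono Subset.rfl ?_
    rintro b ((hb | hb) | hb)
    · exact ⟨h6.1 b hb.1 hb.2.1 hb.2.2.1 hb.2.2.2, hb.2.2.1⟩
    · refine ⟨h5 (Or.inr hb), fun h7 => ?_⟩
      rcases h6.2 b (h5 (Or.inr hb)) h7 with h8 | h8
      · exact hwX ((h1 hb).2.1 ▸ h8)
      · exact (h1 hb).2.2 h8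
    · exact ⟨h5 (Or.inl hb.1), hb.2⟩
  by_cases hfin : J0.Finite
  · refine ⟨X ∪ {w}, fun h1 => h1.elim hrX fun h2 => hw h2.symm, Or.inl haX,
      fun h1 => h1.elim htX htw, (K J0 Subset.rfl hfin).mono Subset.rfl ?_⟩
    rintro b ⟨h1, h2 | h2, h3⟩
    · exact Or.inl (Or.inl ⟨h1, h2, fun h4 => h3 (Or.inl h4), fun h4 => h3 (Or.inr h4)⟩)
    · by_cases h4 : b ∈ T
      · exact Or.inr ⟨h4, fun h5 => h3 (Or.inl h5)⟩
      · exact Or.inl (Or.inr ⟨h1, h2, h4⟩)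
  obtain ⟨J', hJ'0, hJ'i, HL⟩ := LL.inf_subset (t := t) (h := h) (S := S) (J := J0) hG
    (out_disjoint r (X ∪ {w})) (fun b hb => Or.inl hb.2.1) (fun b hb => Or.inr hb.2.1)
    (disjoint_left.2 fun b h1 h2 => hwX (h2.2.1 ▸ h1.2.1)) hfin
    fun J1 h1 h2 => (K J1 h1 h2).mono Subset.rfl subset_union_left
  let A : Set E := {b | h b = w ∧ b ∉ J'}
  have H2 : LL t h univ (G \ A) (Out r (X ∪ {w})) (X ∪ {w}) (S ∪ J') :=
    HL.drop (out_disjoint r _)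
      (fun b hb => hb.elim (fun h1 => Or.inl h1.2.1) fun h1 => Or.inr (hJ'0 h1).2.1)
      fun b hb => ⟨fun h1 => h1.2 (Or.inr hb.1),
        fun h1 => h1.elim (fun h2 => hwX (hb.1 ▸ h2.2.1)) hb.2⟩
  have H1 := (coloop_pass (t := t) (h := h) (G := G \ A) (hG.mono sdiff_subset) hwX hJ'i
    fun b hb => ⟨⟨(hJ'0 hb).1, fun h1 => h1.2 hb⟩, (hJ'0 hb).2.1,
      fun h1 => HL.tail b (Or.inr hb) (Or.inl h1), fun h1 => HL.tail b (Or.inr hb) (Or.inr h1)⟩).add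
    (disjoint_left.2 fun v h1 h2 => hwX (h1 ▸ h2)) (S := S)
    fun b hb => ⟨⟨hb.1, fun h1 => hwX (h1.1 ▸ hb.2.1)⟩, hb.2.1, hb.2.2.2, hb.2.2.1⟩
  have H3 := H1.comp H2 (disjoint_left.2 fun v h1 h2 => h1.2 (Or.inr h2)) subset_union_right
    subset_union_left (fun b hb h1 h2 => by
      rcases h1 with h1 | h1
      · exact Or.inr (by_contra fun h3 => hb.2 ⟨h1, h3⟩)
      · exact Or.inl ⟨hb.1, h1, fun h3 => h2.2 (Or.inl h3), fun h3 => h2.2 (Or.inr h3)⟩)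
  refine ⟨X, hrX, haX, htX, (H3.shrink (I' := Out r X) (B' := X) (fun v hv => ?_) Subset.rfl
    (T' := Del t h G X) fun b hb => ⟨?_, hb.2.1⟩).mono sdiff_subset Subset.rfl⟩
  · by_cases h1 : v = w
    · exact Or.inr h1
    · exact Or.inl ⟨hv.1, fun h2 => h2.elim hv.2 h1⟩
  · by_cases h1 : t b = w
    · exact Or.inl ⟨⟨hb.1, fun h2 => hwX (h2.1 ▸ hb.2.1)⟩, hb.2.1, h1⟩
    · exact Or.inr ⟨hb.1, hb.2.1, hb.2.2, h1⟩

open Classical in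
/-- The tail map after contracting everything outside `Ω` to the root. -/
noncomputable def bubT (t : E → V) (r : V) (Ω : Set V) (a : E) : V := if t a ∈ Ω then t a else r

theorem bub_eq {Ω : Set V} {a : E} (ha : t a ∈ Ω) : bubT t r Ω a = t a := if_pos ha

theorem bub_in {Ω : Set V} {a : E} (ha : bubT t r Ω a ≠ r) : t a ∈ Ω :=
  by_contra fun h1 => ha (if_neg h1)

theorem bub_mem {Ω S : Set V} (hr : r ∉ S) {a : E} (ha : bubT t r Ω a ∈ S) :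
    t a ∈ Ω ∧ t a ∈ S :=
  have h1 : t a ∈ Ω := bub_in (r := r) fun h2 => hr (h2 ▸ ha)
  ⟨h1, bub_eq (r := r) h1 ▸ ha⟩

theorem bub_ll {Ω B' : Set V} (hr : r ∉ Ω) (hB : ∀ v, v ∈ B ↔ v ∈ Ω ∧ v ∈ B')
    (hI : ∀ v, v ∈ I ↔ v ∈ Ω ∧ v ∉ B')
    (H : Lk (bubT t r Ω) h r {a | a ∈ G ∧ h a ∈ Ω} B' T) : LL t h univ G I B T := by
  obtain ⟨U, M, h1, h2, h3, h4⟩ := H
  refine ⟨U, M, ⟨⟨⟨h1.meml, h1.memr, fun a b hab => ?_, fun a b hab => ?_, h1.fn, h1.inj⟩,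
    fun a ha h5 => ?_, h1.wf⟩, fun a ha => (h2 ha).1, fun a ha h5 => ?_, fun a ha => ?_,
    ls_univ _ _ _⟩, h4⟩
  · exact (bub_eq (bub_in (h1.int hab).1)).symm.trans (h1.adj hab)
  · have h5 := bub_in (h1.int hab).1
    exact (hI _).2 ⟨h5, bub_eq (r := r) h5 ▸ (h1.int hab).2⟩
  · obtain ⟨h6, h7⟩ := (hI _).1 h5
    refine h1.tot ha ?_
    rw [bub_eq h6]
    exact ⟨fun h8 => hr (h8 ▸ h6), h7⟩
  · obtain ⟨h6, h7⟩ := (hB _).1 h5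
    exact h3 a ha ((bub_eq (r := r) h6).symm ▸ h7)
  · by_cases h5 : h a ∈ B'
    · exact Or.inr ((hB _).2 ⟨(h2 ha).2, h5⟩)
    · exact Or.inl ((hI _).2 ⟨(h2 ha).2, h5⟩)

/-- The largest wave inside a region, with a linkage of its boundary inside the region. -/
theorem exists_bubble_in (hG : G.Countable) (F : Set E) {Ω : Set V} (hr : r ∉ Ω) {x : V}
    (hx : x ∈ Ω) :
    ∃ Y ⊆ Ω, ∃ U M, Wave t h r G {x} Y U M ∧ LS (Sm F) h Y U ∧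
      LL t h univ G (Ω \ ({x} ∪ Y)) ({x} ∪ Y) (Del t h G ({x} ∪ Y)) ∧
      ∀ X ⊆ Ω, ∀ U' M', Wave t h r G {x} X U' M' → LS (Sm F) h X U' → X ⊆ Y := by
  have hrx : r ∉ ({x} : Set V) := fun h1 => hr ((mem_singleton_iff.1 h1).symm ▸ hx)
  have hxΩ : ∀ v ∈ ({x} : Set V), v ∈ Ω := fun v hv => (mem_singleton_iff.1 hv).symm ▸ hx
  obtain ⟨Y, U, M, H, hL, hmax, hlk⟩ := exists_bubble (t := bubT t r Ω) (h := h) (r := r)
    (G := {a | a ∈ G ∧ h a ∈ Ω}) (B := {x}) (hG.mono fun a ha => ha.1) hrx (Sm F) Sm.mono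
    Sm.of_finite
  have hrY : r ∉ ({x} : Set V) ∪ Y := fun h1 => h1.elim hrx H.rY
  refine ⟨Y ∩ Ω, inter_subset_right, U, M, ⟨⟨⟨H.ff.meml, H.ff.memr, fun a b hab => ?_,
    fun a b hab => ⟨H.ff.int hab, (H.sub (H.ff.meml hab)).2⟩, H.ff.fn, H.ff.inj⟩,
    fun a ha h1 => H.ff.tot ha h1.1, H.ff.wf⟩, fun a ha => (H.sub ha).1, fun h1 => hr h1.2,
    fun y hy => H.dis hy.1, fun a ha h1 => H.tB ha ((bub_eq (r := r) (hxΩ _ h1)).symm ▸ h1),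
    fun a ha => (H.hYB ha).imp_left fun h1 => ⟨h1, (H.sub ha).2⟩, fun a ha h1 h2 h3 =>
      H.ent ⟨ha, h1.2⟩ h1.1 (fun h4 => h2 (bub_mem H.rY h4).symm) fun h4 => h3 (bub_mem hrx h4).2⟩,
    hL.sm_sub inter_subset_left Subset.rfl, ?_, fun X hX U' M' H' hL' y hy => ⟨?_, hX hy⟩⟩
  · exact (H.ff.adj hab).trans (bub_eq (bub_mem H.rY (H.ff.toMat.int' hab)).1)
  · have e : ∀ v, v ∈ ({x} : Set V) ∪ Y ∩ Ω ↔ v ∈ Ω ∧ v ∈ ({x} : Set V) ∪ Y := fun v =>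
      ⟨fun h1 => h1.elim (fun h2 => ⟨hxΩ v h2, Or.inl h2⟩) fun h2 => ⟨h2.2, Or.inr h2.1⟩,
        fun h1 => h1.2.imp_right fun h2 => ⟨h2, h1.1⟩⟩
    refine (bub_ll (I := Ω \ ({x} ∪ Y ∩ Ω)) hr e (fun v => ⟨fun h1 => ⟨h1.1, fun h2 => h1.2 ((e v).2 ⟨h1.1, h2⟩)⟩,
      fun h1 => ⟨h1.1, fun h2 => h1.2 ((e v).1 h2).2⟩⟩) hlk).mono Subset.rfl fun a ha => ?_
    exact ⟨⟨ha.1, ((e _).1 ha.2.1).1⟩, ((e _).1 ha.2.1).2,
      fun h1 => ha.2.2 ((e _).2 (bub_mem hrY h1))⟩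
  · have H2 : Wave (bubT t r Ω) h r {a | a ∈ G ∧ h a ∈ Ω} {x} X U' M' :=
      ⟨⟨⟨H'.ff.meml, H'.ff.memr, fun a b hab =>
        (H'.ff.adj hab).trans (bub_eq (hX (H'.ff.toMat.int' hab))).symm, H'.ff.int, H'.ff.fn,
        H'.ff.inj⟩, H'.ff.tot, H'.ff.wf⟩,
        fun a ha => ⟨H'.sub ha, (H'.hYB ha).elim (fun h1 => hX h1) (hxΩ _)⟩, H'.rY, H'.dis,
        fun a ha h1 => H'.tB ha (bub_mem hrx h1).2, H'.hYB, fun a ha h1 h2 h3 =>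
          H'.ent ha.1 h1 (fun h4 => h2 ((bub_eq (r := r) (hX h4)).symm ▸ h4))
            fun h4 => h3 ((bub_eq (r := r) (hxΩ _ h4)).symm ▸ h4)⟩
    obtain ⟨U2, M2, H3, hU⟩ := H2.enlarge (B' := {x} ∪ Y) subset_union_left
    have h1 := hmax _ _ _ H3 (hL'.sm_sub sdiff_subset hU)
    by_contra h2
    exact (eq_empty_iff_forall_notMem.1 h1) y ⟨hy, fun h3 => h3.elim (H'.dis hy) h2⟩

/-- Finitely many reserved edges protect the linkage of all edges entering `B`. -/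
theorem LL.reserve (hG : G.Countable) (H : LL t h univ G I B (Del t h G B)) (hd : Disjoint I B)
    (hrI : r ∉ I) (hrB : r ∉ B) (v : V) :
    ∃ K : Set E, K.Finite ∧ ∀ A : Set E, A.Finite → (∀ a ∈ A, h a = v ∧ a ∉ K) →
      LL t h univ (G \ A) I B (Del t h (G \ A) B) := by
  have hD : ∀ A : Set E, Del t h (G \ A) B ⊆ Del t h G B := fun A a ha => ⟨ha.1.1, ha.2⟩
  by_cases hv : v ∈ I
  swap
  · exact ⟨∅, finite_empty, fun A _ hA => (H.mono Subset.rfl (hD A)).drop hd (fun a ha => ha.2.1)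
      fun a ha => ⟨(hA a ha).1.symm ▸ hv, fun h1 => h1.1.2 ha⟩⟩
  have hr : r ∉ I ∪ B := fun h1 => h1.elim hrI hrB
  obtain ⟨U, M, h1, h2⟩ := H
  have H1 : Lk (bubT t r (I ∪ B)) h r {a | a ∈ G ∧ h a ∈ I ∪ B} B (Del t h G B) := by
    refine ⟨U, M, ⟨⟨h1.ff.meml, h1.ff.memr, fun a b hab =>
      (bub_eq (Ω := I ∪ B) (Or.inl (h1.ff.int hab))).trans (h1.ff.adj hab), fun a b hab => ?_, h1.ff.fn,
      h1.ff.inj⟩, fun a ha h3 => h1.ff.tot ha ?_, h1.ff.wf⟩, fun a ha => ⟨h1.sub ha, h1.hIB ha⟩,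
      fun a ha h3 => h1.tB ha (bub_mem hrB h3).2, h2⟩
    · rw [bub_eq (Ω := I ∪ B) (Or.inl (h1.ff.int hab))]
      exact ⟨fun h3 => hrI (h3 ▸ h1.ff.int hab), disjoint_left.1 hd (h1.ff.int hab)⟩
    · exact (bub_in h3.1).resolve_right (h1.tB ha)
  obtain ⟨K, -, hK, h3⟩ := H1.reserve (hG.mono fun a ha => ha.1) (fun a ha => ha.2.1) (v := v)
    (fun h3 => hrI (h3 ▸ hv)) (disjoint_left.1 hd hv)
  refine ⟨K, hK, fun A hA hAv => ?_⟩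
  refine (bub_ll (G := G \ A) (Ω := I ∪ B) (B' := B) hr (fun w => ⟨fun h4 => ⟨Or.inr h4, h4⟩, fun h4 => h4.2⟩)
    (fun w => ⟨fun h4 => ⟨Or.inl h4, disjoint_left.1 hd h4⟩, fun h4 => h4.1.resolve_right h4.2⟩)
    ((h3 A hA (fun a ha => (hAv a ha).1) (disjoint_left.2 fun a ha => (hAv a ha).2)).mono
      (fun a ha => ⟨⟨ha.1.1, ha.2⟩, ha.1.2⟩) Subset.rfl)).mono Subset.rfl (hD A)

end Pool.Agent.P.MP_133cc4_co
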