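import Pool.Agent.P.MP_133cc4_co.GLink

/-! Critical tight sets. -/

namespace Pool.Agent.P.MP_133cc4_co

open Set Function Relation

variable {V E : Type*} {t h : E → V} {r : V} {F G : Set E} {I B : Set V} {U T : Set E}
  {M : E → E → Prop}

/-- Either one more edge can be covered inside `X'` or there is a tight set. -/
theorem BS.key (H : BS t h F G I B U M) (hd : Disjoint I B) (hT : T ⊆ U) (hTB : ∀ a ∈ T, h a ∈ B)
    {X' : Set V} (hX : X' ⊆ I) {e : E} (heG : e ∈ G) (heB : h e ∈ B) (he : t e ∈ X') :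
    LL t h F G X' B (insert e {a | a ∈ T ∧ t a ∈ X'}) ∨
      ∃ X ⊆ X', t e ∈ X ∧ STight t h G B U T X := by
  have hd' : Disjoint X' B := hd.mono_left hX
  obtain ⟨U4, M4, h1, h2, h3, h4, h5, h6⟩ := (H.shrink (B' := B) hX Subset.rfl).norm hd'
    (T := {a | a ∈ T ∧ t a ∈ X'}) (fun a ha => ⟨hT ha.1, Or.inr (hTB a ha.1)⟩)
    fun a ha => hTB a ha.1
  by_cases heU : e ∈ U4
  · exact Or.inl ⟨U4, M4, h1, insert_subset heU h3⟩
  have heX : h e ∉ X' := fun h7 => disjoint_left.1 hd' h7 heB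
  rcases h2.augment (G := {a | a ∈ G ∧ t a ∉ B ∧ (h a ∈ X' ∨ h a ∈ B)})
    (fun a ha => ⟨h1.sub ha, h1.tB ha, h1.hIB ha⟩) (c := e)
    ⟨heG, disjoint_left.1 hd' he, Or.inr heB⟩ heU heX with
    ⟨U', M', -, h7, h8, h9, h10, -⟩ | ⟨W, hW, h7, h8, h9, -⟩
  · refine Or.inl ⟨U', M', ⟨h7.toFF, fun a ha => (h8 ha).1, fun a ha => (h8 ha).2.1,
      fun a ha => (h8 ha).2.2, h1.lf.sm_fin h9⟩, ?_⟩
    rintro a (rfl | ha)
    · exact (h10 a heX).2 (Or.inr rfl)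
    · exact (h10 a fun h11 => disjoint_left.1 hd' h11 (hTB a ha.1)).2 (Or.inl (h3 ha))
  · have k : ∀ a, a ∈ U → t a ∈ W → a ∈ U4 := by
      intro a
      induction a using H.ff.wf.induction with
      | _ a ih =>
        intro ha h10
        obtain ⟨c, hc⟩ := H.ff.tot ha (hX (hW h10))
        have hcU := H.ff.memr hc
        have hcW : h c ∈ W := H.ff.adj hc ▸ h10
        have hc4 : c ∈ U4 := by
          by_contra h11
          exact h11 (ih c hc hcU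
            (h8 c ⟨H.sub hcU, H.tB hcU, Or.inl (hW hcW)⟩ h11 hcW))
        obtain ⟨a', ha'⟩ := h2.tot' hc4 (hW hcW)
        exact H.ff.inj (h5 _ _ ha').1 hc ▸ h2.meml ha'
    refine Or.inr ⟨W, hW, h7, fun a ha h10 h11 h12 => ?_, fun a ha h10 => ?_⟩
    · by_contra h13
      exact h11 (h8 a ⟨ha, h12, Or.inl (hW h10)⟩ (fun h14 => h13 (h4 h14).1) h10)
    · by_cases h11 : h a ∈ X'
      · exact Or.inl (h9 a (k a ha h10) h10 h11)
      · exact Or.inr (h6 a (k a ha h10) h11).1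

/-- A set that is tight for every system covering all but one edge. -/
theorem LL.crit (H : LL t h F G I B T) (hd : Disjoint I B) (hTB : ∀ a ∈ T, h a ∈ B) {e : E}
    (heG : e ∈ G) (heB : h e ∈ B) (het : t e ∉ B) (hn : ¬ LL t h F G I B (insert e T)) :
    ∃ X ⊆ I, t e ∈ X ∧ ∀ e' ∈ insert e T, ∀ U' M', BS t h F G I B U' M' →
      insert e T \ {e'} ⊆ U' → t e' ∈ X ∧ STight t h G B U' (insert e T \ {e'}) X := by
  obtain ⟨R, MR, HR, hTR⟩ := H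
  have heI : t e ∈ I := by
    by_contra h1
    refine hn ((LL.add ⟨R, MR, HR, hTR⟩ hd (S := {e}) ?_).mono Subset.rfl ?_)
    · rintro _ rfl
      exact ⟨heG, heB, h1, het⟩
    · rintro a (rfl | ha)
      · exact Or.inr rfl
      · exact Or.inl ha
  have hB' : ∀ a ∈ insert e T, h a ∈ B := by
    rintro a (rfl | ha)
    · exact heB
    · exact hTB a ha
  obtain ⟨X0, hX0⟩ : ∃ X ⊆ I, t e ∈ X ∧ STight t h G B R T X := by
    refine (HR.key hd hTR hTB Subset.rfl heG heB heI).resolve_left fun h1 => hn ?_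
    refine (h1.add hd (S := {a | a ∈ T ∧ t a ∉ I}) fun a ha =>
      ⟨HR.sub (hTR ha.1), hTB a ha.1, ha.2, HR.tB (hTR ha.1)⟩).mono Subset.rfl ?_
    rintro a (rfl | ha)
    · exact Or.inl (Or.inl rfl)
    · by_cases h2 : t a ∈ I
      · exact Or.inl (Or.inr ⟨ha, h2⟩)
      · exact Or.inr ⟨ha, h2⟩
  let X : Set V := ⋂₀ {X | X ⊆ I ∧ t e ∈ X ∧ STight t h G B R T X}
  have hmin : ∀ X', X' ⊆ I → t e ∈ X' → STight t h G B R T X' → X ⊆ X' :=
    fun X' h1 h2 h3 => sInter_subset_of_mem ⟨h1, h2, h3⟩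
  have hXI : X ⊆ I := (hmin X0 hX0.1 hX0.2.1 hX0.2.2).trans hX0.1
  have heX : t e ∈ X := fun X' hX' => hX'.2.1
  have hXt : STight t h G B R T X := by
    refine ⟨fun a ha h1 h2 h3 => ?_, fun a ha h1 => ?_⟩
    · by_contra h4
      exact h2 fun X' hX' => by_contra fun h5 => h4 (hX'.2.2.1 a ha (h1 X' hX') h5 h3)
    · by_cases h2 : a ∈ T
      · exact Or.inr h2
      · exact Or.inl fun X' hX' => (hX'.2.2.2 a ha (h1 X' hX')).resolve_right h2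
  refine ⟨X, hXI, heX, fun e' he' U' M' HU hU => ?_⟩
  have n1 : ¬ LL t h F G X B {a | a ∈ insert e T ∧ t a ∈ X} := fun h1 =>
    hn (HR.splice_ll hd hXI hTR hTB hXt h1 fun a ha => ⟨fun h2 => ⟨ha, h2⟩,
      fun h2 => ha.resolve_left fun h3 => h2 (h3 ▸ heX)⟩)
  have he'X : t e' ∈ X := by
    by_contra h1
    exact n1 (LL.shrink ⟨U', M', HU, hU⟩ hXI Subset.rfl fun a ha =>
      ⟨⟨ha.1, fun h2 => h1 (h2 ▸ ha.2)⟩, hB' a ha.1⟩)
  have he'G : e' ∈ G := he'.elim (fun h1 => h1 ▸ heG) fun h1 => HR.sub (hTR h1)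
  obtain ⟨X2, h1, h2, h3⟩ := (HU.key hd hU (fun a ha => hB' a ha.1) hXI he'G (hB' e' he')
    he'X).resolve_left fun h1 => n1 (h1.mono Subset.rfl fun a ha => by
      by_cases h2 : a = e'
      · exact Or.inl h2
      · exact Or.inr ⟨⟨ha.1, h2⟩, ha.2⟩)
  have n2 : ¬ LL t h F G X2 B {a | a ∈ insert e T ∧ t a ∈ X2} := fun h4 =>
    hn (HU.splice_ll hd (h1.trans hXI) hU (fun a ha => hB' a ha.1) h3 h4 fun a ha =>
      ⟨fun h5 => ⟨ha, h5⟩, fun h5 => ⟨ha, fun h6 => h5 (h6 ▸ h2)⟩⟩)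
  have heX2 : t e ∈ X2 := by
    by_contra h4
    exact n2 (LL.shrink ⟨R, MR, HR, hTR⟩ (h1.trans hXI) Subset.rfl fun a ha =>
      ⟨ha.1.resolve_left fun h5 => h4 (h5 ▸ ha.2), hB' a ha.1⟩)
  obtain ⟨X4, h4, h5, h6⟩ := (HR.key hd hTR hTB (h1.trans hXI) heG heB heX2).resolve_left
    fun h4 => n2 (h4.mono Subset.rfl fun a ha => ha.1.imp_right fun h5 => ⟨h5, ha.2⟩)
  have h7 : X = X2 :=
    Subset.antisymm ((hmin X4 (h4.trans (h1.trans hXI)) h5 h6).trans h4) h1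
  exact ⟨he'X, h7 ▸ h3⟩

/-- An edge that is needed for a linkage enters a critical set. -/
theorem LL.crit_del (H : LL t h F G I B T) (hd : Disjoint I B) (hTB : ∀ a ∈ T, h a ∈ B) {a : E}
    (ha : h a ∉ B) (hn : ¬ LL t h F (G \ {a}) I B T) :
    ∃ X ⊆ I, h a ∈ X ∧ t a ∉ X ∧ t a ∉ B ∧ ∀ T', T ⊆ T' → (∀ b ∈ T', h b ∈ B) →
      LL t h F G I B T' → ∃ U M, BS t h F G I B U M ∧ T' ⊆ U ∧ STight t h G B U T X := by
  have key : ∀ T', T ⊆ T' → (∀ b ∈ T', h b ∈ B) → LL t h F G I B T' →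
      ∃ U M C c, BS t h F G I B U M ∧ Link h t I U M ∧ T' ⊆ U ∧ a ∈ C ∧ C ⊆ U ∧
        (∀ x y, M x y → (x ∈ C ↔ y ∈ C)) ∧ c ∈ C ∧ c ∈ T ∧ (∀ b ∈ C, h b ∉ I → b = c) ∧
        BS t h F (G \ {a}) I B (U \ C) (fun x y => M x y ∧ x ∈ U \ C) ∧ T \ {c} ⊆ U \ C := by
    intro T' h1 h2 h3
    obtain ⟨U, M, h4, h5, h6, -⟩ := h3.link hd h2
    have haU : a ∈ U := by
      by_contra h7
      exact hn ⟨U, M, h4.mono fun b hb => ⟨h4.sub hb, fun h8 => h7 (h8 ▸ hb)⟩, h1.trans h6⟩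
    obtain ⟨C, c, -, haC, hCU, -, hcl, hcC, -, hc, -⟩ := h5.comp haU
    have h7 := (h4.sdiff h5 hcl).1.mono (G' := G \ {a})
      fun b hb => ⟨h4.sub hb.1, fun h8 => hb.2 (h8 ▸ haC)⟩
    have h8 : T \ {c} ⊆ U \ C := fun b hb => ⟨h6 (h1 hb.1), fun h8 =>
      hb.2 (hc b h8 fun h9 => disjoint_left.1 hd h9 (hTB b hb.1))⟩
    refine ⟨U, M, C, c, h4, h5, h6, haC, hCU, hcl, hcC, ?_, hc, h7, h8⟩
    by_contra h9
    exact hn ⟨_, _, h7, fun b hb => h8 ⟨hb, fun h10 => h9 (h10 ▸ hb)⟩⟩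
  obtain ⟨U0, M0, C0, e, k1, -, k2, k3, k4, -, -, heT, -, k5, k6⟩ := key T Subset.rfl hTB H
  have hins : insert e (T \ {e}) = T := by rw [insert_sdiff_singleton, insert_eq_of_mem heT]
  obtain ⟨X, hXI, -, hX⟩ := LL.crit ⟨_, _, k5, k6⟩ hd (fun b hb => hTB b hb.1) (e := e)
    ⟨k1.sub (k2 heT), fun h1 => ha (h1 ▸ hTB e heT)⟩ (hTB e heT) (k1.tB (k2 heT))
    (hins.symm ▸ hn)
  rw [hins] at hX
  have main : ∀ T', T ⊆ T' → (∀ b ∈ T', h b ∈ B) → LL t h F G I B T' → h a ∈ X ∧ t a ∉ X ∧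
      ∃ U M, BS t h F G I B U M ∧ T' ⊆ U ∧ STight t h G B U T X := by
    intro T' h1 h2 h3
    obtain ⟨U, M, C, c, h4, h5, h6, haC, hCU, hcl, hcC, hcT, hc, h7, h8⟩ := key T' h1 h2 h3
    obtain ⟨h9, h10, h11⟩ := hX c hcT _ _ h7 h8
    have c1 : ∀ b ∈ C, h b ∈ X → t b ∉ X → b = a := fun b hb h12 h13 => by_contra fun h14 =>
      (h10 b ⟨h4.sub (hCU hb), h14⟩ h12 h13 (h4.tB (hCU hb))).2 hb
    have c2 : ∀ b, b ∈ C → t b ∈ X → TransGen M b a ∧ h a ∈ X ∧ t a ∉ X := by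
      intro b
      induction b using h5.wf.induction with
      | _ b ih =>
        intro hb h12
        obtain ⟨p, hp⟩ := h5.tot (hCU hb) (hXI h12)
        have h13 : h p ∈ X := h5.adj hp ▸ h12
        by_cases h14 : t p ∈ X
        · obtain ⟨h15, h16⟩ := ih p hp ((hcl _ _ hp).1 hb) h14
          exact ⟨h15.head hp, h16⟩
        · obtain rfl := c1 p ((hcl _ _ hp).1 hb) h13 h14
          exact ⟨TransGen.single hp, h13, h14⟩
    have c3 : ∀ s, s ∈ C → t s ∉ X → ReflTransGen M a s := by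
      intro s
      induction s using h5.wf'.induction with
      | _ s ih =>
        intro hs h12
        by_cases h13 : h s ∈ X
        · exact c1 s hs h13 h12 ▸ ReflTransGen.refl
        have h14 : h s ∈ I := by_contra fun h14 => h12 (hc s hs h14 ▸ h9)
        obtain ⟨s', hs'⟩ := h5.tot' (hCU hs) h14
        exact (ih s' hs' ((hcl _ _ hs').2 hs) (h5.adj hs' ▸ h13)).tail hs'
    obtain ⟨-, h12, h13⟩ := c2 c hcC h9
    refine ⟨h12, h13, U, M, h4, h6, fun b hb h14 h15 h16 => ?_, fun b hb h14 => ?_⟩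
    · by_cases h17 : b = a
      · exact h17 ▸ hCU haC
      · exact (h10 b ⟨hb, h17⟩ h14 h15 h16).1
    · by_cases h15 : b ∈ C
      swap
      · exact (h11 b ⟨hb, h15⟩ h14).imp_right fun h16 => h16.1
      by_contra h16
      rw [not_or] at h16
      have h17 : h b ∈ I := by_contra fun h17 => h16.2 (hc b h15 h17 ▸ hcT)
      obtain ⟨s, hs⟩ := h5.tot' hb h17
      have h18 := c3 s ((hcl _ _ hs).2 h15) (h5.adj hs ▸ h16.1)
      exact h5.wf'.transGen.irrefl.irrefl a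
        ((TransGen.tail' h18 hs).trans (c2 b h15 h14).1)
  obtain ⟨h1, h2, -⟩ := main T Subset.rfl hTB H
  exact ⟨X, hXI, h1, h2, k1.tB (k4 k3), fun T' h3 h4 h5 => (main T' h3 h4 h5).2.2⟩

/-- Finitely many reserved edges protect `QL` against finite deletions at another vertex. -/
theorem QL.reserve {x y : V} (H : QL t h F G I x) (hx : x ∉ I) (hy : y ≠ x) :
    ∃ K : Set E, K.Finite ∧ ∀ A : Set E, A.Finite → (∀ a ∈ A, h a = y ∧ a ∉ F ∧ a ∉ K) →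
      QL t h F (G \ A) I x := by
  have hd : Disjoint I {x} := disjoint_singleton_right.2 hx
  have e1 : ∀ A : Set E, (∀ a ∈ A, h a = y) →
      {a | a ∈ F ∧ a ∈ G \ A ∧ h a = x} = {a | a ∈ F ∧ a ∈ G ∧ h a = x} := fun A hA => by
    ext a
    exact ⟨fun h1 => ⟨h1.1, h1.2.1.1, h1.2.2⟩,
      fun h1 => ⟨h1.1, ⟨h1.2.1, fun h2 => hy ((hA a h2).symm.trans h1.2.2)⟩, h1.2.2⟩⟩
  by_cases h0 : ∀ A : Set E, A.Finite → (∀ a ∈ A, h a = y) → QL t h F (G \ A) I x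
  · exact ⟨∅, finite_empty, fun A h1 h2 => h0 A h1 fun a ha => (h2 a ha).1⟩
  obtain ⟨N, a, hN, ha, h1, h2⟩ : ∃ (N : Set E) (a : E), (∀ b ∈ N, h b = y) ∧ h a = y ∧
      QL t h F (G \ N) I x ∧ ¬ QL t h F ((G \ N) \ {a}) I x := by
    by_contra h1
    refine h0 fun A hA => ?_
    induction A, hA using Set.Finite.induction_on with
    | empty => exact fun _ => by simpa using H
    | @insert a A _ _ ih =>
      intro h2
      by_contra h3
      refine h1 ⟨A, a, fun b hb => h2 b (Or.inr hb), h2 a (Or.inl rfl),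
        ih fun b hb => h2 b (Or.inr hb), ?_⟩
      rwa [Set.sdiff_sdiff, union_singleton]
  unfold QL at h2
  push Not at h2
  obtain ⟨J1, h3, h4, h5, h6⟩ := h2
  rw [show {b | b ∈ F ∧ b ∈ (G \ N) \ {a} ∧ h b = x} = {b | b ∈ F ∧ b ∈ G ∧ h b = x} by
    rw [sdiff_sdiff_left]
    refine e1 _ ?_
    rintro b (hb | rfl)
    · exact hN b hb
    · exact ha] at h6
  have hx1 : ∀ J : Set E, (∀ b ∈ J, h b = x) →
      ∀ b ∈ {b | b ∈ F ∧ b ∈ G ∧ h b = x} ∪ J, h b ∈ ({x} : Set V) :=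
    fun J hJ b hb => hb.elim (fun h7 => h7.2.2) (hJ b)
  have h7 := h1 J1 (fun b hb => (h3 hb).1) h4 h5
  rw [e1 N hN] at h7
  obtain ⟨X, hXI, h8, -, -, h9⟩ := h7.crit_del hd (hx1 J1 h5) (fun h8 => hy (ha.symm.trans h8)) h6
  obtain ⟨Q, MQ, hQ, hQ1, hQ2⟩ := h9 _ Subset.rfl (hx1 J1 h5) h7
  refine ⟨{b | b ∈ Q ∧ h b = y} \ F, hQ.lf y (ha ▸ hXI h8), fun A _ hA J hJ1 hJ2 hJ3 => ?_⟩
  rw [e1 A fun b hb => (hA b hb).1]
  have h10 := h1 (J1 ∪ J) (union_subset (fun b hb => (h3 hb).1) fun b hb =>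
    ⟨(hJ1 hb).1, fun h10 => hy ((hN b h10).symm.trans (hJ3 b hb))⟩) (h4.union hJ2)
    fun b hb => hb.elim (h5 b) (hJ3 b)
  rw [e1 N hN] at h10
  obtain ⟨U, M, h11, h12, h13⟩ := h9 _ (union_subset_union_right _ subset_union_left)
    (hx1 _ fun b hb => hb.elim (h5 b) (hJ3 b)) h10
  obtain ⟨M', h14⟩ := h11.splice hd hXI h13.1
    (fun b hb h14 => (h13.2 b hb h14).imp_right (hx1 J1 h5 b)) (hQ.shrink hXI Subset.rfl)
  refine ⟨_, M', h14.mono fun b hb => ⟨(h14.sub hb).1, fun h15 => (hA b h15).2.2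
    ⟨⟨?_, (hA b h15).1⟩, (hA b h15).2.1⟩⟩, fun b hb => ?_⟩
  · rcases hb with hb | hb
    · exact hQ2.1 b (h11.sub hb.1) (((hA b h15).1.trans ha.symm) ▸ h8) hb.2 (h11.tB hb.1)
    · exact hb.1.1
  · have h15 : b ∈ U := h12 (hb.imp_right Or.inr)
    by_cases h16 : t b ∈ X
    · have h17 := hx1 J hJ3 b hb
      exact Or.inr ⟨⟨hQ1 ((h13.2 b h15 h16).resolve_left
        fun h18 => disjoint_left.1 hd (hXI h18) h17), Or.inr h17⟩, h16⟩
    · exact Or.inl ⟨h15, h16⟩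

/-- An edge that could not be added starts in a wave. -/
theorem QL.wave_of_not {Z D : Set E} {x : V} (HZ : QL t h F Z I x) (HD : QL t h F D I x)
    (hDZ : D ⊆ Z) (hin : ∀ a ∈ Z, h a = x → a ∈ D) (hr : r ∉ I) (hx : x ∉ I) {e : E}
    (heF : e ∉ F) (hex : h e = x) (het : t e ≠ x) (hn : ¬ QL t h F (insert e Z) I x) :
    ∃ X ⊆ I, ∃ U M, Wave t h r D {x} X U M ∧ LS (Sm F) h X U ∧ t e ∈ X := by
  have hd : Disjoint I {x} := disjoint_singleton_right.2 hx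
  unfold QL at hn
  push Not at hn
  obtain ⟨J, h1, h2, h3, h4⟩ := hn
  have h5 : J \ {e} ⊆ Z := fun a ha => (h1 ha.1).resolve_left ha.2
  have h6 : ∀ a ∈ {a | a ∈ F ∧ a ∈ Z ∧ h a = x} ∪ J \ {e}, h a ∈ ({x} : Set V) :=
    fun a ha => ha.elim (fun h7 => h7.2.2) fun h7 => h3 a h7.1
  obtain ⟨X, hXI, heX, hX⟩ := ((HZ (J \ {e}) h5 (h2.subset sdiff_subset)
    fun a ha => h3 a ha.1).mono (subset_insert e Z) Subset.rfl).crit hd h6 (e := e) (Or.inl rfl)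
    hex het fun h7 => h4 (h7.mono Subset.rfl (by
      rintro a (ha | ha)
      · exact Or.inr (Or.inl ⟨ha.1, ha.2.1.resolve_left fun h8 => heF (h8 ▸ ha.1), ha.2.2⟩)
      · by_cases h8 : a = e
        · exact Or.inl h8
        · exact Or.inr (Or.inr ⟨ha, h8⟩)))
  obtain ⟨U, M, h7, h8, h9, -⟩ := (HD (J \ {e}) (fun a ha => hin a (h5 ha) (h3 a ha.1))
    (h2.subset sdiff_subset) fun a ha => h3 a ha.1).link hd
    fun a ha => ha.elim (fun h7 => h7.2.2) fun h7 => h3 a h7.1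
  obtain ⟨-, h10, h11⟩ := hX e (Or.inl rfl) U M
    (h7.mono (h7.sub.trans (hDZ.trans (subset_insert e Z)))) (by
      rintro a ⟨rfl | ha | ha, h10⟩
      · exact (h10 rfl).elim
      · exact h9 (Or.inl ⟨ha.1, hin a ha.2.1 ha.2.2, ha.2.2⟩)
      · exact h9 (Or.inr ha))
  refine ⟨X, hXI, {a | a ∈ U ∧ (h a ∈ X ∨ t a ∈ X)}, _, ⟨h8.bf.restrict
    (fun a ha h12 => ⟨ha.1, hXI h12⟩) fun a b hab _ h12 =>
      ⟨h8.meml hab, Or.inr (h8.adj hab ▸ h12)⟩, fun a ha => h7.sub ha.1, fun h12 => hr (hXI h12),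
    fun y hy => disjoint_left.1 hd (hXI hy), fun a ha => h7.tB ha.1, fun a ha => ?_,
    fun a ha h12 h13 h14 => ⟨h10 a (Or.inr (hDZ ha)) h12 h13 h14, Or.inl h12⟩⟩,
    h7.lf.sm_sub hXI fun a ha => ha.1, heX⟩
  rcases ha.2 with h12 | h12
  · exact Or.inl h12
  · exact (h11 a ha.1 h12).imp_right fun h13 => h6 a (h13.1.resolve_left h13.2)

end Pool.Agent.P.MP_133cc4_co
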