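import Pool.Agent.P.MP_133cc4_co.GGlob

/-! Every flame extends to a large flame when the in-degrees are countable. -/

namespace Pool.Agent.P.MP_133cc4_co

open Set Function Relation

variable {V E : Type*} {t h : E → V} {r : V}

/-- The case of countable in-degrees. -/
theorem gcore_indeg {D F : Set E} (hD : ∀ v, {a | a ∈ D ∧ h a = v}.Countable) (hr : ∀ e, h e ≠ r)
    (hloop : ∀ e, t e ≠ h e) (hFD : F ⊆ D)
    (hF : ∀ x, x ≠ r → Lk t h r F {x} {a | a ∈ F ∧ h a = x}) :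
    ∃ L, F ⊆ L ∧ L ⊆ D ∧ (∀ x, x ≠ r → Lk t h r L {x} {a | a ∈ L ∧ h a = x}) ∧
      ∀ e ∈ D, e ∉ L → Just t h r L e := by
  let Good : Set V × Set E → Prop := fun p => (∀ a ∈ D, h a ∈ p.1 → t a ∈ p.1) ∧
    (∀ a ∈ p.2, a ∈ D ∧ h a ∈ p.1) ∧ (∀ a ∈ F, h a ∈ p.1 → a ∈ p.2) ∧
    (∀ x ∈ p.1, x ≠ r → Lk t h r p.2 {x} {a | a ∈ p.2 ∧ h a = x}) ∧
    ∀ e ∈ D, h e ∈ p.1 → e ∉ p.2 → Just t h r p.2 e
  let R : {p // Good p} → {p // Good p} → Prop := fun p q =>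
    p.1.1 ⊆ q.1.1 ∧ ∀ a, h a ∈ p.1.1 → (a ∈ p.1.2 ↔ a ∈ q.1.2)
  have : Nonempty {p // Good p} := ⟨⟨(∅, ∅), fun _ _ h1 => h1, fun _ h1 => h1.elim,
    fun _ _ h1 => h1.elim, fun _ h1 => h1.elim, fun _ _ h1 => h1.elim⟩⟩
  obtain ⟨⟨⟨A, L⟩, g1, g2, g3, g4, g5⟩, hmax⟩ := exists_maximal_of_nonempty_chains_bounded (r := R)
    (by
      intro C hC _
      have key : ∀ p ∈ C, ∀ a, h a ∈ p.1.1 → (a ∈ p.1.2 ↔ a ∈ ⋃ q ∈ C, q.1.2) := by
        intro p hp a ha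
        refine ⟨fun h1 => mem_biUnion hp h1, fun h1 => ?_⟩
        obtain ⟨q, hq, h2⟩ := mem_iUnion₂.1 h1
        by_cases hpq : p = q
        · exact hpq ▸ h2
        rcases hC hp hq hpq with h3 | h3
        · exact (h3.2 a ha).2 h2
        · exact (h3.2 a (q.2.2.1 a h2).2).1 h2
      refine ⟨⟨(⋃ q ∈ C, q.1.1, ⋃ q ∈ C, q.1.2), ?_, ?_, ?_, ?_, ?_⟩,
        fun p hp => ⟨subset_biUnion_of_mem (u := fun q : {p // Good p} => q.1.1) hp, key p hp⟩⟩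
      · intro a ha h1
        obtain ⟨q, hq, h2⟩ := mem_iUnion₂.1 h1
        exact mem_biUnion hq (q.2.1 a ha h2)
      · intro a h1
        obtain ⟨q, hq, h2⟩ := mem_iUnion₂.1 h1
        exact ⟨(q.2.2.1 a h2).1, mem_biUnion hq (q.2.2.1 a h2).2⟩
      · intro a ha h1
        obtain ⟨q, hq, h2⟩ := mem_iUnion₂.1 h1
        exact mem_biUnion hq (q.2.2.2.1 a ha h2)
      · intro x h1 hx
        obtain ⟨q, hq, h2⟩ := mem_iUnion₂.1 h1
        exact (q.2.2.2.2.1 x h2 hx).mono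
          (subset_biUnion_of_mem (u := fun q : {p // Good p} => q.1.2) hq)
          fun a ha => ⟨(key q hq a (ha.2 ▸ h2)).2 ha.1, ha.2⟩
      · intro e he h1 h3
        obtain ⟨q, hq, h2⟩ := mem_iUnion₂.1 h1
        exact (q.2.2.2.2.2 e he h2 fun h4 => h3 (mem_biUnion hq h4)).transfer h2 (q.2.1 e he h2)
          (fun a ha => q.2.1 a (q.2.2.1 a ha).1) (key q hq))
    (fun h1 h2 => ⟨h1.1.trans h2.1, fun a ha => (h1.2 a ha).trans (h2.2 a (h1.1 ha))⟩)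
  dsimp only at g1 g2 g3 g4 g5
  have hA : ∀ v, v ∈ A := by
    intro v
    obtain ⟨C, hvC, hC, hc⟩ := exists_anc hD t v
    let D' : Set E := {a | a ∈ D ∧ h a ∈ C ∧ (h a ∈ A → a ∈ L)}
    let F' : Set E := {a | a ∈ D' ∧ (h a ∉ A → a ∈ F)}
    obtain ⟨L', k1, k2, k3, k4⟩ := gcore (t := t) (D0 := D') (F := F')
      (hc.mono fun a ha => And.intro ha.1 ha.2.1) hr hloop (fun a ha => ha.1) (by
        intro x hx
        by_cases hxC : x ∈ C
        swap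
        · refine lk_empty.mono Subset.rfl fun a ha => hxC (ha.2 ▸ ha.1.1.2.1)
        by_cases hxA : x ∈ A
        · refine ((g4 x hxA hx).transfer (A := C) (L' := F') (fun a ha => ha.2 ▸ hxC)
            (fun a ha => hC a (g2 a ha).1) fun a ha h1 => ⟨⟨(g2 a ha).1, h1, fun _ => ha⟩,
              fun h2 => (h2 (g2 a ha).2).elim⟩).mono Subset.rfl
            fun a ha => ⟨ha.1.1.2.2 (ha.2 ▸ hxA), ha.2⟩
        · refine ((hF x hx).transfer (A := C) (L' := F') (fun a ha => ha.2 ▸ hxC)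
            (fun a ha => hC a (hFD ha)) fun a ha h1 => ⟨⟨hFD ha, h1, g3 a ha⟩,
              fun _ => ha⟩).mono Subset.rfl
            fun a ha => ⟨ha.1.2 (ha.2 ▸ hxA), ha.2⟩)
    have e1 : ∀ a, h a ∈ A → (a ∈ L ↔ a ∈ L ∪ L') := fun a ha =>
      ⟨Or.inl, fun h1 => h1.elim id fun h2 => (k2 h2).2.2 ha⟩
    have e2 : ∀ a, h a ∈ C → (a ∈ L' ↔ a ∈ L ∪ L') := fun a ha =>
      ⟨Or.inr, fun h1 => h1.elim (fun h2 => k1 ⟨⟨(g2 a h2).1, ha, fun _ => h2⟩,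
        fun h3 => (h3 (g2 a h2).2).elim⟩) id⟩
    refine (hmax ⟨(A ∪ C, L ∪ L'), ?_, ?_, ?_, ?_, ?_⟩ ⟨subset_union_left, e1⟩).1 (Or.inr hvC)
    · exact fun a ha h1 => h1.imp (g1 a ha) (hC a ha)
    · rintro a (ha | ha)
      · exact ⟨(g2 a ha).1, Or.inl (g2 a ha).2⟩
      · exact ⟨(k2 ha).1, Or.inr (k2 ha).2.1⟩
    · rintro a ha (h1 | h1)
      · exact Or.inl (g3 a ha h1)
      · exact Or.inr (k1 ⟨⟨hFD ha, h1, g3 a ha⟩, fun _ => ha⟩)
    · rintro x (h1 | h1) hx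
      · exact (g4 x h1 hx).mono subset_union_left fun a ha => ⟨(e1 a (ha.2 ▸ h1)).2 ha.1, ha.2⟩
      · exact (k3 x hx).mono subset_union_right fun a ha => ⟨(e2 a (ha.2 ▸ h1)).2 ha.1, ha.2⟩
    · intro e he h1 h2
      by_cases h3 : h e ∈ A
      · exact (g5 e he h3 fun h4 => h2 (Or.inl h4)).transfer h3 (g1 e he h3)
          (fun a ha => g1 a (g2 a ha).1) e1
      · have h4 := h1.resolve_left h3
        exact (k4 e ⟨he, h4, fun h5 => (h3 h5).elim⟩ fun h5 => h2 (Or.inr h5)).transfer h4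
          (hC e he h4) (fun a ha => hC a (k2 ha).1) e2
  exact ⟨L, fun a ha => g3 a ha (hA _), fun a ha => (g2 a ha).1, fun x hx => g4 x (hA x) hx,
    fun e he h1 => g5 e he (hA _) h1⟩

theorem large_flame_all (hr : ∀ e, h e ≠ r) (hloop : ∀ e, t e ≠ h e)
    (hdeg : ∀ v, v ≠ r → {e | h e = v}.Countable ∨
      ∃ n : ℕ, ∀ Fam, PathFamily t h r v univ Fam → Fam.encard ≤ n)
    {F : Set E} (hF : IsFlame t h r F) :
    ∃ L, F ⊆ L ∧ IsFlame t h r L ∧ IsLarge t h r L := by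
  obtain ⟨Z, h1, -, h2, h3⟩ := exists_max_qf (subset_univ F) hr hloop hF.lk
  have hZ : ∀ v, {a | a ∈ Z ∧ h a = v}.Countable := by
    intro v
    by_cases hv : v = r
    · exact countable_empty.mono fun a ha => hr a (ha.2.trans hv)
    rcases hdeg v hv with h4 | ⟨n, h4⟩
    · exact h4.mono fun a ha => ha.2
    · refine Finite.countable (by_contra fun h5 => ?_)
      obtain ⟨J, h6, h8, h7⟩ := Set.Infinite.exists_subset_ncard_eq h5 (n + 1)
      obtain ⟨Fam, h9, -, h10⟩ := ((h2 v hv J (fun a ha => (h6 ha).1) h8 fun a ha => (h6 ha).2).mono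
        (subset_univ _) Subset.rfl).family hv fun a ha => (h6 ha).2
      have h11 := h10.trans (h4 Fam h9)
      rw [← h8.cast_ncard_eq, h7] at h11
      have h12 : n + 1 ≤ n := by exact_mod_cast h11
      omega
  obtain ⟨L, h4, h5, h6, h7⟩ := gcore_indeg hZ hr hloop h1 hF.lk
  have hL : ∀ v, {a | a ∈ L ∧ h a = v}.Countable := fun v => (hZ v).mono fun a ha => And.intro (h5 ha.1) ha.2
  exact ⟨L, h4, isFlame_of_lk h6, isLarge_of_just hL fun e => h3 L h5 hL h7 e (mem_univ _)⟩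

end Pool.Agent.P.MP_133cc4_co
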