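import Pool.Agent.P.MP_133cc4_co.GLoc

/-! The global recursion. -/

namespace Pool.Agent.P.MP_133cc4_co

open Set Function Relation

variable {V E : Type*} {t h : E → V} {r : V} {F D0 Z : Set E}

/-- The data of the recursion. -/
structure GSt (V E : Type*) where
  D : Set E
  K : Set E
  act : Set V
  loc : V → Loc V E
  S : Set ℕ
  Wq : ℕ → Set V
  Φq : ℕ → Set E
  Nq : ℕ → E → E → Prop

/-- The invariant of the recursion. -/
structure GInv (t h : E → V) (r : V) (F D0 Z : Set E) (s : GSt V E) : Prop where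
  FD : F ⊆ s.D
  KD : s.K ⊆ s.D
  DZ : s.D ⊆ Z
  Kfin : s.K.Finite
  actfin : s.act.Finite
  Sfin : s.S.Finite
  act : ∀ x ∈ s.act, AInv t h r F s.D x (s.loc x) ∧ (s.loc x).Φ ⊆ s.K ∧ (s.loc x).Ψ ⊆ s.K
  ina : ∀ w, w ∉ s.act → w ≠ r → QL t h F s.D (Out r {w}) w
  delZ : ∀ e ∈ Z, e ∉ s.D → h e ∈ s.act
  del : ∀ e ∈ D0, e ∉ s.D → h e ∈ s.act → t e ∈ (s.loc (h e)).Y0
  req : ∀ i ∈ s.S, SInv t h r s.D (s.Wq i) (s.Φq i) (s.Nq i) ∧ s.Φq i ⊆ s.K
  cov : ∀ x ∈ s.act, ∀ v, v ∉ (s.loc x).W → v = r ∨ ∃ i ∈ s.S, x ∈ s.Wq i ∧ v ∉ s.Wq i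

/-- Extension of states. -/
structure GRel (t : E → V) (s s' : GSt V E) : Prop where
  D : s'.D ⊆ s.D
  K : s.K ⊆ s'.K
  act : s.act ⊆ s'.act
  loc : ∀ x ∈ s.act, LRel t (s.loc x) (s'.loc x)
  S : s.S ⊆ s'.S
  q : ∀ i ∈ s.S, s'.Wq i = s.Wq i ∧ s.Φq i ⊆ s'.Φq i ∧ s.Nq i ≤ s'.Nq i

theorem GRel.refl (s : GSt V E) : GRel t s s :=
  ⟨Subset.rfl, Subset.rfl, Subset.rfl, fun _ _ => LRel.refl _, Subset.rfl,
    fun _ _ => ⟨rfl, Subset.rfl, le_rfl⟩⟩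

theorem GRel.trans {s s' s'' : GSt V E} (H : GRel t s s') (H' : GRel t s' s'') : GRel t s s'' :=
  ⟨H'.D.trans H.D, H.K.trans H'.K, H.act.trans H'.act,
    fun x hx => (H.loc x hx).trans (H'.loc x (H.act hx)), H.S.trans H'.S, fun i hi =>
      ⟨(H'.q i (H.S hi)).1.trans (H.q i hi).1, (H.q i hi).2.1.trans (H'.q i (H.S hi)).2.1,
        (H.q i hi).2.2.trans (H'.q i (H.S hi)).2.2⟩⟩

variable {s : GSt V E}

theorem GInv.activate (hZ : Z.Countable) (hloop : ∀ e, t e ≠ h e)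
    (hQ : ∀ x, x ≠ r → QL t h F Z (Out r {x}) x)
    (hmax : ∀ e ∈ D0, e ∉ Z → ¬ QL t h F (insert e Z) (Out r {h e}) (h e))
    (H : GInv t h r F D0 Z s) {x : V} (hxr : x ≠ r) :
    ∃ s', GInv t h r F D0 Z s' ∧ GRel t s s' ∧ x ∈ s'.act := by
  classical
  by_cases hxa : x ∈ s.act
  · exact ⟨s, H, GRel.refl s, hxa⟩
  obtain ⟨l, h1, h2, h3, h4, h5⟩ := exists_ainv (hZ.mono H.DZ) hxr (H.ina x hxa hxr)
  have hl : ∀ y ∈ s.act, update s.loc x l y = s.loc y := fun y hy =>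
    update_of_ne (fun h6 : y = x => hxa (h6 ▸ hy)) _ _
  refine ⟨{s with act := insert x s.act, loc := update s.loc x l}, ⟨H.FD, H.KD, H.DZ, H.Kfin,
    H.actfin.insert x, H.Sfin, ?_, fun w hw => H.ina w fun h6 => hw (Or.inr h6),
    fun e he h6 => Or.inr (H.delZ e he h6), ?_, H.req, ?_⟩,
    ⟨Subset.rfl, Subset.rfl, subset_insert _ _, ?_, Subset.rfl,
      fun _ _ => ⟨rfl, Subset.rfl, le_rfl⟩⟩, Or.inl rfl⟩
  · rintro y (rfl | hy)
    · simp only [update_self, h2, h3]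
      exact ⟨h1, empty_subset _, empty_subset _⟩
    · simp only [hl y hy]
      exact H.act y hy
  · intro e he h6 h7
    by_cases h8 : h e ∈ s.act
    · simp only [hl _ h8]
      exact H.del e he h6 h8
    have h9 : h e = x := h7.resolve_right h8
    have h10 : e ∉ Z := fun h10 => h8 (H.delZ e h10 h6)
    have h11 := hmax e he h10
    rw [h9] at h11
    obtain ⟨X, hX, U, M, hW, hL, ht⟩ := QL.wave_of_not (r := r) (hQ x hxr) (H.ina x hxa hxr) H.DZ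
      (fun a ha h12 => by
        by_contra h13
        exact hxa (h12 ▸ H.delZ a ha h13))
      (fun h12 => h12.1 rfl) (fun h12 => h12.2 rfl) (fun h12 => h6 (H.FD h12)) h9
      (h9 ▸ hloop e) h11
    simp only [h9, update_self]
    exact h5 X hX U M hW hL ht
  · rintro y (rfl | hy) v hv
    · simp only [update_self, h4, mem_ofPred_eq, not_not] at hv
      exact Or.inl hv
    · simp only [hl y hy] at hv
      exact H.cov y hy v hv
  · intro y hy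
    simp only [hl y hy]
    exact LRel.refl _

theorem GInv.freeze (hZ : Z.Countable) (hloop : ∀ e, t e ≠ h e) (H : GInv t h r F D0 Z s) {x : V}
    (hx : x ∈ s.act) {b : E} (hbD : b ∈ s.D)
    (hb : h b = x ∨ (h b ∈ (s.loc x).Y0 ∧ t b ∉ (s.loc x).Y0 ∧ t b ≠ x)) :
    ∃ s', GInv t h r F D0 Z s' ∧ GRel t s s' ∧ b ∈ (s'.loc x).Ψ := by
  classical
  have hD : s.D.Countable := hZ.mono H.DZ
  have res : ∀ y, y ∈ s.act \ {x} → ∃ K : Set E, K.Finite ∧ ∀ A : Set E, A.Finite →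
      (∀ a ∈ A, h a = x ∧ a ∉ F ∧ a ∉ K) → AInv t h r F (s.D \ A) y (s.loc y) := fun y hy =>
    (H.act y hy.1).1.reserve hD fun h1 => hy.2 h1.symm
  choose! Ky hKy1 hKy2 using res
  have res' : ∀ i, i ∈ s.S → ∃ K : Set E, K.Finite ∧ ∀ A : Set E, A.Finite →
      (∀ a ∈ A, h a = x ∧ a ∉ K) → SInv t h r (s.D \ A) (s.Wq i) (s.Φq i) (s.Nq i) :=
    fun i hi => (H.req i hi).1.reserve hD x
  choose! Ki hKi1 hKi2 using res'
  let K1 : Set E := s.K ∪ ((⋃ y ∈ s.act \ {x}, Ky y) ∪ ⋃ i ∈ s.S, Ki i)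
  have hK1 : K1.Finite := H.Kfin.union
    (((H.actfin.subset sdiff_subset).biUnion hKy1).union (H.Sfin.biUnion hKi1))
  obtain ⟨hA0, hΦK, hΨK⟩ := H.act x hx
  obtain ⟨l', hr1, hW1, hY1, hb1, ⟨P, hPD, hPf, hΦP, hΨP⟩, hP1, hL1, d, hd⟩ :=
    hA0.split hloop hK1 hbD hb
  obtain ⟨A, W', l'', hAf, hA, hrW, hxW, hS, hr2, hΦ2, hΨ2, hW2, hA2, hN⟩ :=
    PInv.loop (K := K1) (Wn := {w | w ∉ s.act ∧ w ≠ r}) hloop
      (fun w hw => ⟨hw.2, fun h1 => hw.1 (h1 ▸ hx)⟩) d s.D l' hD hP1 hL1 hd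
      fun w hw => H.ina w hw.1 hw.2
  obtain ⟨i0, hi0⟩ := H.Sfin.exists_notMem
  have hne : ∀ i ∈ s.S, i ≠ i0 := fun i hi h1 => hi0 (h1 ▸ hi)
  have hr3 : LRel t (s.loc x) l'' := hr1.trans hr2
  have hrel : ∀ y, LRel t (s.loc y) (update s.loc x l'' y) := by
    intro y
    by_cases hy : y = x
    · subst hy
      simp only [update_self]
      exact hr3
    · simp only [update_of_ne hy]
      exact LRel.refl _
  refine ⟨{ D := s.D \ A
            K := s.K ∪ (l'.Φ ∪ l'.Ψ)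
            act := s.act
            loc := update s.loc x l''
            S := insert i0 s.S
            Wq := update s.Wq i0 W'
            Φq := update s.Φq i0 ∅
            Nq := update s.Nq i0 fun _ _ => False },
    ⟨fun a ha => ⟨H.FD ha, fun h1 => (hA a h1).2.1 ha⟩, ?_, sdiff_subset.trans H.DZ, ?_, H.actfin,
      H.Sfin.insert i0, ?_, fun w h1 h2 => hN w ⟨h1, h2⟩, ?_, ?_, ?_, ?_⟩,
    ⟨sdiff_subset, subset_union_left, Subset.rfl, fun y _ => hrel y, subset_insert _ _, ?_⟩, ?_⟩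
  · rintro a (ha | ha | ha)
    · exact ⟨H.KD ha, fun h1 => (hA a h1).2.2.1 (Or.inl ha)⟩
    · exact ⟨(hΦP ha).elim (fun h1 => H.KD (hΦK h1)) fun h1 => hPD h1,
        fun h1 => (hA a h1).2.2.2.1 ha⟩
    · exact ⟨(hΨP ha).elim (fun h1 => H.KD (hΨK h1)) fun h1 => hPD h1,
        fun h1 => (hA a h1).2.2.2.1 ((hP1.cpl a (Or.inr (hA a h1).1)).2 ha)⟩
  · exact H.Kfin.union ((((H.Kfin.subset hΦK).union hPf).subset hΦP).union
      (((H.Kfin.subset hΨK).union hPf).subset hΨP))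
  · intro y hy
    by_cases hyx : y = x
    · subst hyx
      simp only [update_self, hΦ2, hΨ2]
      exact ⟨hA2, fun a ha => Or.inr (Or.inl ha), fun a ha => Or.inr (Or.inr ha)⟩
    · simp only [update_of_ne hyx]
      refine ⟨hKy2 y ⟨hy, hyx⟩ A hAf fun a ha => ⟨(hA a ha).1, (hA a ha).2.1, fun h1 =>
        (hA a ha).2.2.1 (Or.inr (Or.inl (mem_biUnion (t := Ky) ⟨hy, hyx⟩ h1)))⟩,
        (H.act y hy).2.1.trans subset_union_left, (H.act y hy).2.2.trans subset_union_left⟩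
  · intro e he h1
    by_cases h2 : e ∈ s.D
    · have h3 : e ∈ A := by
        by_contra h3
        exact h1 ⟨h2, h3⟩
      exact (hA e h3).1 ▸ hx
    · exact H.delZ e he h2
  · intro e he h1 h4
    show t e ∈ (update s.loc x l'' (h e)).Y0
    rw [(hrel (h e)).Y0]
    by_cases h2 : e ∈ s.D
    · have h3 : e ∈ A := by
        by_contra h3
        exact h1 ⟨h2, h3⟩
      rw [(hA e h3).1]
      exact hA0.1.YY (hY1 ▸ (hA e h3).2.2.2.2)
    · exact H.del e he h2 h4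
  · rintro i (rfl | hi)
    · simp only [update_self]
      exact ⟨⟨hrW, (link_empty _ _ _).toFF, fun _ h1 => h1.elim, by rwa [sdiff_empty]⟩,
        empty_subset _⟩
    · simp only [update_of_ne (hne i hi)]
      exact ⟨hKi2 i hi A hAf fun a ha => ⟨(hA a ha).1, fun h1 =>
        (hA a ha).2.2.1 (Or.inr (Or.inr (mem_biUnion (t := Ki) hi h1)))⟩,
        (H.req i hi).2.trans subset_union_left⟩
  · have old : ∀ y ∈ s.act, ∀ v, v ∉ (s.loc y).W →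
        v = r ∨ ∃ i ∈ insert i0 s.S, y ∈ update s.Wq i0 W' i ∧ v ∉ update s.Wq i0 W' i := by
      intro y hy v hv
      refine (H.cov y hy v hv).imp_right fun ⟨i, hi, h1⟩ => ⟨i, Or.inr hi, ?_⟩
      simp only [update_of_ne (hne i hi)]
      exact h1
    intro y hy v hv
    by_cases hyx : y = x
    · subst hyx
      simp only [update_self, hW2, hW1] at hv
      by_cases h1 : v ∈ (s.loc y).W
      · refine Or.inr ⟨i0, Or.inl rfl, ?_⟩
        simp only [update_self]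
        exact ⟨hxW, fun h2 => hv ⟨h1, h2⟩⟩
      · exact old y hy v h1
    · simp only [update_of_ne hyx] at hv
      exact old y hy v hv
  · intro i hi
    simp only [update_of_ne (hne i hi)]
    exact ⟨trivial, Subset.rfl, le_rfl⟩
  · simp only [update_self, hΨ2]
    exact hb1

theorem GInv.sfreeze (H : GInv t h r F D0 Z s) {i : ℕ} (hi : i ∈ s.S) {b : E}
    (hb : b ∈ Del t h s.D (s.Wq i)) :
    ∃ s', GInv t h r F D0 Z s' ∧ GRel t s s' ∧ b ∈ s'.Φq i := by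
  classical
  obtain ⟨P, N', h1, h2, h3, h4, h5⟩ := (H.req i hi).1.freeze hb
  refine ⟨{s with K := s.K ∪ P, Φq := update s.Φq i (s.Φq i ∪ P), Nq := update s.Nq i N'},
    ⟨H.FD, union_subset H.KD h1, H.DZ, H.Kfin.union h2, H.actfin, H.Sfin,
      fun y hy => ⟨(H.act y hy).1, (H.act y hy).2.1.trans subset_union_left,
        (H.act y hy).2.2.trans subset_union_left⟩, H.ina, H.delZ, H.del, ?_, H.cov⟩,
    ⟨Subset.rfl, subset_union_left, Subset.rfl, fun _ _ => LRel.refl _, Subset.rfl, ?_⟩, ?_⟩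
  · intro j hj
    by_cases hji : j = i
    · subst hji
      simp only [update_self]
      exact ⟨h3, union_subset_union_left _ (H.req j hj).2⟩
    · simp only [update_of_ne hji]
      exact ⟨(H.req j hj).1, (H.req j hj).2.trans subset_union_left⟩
  · intro j _
    by_cases hji : j = i
    · subst hji
      simp only [update_self]
      exact ⟨trivial, subset_union_left, h4⟩
    · simp only [update_of_ne hji]
      exact ⟨trivial, Subset.rfl, le_rfl⟩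
  · simp only [update_self]
    exact h5

/-- A maximal graph with the quasi-flame property relative to `F`. -/
theorem exists_max_ql (hFD : F ⊆ D0)
    (hF : ∀ x, x ≠ r → Lk t h r F {x} {a | a ∈ F ∧ h a = x}) :
    ∃ Z, F ⊆ Z ∧ Z ⊆ D0 ∧ (∀ x, x ≠ r → QL t h F Z (Out r {x}) x) ∧
      ∀ e ∈ D0, e ∉ Z → h e ≠ r → ¬ QL t h F (insert e Z) (Out r {h e}) (h e) := by
  have up : ∀ {Z Z' J : Set E} {x : V}, F ⊆ Z → Z ⊆ Z' →
      LL t h F Z (Out r {x}) {x} ({a | a ∈ F ∧ a ∈ Z ∧ h a = x} ∪ J) →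
      LL t h F Z' (Out r {x}) {x} ({a | a ∈ F ∧ a ∈ Z' ∧ h a = x} ∪ J) :=
    fun h1 h2 h3 => h3.mono h2 (union_subset_union_left _ fun a ha => ⟨ha.1, h1 ha.1, ha.2.2⟩)
  obtain ⟨Z, -, ⟨h1, h2, h3⟩, h4⟩ := zorn_subset_nonempty
    {Z | F ⊆ Z ∧ Z ⊆ D0 ∧ ∀ x, x ≠ r → QL t h F Z (Out r {x}) x} (by
      intro c hc hch ⟨Z0, hZ0⟩
      refine ⟨⋃₀ c, ⟨(hc hZ0).1.trans (subset_sUnion_of_mem hZ0),
        sUnion_subset fun Z hZ => (hc hZ).2.1, fun x hx J hJ hJf hJx => ?_⟩,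
        fun Z hZ => subset_sUnion_of_mem hZ⟩
      obtain ⟨Z, hZ, hJZ⟩ : ∃ Z ∈ c, J ⊆ Z := by
        clear hJx
        induction J, hJf using Set.Finite.induction_on with
        | empty => exact ⟨Z0, hZ0, empty_subset _⟩
        | @insert a J _ _ ih =>
          obtain ⟨Z1, g1, g2⟩ := ih ((subset_insert _ _).trans hJ)
          obtain ⟨Z2, g3, g4⟩ := hJ (mem_insert a J)
          rcases hch.total g1 g3 with g5 | g5
          · exact ⟨Z2, g3, insert_subset g4 (g2.trans g5)⟩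
          · exact ⟨Z1, g1, insert_subset (g5 g4) g2⟩
      exact up (hc hZ).1 (subset_sUnion_of_mem hZ) ((hc hZ).2.2 x hx J hJZ hJf hJx)) F
    ⟨Subset.rfl, hFD, fun x hx J hJ _ hJx => by
      obtain ⟨U, M, g1, g2⟩ := (hF x hx).ll fun a ha => ha.2
      refine ⟨U, M, ⟨g1.ff, g1.sub, g1.tB, g1.hIB, fun y _ =>
        finite_empty.subset fun a ha => (ha.2 (g1.sub ha.1.1)).elim⟩, fun a ha => g2 ?_⟩
      exact ha.elim (fun g3 => ⟨g3.1, g3.2.2⟩) fun g3 => ⟨hJ g3, hJx a g3⟩⟩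
  refine ⟨Z, h1, h2, h3, fun e he heZ her hQ => heZ ?_⟩
  refine h4 (y := insert e Z) ⟨h1.trans (subset_insert _ _), insert_subset he h2,
    fun x hx => ?_⟩ (subset_insert _ _) (mem_insert e Z)
  by_cases hxe : x = h e
  · exact hxe ▸ hQ
  · intro J hJ hJf hJx
    refine up h1 (subset_insert _ _) (h3 x hx J (fun a ha => (hJ ha).resolve_left ?_) hJf hJx)
    rintro rfl
    exact hxe (hJx a ha).symm

theorem lim_rel {f : ℕ → GSt V E} (hrel : ∀ n, GRel t (f n) (f (n + 1))) {m n : ℕ}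
    (hmn : m ≤ n) : GRel t (f m) (f n) := by
  induction n, hmn using Nat.le_induction with
  | base => exact GRel.refl _
  | succ n _ ih => exact ih.trans (hrel n)

theorem lim_K {f : ℕ → GSt V E} (H : ∀ n, GInv t h r F D0 Z (f n))
    (hrel : ∀ n, GRel t (f n) (f (n + 1))) (m : ℕ) : (f m).K ⊆ ⋂ n, (f n).D :=
  subset_iInter fun n => (lim_rel hrel (le_max_left m n)).K.trans
    ((H _).KD.trans (lim_rel hrel (le_max_right m n)).D)

/-- In the limit every requirement is a wave of the reversed graph. -/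
theorem lim_req {f : ℕ → GSt V E} (H : ∀ n, GInv t h r F D0 Z (f n))
    (hrel : ∀ n, GRel t (f n) (f (n + 1)))
    (h2 : ∀ m, ∀ i ∈ (f m).S, ∀ b ∈ Del t h (⋂ n, (f n).D) ((f m).Wq i),
      ∃ n, m ≤ n ∧ b ∈ (f n).Φq i) {m i : ℕ} (hi : i ∈ (f m).S) {x : V} (hx : x ∈ (f m).Wq i) :
    ∃ U M, Wave h t x (⋂ n, (f n).D) {r} (Out r ((f m).Wq i)) U M := by
  have hR : ∀ k, GRel t (f m) (f (m + k)) := fun k => lim_rel hrel (Nat.le_add_right m k)
  have hS : ∀ k, SInv t h r (f (m + k)).D ((f m).Wq i) ((f (m + k)).Φq i) ((f (m + k)).Nq i) :=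
    fun k => ((hR k).q i hi).1 ▸ ((H (m + k)).req i ((hR k).S hi)).1
  have h3 := FF.limit (fun k => (hS k).ff) fun k k' hk =>
    ((lim_rel hrel (Nat.add_le_add_left hk m)).q i ((hR k).S hi)).2.2
  refine ⟨{a | a ∈ ⋃ k, (f (m + k)).Φq i ∧ h a ≠ r}, _, h3.restrict (fun a ha h4 => ⟨ha.1, h4⟩)
    (fun a b hab _ h4 => ⟨h3.memr hab, h3.adj hab ▸ h4.1⟩), fun a ha => ?_, fun h4 => h4.2 hx,
    fun y hy => hy.1, fun a ha => ha.2, fun a ha => ?_, fun a ha h4 h5 h6 => ?_⟩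
  · obtain ⟨k, hk⟩ := mem_iUnion.1 ha.1
    exact lim_K H hrel (m + k) (((H (m + k)).req i ((hR k).S hi)).2 hk)
  · obtain ⟨k, hk⟩ := mem_iUnion.1 ha.1
    by_cases h4 : t a = r
    · exact Or.inr h4
    · exact Or.inl ⟨h4, (hS k).tW a hk⟩
  · obtain ⟨n, h7, h8⟩ := h2 m i hi a ⟨ha, by_contra fun h7 => h5 ⟨h6, h7⟩, h4.2⟩
    obtain ⟨k, rfl⟩ := Nat.exists_eq_add_of_le h7
    exact ⟨mem_iUnion.2 ⟨k, h8⟩, h6⟩

/-- The limit of the recursion. -/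
theorem glimit {f : ℕ → GSt V E} (H : ∀ n, GInv t h r F D0 Z (f n))
    (hrel : ∀ n, GRel t (f n) (f (n + 1))) (hZ : Z ⊆ D0)
    (h0 : ∀ a ∈ D0, ∃ n, h a ∈ (f n).act)
    (h1 : ∀ m, ∀ x ∈ (f m).act, ∀ b ∈ ⋂ n, (f n).D,
      (h b = x ∨ (h b ∈ ((f m).loc x).Y0 ∧ t b ∉ ((f m).loc x).Y0 ∧ t b ≠ x)) →
        ∃ n, m ≤ n ∧ b ∈ ((f n).loc x).Ψ)
    (h2 : ∀ m, ∀ i ∈ (f m).S, ∀ b ∈ Del t h (⋂ n, (f n).D) ((f m).Wq i),
      ∃ n, m ≤ n ∧ b ∈ (f n).Φq i) :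
    (∀ x, x ≠ r → Lk t h r (⋂ n, (f n).D) {x} {a | a ∈ ⋂ n, (f n).D ∧ h a = x}) ∧
      ∀ e ∈ D0, e ∉ ⋂ n, (f n).D → Just t h r (⋂ n, (f n).D) e := by
  have hR : ∀ m k, GRel t (f m) (f (m + k)) := fun m k => lim_rel hrel (Nat.le_add_right m k)
  refine ⟨fun x hxr => ?_, fun e he heL => ?_⟩
  · by_cases hex : ∃ a ∈ ⋂ n, (f n).D, h a = x
    swap
    · exact lk_empty.mono Subset.rfl fun a ha => hex ⟨a, ha.1, ha.2⟩
    obtain ⟨a0, ha0, rfl⟩ := hex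
    obtain ⟨m, hm⟩ := h0 a0 (hZ ((H 0).DZ (mem_iInter.1 ha0 0)))
    generalize h a0 = x at hxr hm
    have hA := fun k => (H (m + k)).act x ((hR m k).act hm)
    obtain ⟨Y, U, M, hw, -, hmax, -⟩ := exists_max_wave h t x (⋂ n, (f n).D) {r} (fun _ => True)
      fun _ _ _ _ => trivial
    have hW : ∀ k v, v ≠ r → v ∉ Y → v ∈ ((f (m + k)).loc x).W := by
      intro k v h3 h4
      by_contra h5
      obtain ⟨i, hi, h6, h7⟩ := ((H (m + k)).cov x ((hR m k).act hm) v h5).resolve_left h3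
      obtain ⟨U', M', h8⟩ := lim_req H hrel h2 hi h6
      exact h4 (hmax _ _ _ h8 (fun _ _ => trivial) ⟨h3, h7⟩)
    have h3 : ∀ k, FF h t (Out r Y \ {x}) {a | a ∈ ((f (m + k)).loc x).Φ ∧ h a ∈ Out r Y}
        (fun a b => ((f (m + k)).loc x).N a b ∧
          a ∈ {a | a ∈ ((f (m + k)).loc x).Φ ∧ h a ∈ Out r Y} ∧ t a ∈ Out r Y \ {x}) := fun k =>
      (hA k).1.1.Φff.restrict (fun a ha h3 => ⟨ha.1, hW k _ h3.1.1 h3.1.2, h3.2⟩)
        fun a b hab _ h3 => ⟨(hA k).1.1.Φff.memr hab, (hA k).1.1.Φff.adj hab ▸ h3.1⟩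
    have h4 := FF.limit h3 fun k k' hk a b hab => by
      have h4 := (lim_rel hrel (Nat.add_le_add_left hk m)).loc x ((hR m k).act hm)
      exact ⟨h4.N a b hab.1 (hW k' _ hab.2.2.1.1 hab.2.2.1.2), ⟨h4.Φ hab.2.1.1, hab.2.1.2⟩,
        hab.2.2⟩
    have h5 : ∀ a ∈ ⋃ k, {a | a ∈ ((f (m + k)).loc x).Φ ∧ h a ∈ Out r Y},
        a ∈ ⋂ n, (f n).D ∧ h a ∈ Out r Y ∧ t a ≠ x := by
      intro a ha
      obtain ⟨k, hk⟩ := mem_iUnion.1 ha
      exact ⟨lim_K H hrel (m + k) ((hA k).2.1 hk.1), hk.2, (hA k).1.1.Φt a hk.1⟩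
    have h6 := hw.ff.compose h4 (disjoint_left.2 fun v h6 h7 => h7.1.2 h6)
      (fun a ha h6 => hw.ent (h5 a ha).1 h6 (h5 a ha).2.1.2 (h5 a ha).2.1.1)
      fun a ha h6 => (hw.hYB ha).elim h6.1.2 h6.1.1
    have e : Y ∪ Out r Y \ {x} = {v | v ≠ r ∧ v ∉ ({x} : Set V)} := by
      ext v
      constructor
      · rintro (h7 | h7)
        · exact ⟨hw.dis h7, fun h8 => hw.rY (mem_singleton_iff.1 h8 ▸ h7)⟩
        · exact ⟨h7.1.1, h7.2⟩
      · intro h7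
        by_cases h8 : v ∈ Y
        · exact Or.inl h8
        · exact Or.inr ⟨⟨h7.1, h8⟩, h7.2⟩
    rw [e] at h6
    refine ⟨_, _, h6, union_subset hw.sub fun a ha => (h5 a ha).1, ?_, ?_⟩
    · rintro a (ha | ha) h7
      · rcases hw.hYB ha with h8 | h8
        · exact hw.rY (mem_singleton_iff.1 h7 ▸ h8)
        · exact hxr ((mem_singleton_iff.1 h7).symm.trans h8)
      · exact (h5 a ha).2.2 h7
    · rintro b ⟨hb, h7⟩
      obtain ⟨n, h8, h9⟩ := h1 m x hm b hb (Or.inl h7)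
      obtain ⟨k, rfl⟩ := Nat.exists_eq_add_of_le h8
      exact Or.inr (mem_iUnion.2 ⟨k, ((hA k).1.1.cpl b (Or.inr h7)).2 h9, h7 ▸ ⟨hxr, hw.rY⟩⟩)
  · obtain ⟨n0, hn0⟩ := h0 e he
    obtain ⟨n1, hn1⟩ : ∃ n, e ∉ (f n).D := by
      by_contra h3
      push Not at h3
      exact heL (mem_iInter.2 h3)
    obtain ⟨m, hm, hm'⟩ : ∃ m, h e ∈ (f m).act ∧ e ∉ (f m).D :=
      ⟨max n0 n1, (lim_rel hrel (le_max_left _ _)).act hn0,
        fun h3 => hn1 ((lim_rel hrel (le_max_right _ _)).D h3)⟩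
    have hA := fun k => (H (m + k)).act (h e) ((hR m k).act hm)
    have hY := fun k => ((hR m k).loc (h e) hm).Y0
    have h3 := FF.limit (Y := ((f m).loc (h e)).Y0) (fun k => hY k ▸ (hA k).1.1.Ψff)
      fun k k' hk => ((lim_rel hrel (Nat.add_le_add_left hk m)).loc (h e) ((hR m k).act hm)).N'
    have hP := ((H m).act (h e) hm).1.1
    refine ⟨_, _, _, ⟨h3, fun a ha => ?_, hP.rY, fun y hy h4 => hP.xY (mem_singleton_iff.1 h4 ▸ hy),
      fun a ha => ?_, fun a ha => ?_, fun a ha h4 h5 h6 => ?_⟩, (H m).del e he hm' hm⟩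
    · obtain ⟨k, hk⟩ := mem_iUnion.1 ha
      exact lim_K H hrel (m + k) ((hA k).2.2 hk)
    · obtain ⟨k, hk⟩ := mem_iUnion.1 ha
      exact (hA k).1.1.Ψt a hk
    · obtain ⟨k, hk⟩ := mem_iUnion.1 ha
      exact hY k ▸ (hA k).1.1.Ψh a hk
    · obtain ⟨n, h7, h8⟩ := h1 m (h e) hm a ha (Or.inr ⟨h4, h5, h6⟩)
      obtain ⟨k, rfl⟩ := Nat.exists_eq_add_of_le h7
      exact mem_iUnion.2 ⟨k, h8⟩

/-- Freezing an edge for finitely many active vertices. -/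
theorem lim_freeze (hZ : Z.Countable) (hloop : ∀ e, t e ≠ h e) (H : GInv t h r F D0 Z s) (b : E)
    {X : Set V} (hX : X.Finite) (hXs : X ⊆ s.act) :
    ∃ s', GInv t h r F D0 Z s' ∧ GRel t s s' ∧ ∀ x ∈ X, b ∈ s'.D →
      (h b = x ∨ (h b ∈ (s.loc x).Y0 ∧ t b ∉ (s.loc x).Y0 ∧ t b ≠ x)) → b ∈ (s'.loc x).Ψ := by
  induction X, hX using Set.Finite.induction_on with
  | empty => exact ⟨s, H, GRel.refl s, fun _ h1 => h1.elim⟩
  | @insert x X _ _ ih =>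
    obtain ⟨s1, h1, h2, h3⟩ := ih fun y hy => hXs (Or.inr hy)
    have hx := hXs (mem_insert x X)
    by_cases h4 : b ∈ s1.D ∧ (h b = x ∨ (h b ∈ (s.loc x).Y0 ∧ t b ∉ (s.loc x).Y0 ∧ t b ≠ x))
    · obtain ⟨s2, h5, h6, h7⟩ := h1.freeze hZ hloop (h2.act hx) h4.1 ((h2.loc x hx).Y0 ▸ h4.2)
      refine ⟨s2, h5, h2.trans h6, ?_⟩
      rintro y (rfl | hy) h8 h9
      · exact h7
      · exact (h6.loc y (h2.act (hXs (Or.inr hy)))).Ψ (h3 y hy (h6.D h8) h9)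
    · refine ⟨s1, h1, h2, ?_⟩
      rintro y (rfl | hy) h8 h9
      · exact (h4 ⟨h8, h9⟩).elim
      · exact h3 y hy h8 h9

/-- Freezing an edge for finitely many requirements. -/
theorem lim_sfreeze (H : GInv t h r F D0 Z s) (b : E) {X : Set ℕ} (hX : X.Finite)
    (hXs : X ⊆ s.S) :
    ∃ s', GInv t h r F D0 Z s' ∧ GRel t s s' ∧
      ∀ i ∈ X, b ∈ Del t h s'.D (s.Wq i) → b ∈ s'.Φq i := by
  induction X, hX using Set.Finite.induction_on with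
  | empty => exact ⟨s, H, GRel.refl s, fun _ h1 => h1.elim⟩
  | @insert i X _ _ ih =>
    obtain ⟨s1, h1, h2, h3⟩ := ih fun y hy => hXs (Or.inr hy)
    have hi := hXs (mem_insert i X)
    by_cases h4 : b ∈ Del t h s1.D (s.Wq i)
    · obtain ⟨s2, h5, h6, h7⟩ := h1.sfreeze (h2.S hi) ((h2.q i hi).1 ▸ h4)
      refine ⟨s2, h5, h2.trans h6, ?_⟩
      rintro j (rfl | hj) h8
      · exact h7
      · exact (h6.q j (h2.S (hXs (Or.inr hj)))).2.1 (h3 j hj ⟨h6.D h8.1, h8.2⟩)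
    · refine ⟨s1, h1, h2, ?_⟩
      rintro j (rfl | hj) h8
      · exact (h4 h8).elim
      · exact h3 j hj h8

/-- The countable case. -/
theorem gcore (hD : D0.Countable) (hr : ∀ e, h e ≠ r) (hloop : ∀ e, t e ≠ h e) (hFD : F ⊆ D0)
    (hF : ∀ x, x ≠ r → Lk t h r F {x} {a | a ∈ F ∧ h a = x}) :
    ∃ L, F ⊆ L ∧ L ⊆ D0 ∧ (∀ x, x ≠ r → Lk t h r L {x} {a | a ∈ L ∧ h a = x}) ∧
      ∀ e ∈ D0, e ∉ L → Just t h r L e := by
  obtain ⟨Z, hFZ, hZD, hQ, hmax⟩ := exists_max_ql hFD hF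
  have hZ : Z.Countable := hD.mono hZD
  obtain ⟨g, hg⟩ := countable_iff_exists_injOn.1 hD
  obtain ⟨f, -, hf⟩ := exists_seq (GInv t h r F D0 Z)
    (fun n s s' => GRel t s s' ∧ ∀ b ∈ D0, g b = n.unpair.1 → h b ∈ s'.act ∧
      (∀ x ∈ s.act, b ∈ s'.D →
        (h b = x ∨ (h b ∈ (s.loc x).Y0 ∧ t b ∉ (s.loc x).Y0 ∧ t b ≠ x)) → b ∈ (s'.loc x).Ψ) ∧
      ∀ i ∈ s.S, b ∈ Del t h s'.D (s.Wq i) → b ∈ s'.Φq i)
    ⟨Z, ∅, ∅, fun _ => ⟨∅, ∅, ∅, ∅, fun _ _ => False, ∅, fun _ _ => False⟩, ∅, fun _ => ∅,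
      fun _ => ∅, fun _ _ _ => False⟩
    ⟨hFZ, empty_subset _, Subset.rfl, finite_empty, finite_empty, finite_empty,
      fun _ h1 => h1.elim, fun w _ hw => hQ w hw, fun _ h1 h2 => (h2 h1).elim,
      fun _ _ _ h1 => h1.elim, fun _ h1 => h1.elim, fun _ h1 => h1.elim⟩ (by
      intro n s hs
      by_cases hex : ∃ b ∈ D0, g b = n.unpair.1
      swap
      · exact ⟨s, hs, GRel.refl s, fun b h1 h2 => (hex ⟨b, h1, h2⟩).elim⟩
      obtain ⟨b, h1, h2⟩ := hex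
      obtain ⟨s1, h3, h4, h5⟩ := lim_freeze hZ hloop hs b hs.actfin Subset.rfl
      obtain ⟨s2, h6, h7, h8⟩ := lim_sfreeze h3 b hs.Sfin h4.S
      obtain ⟨s3, h9, h10, h11⟩ := h6.activate hZ hloop hQ (fun e h9 h10 => hmax e h9 h10 (hr e))
        (hr b)
      refine ⟨s3, h9, (h4.trans h7).trans h10, fun b' h12 h13 => ?_⟩
      obtain rfl := hg h12 h1 (h13.trans h2.symm)
      exact ⟨h11, fun x hx h14 h15 => ((h7.trans h10).loc x (h4.act hx)).Ψ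
        (h5 x hx ((h7.trans h10).D h14) h15), fun i hi h14 => (h10.q i (h7.S (h4.S hi))).2.1
        (h8 i hi ⟨h10.D h14.1, (h4.q i hi).1 ▸ h14.2⟩)⟩)
  have hrel : ∀ n, GRel t (f n) (f (n + 1)) := fun n => (hf n).2.1
  have hLD : (⋂ n, (f n).D) ⊆ D0 := (iInter_subset _ 0).trans ((hf 0).1.DZ.trans hZD)
  have key := fun b hb m => (hf (Nat.pair (g b) m)).2.2 b hb (by rw [Nat.unpair_pair])
  refine ⟨⋂ n, (f n).D, subset_iInter fun n => (hf n).1.FD, hLD,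
    glimit (fun n => (hf n).1) hrel hZD (fun a ha => ⟨_, (key a ha 0).1⟩) ?_ ?_⟩
  · intro m x hx b hb h1
    have h2 := lim_rel hrel (Nat.right_le_pair (g b) m)
    exact ⟨_, (Nat.right_le_pair (g b) m).trans (Nat.le_succ _), (key b (hLD hb) m).2.1 x
      (h2.act hx) (mem_iInter.1 hb _) ((h2.loc x hx).Y0 ▸ h1)⟩
  · intro m i hi b hb
    have h2 := lim_rel hrel (Nat.right_le_pair (g b) m)
    exact ⟨_, (Nat.right_le_pair (g b) m).trans (Nat.le_succ _), (key b (hLD hb.1) m).2.2 i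
      (h2.S hi) ⟨mem_iInter.1 hb.1 _, (h2.q i hi).1 ▸ hb.2⟩⟩

end Pool.Agent.P.MP_133cc4_co
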