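import Pool.Agent.P.MP_133cc4_co.Final

/-! Backward path systems that are locally finite modulo a fixed edge set `F`. -/

namespace Pool.Agent.P.MP_133cc4_co

open Set Function Relation

variable {V E : Type*}

/-- Finite modulo `F`. -/
def Sm (F s : Set E) : Prop := (s \ F).Finite

/-- The vertices other than the root and the sinks. -/
abbrev Out (r : V) (B : Set V) : Set V := {v | v ≠ r ∧ v ∉ B}

/-- The edges of `G` entering `B`. -/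
def Del (t h : E → V) (G : Set E) (B : Set V) : Set E := {a | a ∈ G ∧ h a ∈ B ∧ t a ∉ B}

/-- A backward system with interior `I` and sinks `B`: every edge is traced back, through
vertices of `I`, to an edge starting outside `I ∪ B`. `M a b` says that `b` precedes `a`. -/
structure BS (t h : E → V) (F G : Set E) (I B : Set V) (U : Set E) (M : E → E → Prop) : Prop where
  ff : FF h t I U M
  sub : U ⊆ G
  tB : ∀ ⦃a⦄, a ∈ U → t a ∉ B
  hIB : ∀ ⦃a⦄, a ∈ U → h a ∈ I ∨ h a ∈ B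
  lf : LS (Sm F) h I U

/-- `T` is covered by a backward system. -/
def LL (t h : E → V) (F G : Set E) (I B : Set V) (T : Set E) : Prop :=
  ∃ U M, BS t h F G I B U M ∧ T ⊆ U

/-- All edges entering `X` are in `U`, and `U` leaves `X` only by edges of `T`. -/
def STight (t h : E → V) (G : Set E) (B : Set V) (U T : Set E) (X : Set V) : Prop :=
  (∀ a ∈ G, h a ∈ X → t a ∉ X → t a ∉ B → a ∈ U) ∧ ∀ a ∈ U, t a ∈ X → h a ∈ X ∨ a ∈ T

/-- The edges of `F` into `x` together with finitely many further edges into `x` are covered. -/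
def QL (t h : E → V) (F G : Set E) (I : Set V) (x : V) : Prop :=
  ∀ J ⊆ G, J.Finite → (∀ a ∈ J, h a = x) →
    LL t h F G I {x} ({a | a ∈ F ∧ a ∈ G ∧ h a = x} ∪ J)

/-- All edges entering `W` are reached from the root outside `W`. -/
def Sup (t h : E → V) (r : V) (G : Set E) (W : Set V) : Prop :=
  LL t h univ G (Out r W) W (Del t h G W)

variable {t h : E → V} {r : V} {F G : Set E} {I B : Set V} {U T : Set E} {M : E → E → Prop}

theorem Sm.mono (s s' : Set E) (h1 : s ⊆ s') (h2 : Sm F s') : Sm F s :=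
  Set.Finite.subset h2 (sdiff_subset_sdiff_left h1)

theorem Sm.of_finite (s : Set E) (h1 : s.Finite) : Sm F s := h1.subset sdiff_subset

theorem Sm.union {s s' : Set E} (h1 : Sm F s) (h2 : Sm F s') : Sm F (s ∪ s') := by
  unfold Sm
  rw [union_sdiff_distrib]
  exact Set.Finite.union h1 h2

theorem ls_univ (h : E → V) (I : Set V) (U : Set E) : LS (Sm univ) h I U := fun _ _ => by
  simp [Sm]

theorem LS.sm_sub (H : LS (Sm F) h I U) {I' : Set V} {U' : Set E} (hI : I' ⊆ I) (hU : U' ⊆ U) :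
    LS (Sm F) h I' U' :=
  H.mono Sm.mono hI hU

theorem LS.sm_union {U' : Set E} (H : LS (Sm F) h I U) (H' : LS (Sm F) h I U') :
    LS (Sm F) h I (U ∪ U') := fun y hy =>
  Sm.mono _ _ (fun _ ha => ha.1.imp (fun h1 => ⟨h1, ha.2⟩) fun h1 => ⟨h1, ha.2⟩)
    ((H y hy).union (H' y hy))

theorem LS.sm_fin (H : LS (Sm F) h I U) {U' : Set E} (hU : (U' \ U).Finite) :
    LS (Sm F) h I U' := fun y hy =>
  Sm.mono _ _ (fun a ha => (em (a ∈ U)).imp (fun h1 => ⟨h1, ha.2⟩) fun h1 => ⟨ha.1, h1⟩)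
    ((H y hy).union (Sm.of_finite _ hU))

theorem BS.mono (H : BS t h F G I B U M) {G' : Set E} (hG : U ⊆ G') : BS t h F G' I B U M :=
  ⟨H.ff, hG, H.tB, H.hIB, H.lf⟩

theorem LL.mono (H : LL t h F G I B T) {G' T' : Set E} (hG : G ⊆ G') (hT : T' ⊆ T) :
    LL t h F G' I B T' := by
  obtain ⟨U, M, h1, h2⟩ := H
  exact ⟨U, M, h1.mono (h1.sub.trans hG), hT.trans h2⟩

theorem LL.toUniv (H : LL t h F G I B T) : LL t h univ G I B T := by
  obtain ⟨U, M, h1, h2⟩ := H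
  exact ⟨U, M, ⟨h1.ff, h1.sub, h1.tB, h1.hIB, ls_univ _ _ _⟩, h2⟩

theorem LL.sub (H : LL t h F G I B T) : T ⊆ G := by
  obtain ⟨U, M, h1, h2⟩ := H
  exact h2.trans h1.sub

theorem LL.tail (H : LL t h F G I B T) : ∀ a ∈ T, t a ∉ B := by
  obtain ⟨U, M, h1, h2⟩ := H
  exact fun a ha => h1.tB (h2 ha)

theorem ll_empty : LL t h F G I B ∅ :=
  ⟨∅, _, ⟨(link_empty _ _ _).toFF, empty_subset _, fun _ h1 => h1.elim, fun _ h1 => h1.elim,
    fun _ _ => Sm.of_finite _ (finite_empty.subset fun _ ha => ha.1)⟩, Subset.rfl⟩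

/-- Last segments. -/
theorem BS.shrink (H : BS t h F G I B U M) {I' B' : Set V} (hI : I' ⊆ I) (hB : B' ⊆ B) :
    BS t h F G I' B' {a | a ∈ U ∧ (h a ∈ I' ∨ h a ∈ B')}
      (fun a b => M a b ∧ a ∈ {a | a ∈ U ∧ (h a ∈ I' ∨ h a ∈ B')} ∧ t a ∈ I') :=
  ⟨H.ff.restrict (fun _ ha h1 => ⟨ha.1, hI h1⟩)
      fun _ _ hab _ h1 => ⟨H.ff.memr hab, Or.inl (H.ff.adj hab ▸ h1)⟩,
    fun _ ha => H.sub ha.1, fun _ ha h1 => H.tB ha.1 (hB h1), fun _ ha => ha.2,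
    H.lf.sm_sub hI fun _ ha => ha.1⟩

theorem LL.shrink (H : LL t h F G I B T) {I' B' : Set V} (hI : I' ⊆ I) (hB : B' ⊆ B)
    {T' : Set E} (hT : ∀ a ∈ T', a ∈ T ∧ h a ∈ B') : LL t h F G I' B' T' := by
  obtain ⟨U, M, h1, h2⟩ := H
  exact ⟨_, _, h1.shrink hI hB, fun a ha => ⟨h2 (hT a ha).1, Or.inr (hT a ha).2⟩⟩

/-- Edges from outside directly into the sinks can always be added. -/
theorem LL.add (H : LL t h F G I B T) (hd : Disjoint I B) {S : Set E}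
    (hS : ∀ a ∈ S, a ∈ G ∧ h a ∈ B ∧ t a ∉ I ∧ t a ∉ B) : LL t h F G I B (T ∪ S) := by
  obtain ⟨U, M, h1, h2⟩ := H
  refine ⟨U ∪ S, M, ⟨h1.ff.add_exits fun a ha => (hS a ha).2.2.1,
    union_subset h1.sub fun a ha => (hS a ha).1,
    fun a ha => ha.elim (fun h3 => h1.tB h3) fun h3 => (hS a h3).2.2.2,
    fun a ha => ha.elim (fun h3 => h1.hIB h3) fun h3 => Or.inr (hS a h3).2.1, ?_⟩,
    union_subset_union_left _ h2⟩
  intro y hy
  refine Sm.mono _ _ ?_ (h1.lf y hy)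
  rintro a ⟨h3 | h3, rfl⟩
  · exact ⟨h3, rfl⟩
  · exact (disjoint_left.1 hd hy (hS a h3).2.1).elim

theorem FF.normalize' {Y : Set V} (H : FF t h Y U M) {S : Set E} (hS : S ⊆ U)
    (hSY : ∀ a ∈ S, t a ∉ Y) :
    ∃ U' M', Link t h Y U' M' ∧ S ⊆ U' ∧ U' ⊆ U ∧ M' ≤ M ∧ ∀ a ∈ U', t a ∉ Y → a ∈ S := by
  let U' : Set E := {b | ∃ a ∈ S, ReflTransGen M a b}
  have hU' : U' ⊆ U := fun b ⟨a, ha, hab⟩ => H.toMat.rtg_mem hab (hS ha)
  have hcl : ∀ a b, M a b → a ∈ U' → b ∈ U' := fun a b hab ⟨c, hc, hca⟩ => ⟨c, hc, hca.tail hab⟩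
  refine ⟨U', fun a b => M a b ∧ a ∈ U', ?_, fun a ha => ⟨a, ha, ReflTransGen.refl⟩, hU',
    fun _ _ h1 => h1.1, ?_⟩
  · refine ⟨⟨H.toMat.mono_rel (fun _ _ h1 => h1.1) (fun _ _ h1 => h1.2)
      (fun _ _ h1 => hcl _ _ h1.1 h1.2) (fun _ _ h1 => H.int h1.1), ?_,
      Subrelation.wf (fun h1 => h1.1) H.wf⟩, ?_, ?_⟩
    · intro a ha hY
      obtain ⟨b, hb⟩ := H.tot (hU' ha) hY
      exact ⟨b, hb, ha⟩
    · rintro b ⟨a, ha, hab⟩ hY
      rcases hab.cases_tail with h1 | ⟨c, hc, hcb⟩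
      · exact (hSY a ha (h1 ▸ hY)).elim
      · exact ⟨c, hcb, a, ha, hc⟩
    · have key : ∀ a ∈ S, ∀ b, ReflTransGen M a b → Acc (fun a b => M a b ∧ a ∈ U') b := by
        intro a ha b hab
        induction hab with
        | refl => exact ⟨a, fun c hc => (hSY a ha (H.toMat.int' hc.1)).elim⟩
        | tail _ hbc ih => exact ⟨_, fun d hd => H.inj hbc hd.1 ▸ ih⟩
      refine ⟨fun b => ⟨b, fun a hab => ?_⟩⟩
      obtain ⟨c, hc, hca⟩ := hab.2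
      exact key c hc a hca
  · rintro b ⟨a, ha, hab⟩ hY
    exact H.toMat.eq_of_source hab hY ▸ ha

/-- Keep only the paths ending in `T`. -/
theorem BS.norm (H : BS t h F G I B U M) (hd : Disjoint I B) (hT : T ⊆ U)
    (hTB : ∀ a ∈ T, h a ∈ B) :
    ∃ U' M', BS t h F G I B U' M' ∧ Link h t I U' M' ∧ T ⊆ U' ∧ U' ⊆ U ∧ M' ≤ M ∧
      ∀ a ∈ U', h a ∉ I → a ∈ T := by
  obtain ⟨U', M', h1, h2, h3, h4, h5⟩ := H.ff.normalize' hT
    fun a ha h1 => disjoint_left.1 hd h1 (hTB a ha)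
  exact ⟨U', M', ⟨h1.toFF, h3.trans H.sub, fun a ha => H.tB (h3 ha), fun a ha => H.hIB (h3 ha),
    H.lf.sm_sub Subset.rfl h3⟩, h1, h2, h3, h4, h5⟩

theorem LL.link (H : LL t h F G I B T) (hd : Disjoint I B) (hTB : ∀ a ∈ T, h a ∈ B) :
    ∃ U M, BS t h F G I B U M ∧ Link h t I U M ∧ T ⊆ U ∧ ∀ a ∈ U, h a ∉ I → a ∈ T := by
  obtain ⟨U, M, h1, h2⟩ := H
  obtain ⟨U', M', h3, h4, h5, -, -, h6⟩ := h1.norm hd h2 hTB
  exact ⟨U', M', h3, h4, h5, h6⟩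

/-- Removing a union of paths. -/
theorem BS.sdiff (H : BS t h F G I B U M) (HL : Link h t I U M) {C : Set E}
    (hcl : ∀ a b, M a b → (a ∈ C ↔ b ∈ C)) :
    BS t h F G I B (U \ C) (fun a b => M a b ∧ a ∈ U \ C) ∧
      Link h t I (U \ C) (fun a b => M a b ∧ a ∈ U \ C) := by
  have h1 := HL.sub (C := U \ C) sdiff_subset fun a b hab => by
    simp only [mem_sdiff, HL.meml hab, HL.memr hab, true_and, hcl a b hab]
  exact ⟨⟨h1.toFF, fun a ha => H.sub ha.1, fun a ha => H.tB ha.1, fun a ha => H.hIB ha.1,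
    H.lf.sm_sub Subset.rfl sdiff_subset⟩, h1⟩

/-- Deleting edges that end outside the interior and are not wanted. -/
theorem LL.drop (H : LL t h F G I B T) (hd : Disjoint I B) (hTB : ∀ a ∈ T, h a ∈ B) {A : Set E}
    (hA : ∀ a ∈ A, h a ∉ I ∧ a ∉ T) : LL t h F (G \ A) I B T := by
  obtain ⟨U, M, h1, -, h2, h3⟩ := H.link hd hTB
  exact ⟨U, M, h1.mono fun a ha => ⟨h1.sub ha, fun h4 => (hA a h4).2 (h3 a ha (hA a h4).1)⟩, h2⟩

/-- Outside a tight set use the first system, inside use the second. -/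
theorem BS.splice {U2 : Set E} {M2 : E → E → Prop} {X : Set V} (H : BS t h F G I B U M)
    (hd : Disjoint I B) (hX : X ⊆ I)
    (hent : ∀ a ∈ G, h a ∈ X → t a ∉ X → t a ∉ B → a ∈ U)
    (hlv : ∀ a ∈ U, t a ∈ X → h a ∈ X ∨ h a ∈ B) (H2 : BS t h F G X B U2 M2) :
    ∃ M', BS t h F G I B ({a | a ∈ U ∧ t a ∉ X} ∪ {a | a ∈ U2 ∧ t a ∈ X}) M' := by
  have H0 := H.ff.restrict (Y' := I \ X) (C := {a | a ∈ U ∧ t a ∉ X})
    (fun a ha h1 => ⟨ha.1, h1.1⟩) (fun a b hab _ h1 => ⟨H.ff.memr hab, fun h2 =>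
      (hlv b (H.ff.memr hab) h2).elim (fun h3 => h1.2 (H.ff.adj hab ▸ h3))
        fun h3 => disjoint_left.1 hd h1.1 (H.ff.adj hab ▸ h3)⟩)
  have H1 := H2.ff.restrict (Y' := X) (C := {a | a ∈ U2 ∧ (h a ∈ X ∨ t a ∈ X)})
    (fun a ha h1 => ⟨ha.1, h1⟩)
    (fun a b hab _ h1 => ⟨H2.ff.memr hab, Or.inl (H2.ff.adj hab ▸ h1)⟩)
  have k : ∀ a ∈ {a | a ∈ U2 ∧ (h a ∈ X ∨ t a ∈ X)}, t a ∉ X → a ∈ {a | a ∈ U ∧ t a ∉ X} :=
    fun a ha h1 => ⟨hent a (H2.sub ha.1) (ha.2.resolve_right h1) h1 (H2.tB ha.1), h1⟩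
  have H3 := H0.compose H1 disjoint_sdiff_left (fun a ha h1 => k a ha h1.2) fun a ha => ha.2
  rw [sdiff_union_of_subset hX] at H3
  have e : {a | a ∈ U ∧ t a ∉ X} ∪ {a | a ∈ U2 ∧ (h a ∈ X ∨ t a ∈ X)} =
      {a | a ∈ U ∧ t a ∉ X} ∪ {a | a ∈ U2 ∧ t a ∈ X} := by
    refine Subset.antisymm (union_subset subset_union_left fun a ha => ?_)
      (union_subset_union_right _ fun a ha => ⟨ha.1, Or.inr ha.2⟩)
    by_cases h1 : t a ∈ X
    · exact Or.inr ⟨ha.1, h1⟩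
    · exact Or.inl (k a ha h1)
  rw [e] at H3
  refine ⟨_, H3, union_subset (fun a ha => H.sub ha.1) fun a ha => H2.sub ha.1,
    fun a ha => ha.elim (fun h1 => H.tB h1.1) fun h1 => H2.tB h1.1,
    fun a ha => ha.elim (fun h1 => H.hIB h1.1) fun h1 => (H2.hIB h1.1).imp_left fun h2 => hX h2,
    fun y hy => ?_⟩
  by_cases h1 : y ∈ X
  · refine Sm.mono _ _ ?_ ((H.lf y hy).union (H2.lf y h1))
    exact fun a ha => ha.1.imp (fun h2 => ⟨h2.1, ha.2⟩) fun h2 => ⟨h2.1, ha.2⟩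
  · refine Sm.mono _ _ ?_ (H.lf y hy)
    rintro a ⟨h2 | h2, rfl⟩
    · exact ⟨h2.1, rfl⟩
    · exact ((H2.hIB h2.1).elim h1 (disjoint_left.1 hd hy)).elim

theorem BS.splice_ll {X : Set V} (H : BS t h F G I B U M) (hd : Disjoint I B) (hX : X ⊆ I)
    (hT : T ⊆ U) {T0 : Set E} (hT0 : ∀ a ∈ T0, h a ∈ B)
    (ht : STight t h G B U T0 X) {T2 : Set E} (H2 : LL t h F G X B T2) {T' : Set E}
    (hT' : ∀ a ∈ T', (t a ∈ X → a ∈ T2) ∧ (t a ∉ X → a ∈ T)) : LL t h F G I B T' := by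
  obtain ⟨U2, M2, h1, h2⟩ := H2
  obtain ⟨M', h3⟩ := H.splice hd hX ht.1 (fun a ha h3 => (ht.2 a ha h3).imp_right (hT0 a)) h1
  refine ⟨_, M', h3, fun a ha => ?_⟩
  by_cases h4 : t a ∈ X
  · exact Or.inr ⟨h2 ((hT' a ha).1 h4), h4⟩
  · exact Or.inl ⟨hT ((hT' a ha).2 h4), h4⟩

/-- Prolonging a system backwards by a second one. -/
theorem LL.comp {I2 B2 : Set V} {T2 : Set E} (H : LL t h univ G I B T)
    (H2 : LL t h univ G I2 B2 T2) (hd : Disjoint I2 I) (hI : I ⊆ B2) (hB : B ⊆ B2)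
    (hT2 : ∀ a ∈ G, (h a ∈ I ∨ h a ∈ B) → t a ∈ I2 → a ∈ T2) :
    LL t h univ G (I2 ∪ I) B T := by
  obtain ⟨U, M, h1, h2⟩ := H
  obtain ⟨U2, M2, h3, h4⟩ := H2
  have h5 := h3.shrink (I' := I2) (B' := I ∪ B) Subset.rfl (union_subset hI hB)
  refine ⟨_, _, ⟨h5.ff.compose h1.ff hd (fun a ha h6 => ⟨h4 (hT2 a (h1.sub ha) (h1.hIB ha) h6),
    Or.inr (h1.hIB ha)⟩) fun a ha h6 => h3.tB ha.1 (hI h6), union_subset h5.sub h1.sub,
    fun a ha => ha.elim (fun h6 h7 => h3.tB h6.1 (hB h7)) fun h6 => h1.tB h6, ?_, ls_univ _ _ _⟩,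
    h2.trans subset_union_right⟩
  rintro a (ha | ha)
  · rcases ha.2 with h6 | h6 | h6
    · exact Or.inl (Or.inl h6)
    · exact Or.inl (Or.inr h6)
    · exact Or.inr h6
  · exact (h1.hIB ha).imp_left Or.inr

theorem out_disjoint (r : V) (B : Set V) : Disjoint (Out r B) B :=
  disjoint_left.2 fun _ h1 => h1.2

theorem LL.lk (H : LL t h F G (Out r B) B T) : Lk t h r G B T := by
  obtain ⟨U, M, h1, h2⟩ := H
  exact ⟨U, M, h1.ff, h1.sub, fun a ha => h1.tB ha, h2⟩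

theorem Lk.ll (H : Lk t h r G B T) (hT : ∀ a ∈ T, h a ∈ B) : LL t h univ G (Out r B) B T := by
  obtain ⟨U, M, h1, h2, h3, h4⟩ := H
  refine ⟨{a | a ∈ U ∧ (h a ∈ Out r B ∨ h a ∈ B)}, _, ⟨h1.restrict (fun _ ha h5 => ⟨ha.1, h5⟩)
    fun _ _ hab _ h5 => ⟨h1.memr hab, Or.inl (h1.adj hab ▸ h5)⟩, fun a ha => h2 ha.1,
    fun a ha => h3 a ha.1, fun a ha => ha.2, ls_univ _ _ _⟩, fun a ha => ⟨h4 ha, Or.inr (hT a ha)⟩⟩

theorem QL.shrink {x : V} (H : QL t h F G I x) {I' : Set V} (hI : I' ⊆ I) : QL t h F G I' x :=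
  fun J h1 h2 h3 => (H J h1 h2 h3).shrink hI Subset.rfl
    fun a ha => ⟨ha, ha.elim (fun h4 => h4.2.2) (h3 a)⟩

theorem sup_out : Sup t h r G {v | v ≠ r} := by
  refine (ll_empty.add (out_disjoint r _) (S := Del t h G {v | v ≠ r})
    fun a ha => ⟨ha.1, ha.2.1, fun h1 => ha.2.2 h1.1, ha.2.2⟩).mono Subset.rfl subset_union_right

theorem Sup.inter {W W' : Set V} (H : Sup t h r G W) (H' : Sup t h r G W') (hr : r ∉ W) :
    Sup t h r G (W ∩ W') := by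
  have h1 : LL t h univ G (W \ W') (W ∩ W') (Del t h G (W ∩ W')) := by
    refine ((LL.shrink H' (I' := W \ W') (B' := W ∩ W')
      (fun v hv => ⟨fun h1 => hr (h1 ▸ hv.1), hv.2⟩) inter_subset_right
      (T' := {a | a ∈ Del t h G (W ∩ W') ∧ t a ∈ W}) fun a ha =>
        ⟨⟨ha.1.1, ha.1.2.1.2, fun h1 => ha.1.2.2 ⟨ha.2, h1⟩⟩, ha.1.2.1⟩).add
      (disjoint_left.2 fun v h1 h2 => h1.2 h2.2)
      (S := {a | a ∈ Del t h G (W ∩ W') ∧ t a ∉ W}) fun a ha =>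
        ⟨ha.1.1, ha.1.2.1, fun h1 => ha.2 h1.1, ha.1.2.2⟩).mono Subset.rfl fun a ha => ?_
    by_cases h1 : t a ∈ W
    · exact Or.inl ⟨ha, h1⟩
    · exact Or.inr ⟨ha, h1⟩
  have h2 := h1.comp (I2 := Out r W) (B2 := W) (T2 := Del t h G W) H
    (disjoint_left.2 fun v h2 h3 => h2.2 h3.1) sdiff_subset inter_subset_left
    fun a ha h2 h3 => ⟨ha, h2.elim (fun h4 => h4.1) fun h4 => h4.1, h3.2⟩
  refine h2.shrink (fun v hv => ?_) Subset.rfl fun a ha => ⟨ha, ha.2.1⟩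
  by_cases h3 : v ∈ W
  · exact Or.inr ⟨h3, fun h4 => hv.2 ⟨h3, h4⟩⟩
  · exact Or.inl ⟨hv.1, h3⟩

theorem Sup.delete {W : Set V} (H : Sup t h r G W) {A : Set E} (hA : ∀ a ∈ A, h a ∈ W) :
    Sup t h r (G \ A) W :=
  (LL.mono H Subset.rfl (T' := Del t h (G \ A) W) fun _ ha => ⟨ha.1.1, ha.2⟩).drop
    (out_disjoint r W) (fun _ ha => ha.2.1) fun a ha => ⟨fun h1 => h1.2 (hA a ha), fun h1 => h1.1.2 ha⟩

end Pool.Agent.P.MP_133cc4_co
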