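import Pool.Agent.P.MP_133cc4_co.GLink

/-! Pym's theorem for edge-disjoint path systems. -/

namespace Pool.Agent.P.MP_133cc4_co

open Set Function Relation

variable {V E : Type*} {t h : E → V} {r : V} {F G : Set E} {I B : Set V} {U T : Set E}
  {M : E → E → Prop}

theorem pym_kernel {α : Type*} (C : Set α) {R1 R2 : α → α → Prop} (w1 : WellFounded R1)
    (w2 : WellFounded R2) :
    ∃ K ⊆ C, (∀ k ∈ K, ∀ k' ∈ K, ¬ TransGen R1 k k') ∧ (∀ k ∈ K, ∀ k' ∈ K, ¬ TransGen R2 k k') ∧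
      ∀ c ∈ C, c ∈ K ∨ (∃ k ∈ K, TransGen R1 k c) ∨ ∃ k ∈ K, TransGen R2 k c := by
  let D : (α → α → Prop) → Set α → Set α := fun R X => {c | ∃ k ∈ X, TransGen R k c}
  have hD : ∀ R X X', X ⊆ X' → D R X ⊆ D R X' := fun R X X' hX c ⟨k, hk, hkc⟩ => ⟨k, hX hk, hkc⟩
  let f : Set α →o Set α := ⟨fun A => C \ D R2 (C \ D R1 A), fun A A' hA =>
    sdiff_subset_sdiff_right (hD _ _ _ (sdiff_subset_sdiff_right (hD _ _ _ hA)))⟩
  obtain ⟨A, hA⟩ : ∃ A, C \ D R2 (C \ D R1 A) = A := ⟨f.lfp, f.map_lfp⟩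
  obtain ⟨B', hB⟩ : ∃ B', C \ D R1 A = B' := ⟨_, rfl⟩
  rw [hB] at hA
  have key : ∀ (R : α → α → Prop), WellFounded R → ∀ X X' : Set α, X ⊆ C → C \ D R X = X' →
      ∀ c ∈ D R X, ∃ k, (k ∈ X ∧ k ∈ X') ∧ TransGen R k c := by
    intro R w X X' hX e c hc
    obtain ⟨k, ⟨hk, hkc⟩, hmin⟩ := w.transGen.has_min {k | k ∈ X ∧ TransGen R k c} hc
    refine ⟨k, ⟨hk, ?_⟩, hkc⟩
    rw [← e]
    exact ⟨hX hk, fun ⟨j, hj, hjk⟩ => hmin j ⟨hj, hjk.trans hkc⟩ hjk⟩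
  have hAC : A ⊆ C := hA ▸ sdiff_subset
  have hBC : B' ⊆ C := hB ▸ sdiff_subset
  refine ⟨A ∩ B', inter_subset_left.trans hAC, ?_, ?_, ?_⟩
  · intro k hk k' hk' hkk
    have h1 : k' ∈ C \ D R1 A := hB ▸ hk'.2
    exact h1.2 ⟨k, hk.1, hkk⟩
  · intro k hk k' hk' hkk
    have h1 : k' ∈ C \ D R2 B' := hA ▸ hk'.1
    exact h1.2 ⟨k, hk.2, hkk⟩
  · intro c hc
    by_cases h1 : c ∈ D R1 A
    · obtain ⟨k, hk, hkc⟩ := key R1 w1 A B' hAC hB c h1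
      exact Or.inr (Or.inl ⟨k, hk, hkc⟩)
    by_cases h2 : c ∈ D R2 B'
    · obtain ⟨k, hk, hkc⟩ := key R2 w2 B' A hBC hA c h2
      exact Or.inr (Or.inr ⟨k, hk.symm, hkc⟩)
    · exact Or.inl ⟨hA ▸ ⟨hc, h2⟩, hB ▸ ⟨hc, h1⟩⟩

theorem pym_link {Y : Set V} {U1 U2 : Set E} {M1 N : E → E → Prop} (H1 : Link t h Y U1 M1)
    (H2 : Link t h Y U2 N) (hs : ∀ a ∈ U2, t a ∉ Y → a ∈ U1) :
    ∃ U M, Link t h Y U M ∧ U ⊆ U1 ∪ U2 ∧ (∀ a ∈ U1, t a ∉ Y → a ∈ U) ∧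
      ∀ a ∈ U2, h a ∉ Y → a ∈ U := by
  obtain ⟨K, hK, a1, a2, hc⟩ := pym_kernel (U1 ∩ U2) H1.wf' H2.wf
  have a2' : ∀ k ∈ K, ∀ k' ∈ K, ¬ TransGen N k k' := fun k hk k' hk' h1 =>
    a2 k' hk' k hk (transGen_swap.2 h1)
  let P1 : Set E := {a | a ∈ U1 ∧ ¬ ∃ k ∈ K, TransGen M1 k a}
  let P2 : Set E := {a | a ∈ U2 ∧ ∃ k ∈ K, ReflTransGen N k a}
  have k1 : ∀ k ∈ K, k ∈ P1 := fun k hk => ⟨(hK hk).1, fun ⟨j, hj, hjk⟩ => a1 j hj k hk hjk⟩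
  have k2 : ∀ k ∈ K, k ∈ P2 := fun k hk => ⟨(hK hk).2, k, hk, ReflTransGen.refl⟩
  have k3 : ∀ a ∈ P1, a ∈ P2 → a ∈ K := by
    rintro a ha ⟨ha2, k, hk, hka⟩
    rcases hc a ⟨ha.1, ha2⟩ with h1 | h1 | ⟨j, hj, hja⟩
    · exact h1
    · exact (ha.2 h1).elim
    · exact (a2' k hk j hj (TransGen.trans_right hka (transGen_swap.1 hja))).elim
  have s1 : ∀ a b, M1 a b → a ∈ P1 → a ∉ K → b ∈ P1 := by
    intro a b hab ha haK
    refine ⟨H1.memr hab, ?_⟩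
    rintro ⟨k, hk, hkb⟩
    obtain ⟨c, hkc, hcb⟩ := TransGen.tail'_iff.1 hkb
    obtain rfl := H1.inj hcb hab
    rcases reflTransGen_iff_eq_or_transGen.1 hkc with h1 | h1
    · exact haK (h1 ▸ hk)
    · exact ha.2 ⟨k, hk, h1⟩
  have s2 : ∀ a b, N a b → a ∈ P2 → b ∈ P2 ∧ b ∉ P1 := by
    rintro a b hab ⟨-, k, hk, hka⟩
    have hb : b ∈ P2 := ⟨H2.memr hab, k, hk, hka.tail hab⟩
    exact ⟨hb, fun h1 => a2' k hk b (k3 b h1 hb) (TransGen.tail' hka hab)⟩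
  let M' : E → E → Prop := fun a b => (M1 a b ∧ a ∈ P1 ∧ a ∉ K) ∨ (N a b ∧ a ∈ P2)
  refine ⟨P1 ∪ P2, M', ⟨⟨⟨?_, ?_, ?_, ?_, ?_, ?_⟩, ?_, ?_⟩, ?_, ?_⟩, ?_, ?_, ?_⟩
  · rintro a b (h1 | h1)
    · exact Or.inl h1.2.1
    · exact Or.inr h1.2
  · rintro a b (h1 | h1)
    · exact Or.inl (s1 a b h1.1 h1.2.1 h1.2.2)
    · exact Or.inr (s2 a b h1.1 h1.2).1
  · rintro a b (h1 | h1)
    · exact H1.adj h1.1
    · exact H2.adj h1.1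
  · rintro a b (h1 | h1)
    · exact H1.int h1.1
    · exact H2.int h1.1
  · rintro a b c (h1 | h1) (h2 | h2)
    · exact H1.fn h1.1 h2.1
    · exact (h1.2.2 (k3 a h1.2.1 h2.2)).elim
    · exact (h2.2.2 (k3 a h2.2.1 h1.2)).elim
    · exact H2.fn h1.1 h2.1
  · rintro a b c (h1 | h1) (h2 | h2)
    · exact H1.inj h1.1 h2.1
    · exact ((s2 b c h2.1 h2.2).2 (s1 a c h1.1 h1.2.1 h1.2.2)).elim
    · exact ((s2 a c h1.1 h1.2).2 (s1 b c h2.1 h2.2.1 h2.2.2)).elim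
    · exact H2.inj h1.1 h2.1
  · intro a ha hY
    by_cases h2 : a ∈ P2
    · obtain ⟨b, hb⟩ := H2.tot h2.1 hY
      exact ⟨b, Or.inr ⟨hb, h2⟩⟩
    · have h1 : a ∈ P1 := ha.resolve_right h2
      obtain ⟨b, hb⟩ := H1.tot h1.1 hY
      exact ⟨b, Or.inl ⟨hb, h1, fun h3 => h2 (k2 a h3)⟩⟩
  · have w2 : ∀ a ∈ P2, Acc (swap M') a := by
      intro a
      induction a using H2.wf.induction with
      | _ a ih =>
        intro ha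
        refine ⟨a, ?_⟩
        rintro b (hb | hb)
        · exact (hb.2.2 (k3 a hb.2.1 ha)).elim
        · exact ih b hb.1 (s2 a b hb.1 hb.2).1
    refine ⟨fun a => ?_⟩
    induction a using H1.wf.induction with
    | _ a ih =>
      refine ⟨a, ?_⟩
      rintro b (hb | hb)
      · exact ih b hb.1
      · exact w2 b (s2 a b hb.1 hb.2).1
  · intro b hb hY
    by_cases h1 : b ∈ P1
    · obtain ⟨a, ha⟩ := H1.tot' h1.1 hY
      exact ⟨a, Or.inl ⟨ha, ⟨H1.meml ha, fun ⟨k, hk, hka⟩ => h1.2 ⟨k, hk, hka.tail ha⟩⟩,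
        fun h3 => h1.2 ⟨a, h3, TransGen.single ha⟩⟩⟩
    · obtain ⟨-, k, hk, hkb⟩ : b ∈ P2 := hb.resolve_left h1
      rcases hkb.cases_tail with h2 | ⟨a, hka, hab⟩
      · exact (h1 (h2 ▸ k1 k hk)).elim
      · exact ⟨a, Or.inr ⟨hab, H2.meml hab, k, hk, hka⟩⟩
  · have w1 : ∀ a ∈ P1, Acc M' a := by
      intro a
      induction a using H1.wf'.induction with
      | _ a ih =>
        intro ha
        refine ⟨a, ?_⟩
        rintro b (hb | hb)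
        · exact ih b hb.1 hb.2.1
        · exact ((s2 b a hb.1 hb.2).2 ha).elim
    refine ⟨fun a => ?_⟩
    induction a using H2.wf'.induction with
    | _ a ih =>
      refine ⟨a, ?_⟩
      rintro b (hb | hb)
      · exact w1 b hb.2.1
      · exact ih b hb.1
  · exact union_subset_union (fun a ha => ha.1) fun a ha => ha.1
  · intro a ha hY
    refine Or.inl ⟨ha, ?_⟩
    rintro ⟨k, -, hka⟩
    obtain ⟨c, -, hca⟩ := TransGen.tail'_iff.1 hka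
    exact hY (H1.toMat.int' hca)
  · intro z hz hY
    obtain ⟨s, hzs, hsU, hsY⟩ := H2.bf.exists_end hz
    have hsz : ReflTransGen N s z := reflTransGen_swap.1 hzs
    refine Or.inr ⟨hz, ?_⟩
    rcases hc s ⟨hs s hsU hsY, hsU⟩ with h1 | ⟨k, -, hks⟩ | ⟨k, hk, hks⟩
    · exact ⟨s, h1, hsz⟩
    · obtain ⟨c, -, hcs⟩ := TransGen.tail'_iff.1 hks
      exact (hsY (H1.toMat.int' hcs)).elim
    · have hsk : ReflTransGen N s k := (transGen_swap.1 hks).to_reflTransGen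
      rcases H2.toMat.total hsz hsk with h1 | h1
      · exact ⟨k, hk, H2.toMat.eq_of_exit h1 hY ▸ ReflTransGen.refl⟩
      · exact ⟨k, hk, h1⟩

/-- Pym's theorem. -/
theorem pym {Y : Set V} {U1 U2 : Set E} {M1 M2 : E → E → Prop} (H1 : FF t h Y U1 M1)
    (H2 : FF h t Y U2 M2) (hs : ∀ a ∈ U2, t a ∉ Y → a ∈ U1) :
    ∃ U M, Link t h Y U M ∧ U ⊆ U1 ∪ U2 ∧ (∀ a ∈ U1, t a ∉ Y → a ∈ U) ∧
      ∀ a ∈ U2, h a ∉ Y → a ∈ U := by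
  obtain ⟨U1', M1', L1, b1, c1, -, -⟩ := H1.normalize' (S := {a | a ∈ U1 ∧ t a ∉ Y})
    (fun a ha => ha.1) fun a ha => ha.2
  obtain ⟨U2', M2', L2, b2, c2, -, -⟩ := H2.normalize' (S := {a | a ∈ U2 ∧ h a ∉ Y})
    (fun a ha => ha.1) fun a ha => ha.2
  obtain ⟨U, M, h1, h2, h3, h4⟩ := pym_link L1 L2.symm
    fun a ha hY => b1 ⟨hs a (c2 ha) hY, hY⟩
  exact ⟨U, M, h1, h2.trans (union_subset_union c1 c2), fun a ha hY => h3 a (b1 ⟨ha, hY⟩) hY,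
    fun a ha hY => h4 a (b2 ⟨ha, hY⟩) hY⟩

/-- A linkage inside `Y` from all edges entering `Y ∪ {x}` to `x`. -/
structure Core (t h : E → V) (F G : Set E) (x : V) (Y : Set V) (U : Set E) (M : E → E → Prop) :
    Prop where
  lk : Link t h Y U M
  sub : U ⊆ G
  tx : ∀ ⦃a⦄, a ∈ U → t a ≠ x
  hY : ∀ ⦃a⦄, a ∈ U → h a ∈ Y ∨ h a = x
  ent : ∀ ⦃a⦄, a ∈ G → (h a ∈ Y ∨ h a = x) → t a ∉ Y → t a ≠ x → a ∈ U
  lf : LS (Sm F) h Y U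

theorem Wave.core {x : V} {Y : Set V} (H : Wave t h r G {x} Y U M) (hl : LS (Sm F) h Y U)
    (HT : LL t h F G Y {x} T) (hT : ∀ a ∈ T, h a = x) :
    ∃ U' M', Core t h F G x Y U' M' ∧ T ⊆ U' := by
  obtain ⟨U2, M2, H2, hT2⟩ := HT
  have hx : x ∉ Y := fun h1 => H.dis h1 rfl
  let S : Set E := {a | a ∈ G ∧ h a = x ∧ t a ∉ Y ∧ t a ≠ x}
  have hent : ∀ a ∈ G, (h a ∈ Y ∨ h a = x) → t a ∉ Y → t a ≠ x → a ∈ U ∪ S := by
    rintro a ha (h1 | h1) h2 h3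
    · exact Or.inl (H.ent ha h1 h2 h3)
    · exact Or.inr ⟨ha, h1, h2, h3⟩
  obtain ⟨U', M', h1, h2, h3, h4⟩ := pym (H.ff.add_exits (S := S) fun a ha => ha.2.1 ▸ hx) H2.ff
    fun a ha hY => hent a (H2.sub ha) (H2.hIB ha) hY (H2.tB ha)
  refine ⟨U', M', ⟨h1, ?_, ?_, ?_, ?_, ?_⟩, fun a ha => h4 a (hT2 ha) (hT a ha ▸ hx)⟩
  · intro a ha
    rcases h2 ha with (h5 | h5) | h5
    · exact H.sub h5
    · exact h5.1
    · exact H2.sub h5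
  · intro a ha
    rcases h2 ha with (h5 | h5) | h5
    · exact H.tB h5
    · exact h5.2.2.2
    · exact H2.tB h5
  · intro a ha
    rcases h2 ha with (h5 | h5) | h5
    · exact H.hYB h5
    · exact Or.inr h5.2.1
    · exact H2.hIB h5
  · exact fun a ha h5 h6 h7 => h3 a (hent a ha h5 h6 h7) h6
  · intro y hy
    refine Sm.mono _ _ ?_ ((hl y hy).union (H2.lf y hy))
    rintro a ⟨ha, rfl⟩
    rcases h2 ha with (h5 | h5) | h5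
    · exact Or.inl ⟨h5, rfl⟩
    · exact (hx (h5.2.1 ▸ hy)).elim
    · exact Or.inr ⟨h5, rfl⟩

theorem Core.wave {x : V} {Y : Set V} (H : Core t h F G x Y U M) (hr : r ∉ Y) (hx : x ∉ Y) :
    Wave t h r G {x} Y U M :=
  ⟨H.lk.toFF, H.sub, hr, fun _ h1 h2 => hx (h2 ▸ h1), H.tx, H.hY,
    fun _ h1 h2 h3 h4 => H.ent h1 (Or.inl h2) h3 h4⟩

theorem Core.bs {x : V} {Y : Set V} (H : Core t h F G x Y U M) :
    BS t h F G Y {x} U (swap M) :=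
  ⟨H.lk.bf, H.sub, H.tx, H.hY, H.lf⟩

end Pool.Agent.P.MP_133cc4_co
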