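import Pool.Agent.P.MP_133cc4_co.GCol
import Pool.Agent.P.MP_133cc4_co.GPym

/-! The local data of an active vertex. -/

namespace Pool.Agent.P.MP_133cc4_co

open Set Function Relation

variable {V E : Type*} {t h : E → V} {r : V} {F G : Set E} {I B : Set V} {U T : Set E}
  {M : E → E → Prop}

/-- `Y0`: the bubble fixed at activation; `Y`: the present core; `W`: the present supplied set;
`Φ`: frozen paths from outside `W` to the vertex; `Ψ`: frozen paths inside the bubble. -/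
structure Loc (V E : Type*) where
  Y0 : Set V
  Y : Set V
  W : Set V
  Φ : Set E
  N : E → E → Prop
  Ψ : Set E
  N' : E → E → Prop

/-- The local invariant without the quasi-flame property. -/
structure PInv (t h : E → V) (r : V) (F D : Set E) (x : V) (l : Loc V E) : Prop where
  YY : l.Y ⊆ l.Y0
  rY : r ∉ l.Y0
  xY : x ∉ l.Y0
  YW : l.Y ⊆ l.W
  xW : x ∈ l.W
  rW : r ∉ l.W
  Φff : FF h t (l.W \ {x}) l.Φ l.N
  Φt : ∀ a ∈ l.Φ, t a ≠ x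
  Ψff : FF t h l.Y0 l.Ψ l.N'
  Ψt : ∀ a ∈ l.Ψ, t a ≠ x
  Ψh : ∀ a ∈ l.Ψ, h a ∈ l.Y0 ∨ h a = x
  cpl : ∀ a, (h a ∈ l.Y ∨ h a = x) → (a ∈ l.Φ ↔ a ∈ l.Ψ)
  wA : ∃ U M, Wave t h r (D \ l.Ψ) ({x} ∪ l.Y) (l.Y0 \ l.Y) U M ∧ LS (Sm F) h (l.Y0 \ l.Y) U
  wC : ∃ U M, Wave t h r (D \ l.Φ) {x} l.Y U M ∧ LS (Sm F) h l.Y U
  wB : LL t h univ (D \ l.Φ) (l.W \ ({x} ∪ l.Y)) ({x} ∪ l.Y) (Del t h (D \ l.Φ) ({x} ∪ l.Y))

/-- The local invariant. -/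
def AInv (t h : E → V) (r : V) (F D : Set E) (x : V) (l : Loc V E) : Prop :=
  PInv t h r F D x l ∧ QL t h F (D \ l.Φ) l.Y x

/-- Extension of local data. -/
structure LRel (t : E → V) (l l' : Loc V E) : Prop where
  Y0 : l'.Y0 = l.Y0
  W : l'.W ⊆ l.W
  Φ : l.Φ ⊆ l'.Φ
  Ψ : l.Ψ ⊆ l'.Ψ
  N : ∀ a b, l.N a b → t a ∈ l'.W → l'.N a b
  N' : l.N' ≤ l'.N'

theorem LRel.refl (l : Loc V E) : LRel t l l :=
  ⟨rfl, Subset.rfl, Subset.rfl, Subset.rfl, fun _ _ h1 _ => h1, le_rfl⟩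

theorem LRel.trans {l l' l'' : Loc V E} (H : LRel t l l') (H' : LRel t l' l'') : LRel t l l'' :=
  ⟨H'.Y0.trans H.Y0, H'.W.trans H.W, H.Φ.trans H'.Φ, H.Ψ.trans H'.Ψ,
    fun a b h1 h2 => H'.N a b (H.N a b h1 (H'.W h2)) h2, H.N'.trans H'.N'⟩

/-- The quasi-flame property up to `d` edges. -/
def QD (t h : E → V) (F G : Set E) (I : Set V) (x : V) (d : ℕ) : Prop :=
  ∀ J ⊆ G, J.Finite → (∀ a ∈ J, h a = x) → ∃ J' ⊆ J,
    LL t h F G I {x} ({a | a ∈ F ∧ a ∈ G ∧ h a = x} ∪ J') ∧ (J \ J').encard ≤ d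

variable {D : Set E} {x : V} {l : Loc V E}

theorem loop_wave {P A : Set E} {Y : Set V} (H : Wave t h r (D \ P) B Y U M)
    (hA : ∀ a ∈ U, a ∉ A) : Wave t h r ((D \ A) \ P) B Y U M :=
  ⟨H.ff, fun a ha => ⟨⟨(H.sub ha).1, hA a ha⟩, (H.sub ha).2⟩, H.rY, H.dis, H.tB, H.hYB,
    fun _ ha => H.ent ⟨ha.1.1, ha.2⟩⟩

/-- Finitely many reserved edges protect the local invariant. -/
theorem AInv.reserve (hD : D.Countable) (H : AInv t h r F D x l) {y : V} (hy : y ≠ x) :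
    ∃ K : Set E, K.Finite ∧ ∀ A : Set E, A.Finite → (∀ a ∈ A, h a = y ∧ a ∉ F ∧ a ∉ K) →
      AInv t h r F (D \ A) x l := by
  obtain ⟨P, Q⟩ := H
  obtain ⟨UA, MA, hA, lA⟩ := P.wA
  obtain ⟨UC, MC, hC, lC⟩ := P.wC
  have hD' : (D \ l.Φ).Countable := hD.mono sdiff_subset
  have hxr : r ≠ x := fun e => P.rW (e ▸ P.xW)
  obtain ⟨K2, k2, hK2⟩ := P.wB.reserve hD' disjoint_sdiff_left (fun h1 => P.rW h1.1)
    (fun h1 => h1.elim hxr fun h2 => P.rY (P.YY h2)) y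
  obtain ⟨K3, k3, hK3⟩ := Q.reserve (fun h1 => P.xY (P.YY h1)) hy
  have k1 : Sm F {a | a ∈ UA ∪ UC ∧ h a = y} := by
    by_cases h1 : y ∈ l.Y
    · refine Sm.mono _ _ ?_ (lC y h1)
      rintro a ⟨h2 | h2, rfl⟩
      · exact ⟨hC.ent ⟨(hA.sub h2).1, fun h3 => (hA.sub h2).2 ((P.cpl a (Or.inl h1)).1 h3)⟩ h1
          (fun h3 => hA.tB h2 (Or.inr h3)) fun h3 => hA.tB h2 (Or.inl h3), rfl⟩
      · exact ⟨h2, rfl⟩
    · by_cases h2 : y ∈ l.Y0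
      · refine Sm.mono _ _ ?_ (lA y ⟨h2, h1⟩)
        rintro a ⟨h3 | h3, rfl⟩
        · exact ⟨h3, rfl⟩
        · exact ((hC.hYB h3).elim h1 hy).elim
      · refine Sm.of_finite _ (finite_empty.subset ?_)
        rintro a ⟨h3 | h3, rfl⟩
        · exact ((hA.hYB h3).elim (fun h4 => h2 h4.1) fun h4 => h4.elim hy h1).elim
        · exact ((hC.hYB h3).elim h1 hy).elim
  refine ⟨({a | a ∈ UA ∪ UC ∧ h a = y} \ F) ∪ (K2 ∪ K3), Set.Finite.union k1 (k2.union k3),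
    fun A hfin hA' => ?_⟩
  have hn : ∀ a ∈ UA ∪ UC, a ∉ A := fun a ha h1 =>
    (hA' a h1).2.2 (Or.inl ⟨⟨ha, (hA' a h1).1⟩, (hA' a h1).2.1⟩)
  refine ⟨{ P with
    wA := ⟨UA, MA, loop_wave hA fun a ha => hn a (Or.inl ha), lA⟩
    wC := ⟨UC, MC, loop_wave hC fun a ha => hn a (Or.inr ha), lC⟩
    wB := ?_ }, ?_⟩
  · rw [sdiff_right_comm]
    exact hK2 A hfin fun a ha => ⟨(hA' a ha).1, fun h1 => (hA' a ha).2.2 (Or.inr (Or.inl h1))⟩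
  · rw [sdiff_right_comm]
    exact hK3 A hfin fun a ha =>
      ⟨(hA' a ha).1, (hA' a ha).2.1, fun h1 => (hA' a ha).2.2 (Or.inr (Or.inr h1))⟩

/-- Freezing one more path. -/
theorem AInv.split (hloop : ∀ e, t e ≠ h e) (H : AInv t h r F D x l) {K : Set E} (hK : K.Finite)
    {b : E} (hbD : b ∈ D) (hb : h b = x ∨ (h b ∈ l.Y0 ∧ t b ∉ l.Y0 ∧ t b ≠ x)) :
    ∃ l' : Loc V E, LRel t l l' ∧ l'.W = l.W ∧ l'.Y = l.Y ∧ b ∈ l'.Ψ ∧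
      (∃ P ⊆ D, P.Finite ∧ l'.Φ ⊆ l.Φ ∪ P ∧ l'.Ψ ⊆ l.Ψ ∪ P) ∧ PInv t h r F D x l' ∧
      LL t h F (D \ l'.Φ) l'.Y {x} {a | a ∈ D \ l'.Φ ∧ h a = x ∧ (a ∈ F ∨ a ∈ K)} ∧
      ∃ d, QD t h F (D \ l'.Φ) l'.Y x d := by
  obtain ⟨HP, HQ⟩ := H
  have hxY : x ∉ l.Y := fun h1 => HP.xY (HP.YY h1)
  have hdx : Disjoint l.Y {x} := disjoint_singleton_right.2 hxY
  by_cases hbΨ : b ∈ l.Ψ
  · refine ⟨l, LRel.refl l, rfl, rfl, hbΨ, ⟨∅, empty_subset _, finite_empty, subset_union_left,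
      subset_union_left⟩, HP, ?_, 0, fun J h1 h2 h3 => ⟨J, Subset.rfl, HQ J h1 h2 h3, by simp⟩⟩
    refine (HQ {a | a ∈ K ∧ a ∈ D \ l.Φ ∧ h a = x} (fun a ha => ha.2.1)
      (hK.subset fun a ha => ha.1) fun a ha => ha.2.2).mono Subset.rfl fun a ha => ?_
    exact ha.2.2.imp (fun h1 => ⟨h1, ha.1, ha.2.1⟩) fun h1 => ⟨h1, ha.1, ha.2.1⟩
  obtain ⟨U0, M0, hw0, hl0⟩ := HP.wC
  obtain ⟨U, M, HC, hTU⟩ := hw0.core hl0 (HQ {a | a ∈ insert b K ∧ a ∈ D \ l.Φ ∧ h a = x}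
    (fun a ha => ha.2.1) ((hK.insert b).subset fun a ha => ha.1) fun a ha => ha.2.2)
    fun a ha => ha.elim (fun h1 => h1.2.2) fun h1 => h1.2.2
  obtain ⟨UA0, MA0, hA0, hlA0⟩ := HP.wA
  obtain ⟨UA, MA, HA, LA, hUA⟩ := hA0.link
  obtain ⟨UB, MB, HB, LB, hDB, -⟩ := HP.wB.link disjoint_sdiff_left fun a ha => ha.2.1
  have hBA : ∀ a, (h a ∈ l.Y ∨ h a = x) → h a ∉ l.Y0 \ l.Y := fun a h1 h2 =>
    h1.elim h2.2 fun h3 => HP.xY (h3 ▸ h2.1)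
  have hBB : ∀ a, (h a ∈ l.Y ∨ h a = x) → h a ∉ l.W \ ({x} ∪ l.Y) := fun a h1 h2 => h2.2 h1.symm
  obtain ⟨C, CA, c, hCU, hCfin, hcl, hcC, hcY, hc, hCA, hCAfin, hclA, hcA, hcA', hbC⟩ :
      ∃ (C CA : Set E) (c : E), C ⊆ U ∧ C.Finite ∧ (∀ a b, M a b → (a ∈ C ↔ b ∈ C)) ∧ c ∈ C ∧
        t c ∉ l.Y ∧ (∀ a ∈ C, t a ∉ l.Y → a = c) ∧ CA ⊆ UA ∧ CA.Finite ∧
        (∀ a b, MA a b → (a ∈ CA ↔ b ∈ CA)) ∧ (∀ a ∈ CA, h a ∉ l.Y0 \ l.Y → a = c) ∧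
        (c ∈ UA → c ∈ CA) ∧ b ∈ C ∪ CA := by
    by_cases h1 : h b ∈ l.Y ∨ h b = x
    · have hbG : b ∈ D \ l.Φ := ⟨hbD, fun h2 => hbΨ ((HP.cpl b h1).1 h2)⟩
      have hbU : b ∈ U := by
        rcases hb with h2 | h2
        · exact hTU (Or.inr ⟨Or.inl rfl, hbG, h2⟩)
        · exact HC.ent hbG h1 (fun h3 => h2.2.1 (HP.YY h3)) h2.2.2
      obtain ⟨C, c, -, hbC, hCU, hCfin, hcl, hcC, hcY, hc, -⟩ := HC.lk.comp hbU
      by_cases h2 : c ∈ UA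
      · obtain ⟨CA, -, z, h3, h4, h5, h6, -, -, -, -, -, h7⟩ := LA.comp h2
        exact ⟨C, CA, c, hCU, hCfin, hcl, hcC, hcY, hc, h4, h5, h6, fun a ha h8 =>
          (h7 a ha h8).trans (h7 c h3 (hBA c (HC.hY (hCU hcC)))).symm, fun _ => h3, Or.inl hbC⟩
      · exact ⟨C, ∅, c, hCU, hCfin, hcl, hcC, hcY, hc, empty_subset _, finite_empty,
          fun _ _ _ => Iff.rfl, fun _ ha => ha.elim, h2, Or.inl hbC⟩
    · have h2 := hb.resolve_left fun h2 => h1 (Or.inr h2)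
      have hbA : b ∈ UA := HA.ent ⟨hbD, hbΨ⟩ ⟨h2.1, fun h3 => h1 (Or.inl h3)⟩
        (fun h3 => h2.2.1 h3.1) fun h3 => h3.elim h2.2.2 fun h4 => h2.2.1 (HP.YY h4)
      obtain ⟨CA, -, z, h3, h4, h5, h6, -, -, -, hz, hz', h7⟩ := LA.comp hbA
      have hzB : h z ∈ l.Y ∨ h z = x := ((HA.hYB (h4 hz)).resolve_left hz').symm
      have hzt := HA.tB (h4 hz)
      have hzU : z ∈ U := HC.ent ⟨(HA.sub (h4 hz)).1, fun h8 => (HA.sub (h4 hz)).2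
        ((HP.cpl z hzB).1 h8)⟩ hzB (fun h8 => hzt (Or.inr h8)) fun h8 => hzt (Or.inl h8)
      obtain ⟨C, c, -, hzC, hCU, hCfin, hcl, hcC, hcY, hc, -⟩ := HC.lk.comp hzU
      obtain rfl : z = c := hc z hzC fun h8 => hzt (Or.inr h8)
      exact ⟨C, CA, z, hCU, hCfin, hcl, hcC, hcY, hc, h4, h5, h6, h7, fun _ => hz, Or.inr h3⟩
  have hcB : c ∈ UB := hDB ⟨HC.sub (hCU hcC), (HC.hY (hCU hcC)).symm,
    fun h1 => h1.elim (HC.tx (hCU hcC)) hcY⟩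
  obtain ⟨CB, c', -, hcCB, hCB, hCBfin, hclB, -, -, hcB', -⟩ := LB.comp hcB
  have kB : ∀ a ∈ CB, (h a ∈ l.Y ∨ h a = x) → a ∈ C := fun a ha h1 =>
    ((hcB' a ha (hBB a h1)).trans (hcB' c hcCB (hBB c (HC.hY (hCU hcC)))).symm) ▸ hcC
  have kA : ∀ a ∈ CA, (h a ∈ l.Y ∨ h a = x) → a ∈ C := fun a ha h1 => hcA a ha (hBA a h1) ▸ hcC
  have hPG : CB ∪ C ⊆ D \ l.Φ := union_subset (hCB.trans HB.sub) (hCU.trans HC.sub)
  have hPA : C ∪ CA ⊆ D \ l.Ψ := union_subset (fun a ha => ⟨(HC.sub (hCU ha)).1, fun h1 =>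
    (HC.sub (hCU ha)).2 ((HP.cpl a (HC.hY (hCU ha))).2 h1)⟩) (hCA.trans HA.sub)
  have f1 := (LB.sub hCB hclB).toFF.compose (HC.lk.sub hCU hcl).bf
    (disjoint_left.2 fun y h1 h2 => h1.2 (Or.inr h2))
    (fun a ha h1 => hc a ha (fun h2 => h1.2 (Or.inr h2)) ▸ hcCB)
    fun a ha h1 => HB.tB (hCB ha) (Or.inr h1)
  have e1 : l.W \ ({x} ∪ l.Y) ∪ l.Y = l.W \ {x} := by
    ext y
    constructor
    · rintro (h1 | h1)
      · exact ⟨h1.1, fun h2 => h1.2 (Or.inl h2)⟩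
      · exact ⟨HP.YW h1, fun h2 => hxY (h2 ▸ h1)⟩
    · intro h1
      by_cases h2 : y ∈ l.Y
      · exact Or.inr h2
      · exact Or.inl ⟨h1.1, fun h3 => h3.elim h1.2 h2⟩
  rw [e1] at f1
  have f2 := (HC.lk.sub hCU hcl).toFF.compose (LA.sub hCA hclA).toFF disjoint_sdiff_right
    (fun a ha h1 => kA a ha (Or.inl h1)) fun a ha => hBA a (HC.hY (hCU ha))
  rw [union_sdiff_cancel HP.YY] at f2
  have g1 := HP.Φff.union f1 (disjoint_left.2 fun a h1 h2 => (hPG h2).2 h1)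
  have g2 := HP.Ψff.union f2 (disjoint_left.2 fun a h1 h2 => (hPA h2).2 h1)
  have hLi := HC.lk.sub (C := U \ C) sdiff_subset (fun a b hab => by
    simp only [mem_sdiff, HC.lk.meml hab, HC.lk.memr hab, true_and, hcl a b hab])
  have HC' : Core t h F (D \ (l.Φ ∪ (CB ∪ C))) x l.Y (U \ C) _ :=
    ⟨hLi, fun a ha => ⟨(HC.sub ha.1).1, fun h1 => h1.elim (HC.sub ha.1).2 fun h2 =>
        ha.2 (h2.elim (fun h3 => kB a h3 (HC.hY ha.1)) id)⟩,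
      fun a ha => HC.tx ha.1, fun a ha => HC.hY ha.1,
      fun a ha h1 h2 h3 => ⟨HC.ent ⟨ha.1, fun h4 => ha.2 (Or.inl h4)⟩ h1 h2 h3,
        fun h4 => ha.2 (Or.inr (Or.inr h4))⟩,
      HC.lf.sm_sub Subset.rfl sdiff_subset⟩
  have hLA := LA.sub (C := UA \ CA) sdiff_subset (fun a b hab => by
    simp only [mem_sdiff, LA.meml hab, LA.memr hab, true_and, hclA a b hab])
  have hLL : LL t h F (D \ (l.Φ ∪ (CB ∪ C))) l.Y {x}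
      {a | a ∈ D \ (l.Φ ∪ (CB ∪ C)) ∧ h a = x ∧ (a ∈ F ∨ a ∈ K)} := by
    refine ⟨_, _, HC'.bs, fun a ha => ⟨hTU ?_, fun h1 => ha.1.2 (Or.inr (Or.inr h1))⟩⟩
    have h1 : a ∈ D \ l.Φ := ⟨ha.1.1, fun h1 => ha.1.2 (Or.inl h1)⟩
    exact ha.2.2.imp (fun h2 => ⟨h2, h1, ha.2.1⟩) fun h2 => ⟨Or.inr h2, h1, ha.2.1⟩
  refine ⟨⟨l.Y0, l.Y, l.W, l.Φ ∪ (CB ∪ C), _, l.Ψ ∪ (C ∪ CA), _⟩,
    ⟨rfl, Subset.rfl, subset_union_left, subset_union_left, fun a b h1 _ => Or.inl h1,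
      fun a b h1 => Or.inl h1⟩, rfl, rfl, Or.inr hbC,
    ⟨(CB ∪ C) ∪ (C ∪ CA), union_subset (hPG.trans sdiff_subset) (hPA.trans sdiff_subset),
      (hCBfin.union hCfin).union (hCfin.union hCAfin),
      union_subset_union_right _ subset_union_left, union_subset_union_right _ subset_union_right⟩,
    ⟨HP.YY, HP.rY, HP.xY, HP.YW, HP.xW, HP.rW, g1, ?_, g2, ?_, ?_, ?_, ?_,
      ⟨_, _, HC'.wave (fun h1 => HP.rY (HP.YY h1)) hxY, HC'.lf⟩, ?_⟩, hLL,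
    (CB ∪ C).ncard, ?_⟩
  · rintro a (ha | ha | ha)
    · exact HP.Φt a ha
    · exact fun h1 => HB.tB (hCB ha) (Or.inl h1)
    · exact HC.tx (hCU ha)
  · rintro a (ha | ha | ha)
    · exact HP.Ψt a ha
    · exact HC.tx (hCU ha)
    · exact fun h1 => HA.tB (hCA ha) (Or.inl h1)
  · rintro a (ha | ha | ha)
    · exact HP.Ψh a ha
    · exact (HC.hY (hCU ha)).imp_left fun h1 => HP.YY h1
    · rcases HA.hYB (hCA ha) with h1 | h1 | h1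
      · exact Or.inl h1.1
      · exact Or.inr h1
      · exact Or.inl (HP.YY h1)
  · intro a h1
    constructor
    · rintro (ha | ha | ha)
      · exact Or.inl ((HP.cpl a h1).1 ha)
      · exact Or.inr (Or.inl (kB a ha h1))
      · exact Or.inr (Or.inl ha)
    · rintro (ha | ha | ha)
      · exact Or.inl ((HP.cpl a h1).2 ha)
      · exact Or.inr (Or.inr ha)
      · exact Or.inr (Or.inr (kA a ha h1))
  · refine ⟨UA \ CA, _, ⟨hLA.toFF, fun a ha => ⟨(HA.sub ha.1).1, ?_⟩, HA.rY, HA.dis,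
      fun a ha => HA.tB ha.1, fun a ha => HA.hYB ha.1, fun a ha h1 h2 h3 =>
        ⟨HA.ent ⟨ha.1, fun h4 => ha.2 (Or.inl h4)⟩ h1 h2 h3, fun h4 => ha.2 (Or.inr (Or.inr h4))⟩⟩,
      hlA0.sm_sub Subset.rfl (sdiff_subset.trans hUA)⟩
    rintro (h1 | h1 | h1)
    · exact (HA.sub ha.1).2 h1
    · obtain rfl := hc a h1 fun h2 => HA.tB ha.1 (Or.inr h2)
      exact ha.2 (hcA' ha.1)
    · exact ha.2 h1
  · refine ⟨UB \ CB, _, (HB.sdiff LB hclB).1.mono fun a ha => ⟨(HB.sub ha.1).1, ?_⟩, fun a ha =>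
      ⟨hDB ⟨⟨ha.1.1, fun h1 => ha.1.2 (Or.inl h1)⟩, ha.2⟩, fun h1 => ha.1.2 (Or.inr (Or.inl h1))⟩⟩
    rintro (h1 | h1 | h1)
    · exact (HB.sub ha.1).2 h1
    · exact ha.2 h1
    · obtain rfl := hc a h1 fun h2 => HB.tB ha.1 (Or.inr h2)
      exact ha.2 hcCB
  · intro J h1 h2 h3
    have e2 : D \ (l.Φ ∪ (CB ∪ C)) = (D \ l.Φ) \ (CB ∪ C) := sdiff_sdiff_left.symm
    have h4 := (HQ J (fun a ha => ⟨(h1 ha).1, fun h4 => (h1 ha).2 (Or.inl h4)⟩) h2 h3).mono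
      Subset.rfl (T' := {a | a ∈ F ∧ a ∈ D \ (l.Φ ∪ (CB ∪ C)) ∧ h a = x} ∪ J)
      (union_subset_union_left _ fun a ha =>
        ⟨ha.1, ⟨ha.2.1.1, fun h4 => ha.2.1.2 (Or.inl h4)⟩, ha.2.2⟩)
    obtain ⟨J', h5, h6, h7⟩ := h4.defi (P := CB ∪ C)
      (hLL.mono e2.le fun a ha => ⟨ha.2.1, ha.2.2, Or.inl ha.1⟩) hdx (fun a ha => ha.2.2) h3
      (hCBfin.union hCfin)
    exact ⟨J', h5, h6.mono e2.ge Subset.rfl,
      h7.trans (hCBfin.union hCfin).cast_ncard_eq.ge⟩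

/-- Shrinking the core into a supplied set. -/
theorem PInv.layer (hD : D.Countable) (H : PInv t h r F D x l) {W' : Set V} (hx : x ∈ W') :
    ∃ l' : Loc V E, LRel t l l' ∧ l'.Φ = l.Φ ∧ l'.Ψ = l.Ψ ∧ l'.W = l.W ∩ W' ∧ l'.Y ⊆ l.Y ∧
      PInv t h r F D x l' := by
  have hD' : (D \ l.Φ).Countable := hD.mono sdiff_subset
  have hxr : r ≠ x := fun e => H.rW (e ▸ H.xW)
  obtain ⟨Y', hY', U', M', hw, hl, hb, -⟩ := exists_bubble_in (t := t) (h := h) (r := r) hD' F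
    (Ω := ({x} ∪ l.Y) ∩ W') (fun h1 => h1.1.elim hxr fun h2 => H.rY (H.YY h2)) (x := x)
    ⟨Or.inl rfl, hx⟩
  have hYY : Y' ⊆ l.Y := fun v hv => (hY' hv).1.resolve_left (hw.dis hv)
  obtain ⟨UA, MA, hA, lA⟩ := H.wA
  obtain ⟨UC, MC, hC, lC⟩ := H.wC
  have hC' : Wave t h r (D \ l.Ψ) {x} l.Y UC MC :=
    ⟨hC.ff, fun a ha => ⟨(hC.sub ha).1, fun h1 => (hC.sub ha).2 ((H.cpl a (hC.hYB ha)).2 h1)⟩,
      hC.rY, hC.dis, hC.tB, hC.hYB,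
      fun a ha h1 => hC.ent ⟨ha.1, fun h2 => ha.2 ((H.cpl a (Or.inl h1)).1 h2)⟩ h1⟩
  obtain ⟨U1, M1, h1, l1⟩ := hC'.compose hA
  have l1 := l1 _ Sm.mono lC lA
  obtain ⟨U2, M2, h2, l2⟩ := h1.enlarge (B' := {x} ∪ Y') subset_union_left
  have e : (l.Y ∪ l.Y0 \ l.Y) \ ({x} ∪ Y') = l.Y0 \ Y' := by
    rw [union_sdiff_cancel H.YY]
    exact Subset.antisymm (fun v hv => ⟨hv.1, fun h3 => hv.2 (Or.inr h3)⟩)
      fun v hv => ⟨hv.1, fun h3 => h3.elim (fun h4 => H.xY (h4 ▸ hv.1)) hv.2⟩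
  have l2' : LS (Sm F) h ((l.Y ∪ l.Y0 \ l.Y) \ ({x} ∪ Y')) U2 := l1.sm_sub sdiff_subset l2
  rw [e] at h2 l2'
  have hB := hb.comp (H.wB.shrink (I' := (l.W ∩ W') \ ({x} ∪ l.Y))
    (fun v hv => ⟨hv.1.1, hv.2⟩) Subset.rfl fun a ha => ⟨ha, ha.2.1⟩)
    (disjoint_left.2 fun v h3 h4 => h3.2 h4.1.1) (fun v hv => hv.1.1)
    (union_subset_union_right _ hYY) fun a ha h3 h4 =>
      ⟨ha, h3.elim (fun h5 => h5.1.1) fun h5 => union_subset_union_right _ hYY h5, h4.2⟩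
  refine ⟨⟨l.Y0, Y', l.W ∩ W', l.Φ, fun a b => l.N a b ∧ a ∈ l.Φ ∧ t a ∈ (l.W ∩ W') \ {x},
    l.Ψ, l.N'⟩, ⟨rfl, inter_subset_left, Subset.rfl, Subset.rfl,
      fun a b h3 h4 => ⟨h3, H.Φff.meml h3, h4, H.Φt a (H.Φff.meml h3)⟩, le_rfl⟩, rfl, rfl, rfl,
    hYY, ⟨hYY.trans H.YY, H.rY, H.xY, fun v hv => ⟨H.YW (hYY hv), (hY' hv).2⟩, ⟨H.xW, hx⟩,
      fun h3 => H.rW h3.1, H.Φff.restrict (fun a ha h3 => ⟨ha, h3.1.1, h3.2⟩)
        fun a b hab _ _ => H.Φff.memr hab, H.Φt, H.Ψff, H.Ψt, H.Ψh,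
      fun a ha => H.cpl a (ha.imp_left fun h3 => hYY h3), ⟨U2, M2, h2, l2'⟩, ⟨U', M', hw, hl⟩,
      hB.shrink (fun v hv => ?_) Subset.rfl fun a ha => ⟨ha, ha.2.1⟩⟩⟩
  by_cases h3 : v ∈ {x} ∪ l.Y
  · exact Or.inr ⟨⟨h3, hv.1.2⟩, hv.2⟩
  · exact Or.inl ⟨hv.1, h3⟩

theorem loop_defect (hloop : ∀ e, t e ≠ h e) {K : Set E} {d : ℕ} (H : PInv t h r F D x l)
    (HT : LL t h F (D \ l.Φ) l.Y {x} {a | a ∈ D \ l.Φ ∧ h a = x ∧ (a ∈ F ∨ a ∈ K)})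
    (HQ : QD t h F (D \ l.Φ) l.Y x d) :
    ∃ U M, ∃ A : Set E, Wave t h r (D \ l.Φ) {x} l.Y U M ∧ LS (Sm F) h l.Y U ∧ A.encard ≤ d ∧
      (∀ a ∈ A, a ∉ U ∧ a ∈ D \ l.Φ ∧ h a = x ∧ a ∉ F ∧ a ∉ K ∧ t a ∈ l.Y) ∧
      ∀ J ⊆ D \ l.Φ, J.Finite → (∀ a ∈ J, h a = x) → LL t h F (D \ l.Φ) l.Y {x}
        ({a | a ∈ F ∧ a ∈ D \ l.Φ ∧ h a = x} ∪ (J \ A)) := by
  obtain ⟨UC, MC, hC, lC⟩ := H.wC
  obtain ⟨U, M, hc, hT⟩ := hC.core lC HT fun a ha => ha.2.1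
  have hxY : x ∉ l.Y := fun h1 => H.xY (H.YY h1)
  have hd : Disjoint l.Y {x} := disjoint_singleton_right.2 hxY
  obtain ⟨A, hA, hcard, hJ⟩ := exists_defect' (fun J => LL t h F (D \ l.Φ) l.Y {x}
      ({a | a ∈ F ∧ a ∈ D \ l.Φ ∧ h a = x} ∪ J)) {a | a ∈ D \ l.Φ ∧ h a = x}
    {a | a ∈ U ∧ h a = x} d
    (fun I I' h1 h2 => h2.mono Subset.rfl (union_subset_union_right _ h1))
    (fun I h1 I' h2 h3 h4 h5 => h3.exchange h4 hd (fun a ha => ha.2.2) (fun a ha => (h1 ha).2)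
      (fun a ha => (h2 ha).2) h5)
    (fun J h1 h2 => HQ J (fun a ha => (h1 ha).1) h2 fun a ha => (h1 ha).2)
    ⟨U, _, hc.bs, union_subset (fun a ha => hT ⟨ha.2.1, ha.2.2, Or.inl ha.1⟩) fun a ha => ha.1⟩
  refine ⟨U, M, A, hc.wave (fun h1 => H.rY (H.YY h1)) hxY, hc.lf, hcard, fun a ha => ?_,
    fun J h1 h2 h3 => hJ _ (fun a ha => ⟨⟨h1 ha.1, h3 a ha.1⟩, ha.2⟩) (h2.subset sdiff_subset)⟩
  obtain ⟨⟨h1, h2⟩, h3⟩ := hA ha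
  have h4 : a ∉ U := fun h4 => h3 ⟨h4, h2⟩
  refine ⟨h4, h1, h2, fun h5 => h4 (hT ⟨h1, h2, Or.inl h5⟩), fun h5 => h4 (hT ⟨h1, h2, Or.inr h5⟩),
    by_contra fun h5 => h4 (hc.ent h1 (Or.inr h2) h5 (h2 ▸ hloop a))⟩

theorem loop_card {α : Type*} {A J : Set α} {a : α} {d : ℕ} (ha : a ∈ A)
    (hA : A.encard ≤ (d + 1 : ℕ)) (hJ : J ⊆ A \ {a}) : J.encard ≤ d := by
  have h1 := encard_sdiff_singleton_add_one ha
  have h2 : (A \ {a}).encard + 1 ≤ (d : ℕ∞) + 1 := by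
    rw [h1]
    exact_mod_cast hA
  exact (encard_le_encard hJ).trans ((ENat.add_le_add_iff_right ENat.one_ne_top).1 h2)

/-- Restoring the quasi-flame property without harming the vertices of `Wn`. -/
theorem PInv.loop (hloop : ∀ e, t e ≠ h e) {K : Set E} {Wn : Set V}
    (hWn : ∀ w ∈ Wn, w ≠ r ∧ w ≠ x) (d : ℕ) :
    ∀ (D : Set E) (l : Loc V E), D.Countable → PInv t h r F D x l →
      LL t h F (D \ l.Φ) l.Y {x} {a | a ∈ D \ l.Φ ∧ h a = x ∧ (a ∈ F ∨ a ∈ K)} →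
      QD t h F (D \ l.Φ) l.Y x d → (∀ w ∈ Wn, QL t h F D (Out r {w}) w) →
      ∃ (A : Set E) (W' : Set V) (l' : Loc V E), A.Finite ∧
        (∀ a ∈ A, h a = x ∧ a ∉ F ∧ a ∉ K ∧ a ∉ l.Φ ∧ t a ∈ l.Y) ∧
        r ∉ W' ∧ x ∈ W' ∧ Sup t h r (D \ A) W' ∧ LRel t l l' ∧ l'.Φ = l.Φ ∧ l'.Ψ = l.Ψ ∧
        l'.W = l.W ∩ W' ∧ AInv t h r F (D \ A) x l' ∧
        ∀ w ∈ Wn, QL t h F (D \ A) (Out r {w}) w := by
  induction d using Nat.strong_induction_on with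
  | _ d ih =>
  intro D l hD H HT HQ HW
  obtain ⟨U, M, A, hw, hl, hcard, hA, hJ⟩ := loop_defect hloop H HT HQ
  have hxr : x ≠ r := fun e => H.rW (e ▸ H.xW)
  have hxY : x ∉ l.Y := fun h1 => H.xY (H.YY h1)
  have hd : Disjoint l.Y {x} := disjoint_singleton_right.2 hxY
  rcases A.eq_empty_or_nonempty with rfl | ⟨a, ha⟩
  · refine ⟨∅, {v | v ≠ r}, l, finite_empty, fun a ha => ha.elim, fun h1 => h1 rfl, hxr, sup_out,
      LRel.refl l, rfl, rfl, (inter_eq_left.2 fun v hv (e : v = r) => H.rW (e ▸ hv)).symm, ?_, ?_⟩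
    · rw [sdiff_empty]
      refine ⟨H, fun J h1 h2 h3 => ?_⟩
      have h4 := hJ J h1 h2 h3
      rwa [sdiff_empty] at h4
    · rwa [sdiff_empty]
  obtain ⟨haU, haD, hax, haF, haK, haY⟩ := hA a ha
  obtain ⟨d, rfl⟩ : ∃ d', d = d' + 1 := by
    rcases d with _ | d
    · exact ((encard_eq_zero.1 (nonpos_iff_eq_zero.1 hcard)).subset ha).elim
    · exact ⟨d, rfl⟩
  by_cases hq : ∀ w ∈ Wn, QL t h F (D \ {a}) (Out r {w}) w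
  · obtain ⟨UA, MA, hwA, lA⟩ := H.wA
    have H' : PInv t h r F (D \ {a}) x l :=
      { H with
        wA := ⟨UA, MA, loop_wave hwA fun b hb e => hwA.tB hb (Or.inr (e ▸ haY)), lA⟩
        wC := ⟨U, M, loop_wave hw fun b hb e => haU (e ▸ hb), hl⟩
        wB := by
          rw [sdiff_right_comm]
          refine (H.wB.drop disjoint_sdiff_left (fun b hb => hb.2.1) ?_).mono Subset.rfl
            fun b hb => ⟨hb.1.1, hb.2⟩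
          rintro b rfl
          exact ⟨fun h1 => h1.2 (Or.inl hax), fun h1 => h1.2.2 (Or.inr haY)⟩ }
    obtain ⟨A', W', l', k1, k2, k3, k4, k5, k6, k7, k8, k9, k10, k11⟩ :=
      ih d (Nat.lt_succ_self d) (D \ {a}) l (hD.mono sdiff_subset) H' (by
        rw [sdiff_right_comm]
        refine (HT.drop hd (fun b hb => hb.2.1) ?_).mono Subset.rfl fun b hb => ⟨hb.1.1, hb.2⟩
        rintro b rfl
        exact ⟨hax ▸ hxY, fun h1 => h1.2.2.elim haF haK⟩) (by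
        rw [sdiff_right_comm]
        intro J h1 h2 h3
        refine ⟨J \ A, sdiff_subset, (LL.drop (hJ J (fun b hb => (h1 hb).1) h2 h3) hd
          (fun b hb => hb.elim (fun h4 => h4.2.2) fun h4 => h3 b h4.1) ?_).mono Subset.rfl
            (union_subset_union_left _ fun b hb => ⟨hb.1, hb.2.1.1, hb.2.2⟩),
          loop_card ha hcard fun b hb => ⟨by_contra fun h4 => hb.2 ⟨hb.1, h4⟩, (h1 hb.1).2⟩⟩
        rintro b rfl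
        exact ⟨hax ▸ hxY, fun h4 => h4.elim (fun h5 => haF h5.1) fun h5 => h5.2 ha⟩) hq
    rw [sdiff_sdiff_left] at k5 k10 k11
    refine ⟨{a} ∪ A', W', l', (finite_singleton a).union k1, ?_, k3, k4, k5, k6, k7, k8, k9, k10,
      k11⟩
    rintro b (rfl | hb)
    · exact ⟨hax, haF, haK, haD.2, haY⟩
    · exact k2 b hb
  · push Not at hq
    obtain ⟨w, hw1, hq⟩ := hq
    obtain ⟨W1, q1, q2, q3, q4⟩ := (HW w hw1).coloop hD (hWn w hw1).1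
      (hax ▸ (hWn w hw1).2.symm) hq
    rw [hax] at q2
    obtain ⟨l1, p1, p2, p3, p4, p5, p6⟩ := H.layer hD q2
    have hta : t a ∉ l1.Y := fun h1 => q3 (p4 ▸ p6.YW h1 : t a ∈ l.W ∩ W1).2
    obtain ⟨A', W', l', k1, k2, k3, k4, k5, k6, k7, k8, k9, k10, k11⟩ :=
      ih d (Nat.lt_succ_self d) D l1 hD p6 (by
        rw [p2]
        exact HT.shrink p5 Subset.rfl fun b hb => ⟨hb, hb.2.1⟩) (by
        rw [p2]
        intro J h1 h2 h3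
        refine ⟨J \ (A \ {a}), sdiff_subset, (((hJ J h1 h2 h3).shrink p5 Subset.rfl fun b hb =>
          ⟨hb, hb.elim (fun h4 => h4.2.2) fun h4 => h3 b h4.1⟩).add (hd.mono_left p5)
            (S := {a}) ?_).mono Subset.rfl ?_,
          loop_card ha hcard fun b hb => by_contra fun h4 => hb.2 ⟨hb.1, h4⟩⟩
        · rintro b rfl
          exact ⟨haD, hax, hta, fun h4 => hloop b (h4.trans hax.symm)⟩
        · rintro b (hb | hb)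
          · exact Or.inl (Or.inl hb)
          · by_cases h4 : b = a
            · exact Or.inr h4
            · exact Or.inl (Or.inr ⟨hb.1, fun h5 => hb.2 ⟨h5, h4⟩⟩)) HW
    refine ⟨A', W1 ∩ W', l', k1, fun b hb => ?_, fun h1 => q1 h1.1, ⟨q2, k4⟩,
      (q4.delete fun b hb => (k2 b hb).1 ▸ q2).inter k5 q1, p1.trans k6, k7.trans p2,
      k8.trans p3, by rw [k9, p4, inter_assoc], k10, k11⟩
    obtain ⟨h1, h2, h3, h4, h5⟩ := k2 b hb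
    exact ⟨h1, h2, h3, p2 ▸ h4, p5 h5⟩

/-- Activation. -/
theorem exists_ainv (hD : D.Countable) (hxr : x ≠ r) (H : QL t h F D (Out r {x}) x) :
    ∃ l : Loc V E, AInv t h r F D x l ∧ l.Φ = ∅ ∧ l.Ψ = ∅ ∧ l.W = {v | v ≠ r} ∧
      ∀ X ⊆ Out r {x}, ∀ U M, Wave t h r D {x} X U M → LS (Sm F) h X U → X ⊆ l.Y0 := by
  obtain ⟨Y, hY, U, M, hw, hl, hb, hm⟩ := exists_bubble_in (t := t) (h := h) (r := r) hD F
    (Ω := {v | v ≠ r}) (fun h1 => h1 rfl) (x := x) hxr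
  refine ⟨⟨Y, Y, {v | v ≠ r}, ∅, fun _ _ => False, ∅, fun _ _ => False⟩,
    ⟨⟨Subset.rfl, hw.rY, fun h1 => hw.dis h1 rfl, hY, hxr, fun h1 => h1 rfl,
      (link_empty _ _ _).toFF, fun _ ha => ha.elim, (link_empty _ _ _).toFF, fun _ ha => ha.elim,
      fun _ ha => ha.elim, fun _ _ => Iff.rfl, ⟨∅, fun _ _ => False, ?_, fun y hy => ?_⟩,
      ⟨U, M, ?_, hl⟩, ?_⟩, ?_⟩, rfl, rfl, rfl, fun X hX => hm X fun v hv => (hX hv).1⟩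
  · simpa using wave_empty t h r D ({x} ∪ Y)
  · exact (hy.2 hy.1).elim
  · simpa using hw
  · simpa using hb
  · simpa using H.shrink fun v hv => ⟨hY hv, hw.dis hv⟩

/-- The invariant of a supplied set with frozen paths. -/
structure SInv (t h : E → V) (r : V) (D : Set E) (W : Set V) (Φ : Set E) (N : E → E → Prop) :
    Prop where
  rW : r ∉ W
  ff : FF h t (Out r W) Φ N
  tW : ∀ a ∈ Φ, t a ∉ W
  sup : Sup t h r (D \ Φ) W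

theorem SInv.freeze {W : Set V} {Φ : Set E} {N : E → E → Prop} (H : SInv t h r D W Φ N) {b : E}
    (hb : b ∈ Del t h D W) :
    ∃ P N', P ⊆ D ∧ P.Finite ∧ SInv t h r D W (Φ ∪ P) N' ∧ N ≤ N' ∧ b ∈ Φ ∪ P := by
  by_cases hΦ : b ∈ Φ
  · exact ⟨∅, N, empty_subset _, finite_empty, by rwa [union_empty], le_rfl, Or.inl hΦ⟩
  obtain ⟨U, M, h1, h2, h3, -⟩ := LL.link H.sup (out_disjoint r W) fun a ha => ha.2.1
  obtain ⟨C, -, -, c1, c2, c3, c4, -⟩ := h2.comp (h3 ⟨⟨hb.1, hΦ⟩, hb.2⟩)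
  refine ⟨C, fun a b => N a b ∨ (M a b ∧ a ∈ C), fun a ha => (h1.sub (c2 ha)).1, c3,
    ⟨H.rW, H.ff.union (h2.sub c2 c4).toFF (disjoint_left.2 fun a h4 h5 => (h1.sub (c2 h5)).2 h4),
      fun a ha => ha.elim (H.tW a) fun h4 => h1.tB (c2 h4), U \ C, _,
      (h1.sdiff h2 c4).1.mono fun a ha =>
        ⟨(h1.sub ha.1).1, fun h4 => h4.elim (h1.sub ha.1).2 ha.2⟩,
      fun a ha => ⟨h3 ⟨⟨ha.1.1, fun h4 => ha.1.2 (Or.inl h4)⟩, ha.2⟩,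
        fun h4 => ha.1.2 (Or.inr h4)⟩⟩, fun _ _ h4 => Or.inl h4, Or.inr c1⟩

theorem SInv.reserve (hD : D.Countable) {W : Set V} {Φ : Set E} {N : E → E → Prop}
    (H : SInv t h r D W Φ N) (y : V) :
    ∃ K : Set E, K.Finite ∧ ∀ A : Set E, A.Finite → (∀ a ∈ A, h a = y ∧ a ∉ K) →
      SInv t h r (D \ A) W Φ N := by
  obtain ⟨K, h1, h2⟩ := LL.reserve (hD.mono sdiff_subset) H.sup (out_disjoint r W)
    (fun h1 => h1.1 rfl) H.rW y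
  refine ⟨K, h1, fun A h3 h4 => ⟨H.rW, H.ff, H.tW, ?_⟩⟩
  rw [sdiff_right_comm]
  exact h2 A h3 h4

end Pool.Agent.P.MP_133cc4_co
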