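import Pool.Agent.P.MP_133cc4_co.Defs

/-! Edge-connectivity as a cardinal. -/

namespace Pool.Agent.P.MP_133cc4_co

universe u

/-- The supremum of the sizes of families of pairwise edge-disjoint paths from `x` to `y`
in the whole digraph. -/
noncomputable def lam {V : Type*} {E : Type u} (tail head : E → V) (x y : V) : Cardinal.{u} :=
  ⨆ Fam : {Fam : Set (Set E) // PathFamily tail head x y Set.univ Fam}, Cardinal.mk Fam.1

end Pool.Agent.P.MP_133cc4_co
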