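import Pool.Agent.P.MP_133cc4_co.ULayer

/-! Every flame extends to a large flame when all connectivities from the root are countable. -/

namespace Pool.Agent.P.MP_133cc4_co

open Set Function Relation

variable {V E : Type*} {t h : E → V} {r : V}

theorem large_flame_conn (hr : ∀ e, h e ≠ r) (hloop : ∀ e, t e ≠ h e)
    (hc : ∀ v, v ≠ r → ∀ Fam, PathFamily t h r v univ Fam → Fam.Countable)
    {F : Set E} (hF : IsFlame t h r F) :
    ∃ L, F ⊆ L ∧ IsFlame t h r L ∧ IsLarge t h r L := by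
  have cnt : ∀ L : Set E, (∀ x, x ≠ r → Lk t h r L {x} {a | a ∈ L ∧ h a = x}) →
      ∀ x, {a | a ∈ L ∧ h a = x}.Countable := by
    intro L hL x
    by_cases hx : x = r
    · exact countable_empty.mono fun a ha => hr a (ha.2.trans hx)
    · exact (hL x hx).countable hx (hc x hx) fun a ha => ha.2
  let Good : Set V × Set E → Prop := fun p => (∀ a ∈ p.2, h a ∈ p.1) ∧
    (∀ a ∈ F, h a ∈ p.1 → a ∈ p.2) ∧
    (∀ x ∈ p.1, x ≠ r → Lk t h r p.2 {x} {a | a ∈ p.2 ∧ h a = x}) ∧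
    ∀ L : Set E, (∀ a, h a ∈ p.1 → (a ∈ p.2 ↔ a ∈ L)) → ∀ e, h e ∈ p.1 → e ∉ p.2 → Just t h r L e
  let R : {p // Good p} → {p // Good p} → Prop := fun p q =>
    p.1.1 ⊆ q.1.1 ∧ ∀ a, h a ∈ p.1.1 → (a ∈ p.1.2 ↔ a ∈ q.1.2)
  have : Nonempty {p // Good p} := ⟨⟨(∅, ∅), fun _ h1 => h1.elim,
    fun _ _ h1 => h1.elim, fun _ h1 => h1.elim, fun _ _ _ h1 => h1.elim⟩⟩
  obtain ⟨⟨⟨A, L⟩, g2, g3, g4, g5⟩, hmax⟩ := exists_maximal_of_nonempty_chains_bounded (r := R)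
    (by
      intro C hC _
      have key : ∀ p ∈ C, ∀ a, h a ∈ p.1.1 → (a ∈ p.1.2 ↔ a ∈ ⋃ q ∈ C, q.1.2) := by
        intro p hp a ha
        refine ⟨fun h1 => mem_biUnion hp h1, fun h1 => ?_⟩
        obtain ⟨q, hq, h2⟩ := mem_iUnion₂.1 h1
        by_cases hpq : p = q
        · exact hpq ▸ h2
        rcases hC hp hq hpq with h3 | h3
        · exact (h3.2 a ha).2 h2
        · exact (h3.2 a (q.2.1 a h2)).1 h2
      refine ⟨⟨(⋃ q ∈ C, q.1.1, ⋃ q ∈ C, q.1.2), ?_, ?_, ?_, ?_⟩,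
        fun p hp => ⟨subset_biUnion_of_mem (u := fun q : {p // Good p} => q.1.1) hp, key p hp⟩⟩
      · intro a h1
        obtain ⟨q, hq, h2⟩ := mem_iUnion₂.1 h1
        exact mem_biUnion hq (q.2.1 a h2)
      · intro a ha h1
        obtain ⟨q, hq, h2⟩ := mem_iUnion₂.1 h1
        exact mem_biUnion hq (q.2.2.1 a ha h2)
      · intro x h1 hx
        obtain ⟨q, hq, h2⟩ := mem_iUnion₂.1 h1
        exact (q.2.2.2.1 x h2 hx).mono
          (subset_biUnion_of_mem (u := fun q : {p // Good p} => q.1.2) hq)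
          fun a ha => ⟨(key q hq a (ha.2 ▸ h2)).2 ha.1, ha.2⟩
      · intro L hL e h1 h3
        obtain ⟨q, hq, h2⟩ := mem_iUnion₂.1 h1
        exact q.2.2.2.2 L (fun a ha => (key q hq a ha).trans (hL a (mem_biUnion hq ha))) e h2
          fun h4 => h3 (mem_biUnion hq h4))
    (fun h1 h2 => ⟨h1.1.trans h2.1, fun a ha => (h1.2 a ha).trans (h2.2 a (h1.1 ha))⟩)
  dsimp only at g2 g3 g4 g5
  have hA : ∀ v, v ∈ A := by
    intro v
    have hF' : ∀ x, x ≠ r → Lk t h r (F ∪ L) {x} {a | a ∈ F ∪ L ∧ h a = x} := by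
      intro x hx
      by_cases hxA : x ∈ A
      · exact (g4 x hxA hx).mono subset_union_right
          fun a ha => ⟨ha.1.elim (fun h1 => g3 a h1 (ha.2 ▸ hxA)) id, ha.2⟩
      · exact (hF.lk x hx).mono subset_union_left
          fun a ha => ⟨ha.1.resolve_right fun h1 => hxA (ha.2 ▸ g2 a h1), ha.2⟩
    obtain ⟨C, L', hvC, k1, k2, k3, k4⟩ := layer (t := t) (F := F ∪ L)
      (G := {a | h a ∈ A → a ∈ L}) hr hloop (fun x hx => not_str hx (hc x hx))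
      (union_subset g3 fun a ha _ => ha) hF' (cnt _ hF') v
    have e1 : ∀ a, h a ∈ A → (a ∈ L ↔ a ∈ L ∪ L') := fun a ha =>
      ⟨Or.inl, fun h1 => h1.elim id fun h2 => (k1 a h2).1 ha⟩
    have e2 : ∀ a, h a ∈ C → (a ∈ L' ↔ a ∈ L ∪ L') := fun a ha =>
      ⟨Or.inr, fun h1 => h1.elim (fun h2 => k2 a (Or.inr h2) ha) id⟩
    refine (hmax ⟨(A ∪ C, L ∪ L'), ?_, ?_, ?_, ?_⟩ ⟨subset_union_left, e1⟩).1 (Or.inr hvC)
    · exact fun a ha => ha.imp (g2 a) fun h1 => (k1 a h1).2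
    · exact fun a ha h1 => h1.imp (g3 a ha) (k2 a (Or.inl ha))
    · rintro x (h1 | h1) hx
      · exact (g4 x h1 hx).mono subset_union_left fun a ha => ⟨(e1 a (ha.2 ▸ h1)).2 ha.1, ha.2⟩
      · exact (k3 x hx).mono subset_union_right fun a ha => ⟨(e2 a (ha.2 ▸ h1)).2 ha.1, ha.2⟩
    · intro L2 hL2 e h1 h2
      have h4 : ∀ a, h a ∈ A → (a ∈ L ↔ a ∈ L2) := fun a ha => (e1 a ha).trans (hL2 a (Or.inl ha))
      by_cases h3 : h e ∈ A
      · exact g5 L2 h4 e h3 fun h5 => h2 (Or.inl h5)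
      · exact k4 L2 (fun a ha h5 => (h4 a h5).2 ha)
          (fun a ha => ((e2 a ha).trans (hL2 a (Or.inr ha))).symm) e (fun h5 => (h3 h5).elim)
          (h1.resolve_left h3) fun h5 => h2 (Or.inr h5)
  have hL := fun x hx => g4 x (hA x) hx
  exact ⟨L, fun a ha => g3 a ha (hA _), isFlame_of_lk hL,
    isLarge_of_just (cnt L hL) fun e => g5 L (fun _ _ => Iff.rfl) e (hA _)⟩

end Pool.Agent.P.MP_133cc4_co
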