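import Pool.Agent.P.MP_133cc4_co.AMain
import Pool.Agent.P.MP_133cc4_co.UFinal
import Pool.Agent.P.MP_133cc4_co.LDefs

/-! Connectivity as a cardinal, cuts, and counting lemmas. -/

namespace Pool.Agent.P.MP_133cc4_co

open Set Function Relation Cardinal

universe u

variable {V : Type*} {E : Type u}

/-- Reachability inside a set of edges. -/
abbrev Rch (t h : E → V) (S : Set E) : V → V → Prop :=
  ReflTransGen fun u v => ∃ e ∈ S, t e = u ∧ h e = v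

variable {t h : E → V} {r x y w : V} {G S S' T U Z L : Set E} {B I Y : Set V} {M : E → E → Prop}

theorem Rch.mono (H : Rch t h S x y) (hS : S ⊆ S') : Rch t h S' x y := by
  induction H with
  | refl => exact ReflTransGen.refl
  | tail _ h1 ih =>
    obtain ⟨e, he, h2⟩ := h1
    exact ReflTransGen.tail ih ⟨e, hS he, h2⟩

theorem Walk.rch {p : List E} (H : Walk t h x p y) : Rch t h {e | e ∈ p} x y := by
  induction H with
  | nil => exact ReflTransGen.refl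
  | cons e p v _ ih =>
    exact ReflTransGen.head ⟨e, List.mem_cons_self, rfl, rfl⟩
      (Rch.mono ih fun a ha => List.mem_cons_of_mem _ ha)

theorem IsPath.meet {P : Set E} (H : IsPath t h x y P) (hn : ¬ Rch t h Sᶜ x y) :
    ∃ a ∈ P, a ∈ S := by
  obtain ⟨p, h1, -, rfl⟩ := H
  by_contra k
  exact hn (h1.rch.mono fun a ha j => k ⟨a, ha, j⟩)

theorem fam_le {Fam : Set (Set E)} (H : PathFamily t h x y G Fam) (hn : ¬ Rch t h Sᶜ x y) :
    #Fam ≤ #S := by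
  choose f h1 h2 using fun P : Fam => (H.1 P P.2).1.meet hn
  refine mk_le_of_injective (f := fun P => (⟨f P, h2 P⟩ : S)) fun P Q k => ?_
  by_contra j
  exact disjoint_left.1 (H.2 P.2 Q.2 fun i => j (Subtype.ext i)) (h1 P)
    ((Subtype.mk.inj k).symm ▸ h1 Q)

theorem rch_of_lam (hZ : #Z < lam t h x y) : Rch t h Zᶜ x y :=
  by_contra fun k => hZ.not_ge (ciSup_le' fun P => fam_le P.2 k)

theorem cut_of_lam (hxy : x ≠ y) : ∃ S : Set E, #S ≤ max ℵ₀ (lam t h x y) ∧ ¬ Rch t h Sᶜ x y := by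
  obtain ⟨P, hP⟩ := zorn_subset {P | PathFamily t h x y univ P} (by
    intro c h1 h2
    refine ⟨⋃₀ c, ⟨fun p ⟨P, h3, h4⟩ => (h1 h3).1 p h4, ?_⟩, fun P h3 => subset_sUnion_of_mem h3⟩
    exact (pairwiseDisjoint_sUnion h2.directedOn).2 fun P h3 => (h1 h3).2)
  refine ⟨⋃₀ P, ?_, fun k => ?_⟩
  · rw [sUnion_eq_iUnion]
    refine mk_iUnion_le' (le_max_left _ _) (le_max_of_le_right (le_ciSup
      (f := fun Fam : {Fam : Set (Set E) // PathFamily t h x y univ Fam} => Cardinal.mk Fam.1)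
      bddAbove_of_small ⟨P, hP.1⟩)) fun p => le_max_of_le_left ?_
    obtain ⟨q, -, -, k⟩ := (hP.1.1 p p.2).1
    rw [k]
    exact (List.finite_toSet q).lt_aleph0.le
  obtain ⟨q, h2, h3, h4⟩ := exists_path k
  obtain ⟨e, h5, -⟩ := h2.cross (B := {y}) hxy rfl
  refine h4 e h5 ⟨{e | e ∈ q}, hP.2 (y := insert {e | e ∈ q} P) ⟨?_, ?_⟩
    (subset_insert _ _) (Or.inl rfl), h5⟩
  · rintro p (rfl | hp)
    · exact ⟨⟨q, h2, h3, rfl⟩, subset_univ _⟩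
    · exact hP.1.1 p hp
  · exact hP.1.2.insert fun p hp _ => disjoint_left.2 fun a ha h6 => h4 a ha ⟨p, hp, h6⟩

theorem Rch.split (H : Rch t h S x y) (w : V) :
    Rch t h {e | e ∈ S ∧ h e ≠ w} x y ∨ (Rch t h S x w ∧ Rch t h S w y) := by
  induction H with
  | refl => exact Or.inl ReflTransGen.refl
  | tail h0 h1 ih =>
    obtain ⟨e, he, h2, h3⟩ := h1
    by_cases k : h e = w
    · exact Or.inr ⟨h0.tail ⟨e, he, h2, k⟩, k ▸ h3 ▸ ReflTransGen.refl⟩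
    · exact ih.imp (fun j => j.tail ⟨e, ⟨he, k⟩, h2, h3⟩) fun j => ⟨j.1, j.2.tail ⟨e, he, h2, h3⟩⟩

theorem bubble_all (hJ : ∀ e, e ∉ L → Just t h r L e) (hx : x ≠ r) :
    ∃ Y U M, Wave t h r L {x} Y U M ∧ (∀ e, h e ∈ {x} ∪ Y → t e ∉ {x} ∪ Y → e ∈ L) ∧
      Lk t h r L ({x} ∪ Y) (Del t h L ({x} ∪ Y)) := by
  obtain ⟨Y, U, M, h1, -, -, h3⟩ := exists_max_ws t h r L {x}
  refine ⟨Y, U, M, h1, fun e h4 h5 => ?_, lk_of_not_hd
    (fun h4 => h4.elim (fun h5 => hx h5.symm) h1.rY) (not_hd_of_loose h3)⟩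
  by_contra h6
  obtain ⟨Y', U', M', h7, h8⟩ := hJ e h6
  obtain ⟨U'', M'', h9, -⟩ := h7.enlarge (B' := {x} ∪ Y) (singleton_subset_iff.2 h4)
  exact (h3 _ ⟨_, _, h9⟩ ▸ (⟨h8, h5⟩ : t e ∈ Y' \ ({x} ∪ Y)) : t e ∈ (∅ : Set V))

theorem isLarge_of_just' (hJ : ∀ e, e ∉ L → Just t h r L e) : IsLarge t h r L := by
  intro x hx
  obtain ⟨Y, U, M, h1, h2, h3⟩ := bubble_all hJ hx
  obtain ⟨Fam, h4, h5, -, h6⟩ := family_of_bubble hx h1 (fun a ha => ha.2.1) h3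
  refine ⟨Fam, _, h4, ?_, h5, fun P hP => ?_⟩
  · rintro P ⟨p, h7, -, rfl⟩
    obtain ⟨e, h8, h9, h10⟩ := h7.cross (B := {x} ∪ Y)
      (fun h5 => h5.elim (fun h6 => hx h6.symm) h1.rY) (Or.inl rfl)
    exact ⟨e, h8, h2 e h10 h9, h10, h9⟩
  · obtain ⟨c, h7, h8, h9⟩ := h6 P hP
    exact ⟨c, ⟨h8, h7⟩, fun a ha => h9 a ha.1 ha.2.2.2 ha.2.2.1⟩

theorem IsLarge.conn (H : IsLarge t h r L) (hy : y ≠ r) (hZ : #Z < lam t h r y) :
    Rch t h (L \ Z) r y := by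
  obtain ⟨Fam, C, h1, h2, h3, h4⟩ := H y hy
  by_contra hn
  have h5 : #C ≤ #Fam := by
    choose P k1 k2 using fun c : C => h3 c.2
    exact mk_le_of_injective (f := fun c => (⟨P c, k1 c⟩ : Fam)) fun c d k => Subtype.ext
      ((h4 _ (k1 c)).unique ⟨k2 c, c.2⟩ ⟨(Subtype.mk.inj k).symm ▸ k2 d, d.2⟩)
  have h6 : #Fam ≤ #Z := by
    have : ∀ P : Fam, ∃ a ∈ P.1, a ∈ Z := fun P => by
      obtain ⟨a, k1, k2⟩ := (h1.1 P P.2).1.meet (S := (L \ Z)ᶜ) (by rwa [compl_compl])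
      exact ⟨a, k1, by_contra fun k => k2 ⟨(h1.1 P P.2).2 k1, k⟩⟩
    choose f k1 k2 using this
    refine mk_le_of_injective (f := fun P => (⟨f P, k2 P⟩ : Z)) fun P Q k => ?_
    by_contra j
    exact disjoint_left.1 (h1.2 P.2 Q.2 fun i => j (Subtype.ext i)) (k1 P)
      ((Subtype.mk.inj k).symm ▸ k1 Q)
  obtain ⟨q, k1, k2, k3⟩ := exists_path (rch_of_lam ((h5.trans h6).trans_lt hZ))
  obtain ⟨a, k4, k5⟩ := h2 _ ⟨q, k1, k2, rfl⟩
  exact k3 a k4 k5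

theorem lk_single {a : E} (hx : x ≠ r) (haG : a ∈ G) (hax : h a = x)
    (H : Rch t h {e | e ∈ G ∧ h e ≠ x} r (t a)) : Lk t h r G {x} {a} := by
  have key : ∀ W : Set V, (∀ e ∈ G, h e ≠ x → t e ≠ x → h e ∈ W → t e ∈ W) →
      ∀ v, Rch t h {e | e ∈ G ∧ h e ≠ x} r v → v ≠ x ∧ (v ∈ W → r ∈ W) := by
    intro W hW v hv
    induction hv with
    | refl => exact ⟨hx.symm, id⟩
    | tail _ h1 ih =>
      obtain ⟨e, he, rfl, rfl⟩ := h1
      exact ⟨he.2, fun k => ih.2 (hW e he.1 he.2 ih.1 k)⟩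
  have hat := (key univ (fun _ _ _ _ _ => trivial) _ H).1
  rcases (link_empty h t {v | v ≠ r ∧ v ∉ ({x} : Set V)}).augment
    (G := insert a {e | e ∈ G ∧ h e ≠ x ∧ t e ≠ x}) (empty_subset _)
    (c := a) (Or.inl rfl) (fun h1 => h1) (fun h1 => h1.2 hax) with
    ⟨P, N, e, h1, h2, -, h4, -⟩ | ⟨W, hW, h1, h2, -⟩
  · exact ⟨P, N, h1.toFF, h2.trans (insert_subset haG fun _ k => k.1),
      fun b hb => (h2 hb).elim (fun k => k ▸ hat) fun k => k.2.2,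
      singleton_subset_iff.2 ((h4 a fun h5 => h5.2 hax).2 (Or.inr rfl))⟩
  · exact ((hW ((key W (fun e k1 k2 k3 => h2 e (Or.inr ⟨k1, k2, k3⟩) id) _ H).2 h1)).1 rfl).elim

theorem lk_iUnion {ι : Type*} {S T : ι → Set E} (H : ∀ i, Lk t h r (S i) B (T i))
    (hd : ∀ i j a, a ∈ S i → a ∈ S j → i = j) : Lk t h r (⋃ i, S i) B (⋃ i, T i) := by
  choose U M h4 h5 h6 h7 using H
  refine ⟨_, _, FF.iUnion h4 fun i j a k1 k2 => hd i j a (h5 i k1) (h5 j k2), iUnion_mono h5,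
    fun a ha => ?_, iUnion_mono h7⟩
  obtain ⟨i, k⟩ := mem_iUnion.1 ha
  exact h6 i a k

theorem mk_fin_union {ι : Type u} {f : ι → Set E} (hf : ∀ i, (f i).Finite) :
    #(⋃ i, f i) ≤ max ℵ₀ #ι :=
  mk_iUnion_le' (le_max_left _ _) (le_max_right _ _) fun i => le_max_of_le_left (hf i).lt_aleph0.le

theorem ext_paths {θ : Cardinal.{u}} (hθ : ℵ₀ < θ) {ι : Type u} (hι : #ι < θ) {X : Set E}
    (hX : #X < θ) {y : ι → V} (H : ∀ i (Z : Set E), #Z < θ → Rch t h (G \ Z) r (y i)) :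
    ∃ Q : ι → Set E, (∀ i, Q i ⊆ G \ X ∧ Rch t h (Q i) r (y i)) ∧
      ∀ i j a, a ∈ Q i → a ∈ Q j → i = j := by
  obtain ⟨_, _⟩ := exists_wellFoundedLT (α := ι)
  obtain ⟨Q, hQ⟩ := trec_inv (ι := ι) (S := Set E) (fun i g s => s.Finite ∧ s ⊆ G \ X ∧
    Rch t h s r (y i) ∧ ∀ j, ∀ a ∈ s, a ∉ g j) (by
      intro i f ih
      obtain ⟨q, k1, -, k3⟩ := exists_path (H i (X ∪ ⋃ j : Iio i, f j) (mk_union_lt hθ.le hX
        ((mk_fin_union fun j : Iio i => (ih j j.2).1).trans_lt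
          (max_lt hθ ((mk_set_le _).trans_lt hι)))))
      exact ⟨{e | e ∈ q}, List.finite_toSet q, fun a ha => ⟨(k3 a ha).1,
        fun k => (k3 a ha).2 (Or.inl k)⟩, k1.rch,
        fun j a ha k => (k3 a ha).2 (Or.inr (mem_iUnion.2 ⟨j, k⟩))⟩)
  refine ⟨Q, fun i => ⟨(hQ i).2.1, (hQ i).2.2.1⟩, fun i j a k1 k2 => ?_⟩
  rcases lt_trichotomy i j with k | k | k
  · exact ((hQ j).2.2.2 ⟨i, k⟩ a k2 k1).elim
  · exact k
  · exact ((hQ i).2.2.2 ⟨j, k⟩ a k1 k2).elim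

theorem Mat.sep (H : Mat h t I U M) {a b c : E} (ha : h a ∉ I) (hb : h b ∉ I)
    (h1 : ReflTransGen M a c) (h2 : ReflTransGen M b c) : a = b :=
  (H.total' h1 h2).elim (fun k => H.eq_of_source k hb) fun k => (H.eq_of_source k ha).symm

/-- Prolonging a small system back to the root. -/
theorem lk_ext {θ : Cardinal.{u}} (hθ : ℵ₀ < θ) (hx : x ≠ r) (hxI : x ∉ I)
    (H : LL t h univ G I {x} T) (hT : ∀ a ∈ T, h a = x) (hc : #T < θ)
    (hy : ∀ y, y ∉ I → y ≠ x → ∀ Z : Set E, #Z < θ → Rch t h {e | e ∈ G \ Z ∧ h e ≠ x} r y) :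
    Lk t h r G {x} T := by
  obtain ⟨U, M, h1, h2⟩ := H
  choose z k1 k2 k3 using fun a : T => h1.ff.exists_end (h2 a.2)
  let C : T → Set E := fun a => {b | ReflTransGen M a b}
  obtain ⟨Q, k4, k5⟩ := ext_paths (t := t) (h := h) (r := r) (G := {e | e ∈ G ∧ h e ≠ x}) hθ hc
    ((mk_fin_union (f := C) fun a => h1.ff.finite_fwd a).trans_lt (max_lt hθ hc))
    (y := fun a => t (z a)) fun a Z k =>
      (hy _ (k3 a) (h1.tB (k2 a)) Z k).mono fun e j => ⟨⟨j.1.1, j.2⟩, j.1.2⟩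
  have back : ∀ (a : T) b, ReflTransGen M a b →
      Rch t h {e | e ∈ Q a ∪ C a ∧ h e ≠ x} (t b) (t a) := by
    intro a b hab
    induction hab with
    | refl => exact ReflTransGen.refl
    | tail j1 j2 ih =>
      exact ReflTransGen.head ⟨_, ⟨Or.inr (j1.tail j2),
        fun k => hxI (k ▸ h1.ff.toMat.int' j2)⟩, rfl, (h1.ff.adj j2).symm⟩ ih
  refine (lk_iUnion (S := fun a => Q a ∪ C a) (T := fun a : T => {a.1})
    (fun a => lk_single hx (Or.inr ReflTransGen.refl) (hT a a.2) (ReflTransGen.trans (Rch.mono (k4 a).2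
      fun e j => And.intro (Or.inl j) ((k4 a).1 j).1.2) (back a _ (k1 a)))) ?_).mono
    (iUnion_subset fun a => union_subset (fun e j => ((k4 a).1 j).1.1)
      fun e j => h1.sub (h1.ff.toMat.rtg_mem j (h2 a.2))) fun a ha => mem_iUnion.2 ⟨⟨a, ha⟩, rfl⟩
  rintro a b e (j1 | j1) (j2 | j2)
  · exact k5 a b e j1 j2
  · exact (((k4 a).1 j1).2 (mem_iUnion.2 ⟨b, j2⟩)).elim
  · exact (((k4 b).1 j2).2 (mem_iUnion.2 ⟨a, j1⟩)).elim
  · exact Subtype.ext (h1.ff.toMat.sep (hT a a.2 ▸ hxI) (hT b b.2 ▸ hxI) j1 j2)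

theorem LL.cnt (H : LL t h univ G I {x} T) (hxI : x ∉ I) (hT : ∀ a ∈ T, h a = x)
    (hy : ∀ y, y ∉ I → y ≠ x → ¬ Rch t h Sᶜ y x) : #T ≤ #S := by
  obtain ⟨U, M, h1, h2⟩ := H
  have : ∀ a : T, ∃ b ∈ S, ReflTransGen M a b := fun a => by
    obtain ⟨z, k1, k2, k3⟩ := h1.ff.exists_end (h2 a.2)
    by_contra k
    refine hy _ k3 (h1.tB k2) ?_
    have := h1.ff.toMat.reach' k1 (S := Sᶜ) fun b j i => k ⟨b, i, j⟩
    rwa [hT a a.2] at this
  choose f k1 k2 using this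
  exact mk_le_of_injective (f := fun a => (⟨f a, k1 a⟩ : S)) fun a b k => Subtype.ext
    (h1.ff.toMat.sep (hT a a.2 ▸ hxI) (hT b b.2 ▸ hxI) (k2 a) ((Subtype.mk.inj k).symm ▸ k2 b))

theorem Link.card_le (H : Link t h Y U M) {W : Set E}
    (hW : ∀ a ∈ W, ∃ b ∈ S, ReflTransGen M a b) : #W ≤ max ℵ₀ #S :=
  (mk_le_mk_of_subset fun a ha => by
    obtain ⟨b, k1, k2⟩ := hW a ha
    exact mem_iUnion.2 ⟨⟨b, k1⟩, k2.swap⟩).trans
    (mk_fin_union (f := fun b : S => {a | ReflTransGen (swap M) b a}) fun b => H.bf.finite_fwd b)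

/-- A system ending in `w`. -/
def Ends (t h : E → V) (w : V) (K : Set E) : Prop :=
  #K ≤ max ℵ₀ #{a | a ∈ K ∧ h a = w} ∧
    ∀ y (S : Set E), ¬ Rch t h Sᶜ y w → #{a | a ∈ K ∧ h a = y} ≤ max ℵ₀ #S

theorem Link.ends (H : Link t h Y U M) (hw : ∀ a ∈ U, h a ∉ Y → h a = w) : Ends t h w U := by
  refine ⟨H.card_le fun a ha => ?_, fun y S hn => H.card_le fun a ha => ?_⟩
  · obtain ⟨z, k1, k2, k3⟩ := H.toFF.exists_end ha
    exact ⟨z, ⟨k2, hw z k2 k3⟩, k1⟩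
  · obtain ⟨z, k1, k2, k3⟩ := H.toFF.exists_end ha.1
    by_contra k
    refine hn ?_
    have := H.toMat.reach k1 (S := Sᶜ) fun b j i => k ⟨b, i, j⟩
    rwa [ha.2, hw z k2 k3] at this

theorem Ends.union {K K' : Set E} (H : Ends t h w K) (H' : Ends t h w K') : Ends t h w (K ∪ K') :=
  ⟨mk_union_le' (le_max_left _ _)
    (H.1.trans (max_le_max le_rfl (mk_le_mk_of_subset fun _ k => ⟨Or.inl k.1, k.2⟩)))
    (H'.1.trans (max_le_max le_rfl (mk_le_mk_of_subset fun _ k => ⟨Or.inr k.1, k.2⟩))),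
    fun y S hn => (mk_le_mk_of_subset fun _ k => k.1.imp (fun j => And.intro j k.2)
      fun j => And.intro j k.2).trans (mk_union_le' (le_max_left _ _) (H.2 y S hn) (H'.2 y S hn))⟩

end Pool.Agent.P.MP_133cc4_co
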