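import Pool.Agent.P.MP_133cc4_co.LBase

/-! Deciding the in-edges of one vertex inside a region. -/

namespace Pool.Agent.P.MP_133cc4_co

open Set Function Relation Cardinal

universe u

variable {V : Type*} {E : Type u} {t h : E → V} {r x : V} {G J : Set E} {Ω : Set V}

theorem FF.pull {V' : Type*} {t' h' : E → V'} {Y : Set V} {Y' : Set V'} {U : Set E}
    {M : E → E → Prop} (H : FF t h Y U M) (h1 : ∀ a ∈ U, h a ∈ Y ↔ h' a ∈ Y')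
    (h2 : ∀ a b, M a b → h' a = t' b) : FF t' h' Y' U M :=
  ⟨⟨H.meml, H.memr, h2, fun a _ k => (h1 a (H.meml k)).1 (H.int k), H.fn, H.inj⟩,
    fun a ha k => H.tot ha ((h1 a ha).2 k), H.wf⟩

/-- The largest wave inside a region, with a linkage of its boundary inside the region. -/
theorem bubble_in (hr : r ∉ Ω) (hx : x ∈ Ω) :
    ∃ Y ⊆ Ω, ∃ U M, Wave t h r G {x} Y U M ∧
      LL t h univ G (Ω \ ({x} ∪ Y)) ({x} ∪ Y) (Del t h G ({x} ∪ Y)) ∧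
      ∀ X ⊆ Ω, WS t h r G {x} X → X ⊆ Y := by
  have hrx : r ∉ ({x} : Set V) := fun h1 => hr ((mem_singleton_iff.1 h1).symm ▸ hx)
  have hxΩ : ∀ v ∈ ({x} : Set V), v ∈ Ω := fun v hv => (mem_singleton_iff.1 hv).symm ▸ hx
  obtain ⟨Y, U, M, H, -, hmax, hlo⟩ := exists_max_ws (bubT t r Ω) h r {a | a ∈ G ∧ h a ∈ Ω} {x}
  have hrY : r ∉ ({x} : Set V) ∪ Y := fun h1 => h1.elim hrx H.rY
  have hlk := lk_of_not_hd hrY (not_hd_of_loose hlo)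
  refine ⟨Y ∩ Ω, inter_subset_right, U, M, ⟨H.ff.pull
    (fun a ha => ⟨fun k => ⟨k, (H.sub ha).2⟩, fun k => k.1⟩) fun a b hab =>
      (H.ff.adj hab).trans (bub_eq (bub_mem H.rY (H.ff.toMat.int' hab)).1),
    fun a ha => (H.sub ha).1, fun h1 => hr h1.2,
    fun y hy => H.dis hy.1, fun a ha h1 => H.tB ha ((bub_eq (r := r) (hxΩ _ h1)).symm ▸ h1),
    fun a ha => (H.hYB ha).imp_left fun h1 => ⟨h1, (H.sub ha).2⟩, fun a ha h1 h2 h3 =>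
      H.ent ⟨ha, h1.2⟩ h1.1 (fun h4 => h2 (bub_mem H.rY h4).symm) fun h4 => h3 (bub_mem hrx h4).2⟩,
    ?_, fun X hX ⟨U', M', H'⟩ y hy => ⟨?_, hX hy⟩⟩
  · have e : ∀ v, v ∈ ({x} : Set V) ∪ Y ∩ Ω ↔ v ∈ Ω ∧ v ∈ ({x} : Set V) ∪ Y := fun v =>
      ⟨fun h1 => h1.elim (fun h2 => ⟨hxΩ v h2, Or.inl h2⟩) fun h2 => ⟨h2.2, Or.inr h2.1⟩,
        fun h1 => h1.2.imp_right fun h2 => ⟨h2, h1.1⟩⟩
    refine (bub_ll (I := Ω \ ({x} ∪ Y ∩ Ω)) hr e (fun v =>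
      ⟨fun h1 => ⟨h1.1, fun h2 => h1.2 ((e v).2 ⟨h1.1, h2⟩)⟩,
      fun h1 => ⟨h1.1, fun h2 => h1.2 ((e v).1 h2).2⟩⟩) hlk).mono Subset.rfl fun a ha => ?_
    exact ⟨⟨ha.1, ((e _).1 ha.2.1).1⟩, ((e _).1 ha.2.1).2,
      fun h1 => ha.2.2 ((e _).2 (bub_mem hrY h1))⟩
  · refine hmax X ⟨U', M', H'.ff.pull (fun _ _ => Iff.rfl) fun a b hab =>
        (H'.ff.adj hab).trans (bub_eq (hX (H'.ff.toMat.int' hab))).symm,
        fun a ha => ⟨H'.sub ha, (H'.hYB ha).elim (fun h1 => hX h1) (hxΩ _)⟩, H'.rY, H'.dis,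
        fun a ha h1 => H'.tB ha (bub_mem hrx h1).2, H'.hYB, fun a ha h1 h2 h3 =>
          H'.ent ha.1 h1 (fun h4 => h2 ((bub_eq (r := r) (hX h4)).symm ▸ h4))
            fun h4 => h3 ((bub_eq (r := r) (hxΩ _ h4)).symm ▸ h4)⟩ hy

/-- The edge `e` starts in a bubble of its head in the graph `D` that lies in `Ω` and only uses
edges of `Φ`. -/
def JI (t h : E → V) (r : V) (D Φ : Set E) (Ω : Set V) (e : E) : Prop :=
  ∃ Y ⊆ Ω, ∃ U M, Wave t h r D {h e} Y U M ∧ U ⊆ Φ ∧ t e ∈ Y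

variable {D D' Φ Φ' T : Set E} {Ω' : Set V} {e : E}

theorem JI.mono (H : JI t h r D Φ Ω e) (h1 : Φ ⊆ Φ') (h2 : Ω ⊆ Ω') : JI t h r D Φ' Ω' e := by
  obtain ⟨Y, k1, U, M, k2, k3, k4⟩ := H
  exact ⟨Y, k1.trans h2, U, M, k2, k3.trans h1, k4⟩

theorem JI.down (H : JI t h r D Φ Ω e) (h1 : Φ ⊆ D') (h2 : D' ⊆ D) : JI t h r D' Φ Ω e := by
  obtain ⟨Y, k1, U, M, k2, k3, k4⟩ := H
  exact ⟨Y, k1, U, M, k2.regraph (k3.trans h1) fun _ k _ _ _ => h2 k, k3, k4⟩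

theorem JI.just (H : JI t h r univ Φ Ω e) : Just t h r Φ e := by
  obtain ⟨Y, -, U, M, k2, k3, k4⟩ := H
  exact ⟨Y, U, M, k2.regraph k3 fun _ _ _ _ _ => trivial, k4⟩

theorem JI.restr (H : JI t h r D Φ Ω e) (he : h e ∈ Ω')
    (hcl : ∀ a, h a ∈ Ω' → t a ∈ Ω → t a ∈ Ω') : JI t h r D Φ Ω' e := by
  obtain ⟨Y, k1, U, M, k2, k3, k4⟩ := H
  have key : ∀ a ∈ U, h a ∈ Ω' := by
    intro a
    induction a using k2.ff.wf.induction with
    | _ a ih =>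
      intro ha
      rcases k2.hYB ha with k | k
      · obtain ⟨b, hb⟩ := k2.ff.tot ha k
        rw [k2.ff.adj hb]
        exact hcl b (ih b hb (k2.ff.memr hb)) (k1 (k2.ff.toMat.int' hb))
      · exact (mem_singleton_iff.1 k) ▸ he
  exact ⟨Y ∩ Ω', inter_subset_right, U, M, ⟨k2.ff.pull
    (fun a ha => ⟨fun k => ⟨k, key a ha⟩, fun k => k.1⟩) fun a b k => k2.ff.adj k, k2.sub,
    fun k => k2.rY k.1, fun y k => k2.dis k.1, k2.tB,
    fun a ha => (k2.hYB ha).imp_left fun k => ⟨k, key a ha⟩,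
    fun a ha j1 j2 => k2.ent ha j1.1 fun k => j2 ⟨k, hcl a j1.2 (k1 k)⟩⟩, k3, k4, hcl e he (k1 k4)⟩

theorem LL.enl (H : LL t h univ G (Ω' \ {x}) {x} T) (hx : x ∈ Ω') (hsub : Ω' ⊆ Ω)
    (hcl : ∀ a, h a ∈ Ω' → t a ∈ Ω → t a ∈ Ω') : LL t h univ G (Ω \ {x}) {x} T := by
  obtain ⟨U, M, k1, k2⟩ := H
  exact ⟨U, M, ⟨k1.ff.pull (fun a ha => ⟨fun k => ⟨hsub k.1, k.2⟩, fun k => ⟨hcl a
    ((k1.hIB ha).elim (fun j => j.1) fun j => j ▸ hx) k.1, k.2⟩⟩) fun a b k => k1.ff.adj k, k1.sub,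
    k1.tB, fun a ha => (k1.hIB ha).imp_left fun k => ⟨hsub k.1, k.2⟩, ls_univ _ _ _⟩, k2⟩

theorem proc (hloop : ∀ e, t e ≠ h e) (hr : r ∉ Ω) (hx : x ∈ Ω) (hJ : ∀ a ∈ J, h a = x)
    (H : LL t h univ G (Ω \ {x}) {x} J) (hG : G ⊆ D) (hD : ∀ a ∈ G, h a ≠ x → a ∈ D')
    (hj : ∀ e ∈ D, e ∉ G → h e ∈ Ω → JI t h r D' G Ω e) :
    ∃ K ⊆ G, J ⊆ K ∧ (∀ a ∈ K, h a ∈ Ω) ∧ LL t h univ K (Ω \ {x}) {x} {a | a ∈ K ∧ h a = x} ∧
      (∀ e ∈ D, h e = x → e ∉ K → JI t h r D K Ω e) ∧ Ends t h x K := by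
  obtain ⟨Y, hY, U0, M0, hw, hl, hmax⟩ := bubble_in (t := t) (h := h) (G := G) hr hx
  have hxY : x ∉ Y := fun k => hw.dis k rfl
  have close : ∀ e ∈ D, e ∉ G → h e ∈ {x} ∪ Y → t e ∈ {x} ∪ Y := by
    intro e k0 k1 k2
    obtain ⟨X, j1, U, M, j2, j3, j4⟩ := hj e k0 k1 (k2.elim (fun k => k ▸ hx) fun k => hY k)
    obtain ⟨U', M', j5, j6⟩ := j2.enlarge (B' := {x} ∪ Y) (singleton_subset_iff.2 k2)
    by_contra k
    exact k (Or.inr (hmax _ (union_subset hY (sdiff_subset.trans j1)) ⟨_, _, hw.compose'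
      (j5.regraph (j6.trans j3) fun a ha i _ _ => hD a ha fun l => i.2 (Or.inl l))⟩
      (Or.inr ⟨j4, k⟩)))
  obtain ⟨U, M, hc, hJU⟩ := hw.core (ls_univ _ _ _) (H.shrink (I' := Y)
    (fun y hy => ⟨hY hy, hw.dis hy⟩) Subset.rfl fun a ha => ⟨ha, hJ a ha⟩) hJ
  have h1 := LL.comp (T := {a | a ∈ U ∧ h a = x}) ⟨U, _, hc.bs, fun a ha => ha.1⟩ hl
    (disjoint_left.2 fun y k j => k.2 (Or.inr j)) subset_union_right subset_union_left
    fun a ha k j => ⟨ha, k.symm, j.2⟩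
  have e : Ω \ ({x} ∪ Y) ∪ Y = Ω \ {x} := by
    ext y
    have := @hY y
    have := @hw.dis y
    simp only [mem_union, mem_sdiff]
    tauto
  rw [e] at h1
  obtain ⟨U2, M2, h2, h3, h4, h5⟩ := h1.link disjoint_sdiff_left fun a ha => ha.2
  have h6 : ∀ a ∈ U ∪ U2, h a = x → a ∈ U := fun a ha k =>
    ha.elim id fun j => (h5 a j fun i => i.2 k).1
  refine ⟨U ∪ U2, union_subset hc.sub h2.sub, hJU.trans subset_union_left, ?_,
    ⟨U2, M2, h2.mono subset_union_right, fun a ha => h4 ⟨h6 a ha.1 ha.2, ha.2⟩⟩, ?_,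
    (hc.lk.ends fun a ha k => (hc.hY ha).resolve_left k).union
      (h3.symm.ends fun a ha k => (h5 a ha k).2)⟩
  · rintro a (ha | ha)
    · exact (hc.hY ha).elim (fun k => hY k) fun k => k ▸ hx
    · exact (h2.hIB ha).elim (fun k => k.1) fun k => k ▸ hx
  · intro e k0 k1 k2
    refine ⟨Y, hY, U, M, k1 ▸ (hc.wave hw.rY hxY).regraph (hc.sub.trans hG) fun a j0 j1 j2 j3 =>
      by_contra fun j => (close a j0 j (Or.inr j1)).elim j3 j2, subset_union_left, ?_⟩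
    by_cases k : e ∈ G
    · exact by_contra fun j => k2 (Or.inl (hc.ent k (Or.inr k1) j (k1 ▸ hloop e)))
    · exact (close e k0 k (Or.inl k1)).resolve_left (k1 ▸ hloop e)

/-- Finitely many undecided vertices. -/
theorem fin_solve (hloop : ∀ e, t e ≠ h e) (hr : r ∉ Ω) {W : Set V} (hW : W.Finite) (hΩ : W ⊆ Ω)
    (h1 : Φ ⊆ G) (h2 : G ⊆ D) (h3 : ∀ a ∈ G, h a ∉ W → a ∈ Φ)
    (h4 : ∀ w ∈ W, LL t h univ Φ (Ω \ {w}) {w} {a | a ∈ Φ ∧ h a = w})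
    (h5 : ∀ e ∈ D, e ∉ G → h e ∈ Ω → JI t h r D Φ Ω e) :
    ∃ L, Φ ⊆ L ∧ L ⊆ G ∧ (∀ w ∈ W, LL t h univ L (Ω \ {w}) {w} {a | a ∈ L ∧ h a = w}) ∧
      ∀ e ∈ G, e ∉ L → JI t h r D L Ω e := by
  induction W, hW using Set.Finite.induction_on generalizing D G Φ with
  | empty => exact ⟨Φ, Subset.rfl, h1, fun _ k => k.elim, fun e k j => (j (h3 e k id)).elim⟩
  | @insert x W hxW _ ih =>
    have hΩ' : W ⊆ Ω := (subset_insert _ _).trans hΩ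
    have dn : ∀ e ∈ D, e ∉ G → h e ∈ Ω → JI t h r (D \ {a | h a = x ∧ a ∉ Φ}) Φ Ω e :=
      fun e k1 k2 k3 => (h5 e k1 k2 k3).down (fun a ha => ⟨h2 (h1 ha), fun k => k.2 ha⟩)
        sdiff_subset
    obtain ⟨L1, a1, a2, a3, a4⟩ := ih (D := D \ {a | h a = x ∧ a ∉ Φ})
      (G := G \ {a | h a = x ∧ a ∉ Φ}) hΩ' (fun a ha => ⟨h1 ha, fun k => k.2 ha⟩)
      (sdiff_subset_sdiff_left h2) (fun a ha k => by_contra fun j =>
        j (h3 a ha.1 fun i => i.elim (fun l => ha.2 ⟨l, j⟩) k)) (fun w k => h4 w (Or.inr k))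
      fun e k1 k2 => dn e k1.1 fun k => k2 ⟨k, k1.2⟩
    obtain ⟨K, b1, b2, -, b3, b4, -⟩ := proc (G := L1 ∪ {a | a ∈ G ∧ h a = x}) (D := D)
      (D' := D \ {a | h a = x ∧ a ∉ Φ}) hloop hr (hΩ (Or.inl rfl)) (fun a ha => ha.2)
      ((h4 x (Or.inl rfl)).mono (a1.trans subset_union_left) Subset.rfl)
      (union_subset (fun a ha => h2 (a2 ha).1) fun a ha => h2 ha.1)
      (fun a ha k => ⟨h2 (a2 (ha.resolve_right fun j => k j.2)).1, fun j => k j.1⟩) (by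
        intro e k1 k2 k3
        by_cases k : e ∈ G
        · exact (a4 e ⟨k, fun j => k2 (Or.inr ⟨k, j.1⟩)⟩ fun j => k2 (Or.inl j)).mono
            subset_union_left Subset.rfl
        · exact (dn e k1 k k3).mono (a1.trans subset_union_left) Subset.rfl)
    have c1 : ∀ a ∈ L1, h a = x → a ∈ K := fun a ha k =>
      b2 ⟨by_contra fun j => (a2 ha).2 ⟨k, j⟩, k⟩
    obtain ⟨L, d1, d2, d3, d4⟩ := ih (D := D) (G := G \ {a | h a = x ∧ a ∉ K}) (Φ := L1 ∪ K) hΩ'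
      (union_subset (fun a ha => ⟨(a2 ha).1, fun k => k.2 (c1 a ha k.1)⟩)
        fun a ha => ⟨(b1 ha).elim (fun k => (a2 k).1) fun k => k.1, fun k => k.2 ha⟩)
      (sdiff_subset.trans h2) (fun a ha k => by
        by_cases j : h a = x
        · exact Or.inr (by_contra fun i => ha.2 ⟨j, i⟩)
        · exact Or.inl (a1 (h3 a ha.1 fun i => i.elim j k)))
      (fun w k => (a3 w k).mono subset_union_left fun a ha => ⟨ha.1.elim id fun j =>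
        (b1 j).resolve_right fun i => hxW (i.2 ▸ ha.2 ▸ k), ha.2⟩) (by
        intro e k1 k2 k3
        by_cases k : e ∈ G
        · have j : h e = x ∧ e ∉ K := by_contra fun j => k2 ⟨k, j⟩
          exact (b4 e k1 j.1 j.2).mono subset_union_right Subset.rfl
        · exact (h5 e k1 k k3).mono (a1.trans subset_union_left) Subset.rfl)
    refine ⟨L, a1.trans (subset_union_left.trans d1), d2.trans sdiff_subset, ?_, fun e k1 k2 => ?_⟩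
    · rintro w (rfl | k)
      · exact b3.mono (subset_union_right.trans d1)
          fun a ha => ⟨by_contra fun j => (d2 ha.1).2 ⟨ha.2, j⟩, ha.2⟩
      · exact d3 w k
    · by_cases j : h e = x ∧ e ∉ K
      · exact (b4 e (h2 k1) j.1 j.2).mono (subset_union_right.trans d1) Subset.rfl
      · exact d4 e ⟨k1, j⟩ k2

end Pool.Agent.P.MP_133cc4_co
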