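import Pool.Agent.P.MP_133cc4_co.LProc

/-! One uncountable level. -/

namespace Pool.Agent.P.MP_133cc4_co

open Set Function Relation Cardinal

universe u

variable {V : Type*} {E : Type u}

/-- The level of a vertex. -/
noncomputable def lev (t h : E → V) (r x : V) : Cardinal.{u} := max ℵ₀ (lam t h r x)

/-- The vertices of level at most `κ`. -/
def Om (t h : E → V) (r : V) (κ : Cardinal.{u}) : Set V := {y | y ≠ r ∧ lev t h r y ≤ κ}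

/-- A vertex of uncountable level with few prescribed edges and few paths to its peers. -/
def Thin (t h : E → V) (r : V) (F : Set E) (w : V) : Prop :=
  w ≠ r ∧ ℵ₀ < lam t h r w ∧ #{a | a ∈ F ∧ h a = w} < lam t h r w ∧
    ∀ (J : Type u) (y : J → V), #J < lam t h r w → ∃ μ < lam t h r w,
      ∀ j, y j ≠ w → lam t h r (y j) = lam t h r w → lam t h w (y j) ≤ μ

/-- The in-edges of the vertices of `A` are decided. -/
structure Good (t h : E → V) (r : V) (F : Set E) (A : Set V) (Φ : Set E) : Prop where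
  g1 : F ⊆ Φ
  g2 : ∀ a ∈ Φ, h a ∉ A → a ∈ F
  g3 : ∀ x ∈ A, x ≠ r → LL t h univ Φ (Om t h r (lev t h r x) \ {x}) {x} {a | a ∈ Φ ∧ h a = x}
  g4 : ∀ e, h e ∈ A → e ∉ Φ → JI t h r univ Φ (Om t h r (lev t h r (h e))) e
  g5 : ∀ x, x ∉ A → ℵ₀ < lam t h r x ∧ ∃ e, e ∉ F ∧ h e = x

variable {t h : E → V} {r x y w : V} {F G Φ T L Z : Set E} {A : Set V} {κ : Cardinal.{u}}

theorem lt_lam (hκ : ℵ₀ ≤ κ) (hy : y ≠ r) (H : y ∉ Om t h r κ) : κ < lam t h r y :=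
  not_le.1 fun k => H ⟨hy, max_le hκ k⟩

theorem om_cnt (H : LL t h univ G (Om t h r κ \ {x}) {x} T) (hx : x ∈ Om t h r κ)
    (hT : ∀ a ∈ T, h a = x) : #T ≤ κ := by
  obtain ⟨S, h1, h2⟩ := cut_of_lam (t := t) (h := h) hx.1.symm
  refine (H.cnt (fun k => k.2 rfl) hT fun y k1 k2 k3 => h2 ?_).trans (h1.trans hx.2)
  by_cases k : y = r
  · exact k ▸ k3
  · exact (rch_of_lam ((h1.trans hx.2).trans_lt
      (lt_lam ((le_max_left _ _).trans hx.2) k fun j => k1 ⟨j, k2⟩))).trans k3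

theorem IsLarge.avoid (H : IsLarge t h r L) {S : Set E} (hy : y ≠ r → #(Z ∪ S : Set E) < lam t h r y)
    (hS : ¬ Rch t h Sᶜ r w ∨ ¬ Rch t h Sᶜ w y) : Rch t h {e | e ∈ L \ Z ∧ h e ≠ w} r y := by
  by_cases k : y = r
  · exact k ▸ ReflTransGen.refl
  rcases (H.conn k (hy k)).split w with j | j
  · exact j.mono fun e he => ⟨⟨he.1.1, fun i => he.1.2 (Or.inl i)⟩, he.2⟩
  · exact (hS.elim (fun i => i (j.1.mono fun e he l => he.2 (Or.inr l)))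
      fun i => i (j.2.mono fun e he l => he.2 (Or.inr l))).elim

theorem IsLarge.avoid' (H : IsLarge t h r L) (hw : w ∈ Om t h r κ) (hy : y ∉ Om t h r κ)
    (hZ : #Z ≤ κ) : Rch t h {e | e ∈ L \ Z ∧ h e ≠ w} r y := by
  obtain ⟨S, h1, h2⟩ := cut_of_lam (t := t) (h := h) hw.1.symm
  have hκ : ℵ₀ ≤ κ := (le_max_left _ _).trans hw.2
  exact H.avoid (fun k => (mk_union_le' hκ hZ (h1.trans hw.2)).trans_lt (lt_lam hκ k hy))
    (Or.inl h2)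

/-- Few edges linked through lower levels are linked from the root. -/
theorem Thin.lk (H : Thin t h r F w) (HL : IsLarge t h r L)
    (h1 : LL t h univ L {y | y ≠ r ∧ lev t h r y < lam t h r w} {w} T) (hT : ∀ a ∈ T, h a = w)
    (hc : #T < lam t h r w) : Lk t h r L {w} T := by
  have hw : lev t h r w = lam t h r w := max_eq_right H.2.1.le
  refine lk_ext H.2.1 H.1 (fun k => k.2.ne hw) h1 hT hc fun y k1 k2 Z k3 => ?_
  by_cases k : y ∈ Om t h r (lam t h r w)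
  swap
  · exact HL.avoid' ⟨H.1, hw.le⟩ k k3.le
  have k4 : lam t h r y = lam t h r w := le_antisymm ((le_max_right _ _).trans k.2)
    ((le_max_iff.1 (not_lt.1 fun j => k1 ⟨k.1, j⟩)).resolve_left H.2.1.not_ge)
  obtain ⟨μ, k5, k6⟩ := H.2.2.2 PUnit (fun _ => y) (by simpa using one_lt_aleph0.trans H.2.1)
  obtain ⟨S, j1, j2⟩ := cut_of_lam (t := t) (h := h) k2.symm
  exact HL.avoid (fun _ => k4 ▸ mk_union_lt H.2.1.le k3
    (j1.trans_lt (max_lt H.2.1 ((k6 PUnit.unit k2 k4).trans_lt k5)))) (Or.inr j2)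

/-- Preprocessing: every undecided vertex of the least level only keeps edges linked through
lower levels. -/
theorem Good.pre (H : Good t h r F A Φ) (hr : ∀ e, h e ≠ r) (hloop : ∀ e, t e ≠ h e)
    (hF : ∀ x, x ≠ r → Lk t h r F {x} {a | a ∈ F ∧ h a = x})
    (hκ : ∀ x, x ∉ A → κ ≤ lam t h r x) :
    ∃ G, Φ ⊆ G ∧ (∀ a ∈ G, h a ∈ A → a ∈ Φ) ∧ ∀ G', Φ ⊆ G' → ∀ w, w ∉ A →
      (∀ a ∈ G, h a = w → a ∈ G') →
      (lam t h r w = κ → LL t h univ G' {y | y ≠ r ∧ lev t h r y < κ} {w} {a | a ∈ G ∧ h a = w}) ∧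
      ∀ e, h e = w → e ∉ G → JI t h r univ G' (Om t h r (lev t h r w)) e := by
  let P : Set V := {y | y ≠ r ∧ lev t h r y < κ}
  have hP : ∀ y ∈ P, y ∈ A := fun y hy => by_contra fun k =>
    hy.2.not_ge ((hκ y k).trans (le_max_right _ _))
  have key : ∀ w, ∃ K : Set E, w ∉ A → lam t h r w = κ → (∀ a ∈ F, h a = w → a ∈ K) ∧
      (∀ a ∈ K, h a ≠ w → a ∈ Φ) ∧ LL t h univ K P {w} {a | a ∈ K ∧ h a = w} ∧
      ∀ e, h e = w → e ∉ K → JI t h r univ K (Om t h r (lev t h r w)) e := by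
    intro w
    by_cases hw : w ∉ A ∧ lam t h r w = κ
    swap
    · exact ⟨∅, fun k j => (hw ⟨k, j⟩).elim⟩
    have hwr : w ≠ r := by
      obtain ⟨-, e, -, k⟩ := H.g5 w hw.1
      exact k ▸ hr e
    have e : insert w P \ {w} = P := insert_sdiff_self_of_notMem fun k => hw.1 (hP w k)
    obtain ⟨K, k1, k2, k3, k4, k5, -⟩ := proc (G := Φ ∪ {e | h e ∉ A}) (Ω := insert w P)
      (J := {a | a ∈ F ∧ h a = w}) (D' := univ) hloop
      (fun k => k.elim (fun j => hwr j.symm) fun j => j.1 rfl) (Or.inl rfl) (fun a ha => ha.2)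
      ((((hF w hwr).ll fun a ha => ha.2).shrink
        (fun y hy => ⟨(hy.1.resolve_left hy.2).1, hy.2⟩) Subset.rfl
        fun a ha => ⟨ha, ha.2⟩).mono (H.g1.trans subset_union_left) Subset.rfl)
      (subset_univ _) (fun _ _ _ => trivial) (by
        intro e _ j1 j2
        have j3 : h e ∈ A := by_contra fun k => j1 (Or.inr k)
        have j4 : h e ∈ P := j2.resolve_left fun k => hw.1 (k ▸ j3)
        exact (H.g4 e j3 fun k => j1 (Or.inl k)).mono subset_union_left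
          fun y hy => Or.inr ⟨hy.1, hy.2.trans_lt j4.2⟩)
    rw [e] at k4
    refine ⟨K, fun _ _ => ⟨fun a j1 j2 => k2 ⟨j1, j2⟩, fun a j1 j2 => (k1 j1).resolve_right
      fun k => k (hP _ ((k3 a j1).resolve_left j2)), k4, fun e j1 j2 => (k5 e trivial j1 j2).mono
        Subset.rfl (insert_subset ⟨hwr, le_rfl⟩ fun y hy =>
          ⟨hy.1, hy.2.le.trans (hw.2 ▸ le_max_right _ _)⟩)⟩⟩
  choose K hK using key
  refine ⟨Φ ∪ {e | h e ∉ A ∧ (lam t h r (h e) = κ → e ∈ K (h e))}, subset_union_left,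
    fun a ha k => ha.resolve_right fun j => j.1 k, fun G' k2 w k3 k4 => ?_⟩
  have sub : lam t h r w = κ → K w ⊆ G' := fun k a ha => by
    by_cases j : h a = w
    · exact k4 a (Or.inr ⟨j ▸ k3, fun _ => j ▸ ha⟩) j
    · exact k2 ((hK w k3 k).2.1 a ha j)
  refine ⟨fun k => (hK w k3 k).2.2.1.mono (sub k) fun a ha => ⟨?_, ha.2⟩, fun e j1 j2 => ?_⟩
  · rcases ha.1 with j | j
    · exact (hK w k3 k).1 a (H.g2 a j (ha.2 ▸ k3)) ha.2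
    · exact ha.2 ▸ j.2 (ha.2 ▸ k)
  · have j3 : lam t h r w = κ ∧ e ∉ K w := by
      by_contra j
      exact j2 (Or.inr ⟨j1 ▸ k3, fun i => by_contra fun l => j ⟨j1 ▸ i, j1 ▸ l⟩⟩)
    exact ((hK w k3 j3.1).2.2.2 e j1 j3.2).mono (sub j3.1) Subset.rfl

theorem mk_fin_lt {W : Set V} (hW : W.Finite) (h0 : ℵ₀ ≤ κ) {K : V → Set E}
    (H : ∀ u ∈ W, #(K u) < κ) : #(⋃ u ∈ W, K u) < κ := by
  induction W, hW using Set.Finite.induction_on with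
  | empty => simpa using aleph0_pos.trans_le h0
  | insert _ _ ih =>
    rw [biUnion_insert]
    exact mk_union_lt h0 (H _ (Or.inl rfl)) (ih fun u k => H u (Or.inr k))

variable {An W : Set V}

/-- The first stage: finitely many vertices of the least undecided level at once. -/
theorem Good.init (H : Good t h r F A Φ) (hr : ∀ e, h e ≠ r) (hloop : ∀ e, t e ≠ h e)
    (hF : ∀ x, x ≠ r → Lk t h r F {x} {a | a ∈ F ∧ h a = x}) (h0 : ℵ₀ < κ)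
    (hκ : ∀ x, x ∉ A → κ ≤ lam t h r x) (hAn : An ⊆ Om t h r κ)
    (hcl : ∀ a, h a ∈ An → t a ∈ Om t h r κ → t a ∈ An) (hW : W.Finite)
    (hWA : ∀ w ∈ W, w ∈ An ∧ w ∉ A) :
    ∃ G K : Set E, Φ ⊆ G ∧ (∀ a ∈ G, h a ∈ A → a ∈ Φ) ∧ (∀ G', Φ ⊆ G' → ∀ w, w ∉ A → w ∉ W →
      (∀ a ∈ G, h a = w → a ∈ G') →
      (lam t h r w = κ → LL t h univ G' {y | y ≠ r ∧ lev t h r y < κ} {w} {a | a ∈ G ∧ h a = w}) ∧
      ∀ e, h e = w → e ∉ G → JI t h r univ G' (Om t h r (lev t h r w)) e) ∧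
      (∀ a ∈ K, a ∈ G ∧ h a ∈ An) ∧ #K ≤ κ ∧
      (∀ w ∈ W, (∀ a ∈ F, h a = w → a ∈ K) ∧
        LL t h univ K (Om t h r κ \ {w}) {w} {a | a ∈ K ∧ h a = w} ∧
        ∀ e, h e = w → e ∉ K → JI t h r univ K (Om t h r κ) e) ∧
      ∀ w, w ∉ W → Thin t h r F w → lam t h r w = κ → #{a | a ∈ K ∧ h a = w} < κ := by
  obtain ⟨G, G1, G2, G3⟩ := H.pre hr hloop hF hκ
  have hrA : r ∉ An := fun k => (hAn k).1 rfl
  have h5 : ∀ e ∈ (univ : Set E), e ∉ G ∪ {e | h e ∈ W} → h e ∈ An →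
      JI t h r univ (Φ ∪ {a | a ∈ G ∧ h a ∉ W}) An e := by
    intro e _ k1 k2
    refine JI.restr (JI.mono (Ω := Om t h r (lev t h r (h e))) (Ω' := Om t h r κ) ?_ Subset.rfl
      fun y hy => ⟨hy.1, hy.2.trans (hAn k2).2⟩) k2 hcl
    by_cases k : h e ∈ A
    · exact (H.g4 e k fun j => k1 (Or.inl (G1 j))).mono subset_union_left Subset.rfl
    · exact (G3 (Φ ∪ {a | a ∈ G ∧ h a ∉ W}) subset_union_left _ k fun a j1 j2 =>
        Or.inr ⟨j1, fun j => k1 (Or.inr (j2 ▸ j : h e ∈ W))⟩).2 e rfl fun j => k1 (Or.inl j)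
  obtain ⟨L, a1, a2, a3, a4⟩ := fin_solve (D := univ) (G := G ∪ {e | h e ∈ W})
    (Φ := Φ ∪ {a | a ∈ G ∧ h a ∉ W}) hloop hrA hW (fun w k => (hWA w k).1)
    (union_subset (G1.trans subset_union_left) fun a ha => Or.inl ha.1) (subset_univ _)
    (fun a ha k => Or.inr ⟨ha.resolve_right k, k⟩) (fun w k =>
      (((hF w (hAn (hWA w k).1).1).ll fun a ha => ha.2).shrink
        (T' := {a | a ∈ Φ ∪ {a | a ∈ G ∧ h a ∉ W} ∧ h a = w})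
        (fun y hy => ⟨(hAn hy.1).1, hy.2⟩) Subset.rfl fun a ha => ⟨⟨H.g2 a (ha.1.resolve_right
          fun j => j.2 (ha.2 ▸ k)) (ha.2 ▸ (hWA w k).2), ha.2⟩, ha.2⟩).mono
        (H.g1.trans subset_union_left) Subset.rfl) h5
  have key : ∀ w, ∃ K : Set E, w ∈ W → K ⊆ L ∧ {a | a ∈ L ∧ h a = w} ⊆ K ∧
      (∀ a ∈ K, h a ∈ An) ∧ LL t h univ K (An \ {w}) {w} {a | a ∈ K ∧ h a = w} ∧
      (∀ e ∈ (univ : Set E), h e = w → e ∉ K → JI t h r univ K An e) ∧ Ends t h w K := by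
    intro w
    by_cases k : w ∈ W
    swap
    · exact ⟨∅, fun j => (k j).elim⟩
    obtain ⟨K, j⟩ := proc (D := univ) (D' := univ) hloop hrA (hWA w k).1 (fun a ha => ha.2) (a3 w k)
      (subset_univ _) (fun _ _ _ => trivial) fun e _ j1 j2 => by
        by_cases j : e ∈ G ∪ {e | h e ∈ W}
        · exact a4 e j j1
        · exact (h5 e trivial j j2).mono a1 Subset.rfl
    exact ⟨K, fun _ => ⟨j.1, j.2⟩⟩
  choose K hK using key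
  have sub : ∀ w ∈ W, K w ⊆ ⋃ u ∈ W, K u := fun w k => subset_biUnion_of_mem (u := K) k
  have b1 : ∀ a ∈ ⋃ u ∈ W, K u, a ∈ L ∧ h a ∈ An := fun a ha => by
    obtain ⟨u, k1, k2⟩ := mem_iUnion₂.1 ha
    exact ⟨(hK u k1).1 k2, (hK u k1).2.2.1 a k2⟩
  have b2 : ∀ w ∈ W, LL t h univ (K w) (Om t h r κ \ {w}) {w} {a | a ∈ K w ∧ h a = w} :=
    fun w k => (hK w k).2.2.2.1.enl (hWA w k).1 hAn hcl
  refine ⟨L, ⋃ u ∈ W, K u, subset_union_left.trans a1, fun a ha k => G2 a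
    ((a2 ha).resolve_right fun j => (hWA _ j).2 k) k, fun G' k1 w k2 k3 k4 => ?_, b1,
    Order.lt_succ_iff.1 (mk_fin_lt hW (h0.le.trans (Order.le_succ _)) fun w k =>
      Order.lt_succ_iff.2 ((hK w k).2.2.2.2.2.1.trans
        (max_le h0.le (om_cnt (b2 w k) (hAn (hWA w k).1) fun a ha => ha.2)))),
    fun w k => ⟨fun a j1 j2 => sub w k ((hK w k).2.1 ⟨a1 (Or.inl (H.g1 j1)), j2⟩),
      (b2 w k).mono (sub w k) fun a ha => ⟨(hK w k).2.1 ⟨(b1 a ha.1).1, ha.2⟩, ha.2⟩,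
      fun e j1 j2 => ((hK w k).2.2.2.2.1 e trivial j1 fun j => j2 (sub w k j)).mono (sub w k) hAn⟩,
    fun w k1 k2 k3 => ?_⟩
  · have := G3 G' k1 w k2 fun a j1 j2 => k4 a (a1 (Or.inr ⟨j1, j2 ▸ k3⟩)) j2
    exact ⟨fun k => (this.1 k).mono Subset.rfl fun a ha =>
      ⟨(a2 ha.1).resolve_right fun j => k3 (ha.2 ▸ j), ha.2⟩,
      fun e j1 j2 => this.2 e j1 fun j => j2 (a1 (Or.inr ⟨j, j1 ▸ k3⟩))⟩
  · refine (mk_le_mk_of_subset fun a ha => ?_).trans_lt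
      (mk_fin_lt (K := fun u => {a | a ∈ K u ∧ h a = w}) hW h0.le fun u k => ?_)
    · obtain ⟨u, j1, j2⟩ := mem_iUnion₂.1 ha.1
      exact mem_biUnion j1 ⟨j2, ha.2⟩
    · have j : u ≠ w := fun j => k1 (j ▸ k)
      obtain ⟨μ, j1, j2⟩ := k2.2.2.2 PUnit (fun _ => u) (by simpa using one_lt_aleph0.trans k2.2.1)
      obtain ⟨S, j3, j4⟩ := cut_of_lam (t := t) (h := h) j.symm
      exact ((hK u k).2.2.2.2.2.2 w S j4).trans_lt (max_lt h0 (j3.trans_lt (max_lt h0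
        ((j2 PUnit.unit j ((le_antisymm ((le_max_right _ _).trans (hAn (hWA u k).1).2)
          (hκ u (hWA u k).2)).trans k3.symm)).trans_lt (k3 ▸ j1)))))

theorem Good.step' (H : Good t h r F A Φ) (hr : ∀ e, h e ≠ r) (hloop : ∀ e, t e ≠ h e)
    (hF : ∀ x, x ≠ r → Lk t h r F {x} {a | a ∈ F ∧ h a = x}) (h0 : ℵ₀ < κ)
    (hκ : ∀ x, x ∉ A → κ ≤ lam t h r x) (hAn : An ⊆ Om t h r κ)
    (hcl : ∀ a, h a ∈ An → t a ∈ Om t h r κ → t a ∈ An) (hW : W.Finite)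
    (hWA : ∀ w ∈ W, w ∈ An ∧ w ∉ A) (hT : ∀ w ∈ An, w ∉ A → w ∉ W → Thin t h r F w) :
    ∃ A' Φ', Good t h r F A' Φ' ∧ A ⊆ A' ∧ Φ ⊆ Φ' ∧ (∀ a ∈ Φ', h a ∈ A → a ∈ Φ) ∧ W ⊆ A' ∧
      ∀ x ∈ A', x ∉ A → lam t h r x = κ := by
  obtain ⟨G, K0, G1, G2, G3, G4, G5, G6, G7⟩ := H.init hr hloop hF h0 hκ hAn hcl hW hWA
  have hlev : ∀ w, lam t h r w = κ → lev t h r w = κ := fun w k => by
    rw [lev, k, max_eq_right h0.le]
  have hlam : ∀ w ∈ An, w ∉ A → lam t h r w = κ := fun w k j =>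
    le_antisymm ((le_max_right _ _).trans (hAn k).2) (hκ _ j)
  obtain ⟨ι, _, _, hι, hlt⟩ := exists_index κ
  have : Nonempty ι := mk_ne_zero_iff.1 (hι ▸ (aleph0_pos.trans h0).ne')
  obtain ⟨φ, hφ⟩ := exists_book (hι ▸ h0.le) (hι ▸ hlt)
  obtain ⟨idx, hidx⟩ := exists_idx (E := E) (ι := ι)
  let Q : ∀ η : ι, (Iio η → Set V × Set E) → Set V × Set E → Prop := fun η g s =>
    (∀ w ∈ s.1, w ∉ A ∧ lam t h r w = κ ∧ ∀ ξ, w ∉ (g ξ).1) ∧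
    (∀ a ∈ s.2, a ∈ G ∧ h a ∈ An ∧ ∀ ξ, h a ∈ (g ξ).1 → a ∈ (g ξ).2) ∧ #s.2 ≤ κ ∧
    (∀ w ∈ s.1, (∀ a, h a = w → (a ∈ F ∨ ∃ ξ, a ∈ (g ξ).2) → a ∈ s.2) ∧
      LL t h univ s.2 (Om t h r κ \ {w}) {w} {a | a ∈ s.2 ∧ h a = w} ∧
      ∀ e, h e = w → e ∉ s.2 → JI t h r univ s.2 (Om t h r κ) e) ∧
    (s.2 ⊆ K0 ∨ ∃ w ∈ s.1, Ends t h w s.2) ∧ (IsEmpty (Iio η) → W ⊆ s.1)
  have hub : ∀ η (f : ι → Set V × Set E), (∀ ξ < η, Q ξ (fun x => f x) (f ξ)) →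
      ¬ IsEmpty (Iio η) → ∀ w ∈ An, w ∉ A → (∀ ξ : Iio η, w ∉ (f ξ).1) →
      ∃ K, Q η (fun x => f x) ({w}, K) := by
    intro η f ih c1 w w0 w1 w3
    have w2 := hlam w w0 w1
    have nW : ∀ x, (∀ ξ : Iio η, x ∉ (f ξ).1) → x ∉ W := fun x k j => by
      obtain ⟨ξ, j1, j2⟩ := WellFounded.has_min (wellFounded_lt (α := ι)) (Iio η)
        (nonempty_coe_sort.1 (not_isEmpty_iff.1 c1))
      exact k ⟨ξ, j1⟩ ((ih ξ j1).2.2.2.2.2 ⟨fun ζ => j2 ζ (ζ.2.trans j1) ζ.2⟩ j)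
    let G' : Set E := {e | e ∈ G ∧ ∀ ξ : Iio η, h e ∈ (f ξ).1 → e ∈ (f ξ).2}
    have s1 : Φ ⊆ G' := fun a ha => ⟨G1 ha, fun ξ k => ((ih ξ ξ.2).2.2.2.1 _ k).1 a rfl
      (Or.inl (H.g2 a ha ((ih ξ ξ.2).1 _ k).1))⟩
    have s2 : ∀ ξ : Iio η, (f ξ).2 ⊆ G' := fun ξ a ha => ⟨((ih ξ ξ.2).2.1 a ha).1, fun ζ k => by
      rcases lt_trichotomy ζ.1 ξ.1 with j | j | j
      · exact ((ih ξ ξ.2).2.1 a ha).2.2 ⟨ζ, j⟩ k
      · exact j ▸ ha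
      · exact ((ih ζ ζ.2).2.2.2.1 _ k).1 a rfl (Or.inr ⟨⟨ξ, j⟩, ha⟩)⟩
    have s3 : ∀ e, e ∉ G' → JI t h r univ G' (Om t h r (lev t h r (h e))) e := by
      intro e he
      by_cases k : ∃ ξ : Iio η, h e ∈ (f ξ).1
      · obtain ⟨ξ, k⟩ := k
        rw [hlev _ ((ih ξ ξ.2).1 _ k).2.1]
        exact (((ih ξ ξ.2).2.2.2.1 _ k).2.2 e rfl fun j => he (s2 ξ j)).mono (s2 ξ) Subset.rfl
      by_cases j : h e ∈ A
      · exact (H.g4 e j fun i => he (s1 i)).mono s1 Subset.rfl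
      · exact (G3 G' s1 _ j (nW _ fun ξ m => k ⟨ξ, m⟩)
          fun a i l => ⟨i, fun ξ m => (k ⟨ξ, l ▸ m⟩).elim⟩).2
          e rfl fun i => he ⟨i, fun ξ m => (k ⟨ξ, m⟩).elim⟩
    have hw := hT w w0 w1 (nW w w3)
    let J : Set E := ({a | a ∈ F ∧ h a = w} ∪ ⋃ ξ : Iio η, {a | a ∈ (f ξ).2 ∧ h a = w})
    have J1 : ∀ a ∈ J, a ∈ G ∧ h a = w := by
      rintro a (ha | ha)
      · exact ⟨G1 (H.g1 ha.1), ha.2⟩
      · obtain ⟨ξ, k⟩ := mem_iUnion.1 ha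
        exact ⟨(s2 ξ k.1).1, k.2⟩
    have J2 : #J < κ := by
      have : ∀ ξ : Iio η, ∃ y, (f ξ).2 ⊆ K0 ∨ y ∈ (f ξ).1 ∧ Ends t h y (f ξ).2 := fun ξ =>
        (ih ξ ξ.2).2.2.2.2.1.elim (fun k => ⟨w, Or.inl k⟩) fun ⟨y, k⟩ => ⟨y, Or.inr k⟩
      choose y hy using this
      obtain ⟨μ, k1, k2⟩ := hw.2.2.2 _ y (w2 ▸ hlt η)
      refine mk_union_lt h0.le (w2 ▸ hw.2.2.1) ((mk_iUnion_le'
        (μ := max (max ℵ₀ μ) (max #(Iio η) #{a | a ∈ K0 ∧ h a = w}))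
        ((le_max_left _ _).trans (le_max_left _ _)) (le_max_of_le_right (le_max_left _ _))
        fun ξ => ?_).trans_lt
        (max_lt (max_lt h0 (w2 ▸ k1)) (max_lt (hlt η) (G7 w (nW w w3) hw w2))))
      rcases hy ξ with k | k
      · exact le_max_of_le_right (le_max_of_le_right
          (mk_le_mk_of_subset fun a ha => ⟨k ha.1, ha.2⟩))
      · have j : y ξ ≠ w := fun j => w3 ξ (j ▸ k.1)
        obtain ⟨S, j1, j2⟩ := cut_of_lam (t := t) (h := h) j.symm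
        exact le_max_of_le_left ((k.2.2 w S j2).trans (max_le (le_max_left _ _) (j1.trans
          (max_le_max le_rfl (k2 ξ j (((ih ξ ξ.2).1 _ k.1).2.1.trans w2.symm))))))
    have J3 : Lk t h r G' {w} J := hw.lk (isLarge_of_just' fun e he => (s3 e he).just)
      (w2 ▸ ((G3 G' s1 w w1 (nW w w3)
        fun a i l => ⟨i, fun ξ m => (w3 ξ (l ▸ m)).elim⟩).1 w2).mono Subset.rfl J1)
      (fun a ha => (J1 a ha).2) (w2 ▸ J2)
    obtain ⟨K, k1, k2, k3, k4, k5, k6⟩ := proc (G := G') (Ω := An) (J := J) (D' := univ) hloop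
      (fun k => (hAn k).1 rfl) w0 (fun a ha => (J1 a ha).2)
      ((J3.ll fun a ha => (J1 a ha).2).shrink (fun y hy => ⟨(hAn hy.1).1, hy.2⟩) Subset.rfl
        fun a ha => ⟨ha, (J1 a ha).2⟩) (subset_univ _) (fun _ _ _ => trivial)
      fun e _ j1 j2 => ((s3 e j1).mono (Ω' := Om t h r κ) Subset.rfl
        fun y hy => ⟨hy.1, hy.2.trans (hAn j2).2⟩).restr j2 hcl
    have k7 := k4.enl w0 hAn hcl
    refine ⟨K, ?_, fun a ha => ⟨(k1 ha).1, k3 a ha, (k1 ha).2⟩,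
      k6.1.trans (max_le h0.le (om_cnt k7 (hAn w0) fun a ha => ha.2)), ?_,
      Or.inr ⟨w, rfl, k6⟩, fun k => (c1 k).elim⟩
    · rintro _ rfl
      exact ⟨w1, w2, w3⟩
    · rintro _ rfl
      exact ⟨fun a j1 j2 => k2 (j2.imp (fun j => ⟨j, j1⟩) fun ⟨ξ, j⟩ => mem_iUnion.2 ⟨ξ, j, j1⟩),
        k7, fun e j1 j2 => (k5 e trivial j1 j2).mono Subset.rfl hAn⟩
  obtain ⟨f, hf⟩ := trec_inv (ι := ι) (S := Set V × Set E) (fun η g s => Q η g s ∧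
    ∀ ξ, ∀ a ∈ (g ξ).2, φ η = (ξ.1, idx (g ξ).2 a) → h a ∉ A →
      (∀ ζ, h a ∉ (g ζ).1) → h a ∈ s.1) (by
      intro η f ih
      have ih' := fun ξ k => (ih ξ k).1
      by_cases c1 : IsEmpty (Iio η)
      · exact ⟨(W, K0), ⟨fun w k => ⟨(hWA w k).2, hlam w (hWA w k).1 (hWA w k).2, fun ξ => c1.elim ξ⟩,
          fun a k => ⟨(G4 a k).1, (G4 a k).2, fun ξ => c1.elim ξ⟩, G5, fun w k =>
          ⟨fun a j1 j2 => (G6 w k).1 a (j2.resolve_right fun ⟨ξ, _⟩ => c1.elim ξ) j1, (G6 w k).2⟩,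
          Or.inl Subset.rfl, fun _ => Subset.rfl⟩, fun ξ => c1.elim ξ⟩
      by_cases c2 : ∃ ξ : Iio η, ∃ a ∈ (f ξ).2, φ η = (ξ.1, idx (f ξ).2 a) ∧ h a ∉ A ∧
        ∀ ζ : Iio η, h a ∉ (f ζ).1
      · obtain ⟨ξ, a, k1, k2, k3, k4⟩ := c2
        obtain ⟨K, k⟩ := hub η f ih' c1 (h a) ((ih' ξ ξ.2).2.1 a k1).2.1 k3 k4
        refine ⟨_, k, fun ξ' a' l1 l2 _ _ => ?_⟩
        rw [k2, Prod.mk.injEq] at l2
        obtain rfl : ξ = ξ' := Subtype.ext l2.1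
        exact congrArg h (hidx _ (hι ▸ (ih' ξ ξ.2).2.2.1) k1 l1 l2.2).symm
      · exact ⟨(∅, ∅), ⟨fun _ k => k.elim, fun _ k => k.elim, by simp, fun _ k => k.elim,
          Or.inl (empty_subset _), fun j => (c1 j).elim⟩,
          fun ξ a l1 l2 l3 l4 => c2 ⟨ξ, a, l1, l2, l3, l4⟩⟩)
  have s0 : ∀ η, (f η).2 ⊆ Φ ∪ ⋃ η, (f η).2 := fun η =>
    (subset_iUnion (fun η => (f η).2) η).trans subset_union_right
  have s1 : ∀ a ∈ Φ ∪ ⋃ η, (f η).2, h a ∈ A → a ∈ Φ := by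
    rintro a (ha | ha) k
    · exact ha
    · obtain ⟨η, j⟩ := mem_iUnion.1 ha
      exact G2 a ((hf η).1.2.1 a j).1 k
  have s2 : ∀ η, ∀ a ∈ Φ ∪ ⋃ η, (f η).2, h a ∈ (f η).1 → a ∈ (f η).2 := by
    rintro η a (ha | ha) k
    · exact ((hf η).1.2.2.2.1 _ k).1 a rfl (Or.inl (H.g2 a ha ((hf η).1.1 _ k).1))
    · obtain ⟨ξ, j⟩ := mem_iUnion.1 ha
      rcases lt_trichotomy ξ η with i | rfl | i
      · exact ((hf η).1.2.2.2.1 _ k).1 a rfl (Or.inr ⟨⟨ξ, i⟩, j⟩)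
      · exact j
      · exact ((hf ξ).1.2.1 a j).2.2 ⟨η, i⟩ k
  refine ⟨A ∪ ⋃ η, (f η).1, Φ ∪ ⋃ η, (f η).2, ⟨H.g1.trans subset_union_left, ?_, ?_, ?_,
    fun x k => H.g5 x fun j => k (Or.inl j)⟩, subset_union_left, subset_union_left, s1, ?_,
    fun x k j => (mem_iUnion.1 (k.resolve_left j)).elim fun η i => ((hf η).1.1 x i).2.1⟩
  · rintro a (ha | ha) k
    · exact H.g2 a ha fun j => k (Or.inl j)
    · obtain ⟨η, j⟩ := mem_iUnion.1 ha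
      obtain ⟨ζ, j1, j2⟩ := hφ η (idx (f η).2 a)
      exact (k (Or.inr (mem_iUnion.2 ⟨ζ, (hf ζ).2 ⟨η, j1⟩ a j j2 (fun i => k (Or.inl i))
        fun ξ i => k (Or.inr (mem_iUnion.2 ⟨ξ, i⟩))⟩))).elim
  · rintro x (hx | hx) k
    · exact (H.g3 x hx k).mono subset_union_left fun a ha => ⟨s1 a ha.1 (ha.2 ▸ hx), ha.2⟩
    · obtain ⟨η, j⟩ := mem_iUnion.1 hx
      rw [hlev x ((hf η).1.1 x j).2.1]
      exact ((hf η).1.2.2.2.1 x j).2.1.mono (s0 η) fun a ha => ⟨s2 η a ha.1 (ha.2 ▸ j), ha.2⟩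
  · rintro e (he | he) k
    · exact (H.g4 e he fun j => k (Or.inl j)).mono subset_union_left Subset.rfl
    · obtain ⟨η, j⟩ := mem_iUnion.1 he
      rw [hlev _ ((hf η).1.1 _ j).2.1]
      exact (((hf η).1.2.2.2.1 _ j).2.2 e rfl fun i => k (s0 η i)).mono (s0 η) Subset.rfl
  · obtain ⟨η, -, j⟩ := WellFounded.has_min (wellFounded_lt (α := ι)) univ univ_nonempty
    exact fun w k => Or.inr (mem_iUnion.2
      ⟨η, (hf η).1.2.2.2.2.2 ⟨fun ξ => j ξ trivial ξ.2⟩ k⟩)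

theorem Good.step (H : Good t h r F A Φ) (hr : ∀ e, h e ≠ r) (hloop : ∀ e, t e ≠ h e)
    (hF : ∀ x, x ≠ r → Lk t h r F {x} {a | a ∈ F ∧ h a = x}) (h0 : ℵ₀ < κ)
    (hκ : ∀ x, x ∉ A → κ ≤ lam t h r x) (hAn : An ⊆ Om t h r κ)
    (hcl : ∀ a, h a ∈ An → t a ∈ Om t h r κ → t a ∈ An) (hW : W.Finite)
    (hWA : ∀ w ∈ W, w ∈ An ∧ w ∉ A) (hT : ∀ w ∈ An, w ∉ A → w ∉ W → Thin t h r F w) :
    ∃ A' Φ', Good t h r F A' Φ' ∧ A ⊆ A' ∧ Φ ⊆ Φ' ∧ (∀ a ∈ Φ', h a ∈ A → a ∈ Φ) ∧ W ⊆ A' := by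
  obtain ⟨A', Φ', k1, k2, k3, k4, k5, -⟩ := H.step' hr hloop hF h0 hκ hAn hcl hW hWA hT
  exact ⟨A', Φ', k1, k2, k3, k4, k5⟩

end Pool.Agent.P.MP_133cc4_co
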