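import Pool.Agent.P.MP_133cc4_co.LFinal

/-! Vertex-flames by splitting every vertex into an entrance and an exit. -/

namespace Pool.Agent.P.MP_133cc4_co

open Set Function Relation Cardinal

variable {V E : Type*} {t h : E → V} {r u v : V} {P F : Set E}

/-- Tails in the split digraph. -/
def spT (t : E → V) (r : V) : E ⊕ {x : V // x ≠ r} → V × Bool :=
  Sum.elim (fun e => (t e, true)) fun x => (x.1, false)

/-- Heads in the split digraph. -/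
def spH (h : E → V) (r : V) : E ⊕ {x : V // x ≠ r} → V × Bool :=
  Sum.elim (fun e => (h e, false)) fun x => (x.1, true)

/-- The edges and the inner vertices of a path ending in `v`. -/
def spL (h : E → V) (r v : V) (P : Set E) : Set (E ⊕ {x : V // x ≠ r}) :=
  {z | Sum.elim (fun e => e ∈ P) (fun x => x.1 ≠ v ∧ ∃ a ∈ P, h a = x.1) z}

theorem Walk.first {p : List E} (W : Walk t h u p v) : u = v ∨ ∃ a ∈ p, t a = u := by
  induction W with
  | nil v => exact Or.inl rfl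
  | cons e p v _ _ => exact Or.inr ⟨e, List.mem_cons_self, rfl⟩

theorem Walk.head_mem {p : List E} (W : Walk t h u p v) :
    ∀ e ∈ p, h e = v ∨ ∃ a ∈ p, t a = h e := by
  induction W with
  | nil v => simp
  | cons e p v W ih =>
    intro a ha
    rcases List.mem_cons.1 ha with rfl | ha
    · exact W.first.imp_right fun ⟨b, h1, h2⟩ => ⟨b, List.mem_cons_of_mem _ h1, h2⟩
    · exact (ih a ha).imp_right fun ⟨b, h1, h2⟩ => ⟨b, List.mem_cons_of_mem _ h1, h2⟩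

theorem Walk.lift (hr : ∀ e, h e ≠ r) {p : List E} (W : Walk t h u p v) (hP : ∀ e ∈ p, e ∈ P)
    (huv : u ≠ v) : Rch (spT t r) (spH h r) (spL h r v P) (u, true) (v, false) := by
  induction W with
  | nil v => exact (huv rfl).elim
  | cons e p v _ ih =>
    have k := hP e List.mem_cons_self
    refine ReflTransGen.head ⟨Sum.inl e, k, rfl, rfl⟩ ?_
    by_cases j : h e = v
    · exact j ▸ ReflTransGen.refl
    · exact ReflTransGen.head ⟨Sum.inr ⟨h e, hr e⟩, ⟨j, e, k, rfl⟩, rfl, rfl⟩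
        (ih (fun a ha => hP a (List.mem_cons_of_mem _ ha)) j)

theorem Walk.proj {p : List (E ⊕ {x : V // x ≠ r})} {a b : V × Bool}
    (W : Walk (spT t r) (spH h r) a p b) : Walk t h a.1 (p.filterMap Sum.getLeft?) b.1 := by
  induction W with
  | nil v => exact Walk.nil _
  | cons e p v _ ih =>
    cases e with
    | inl e => exact Walk.cons e _ _ ih
    | inr x => exact ih

theorem IsPath.proj (hr : ∀ e, h e ≠ r) {Q : Set (E ⊕ {x : V // x ≠ r})}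
    (H : IsPath (spT t r) (spH h r) (r, true) (v, false) Q) :
    IsPath t h r v (Sum.inl ⁻¹' Q) ∧ Q = spL h r v (Sum.inl ⁻¹' Q) := by
  obtain ⟨p, h1, h2, rfl⟩ := H
  refine ⟨⟨_, h1.proj, List.nodup_cons.2 ⟨fun k => ?_, ?_⟩, ?_⟩, ?_⟩
  · obtain ⟨e, -, j⟩ := List.mem_map.1 k
    exact hr e j
  · have h3 := (List.nodup_cons.1 h2).2
    clear h1 h2
    induction p with
    | nil => simp
    | cons z p ih =>
      obtain ⟨k1, k2⟩ := List.nodup_cons.1 h3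
      cases z with
      | inr x => exact ih k2
      | inl e =>
        refine List.nodup_cons.2 ⟨fun k => k1 ?_, ih k2⟩
        obtain ⟨a, j1, j2⟩ := List.mem_map.1 k
        refine List.mem_map.2 ⟨Sum.inl a, by simpa using j1, ?_⟩
        exact congrArg (fun x => (x, false)) j2
  · ext e
    simp
  · ext z
    cases z with
    | inl e => exact Iff.rfl
    | inr x =>
      refine ⟨fun k => ⟨fun j => h1.tail_ne h2 _ k (congrArg (fun x => (x, false)) j), ?_⟩,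
        fun ⟨k1, a, k2, k3⟩ => ?_⟩
      · rcases h1.tail_mem _ k with j | ⟨a, j1, j2⟩
        · cases congrArg Prod.snd j
        · cases a with
          | inl a => exact ⟨a, j1, congrArg Prod.fst j2⟩
          | inr a => cases congrArg Prod.snd j2
      · rcases h1.head_mem _ k2 with j | ⟨b, j1, j2⟩
        · exact (k1 (k3.symm.trans (congrArg Prod.fst j))).elim
        · cases b with
          | inl b => cases congrArg Prod.snd j2
          | inr b =>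
            obtain rfl : b = x := Subtype.ext ((congrArg Prod.fst j2).trans k3)
            exact j1

/-- A family of the split digraph gives internally disjoint paths. -/
theorem PathFamily.proj (hr : ∀ e, h e ≠ r) {L : Set (E ⊕ {x : V // x ≠ r})}
    {Fam : Set (Set (E ⊕ {x : V // x ≠ r}))}
    (H : PathFamily (spT t r) (spH h r) (r, true) (v, false) L Fam) :
    PathFamily t h r v (Sum.inl ⁻¹' L) ((fun Q => Sum.inl ⁻¹' Q) '' Fam) ∧
      ∀ P ∈ (fun Q => Sum.inl ⁻¹' Q) '' Fam, ∀ Q ∈ (fun Q => Sum.inl ⁻¹' Q) '' Fam,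
        ∀ a ∈ P, ∀ b ∈ Q, h a = h b → h a ≠ v → P = Q := by
  refine ⟨⟨?_, ?_⟩, ?_⟩
  · rintro _ ⟨Q, k, rfl⟩
    exact ⟨((H.1 Q k).1.proj hr).1, fun a ha => (H.1 Q k).2 ha⟩
  · rintro _ ⟨P, k1, rfl⟩ _ ⟨Q, k2, rfl⟩ k
    exact disjoint_left.2 fun a j1 j2 => disjoint_left.1 (H.2 k1 k2 fun i => k (i ▸ rfl)) j1 j2
  · rintro _ ⟨P, k1, rfl⟩ _ ⟨Q, k2, rfl⟩ a j1 b j2 j3 j4
    by_contra k
    have i1 : Sum.inr ⟨h a, hr a⟩ ∈ P := ((H.1 P k1).1.proj hr).2.ge ⟨j4, a, j1, rfl⟩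
    exact disjoint_left.1 (H.2 k1 k2 fun i => k (i ▸ rfl)) i1
      (((H.1 Q k2).1.proj hr).2.ge ⟨j4, b, j2, j3.symm⟩)

theorem IsPath.lift (hr : ∀ e, h e ≠ r) (hv : v ≠ r) (H : IsPath t h r v P) :
    ∃ Q, IsPath (spT t r) (spH h r) (r, true) (v, false) Q ∧ Q ⊆ spL h r v P ∧
      ∀ e ∈ P, h e = v → Sum.inl e ∈ Q := by
  obtain ⟨p, h1, h2, rfl⟩ := H
  obtain ⟨q, k1, k2, k3⟩ := exists_path (h1.lift (P := {e | e ∈ p}) hr (fun _ k => k) hv.symm)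
  refine ⟨_, ⟨q, k1, k2, rfl⟩, k3, fun e j1 j2 => ?_⟩
  obtain ⟨z, j3, -, j4⟩ := k1.cross (B := {(v, false)}) (fun k => by cases congrArg Prod.snd k) rfl
  cases z with
  | inr x => cases congrArg Prod.snd j4
  | inl a =>
    obtain rfl : a = e := List.inj_on_of_nodup_map (List.nodup_cons.1 h2).2 (k3 _ j3) j1
      ((congrArg Prod.fst j4).trans j2.symm)
    exact j3

theorem split_flame (hr : ∀ e, h e ≠ r)
    (hF : ∀ v, v ≠ r → ∃ Fam, PathFamily t h r v F Fam ∧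
      (∀ P ∈ Fam, ∀ Q ∈ Fam, ∀ a ∈ P, ∀ b ∈ Q, h a = h b → h a ≠ v → P = Q) ∧
      ∀ e ∈ F, h e = v → e ∈ ⋃₀ Fam) :
    IsFlame (spT t r) (spH h r) (r, true)
      {z | Sum.elim (fun e => e ∈ F) (fun x => ∃ a ∈ F, h a = x.1) z} := by
  have sub : ∀ v, ∀ P ⊆ F, spL h r v P ⊆
      {z | Sum.elim (fun e => e ∈ F) (fun x => ∃ a ∈ F, h a = x.1) z} := by
    rintro v P k (e | x) j
    · exact k j
    · obtain ⟨-, a, j1, j2⟩ := j
      exact ⟨a, k j1, j2⟩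
  rintro ⟨v, b⟩ hv
  by_cases c : ∃ a ∈ F, h a = v
  swap
  · refine ⟨∅, ⟨fun _ k => k.elim, pairwiseDisjoint_empty⟩, ?_⟩
    rintro (e | x) j1 j2
    · exact (c ⟨e, j1, congrArg Prod.fst j2⟩).elim
    · obtain ⟨a, k1, k2⟩ := j1
      exact (c ⟨a, k1, k2.trans (congrArg Prod.fst j2)⟩).elim
  obtain ⟨a, ha, rfl⟩ := c
  obtain ⟨Fam, h1, h2, h3⟩ := hF _ (hr a)
  choose Q q1 q2 q3 using fun P : Fam => (h1.1 P P.2).1.lift hr (hr a)
  cases b with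
  | false =>
    refine ⟨range Q, ⟨?_, ?_⟩, ?_⟩
    · rintro _ ⟨P, rfl⟩
      exact ⟨q1 P, (q2 P).trans (sub _ _ (h1.1 P P.2).2)⟩
    · rintro _ ⟨P, rfl⟩ _ ⟨P', rfl⟩ k
      have j : P.1 ≠ P'.1 := fun j => k (congrArg Q (Subtype.ext j))
      refine disjoint_left.2 ?_
      rintro (e | x) j1 j2
      · exact disjoint_left.1 (h1.2 P.2 P'.2 j) (q2 P j1) (q2 P' j2)
      · obtain ⟨i1, b, i2, i3⟩ := q2 P j1
        obtain ⟨-, c, i4, i5⟩ := q2 P' j2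
        exact j (h2 P P.2 P' P'.2 b i2 c i4 (i3.trans i5.symm) (i3 ▸ i1))
    · rintro (e | x) j1 j2
      · obtain ⟨P, k1, k2⟩ := h3 e j1 (congrArg Prod.fst j2)
        exact ⟨_, ⟨⟨P, k1⟩, rfl⟩, q3 _ e k2 (congrArg Prod.fst j2)⟩
      · cases congrArg Prod.snd j2
  | true =>
    obtain ⟨P, k1, -⟩ := h3 a ha rfl
    obtain ⟨p, k2, -, k3⟩ := q1 ⟨P, k1⟩
    obtain ⟨q, j1, j2, j3⟩ := exists_path (ReflTransGen.tail
      (k2.rch.mono ((k3.ge.trans (q2 _)).trans (sub _ _ (h1.1 P k1).2)))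
      ⟨Sum.inr ⟨h a, hr a⟩, ⟨a, ha, rfl⟩, rfl, rfl⟩)
    refine ⟨{{e | e ∈ q}}, ⟨?_, pairwiseDisjoint_singleton _ _⟩, ?_⟩
    · rintro _ rfl
      exact ⟨⟨q, j1, j2, rfl⟩, j3⟩
    · obtain ⟨z, i1, -, i2⟩ := j1.cross (B := {(h a, true)}) hv.symm rfl
      rintro (e | x) - i3
      · cases congrArg Prod.snd i3
      · cases z with
        | inl e => cases congrArg Prod.snd i2
        | inr y =>
          obtain rfl : x = y := Subtype.ext ((congrArg Prod.fst i3).trans (congrArg Prod.fst i2).symm)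
          exact ⟨_, rfl, i1⟩

theorem split_thin (hr : ∀ e, h e ≠ r) (hc : ∀ v, #{e | e ∈ F ∧ h e = v} ≤ ℵ₀)
    (e : E ⊕ {x : V // x ≠ r})
    (he : ℵ₀ < lam (spT t r) (spH h r) (r, true) (spH h r e)) :
    #{a | a ∈ {z | Sum.elim (fun e => e ∈ F) (fun x : {x : V // x ≠ r} => ∃ a ∈ F, h a = x.1) z} ∧
        spH h r a = spH h r e} < lam (spT t r) (spH h r) (r, true) (spH h r e) ∧
      ∃ μ < lam (spT t r) (spH h r) (r, true) (spH h r e), ∀ y, y ≠ spH h r e →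
        lam (spT t r) (spH h r) (spH h r e) y ≤ μ := by
  cases e with
  | inr x =>
    rcases (rch_of_lam (Z := {Sum.inr x}) ((mk_singleton _).trans_lt
      (one_lt_aleph0.trans he))).cases_tail with k | ⟨_, -, z, k1, -, k2⟩
    · exact (x.2 (congrArg Prod.fst k)).elim
    · cases z with
      | inl a => cases congrArg Prod.snd k2
      | inr y => exact (k1 (congrArg Sum.inr (Subtype.ext (congrArg Prod.fst k2)))).elim
  | inl e =>
    refine ⟨(Set.Countable.le_aleph0 (((le_aleph0_iff_set_countable.1 (hc (h e))).image Sum.inl).mono ?_)).trans_lt he, 1,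
      one_lt_aleph0.trans he, fun y hy => not_lt.1 fun k => ?_⟩
    · rintro (a | x) ⟨k1, k2⟩
      · exact ⟨a, ⟨k1, congrArg Prod.fst k2⟩, rfl⟩
      · cases congrArg Prod.snd k2
    · rcases (rch_of_lam (Z := {Sum.inr ⟨h e, hr e⟩}) ((mk_singleton _).trans_lt k)).cases_head
        with j | ⟨_, ⟨z, k1, k2, -⟩, -⟩
      · exact hy j.symm
      · cases z with
        | inl a => cases congrArg Prod.snd k2
        | inr y => exact k1 (congrArg Sum.inr (Subtype.ext (congrArg Prod.fst k2)))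

theorem IsPath.inj (H : IsPath t h u v P) : InjOn h P := by
  obtain ⟨p, -, h2, rfl⟩ := H
  exact fun a j1 b j2 => List.inj_on_of_nodup_map (List.nodup_cons.1 h2).2 j1 j2

/-- From a large flame of the split digraph to a large vertex-flame. -/
theorem split_back (hr : ∀ e, h e ≠ r) {L : Set (E ⊕ {x : V // x ≠ r})}
    (h1 : IsFlame (spT t r) (spH h r) (r, true) L) (h2 : IsLarge (spT t r) (spH h r) (r, true) L) :
    (∀ v, v ≠ r → ∃ Fam, PathFamily t h r v (Sum.inl ⁻¹' L) Fam ∧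
      (∀ P ∈ Fam, ∀ Q ∈ Fam, ∀ a ∈ P, ∀ b ∈ Q, h a = h b → h a ≠ v → P = Q) ∧
      ∀ e ∈ Sum.inl ⁻¹' L, h e = v → e ∈ ⋃₀ Fam) ∧
    ∀ v, v ≠ r → ∃ (Fam : Set (Set E)) (C : Set E) (S : Set V),
      PathFamily t h r v (Sum.inl ⁻¹' L) Fam ∧
      (∀ P ∈ Fam, ∀ Q ∈ Fam, ∀ a ∈ P, ∀ b ∈ Q, h a = h b → h a ≠ v → P = Q) ∧
      (∀ P, IsPath t h r v P → ∃ a ∈ P, a ∈ C ∨ h a ∈ S) ∧ v ∉ S ∧ (∀ a ∈ C, h a ∉ S) ∧
      C ⊆ ⋃₀ Fam ∧ (∀ x ∈ S, ∃ a ∈ ⋃₀ Fam, h a = x) ∧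
      ∀ P ∈ Fam, ∃! a, a ∈ P ∧ (a ∈ C ∨ h a ∈ S) := by
  refine ⟨fun v hv => ?_, fun v hv => ?_⟩
  · obtain ⟨Fam, k1, k2⟩ := h1 (v, false) fun k => by cases congrArg Prod.snd k
    refine ⟨_, (k1.proj hr).1, (k1.proj hr).2, fun e j1 j2 => ?_⟩
    obtain ⟨Q, j3, j4⟩ := k2 (Sum.inl e) j1 (congrArg (fun x => (x, false)) j2)
    exact ⟨_, ⟨Q, j3, rfl⟩, j4⟩
  obtain ⟨Fam, C, k1, k2, k3, k4⟩ := h2 (v, false) fun k => by cases congrArg Prod.snd k
  have key : ∀ P, ∀ z ∈ spL h r v P, z ∈ C →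
      ∃ a ∈ P, Sum.inl a ∈ C ∨ h a ∈ Subtype.val '' (Sum.inr ⁻¹' C) := by
    rintro P (e | x) j1 j2
    · exact ⟨e, j1, Or.inl j2⟩
    · obtain ⟨-, a, j3, j4⟩ := j1
      exact ⟨a, j3, Or.inr ⟨x, j2, j4.symm⟩⟩
  have k5 : v ∉ Subtype.val '' (Sum.inr ⁻¹' C) := by
    rintro ⟨x, j, rfl⟩
    obtain ⟨Q, j1, j2⟩ := k3 j
    exact (((k1.1 Q j1).1.proj hr).2.le j2).1 rfl
  have k6 : ∀ Q ∈ Fam, ∀ a, Sum.inl a ∈ Q → h a ∈ Subtype.val '' (Sum.inr ⁻¹' C) →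
      Sum.inr ⟨h a, hr a⟩ ∈ Q ∧ Sum.inr ⟨h a, hr a⟩ ∈ C := by
    intro Q j a j1 j2
    refine ⟨((k1.1 Q j).1.proj hr).2.ge ⟨fun i => k5 (i ▸ j2), a, j1, rfl⟩, ?_⟩
    obtain ⟨x, j3, j4⟩ := j2
    obtain rfl : x = ⟨h a, hr a⟩ := Subtype.ext j4
    exact j3
  refine ⟨_, Sum.inl ⁻¹' C, Subtype.val '' (Sum.inr ⁻¹' C), (k1.proj hr).1, (k1.proj hr).2,
    fun P j => ?_, k5, fun a j1 j2 => ?_, fun a j => ?_, ?_, ?_⟩
  · obtain ⟨Q, j1, j2, -⟩ := j.lift hr hv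
    obtain ⟨z, j3, j4⟩ := k2 Q j1
    exact key P z (j2 j3) j4
  · obtain ⟨Q, j3, j4⟩ := k3 j1
    cases (k4 Q j3).unique ⟨j4, j1⟩ (k6 Q j3 a j4 j2)
  · obtain ⟨Q, j1, j2⟩ := k3 j
    exact ⟨_, ⟨Q, j1, rfl⟩, j2⟩
  · rintro _ ⟨x, j, rfl⟩
    obtain ⟨Q, j1, j2⟩ := k3 j
    obtain ⟨-, a, j3, j4⟩ := ((k1.1 Q j1).1.proj hr).2.le j2
    exact ⟨a, ⟨_, ⟨Q, j1, rfl⟩, j3⟩, j4⟩
  · rintro _ ⟨Q, j, rfl⟩
    obtain ⟨z, j1, j2⟩ := (k4 Q j).exists
    refine existsUnique_of_exists_of_unique (key _ z (((k1.1 Q j).1.proj hr).2.le j1) j2) ?_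
    rintro a b ⟨a1, a2 | a2⟩ ⟨b1, b2 | b2⟩
    · exact Sum.inl.inj ((k4 Q j).unique ⟨a1, a2⟩ ⟨b1, b2⟩)
    · cases (k4 Q j).unique ⟨a1, a2⟩ (k6 Q j b b1 b2)
    · cases (k4 Q j).unique ⟨b1, b2⟩ (k6 Q j a a1 a2)
    · exact ((k1.1 Q j).1.proj hr).1.inj a1 b1 (congrArg Subtype.val
        (Sum.inr.inj ((k4 Q j).unique (k6 Q j a a1 a2) (k6 Q j b b1 b2))))

theorem split_root (hr : ∀ e, h e ≠ r) (e : E ⊕ {x : V // x ≠ r}) : spH h r e ≠ (r, true) := by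
  cases e with
  | inl a => exact fun k => hr a (congrArg Prod.fst k)
  | inr x => exact fun k => x.2 (congrArg Prod.fst k)

theorem split_loop (e : E ⊕ {x : V // x ≠ r}) : spT t r e ≠ spH h r e := by
  cases e <;> exact fun k => by cases congrArg Prod.snd k

end Pool.Agent.P.MP_133cc4_co
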