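import Pool.Agent.P.MP_133cc4_co.Core

/-! From quasi-flames to digraphs with countable in-degrees. -/

namespace Pool.Agent.P.MP_133cc4_co

open Set Function Relation

variable {V E : Type*} {t h : E → V} {r : V}

theorem exists_anc {G : Set E} (hG : ∀ v, {a | a ∈ G ∧ h a = v}.Countable) (t : E → V) (x : V) :
    ∃ A : Set V, x ∈ A ∧ (∀ a ∈ G, h a ∈ A → t a ∈ A) ∧ {a | a ∈ G ∧ h a ∈ A}.Countable := by
  let S : ℕ → Set V := fun n => Nat.rec {x} (fun _ s => t '' {a | a ∈ G ∧ h a ∈ s}) n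
  have key : ∀ s : Set V, s.Countable → {a | a ∈ G ∧ h a ∈ s}.Countable := by
    intro s hs
    refine (hs.biUnion fun v _ => hG v).mono ?_
    intro a ha
    exact mem_biUnion ha.2 ⟨ha.1, rfl⟩
  have hS : ∀ n, (S n).Countable := by
    intro n
    induction n with
    | zero => exact countable_singleton x
    | succ n ih => exact (key _ ih).image t
  refine ⟨⋃ n, S n, mem_iUnion.2 ⟨0, rfl⟩, ?_, key _ (countable_iUnion hS)⟩
  intro a ha h1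
  obtain ⟨n, hn⟩ := mem_iUnion.1 h1
  exact mem_iUnion.2 ⟨n + 1, a, ⟨ha, hn⟩, rfl⟩

theorem Wave.transfer {G G' : Set E} {B Y A : Set V} {U : Set E} {M : E → E → Prop}
    (H : Wave t h r G' B Y U M) (hA : ∀ a ∈ G, h a ∈ A → t a ∈ A)
    (hG : ∀ a ∈ G, h a ∈ A → a ∈ G') (hU : ∀ a ∈ U, a ∈ G ∧ h a ∈ A) :
    ∃ M', Wave t h r G B (Y ∩ A) U M' :=
  ⟨_, H.ff.restrict (fun _ ha h1 => ⟨ha, h1.1⟩) (fun _ _ hab _ _ => H.ff.memr hab),
    fun a ha => (hU a ha).1, fun h1 => H.rY h1.1, fun _ hy => H.dis hy.1, H.tB,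
    fun a ha => (H.hYB ha).imp_left fun h1 => ⟨h1, (hU a ha).2⟩,
    fun a ha h1 h2 h3 => H.ent (hG a ha h1.2) h1.1 (fun h4 => h2 ⟨h4, hA a ha h1.2⟩) h3⟩

theorem Wave.heads {G : Set E} {x : V} {Y A : Set V} {U : Set E} {M : E → E → Prop}
    (H : Wave t h r G {x} Y U M) (hx : x ∈ A) (hA : ∀ a ∈ U, h a ∈ A → t a ∈ A) :
    ∀ a ∈ U, h a ∈ A := by
  intro a
  induction a using H.ff.wf.induction with
  | _ a ih =>
    intro ha
    rcases H.hYB ha with h1 | h1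
    · obtain ⟨b, hb⟩ := H.ff.tot ha h1
      rw [H.ff.adj hb]
      exact hA b (H.ff.memr hb) (ih b hb (H.ff.memr hb))
    · exact (mem_singleton_iff.1 h1) ▸ hx

theorem Just.transfer {L L' : Set E} {A : Set V} {e : E} (H : Just t h r L e) (he : h e ∈ A)
    (he' : t e ∈ A) (hA : ∀ a ∈ L, h a ∈ A → t a ∈ A) (hL : ∀ a, h a ∈ A → (a ∈ L ↔ a ∈ L')) :
    Just t h r L' e := by
  obtain ⟨Y, U, M, h1, h2⟩ := H
  have h3 := h1.heads he fun a ha => hA a (h1.sub ha)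
  obtain ⟨M', h4⟩ := h1.transfer (G := L') (A := A)
    (fun a ha h4 => hA a ((hL a h4).2 ha) h4) (fun a ha h4 => (hL a h4).2 ha)
    (fun a ha => ⟨(hL a (h3 a ha)).1 (h1.sub ha), h3 a ha⟩)
  exact ⟨_, U, M', h4, h2, he'⟩

theorem Lk.transfer {L L' T : Set E} {A B : Set V} (H : Lk t h r L B T) (hT : ∀ a ∈ T, h a ∈ A)
    (hA : ∀ a ∈ L, h a ∈ A → t a ∈ A) (hL : ∀ a ∈ L, h a ∈ A → a ∈ L') : Lk t h r L' B T := by
  obtain ⟨U, M, h1, h2, h3, h4⟩ := H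
  refine ⟨{a | a ∈ U ∧ h a ∈ A}, _, h1.restrict (fun a ha h5 => ⟨ha.1, h5⟩) ?_,
    fun a ha => hL a (h2 ha.1) ha.2, fun a ha => h3 a ha.1, fun a ha => ⟨h4 ha, hT a ha⟩⟩
  intro a b hab ha _
  exact ⟨h1.memr hab, h1.adj hab ▸ hA a (h2 ha.1) ha.2⟩

/-- The largest bubble of a vertex. -/
theorem bubble_final {D L : Set E} (hL : ∀ v, {a | a ∈ L ∧ h a = v}.Countable)
    (hJ : ∀ e ∈ D, e ∉ L → Just t h r L e) {x : V} (hx : x ≠ r) :
    ∃ Y U M, Wave t h r L {x} Y U M ∧ (∀ e ∈ D, h e ∈ {x} ∪ Y → t e ∉ {x} ∪ Y → e ∈ L) ∧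
      (∀ Y' U' M', Wave t h r L ({x} ∪ Y) Y' U' M' → Y' = ∅) ∧
      Lk t h r L ({x} ∪ Y) {a | a ∈ L ∧ h a ∈ {x} ∪ Y ∧ t a ∉ {x} ∪ Y} := by
  obtain ⟨Y, U, M, h1, -, -, h2⟩ := exists_max_wave t h r L {x} (fun _ => True)
    fun _ _ _ _ => trivial
  have h3 : ∀ Y' U' M', Wave t h r L ({x} ∪ Y) Y' U' M' → Y' = ∅ :=
    fun Y' U' M' h3 => h2 Y' U' M' h3 fun _ _ => trivial
  refine ⟨Y, U, M, h1, ?_, h3, ?_⟩
  · intro e he h4 h5
    by_contra h6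
    obtain ⟨Y', U', M', h7, h8⟩ := hJ e he h6
    obtain ⟨U'', M'', h9, -⟩ := h7.enlarge (B' := {x} ∪ Y) (singleton_subset_iff.2 h4)
    have h10 := h3 _ _ _ h9
    exact (h10 ▸ (⟨h8, h5⟩ : t e ∈ Y' \ ({x} ∪ Y)) : t e ∈ (∅ : Set V))
  · obtain ⟨A, hxA, hA, hc⟩ := exists_anc hL t x
    refine (lk_of_not_hind (B := {x} ∪ Y) hc (fun h4 => h4.elim (fun h5 => hx h5.symm) h1.rY)
      ?_).mono (fun a ha => ha.1) ?_
    · rintro ⟨Y', U', M', h4, -, z, h5, -, h6, -⟩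
      obtain ⟨M'', h7⟩ := h4.transfer (G := L) (A := A) hA (fun a ha h7 => ⟨ha, h7⟩)
        (fun a ha => h4.sub ha)
      have h8 := h3 _ _ _ h7
      exact (h8 ▸ (⟨h6, hA z h5.1 h5.2⟩ : t z ∈ Y' ∩ A) : t z ∈ (∅ : Set V))
    · intro a ha
      refine ⟨⟨ha.1, ?_⟩, ha.2⟩
      rcases ha.2.1 with h4 | h4
      · exact (mem_singleton_iff.1 h4) ▸ hxA
      · exact h1.heads hxA (fun b hb => hA b (h1.sub hb)) a
          (h1.ent ha.1 h4 (fun h5 => ha.2.2 (Or.inr h5)) fun h5 => ha.2.2 (Or.inl h5))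

/-- An edge that cannot be added to a quasi-flame is justified in every large subgraph. -/
theorem just_of_not_qf {Z L : Set E} (hLZ : L ⊆ Z) (hL : ∀ v, {a | a ∈ L ∧ h a = v}.Countable)
    (hJ : ∀ e ∈ Z, e ∉ L → Just t h r L e) {e : E} (hr : h e ≠ r) (hloop : t e ≠ h e)
    (hQ : QF t h r Z (h e)) (hn : ¬ QF t h r (insert e Z) (h e)) : Just t h r L e := by
  obtain ⟨Y, U, M, hw, hcut, hloose, U1, M1, hf, hU1, hU1t, hTU⟩ := bubble_final hL hJ hr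
  refine ⟨Y, U, M, hw, ?_⟩
  unfold QF at hn
  push Not at hn
  obtain ⟨J, h1, h2, h3, h4⟩ := hn
  have hI : Lk t h r Z {h e} (J \ {e}) := hQ _ (fun a ha => (h1 ha.1).resolve_left ha.2)
    (h2.subset sdiff_subset) fun a ha => h3 a ha.1
  have hIx : ∀ a ∈ J \ {e}, h a = h e := fun a ha => h3 a ha.1
  obtain ⟨W, hrW, hW, heW, hle⟩ := (hI.mono (subset_insert e Z) Subset.rfl).cut (N := {e}) hIx (by
    rintro _ rfl
    refine ⟨Or.inl rfl, rfl, hloop, fun h5 => h4 (h5.mono Subset.rfl ?_)⟩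
    rw [insert_sdiff_singleton]
    exact subset_insert _ _)
  let C0 : Set E := {a | a ∈ Ent t h Z {h e} W ∧ h a ∈ Y}
  let C' : Set E := Ent t h Z ({h e} ∪ Y) (W \ Y)
  let E' : Set E := {a | a ∈ Z ∧ t a ∈ W \ Y ∧ h a ∈ {h e} ∪ Y}
  have hfin : (Ent t h (insert e Z) {h e} W).Finite := by
    refine finite_of_encard_le_coe (k := J.ncard) (hle.trans ?_)
    rw [h2.cast_ncard_eq]
    exact encard_le_encard fun a ha => ha.1.1
  have hsub : C0 ∪ C' ⊆ Ent t h (insert e Z) {h e} W := by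
    rintro a (ha | ha)
    · exact ⟨Or.inr ha.1.1, ha.1.2⟩
    · exact ⟨Or.inr ha.1, ha.2.1.1, fun h5 => ha.2.2.1 ⟨h5, fun h6 => ha.2.2.2 (Or.inr h6)⟩,
        fun h5 => ha.2.2.2 (Or.inl h5)⟩
  have k1 : C0.encard + C'.encard ≤ {a | a ∈ J \ {e} ∧ t a ∈ W}.encard := by
    rw [← encard_union_eq (disjoint_left.2 fun a h5 h6 => h6.2.1.2 h5.2)]
    exact (encard_le_encard hsub).trans hle
  have k2 : {a | a ∈ J \ {e} ∧ t a ∈ W ∩ Y}.encard ≤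
      C0.encard + {a | a ∈ E' ∧ h a ∈ Y}.encard := by
    refine (hI.count hIx (fun h5 => hrW h5.1) fun y hy => hW y hy.1).trans
      ((encard_le_encard ?_).trans (encard_union_le _ _))
    rintro a ⟨h5, h6, h7, h8⟩
    by_cases h9 : t a ∈ W
    · exact Or.inr ⟨⟨h5, ⟨h9, fun h10 => h7 ⟨h9, h10⟩⟩, Or.inr h6.2⟩, h6.2⟩
    · exact Or.inl ⟨⟨h5, h6.1, h9, h8⟩, h6.2⟩
  have k3 : {a | a ∈ J \ {e} ∧ t a ∈ W}.encard ≤
      {a | a ∈ J \ {e} ∧ t a ∈ W ∩ Y}.encard + {a | a ∈ E' ∧ h a ∉ Y}.encard := by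
    refine (encard_le_encard ?_).trans (encard_union_le _ _)
    intro a ha
    by_cases h5 : t a ∈ Y
    · exact Or.inl ⟨ha.1, ha.2, h5⟩
    · exact Or.inr ⟨⟨hI.sub ha.1, ⟨ha.2, h5⟩, Or.inl (hIx a ha.1)⟩,
        fun h6 => hw.dis h6 (hIx a ha.1)⟩
  have k4 : {a | a ∈ E' ∧ h a ∈ Y}.encard + {a | a ∈ E' ∧ h a ∉ Y}.encard ≤ E'.encard := by
    rw [← encard_union_eq (disjoint_left.2 fun a h5 h6 => h6.2 h5.2)]
    exact encard_le_encard fun a ha => ha.elim (fun h5 => h5.1) fun h5 => h5.1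
  have k5 : C'.encard ≤ E'.encard := by
    have hC0 : C0.Finite := hfin.subset (subset_union_left.trans hsub)
    refine (ENat.add_le_add_iff_left hC0.encard_lt_top.ne).1 (k1.trans (k3.trans ?_))
    calc _ ≤ C0.encard + {a | a ∈ E' ∧ h a ∈ Y}.encard + {a | a ∈ E' ∧ h a ∉ Y}.encard :=
          add_le_add_left k2 _
      _ ≤ _ := by
          rw [add_assoc]
          exact add_le_add_right k4 _
  have hWB : ∀ y ∈ W \ Y, y ∉ {h e} ∪ Y := fun y hy h5 => h5.elim (hW y hy.1) hy.2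
  obtain ⟨U', M', h5, h6, h7, h8, -⟩ := (hf.restrict (Y' := W \ Y) (C := U1)
    (fun a ha h5 => ⟨ha, fun h6 => hrW (h6 ▸ h5.1), hWB _ h5⟩)
    (fun a b hab _ _ => hf.memr hab)).normalize (S := E')
    (fun a ha => hTU ⟨hcut a ha.1 ha.2.2 (hWB _ ha.2.1), ha.2.2, hWB _ ha.2.1⟩)
    (fun a ha h5 => hWB _ h5 ha.2.2)
  obtain ⟨f, hf1, hf2⟩ := h5.toFF.exists_inj h6
    (fun a _ b hb hab => h5.toMat.eq_of_source hab fun h9 => hWB _ h9 hb.2.2)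
  have k6 : E'.encard ≤ (C' ∩ U').encard := by
    refine encard_le_encard_of_injOn (fun a ha => ?_) hf1
    obtain ⟨h9, h10, h11⟩ := hf2 a ha
    obtain ⟨c, hc⟩ := rtg_tail_of_ne h9 (fun h12 => h11 (h12 ▸ ha.2.1))
    exact ⟨⟨hLZ (hU1 (h7 h10)), h5.toMat.int' hc, h11, hU1t _ (h7 h10)⟩, h10⟩
  have k7 : C' ∩ U' = C' := ((hfin.subset (subset_union_right.trans hsub)).subset
    inter_subset_left).eq_of_subset_of_encard_le inter_subset_left (k5.trans k6)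
  have k8 := hloose (W \ Y) U' _ ⟨h5.bf, h7.trans hU1, fun h9 => hrW h9.1, hWB,
    fun a ha => hU1t a (h7 ha), fun a ha => by
      by_cases h9 : h a ∈ W \ Y
      · exact Or.inl h9
      · exact Or.inr (h8 a ha h9).2.2,
    fun a ha h9 h10 h11 => (k7.symm ▸ (⟨hLZ ha, h9, h10, h11⟩ : a ∈ C') : a ∈ C' ∩ U').2⟩
  by_contra h9
  exact (k8 ▸ (⟨heW e rfl, h9⟩ : t e ∈ W \ Y) : t e ∈ (∅ : Set V))

/-- A maximal quasi-flame. -/
theorem exists_max_qf {D F : Set E} (hFD : F ⊆ D) (hr : ∀ e, h e ≠ r) (hloop : ∀ e, t e ≠ h e)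
    (hF : ∀ x, x ≠ r → Lk t h r F {x} {a | a ∈ F ∧ h a = x}) :
    ∃ Z, F ⊆ Z ∧ Z ⊆ D ∧ (∀ x, x ≠ r → QF t h r Z x) ∧
      ∀ L ⊆ Z, (∀ v, {a | a ∈ L ∧ h a = v}.Countable) → (∀ e ∈ Z, e ∉ L → Just t h r L e) →
        ∀ e ∈ D, e ∉ L → Just t h r L e := by
  obtain ⟨Z, h1, ⟨h2, h3⟩, h4⟩ := zorn_subset_nonempty
    {Z | Z ⊆ D ∧ ∀ x, x ≠ r → QF t h r Z x} (by
      intro C hC hch hne
      refine ⟨⋃₀ C, ⟨sUnion_subset fun T hT => (hC hT).1, fun x hx J h1 h2 h3 => ?_⟩,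
        fun s hs => subset_sUnion_of_mem hs⟩
      obtain ⟨T, hT, h4⟩ := hch.directedOn.exists_mem_subset_of_finite_of_subset_sUnion hne h2 h1
      exact ((hC hT).2 x hx J h4 h2 h3).mono (subset_sUnion_of_mem hT) Subset.rfl) F
    ⟨hFD, fun x hx J h1 _ h3 => (hF x hx).mono Subset.rfl fun a ha => ⟨h1 ha, h3 a ha⟩⟩
  refine ⟨Z, h1, h2, h3, fun L h5 h6 h7 e he heL => ?_⟩
  by_cases heZ : e ∈ Z
  · exact h7 e heZ heL
  refine just_of_not_qf h5 h6 h7 (hr e) (hloop e) (h3 _ (hr e)) fun h8 => heZ ?_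
  refine h4 (y := insert e Z) ⟨insert_subset he h2, fun x hx => ?_⟩ (subset_insert _ _) (Or.inl rfl)
  by_cases h9 : x = h e
  · exact h9 ▸ h8
  · intro J h10 h11 h12
    exact (h3 x hx J (fun a ha => (h10 ha).resolve_left fun h13 => h9 (h13 ▸ (h12 a ha).symm))
      h11 h12).mono (subset_insert _ _) Subset.rfl

/-- The countable case. -/
theorem core_countable {D F : Set E} (hD : D.Countable) (hr : ∀ e, h e ≠ r)
    (hloop : ∀ e, t e ≠ h e) (hFD : F ⊆ D)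
    (hF : ∀ x, x ≠ r → Lk t h r F {x} {a | a ∈ F ∧ h a = x})
    (hfin : ∀ x, {a | a ∈ F ∧ h a = x}.Finite ∨ ∀ e ∈ D, h e = x → e ∈ F) :
    ∃ L, F ⊆ L ∧ L ⊆ D ∧ (∀ x, x ≠ r → Lk t h r L {x} {a | a ∈ L ∧ h a = x}) ∧
      ∀ e ∈ D, e ∉ L → Just t h r L e := by
  obtain ⟨Z, h1, h2, h3, h4⟩ := exists_max_qf hFD hr hloop hF
  obtain ⟨L, h5, h6, h7, h8⟩ := core (hD.mono h2) hr hloop h1 h3 hF
    fun x => (hfin x).imp_right fun h5 e he => h5 e (h2 he)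
  exact ⟨L, h5, h6.trans h2, h7, h4 L h6 (fun v => hD.mono fun a ha => h2 (h6 ha.1)) h8⟩

/-- The case of countable in-degrees. -/
theorem core_indeg {D F : Set E} (hD : ∀ v, {a | a ∈ D ∧ h a = v}.Countable) (hr : ∀ e, h e ≠ r)
    (hloop : ∀ e, t e ≠ h e) (hFD : F ⊆ D)
    (hF : ∀ x, x ≠ r → Lk t h r F {x} {a | a ∈ F ∧ h a = x})
    (hfin : ∀ x, {a | a ∈ F ∧ h a = x}.Finite ∨ ∀ e ∈ D, h e = x → e ∈ F) :
    ∃ L, F ⊆ L ∧ L ⊆ D ∧ (∀ x, x ≠ r → Lk t h r L {x} {a | a ∈ L ∧ h a = x}) ∧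
      ∀ e ∈ D, e ∉ L → Just t h r L e := by
  let Good : Set V × Set E → Prop := fun p => (∀ a ∈ D, h a ∈ p.1 → t a ∈ p.1) ∧
    (∀ a ∈ p.2, a ∈ D ∧ h a ∈ p.1) ∧ (∀ a ∈ F, h a ∈ p.1 → a ∈ p.2) ∧
    (∀ x ∈ p.1, x ≠ r → Lk t h r p.2 {x} {a | a ∈ p.2 ∧ h a = x}) ∧
    ∀ e ∈ D, h e ∈ p.1 → e ∉ p.2 → Just t h r p.2 e
  let R : {p // Good p} → {p // Good p} → Prop := fun p q =>
    p.1.1 ⊆ q.1.1 ∧ ∀ a, h a ∈ p.1.1 → (a ∈ p.1.2 ↔ a ∈ q.1.2)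
  have : Nonempty {p // Good p} := ⟨⟨(∅, ∅), fun _ _ h1 => h1, fun _ h1 => h1.elim,
    fun _ _ h1 => h1.elim, fun _ h1 => h1.elim, fun _ _ h1 => h1.elim⟩⟩
  obtain ⟨⟨⟨A, L⟩, g1, g2, g3, g4, g5⟩, hmax⟩ := exists_maximal_of_nonempty_chains_bounded (r := R)
    (by
      intro C hC _
      have key : ∀ p ∈ C, ∀ a, h a ∈ p.1.1 → (a ∈ p.1.2 ↔ a ∈ ⋃ q ∈ C, q.1.2) := by
        intro p hp a ha
        refine ⟨fun h1 => mem_biUnion hp h1, fun h1 => ?_⟩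
        obtain ⟨q, hq, h2⟩ := mem_iUnion₂.1 h1
        by_cases hpq : p = q
        · exact hpq ▸ h2
        rcases hC hp hq hpq with h3 | h3
        · exact (h3.2 a ha).2 h2
        · exact (h3.2 a (q.2.2.1 a h2).2).1 h2
      refine ⟨⟨(⋃ q ∈ C, q.1.1, ⋃ q ∈ C, q.1.2), ?_, ?_, ?_, ?_, ?_⟩,
        fun p hp => ⟨subset_biUnion_of_mem (u := fun q : {p // Good p} => q.1.1) hp, key p hp⟩⟩
      · intro a ha h1
        obtain ⟨q, hq, h2⟩ := mem_iUnion₂.1 h1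
        exact mem_biUnion hq (q.2.1 a ha h2)
      · intro a h1
        obtain ⟨q, hq, h2⟩ := mem_iUnion₂.1 h1
        exact ⟨(q.2.2.1 a h2).1, mem_biUnion hq (q.2.2.1 a h2).2⟩
      · intro a ha h1
        obtain ⟨q, hq, h2⟩ := mem_iUnion₂.1 h1
        exact mem_biUnion hq (q.2.2.2.1 a ha h2)
      · intro x h1 hx
        obtain ⟨q, hq, h2⟩ := mem_iUnion₂.1 h1
        exact (q.2.2.2.2.1 x h2 hx).mono
          (subset_biUnion_of_mem (u := fun q : {p // Good p} => q.1.2) hq)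
          fun a ha => ⟨(key q hq a (ha.2 ▸ h2)).2 ha.1, ha.2⟩
      · intro e he h1 h3
        obtain ⟨q, hq, h2⟩ := mem_iUnion₂.1 h1
        exact (q.2.2.2.2.2 e he h2 fun h4 => h3 (mem_biUnion hq h4)).transfer h2 (q.2.1 e he h2)
          (fun a ha => q.2.1 a (q.2.2.1 a ha).1) (key q hq))
    (fun h1 h2 => ⟨h1.1.trans h2.1, fun a ha => (h1.2 a ha).trans (h2.2 a (h1.1 ha))⟩)
  dsimp only at g1 g2 g3 g4 g5
  have hA : ∀ v, v ∈ A := by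
    intro v
    obtain ⟨C, hvC, hC, hc⟩ := exists_anc hD t v
    let D' : Set E := {a | a ∈ D ∧ h a ∈ C ∧ (h a ∈ A → a ∈ L)}
    let F' : Set E := {a | a ∈ D' ∧ (h a ∉ A → a ∈ F)}
    obtain ⟨L', k1, k2, k3, k4⟩ := core_countable (t := t) (D := D') (F := F')
      (hc.mono fun a ha => And.intro ha.1 ha.2.1) hr hloop (fun a ha => ha.1) (by
        intro x hx
        by_cases hxC : x ∈ C
        swap
        · refine lk_empty.mono Subset.rfl fun a ha => hxC (ha.2 ▸ ha.1.1.2.1)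
        by_cases hxA : x ∈ A
        · refine ((g4 x hxA hx).transfer (A := C) (L' := F') (fun a ha => ha.2 ▸ hxC)
            (fun a ha => hC a (g2 a ha).1) fun a ha h1 => ⟨⟨(g2 a ha).1, h1, fun _ => ha⟩,
              fun h2 => (h2 (g2 a ha).2).elim⟩).mono Subset.rfl
            fun a ha => ⟨ha.1.1.2.2 (ha.2 ▸ hxA), ha.2⟩
        · refine ((hF x hx).transfer (A := C) (L' := F') (fun a ha => ha.2 ▸ hxC)
            (fun a ha => hC a (hFD ha)) fun a ha h1 => ⟨⟨hFD ha, h1, g3 a ha⟩,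
              fun _ => ha⟩).mono Subset.rfl
            fun a ha => ⟨ha.1.2 (ha.2 ▸ hxA), ha.2⟩) (by
        intro x
        by_cases hxA : x ∈ A
        · exact Or.inr fun e he h1 => ⟨he, fun h2 => (h2 (h1 ▸ hxA)).elim⟩
        · exact (hfin x).imp (fun h1 => h1.subset fun a ha => ⟨ha.1.2 (ha.2 ▸ hxA), ha.2⟩)
            fun h1 e he h2 => ⟨he, fun _ => h1 e he.1 h2⟩)
    have e1 : ∀ a, h a ∈ A → (a ∈ L ↔ a ∈ L ∪ L') := fun a ha =>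
      ⟨Or.inl, fun h1 => h1.elim id fun h2 => (k2 h2).2.2 ha⟩
    have e2 : ∀ a, h a ∈ C → (a ∈ L' ↔ a ∈ L ∪ L') := fun a ha =>
      ⟨Or.inr, fun h1 => h1.elim (fun h2 => k1 ⟨⟨(g2 a h2).1, ha, fun _ => h2⟩,
        fun h3 => (h3 (g2 a h2).2).elim⟩) id⟩
    refine (hmax ⟨(A ∪ C, L ∪ L'), ?_, ?_, ?_, ?_, ?_⟩ ⟨subset_union_left, e1⟩).1 (Or.inr hvC)
    · exact fun a ha h1 => h1.imp (g1 a ha) (hC a ha)
    · rintro a (ha | ha)
      · exact ⟨(g2 a ha).1, Or.inl (g2 a ha).2⟩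
      · exact ⟨(k2 ha).1, Or.inr (k2 ha).2.1⟩
    · rintro a ha (h1 | h1)
      · exact Or.inl (g3 a ha h1)
      · exact Or.inr (k1 ⟨⟨hFD ha, h1, g3 a ha⟩, fun _ => ha⟩)
    · rintro x (h1 | h1) hx
      · exact (g4 x h1 hx).mono subset_union_left fun a ha => ⟨(e1 a (ha.2 ▸ h1)).2 ha.1, ha.2⟩
      · exact (k3 x hx).mono subset_union_right fun a ha => ⟨(e2 a (ha.2 ▸ h1)).2 ha.1, ha.2⟩
    · intro e he h1 h2
      by_cases h3 : h e ∈ A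
      · exact (g5 e he h3 fun h4 => h2 (Or.inl h4)).transfer h3 (g1 e he h3)
          (fun a ha => g1 a (g2 a ha).1) e1
      · have h4 := h1.resolve_left h3
        exact (k4 e ⟨he, h4, fun h5 => (h3 h5).elim⟩ fun h5 => h2 (Or.inr h5)).transfer h4
          (hC e he h4) (fun a ha => hC a (k2 ha).1) e2
  exact ⟨L, fun a ha => g3 a ha (hA _), fun a ha => (g2 a ha).1, fun x hx => g4 x (hA x) hx,
    fun e he h1 => g5 e he (hA _) h1⟩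

end Pool.Agent.P.MP_133cc4_co
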