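import Pool.Agent.P.MP_133cc4_co.Wave

/-! A countable edge version of the linkability theorem for unhindered webs. -/

namespace Pool.Agent.P.MP_133cc4_co

open Set Function Relation

variable {V E : Type*} {t h : E → V} {r : V} {G : Set E} {B : Set V}

theorem exists_seq {S : Type*} (Inv : S → Prop) (R : ℕ → S → S → Prop) (s0 : S) (h0 : Inv s0)
    (step : ∀ n s, Inv s → ∃ s', Inv s' ∧ R n s s') :
    ∃ f : ℕ → S, f 0 = s0 ∧ ∀ n, Inv (f n) ∧ R n (f n) (f (n + 1)) := by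
  choose g hg using step
  let F : ℕ → {s // Inv s} := fun n =>
    Nat.rec ⟨s0, h0⟩ (fun n s => ⟨g n s.1 s.2, (hg n s.1 s.2).1⟩) n
  exact ⟨fun n => (F n).1, rfl, fun n => ⟨(F n).2, (hg n _ (F n).2).2⟩⟩

/-- In a loose countable web every edge into the sinks lies on a safe path. -/
theorem safe_path (hG : G.Countable)
    (hloose : ∀ Y U M, Wave t h r G B Y U M → LS Set.Finite h Y U → Y = ∅)
    {c : E} (hcG : c ∈ G) (hcB : h c ∈ B) (hct : t c ∉ B) :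
    ∃ P N, Link h t {v | v ≠ r ∧ v ∉ B} P N ∧ P ⊆ G ∧ P.Finite ∧ c ∈ P ∧ (∀ a ∈ P, t a ∉ B) ∧
      (∀ a ∈ P, h a ∈ B → a = c) ∧ ¬ Hind t h r (G \ P) B := by
  let Conn : Set E → Set V := fun T =>
    {v | ReflTransGen (fun u v => ∃ e ∈ T, h e = u ∧ t e = v) (t c) v}
  have Cmono : ∀ T T', T ⊆ T' → Conn T ⊆ Conn T' := by
    intro T T' hT v hv
    induction hv with
    | refl => exact ReflTransGen.refl
    | tail _ h1 ih =>
      obtain ⟨e, he, h2⟩ := h1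
      exact ReflTransGen.tail ih ⟨e, hT he, h2⟩
  let S : Set (Set E) := {T | T ⊆ G ∧ (∀ a ∈ T, t a ∉ B ∧ h a ∉ B ∧ h a ∈ Conn T) ∧
    ∀ F ⊆ T, F.Finite → ¬ Hind t h r (G \ insert c F) B}
  obtain ⟨T, -, hT, hTmax⟩ := zorn_subset_nonempty S (by
    intro C hC hch hne
    refine ⟨⋃₀ C, ⟨sUnion_subset fun T hT => (hC hT).1, ?_, ?_⟩, fun s hs => subset_sUnion_of_mem hs⟩
    · rintro a ⟨T, hT, ha⟩
      obtain ⟨h1, h2, h3⟩ := (hC hT).2.1 a ha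
      exact ⟨h1, h2, Cmono _ _ (subset_sUnion_of_mem hT) h3⟩
    · intro F hF hfin
      obtain ⟨T, hT, h1⟩ := hch.directedOn.exists_mem_subset_of_finite_of_subset_sUnion hne hfin hF
      exact (hC hT).2.2 F h1 hfin) ∅ (by
    refine ⟨empty_subset _, fun _ h1 => h1.elim, ?_⟩
    intro F hF _
    obtain rfl := subset_empty_iff.1 hF
    rintro ⟨Y, U, M, h1, h2, z, -, -, h3, -⟩
    have := hloose Y U M ⟨h1.ff, fun a ha => (h1.sub ha).1, h1.rY, h1.dis, h1.tB, h1.hYB,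
      fun a ha h4 h5 h6 => h1.ent ⟨ha, ?_⟩ h4 h5 h6⟩ h2
    · rw [this] at h3
      exact h3
    · rintro (rfl | h7)
      · exact h1.dis h4 hcB
      · exact h7)
  obtain ⟨hTG, hT1, hT2⟩ := hT
  have hSB : ∀ v ∈ Conn T, v ∉ B := by
    intro v hv
    rcases ReflTransGen.cases_tail hv with h1 | ⟨u, _, e, he, _, h1⟩
    · exact h1 ▸ hct
    · exact h1 ▸ (hT1 e he).1
  by_cases hrS : r ∈ Conn T
  · rcases (link_empty h t {v | v ≠ r ∧ v ∉ B}).augment (G := insert c T) (empty_subset _)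
      (c := c) (Or.inl rfl) (fun h1 => h1) (fun h1 => h1.2 hcB) with
      ⟨P, N, e, h1, h2, h3, h4, -⟩ | ⟨W, hW, h1, h2, -⟩
    · have hPfin : P.Finite := by simpa using h3
      refine ⟨P, N, h1, h2.trans (insert_subset hcG hTG), hPfin,
        (h4 c fun h5 => h5.2 hcB).2 (Or.inr rfl), ?_, ?_, ?_⟩
      · intro a ha
        rcases h2 ha with rfl | h5
        · exact hct
        · exact (hT1 a h5).1
      · intro a ha h5
        exact (h2 ha).resolve_right fun h6 => (hT1 a h6).2.1 h5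
      · have := hT2 (P \ {c}) (fun a ha => (h2 ha.1).resolve_left ha.2) (hPfin.subset sdiff_subset)
        rwa [insert_sdiff_singleton,
          insert_eq_of_mem ((h4 c fun h5 => h5.2 hcB).2 (Or.inr rfl))] at this
    · exfalso
      have : ∀ v ∈ Conn T, v ∈ W := by
        intro v hv
        induction hv with
        | refl => exact h1
        | tail _ h3 ih =>
          obtain ⟨e, he, h4, h5⟩ := h3
          exact h5 ▸ h2 e (Or.inr he) (fun h6 => h6) (h4 ▸ ih)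
      exact (hW (this r hrS)).1 rfl
  exfalso
  have bad : ∀ f, ∃ F ⊆ T, F.Finite ∧ (f ∈ G → f ∉ T → t f ∉ B → h f ∈ Conn T →
      Hind t h r ((G \ insert c F) \ {f}) B) := by
    intro f
    by_cases hf : f ∈ G ∧ f ∉ T ∧ t f ∉ B ∧ h f ∈ Conn T
    swap
    · exact ⟨∅, empty_subset _, finite_empty, fun h1 h2 h3 h4 => (hf ⟨h1, h2, h3, h4⟩).elim⟩
    have h1 : insert f T ∉ S := fun h1 =>
      hf.2.1 (hTmax h1 (subset_insert f T) (Or.inl rfl))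
    have h2 : ¬ ∀ F ⊆ insert f T, F.Finite → ¬ Hind t h r (G \ insert c F) B := by
      intro h2
      refine h1 ⟨insert_subset hf.1 hTG, ?_, h2⟩
      rintro a (rfl | ha)
      · exact ⟨hf.2.2.1, hSB _ hf.2.2.2, Cmono _ _ (subset_insert _ _) hf.2.2.2⟩
      · obtain ⟨h3, h4, h5⟩ := hT1 a ha
        exact ⟨h3, h4, Cmono _ _ (subset_insert _ _) h5⟩
    push Not at h2
    obtain ⟨F, hF, hfin, h3⟩ := h2
    refine ⟨F \ {f}, fun a ha => (hF ha.1).resolve_left ha.2, hfin.subset sdiff_subset,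
      fun _ _ _ _ => ?_⟩
    have h4 := h3.delete (f := f) (hSB _ hf.2.2.2)
    convert h4 using 1
    ext a
    simp only [mem_sdiff, mem_insert_iff, mem_singleton_iff]
    tauto
  choose F hFT hFfin hF using bad
  obtain ⟨g, hg⟩ := countable_iff_exists_injOn.1 hG
  let Fn : ℕ → Set E := fun n => ⋃ f ∈ {f | f ∈ G ∧ g f ≤ n}, F f
  have hFnT : ∀ n, Fn n ⊆ T := fun n => iUnion₂_subset fun f _ => hFT f
  have hFnfin : ∀ n, (Fn n).Finite := by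
    intro n
    refine Finite.biUnion ?_ fun f _ => hFfin f
    exact Finite.of_injOn (f := g) (t := Iic n) (fun f hf => hf.2) (hg.mono fun f hf => hf.1)
      (finite_Iic n)
  have hlev : ∀ n, ∃ Y U M, Wave t h r (G \ insert c (Fn n)) B Y U M ∧ LS Set.Finite h Y U ∧
      ∀ f ∈ G, f ∉ T → t f ∉ B → h f ∈ Conn T → g f = n → h f ∈ Y := by
    intro n
    by_cases hex : ∃ f ∈ G, f ∉ T ∧ t f ∉ B ∧ h f ∈ Conn T ∧ g f = n
    swap
    · exact ⟨∅, ∅, _, wave_empty _ _ _ _ _, fun _ h1 => h1.elim,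
        fun f h1 h2 h3 h4 h5 => (hex ⟨f, h1, h2, h3, h4, h5⟩).elim⟩
    obtain ⟨f, h1, h2, h3, h4, h5⟩ := hex
    have h6 := (hF f h1 h2 h3 h4).delete_finite (hFnfin n) fun a ha => (hT1 a (hFnT n ha)).2.1
    have h7 : F f ⊆ Fn n := subset_biUnion_of_mem (u := F) (s := {f | f ∈ G ∧ g f ≤ n})
      ⟨h1, h5.le⟩
    have h8 : Hind t h r ((G \ insert c (Fn n)) \ {f}) B := by
      convert h6 using 1
      ext a
      have := @h7 a
      simp only [mem_sdiff, mem_insert_iff, mem_singleton_iff]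
      tauto
    have h0 : f ∈ G \ insert c (Fn n) := by
      refine ⟨h1, ?_⟩
      rintro (rfl | h9)
      · exact hSB _ h4 hcB
      · exact h2 (hFnT n h9)
    rcases h8.of_delete h0 with h9 | ⟨Y, U, M, h9, h10, h11⟩
    · exact (hT2 _ (hFnT n) (hFnfin n) h9).elim
    · refine ⟨Y, U, M, h9, h10, fun f' h12 _ _ _ h13 => ?_⟩
      rw [hg h12 h1 (h13.trans h5.symm)]
      exact h11
  choose Y U M hw hl hY using hlev
  obtain ⟨U', M', h1, h2, h3, h4⟩ := wave_levels hw (by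
    intro m n hmn
    refine sdiff_subset_sdiff_right (insert_subset_insert ?_)
    exact biUnion_subset_biUnion_left fun f hf => ⟨hf.1, hf.2.trans hmn⟩)
  have hU' : ∀ a ∈ U', ∃ n, a ∈ U n := fun a ha => mem_iUnion.1 (h2 ha)
  have hdis : ∀ y ∈ (⋃ n, Y n) ∪ Conn T, y ∉ B := by
    rintro y (hy | hy)
    · obtain ⟨n, hn⟩ := mem_iUnion.1 hy
      exact (hw n).dis hn
    · exact hSB y hy
  have hhead : ∀ a ∈ U', h a ∈ (⋃ n, Y n) ∪ Conn T → h a ∈ ⋃ n, Y n := by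
    intro a ha h5
    obtain ⟨n, hn⟩ := hU' a ha
    exact mem_iUnion.2 ⟨n, ((hw n).hYB hn).resolve_right (hdis _ h5)⟩
  have := hloose ((⋃ n, Y n) ∪ Conn T) U' _
    ⟨h1.restrict (fun a ha h5 => ⟨ha, hhead a ha h5⟩) (fun a b hab _ _ => h1.memr hab), ?_, ?_,
      hdis, ?_, ?_, ?_⟩ ?_
  · exact (this ▸ (Or.inr ReflTransGen.refl : t c ∈ (⋃ n, Y n) ∪ Conn T) : t c ∈ (∅ : Set V))
  · intro a ha
    obtain ⟨n, hn⟩ := hU' a ha
    exact ((hw n).sub hn).1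
  · rintro (h5 | h5)
    · obtain ⟨n, hn⟩ := mem_iUnion.1 h5
      exact (hw n).rY hn
    · exact hrS h5
  · intro a ha
    obtain ⟨n, hn⟩ := hU' a ha
    exact (hw n).tB hn
  · intro a ha
    obtain ⟨n, hn⟩ := hU' a ha
    exact ((hw n).hYB hn).imp_left fun h5 => Or.inl (mem_iUnion.2 ⟨n, h5⟩)
  · intro a haG h5 h6 h7
    have haT : a ∉ T := fun h8 =>
      h6 (Or.inr (ReflTransGen.tail (hT1 a h8).2.2 ⟨a, h8, rfl, rfl⟩))
    refine h3 a (fun n => ⟨haG, ?_⟩) ?_ (fun h8 => h6 (Or.inl h8)) h7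
    · rintro (rfl | h8)
      · exact hdis _ h5 hcB
      · exact haT (hFnT n h8)
    · rcases h5 with h5 | h5
      · exact h5
      · exact mem_iUnion.2 ⟨g a, hY _ a haG haT h7 h5 rfl⟩
  · intro y hy
    by_cases h5 : y ∈ ⋃ n, Y n
    · obtain ⟨n, hn, h6⟩ := h4 y h5
      exact (hl n y hn).subset fun a ha => ⟨h6 a ha.1 ha.2, ha.2⟩
    · refine finite_empty.subset ?_
      rintro a ⟨ha, rfl⟩
      exact h5 (hhead a ha hy)

/-- The invariant of the recursion for the linkability theorem. -/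
structure UInv (t h : E → V) (r : V) (G : Set E) (B B' : Set V) (Φ : Set E) (N : E → E → Prop) :
    Prop where
  hB : B ⊆ B'
  hr : r ∉ B'
  ff : FF h t {v | v ≠ r ∧ v ∉ B} Φ N
  sub : Φ ⊆ G
  tB : ∀ a ∈ Φ, t a ∉ B
  inner : ∃ I MI, FF h t (B' \ B) I MI ∧ I ⊆ G \ Φ ∧ (∀ a ∈ I, t a ∉ B ∧ h a ∈ B') ∧
    ∀ a ∈ G \ Φ, h a ∈ B → t a ∉ B → a ∈ I
  unh : ¬ Hind t h r (G \ Φ) B'

theorem UInv.step (hG : G.Countable) {B' : Set V} {Φ : Set E} {N : E → E → Prop}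
    (H : UInv t h r G B B' Φ N) {z : E} (hzG : z ∈ G) (hzB : h z ∈ B) (hzt : t z ∉ B) :
    ∃ B'' Φ' N', UInv t h r G B B'' Φ' N' ∧ N ≤ N' ∧ z ∈ Φ' := by
  by_cases hzΦ : z ∈ Φ
  · exact ⟨B', Φ, N, H, le_rfl, hzΦ⟩
  obtain ⟨Y, U0, M0, hw0, hl0, -, hmax⟩ := exists_max_wave t h r (G \ Φ) B' Set.Finite
    (fun _ _ h1 h2 => h2.subset h1)
  obtain ⟨U, M, hw, hL, hU⟩ := hw0.link
  have hl : LS Set.Finite h Y U := hl0.fin_sub Subset.rfl hU
  obtain ⟨I, MI, hI, hIG, hI1, hI2⟩ := H.inner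
  have hcov : ∀ a ∈ G \ Φ, h a ∈ B' → t a ∈ Y → a ∈ U := by
    intro a ha h1 h2
    by_contra h3
    exact H.unh ⟨Y, U, M, hw, hl, a, ha, h1, h2, h3⟩
  have h1 := (hL.bf.add_exits (S := {a | a ∈ G \ Φ ∧ h a ∈ B' ∧ t a ∉ B' ∧ t a ∉ Y})
    fun a ha => ha.2.2.2).compose hI (disjoint_left.2 fun y hy h1 => hw.dis hy h1.1)
    (fun a ha h1 => Or.inl (hcov a (hIG ha) (hI1 a ha).2 h1)) (by
      rintro a (ha | ha) h1
      · exact hw.tB ha h1.1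
      · exact ha.2.2.1 h1.1)
  have e1 : Y ∪ (B' \ B) = (B' ∪ Y) \ B := by
    ext y
    have := @hw.dis y
    have := @H.hB y
    simp only [mem_union, mem_sdiff]
    tauto
  rw [e1] at h1
  obtain ⟨I', MI', hI', hS, hsub, hex, -⟩ := h1.normalize
    (S := {a | a ∈ G \ Φ ∧ h a ∈ B ∧ t a ∉ B})
    (fun a ha => Or.inr (hI2 a ha.1 ha.2.1 ha.2.2)) (fun a ha h2 => h2.2 ha.2.1)
  have hI'1 : ∀ a ∈ I', a ∈ G \ Φ ∧ t a ∉ B ∧ h a ∈ B' ∪ Y := by
    intro a ha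
    rcases hsub ha with (h2 | h2) | h2
    · exact ⟨hw.sub h2, fun h3 => hw.tB h2 (H.hB h3), (hw.hYB h2).symm⟩
    · exact ⟨h2.1, fun h3 => h2.2.2.1 (H.hB h3), Or.inl h2.2.1⟩
    · exact ⟨hIG h2, (hI1 a h2).1, Or.inl (hI1 a h2).2⟩
  obtain ⟨C, -, c, hzC, hCU, -, hcl, -, -, -, hcC, hcY, hc⟩ :=
    hI'.comp (hS ⟨⟨hzG, hzΦ⟩, hzB, hzt⟩)
  have hr'' : r ∉ B' ∪ Y := fun h2 => h2.elim H.hr hw.rY
  obtain ⟨P, NP, hP, hPG, -, hcP, hP1, hP2, hP3⟩ := safe_path (hG.mono sdiff_subset) hmax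
    (hI'1 c (hCU hcC)).1 (hI'1 c (hCU hcC)).2.2 (fun h2 => hcY ⟨h2, (hI'1 c (hCU hcC)).2.1⟩)
  have h2 := hP.toFF.compose (hI'.sub hCU hcl).toFF (disjoint_left.2 fun y hy h2 => hy.2 h2.1)
    (fun a ha h2 => hc a ha (fun h3 => h2.2 h3.1) ▸ hcP) (fun a ha h2 => hP1 a ha h2.1)
  have e2 : {v | v ≠ r ∧ v ∉ B' ∪ Y} ∪ (B' ∪ Y) \ B = {v | v ≠ r ∧ v ∉ B} := by
    ext y
    have := @H.hB y
    have : y = r → y ∉ B' ∪ Y := fun h3 => h3 ▸ hr''
    simp only [mem_union, mem_sdiff, mem_ofPred_eq] at this ⊢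
    tauto
  rw [e2] at h2
  have hPC : ∀ a ∈ P ∪ C, a ∈ G \ Φ ∧ t a ∉ B := by
    rintro a (ha | ha)
    · exact ⟨hPG ha, fun h3 => hP1 a ha (Or.inl (H.hB h3))⟩
    · exact ⟨(hI'1 a (hCU ha)).1, (hI'1 a (hCU ha)).2.1⟩
  refine ⟨B' ∪ Y, Φ ∪ (P ∪ C), _, ⟨H.hB.trans subset_union_left, hr'',
    H.ff.union h2 (disjoint_left.2 fun a ha h3 => (hPC a h3).1.2 ha),
    union_subset H.sub fun a ha => (hPC a ha).1.1, ?_, ?_, ?_⟩, fun a b hab => Or.inl hab,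
    Or.inr (Or.inr hzC)⟩
  · rintro a (ha | ha)
    · exact H.tB a ha
    · exact (hPC a ha).2
  · refine ⟨I' \ C, _, (hI'.sub (C := I' \ C) sdiff_subset (fun a b hab => by
      simp only [mem_sdiff, hI'.meml hab, hI'.memr hab, true_and, hcl a b hab])).toFF, ?_,
      fun a ha => (hI'1 a ha.1).2, ?_⟩
    · intro a ha
      refine ⟨(hI'1 a ha.1).1.1, ?_⟩
      rintro (h3 | h3 | h3)
      · exact (hI'1 a ha.1).1.2 h3
      · exact ha.2 (hP2 a h3 (hI'1 a ha.1).2.2 ▸ hcC)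
      · exact ha.2 h3
    · intro a ha h3 h4
      exact ⟨hS ⟨⟨ha.1, fun h5 => ha.2 (Or.inl h5)⟩, h3, h4⟩, fun h5 => ha.2 (Or.inr (Or.inr h5))⟩
  · intro h3
    refine hP3 (h3.congr fun a ha => ?_)
    constructor
    · intro h4
      exact ⟨⟨h4.1, fun h5 => h4.2 (Or.inl h5)⟩, fun h5 => h4.2 (Or.inr (Or.inl h5))⟩
    · intro h4
      refine ⟨h4.1.1, ?_⟩
      rintro (h5 | h5 | h5)
      · exact h4.1.2 h5
      · exact h4.2 h5
      · exact h4.2 (hc a h5 (fun h6 => ha h6.1) ▸ hcP)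

/-- An unhindered countable web is linkable. -/
theorem lk_of_not_hind (hG : G.Countable) (hr : r ∉ B) (hun : ¬ Hind t h r G B) :
    Lk t h r G B {a | a ∈ G ∧ h a ∈ B ∧ t a ∉ B} := by
  obtain ⟨g, hg⟩ := countable_iff_exists_injOn.1 hG
  obtain ⟨f, -, hf⟩ := exists_seq (S := Set V × Set E × (E → E → Prop))
    (fun s => UInv t h r G B s.1 s.2.1 s.2.2)
    (fun n s s' => s.2.2 ≤ s'.2.2 ∧ ∀ z ∈ G, h z ∈ B → t z ∉ B → g z = n → z ∈ s'.2.1)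
    (B, ∅, fun _ _ => False)
    ⟨Subset.rfl, hr, (link_empty _ _ _).toFF, empty_subset _, fun _ h1 => h1.elim,
      ⟨{a | a ∈ G ∧ h a ∈ B ∧ t a ∉ B}, _,
        (link_trivial (fun a _ h1 => h1.2 h1.1) (fun a _ h1 => h1.2 h1.1)).toFF,
        fun a ha => ⟨ha.1, fun h1 => h1⟩, fun a ha => ⟨ha.2.2, ha.2.1⟩,
        fun a ha h1 h2 => ⟨ha.1, h1, h2⟩⟩, by simpa using hun⟩ (by
      intro n s hs
      by_cases hex : ∃ z ∈ G, h z ∈ B ∧ t z ∉ B ∧ g z = n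
      · obtain ⟨z, h1, h2, h3, h4⟩ := hex
        obtain ⟨B'', Φ', N', h5, h6, h7⟩ := hs.step hG h1 h2 h3
        refine ⟨(B'', Φ', N'), h5, h6, fun z' h8 _ _ h9 => ?_⟩
        rw [hg h8 h1 (h9.trans h4.symm)]
        exact h7
      · exact ⟨s, hs, le_rfl, fun z h1 h2 h3 h4 => (hex ⟨z, h1, h2, h3, h4⟩).elim⟩)
  refine ⟨_, _, FF.limit (fun n => (hf n).1.ff) (monotone_nat_of_le_succ fun n => (hf n).2.1),
    iUnion_subset fun n => (hf n).1.sub, ?_, ?_⟩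
  · intro a ha
    obtain ⟨n, hn⟩ := mem_iUnion.1 ha
    exact (hf n).1.tB a hn
  · intro a ha
    exact mem_iUnion.2 ⟨g a + 1, (hf (g a)).2.2 a ha.1 ha.2.1 ha.2.2 rfl⟩

/-- The largest wave together with a linkage of its boundary from the root. -/
theorem exists_bubble (hG : G.Countable) (hr : r ∉ B) (Sm : Set E → Prop)
    (hSm : ∀ s s', s ⊆ s' → Sm s' → Sm s) (hSm' : ∀ s, s.Finite → Sm s) :
    ∃ Y U M, Wave t h r G B Y U M ∧ LS Sm h Y U ∧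
      (∀ Y' U' M', Wave t h r G (B ∪ Y) Y' U' M' → LS Sm h Y' U' → Y' = ∅) ∧
      Lk t h r G (B ∪ Y) {a | a ∈ G ∧ h a ∈ B ∪ Y ∧ t a ∉ B ∪ Y} := by
  obtain ⟨Y, U, M, h1, h2, -, h3⟩ := exists_max_wave t h r G B Sm hSm
  refine ⟨Y, U, M, h1, h2, h3, lk_of_not_hind hG (fun h4 => h4.elim hr h1.rY) ?_⟩
  rintro ⟨Y', U', M', h4, h5, z, -, -, h6, -⟩
  have := h3 Y' U' M' h4 fun y hy => hSm' _ (h5 y hy)
  rw [this] at h6
  exact h6

end Pool.Agent.P.MP_133cc4_co
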