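import Pool.Agent.P.MP_133cc4_co.Cut

/-! Rerouting path systems at a vertex and exchanging terminal edges. -/

namespace Pool.Agent.P.MP_133cc4_co

open Set Function Relation

variable {V E : Type*} {t h : E → V} {r : V} {G : Set E} {B : Set V}

/-- Re-pairing first arrivals with last departures at a vertex. -/
theorem Lk.repair (hG : G.Countable) {T : Set E} (H : Lk t h r G B T) (hT : ∀ a ∈ T, h a ∈ B)
    {v : V} (hvr : v ≠ r) (hvB : v ∉ B) :
    ∃ R : Set E, R ⊆ G ∧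
      (∀ W : Set V, r ∉ W → (∀ y ∈ W, y ∉ B) → v ∈ W → R.encard ≤ (Ent t h G B W).encard) ∧
      ∀ A : Set E, (∀ a ∈ A, h a = v) → (Disjoint A R ∨ (A.Finite ∧ R.Infinite)) →
        Lk t h r (G \ A) B T := by
  obtain ⟨U, M, H1, hUG, hUB, hTU⟩ := H
  let M0 : E → E → Prop := fun b a => M b a ∧ t b ≠ v
  have up : ∀ a b, ReflTransGen M0 a b → ReflTransGen M a b := fun a b hab =>
    ReflTransGen.mono (fun _ _ h1 => h1.1) _ _ hab
  let Lt : E → Prop := fun a => ∃ z ∈ T, ReflTransGen M0 z a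
  let Av : E → Prop := fun a => ∀ b, ReflTransGen M0 a b → t b ≠ v
  let Dep : Set E := {d | Lt d ∧ t d = v}
  let R : Set E := {a | a ∈ U ∧ h a = v ∧ Av a}
  have LtU : ∀ a, Lt a → a ∈ U := fun a ⟨z, hz, h1⟩ => H1.toMat.rtg_mem (up _ _ h1) (hTU hz)
  have nohead : ∀ a b, ReflTransGen M0 a b → h b = v → a = b := by
    intro a b hab hb
    by_contra h1
    obtain ⟨c, hc⟩ := rtg_tail_of_ne hab h1
    exact hc.2 ((H1.adj hc.1).trans hb)
  have main : ∀ φ : E → E, InjOn φ Dep → MapsTo φ Dep R → ∀ A : Set E, (∀ a ∈ A, h a = v) →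
      (∀ d ∈ Dep, φ d ∉ A) → Lk t h r (G \ A) B T := by
    intro φ hφ hφR A hA hφA
    let U' : Set E := {a | Lt a ∨ ∃ d ∈ Dep, ReflTransGen M0 (φ d) a}
    have hU' : U' ⊆ U := by
      rintro a (ha | ⟨d, hd, ha⟩)
      · exact LtU a ha
      · exact H1.toMat.rtg_mem (up _ _ ha) (hφR hd).1
    have hcl : ∀ b a, M0 b a → b ∈ U' → a ∈ U' := by
      rintro b a hba (⟨z, hz, h1⟩ | ⟨d, hd, h1⟩)
      · exact Or.inl ⟨z, hz, h1.tail hba⟩
      · exact Or.inr ⟨d, hd, h1.tail hba⟩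
    refine ⟨U', fun b a => (M0 b a ∧ b ∈ U') ∨ (b ∈ Dep ∧ a = φ b),
      ⟨⟨?_, ?_, ?_, ?_, ?_, ?_⟩, ?_, ?_⟩, ?_, fun a ha => hUB a (hU' ha),
      fun a ha => Or.inl ⟨a, ha, ReflTransGen.refl⟩⟩
    · rintro b a (h1 | h1)
      · exact h1.2
      · exact Or.inl h1.1.1
    · rintro b a (h1 | ⟨h1, rfl⟩)
      · exact hcl b a h1.1 h1.2
      · exact Or.inr ⟨b, h1, ReflTransGen.refl⟩
    · rintro b a (h1 | ⟨h1, rfl⟩)
      · exact H1.adj h1.1.1
      · exact h1.2.trans (hφR h1).2.1.symm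
    · rintro b a (h1 | ⟨h1, rfl⟩)
      · exact H1.int h1.1.1
      · rw [h1.2]
        exact ⟨hvr, hvB⟩
    · rintro b a c (h1 | ⟨h1, rfl⟩) (h2 | ⟨h2, rfl⟩)
      · exact H1.fn h1.1.1 h2.1.1
      · exact (h1.1.2 h2.2).elim
      · exact (h2.1.2 h1.2).elim
      · rfl
    · rintro b c a (h1 | ⟨h1, h3⟩) (h2 | ⟨h2, h4⟩)
      · exact H1.inj h1.1.1 h2.1.1
      · exact (h1.1.2 ((H1.adj h1.1.1).trans (h4 ▸ (hφR h2).2.1))).elim
      · exact (h2.1.2 ((H1.adj h2.1.1).trans (h3 ▸ (hφR h1).2.1))).elim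
      · exact hφ h1 h2 (h3.symm.trans h4)
    · intro b hb hY
      by_cases h1 : t b = v
      · rcases hb with hb | ⟨d, hd, hb⟩
        · exact ⟨φ b, Or.inr ⟨⟨hb, h1⟩, rfl⟩⟩
        · exact ((hφR hd).2.2 b hb h1).elim
      · obtain ⟨a, ha⟩ := H1.tot (hU' hb) hY
        exact ⟨a, Or.inl ⟨⟨ha, h1⟩, hb⟩⟩
    · have k0 : ∀ b, Av b →
          Acc (swap fun b a => (M0 b a ∧ b ∈ U') ∨ (b ∈ Dep ∧ a = φ b)) b := by
        intro b
        induction b using H1.wf.induction with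
        | _ b ih =>
          intro hb
          refine ⟨b, ?_⟩
          rintro a (h1 | h1)
          · exact ih a h1.1.1 fun c hc => hb c (ReflTransGen.head h1.1 hc)
          · exact (hb b ReflTransGen.refl h1.1.2).elim
      refine ⟨fun b => ?_⟩
      induction b using H1.wf.induction with
      | _ b ih =>
        refine ⟨b, ?_⟩
        rintro a (h1 | ⟨h1, rfl⟩)
        · exact ih a h1.1.1
        · exact k0 _ (hφR h1).2.2
    · intro a ha
      refine ⟨hUG (hU' ha), fun h1 => ?_⟩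
      rcases ha with ⟨z, hz, h2⟩ | ⟨d, hd, h2⟩
      · exact hvB (hA a h1 ▸ nohead z a h2 (hA a h1) ▸ hT z hz)
      · exact hφA d hd (nohead _ a h2 (hA a h1) ▸ h1)
  have first : ∀ d, d ∈ U → t d = v → ∃ a ∈ R, ReflTransGen M d a := by
    intro d
    induction d using H1.wf.transGen.induction with
    | _ d ih =>
      intro hd hdv
      obtain ⟨a, ha⟩ := H1.tot hd (hdv ▸ ⟨hvr, hvB⟩)
      by_cases h1 : Av a
      · exact ⟨a, ⟨H1.memr ha, (H1.adj ha).symm.trans hdv, h1⟩, ReflTransGen.single ha⟩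
      · simp only [Av, not_forall, not_not] at h1
        obtain ⟨b, h1, h2⟩ := h1
        have h3 : TransGen M d b := TransGen.head' ha (up _ _ h1)
        obtain ⟨c, h4, h5⟩ := ih b (transGen_swap.2 h3)
          (H1.toMat.rtg_mem (up _ _ h1) (H1.memr ha)) h2
        exact ⟨c, h4, h3.to_reflTransGen.trans h5⟩
  have last : ∀ d, Lt d → ∀ e, TransGen M e d → t e ≠ v := by
    rintro d ⟨z, hz, h1⟩
    induction h1 with
    | refl =>
      intro e he
      obtain ⟨c, -, hc⟩ := TransGen.tail'_iff.1 he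
      exact ((H1.toMat.int' hc).2 (hT z hz)).elim
    | tail _ h2 ih =>
      intro e he
      obtain ⟨c, h3, hc⟩ := TransGen.tail'_iff.1 he
      obtain rfl := H1.inj hc h2.1
      rcases reflTransGen_iff_eq_or_transGen.1 h3 with rfl | h4
      · exact h2.2
      · exact ih e h4
  refine ⟨R, fun a ha => hUG ha.1, ?_, ?_⟩
  · intro W hrW hW hvW
    have h5 := H1.restrict (Y' := W \ {v}) (C := U)
      (fun a ha h5 => ⟨ha, fun h6 => hrW (h6 ▸ h5.1), hW _ h5.1⟩) (fun a b hab _ _ => H1.memr hab)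
    obtain ⟨f, hf, hf'⟩ := h5.exists_inj (S := R) (fun a ha => ha.1)
      (fun a _ b hb hab => h5.toMat.eq_of_source hab fun h6 => h6.2 hb.2.1)
    refine encard_le_encard_of_injOn (fun a ha => ?_) hf
    obtain ⟨h6, h7, h8⟩ := hf' a ha
    have h9 : t (f a) ≠ v := ha.2.2 _ (ReflTransGen.mono (fun _ _ h1 => ⟨h1.1, h1.2.2.2⟩) _ _ h6)
    refine ⟨hUG h7, ?_, fun h10 => h8 ⟨h10, h9⟩, hUB _ h7⟩
    by_cases h10 : a = f a
    · exact h10 ▸ ha.2.1 ▸ hvW
    · obtain ⟨c, hc⟩ := rtg_tail_of_ne h6 h10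
      exact (h5.toMat.int' hc).1
  · rintro A hA (h1 | ⟨h1, h2⟩)
    · have : ∀ d, ∃ a, d ∈ Dep → a ∈ R ∧ ReflTransGen M d a := by
        intro d
        by_cases hd : d ∈ Dep
        · obtain ⟨a, ha⟩ := first d (LtU d hd.1) hd.2
          exact ⟨a, fun _ => ha⟩
        · exact ⟨d, fun h2 => (hd h2).elim⟩
      choose φ hφ using this
      refine main φ ?_ (fun d hd => (hφ d hd).1) A hA
        (fun d hd h2 => disjoint_left.1 h1 h2 (hφ d hd).1)
      intro d hd d' hd' h2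
      have h3 := (hφ d' hd').2
      rw [← h2] at h3
      rcases H1.toMat.total' (hφ d hd).2 h3 with h4 | h4
      · rcases reflTransGen_iff_eq_or_transGen.1 h4 with h5 | h5
        · exact h5.symm
        · exact (last d' hd'.1 d h5 hd.2).elim
      · rcases reflTransGen_iff_eq_or_transGen.1 h4 with h5 | h5
        · exact h5
        · exact (last d hd.1 d' h5 hd'.2).elim
    · obtain ⟨g, hg⟩ := countable_iff_exists_injOn.1 hG
      have h3 : (R \ A).Infinite := h2.sdiff h1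
      refine main (fun d => (h3.natEmbedding _ (g d) : E)) ?_
        (fun d _ => (h3.natEmbedding _ (g d)).2.1) A hA (fun d _ => (h3.natEmbedding _ (g d)).2.2)
      intro d hd d' hd' h4
      exact hg (hUG (LtU d hd.1)) (hUG (LtU d' hd'.1))
        ((h3.natEmbedding _).injective (Subtype.ext h4))

/-- Finitely many reserved edges protect a linkage against finite deletions at a vertex. -/
theorem Lk.reserve (hG : G.Countable) {T : Set E} (H : Lk t h r G B T) (hT : ∀ a ∈ T, h a ∈ B)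
    {v : V} (hvr : v ≠ r) (hvB : v ∉ B) :
    ∃ K ⊆ G, K.Finite ∧ ∀ A : Set E, A.Finite → (∀ a ∈ A, h a = v) → Disjoint A K →
      Lk t h r (G \ A) B T := by
  obtain ⟨R, h1, -, h2⟩ := H.repair hG hT hvr hvB
  by_cases hR : R.Finite
  · exact ⟨R, h1, hR, fun A _ h3 h4 => h2 A h3 (Or.inl h4)⟩
  · exact ⟨∅, empty_subset _, finite_empty, fun A h3 h4 _ => h2 A h4 (Or.inr ⟨h3, hR⟩)⟩

/-- Finitely many reserved edges protect the quasi-flame property of one vertex. -/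
theorem QF.reserve (hG : G.Countable) {x v : V} (H : QF t h r G x) (hvr : v ≠ r) (hvx : v ≠ x) :
    ∃ K ⊆ G, K.Finite ∧ ∀ A : Set E, A.Finite → (∀ a ∈ A, h a = v) → Disjoint A K →
      QF t h r (G \ A) x := by
  by_contra hc
  have hc' : ∀ K : Set E, K.Finite → ∃ A : Set E, A.Finite ∧ (∀ a ∈ A, h a = v) ∧ Disjoint A K ∧
      ∃ J ⊆ G, J.Finite ∧ (∀ a ∈ J, h a = x) ∧ ¬ Lk t h r (G \ A) {x} J := by
    intro K hK
    by_contra h1
    refine hc ⟨K ∩ G, inter_subset_right, hK.subset inter_subset_left, fun A h2 h3 h4 => ?_⟩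
    intro J h5 h6 h7
    by_contra h8
    refine h1 ⟨A ∩ G, h2.subset inter_subset_left, fun a ha => h3 a ha.1,
      disjoint_left.2 fun a h9 h10 => disjoint_left.1 h4 h9.1 ⟨h10, h9.2⟩, J,
      fun a ha => (h5 ha).1, h6, h7, fun h9 => h8 (h9.mono ?_ Subset.rfl)⟩
    exact fun a ha => ⟨ha.1, fun h10 => ha.2 ⟨h10, ha.1⟩⟩
  obtain ⟨A0, hA0, hA0v, -, J0, hJ0G, hJ0, hJ0x, hn0⟩ := hc' ∅ finite_empty
  have hJ0l := H J0 hJ0G hJ0 hJ0x
  obtain ⟨W, hrW, hW, hlt⟩ := exists_cut (G := G \ A0) hJ0 (fun a ha => ⟨⟨hJ0G ha, fun h1 =>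
    hvx ((hA0v a h1).symm.trans (hJ0x a ha))⟩, hJ0x a ha, hJ0l.tail a ha⟩) hn0
  have hvW : v ∈ W := by
    by_contra h1
    refine absurd ((hJ0l.count hJ0x hrW hW).trans (encard_le_encard ?_)) (not_le.2 hlt)
    intro a ha
    exact ⟨⟨ha.1, fun h2 => h1 (hA0v a h2 ▸ ha.2.1)⟩, ha.2⟩
  have hfin : (Ent t h G {x} W).Finite := by
    refine ((finite_of_encard_le_coe (k := J0.ncard) (s := Ent t h (G \ A0) {x} W) ?_).union
      hA0).subset ?_
    · rw [hJ0.cast_ncard_eq]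
      exact hlt.le.trans (encard_le_encard fun a ha => ha.1)
    · intro a ha
      by_cases h1 : a ∈ A0
      · exact Or.inr h1
      · exact Or.inl ⟨⟨ha.1, h1⟩, ha.2⟩
  have key : ∀ n : ℕ, ∃ K : Set E, K.Finite ∧ ∃ J ⊆ G, J.Finite ∧ (∀ a ∈ J, h a = x) ∧
      ∀ R : Set E, (∀ A : Set E, (∀ a ∈ A, h a = v) → Disjoint A R → Lk t h r (G \ A) {x} J) →
        (n : ℕ∞) ≤ (R ∩ K).encard := by
    intro n
    induction n with
    | zero => exact ⟨∅, finite_empty, ∅, empty_subset _, finite_empty, fun _ h1 => h1.elim,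
        fun _ _ => by simp⟩
    | succ n ih =>
      obtain ⟨K, hK, J, h1, h2, h3, h4⟩ := ih
      obtain ⟨A, h5, h6, h7, J', h8, h9, h10, h11⟩ := hc' K hK
      refine ⟨K ∪ A, hK.union h5, J ∪ J', union_subset h1 h8, h2.union h9,
        fun a ha => ha.elim (h3 a) (h10 a), fun R hR => ?_⟩
      have h12 := h4 R fun A' h12 h13 => (hR A' h12 h13).mono Subset.rfl subset_union_left
      have h13 : ¬ Disjoint A R := fun h13 => h11 ((hR A h6 h13).mono Subset.rfl subset_union_right)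
      obtain ⟨a, h14, h15⟩ := not_disjoint_iff.1 h13
      have h16 : a ∉ R ∩ K := fun h16 => disjoint_left.1 h7 h14 h16.2
      calc ((n + 1 : ℕ) : ℕ∞) = n + 1 := by push_cast; rfl
        _ ≤ (R ∩ K).encard + 1 := add_le_add_left h12 _
        _ = (insert a (R ∩ K)).encard := (encard_insert_of_notMem h16).symm
        _ ≤ (R ∩ (K ∪ A)).encard := encard_le_encard (by
            rintro b (rfl | hb)
            · exact ⟨h15, Or.inr h14⟩
            · exact ⟨hb.1, Or.inl hb.2⟩)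
  obtain ⟨K, -, J, h1, h2, h3, h4⟩ := key ((Ent t h G {x} W).ncard + 1)
  obtain ⟨R, -, h5, h6⟩ := (H J h1 h2 h3).repair hG h3 hvr hvx
  have h7 := (h4 R fun A h7 h8 => h6 A h7 (Or.inl h8)).trans
    ((encard_le_encard inter_subset_left).trans (h5 W hrW hW hvW))
  rw [← hfin.cast_ncard_eq] at h7
  have h8 : (Ent t h G {x} W).ncard + 1 ≤ (Ent t h G {x} W).ncard := by exact_mod_cast h7
  omega

/-- A locally finite linkage from all edges entering `Y ∪ {x}` to `x`. -/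
structure Inner (t h : E → V) (r : V) (G : Set E) (x : V) (Y : Set V) (U : Set E)
    (M : E → E → Prop) : Prop where
  lk : Link t h Y U M
  wave : Wave t h r G {x} Y U M
  lf : LS Set.Finite h Y U
  entx : ∀ ⦃a⦄, a ∈ G → h a = x → t a ∉ Y → t a ≠ x → a ∈ U

/-- Finitely many prescribed terminal edges can be exchanged into an inner linkage. -/
theorem Inner.exchange {x : V} {Y : Set V} {U : Set E} {M : E → E → Prop}
    (H : Inner t h r G x Y U M) (hQ : QF t h r G x) {K : Set E} (hK : K.Finite) (hKG : K ⊆ G)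
    (hKx : ∀ a ∈ K, h a = x) : ∃ U' M', Inner t h r G x Y U' M' ∧ K ⊆ U' := by
  induction K, hK using Set.Finite.induction_on with
  | empty => exact ⟨U, M, H, empty_subset _⟩
  | @insert e K heK hK ih =>
    obtain ⟨U, M, H, hKU⟩ := ih (fun a ha => hKG (Or.inr ha)) (fun a ha => hKx a (Or.inr ha))
    by_cases heU : e ∈ U
    · exact ⟨U, M, H, insert_subset heU hKU⟩
    have hl := hQ _ hKG (hK.insert e) hKx
    have hxY : x ∉ Y := fun h1 => H.wave.dis h1 rfl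
    have hex := hKx e (Or.inl rfl)
    rcases H.lk.symm.augment (G := {a | a ∈ G ∧ t a ≠ x ∧ (h a ∈ Y ∨ h a = x)})
      (fun a ha => ⟨H.wave.sub ha, H.wave.tB ha, H.wave.hYB ha⟩) (c := e)
      ⟨hKG (Or.inl rfl), hl.tail e (Or.inl rfl), Or.inr hex⟩ heU (hex ▸ hxY) with
      ⟨U', M', e', -, h1, -, -, h2, h3, h4⟩ | ⟨W, hW, h1, h2, h3, h4⟩
    · obtain ⟨h5, h6, h7⟩ := h1 ((h4 e' h3).2 (Or.inr rfl))
      rcases h7 with h7 | h7
      · exact (h2 (H.wave.ent h5 h7 h3 h6)).elim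
      · exact (h2 (H.entx h5 h7 h3 h6)).elim
    by_cases hw : ∃ w ∈ U, t w ∈ W ∧ h w ∉ Y ∧ w ∉ K
    · obtain ⟨w, h5, h6, h7, h8⟩ := hw
      obtain ⟨U', M', h9, h10, h11, h12, h13⟩ := h4 w h5 h6 h7
      refine ⟨U', _, ⟨h9.symm, ⟨h9.symm.toFF, fun a ha => (h10 ha).1, H.wave.rY, H.wave.dis,
        fun a ha => (h10 ha).2.1, fun a ha => (h10 ha).2.2, ?_⟩, H.lf.fin_mono Subset.rfl h11,
        ?_⟩, ?_⟩
      · exact fun a h14 h15 h16 h17 => (h13 a h16).2 (H.wave.ent h14 h15 h16 h17)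
      · exact fun a h14 h15 h16 h17 => (h13 a h16).2 (H.entx h14 h15 h16 h17)
      · rintro a (rfl | ha)
        · exact (h12 a (hex ▸ hxY)).2 (Or.inr rfl)
        · exact (h12 a (hKx a (Or.inr ha) ▸ hxY)).2 (Or.inl ⟨hKU ha, fun h14 => h8 (h14 ▸ ha)⟩)
    exfalso
    have h5 := hl.count hKx (W := W) (fun h5 => H.wave.rY (hW h5)) (fun y hy => H.wave.dis (hW hy))
    have h6 := H.lk.toFF.count_closed hW h3 (S := Ent t h G {x} W) (by
      rintro a ⟨h6, h7, h8, h9⟩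
      refine ⟨?_, h7, h8⟩
      by_contra h10
      exact h8 (h2 a ⟨h6, h9, Or.inl (hW h7)⟩ h10 h7))
    have h7 : {a | a ∈ U ∧ h a ∉ Y ∧ t a ∈ W} ⊆ {a | a ∈ K ∧ t a ∈ W} := by
      intro a ha
      refine ⟨?_, ha.2.2⟩
      by_contra h7
      exact hw ⟨a, ha.1, ha.2.2, ha.2.1, h7⟩
    refine absurd (h5.trans (h6.trans (encard_le_encard h7))) (not_le.2 ?_)
    refine (hK.subset fun a ha => ha.1).encard_lt_encard ⟨fun a ha => ⟨Or.inr ha.1, ha.2⟩, ?_⟩
    intro h8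
    exact heK (h8 ⟨Or.inl rfl, h1⟩).1

end Pool.Agent.P.MP_133cc4_co
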