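import Pool.Agent.P.MP_133cc4_co.LDefs

namespace Pool.Agent.P.MP_133cc4_co

universe u

variable {V : Type*} {E : Type u} {tail head : E → V}

theorem side_walk_nil {x y : V} (h : Walk tail head x [] y) : x = y := by
  cases h
  rfl

theorem side_nonempty {x y : V} {P : Set E} (h : IsPath tail head x y P) (hxy : y ≠ x) :
    P.Nonempty := by
  obtain ⟨p, h1, -, rfl⟩ := h
  cases p with
  | nil => exact (hxy (side_walk_nil h1).symm).elim
  | cons e q => exact ⟨e, List.mem_cons_self⟩

theorem side_lam_le {x y : V} (hxy : y ≠ x) : lam tail head x y ≤ Cardinal.mk E := by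
  refine ciSup_le' fun Fam => ?_
  have hne : ∀ P : Fam.1, (P : Set E).Nonempty := fun P => side_nonempty (Fam.2.1 P P.2).1 hxy
  choose f hf using hne
  refine Cardinal.mk_le_of_injective (f := f) fun P Q k => ?_
  by_contra j
  have := Fam.2.2 P.2 Q.2 fun i => j (Subtype.ext i)
  exact Set.disjoint_left.1 this (hf P) (k ▸ hf Q)

theorem side_transGen {x y : V} {p : List E} (h : Walk tail head x p y) (hxy : x ≠ y) :
    Relation.TransGen (fun a b => ∃ e, tail e = a ∧ head e = b) x y := by
  induction h with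
  | nil v => exact (hxy rfl).elim
  | cons e q v _ ih =>
    by_cases k : head e = v
    · exact Relation.TransGen.single ⟨e, rfl, k⟩
    · exact Relation.TransGen.head ⟨e, rfl, rfl⟩ (ih k)

theorem side_back (f : ℕ → E) (hf : ∀ n, head (f (n + 1)) = tail (f n)) (m k : ℕ) :
    ∃ p, p.length = k ∧ Walk tail head (head (f (m + k))) p (head (f m)) := by
  induction k with
  | zero => exact ⟨[], rfl, Walk.nil _⟩
  | succ k ih =>
    obtain ⟨p, h1, h2⟩ := ih
    refine ⟨f (m + k) :: p, by simp [h1], ?_⟩
    rw [← add_assoc, hf]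
    exact Walk.cons _ _ _ h2

theorem side_wf (hacyc : ∀ v p, Walk tail head v p v → p = [])
    (hray : ¬ ∃ f : ℕ → E, Function.Injective (fun n => head (f n)) ∧
      ∀ n, head (f (n + 1)) = tail (f n)) :
    WellFounded fun a b => ∃ e, tail e = a ∧ head e = b := by
  refine wellFounded_iff_isEmpty_descending_chain.2 ⟨fun ⟨x, hx⟩ => ?_⟩
  choose f h1 h2 using hx
  have hf : ∀ n, head (f (n + 1)) = tail (f n) := fun n => (h2 (n + 1)).trans (h1 n).symm
  have key : ∀ m k, head (f (m + k)) = head (f m) → k = 0 := fun m k j => by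
    obtain ⟨p, i1, i2⟩ := side_back f hf m k
    rw [j] at i2
    rw [← i1, hacyc _ _ i2]
    rfl
  refine hray ⟨f, fun m n j => ?_, hf⟩
  rcases le_total m n with k | k
  · obtain ⟨d, rfl⟩ := Nat.exists_eq_add_of_le k
    rw [key m d j.symm, add_zero]
  · obtain ⟨d, rfl⟩ := Nat.exists_eq_add_of_le k
    rw [key n d j, add_zero]

theorem side_no_chain (hacyc : ∀ v p, Walk tail head v p v → p = [])
    (hray : ¬ ∃ f : ℕ → E, Function.Injective (fun n => head (f n)) ∧
      ∀ n, head (f (n + 1)) = tail (f n))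
    (u : ℕ → V) (hu : Function.Injective u)
    (hp : ∀ n, ∃ P, IsPath tail head (u (n + 1)) (u n) P) : False := by
  refine (wellFounded_iff_isEmpty_descending_chain.1 (side_wf hacyc hray).transGen).1
    ⟨u, fun n => ?_⟩
  obtain ⟨P, p, h1, -⟩ := hp n
  exact side_transGen h1 fun k => Nat.succ_ne_self n (hu k)

theorem side_loop (hacyc : ∀ v p, Walk tail head v p v → p = []) (e : E) : tail e ≠ head e := by
  intro k
  have h : Walk tail head (tail e) [e] (head e) := Walk.cons e [] _ (Walk.nil _)
  rw [← k] at h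
  exact List.cons_ne_nil _ _ (hacyc _ _ h)

end Pool.Agent.P.MP_133cc4_co
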