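import Pool.Agent.P.MP_133cc4_co.URoute

/-! One countable layer. -/

namespace Pool.Agent.P.MP_133cc4_co

open Set Function Relation

variable {V E : Type*} {t h : E → V} {r : V} {F G Z : Set E}

/-- The pair `s'` contains the witnesses required by the pair `s`. -/
structure Nx (t h : E → V) (r : V) (F G Z : Set E) (s s' : Set V × Set E) : Prop where
  A : s.1 ⊆ s'.1
  S : s.2 ⊆ s'.2
  inF : ∀ a ∈ F, h a ∈ s.1 → a ∈ s'.2
  ql : ∀ x ∈ s.1, x ≠ r → ∀ J ⊆ Z ∩ s.2, J.Finite → (∀ a ∈ J, h a = x) →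
    LL t h F (Z ∩ s'.2) (Out r {x}) {x} ({a | a ∈ F ∧ a ∈ Z ∧ h a = x} ∪ J)
  mx : ∀ e ∈ G ∩ s.2, e ∉ Z → ∃ J ⊆ insert e Z ∩ s'.2, J.Finite ∧ (∀ a ∈ J, h a = h e) ∧
    ¬ LL t h F (insert e Z) (Out r {h e}) {h e} ({a | a ∈ F ∧ a ∈ insert e Z ∧ h a = h e} ∪ J)
  fam : ∀ b : Bool, ∀ x ∈ s.1, ∃ p, Fam t h (cond b Z G) s.1 s.2 x p ∧ ∀ i, ∀ e ∈ p i, e ∈ s'.2

theorem exists_nx (hc : ∀ x, {a | a ∈ F ∧ h a = x}.Countable)
    (hQ : ∀ x, x ≠ r → QL t h F Z (Out r {x}) x)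
    (hmax : ∀ e ∈ G, e ∉ Z → ¬ QL t h F (insert e Z) (Out r {h e}) (h e))
    {s : Set V × Set E} (hA : s.1.Countable) (hS : s.2.Countable) :
    ∃ s' : Set V × Set E, Cl t h (fun b => cond b Z G) s'.1 s'.2 ∧ Nx t h r F G Z s s' := by
  obtain ⟨s1, c1, k1⟩ := exists_cover hA (fun x u => ∀ a ∈ F, h a = x → a ∈ u)
    (fun _ _ _ h1 h2 a h3 h4 => h1 (h2 a h3 h4))
    fun x _ => ⟨_, hc x, fun a h1 h2 => ⟨h1, h2⟩⟩
  obtain ⟨s2, c2, k2⟩ := exists_cover (hA.prod (countable_ofPred_finite_subset hS))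
    (fun i u => i.1 ≠ r → i.2 ⊆ Z → (∀ a ∈ i.2, h a = i.1) →
      LL t h F (Z ∩ u) (Out r {i.1}) {i.1} ({a | a ∈ F ∧ a ∈ Z ∧ h a = i.1} ∪ i.2))
    (fun _ _ _ h1 h2 h3 h4 h5 => (h2 h3 h4 h5).mono (inter_subset_inter_right _ h1) Subset.rfl)
    (by
      rintro ⟨x, J⟩ hi
      by_cases h1 : x ≠ r ∧ J ⊆ Z ∧ ∀ a ∈ J, h a = x
      · obtain ⟨u, h2, h3⟩ := (hQ x h1.1 J h1.2.1 hi.2.1 h1.2.2).small
          (((hc x).mono fun a ha => And.intro ha.1 ha.2.2).union hi.2.1.countable)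
        exact ⟨u, h2, fun _ _ _ => h3⟩
      · exact ⟨∅, countable_empty, fun h2 h3 h4 => (h1 ⟨h2, h3, h4⟩).elim⟩)
  obtain ⟨s3, c3, k3⟩ := exists_cover hS
    (fun e u => e ∈ G → e ∉ Z → ∃ J ⊆ insert e Z ∩ u, J.Finite ∧ (∀ a ∈ J, h a = h e) ∧
      ¬ LL t h F (insert e Z) (Out r {h e}) {h e} ({a | a ∈ F ∧ a ∈ insert e Z ∧ h a = h e} ∪ J))
    (fun _ _ _ h1 h2 h3 h4 => (h2 h3 h4).imp fun _ h5 =>
      ⟨h5.1.trans (inter_subset_inter_right _ h1), h5.2⟩)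
    (by
      intro e _
      by_cases h1 : e ∈ G ∧ e ∉ Z
      · have h2 := hmax e h1.1 h1.2
        unfold QL at h2
        push Not at h2
        obtain ⟨J, h3, h4, h5, h6⟩ := h2
        exact ⟨J, h4.countable, fun _ _ => ⟨J, subset_inter h3 Subset.rfl, h4, h5, h6⟩⟩
      · exact ⟨∅, countable_empty, fun h2 h3 => (h1 ⟨h2, h3⟩).elim⟩)
  obtain ⟨s4, c4, k4⟩ := exists_cover ((countable_univ (α := Bool)).prod hA)
    (fun i u => ∃ p, Fam t h (cond i.1 Z G) s.1 s.2 i.2 p ∧ ∀ j, ∀ e ∈ p j, e ∈ u)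
    (fun _ _ _ h1 h2 => h2.imp fun _ h3 => ⟨h3.1, fun j e he => h1 (h3.2 j e he)⟩)
    (by
      intro i _
      obtain ⟨p, h1, h2⟩ := exists_fam t h (cond i.1 Z G) hA hS i.2
      exact ⟨_, h2, p, h1, fun j e he => ⟨j, he⟩⟩)
  obtain ⟨A', S', h1, h2, h3⟩ := exists_cl t h (fun b => cond b Z G) hA
    ((((hS.union c1).union c2).union c3).union c4)
  simp only [union_subset_iff] at h2
  exact ⟨(A', S'), h3, h1, h2.1.1.1.1, fun a h4 h5 => k1 _ h5 _ h2.1.1.1.2 a h4 rfl,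
    fun x h4 h5 J h6 h7 h8 => k2 (x, J) ⟨h4, h7, h6.trans inter_subset_right⟩ _ h2.1.1.2 h5
      (h6.trans inter_subset_left) h8,
    fun e h4 h5 => k3 e h4.2 _ h2.1.2 h4.1 h5, fun b x h4 => k4 (b, x) ⟨mem_univ _, h4⟩ _ h2.2⟩

theorem layer (hr : ∀ e, h e ≠ r) (hloop : ∀ e, t e ≠ h e)
    (hs : ∀ x, x ≠ r → ¬ Str t h univ r x) (hFG : F ⊆ G)
    (hF : ∀ x, x ≠ r → Lk t h r F {x} {a | a ∈ F ∧ h a = x})
    (hc : ∀ x, {a | a ∈ F ∧ h a = x}.Countable) (v : V) :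
    ∃ (C : Set V) (L' : Set E), v ∈ C ∧ (∀ a ∈ L', a ∈ G ∧ h a ∈ C) ∧
      (∀ a ∈ F, h a ∈ C → a ∈ L') ∧ (∀ x, x ≠ r → Lk t h r L' {x} {a | a ∈ L' ∧ h a = x}) ∧
      ∀ L ⊆ G, (∀ a, h a ∈ C → (a ∈ L ↔ a ∈ L')) → ∀ e ∈ G, h e ∈ C → e ∉ L' → Just t h r L e := by
  obtain ⟨Z, hFZ, hZG, hQ, hmax⟩ := exists_max_ql hFG hF
  obtain ⟨A0, S0, hA0, -, hc0⟩ := exists_cl t h (fun b => cond b Z G) (A := {r, v}) (S := ∅)
    (Set.to_countable _) countable_empty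
  obtain ⟨f, hf0, hf⟩ := exists_seq
    (fun s : Set V × Set E => Cl t h (fun b => cond b Z G) s.1 s.2)
    (fun _ s s' => Nx t h r F G Z s s') (A0, S0) hc0
    fun _ s hs => exists_nx hc hQ (fun e h1 h2 => hmax e h1 h2 (hr e)) hs.cA hs.cS
  have mA : Monotone fun n => (f n).1 := monotone_nat_of_le_succ fun n => (hf n).2.A
  have mS : Monotone fun n => (f n).2 := monotone_nat_of_le_succ fun n => (hf n).2.S
  have h0 : ∀ n, ({r, v} : Set V) ⊆ (f n).1 := fun n =>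
    hA0.trans (show (A0, S0).1 ⊆ _ from hf0 ▸ mA (Nat.zero_le n))
  obtain ⟨C, hC⟩ : ∃ C, C = ⋃ n, (f n).1 := ⟨_, rfl⟩
  obtain ⟨S, hS⟩ : ∃ S, S = ⋃ n, (f n).2 := ⟨_, rfl⟩
  have sC : ∀ n, (f n).1 ⊆ C := fun n => hC ▸ subset_iUnion (fun n => (f n).1) n
  have sS : ∀ n, (f n).2 ⊆ S := fun n => hS ▸ subset_iUnion (fun n => (f n).2) n
  have eC : ∀ x ∈ C, ∃ n, x ∈ (f n).1 := fun x hx => mem_iUnion.1 (hC ▸ hx)
  have eS : ∀ x ∈ S, ∃ n, x ∈ (f n).2 := fun x hx => mem_iUnion.1 (hS ▸ hx)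
  have eC2 : ∀ x ∈ C, ∀ w ∈ C, ∃ n, x ∈ (f n).1 ∧ w ∈ (f n).1 := by
    intro x hx w hw
    obtain ⟨n, hn⟩ := eC x hx
    obtain ⟨m, hm⟩ := eC w hw
    exact ⟨max n m, mA (le_max_left _ _) hn, mA (le_max_right _ _) hm⟩
  have cC : C.Countable := hC ▸ countable_iUnion fun n => (hf n).1.cA
  have cS : S.Countable := hS ▸ countable_iUnion fun n => (hf n).1.cS
  have ends : ∀ e ∈ S, t e ∈ C ∧ h e ∈ C := fun e he => by
    obtain ⟨n, hn⟩ := eS e he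
    exact ⟨sC n ((hf n).1.ends e hn).1, sC n ((hf n).1.ends e hn).2⟩
  have inF : ∀ a ∈ F, h a ∈ C → a ∈ S := fun a ha h1 => by
    obtain ⟨n, hn⟩ := eC _ h1
    exact sS _ ((hf n).2.inF a ha hn)
  have fam := fun n => (hf n).2.fam
  choose! p hp1 hp2 using fam
  obtain ⟨L', k1, k2, k3, k4, k5⟩ := gstar (t := t) (h := h) (r := r) (F := F ∩ S) (Z := Z ∩ S)
    (D0 := G ∩ S) (I := {i : ℕ × V × V × ℕ | i.2.1 ∈ (f i.1).1 ∧ i.2.2.1 ∈ C})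
    ((countable_univ.prod (cC.prod (cC.prod countable_univ))).mono
        fun i hi => And.intro (mem_univ _) ⟨sC _ hi.1, hi.2, mem_univ _⟩)
    (cS.mono inter_subset_right) hr hloop (inter_subset_inter_left _ hFZ)
    (inter_subset_inter_left _ hZG)
    (by
      intro x hx J h1 h2 h3
      by_cases hxC : x ∈ C
      swap
      · refine ll_empty.mono Subset.rfl fun a ha => hxC ?_
        exact ha.elim (fun h4 => h4.2.2 ▸ (ends a h4.1.2).2) fun h4 => h3 a h4 ▸ (ends a (h1 h4).2).2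
      obtain ⟨n, hn⟩ := eC x hxC
      obtain ⟨m, hm⟩ : ∃ m, J ⊆ (f m).2 := by
        obtain ⟨T, ⟨m, rfl⟩, h4⟩ :=
          mS.directed_le.directedOn_range.exists_mem_subset_of_finite_of_subset_sUnion
            (range_nonempty _) h2 (by rw [sUnion_range, ← hS]; exact h1.trans inter_subset_right)
        exact ⟨m, h4⟩
      refine (((hf (max n m)).2.ql x (mA (le_max_left _ _) hn) hx J
        (subset_inter (h1.trans inter_subset_left) (hm.trans (mS (le_max_right _ _)))) h2 h3).congrF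
        (F' := F ∩ S) fun a h4 h5 => ⟨h5, sS _ h4.2⟩).mono (inter_subset_inter_right _ (sS _))
        (union_subset_union_left _ fun a ha => ⟨ha.1.1, ha.2.1.1, ha.2.2⟩))
    (by
      intro e he h1 h2
      obtain ⟨n, hn⟩ := eS e he.2
      obtain ⟨J, h3, h4, h5, h6⟩ := (hf n).2.mx e ⟨he.1, hn⟩ fun h3 => h1 ⟨h3, he.2⟩
      refine h6 (((h2 J (fun a ha => (h3 ha).1.imp_right fun h7 => ⟨h7, sS _ (h3 ha).2⟩) h4
        h5).congrF fun a _ h7 => h7.1).mono (insert_subset_insert inter_subset_left)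
        (union_subset_union_left _ fun a ha => ?_))
      have h7 := inF a ha.1 (ha.2.2 ▸ (ends e he.2).2)
      exact ⟨⟨ha.1, h7⟩, Or.inr ⟨hFZ ha.1, h7⟩, ha.2.2⟩)
    (fun i k => {e | e ∈ p i.1 true i.2.1 (i.2.2.1, i.2.2.2, k) ∧ h e ≠ i.2.1})
    (fun i hi k e he => ⟨(((hp1 _ _ _ hi.1).1 _).1 e he.1).1, sS _ (hp2 _ _ _ hi.1 _ e he.1)⟩)
    (fun i _ k => (List.finite_toSet _).subset fun e he => he.1)
    (fun i hi y => Set.Subsingleton.finite (by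
      rintro k ⟨a, h1, h2⟩ k' ⟨b, h3, h4⟩
      exact congrArg (fun j : V × ℕ × ℕ => j.2.2) ((hp1 _ _ _ hi.1).2 _ _ a h1.1 b h3.1
        (Or.inr ⟨h2.trans h4.symm, h1.2⟩))))
  have cL : L'.Countable := cS.mono fun a ha => (k2 ha).2
  have hLZ : L' ⊆ Z := fun a ha => (k2 ha).1
  refine ⟨C, L', sC 0 (h0 0 (Or.inr rfl)), fun a ha => ⟨hZG (k2 ha).1, (ends a (k2 ha).2).2⟩,
    fun a ha h1 => k1 ⟨ha, inF a ha h1⟩, k3, fun L hLG hL e heG heC heL => ?_⟩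
  obtain ⟨Y, U, M, hw, hcl, hloose, -⟩ := bubble_final (fun y => cL.mono fun a ha => ha.1) k4 (hr e)
  have hrB : r ∉ {h e} ∪ Y := fun h1 => h1.elim (fun h2 => hr e h2.symm) hw.rY
  have hin : ∀ n, ∀ y ∈ (f n).1, y ∈ {h e} ∪ Y → ∀ z, Reach t h Z (f n).1 (f n).2 y z →
      z ∈ {h e} ∪ Y := by
    intro n y h1 h2 z h3
    refine in_of_reach cL hLZ (hf n).1.ends ((hf n).1.block true y h1)
      (fun h4 => hs y (fun h5 => hrB (h5 ▸ h2))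
        (((hf n).1.block true y h1 r (h0 n (Or.inl rfl)) h4).mono (subset_univ _)))
      hcl hloose h2 (hp1 n true y h1)
      (fun i a ha => ⟨hZG (((hp1 n true y h1).1 i).1 a ha).1, sS _ (hp2 n true y h1 i a ha)⟩)
      (fun w h4 _ j => ?_) h3
    obtain ⟨k, hk⟩ := k5 (n, y, w, j) ⟨h1, sC n h4⟩
    exact ⟨k, fun a h5 h6 => hk ⟨h5, h6⟩⟩
  have hstr : ∀ w ∈ C, Reach t h G C S (h e) w → w ∈ {h e} ∪ Y := by
    intro w h1 h2
    obtain ⟨n, h3, h4⟩ := eC2 _ heC w h1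
    have h5 : Str t h G w (h e) :=
      (hf n).1.block false _ h3 w h4 (h2.mono Subset.rfl (sC n) (sS n))
    exact in_of_str cL hcl hloose (Or.inl rfl) (hp1 n false _ h3)
      (fun i a ha => ⟨(((hp1 n false _ h3).1 i).1 a ha).1, sS _ (hp2 n false _ h3 i a ha)⟩)
      (tail_mem_of_wave hw hLZ (hf n).1.ends h3 (hin n)) h4
      (fun h6 => hs _ (hr e) ((h6 ▸ h5).mono (subset_univ _))) h5
  have hU : ∀ a ∈ U, h a ∈ C := fun a ha => (ends a (k2 (hw.sub ha)).2).2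
  have hfe : ∀ a ∈ G, a ∉ S → (h a ∈ C → h a = h e) → Reach t h G C S (h e) (h a) → t a ≠ h e →
      t a ∈ Y ∩ C ∪ {z | z ∉ C ∧ Reach t h G C S (h e) z} := by
    intro a h1 h2 h3 h4 h5
    have h6 := Reach.step ⟨h1, h2, h3⟩ h4
    by_cases h7 : t a ∈ C
    · exact Or.inl ⟨(hstr _ h7 h6).resolve_left h5, h7⟩
    · exact Or.inr ⟨h7, h6⟩
  refine ⟨Y ∩ C ∪ {z | z ∉ C ∧ Reach t h G C S (h e) z}, U, _, ⟨hw.ff.restrict
    (fun a ha h1 => ⟨ha, h1.elim (fun h2 => h2.1) fun h2 => (h2.1 (hU a ha)).elim⟩)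
    (fun _ _ hab _ _ => hw.ff.memr hab), fun a ha => (hL a (hU a ha)).2 (hw.sub ha), ?_, ?_, hw.tB,
    fun a ha => (hw.hYB ha).imp_left fun h1 => Or.inl ⟨h1, hU a ha⟩, ?_⟩, ?_⟩
  · exact fun h1 => h1.elim (fun h2 => hw.rY h2.1) fun h2 => h2.1 (sC 0 (h0 0 (Or.inl rfl)))
  · rintro y (h1 | h1) h2
    · exact hw.dis h1.1 h2
    · exact h1.1 (mem_singleton_iff.1 h2 ▸ heC)
  · rintro a ha (h1 | h1) h2 h3
    · have h4 := (hL a h1.2).1 ha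
      exact hw.ent h4 h1.1 (fun h5 => h2 (Or.inl ⟨h5, (ends a (k2 h4).2).1⟩)) h3
    · exact (h2 (hfe a (hLG ha) (fun h4 => h1.1 (ends a h4).2) (fun h4 => (h1.1 h4).elim) h1.2
        h3)).elim
  · by_cases h1 : e ∈ S
    · refine Or.inl ⟨Or.resolve_left (by_contra fun h2 => ?_) (hloop e), (ends e h1).1⟩
      exact heL (hcl e ⟨heG, h1⟩ (Or.inl rfl) h2)
    · exact hfe e heG h1 (fun _ => rfl) ReflTransGen.refl (hloop e)

end Pool.Agent.P.MP_133cc4_co
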