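import Pool.Agent.P.MP_133cc4_co.UStar

/-! Paths avoiding countable sets, and waves built from explicit paths. -/

namespace Pool.Agent.P.MP_133cc4_co

open Set Function Relation

variable {V E : Type*} {t h : E → V} {r : V}

/-- The edges of `H` outside `S` that do not end in `A`, except possibly at `x`. -/
def Fe (h : E → V) (H : Set E) (A : Set V) (S : Set E) (x : V) : Set E :=
  {e | e ∈ H ∧ e ∉ S ∧ (h e ∈ A → h e = x)}

/-- `z` reaches `x` in `H` avoiding `S` and, apart from the two ends, `A`. -/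
def Reach (t h : E → V) (H : Set E) (A : Set V) (S : Set E) (x z : V) : Prop :=
  ReflTransGen (fun u v => ∃ e ∈ Fe h H A S x, t e = u ∧ h e = v) z x

/-- No countable set blocks the way from `w` to `x`. -/
def Str (t h : E → V) (H : Set E) (w x : V) : Prop :=
  ∀ (A : Set V) (S : Set E), A.Countable → S.Countable → Reach t h H A S x w

variable {H H' S S' : Set E} {A A' : Set V} {x z w : V}

theorem Fe.mono (hH : H ⊆ H') (hA : A' ⊆ A) (hS : S' ⊆ S) : Fe h H A S x ⊆ Fe h H' A' S' x :=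
  fun _ he => ⟨hH he.1, fun h1 => he.2.1 (hS h1), fun h1 => he.2.2 (hA h1)⟩

theorem Reach.mono (hR : Reach t h H A S x z) (hH : H ⊆ H') (hA : A' ⊆ A) (hS : S' ⊆ S) :
    Reach t h H' A' S' x z := by
  unfold Reach at hR ⊢
  induction hR using ReflTransGen.head_induction_on with
  | refl => exact ReflTransGen.refl
  | head h1 _ ih =>
    obtain ⟨e, h1, h2⟩ := h1
    exact ReflTransGen.head ⟨e, Fe.mono hH hA hS h1, h2⟩ ih

theorem Reach.step {e : E} (he : e ∈ Fe h H A S x) (hR : Reach t h H A S x (h e)) :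
    Reach t h H A S x (t e) :=
  ReflTransGen.head ⟨e, he, rfl, rfl⟩ hR

theorem Str.mono (hs : Str t h H w x) (hH : H ⊆ H') : Str t h H' w x :=
  fun A S h1 h2 => (hs A S h1 h2).mono hH Subset.rfl Subset.rfl

theorem Walk.reach {u v : V} {p : List E} (W : Walk t h u p v) {T : Set E} (hT : ∀ e ∈ p, e ∈ T) :
    ReflTransGen (fun u v => ∃ e ∈ T, t e = u ∧ h e = v) u v ∧
      ∀ e ∈ p, ReflTransGen (fun u v => ∃ e ∈ T, t e = u ∧ h e = v) (h e) v := by
  induction W with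
  | nil v => exact ⟨ReflTransGen.refl, by simp⟩
  | cons e p v _ ih =>
    obtain ⟨h1, h2⟩ := ih fun a ha => hT a (List.mem_cons_of_mem _ ha)
    refine ⟨ReflTransGen.head ⟨e, hT e List.mem_cons_self, rfl, rfl⟩ h1, fun a ha => ?_⟩
    rcases List.mem_cons.1 ha with rfl | ha
    · exact h1
    · exact h2 a ha

theorem Walk.tail_mem {u v : V} {p : List E} (W : Walk t h u p v) :
    ∀ e ∈ p, t e = u ∨ ∃ a ∈ p, h a = t e := by
  induction W with
  | nil v => simp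
  | cons e p v _ ih =>
    intro a ha
    rcases List.mem_cons.1 ha with rfl | ha
    · exact Or.inl rfl
    · rcases ih a ha with h1 | ⟨b, h1, h2⟩
      · exact Or.inr ⟨e, List.mem_cons_self, h1.symm⟩
      · exact Or.inr ⟨b, List.mem_cons_of_mem _ h1, h2⟩

theorem ff_single {Y : Set V} {a : E} (ha : h a ∉ Y) : FF t h Y {a} (fun _ _ => False) := by
  simpa using (link_empty t h Y).toFF.add_exits (S := {a}) (by simpa using ha)

theorem Walk.ff {u v : V} {p : List E} (W : Walk t h u p v) {Y : Set V} (hv : v ∉ Y) :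
    ∀ a, h a = u → (a :: p).Nodup → ∃ U M, FF t h Y U M ∧ a ∈ U ∧ (∀ b, ¬ M b a) ∧
      ∀ b ∈ U, b = a ∨ (b ∈ p ∧ t b ∈ Y) := by
  induction W with
  | nil v => exact fun a ha _ => ⟨_, _, ff_single (ha ▸ hv), rfl, fun _ => id, fun _ hb => Or.inl hb⟩
  | cons e p v _ ih =>
    intro a ha hn
    by_cases hY : t e ∈ Y
    swap
    · exact ⟨_, _, ff_single (ha ▸ hY), rfl, fun _ => id, fun _ hb => Or.inl hb⟩
    obtain ⟨U, M, h1, h2, h3, h4⟩ := ih hv e rfl (List.nodup_cons.1 hn).2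
    have h5 : a ∉ U := fun h5 => (List.nodup_cons.1 hn).1 ((h4 a h5).elim
      (fun h6 => h6 ▸ List.mem_cons_self) fun h6 => List.mem_cons_of_mem _ h6.1)
    have h6 : ∀ b, b ≠ a → Acc (swap fun b c => M b c ∨ (b = a ∧ c = e)) b := by
      intro b
      induction b using h1.wf.induction with
      | _ b ih2 =>
        refine fun hb => ⟨b, ?_⟩
        rintro c (hc | hc)
        · exact ih2 c hc fun h6 => h5 (h6 ▸ h1.memr hc)
        · exact (hb hc.1).elim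
    refine ⟨insert a U, fun b c => M b c ∨ (b = a ∧ c = e), ⟨⟨?_, ?_, ?_, ?_, ?_, ?_⟩, ?_, ?_⟩,
      Or.inl rfl, ?_, ?_⟩
    · rintro b c (hb | ⟨rfl, rfl⟩)
      exacts [Or.inr (h1.meml hb), Or.inl rfl]
    · rintro b c (hb | ⟨rfl, rfl⟩)
      exacts [Or.inr (h1.memr hb), Or.inr h2]
    · rintro b c (hb | ⟨rfl, rfl⟩)
      exacts [h1.adj hb, ha]
    · rintro b c (hb | ⟨rfl, rfl⟩)
      exacts [h1.int hb, ha ▸ hY]
    · rintro b c d (hb | ⟨rfl, rfl⟩) (hc | ⟨h7, h8⟩)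
      exacts [h1.fn hb hc, (h5 (h7 ▸ h1.meml hb)).elim, (h5 (h1.meml hc)).elim, h8.symm]
    · rintro b c d (hb | ⟨rfl, rfl⟩) (hc | ⟨h7, h8⟩)
      exacts [h1.inj hb hc, (h3 b (h8 ▸ hb)).elim, (h3 c hc).elim, h7.symm]
    · rintro b (rfl | hb) h7
      · exact ⟨e, Or.inr ⟨rfl, rfl⟩⟩
      · exact (h1.tot hb h7).imp fun _ => Or.inl
    · refine ⟨fun b => ⟨b, ?_⟩⟩
      rintro c (hc | ⟨-, rfl⟩)
      · exact h6 c fun h7 => h5 (h7 ▸ h1.memr hc)
      · exact h6 c fun h7 => h5 (h7 ▸ h2)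
    · rintro b (hb | ⟨-, h7⟩)
      · exact h5 (h1.memr hb)
      · exact h5 (h7 ▸ h2)
    · rintro b (rfl | hb)
      · exact Or.inl rfl
      · rcases h4 b hb with rfl | h7
        · exact Or.inr ⟨List.mem_cons_self, hY⟩
        · exact Or.inr ⟨List.mem_cons_of_mem _ h7.1, h7.2⟩

/-- A wave from disjoint paths prolonging the entering edges. -/
theorem route {L : Set E} {B Y : Set V} (hrY : r ∉ Y) (hd : ∀ y ∈ Y, y ∉ B) (p : E → List E)
    (hp : ∀ a ∈ Ent t h L B Y, ∃ v ∈ B, Walk t h (h a) (p a) v ∧ (h a :: (p a).map h).Nodup ∧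
      ∀ e ∈ p a, t e ∈ Y → e ∈ L ∧ (h e ∈ Y ∨ h e ∈ B))
    (hdis : ∀ a ∈ Ent t h L B Y, ∀ b ∈ Ent t h L B Y, ∀ e ∈ p a, e ∈ p b → a = b) :
    ∃ U M, Wave t h r L B Y U M := by
  have : ∀ a : Ent t h L B Y, ∃ U M, FF t h Y U M ∧ a.1 ∈ U ∧
      ∀ b ∈ U, b = a.1 ∨ (b ∈ p a.1 ∧ t b ∈ Y) := by
    intro a
    obtain ⟨v, h1, h2, h3, -⟩ := hp a.1 a.2
    obtain ⟨U, M, h4, h5, -, h6⟩ := h2.ff (Y := Y) (fun h4 => hd v h4 h1) a.1 rfl
      (List.Nodup.of_map h h3)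
    exact ⟨U, M, h4, h5, h6⟩
  choose U M h1 h2 h3 using this
  have h4 : ∀ b ∈ ⋃ a, U a, b ∈ L ∧ t b ∉ B ∧ (h b ∈ Y ∨ h b ∈ B) := by
    intro b hb
    obtain ⟨a, ha⟩ := mem_iUnion.1 hb
    rcases h3 a b ha with rfl | h4
    · exact ⟨a.2.1, a.2.2.2.2, Or.inl a.2.2.1⟩
    · obtain ⟨v, -, -, -, h5⟩ := hp a.1 a.2
      exact ⟨(h5 b h4.1 h4.2).1, hd _ h4.2, (h5 b h4.1 h4.2).2⟩
  refine ⟨_, _, FF.iUnion h1 ?_, fun b hb => (h4 b hb).1, hrY, hd, fun b hb => (h4 b hb).2.1,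
    fun b hb => (h4 b hb).2.2, fun a h5 h6 h7 h8 =>
      mem_iUnion.2 ⟨⟨a, h5, h6, h7, h8⟩, h2 _⟩⟩
  intro a b e ha hb
  rcases h3 a e ha with h5 | h5 <;> rcases h3 b e hb with h6 | h6
  · exact Subtype.ext (h5.symm.trans h6)
  · exact (a.2.2.2.1 (h5 ▸ h6.2)).elim
  · exact (b.2.2.2.1 (h6 ▸ h5.2)).elim
  · exact Subtype.ext (hdis _ a.2 _ b.2 e h5.1 h6.1)

/-- A family of disjoint paths to `x` from the vertices of `A` that cannot be blocked. -/
def Fam (t h : E → V) (H : Set E) (A : Set V) (S : Set E) (x : V) (p : V × ℕ × ℕ → List E) :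
    Prop :=
  (∀ i, (∀ e ∈ p i, e ∈ Fe h H A S x) ∧ (i.1 ∈ A → Str t h H i.1 x →
    Walk t h i.1 (p i) x ∧ (i.1 :: (p i).map h).Nodup)) ∧
  ∀ i j, ∀ e ∈ p i, ∀ e' ∈ p j, (e = e' ∨ (h e = h e' ∧ h e ≠ x)) → i = j

theorem exists_fam (t h : E → V) (H : Set E) (hA : A.Countable) (hS : S.Countable) (x : V) :
    ∃ p, Fam t h H A S x p ∧ {e | ∃ i, e ∈ p i}.Countable := by
  classical
  let I : Set (V × ℕ × ℕ) := {i | i.1 ∈ A ∧ Str t h H i.1 x}
  have hI : I.Countable :=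
    (hA.prod countable_univ).mono fun i hi => And.intro hi.1 (mem_univ _)
  obtain ⟨g, hg⟩ := countable_iff_exists_injOn.1 hI
  obtain ⟨f, -, hf⟩ := exists_seq (fun s : Set E × List E => s.1.Finite)
    (fun n s s' => s.1 ⊆ s'.1 ∧ (∀ e ∈ s'.2, e ∈ s'.1 ∧ e ∈ Fe h H (A ∪ h '' s.1) (S ∪ s.1) x) ∧
      ∀ i ∈ I, g i = n → Walk t h i.1 s'.2 x ∧ (i.1 :: s'.2.map h).Nodup) (∅, []) finite_empty (by
      intro n s hs
      by_cases hex : ∃ i ∈ I, g i = n
      swap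
      · exact ⟨(s.1, []), hs, Subset.rfl, by simp, fun i h1 h2 => (hex ⟨i, h1, h2⟩).elim⟩
      obtain ⟨i, h1, h2⟩ := hex
      obtain ⟨q, h3, h4, h5⟩ := exists_path (h1.2 _ _ (hA.union (hs.image h).countable)
        (hS.union hs.countable))
      exact ⟨(s.1 ∪ {e | e ∈ q}, q), hs.union (List.finite_toSet q), subset_union_left,
        fun e he => ⟨Or.inr he, h5 e he⟩, fun j h6 h7 => hg h1 h6 (h2.trans h7.symm) ▸ ⟨h3, h4⟩⟩)
  have hm : Monotone fun n => (f n).1 := monotone_nat_of_le_succ fun n => (hf n).2.1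
  have key : ∀ m n, m < n → ∀ e ∈ (f (m + 1)).2, ∀ e' ∈ (f (n + 1)).2,
      ¬ (e = e' ∨ (h e = h e' ∧ h e ≠ x)) := by
    intro m n hmn e he e' he'
    have h1 : e ∈ (f n).1 := hm hmn ((hf m).2.2.1 e he).1
    have h2 := ((hf n).2.2.1 e' he').2
    rintro (rfl | h3)
    · exact h2.2.1 (Or.inr h1)
    · exact h3.2 (h3.1.trans (h2.2.2 (Or.inr ⟨e, h1, h3.1⟩)))
  refine ⟨fun i => if i ∈ I then (f (g i + 1)).2 else [], ⟨fun i => ⟨fun e he => ?_,
    fun h1 h2 => ?_⟩, fun i j e he e' he' h1 => ?_⟩, ?_⟩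
  · by_cases hi : i ∈ I
    · simp only [if_pos hi] at he
      exact Fe.mono Subset.rfl subset_union_left subset_union_left ((hf _).2.2.1 e he).2
    · simp [if_neg hi] at he
  · have hi : i ∈ I := ⟨h1, h2⟩
    simp only [if_pos hi]
    exact (hf _).2.2.2 i hi rfl
  · by_cases hi : i ∈ I
    swap
    · simp [if_neg hi] at he
    by_cases hj : j ∈ I
    swap
    · simp [if_neg hj] at he'
    simp only [if_pos hi, if_pos hj] at he he'
    rcases lt_trichotomy (g i) (g j) with h2 | h2 | h2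
    · exact (key _ _ h2 e he e' he' h1).elim
    · exact hg hi hj h2
    · refine (key _ _ h2 e' he' e he ?_).elim
      rcases h1 with h3 | h3
      · exact Or.inl h3.symm
      · exact Or.inr ⟨h3.1.symm, h3.1 ▸ h3.2⟩
  · refine (countable_iUnion fun n => (hf n).1.countable).mono ?_
    rintro e ⟨i, he⟩
    by_cases hi : i ∈ I
    · simp only [if_pos hi] at he
      exact mem_iUnion.2 ⟨_, ((hf _).2.2.1 e he).1⟩
    · simp [if_neg hi] at he

theorem not_str (hx : x ≠ r) (hc : ∀ Fam, PathFamily t h r x univ Fam → Fam.Countable) :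
    ¬ Str t h univ r x := by
  intro hs
  obtain ⟨P, hP⟩ := zorn_subset {P | PathFamily t h r x univ P} (by
    intro c h1 h2
    refine ⟨⋃₀ c, ⟨fun p ⟨P, h3, h4⟩ => (h1 h3).1 p h4, ?_⟩, fun P h3 => subset_sUnion_of_mem h3⟩
    exact (pairwiseDisjoint_sUnion h2.directedOn).2 fun P h3 => (h1 h3).2)
  have h1 : (⋃₀ P).Countable := (hc P hP.1).sUnion fun p hp => by
    obtain ⟨q, -, -, rfl⟩ := (hP.1.1 p hp).1
    exact (List.finite_toSet q).countable
  obtain ⟨q, h2, h3, h4⟩ := exists_path (hs ∅ _ countable_empty h1)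
  obtain ⟨e, h5, -⟩ := h2.cross (B := {x}) (fun h5 => hx h5.symm) rfl
  refine (h4 e h5).2.1 ⟨{e | e ∈ q}, hP.2 (y := insert {e | e ∈ q} P) ⟨?_, ?_⟩
    (subset_insert _ _) (Or.inl rfl), h5⟩
  · rintro p (rfl | hp)
    · exact ⟨⟨q, h2, h3, rfl⟩, subset_univ _⟩
    · exact hP.1.1 p hp
  · exact hP.1.2.insert fun p hp _ => disjoint_left.2 fun a ha h6 => (h4 a ha).2.1 ⟨p, hp, h6⟩

theorem Lk.countable {L C : Set E} (hx : x ≠ r)
    (hc : ∀ Fam, PathFamily t h r x univ Fam → Fam.Countable) (hC : ∀ a ∈ C, h a = x)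
    (hL : Lk t h r L {x} C) : C.Countable := by
  obtain ⟨P, h1, h2, -⟩ := (hL.mono (subset_univ _) Subset.rfl).family hx hC
  refine ((hc P h1).sUnion fun p hp => ?_).mono h2
  obtain ⟨q, -, -, rfl⟩ := (h1.1 p hp).1
  exact (List.finite_toSet q).countable

end Pool.Agent.P.MP_133cc4_co
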