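import Pool.Agent.P.MP_133cc4_co.UPath

/-! Everything that cannot be blocked lies in the largest wave. -/

namespace Pool.Agent.P.MP_133cc4_co

open Set Function Relation

variable {V E : Type*} {t h : E → V} {r : V} {G Z D L S : Set E} {A B : Set V} {x : V}
  {p : V × ℕ × ℕ → List E}

theorem in_of_reach (hL : L.Countable) (hLZ : L ⊆ Z) (hS : ∀ e ∈ S, t e ∈ A ∧ h e ∈ A)
    (hblock : ∀ w ∈ A, Reach t h Z A S x w → Str t h Z w x) (hr : ¬ Reach t h Z A S x r)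
    (hcl : ∀ e ∈ D, h e ∈ B → t e ∉ B → e ∈ L)
    (hloose : ∀ Y U M, Wave t h r L B Y U M → Y = ∅) (hx : x ∈ B)
    (hp : Fam t h Z A S x p) (hpD : ∀ i, ∀ e ∈ p i, e ∈ D)
    (hk : ∀ w ∈ A, Str t h Z w x → ∀ j, ∃ k, ∀ e ∈ p (w, j, k), h e ≠ x → e ∈ L) {z : V}
    (hz : Reach t h Z A S x z) : z ∈ B := by
  obtain ⟨g, hg⟩ := countable_iff_exists_injOn.1 hL
  choose! k hk using hk
  let Y : Set V := {z | Reach t h Z A S x z ∧ z ∉ B}
  have h1 : ∀ a ∈ Ent t h L B Y, h a ∈ A ∧ Str t h Z (h a) x := by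
    intro a ha
    have h1 : h a ∈ A := by
      by_contra h1
      exact ha.2.2.1 ⟨Reach.step ⟨hLZ ha.1, fun h2 => h1 (hS a h2).2, fun h2 => (h1 h2).elim⟩
        ha.2.1.1, ha.2.2.2⟩
    exact ⟨h1, hblock _ h1 ha.2.1.1⟩
  obtain ⟨U, M, hw⟩ := route (t := t) (h := h) (r := r) (L := L) (B := B) (Y := Y)
    (fun h2 => hr h2.1) (fun y hy => hy.2) (fun a => p (h a, g a, k (h a) (g a)))
    (fun a ha => by
      obtain ⟨h2, h3⟩ := hp.1 (h a, g a, k (h a) (g a))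
      obtain ⟨h4, h5⟩ := h3 (h1 a ha).1 (h1 a ha).2
      refine ⟨x, hx, h4, h5, fun e he h6 => ⟨?_, ?_⟩⟩
      · by_cases h7 : h e = x
        · exact hcl e (hpD _ e he) (h7 ▸ hx) h6.2
        · exact hk _ (h1 a ha).1 (h1 a ha).2 _ e he h7
      · by_cases h7 : h e ∈ B
        · exact Or.inr h7
        · exact Or.inl ⟨(h4.reach h2).2 e he, h7⟩)
    (fun a ha b hb e h2 h3 => hg ha.1 hb.1
      (congrArg (fun i : V × ℕ × ℕ => i.2.1) (hp.2 _ _ e h2 e h3 (Or.inl rfl))))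
  by_contra h2
  exact (hloose _ _ _ hw ▸ (⟨hz, h2⟩ : z ∈ Y) : z ∈ (∅ : Set V))

theorem tail_mem_of_wave {Y : Set V} {U : Set E} {M : E → E → Prop}
    (hw : Wave t h r L {x} Y U M) (hLZ : L ⊆ Z) (hS : ∀ e ∈ S, t e ∈ A ∧ h e ∈ A) (hx : x ∈ A)
    (hin : ∀ y ∈ A, y ∈ {x} ∪ Y → ∀ z, Reach t h Z A S y z → z ∈ {x} ∪ Y) :
    ∀ a ∈ L, h a ∈ {x} ∪ Y → t a ∉ {x} ∪ Y → t a ∈ A := by
  have key : ∀ a, a ∈ L → (a ∈ U ∨ h a = x) → t a ∉ A → ∃ y ∈ A, y ∈ {x} ∪ Y ∧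
      Reach t h Z A S y (t a) := by
    intro a
    induction a using hw.ff.wf.induction with
    | _ a ih =>
      intro ha h1 h2
      have h3 : a ∉ S := fun h3 => h2 (hS a h3).1
      by_cases h4 : h a ∈ A
      · exact ⟨h a, h4, h1.elim (fun h5 => (hw.hYB h5).symm) Or.inl,
          Reach.step ⟨hLZ ha, h3, fun _ => rfl⟩ ReflTransGen.refl⟩
      have h5 : h a ≠ x := fun h5 => h4 (h5 ▸ hx)
      have h6 := h1.resolve_right h5
      obtain ⟨b, hb⟩ := hw.ff.tot h6 ((hw.hYB h6).resolve_right h5)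
      obtain ⟨y, h7, h8, h9⟩ := ih b hb (hw.sub (hw.ff.memr hb)) (Or.inl (hw.ff.memr hb))
        (hw.ff.adj hb ▸ h4)
      exact ⟨y, h7, h8, Reach.step ⟨hLZ ha, h3, fun h10 => (h4 h10).elim⟩ (hw.ff.adj hb ▸ h9)⟩
  intro a ha h1 h2
  by_contra h3
  obtain ⟨y, h4, h5, h6⟩ := key a ha (h1.symm.imp_left fun h4 =>
    hw.ent ha h4 (fun h5 => h2 (Or.inr h5)) fun h5 => h2 (Or.inl h5)) h3
  exact h2 (hin y h4 h5 _ h6)

theorem in_of_str (hL : L.Countable) (hcl : ∀ e ∈ D, h e ∈ B → t e ∉ B → e ∈ L)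
    (hloose : ∀ Y U M, Wave t h r L B Y U M → Y = ∅) (hx : x ∈ B)
    (hp : Fam t h G A S x p) (hpD : ∀ i, ∀ e ∈ p i, e ∈ D)
    (hb : ∀ a ∈ L, h a ∈ B → t a ∉ B → t a ∈ A) {w : V} (hw : w ∈ A) (hwr : w ≠ r)
    (hs : Str t h G w x) : w ∈ B := by
  by_contra hwB
  obtain ⟨g, hg⟩ := countable_iff_exists_injOn.1 hL
  have h1 : ∀ j, ∃ c ∈ p (w, j, 0), c ∈ L ∧ t c = w ∧ h c ∈ B := by
    intro j
    obtain ⟨h2, h3⟩ := hp.1 (w, j, 0)
    obtain ⟨h4, -⟩ := h3 hw hs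
    obtain ⟨c, h5, h6, h7⟩ := h4.cross hwB hx
    have h8 := hcl c (hpD _ c h5) h7 h6
    refine ⟨c, h5, h8, (h4.tail_mem c h5).resolve_right ?_, h7⟩
    rintro ⟨a, h9, h10⟩
    exact h6 (h10 ▸ (h2 a h9).2.2 (h10 ▸ hb c h8 h7 h6) ▸ hx)
  choose c h1 h2 h3 h4 using h1
  obtain ⟨U, M, hw⟩ := route (t := t) (h := h) (r := r) (L := L) (B := B) (Y := {w})
    (fun h5 => hwr h5.symm) (fun y hy => (mem_singleton_iff.1 hy) ▸ hwB) (fun a => [c (g a)])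
    (fun a ha => by
      have h5 : h a = t (c (g a)) := ha.2.1.trans (h3 _).symm
      refine ⟨_, h4 (g a), h5 ▸ Walk.cons _ _ _ (Walk.nil _), ?_, fun e he _ => ?_⟩
      · have h6 : h a ≠ h (c (g a)) := fun h6 => hwB (ha.2.1 ▸ h6 ▸ h4 _)
        simpa using h6
      · obtain rfl := List.mem_singleton.1 he
        exact ⟨h2 _, Or.inr (h4 _)⟩)
    (fun a ha b hb e h5 h6 => hg ha.1 hb.1 (congrArg (fun i : V × ℕ × ℕ => i.2.1)
      (hp.2 _ _ _ (h1 (g a)) _ (h1 (g b))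
        (Or.inl ((List.mem_singleton.1 h5).symm.trans (List.mem_singleton.1 h6))))))
  exact singleton_ne_empty w (hloose _ _ _ hw)

theorem exists_cover {ι α : Type*} {I : Set ι} (hI : I.Countable) (P : ι → Set α → Prop)
    (hm : ∀ i s s', s ⊆ s' → P i s → P i s') (hP : ∀ i ∈ I, ∃ s, s.Countable ∧ P i s) :
    ∃ s : Set α, s.Countable ∧ ∀ i ∈ I, ∀ s', s ⊆ s' → P i s' := by
  choose! s h1 h2 using hP
  exact ⟨⋃ i ∈ I, s i, hI.biUnion h1, fun i hi s' h3 =>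
    hm i _ _ ((subset_biUnion_of_mem hi).trans h3) (h2 i hi)⟩

/-- A countable pair containing the ends of its edges and all blocking sets. -/
structure Cl (t h : E → V) (H : Bool → Set E) (A : Set V) (S : Set E) : Prop where
  cA : A.Countable
  cS : S.Countable
  ends : ∀ e ∈ S, t e ∈ A ∧ h e ∈ A
  block : ∀ b, ∀ x ∈ A, ∀ w ∈ A, Reach t h (H b) A S x w → Str t h (H b) w x

theorem exists_cl (t h : E → V) (H : Bool → Set E) (hA : A.Countable) (hS : S.Countable) :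
    ∃ A' S', A ⊆ A' ∧ S ⊆ S' ∧ Cl t h H A' S' := by
  have hb : ∀ b x w, ∃ A S, A.Countable ∧ S.Countable ∧
      (Reach t h (H b) A S x w → Str t h (H b) w x) := by
    intro b x w
    by_cases h1 : Str t h (H b) w x
    · exact ⟨∅, ∅, countable_empty, countable_empty, fun _ => h1⟩
    · have h2 := h1
      unfold Str at h2
      push Not at h2
      obtain ⟨A, S, h3, h4, h5⟩ := h2
      exact ⟨A, S, h3, h4, fun h6 => (h5 h6).elim⟩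
  choose bA bS h1 h2 h3 using hb
  obtain ⟨f, hf0, hf⟩ := exists_seq (fun s : Set V × Set E => s.1.Countable ∧ s.2.Countable)
    (fun _ s s' => s.1 ⊆ s'.1 ∧ s.2 ⊆ s'.2 ∧ (∀ e ∈ s.2, t e ∈ s'.1 ∧ h e ∈ s'.1) ∧
      ∀ b, ∀ x ∈ s.1, ∀ w ∈ s.1, bA b x w ⊆ s'.1 ∧ bS b x w ⊆ s'.2) (A, S) ⟨hA, hS⟩ (by
      intro _ s hs
      refine ⟨(s.1 ∪ (t '' s.2 ∪ h '' s.2) ∪ ⋃ b, ⋃ x ∈ s.1, ⋃ w ∈ s.1, bA b x w,
        s.2 ∪ ⋃ b, ⋃ x ∈ s.1, ⋃ w ∈ s.1, bS b x w),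
        ⟨(hs.1.union ((hs.2.image t).union (hs.2.image h))).union (countable_iUnion fun b =>
          hs.1.biUnion fun x _ => hs.1.biUnion fun w _ => h1 b x w),
        hs.2.union (countable_iUnion fun b =>
          hs.1.biUnion fun x _ => hs.1.biUnion fun w _ => h2 b x w)⟩,
        fun _ h4 => Or.inl (Or.inl h4), subset_union_left,
        fun e he => ⟨Or.inl (Or.inr (Or.inl ⟨e, he, rfl⟩)), Or.inl (Or.inr (Or.inr ⟨e, he, rfl⟩))⟩,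
        fun b x hx w hw => ⟨fun y hy => Or.inr ?_, fun y hy => Or.inr ?_⟩⟩
      · exact mem_iUnion.2 ⟨b, mem_biUnion hx (mem_biUnion hw hy)⟩
      · exact mem_iUnion.2 ⟨b, mem_biUnion hx (mem_biUnion hw hy)⟩)
  have hm : Monotone fun n => (f n).1 := monotone_nat_of_le_succ fun n => (hf n).2.1
  refine ⟨⋃ n, (f n).1, ⋃ n, (f n).2, subset_iUnion_of_subset 0 (hf0 ▸ Subset.rfl),
    subset_iUnion_of_subset 0 (hf0 ▸ Subset.rfl), countable_iUnion fun n => (hf n).1.1,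
    countable_iUnion fun n => (hf n).1.2, fun e he => ?_, fun b x hx w hw h4 => ?_⟩
  · obtain ⟨n, hn⟩ := mem_iUnion.1 he
    exact ⟨mem_iUnion.2 ⟨_, ((hf n).2.2.2.1 e hn).1⟩, mem_iUnion.2 ⟨_, ((hf n).2.2.2.1 e hn).2⟩⟩
  · obtain ⟨n, hn⟩ := mem_iUnion.1 hx
    obtain ⟨m, hm'⟩ := mem_iUnion.1 hw
    obtain ⟨h5, h6⟩ := (hf (max n m)).2.2.2.2 b x (hm (le_max_left _ _) hn) w
      (hm (le_max_right _ _) hm')
    exact h3 b x w (h4.mono Subset.rfl (subset_iUnion_of_subset _ h5)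
      (subset_iUnion_of_subset _ h6))

theorem LL.congrF {F F' T : Set E} {I : Set V} (H : LL t h F G I B T)
    (hF : ∀ a ∈ G, a ∈ F → a ∈ F') : LL t h F' G I B T := by
  obtain ⟨U, M, h1, h2⟩ := H
  exact ⟨U, M, ⟨h1.ff, h1.sub, h1.tB, h1.hIB, fun y hy => Set.Finite.subset (h1.lf y hy)
    fun a ha => ⟨ha.1, fun h3 => ha.2 (hF a (h1.sub ha.1.1) h3)⟩⟩, h2⟩

theorem LL.small {F T : Set E} {I : Set V} (H : LL t h F G I B T) (hT : T.Countable) :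
    ∃ s : Set E, s.Countable ∧ LL t h F (G ∩ s) I B T := by
  obtain ⟨U, M, h1, h2⟩ := H
  have h3 : ∀ b, (∃ a ∈ T, ReflTransGen M a b) → b ∈ U := fun b ⟨a, ha, hab⟩ =>
    h1.ff.toMat.rtg_mem hab (h2 ha)
  refine ⟨{b | ∃ a ∈ T, ReflTransGen M a b}, ?_, {b | ∃ a ∈ T, ReflTransGen M a b}, _,
    ⟨h1.ff.restrict (fun a ha h4 => ⟨h3 a ha, h4⟩) fun a b hab ⟨c, hc, h4⟩ _ => ⟨c, hc, h4.tail hab⟩,
      fun a ha => ⟨h1.sub (h3 a ha), ha⟩, fun a ha => h1.tB (h3 a ha),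
      fun a ha => h1.hIB (h3 a ha), h1.lf.sm_sub Subset.rfl h3⟩,
    fun a ha => ⟨a, ha, ReflTransGen.refl⟩⟩
  exact (hT.biUnion fun a _ => (h1.ff.finite_fwd a).countable).mono
    fun b ⟨a, ha, hab⟩ => mem_biUnion ha hab

end Pool.Agent.P.MP_133cc4_co
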