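import Pool.Agent.P.MP_133cc4_co.GFinal

/-! The countable construction keeping prescribed finite edge sets. -/

namespace Pool.Agent.P.MP_133cc4_co

open Set Function Relation

variable {V E : Type*} {t h : E → V} {r : V} {F D0 Z : Set E}

theorem GInv.keep {s : GSt V E} (H : GInv t h r F D0 Z s) {Q : ℕ → Set E} (hQZ : ∀ k, Q k ⊆ Z)
    (hQf : ∀ k, (Q k).Finite) (hQv : ∀ v, {k | ∃ a ∈ Q k, h a = v}.Finite) :
    ∃ s', GInv t h r F D0 Z s' ∧ GRel t s s' ∧ ∃ k, Q k ⊆ s'.K := by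
  obtain ⟨k, hk⟩ := (H.actfin.biUnion fun v _ => hQv v).exists_notMem
  have h1 : Q k ⊆ s.D := fun a ha => by
    by_contra h2
    exact hk (mem_biUnion (H.delZ a (hQZ k ha) h2) ⟨a, ha, rfl⟩)
  exact ⟨{s with K := s.K ∪ Q k}, ⟨H.FD, union_subset H.KD h1, H.DZ, H.Kfin.union (hQf k),
    H.actfin, H.Sfin, fun y hy => ⟨(H.act y hy).1, (H.act y hy).2.1.trans subset_union_left,
      (H.act y hy).2.2.trans subset_union_left⟩, H.ina, H.delZ, H.del,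
    fun i hi => ⟨(H.req i hi).1, (H.req i hi).2.trans subset_union_left⟩, H.cov⟩,
    ⟨Subset.rfl, subset_union_left, Subset.rfl, fun _ _ => LRel.refl _, Subset.rfl,
      fun _ _ => ⟨rfl, Subset.rfl, le_rfl⟩⟩, k, subset_union_right⟩

theorem gstar {ι : Type*} {I : Set ι} (hI : I.Countable) (hD : D0.Countable) (hr : ∀ e, h e ≠ r)
    (hloop : ∀ e, t e ≠ h e) (hFZ : F ⊆ Z) (hZD : Z ⊆ D0)
    (hQ : ∀ x, x ≠ r → QL t h F Z (Out r {x}) x)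
    (hmax : ∀ e ∈ D0, e ∉ Z → ¬ QL t h F (insert e Z) (Out r {h e}) (h e))
    (Q : ι → ℕ → Set E) (hQZ : ∀ i ∈ I, ∀ k, Q i k ⊆ Z) (hQf : ∀ i ∈ I, ∀ k, (Q i k).Finite)
    (hQv : ∀ i ∈ I, ∀ v, {k | ∃ a ∈ Q i k, h a = v}.Finite) :
    ∃ L, F ⊆ L ∧ L ⊆ Z ∧ (∀ x, x ≠ r → Lk t h r L {x} {a | a ∈ L ∧ h a = x}) ∧
      (∀ e ∈ D0, e ∉ L → Just t h r L e) ∧ ∀ i ∈ I, ∃ k, Q i k ⊆ L := by
  have hZ : Z.Countable := hD.mono hZD
  obtain ⟨g, hg⟩ := countable_iff_exists_injOn.1 hD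
  obtain ⟨c, hc⟩ := countable_iff_exists_injOn.1 hI
  obtain ⟨f, -, hf⟩ := exists_seq (GInv t h r F D0 Z)
    (fun n s s' => GRel t s s' ∧ (∀ b ∈ D0, g b = n.unpair.1 → h b ∈ s'.act ∧
      (∀ x ∈ s.act, b ∈ s'.D →
        (h b = x ∨ (h b ∈ (s.loc x).Y0 ∧ t b ∉ (s.loc x).Y0 ∧ t b ≠ x)) → b ∈ (s'.loc x).Ψ) ∧
      ∀ i ∈ s.S, b ∈ Del t h s'.D (s.Wq i) → b ∈ s'.Φq i) ∧
      ∀ i ∈ I, c i = n → ∃ k, Q i k ⊆ s'.K)
    ⟨Z, ∅, ∅, fun _ => ⟨∅, ∅, ∅, ∅, fun _ _ => False, ∅, fun _ _ => False⟩, ∅, fun _ => ∅,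
      fun _ => ∅, fun _ _ _ => False⟩
    ⟨hFZ, empty_subset _, Subset.rfl, finite_empty, finite_empty, finite_empty,
      fun _ h1 => h1.elim, fun w _ hw => hQ w hw, fun _ h1 h2 => (h2 h1).elim,
      fun _ _ _ h1 => h1.elim, fun _ h1 => h1.elim, fun _ h1 => h1.elim⟩ (by
      intro n s hs
      have st : ∀ s1, GInv t h r F D0 Z s1 → ∃ s2, GInv t h r F D0 Z s2 ∧ GRel t s1 s2 ∧
          ∀ i ∈ I, c i = n → ∃ k, Q i k ⊆ s2.K := by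
        intro s1 h1
        by_cases hex : ∃ i ∈ I, c i = n
        · obtain ⟨i, h2, h3⟩ := hex
          obtain ⟨s2, h4, h5, h6⟩ := h1.keep (hQZ i h2) (hQf i h2) (hQv i h2)
          exact ⟨s2, h4, h5, fun j h7 h8 => hc h2 h7 (h3.trans h8.symm) ▸ h6⟩
        · exact ⟨s1, h1, GRel.refl _, fun i h2 h3 => (hex ⟨i, h2, h3⟩).elim⟩
      by_cases hex : ∃ b ∈ D0, g b = n.unpair.1
      swap
      · obtain ⟨s2, h1, h2, h3⟩ := st s hs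
        exact ⟨s2, h1, h2, fun b h1 h2 => (hex ⟨b, h1, h2⟩).elim, h3⟩
      obtain ⟨b, h1, h2⟩ := hex
      obtain ⟨s1, h3, h4, h5⟩ := lim_freeze hZ hloop hs b hs.actfin Subset.rfl
      obtain ⟨s2, h6, h7, h8⟩ := lim_sfreeze h3 b hs.Sfin h4.S
      obtain ⟨s3, h9, h10, h11⟩ := h6.activate hZ hloop hQ hmax (hr b)
      obtain ⟨s4, k1, k2, k3⟩ := st s3 h9
      have k4 := h10.trans k2
      refine ⟨s4, k1, (h4.trans h7).trans k4, fun b' h12 h13 => ?_, k3⟩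
      obtain rfl := hg h12 h1 (h13.trans h2.symm)
      exact ⟨k2.act h11, fun x hx h14 h15 => ((h7.trans k4).loc x (h4.act hx)).Ψ
        (h5 x hx ((h7.trans k4).D h14) h15), fun i hi h14 => (k4.q i (h7.S (h4.S hi))).2.1
        (h8 i hi ⟨k4.D h14.1, (h4.q i hi).1 ▸ h14.2⟩)⟩)
  have hrel : ∀ n, GRel t (f n) (f (n + 1)) := fun n => (hf n).2.1
  have hLZ : (⋂ n, (f n).D) ⊆ Z := (iInter_subset _ 0).trans (hf 0).1.DZ
  have hLD := hLZ.trans hZD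
  have key := fun b hb m => (hf (Nat.pair (g b) m)).2.2.1 b hb (by rw [Nat.unpair_pair])
  obtain ⟨k1, k2⟩ := glimit (fun n => (hf n).1) hrel hZD (fun a ha => ⟨_, (key a ha 0).1⟩)
    (by
      intro m x hx b hb h1
      have h2 := lim_rel hrel (Nat.right_le_pair (g b) m)
      exact ⟨_, (Nat.right_le_pair (g b) m).trans (Nat.le_succ _), (key b (hLD hb) m).2.1 x
        (h2.act hx) (mem_iInter.1 hb _) ((h2.loc x hx).Y0 ▸ h1)⟩)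
    (by
      intro m i hi b hb
      have h2 := lim_rel hrel (Nat.right_le_pair (g b) m)
      exact ⟨_, (Nat.right_le_pair (g b) m).trans (Nat.le_succ _), (key b (hLD hb.1) m).2.2 i
        (h2.S hi) ⟨mem_iInter.1 hb.1 _, (h2.q i hi).1 ▸ hb.2⟩⟩)
  refine ⟨⋂ n, (f n).D, subset_iInter fun n => (hf n).1.FD, hLZ, k1, k2, fun i hi => ?_⟩
  obtain ⟨k, hk⟩ := (hf (c i)).2.2.2 i hi rfl
  exact ⟨k, hk.trans (lim_K (fun n => (hf n).1) hrel _)⟩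

end Pool.Agent.P.MP_133cc4_co
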