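import Pool.Agent.P.MP_133cc4_co.Aug

/-! Waves towards a set of sinks. -/

namespace Pool.Agent.P.MP_133cc4_co

open Set Function Relation

variable {V E : Type*}

/-- All edges entering `Y` from outside `Y ∪ B` are linked inside `Y` to `B`. -/
structure Wave (t h : E → V) (r : V) (G : Set E) (B Y : Set V) (U : Set E) (M : E → E → Prop) :
    Prop where
  ff : FF t h Y U M
  sub : U ⊆ G
  rY : r ∉ Y
  dis : ∀ ⦃y⦄, y ∈ Y → y ∉ B
  tB : ∀ ⦃a⦄, a ∈ U → t a ∉ B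
  hYB : ∀ ⦃a⦄, a ∈ U → h a ∈ Y ∨ h a ∈ B
  ent : ∀ ⦃a⦄, a ∈ G → h a ∈ Y → t a ∉ Y → t a ∉ B → a ∈ U

/-- Local smallness. -/
def LS (Sm : Set E → Prop) (h : E → V) (Y : Set V) (U : Set E) : Prop :=
  ∀ y ∈ Y, Sm {a | a ∈ U ∧ h a = y}

/-- A locally finite wave leaving some edge into the sinks unused. -/
def Hind (t h : E → V) (r : V) (G : Set E) (B : Set V) : Prop :=
  ∃ Y U M, Wave t h r G B Y U M ∧ LS Set.Finite h Y U ∧ ∃ z ∈ G, h z ∈ B ∧ t z ∈ Y ∧ z ∉ U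

/-- The edges of `T` are ends of edge-disjoint paths from the root avoiding `B` before. -/
def Lk (t h : E → V) (r : V) (G : Set E) (B : Set V) (T : Set E) : Prop :=
  ∃ U M, FF h t {v | v ≠ r ∧ v ∉ B} U M ∧ U ⊆ G ∧ (∀ a ∈ U, t a ∉ B) ∧ T ⊆ U

variable {t h : E → V} {r : V} {G : Set E} {B Y : Set V} {U : Set E} {M : E → E → Prop}

theorem Lk.mono {G' T T' : Set E} (H : Lk t h r G B T) (hG : G ⊆ G') (hT : T' ⊆ T) :
    Lk t h r G' B T' := by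
  obtain ⟨U, M, h1, h2, h3, h4⟩ := H
  exact ⟨U, M, h1, h2.trans hG, h3, hT.trans h4⟩

theorem LS.mono {Sm : Set E → Prop} (hSm : ∀ s s', s ⊆ s' → Sm s' → Sm s) (H : LS Sm h Y U)
    {Y' : Set V} {U' : Set E} (hY : Y' ⊆ Y) (hU : U' ⊆ U) : LS Sm h Y' U' :=
  fun y hy => by
    refine hSm _ _ ?_ (H y (hY hy))
    exact fun _ ha => ⟨hU ha.1, ha.2⟩

theorem LS.fin_mono (H : LS Set.Finite h Y U) {Y' : Set V} {U' : Set E} (hY : Y' ⊆ Y)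
    (hU : (U' \ U).Finite) : LS Set.Finite h Y' U' := by
  intro y hy
  refine ((H y (hY hy)).union hU).subset ?_
  intro a ha
  by_cases haU : a ∈ U
  · exact Or.inl ⟨haU, ha.2⟩
  · exact Or.inr ⟨ha.1, haU⟩

theorem LS.fin_sub (H : LS Set.Finite h Y U) {Y' : Set V} {U' : Set E} (hY : Y' ⊆ Y)
    (hU : U' ⊆ U) : LS Set.Finite h Y' U' :=
  H.mono (fun _ _ h1 h2 => h2.subset h1) hY hU

theorem wave_empty (t h : E → V) (r : V) (G : Set E) (B : Set V) :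
    Wave t h r G B ∅ ∅ (fun _ _ => False) :=
  ⟨(link_empty t h ∅).toFF, empty_subset _, fun h1 => h1, fun _ h1 => h1.elim,
    fun _ h1 => h1.elim, fun _ h1 => h1.elim, fun _ _ h1 => h1.elim⟩

theorem Wave.link (H : Wave t h r G B Y U M) :
    ∃ U' M', Wave t h r G B Y U' M' ∧ Link t h Y U' M' ∧ U' ⊆ U := by
  obtain ⟨U', M', h1, h2, h3, -, -⟩ := H.ff.normalize
    (S := {a | a ∈ G ∧ h a ∈ Y ∧ t a ∉ Y ∧ t a ∉ B})
    (fun a ha => H.ent ha.1 ha.2.1 ha.2.2.1 ha.2.2.2) (fun a ha => ha.2.2.1)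
  exact ⟨U', M', ⟨h1.toFF, h3.trans H.sub, H.rY, H.dis, fun a ha => H.tB (h3 ha),
    fun a ha => H.hYB (h3 ha), fun a h4 h5 h6 h7 => h2 ⟨h4, h5, h6, h7⟩⟩, h1, h3⟩

theorem Wave.enlarge (H : Wave t h r G B Y U M) {B' : Set V} (hB : B ⊆ B') :
    ∃ U' M', Wave t h r G B' (Y \ B') U' M' ∧ U' ⊆ U := by
  refine ⟨{a | a ∈ U ∧ t a ∉ B'}, _, ⟨H.ff.restrict (fun a ha hY => ⟨ha.1, hY.1⟩) ?_,
    fun a ha => H.sub ha.1, fun h1 => H.rY h1.1, fun y hy => hy.2, fun a ha => ha.2, ?_, ?_⟩,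
    fun a ha => ha.1⟩
  · intro a b hab _ hY
    exact ⟨H.ff.memr hab, H.ff.adj hab ▸ hY.2⟩
  · intro a ha
    by_cases h1 : h a ∈ B'
    · exact Or.inr h1
    · exact Or.inl ⟨(H.hYB ha.1).resolve_right fun h2 => h1 (hB h2), h1⟩
  · intro a haG hY h1 h2
    exact ⟨H.ent haG hY.1 (fun h3 => h1 ⟨h3, h2⟩) (fun h3 => h2 (hB h3)), h2⟩

theorem Wave.compose {Y1 : Set V} {U1 : Set E} {M1 : E → E → Prop} (H : Wave t h r G B Y U M)
    (H1 : Wave t h r G (B ∪ Y) Y1 U1 M1) :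
    ∃ U' M', Wave t h r G B (Y ∪ Y1) U' M' ∧
      ∀ Sm : Set E → Prop, (∀ s s', s ⊆ s' → Sm s' → Sm s) → LS Sm h Y U → LS Sm h Y1 U1 →
        LS Sm h (Y ∪ Y1) U' := by
  have ha : ∀ a ∈ U1, h a ∈ Y → a ∈ U := fun a ha hY =>
    H.ent (H1.sub ha) hY (fun h1 => H1.tB ha (Or.inr h1)) (fun h1 => H1.tB ha (Or.inl h1))
  have hc : ∀ a ∈ U, h a ∉ Y1 := fun a ha hY => H1.dis hY (H.hYB ha).symm
  refine ⟨U ∪ U1, _, ⟨H.ff.compose H1.ff (disjoint_left.2 fun y hy h1 => H1.dis h1 (Or.inr hy))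
    ha hc, union_subset H.sub H1.sub, fun h1 => h1.elim H.rY H1.rY, ?_, ?_, ?_, ?_⟩, ?_⟩
  · rintro y (hy | hy)
    · exact H.dis hy
    · exact fun h1 => H1.dis hy (Or.inl h1)
  · rintro a (h1 | h1)
    · exact H.tB h1
    · exact fun h2 => H1.tB h1 (Or.inl h2)
  · rintro a (h1 | h1)
    · exact (H.hYB h1).imp_left Or.inl
    · rcases H1.hYB h1 with h2 | h2 | h2
      · exact Or.inl (Or.inr h2)
      · exact Or.inr h2
      · exact Or.inl (Or.inl h2)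
  · rintro a haG (hY | hY) h1 h2
    · exact Or.inl (H.ent haG hY (fun h3 => h1 (Or.inl h3)) h2)
    · exact Or.inr (H1.ent haG hY (fun h3 => h1 (Or.inr h3))
        (fun h3 => h3.elim h2 fun h4 => h1 (Or.inl h4)))
  · rintro Sm hSm h1 h2 y (hy | hy)
    · refine hSm _ _ ?_ (h1 y hy)
      rintro a ⟨h3 | h3, rfl⟩
      · exact ⟨h3, rfl⟩
      · exact ⟨ha a h3 hy, rfl⟩
    · refine hSm _ _ ?_ (h2 y hy)
      rintro a ⟨h3 | h3, rfl⟩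
      · exact (hc a h3 hy).elim
      · exact ⟨h3, rfl⟩

/-- Union of a well-ordered family of waves in a decreasing family of graphs. -/
theorem wave_levels {ι : Type*} [LinearOrder ι] [WellFoundedLT ι] {G : ι → Set E}
    {Y : ι → Set V} {U : ι → Set E} {M : ι → E → E → Prop}
    (H : ∀ i, Wave t h r (G i) B (Y i) (U i) (M i)) (hG : Antitone G) :
    ∃ U' M', FF t h (⋃ i, Y i) U' M' ∧ U' ⊆ ⋃ i, U i ∧
      (∀ a, (∀ i, a ∈ G i) → h a ∈ ⋃ i, Y i → t a ∉ ⋃ i, Y i → t a ∉ B → a ∈ U') ∧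
      ∀ y ∈ ⋃ i, Y i, ∃ i, y ∈ Y i ∧ ∀ a ∈ U', h a = y → a ∈ U i := by
  let Lv : V → ι → Prop := fun y i => y ∈ Y i ∧ ∀ j < i, y ∉ Y j
  have ex : ∀ y i, y ∈ Y i → ∃ j ≤ i, Lv y j := by
    intro y i hi
    obtain ⟨j, hj, hmin⟩ := WellFounded.has_min (wellFounded_lt (α := ι)) {i | y ∈ Y i} ⟨i, hi⟩
    exact ⟨j, not_lt.1 (hmin i hi), hj, fun k hk hy => hmin k hy hk⟩
  have uq : ∀ y i j, Lv y i → Lv y j → i = j := by
    intro y i j hi hj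
    rcases lt_trichotomy i j with h1 | h1 | h1
    · exact (hj.2 i h1 hi.1).elim
    · exact h1
    · exact (hi.2 j h1 hj.1).elim
  let U' : Set E := {a | ∃ i, a ∈ U i ∧ (Lv (h a) i ∨ Lv (t a) i)}
  let M' : E → E → Prop := fun a b => ∃ i, M i a b ∧ Lv (h a) i
  have key : ∀ a ∈ U', ∀ i, Lv (h a) i → a ∈ U i := by
    rintro a ⟨j, hj, h1 | h1⟩ i hi
    · exact uq _ _ _ h1 hi ▸ hj
    · rcases lt_trichotomy i j with h2 | h2 | h2
      · exact (H i).ent (hG h2.le ((H j).sub hj)) hi.1 (h1.2 i h2) ((H j).tB hj)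
      · exact h2 ▸ hj
      · exact (hi.2 j h2 (((H j).hYB hj).resolve_right ((H i).dis hi.1))).elim
  refine ⟨U', M', ⟨⟨?_, ?_, ?_, ?_, ?_, ?_⟩, ?_, ?_⟩, ?_, ?_, ?_⟩
  · rintro a b ⟨i, h1, h2⟩
    exact ⟨i, (H i).ff.meml h1, Or.inl h2⟩
  · rintro a b ⟨i, h1, h2⟩
    exact ⟨i, (H i).ff.memr h1, Or.inr ((H i).ff.adj h1 ▸ h2)⟩
  · rintro a b ⟨i, h1, _⟩
    exact (H i).ff.adj h1
  · rintro a b ⟨i, _, h2⟩
    exact mem_iUnion.2 ⟨i, h2.1⟩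
  · rintro a b c ⟨i, h1, h2⟩ ⟨j, h3, h4⟩
    obtain rfl := uq _ _ _ h2 h4
    exact (H i).ff.fn h1 h3
  · rintro a b c ⟨i, h1, h2⟩ ⟨j, h3, h4⟩
    rw [(H i).ff.adj h1] at h2
    rw [(H j).ff.adj h3] at h4
    obtain rfl := uq _ _ _ h2 h4
    exact (H i).ff.inj h1 h3
  · intro a ha hY
    obtain ⟨i, hi⟩ := mem_iUnion.1 hY
    obtain ⟨j, -, hj⟩ := ex _ i hi
    obtain ⟨b, hb⟩ := (H j).ff.tot (key a ha j hj) hj.1
    exact ⟨b, j, hb, hj⟩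
  · have k : ∀ i a, Lv (h a) i → Acc (swap M') a := by
      intro i
      induction i using WellFoundedLT.induction with
      | _ i ihi =>
        intro a
        induction a using (H i).ff.wf.induction with
        | _ a iha =>
          intro ha
          refine ⟨a, ?_⟩
          rintro b ⟨j, hb, hj⟩
          obtain rfl := uq _ _ _ ha hj
          rcases (H i).hYB ((H i).ff.memr hb) with h1 | h1
          · obtain ⟨k, hk, hk'⟩ := ex _ i h1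
            rcases hk.lt_or_eq with h2 | rfl
            · exact ihi k h2 b hk'
            · exact iha b hb hk'
          · refine ⟨b, ?_⟩
            rintro c ⟨k, _, hk⟩
            exact ((H k).dis hk.1 h1).elim
    refine ⟨fun a => ⟨a, ?_⟩⟩
    rintro b ⟨i, h1, h2⟩
    exact (k i a h2).inv ⟨i, h1, h2⟩
  · rintro a ⟨i, hi, _⟩
    exact mem_iUnion.2 ⟨i, hi⟩
  · intro a haG hY h1 h2
    obtain ⟨i, hi⟩ := mem_iUnion.1 hY
    obtain ⟨j, -, hj⟩ := ex _ i hi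
    exact ⟨j, (H j).ent (haG j) hj.1 (fun h3 => h1 (mem_iUnion.2 ⟨j, h3⟩)) h2, Or.inl hj⟩
  · intro y hy
    obtain ⟨i, hi⟩ := mem_iUnion.1 hy
    obtain ⟨j, -, hj⟩ := ex _ i hi
    exact ⟨j, hj.1, fun a ha h1 => key a ha j (h1 ▸ hj)⟩

/-- The largest wave. -/
theorem exists_max_wave (t h : E → V) (r : V) (G : Set E) (B : Set V) (Sm : Set E → Prop)
    (hSm : ∀ s s', s ⊆ s' → Sm s' → Sm s) :
    ∃ Y U M, Wave t h r G B Y U M ∧ LS Sm h Y U ∧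
      (∀ Y' U' M', Wave t h r G B Y' U' M' → LS Sm h Y' U' → Y' ⊆ Y) ∧
      ∀ Y' U' M', Wave t h r G (B ∪ Y) Y' U' M' → LS Sm h Y' U' → Y' = ∅ := by
  let ι := {p : Set V × Set E × (E → E → Prop) //
    Wave t h r G B p.1 p.2.1 p.2.2 ∧ LS Sm h p.1 p.2.1}
  obtain ⟨_, _⟩ := exists_wellFoundedLT (α := ι)
  obtain ⟨U, M, h1, h2, h3, h4⟩ := wave_levels (G := fun _ : ι => G) (Y := fun i => i.1.1)
    (U := fun i => i.1.2.1) (M := fun i => i.1.2.2) (fun i => i.2.1) (fun _ _ _ => le_rfl)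
  have hW : Wave t h r G B (⋃ i : ι, i.1.1) U M := by
    refine ⟨h1, ?_, ?_, ?_, ?_, ?_, fun a ha => h3 a fun _ => ha⟩
    · intro a ha
      obtain ⟨i, hi⟩ := mem_iUnion.1 (h2 ha)
      exact i.2.1.sub hi
    · intro h5
      obtain ⟨i, hi⟩ := mem_iUnion.1 h5
      exact i.2.1.rY hi
    · intro y hy
      obtain ⟨i, hi⟩ := mem_iUnion.1 hy
      exact i.2.1.dis hi
    · intro a ha
      obtain ⟨i, hi⟩ := mem_iUnion.1 (h2 ha)
      exact i.2.1.tB hi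
    · intro a ha
      obtain ⟨i, hi⟩ := mem_iUnion.1 (h2 ha)
      exact (i.2.1.hYB hi).imp_left fun h5 => mem_iUnion.2 ⟨i, h5⟩
  have hL : LS Sm h (⋃ i : ι, i.1.1) U := by
    intro y hy
    obtain ⟨i, hi, h5⟩ := h4 y hy
    refine hSm _ _ ?_ (i.2.2 y hi)
    exact fun a ha => ⟨h5 a ha.1 ha.2, ha.2⟩
  have hmax : ∀ Y' U' M', Wave t h r G B Y' U' M' → LS Sm h Y' U' → Y' ⊆ ⋃ i : ι, i.1.1 :=
    fun Y' U' M' h5 h6 y hy => mem_iUnion.2 ⟨⟨(Y', U', M'), h5, h6⟩, hy⟩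
  refine ⟨_, U, M, hW, hL, hmax, ?_⟩
  intro Y' U' M' h5 h6
  obtain ⟨U'', M'', h7, h8⟩ := hW.compose h5
  refine eq_empty_of_forall_notMem fun y hy => ?_
  exact h5.dis hy (Or.inr (hmax _ _ _ h7 (h8 Sm hSm hL h6) (Or.inr hy)))

/-- Removing a residually closed set from a wave. -/
theorem Wave.remove {G0 : Set E} (H : Wave t h r G0 B Y U M) (hU : U ⊆ G) {W : Set V}
    (hent : ∀ a ∈ G, h a ∈ Y → h a ∉ W → t a ∉ Y → t a ∉ B → a ∈ U)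
    (h1 : ∀ a ∈ G, h a ∈ Y → a ∉ U → t a ∈ W → h a ∈ W)
    (h2 : ∀ a ∈ U, h a ∈ W → t a ∈ Y → t a ∈ W) :
    ∃ U' M', Wave t h r G B (Y \ W) U' M' ∧ U' ⊆ U := by
  refine ⟨{a | a ∈ U ∧ h a ∉ W}, _, ⟨H.ff.restrict (fun a ha hY => ⟨ha.1, hY.1⟩) ?_,
    fun a ha => hU ha.1, fun h3 => H.rY h3.1, fun y hy => H.dis hy.1, fun a ha => H.tB ha.1,
    fun a ha => (H.hYB ha.1).imp_left fun h3 => ⟨h3, ha.2⟩, ?_⟩, fun a ha => ha.1⟩
  · intro a b hab _ hY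
    refine ⟨H.ff.memr hab, fun h3 => hY.2 ?_⟩
    rw [H.ff.adj hab]
    exact h2 b (H.ff.memr hab) h3 (H.ff.toMat.int' hab)
  · intro a haG hY h3 h4
    refine ⟨?_, hY.2⟩
    by_cases h5 : t a ∈ Y
    · by_contra h6
      exact hY.2 (h1 a haG hY.1 h6 (by_contra fun h7 => h3 ⟨h5, h7⟩))
    · exact hent a haG hY.1 hY.2 h5 h4

theorem Hind.congr {G' : Set E} (H : Hind t h r G B) (hG : ∀ a, t a ∉ B → (a ∈ G ↔ a ∈ G')) :
    Hind t h r G' B := by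
  obtain ⟨Y, U, M, h1, h2, z, h3, h4, h5, h6⟩ := H
  exact ⟨Y, U, M, ⟨h1.ff, fun a ha => (hG a (h1.tB ha)).1 (h1.sub ha), h1.rY, h1.dis, h1.tB,
    h1.hYB, fun a ha h7 h8 h9 => h1.ent ((hG a h9).2 ha) h7 h8 h9⟩, h2, z,
    (hG z (h1.dis h5)).1 h3, h4, h5, h6⟩

/-- If deleting an edge creates a hindrance then its head lies in a wave. -/
theorem Hind.of_delete {f : E} (hf : f ∈ G) (H : Hind t h r (G \ {f}) B) :
    Hind t h r G B ∨ ∃ Y U M, Wave t h r G B Y U M ∧ LS Set.Finite h Y U ∧ h f ∈ Y := by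
  obtain ⟨Y, U0, M0, hw0, hl0, z, hzG, hzB, hzY, hzU0⟩ := H
  obtain ⟨U, M, hw, hL, hU⟩ := hw0.link
  have hl : LS Set.Finite h Y U := hl0.fin_sub Subset.rfl hU
  have hzU : z ∉ U := fun h1 => hzU0 (hU h1)
  by_cases he : h f ∈ Y ∧ t f ∉ Y ∧ t f ∉ B
  swap
  · left
    refine ⟨Y, U, M, ⟨hw.ff, fun a ha => (hw.sub ha).1, hw.rY, hw.dis, hw.tB, hw.hYB, ?_⟩, hl, z,
      hzG.1, hzB, hzY, hzU⟩
    intro a ha h1 h2 h3
    refine hw.ent ⟨ha, ?_⟩ h1 h2 h3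
    rintro rfl
    exact he ⟨h1, h2, h3⟩
  have hfU : f ∉ U := fun h1 => (hw.sub h1).2 rfl
  rcases hL.augment (G := {a | a ∈ G ∧ t a ∉ B ∧ (h a ∈ Y ∨ h a ∈ B)})
    (fun a ha => ⟨(hw.sub ha).1, hw.tB ha, hw.hYB ha⟩) (c := f) ⟨hf, he.2.2, Or.inl he.1⟩ hfU
    he.2.1 with ⟨U', M', e, h1, h2, h3, h4, -⟩ | ⟨W, hW, h1, h2, h3, -⟩
  · right
    refine ⟨Y, U', M', ⟨h1.toFF, fun a ha => (h2 ha).1, hw.rY, hw.dis, fun a ha => (h2 ha).2.1,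
      fun a ha => (h2 ha).2.2, ?_⟩, hl.fin_mono Subset.rfl h3, he.1⟩
    intro a ha h5 h6 h7
    rw [h4 a h6]
    by_cases haf : a = f
    · exact Or.inr haf
    · exact Or.inl (hw.ent ⟨ha, haf⟩ h5 h6 h7)
  · left
    obtain ⟨U', M', h4, h5⟩ := hw.remove (G := G) (W := W) (fun a ha => (hw.sub ha).1)
      (fun a ha h4 h5 h6 h7 => hw.ent ⟨ha, fun h8 => h5 ((mem_singleton_iff.1 h8) ▸ h1)⟩ h4 h6 h7)
      (fun a ha h4 h5 h6 => h2 a ⟨ha, hw.dis (hW h6), Or.inl h4⟩ h5 h6) h3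
    refine ⟨_, U', M', h4, hl.fin_sub sdiff_subset h5, z, hzG.1, hzB, ⟨hzY, fun h6 => ?_⟩,
      fun h6 => hzU (h5 h6)⟩
    exact hw.dis (hW (h2 z ⟨hzG.1, hw.dis hzY, Or.inr hzB⟩ hzU h6)) hzB

/-- Deleting an edge that does not end in a sink keeps a hindrance. -/
theorem Hind.delete {f : E} (hf : h f ∉ B) (H : Hind t h r G B) : Hind t h r (G \ {f}) B := by
  obtain ⟨Y, U0, M0, hw0, hl0, z, hzG, hzB, hzY, hzU0⟩ := H
  obtain ⟨U, M, hw, hL, hU⟩ := hw0.link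
  have hl : LS Set.Finite h Y U := hl0.fin_sub Subset.rfl hU
  have hzU : z ∉ U := fun h1 => hzU0 (hU h1)
  have hzf : z ∈ G \ {f} := ⟨hzG, fun h1 => hf ((mem_singleton_iff.1 h1) ▸ hzB)⟩
  by_cases hfU : f ∈ U
  swap
  · exact ⟨Y, U, M, ⟨hw.ff, fun a ha => ⟨hw.sub ha, fun h1 => hfU ((mem_singleton_iff.1 h1) ▸ ha)⟩,
      hw.rY, hw.dis, hw.tB, hw.hYB, fun a ha => hw.ent ha.1⟩, hl, z, hzf, hzB, hzY, hzU⟩
  obtain ⟨C, c, z', hfC, hCU, hCfin, hcl, hcC, hcY, hc, hz'C, hz'Y, hz'⟩ := hL.comp hfU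
  have hL1 := hL.sub (C := U \ C) sdiff_subset (fun a b hab => by
    simp only [mem_sdiff, hL.meml hab, hL.memr hab, true_and, hcl a b hab])
  have hsub : U \ C ⊆ G \ {f} := fun a ha =>
    ⟨hw.sub ha.1, fun h1 => ha.2 ((mem_singleton_iff.1 h1) ▸ hfC)⟩
  have hl1 : LS Set.Finite h Y (U \ C) := hl.fin_sub Subset.rfl sdiff_subset
  have hent : ∀ a ∈ G, h a ∈ Y → t a ∉ Y → t a ∉ B → a ≠ c → a ∈ U \ C :=
    fun a ha h1 h2 h3 h4 => ⟨hw.ent ha h1 h2 h3, fun h5 => h4 (hc a h5 h2)⟩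
  by_cases hcf : c = f
  · exact ⟨Y, U \ C, _, ⟨hL1.toFF, hsub, hw.rY, hw.dis, fun a ha => hw.tB ha.1,
      fun a ha => hw.hYB ha.1, fun a ha h1 h2 h3 => hent a ha.1 h1 h2 h3 (hcf ▸ ha.2)⟩, hl1, z,
      hzf, hzB, hzY, fun h1 => hzU h1.1⟩
  have hz'B : h z' ∈ B := (hw.hYB (hCU hz'C)).resolve_left hz'Y
  have hz'f : z' ≠ f := fun h1 => hf (h1 ▸ hz'B)
  have hz't : t z' ∈ Y := by
    by_contra h1
    have h2 : z' = c := hc z' hz'C h1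
    have h3 : h f ∈ Y := (hw.hYB hfU).resolve_right hf
    -- the component is a single edge
    have h4 : ∀ a ∈ C, a = c := by
      intro a
      induction a using hL.wf'.induction with
      | _ a ih =>
        intro ha
        by_contra h5
        obtain ⟨b, hb⟩ := hL.tot' (hCU ha) (by_contra fun h6 => h5 (hc a ha h6))
        have h6 := ih b hb ((hcl b a hb).2 ha)
        exact hz'Y (h2 ▸ h6 ▸ hL.int hb)
    exact hcf (h4 f hfC).symm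
  rcases hL1.augment (G := {a | a ∈ G \ {f} ∧ t a ∉ B ∧ (h a ∈ Y ∨ h a ∈ B)})
    (fun a ha => ⟨hsub ha, hw.tB ha.1, hw.hYB ha.1⟩) (c := c)
    ⟨⟨hw.sub (hCU hcC), hcf⟩, hw.tB (hCU hcC), hw.hYB (hCU hcC)⟩ (fun h1 => h1.2 hcC) hcY with
    ⟨U', M', e, h1, h2, h3, h4, -, -, h5⟩ | ⟨W, hW, h1, h2, h3, -⟩
  · have hw' : Wave t h r (G \ {f}) B Y U' M' := by
      refine ⟨h1.toFF, fun a ha => (h2 ha).1, hw.rY, hw.dis, fun a ha => (h2 ha).2.1,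
        fun a ha => (h2 ha).2.2, ?_⟩
      intro a ha h6 h7 h8
      rw [h4 a h7]
      by_cases hac : a = c
      · exact Or.inr hac
      · exact Or.inl (hent a ha.1 h6 h7 h8 hac)
    by_cases hze : z = e
    · refine ⟨Y, U', M', hw', hl1.fin_mono Subset.rfl h3, z', ⟨hw.sub (hCU hz'C), hz'f⟩, hz'B,
        hz't, ?_⟩
      rw [h5 z' hz'Y]
      rintro (h6 | h6)
      · exact h6.2 hz'C
      · exact hzU (hze ▸ h6 ▸ hCU hz'C)
    · refine ⟨Y, U', M', hw', hl1.fin_mono Subset.rfl h3, z, hzf, hzB, hzY, ?_⟩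
      rw [h5 z (fun h6 => hw.dis h6 hzB)]
      rintro (h6 | h6)
      · exact hzU h6.1
      · exact hze h6
  · have hw1 : Wave t h r (U \ C) B Y (U \ C) _ := ⟨hL1.toFF, Subset.rfl, hw.rY, hw.dis,
      fun a ha => hw.tB ha.1, fun a ha => hw.hYB ha.1, fun a ha _ _ _ => ha⟩
    obtain ⟨U', M', h4, h5⟩ := hw1.remove (G := G \ {f}) (W := W) hsub
      (fun a ha h4 h5 h6 h7 => hent a ha.1 h4 h6 h7 fun h8 => h5 (h8 ▸ h1))
      (fun a ha h4 h5 h6 => h2 a ⟨ha, hw.dis (hW h6), Or.inl h4⟩ h5 h6) h3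
    refine ⟨_, U', M', h4, hl1.fin_sub sdiff_subset h5, z, hzf, hzB, ⟨hzY, fun h6 => ?_⟩,
      fun h6 => hzU (h5 h6).1⟩
    exact hw.dis (hW (h2 z ⟨hzf, hw.dis hzY, Or.inr hzB⟩ (fun h7 => hzU h7.1) h6)) hzB

theorem Hind.delete_finite {F : Set E} (hF : F.Finite) (hf : ∀ f ∈ F, h f ∉ B)
    (H : Hind t h r G B) : Hind t h r (G \ F) B := by
  induction F, hF using Set.Finite.induction_on with
  | empty => simpa using H
  | @insert f F _ _ ih =>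
    have := (ih fun a ha => hf a (Or.inr ha)).delete (hf f (Or.inl rfl))
    convert this using 1
    ext a
    simp only [mem_sdiff, mem_insert_iff, mem_singleton_iff]
    tauto

end Pool.Agent.P.MP_133cc4_co
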